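import Mathlib

/-!
# Sequence spaces, shifts and characters (for the bifurcation argument of MP_11bc5f)
-/

namespace Pool.Agent.R246.BifA

open scoped ENNReal Topology

noncomputable section

/-- real `ℓ¹` sequences indexed by `ι` -/
abbrev ell (ι : Type) : Type := lp (fun _ : ι => ℝ) 1

theorem ell_summable {ι : Type} (x : ell ι) : Summable (fun i => |x i|) := by
  have h := (lp.memℓp x).summable (by simp)
  simpa using h

theorem ell_norm {ι : Type} (x : ell ι) : ‖x‖ = ∑' i, |x i| := by
  have h := lp.norm_eq_tsum_rpow (p := 1) (by simp) x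
  simpa using h

theorem ell_apply_le {ι : Type} (x : ell ι) (i : ι) : |x i| ≤ ‖x‖ := by
  have := lp.norm_apply_le_norm (p := 1) (by simp) x i
  simpa using this

/-- the linear map `x ↦ ∑ x i • T i` -/
def sumMap {ι : Type} {E : Type*} [NormedAddCommGroup E] [NormedSpace ℝ E] [CompleteSpace E]
    (T : ι → E) (C : ℝ) (h : ∀ i, ‖T i‖ ≤ C) : ell ι →L[ℝ] E :=
  LinearMap.mkContinuous
    { toFun := fun x => ∑' i, x i • T i
      map_add' := by
        intro x y
        have hs : ∀ z : ell ι, Summable (fun i => z i • T i) := by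
          intro z
          refine Summable.of_norm_bounded (g := fun i => |z i| * C)
            ((ell_summable z).mul_right C) ?_
          intro i
          rw [norm_smul, Real.norm_eq_abs]
          exact mul_le_mul_of_nonneg_left (h i) (abs_nonneg _)
        rw [← (hs x).tsum_add (hs y)]
        refine tsum_congr fun i => ?_
        rw [lp.coeFn_add, Pi.add_apply, add_smul]
      map_smul' := by
        intro c x
        simp only [lp.coeFn_smul, Pi.smul_apply, smul_eq_mul, RingHom.id_apply]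
        rw [← tsum_const_smul'' c]
        refine tsum_congr fun i => ?_
        rw [mul_smul] } C
    (by
      intro x
      simp only [LinearMap.coe_mk, AddHom.coe_mk]
      have h1 : ∀ i, ‖x i • T i‖ ≤ |x i| * C := by
        intro i
        rw [norm_smul, Real.norm_eq_abs]
        exact mul_le_mul_of_nonneg_left (h i) (abs_nonneg _)
      have h2 : Summable (fun i => |x i| * C) := (ell_summable x).mul_right C
      calc ‖∑' i, x i • T i‖ ≤ ∑' i, |x i| * C := tsum_of_norm_bounded h2.hasSum h1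
        _ = C * ‖x‖ := by rw [tsum_mul_right, ell_norm, mul_comm])

theorem sumMap_apply {ι : Type} {E : Type*} [NormedAddCommGroup E] [NormedSpace ℝ E]
    [CompleteSpace E] (T : ι → E) (C : ℝ) (h : ∀ i, ‖T i‖ ≤ C) (x : ell ι) :
    sumMap T C h x = ∑' i, x i • T i := rfl

theorem sumMap_summable {ι : Type} {E : Type*} [NormedAddCommGroup E] [NormedSpace ℝ E]
    [CompleteSpace E] (T : ι → E) (C : ℝ) (h : ∀ i, ‖T i‖ ≤ C) (x : ell ι) :
    Summable (fun i => x i • T i) := by
  refine Summable.of_norm_bounded (g := fun i => |x i| * C) ((ell_summable x).mul_right C) ?_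
  intro i
  rw [norm_smul, Real.norm_eq_abs]
  exact mul_le_mul_of_nonneg_left (h i) (abs_nonneg _)

/-- reindexing along an injective map -/
def pull {ι κ : Type} (σ : κ → ι) (hσ : Function.Injective σ) : ell ι →L[ℝ] ell κ :=
  LinearMap.mkContinuous
    { toFun := fun x => ⟨fun k => x (σ k), memℓp_gen (by
        have h := (ell_summable x).comp_injective hσ
        simpa [Function.comp_def] using h)⟩
      map_add' := by intro x y; ext k; rfl
      map_smul' := by intro c x; ext k; rfl } 1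
    (by
      intro x
      rw [one_mul, ell_norm, ell_norm]
      exact tsum_comp_le_tsum_of_inj (ell_summable x) (fun i => abs_nonneg _) hσ)

theorem pull_norm {ι κ : Type} (σ : κ → ι) (hσ : Function.Injective σ) : ‖pull σ hσ‖ ≤ 1 :=
  LinearMap.mkContinuous_norm_le _ zero_le_one _

theorem pull_apply {ι κ : Type} (σ : κ → ι) (hσ : Function.Injective σ) (x : ell ι) (k : κ) :
    pull σ hσ x k = x (σ k) := rfl

/-- the Banach algebra of bounded operators on `ℓ¹(ℤ)` -/
abbrev BB : Type := ell ℤ →L[ℝ] ell ℤ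

theorem sub_inj (k : ℤ) : Function.Injective (fun n : ℤ => n - k) := by
  intro a b h
  simpa using h

/-- the shift `(S_k x)(n) = x(n-k)` -/
def Sh (k : ℤ) : BB := pull (fun n => n - k) (sub_inj k)

theorem Sh_apply (k : ℤ) (x : ell ℤ) (n : ℤ) : Sh k x n = x (n - k) := rfl

theorem Sh_norm (k : ℤ) : ‖Sh k‖ ≤ 1 := pull_norm _ _

/-- the unit vector at `0` -/
def e0 : ell ℤ := lp.single 1 0 (1 : ℝ)

theorem e0_apply (n : ℤ) : e0 n = if n = 0 then 1 else 0 := by
  unfold e0
  by_cases h : n = 0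
  · subst h; simp
  · rw [if_neg h]
    exact lp.single_apply_ne (E := fun _ : ℤ => ℝ) 1 0 (1:ℝ) h

theorem e0_norm : ‖e0‖ = 1 := by
  unfold e0
  rw [lp.norm_single (by simp)]
  simp

/-- evaluation of the Fourier series at `e^{iθ}` -/
def ev (θ : ℝ) : ell ℤ →L[ℝ] ℂ :=
  sumMap (fun k : ℤ => Complex.exp (Complex.I * k * θ)) 1 (by
    intro k
    rw [Complex.norm_exp]
    simp)

theorem ev_apply (θ : ℝ) (x : ell ℤ) :
    ev θ x = ∑' k : ℤ, (x k : ℂ) * Complex.exp (Complex.I * k * θ) := by
  unfold ev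
  rw [sumMap_apply]
  refine tsum_congr fun k => ?_
  rw [Complex.real_smul]

theorem ev_summable (θ : ℝ) (x : ell ℤ) :
    Summable (fun k : ℤ => (x k : ℂ) * Complex.exp (Complex.I * k * θ)) := by
  refine Summable.of_norm_bounded (g := fun k => |x k|) (ell_summable x) ?_
  intro k
  rw [norm_mul, Complex.norm_exp]
  simp

/-- `T` acts on Fourier series as multiplication by a function with value `c` at `e^{iθ}` -/
def Ch (θ : ℝ) (T : BB) (c : ℂ) : Prop := ∀ x : ell ℤ, ev θ (T x) = c * ev θ x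

theorem Ch_one (θ : ℝ) : Ch θ 1 1 := by
  intro x; simp

theorem Ch_zero (θ : ℝ) : Ch θ 0 0 := by
  intro x; simp

theorem Ch.add {θ : ℝ} {T T' : BB} {c c' : ℂ} (h : Ch θ T c) (h' : Ch θ T' c') :
    Ch θ (T + T') (c + c') := by
  intro x
  rw [add_apply, map_add, h x, h' x, add_mul]

theorem Ch.sub {θ : ℝ} {T T' : BB} {c c' : ℂ} (h : Ch θ T c) (h' : Ch θ T' c') :
    Ch θ (T - T') (c - c') := by
  intro x
  rw [sub_apply, map_sub, h x, h' x, sub_mul]

theorem Ch.mul {θ : ℝ} {T T' : BB} {c c' : ℂ} (h : Ch θ T c) (h' : Ch θ T' c') :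
    Ch θ (T * T') (c * c') := by
  intro x
  rw [mul_apply_eq_comp, h, h', mul_assoc]

theorem Ch.smul {θ : ℝ} {T : BB} {c : ℂ} (r : ℝ) (h : Ch θ T c) :
    Ch θ (r • T) (r * c) := by
  intro x
  rw [smul_apply, map_smul, h x, Complex.real_smul, mul_assoc]

theorem Ch.pow {θ : ℝ} {T : BB} {c : ℂ} (h : Ch θ T c) (n : ℕ) : Ch θ (T ^ n) (c ^ n) := by
  induction n with
  | zero => rw [pow_zero, pow_zero]; exact Ch_one θ
  | succ n ih => rw [pow_succ, pow_succ]; exact ih.mul h

theorem Ch.hasSum {θ : ℝ} {ι : Type} {T : ι → BB} {c : ι → ℂ} {S : BB} {s : ℂ}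
    (h : ∀ i, Ch θ (T i) (c i)) (hS : HasSum T S) (hs : HasSum c s) : Ch θ S s := by
  intro x
  have h1 : HasSum (fun i => ev θ (T i x)) (ev θ (S x)) := by
    have := (hS.mapL (ContinuousLinearMap.apply ℝ (ell ℤ) x)).mapL (ev θ)
    simpa using this
  have h2 : HasSum (fun i => c i * ev θ x) (s * ev θ x) := hs.mul_right _
  have h3 : (fun i => ev θ (T i x)) = fun i => c i * ev θ x := by
    funext i; exact h i x
  rw [h3] at h1
  exact h1.unique h2

theorem Ch.exp {θ : ℝ} {T : BB} {c : ℂ} (h : Ch θ T c) :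
    Ch θ (NormedSpace.exp T) (Complex.exp c) := by
  have h1 : HasSum (fun n : ℕ => ((n.factorial : ℝ)⁻¹) • T ^ n) (NormedSpace.exp T) :=
    NormedSpace.exp_series_hasSum_exp' (𝕂 := ℝ) T
  have h2 : HasSum (fun n : ℕ => (((n.factorial : ℝ)⁻¹ : ℝ) : ℂ) * c ^ n) (Complex.exp c) := by
    have := NormedSpace.exp_series_hasSum_exp' (𝕂 := ℂ) c
    rw [← Complex.exp_eq_exp_ℂ] at this
    refine this.congr_fun ?_ |> fun h => h
    intro n
    simp
  exact Ch.hasSum (fun n => (h.pow n).smul _) h1 h2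

theorem Ch_Sh (θ : ℝ) (k : ℤ) : Ch θ (Sh k) (Complex.exp (Complex.I * k * θ)) := by
  intro x
  rw [ev_apply, ev_apply, ← tsum_mul_left]
  rw [← (Equiv.addRight k).tsum_eq]
  refine tsum_congr fun n => ?_
  simp only [Equiv.coe_addRight, Sh_apply, add_sub_cancel_right]
  have : Complex.exp (Complex.I * ((n + k : ℤ) : ℂ) * θ)
      = Complex.exp (Complex.I * k * θ) * Complex.exp (Complex.I * n * θ) := by
    rw [← Complex.exp_add]
    congr 1
    push_cast
    ring
  rw [this]
  ring

/-- coefficient sequence of an operator -/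
theorem ev_e0 (θ : ℝ) : ev θ e0 = 1 := by
  rw [ev_apply, tsum_eq_single 0]
  · simp [e0_apply]
  · intro n hn
    rw [e0_apply, if_neg hn]
    simp

theorem Ch.ev_apply_e0 {θ : ℝ} {T : BB} {c : ℂ} (h : Ch θ T c) :
    ev θ (T e0) = c := by
  rw [h e0, ev_e0, mul_one]

end

end Pool.Agent.R246.BifA
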