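import Mathlib
import Pool.Agent.R246.BifA

/-!
# The nonlinear map and its derivative along the trivial branch
-/

namespace Pool.Agent.R246.BifB

open scoped ENNReal Topology
open Pool.Agent.R246.BifA

noncomputable section

section general

variable {P 𝔸 : Type*} [NormedAddCommGroup P] [NormedSpace ℝ P] [NormedRing 𝔸]
  [NormedAlgebra ℝ 𝔸] [CompleteSpace 𝔸]

/-- abstract form of the map -/
def GM (m : P →L[ℝ] ℝ) (F Q Qb : P →L[ℝ] 𝔸) (p : P) : 𝔸 :=
  NormedSpace.exp ((-(m p)) • (NormedSpace.exp (F p) - 1)) *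
    ((m p) • (NormedSpace.exp (F p) * (1 + Qb p)) + (1 + Q p))

theorem GM_strict (m : P →L[ℝ] ℝ) (F Q Qb : P →L[ℝ] 𝔸) (p0 : P) (hF : F p0 = 0)
    (hQ : Q p0 = 0) (hQb : Qb p0 = 0) :
    HasStrictFDerivAt (GM m F Q Qb)
      (m.smulRight (1 : 𝔸) + (-((m p0) ^ 2)) • F + (m p0) • Qb + Q) p0 := by
  have he : HasStrictFDerivAt (NormedSpace.exp : 𝔸 → 𝔸) (1 : 𝔸 →L[ℝ] 𝔸) 0 :=
    hasStrictFDerivAt_exp_zero
  have h1 : HasStrictFDerivAt (fun p : P => NormedSpace.exp (F p)) F p0 := by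
    have h1' : HasStrictFDerivAt (NormedSpace.exp : 𝔸 → 𝔸) (1 : 𝔸 →L[ℝ] 𝔸) (F p0) := by
      rw [hF]; exact he
    exact (h1'.comp p0 F.hasStrictFDerivAt).congr_fderiv (ContinuousLinearMap.ext fun p => rfl)
  have hm : HasStrictFDerivAt (fun p : P => m p) m p0 := m.hasStrictFDerivAt
  have h2 : HasStrictFDerivAt (fun p : P => (-(m p)) • (NormedSpace.exp (F p) - 1))
      ((-(m p0)) • F) p0 := by
    refine (hm.neg.smul (h1.sub_const 1)).congr_fderiv (ContinuousLinearMap.ext fun p => ?_)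
    simp [hF, NormedSpace.exp_zero]
  have h3 : HasStrictFDerivAt
      (fun p : P => NormedSpace.exp ((-(m p)) • (NormedSpace.exp (F p) - 1)))
      ((-(m p0)) • F) p0 := by
    have h1' : HasStrictFDerivAt (NormedSpace.exp : 𝔸 → 𝔸) (1 : 𝔸 →L[ℝ] 𝔸)
        ((fun p : P => (-(m p)) • (NormedSpace.exp (F p) - 1)) p0) := by
      have : (fun p : P => (-(m p)) • (NormedSpace.exp (F p) - 1)) p0 = 0 := by
        simp [hF, NormedSpace.exp_zero]
      rw [this]; exact he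
    exact (h1'.comp p0 h2).congr_fderiv (ContinuousLinearMap.ext fun p => rfl)
  have hQb' : HasStrictFDerivAt (fun p : P => (1 : 𝔸) + Qb p) Qb p0 :=
    (Qb.hasStrictFDerivAt (x := p0)).const_add 1
  have hQ' : HasStrictFDerivAt (fun p : P => (1 : 𝔸) + Q p) Q p0 :=
    (Q.hasStrictFDerivAt (x := p0)).const_add 1
  have h4 : HasStrictFDerivAt (fun p : P => NormedSpace.exp (F p) * (1 + Qb p))
      (F + Qb) p0 := by
    refine (h1.mul' hQb').congr_fderiv (ContinuousLinearMap.ext fun p => ?_)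
    simp [hF, hQb, NormedSpace.exp_zero, add_comm]
  have h5 : HasStrictFDerivAt
      (fun p : P => (m p) • (NormedSpace.exp (F p) * (1 + Qb p)) + (1 + Q p))
      (m.smulRight (1 : 𝔸) + (m p0) • (F + Qb) + Q) p0 := by
    refine ((hm.smul h4).add hQ').congr_fderiv (ContinuousLinearMap.ext fun p => ?_)
    simp [hF, hQb, NormedSpace.exp_zero]
    abel
  have h6 := h3.mul' h5
  refine h6.congr_fderiv (ContinuousLinearMap.ext fun p => ?_)
  simp only [hF, hQ, hQb, NormedSpace.exp_zero, sub_self, smul_zero, add_zero, mul_one,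
    add_apply, smul_apply, smul_eq_mul, one_mul, ContinuousLinearMap.smulRight_apply]
  have h7 : (MulOpposite.op (m p0 • (1 : 𝔸) + 1)) • (-(m p0) • F p)
      = (-((m p0) ^ 2)) • F p - (m p0) • F p := by
    change (-(m p0) • F p) * (m p0 • (1 : 𝔸) + 1) = _
    rw [mul_add, mul_one, smul_mul_assoc, mul_smul_comm, mul_one, smul_smul,
      show -(m p0 ^ 2) = -(m p0) * (m p0) by ring, neg_smul (m p0) (F p),
      ← sub_eq_add_neg]
  rw [h7, smul_add]
  abel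

end general

abbrev YY : Type := ell ℕ

/-- the parameter space `(μ, s, b)` -/
abbrev PP : Type := ℝ × ℝ × YY

def UU : YY →L[ℝ] BB := sumMap (fun n : ℕ => Sh ((n : ℤ) + 2)) 1 (fun _ => Sh_norm _)

def UB : YY →L[ℝ] BB := sumMap (fun n : ℕ => Sh (-((n : ℤ) + 2))) 1 (fun _ => Sh_norm _)

theorem VV_bd (n : ℕ) :
    ‖(1 / ((n : ℝ) + 2)) • (Sh ((n : ℤ) + 2) + Sh (-((n : ℤ) + 2)))‖ ≤ 1 := by
  rw [norm_smul]
  have h1 : ‖(1 / ((n : ℝ) + 2))‖ = 1 / ((n : ℝ) + 2) := by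
    rw [Real.norm_eq_abs, abs_of_pos (by positivity)]
  have h2 : ‖Sh ((n : ℤ) + 2) + Sh (-((n : ℤ) + 2))‖ ≤ 2 :=
    (norm_add_le _ _).trans (by linarith [Sh_norm ((n : ℤ) + 2), Sh_norm (-((n : ℤ) + 2))])
  rw [h1]
  have h3 : (0 : ℝ) ≤ n := Nat.cast_nonneg n
  rw [one_div, inv_mul_le_iff₀ (by positivity)]
  linarith

def VV : YY →L[ℝ] BB :=
  sumMap (fun n : ℕ => (1 / ((n : ℝ) + 2)) • (Sh ((n : ℤ) + 2) + Sh (-((n : ℤ) + 2)))) 1 VV_bd

def sL : PP →L[ℝ] ℝ := (ContinuousLinearMap.fst ℝ ℝ YY).comp (ContinuousLinearMap.snd ℝ ℝ (ℝ × YY))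
def bL : PP →L[ℝ] YY := (ContinuousLinearMap.snd ℝ ℝ YY).comp (ContinuousLinearMap.snd ℝ ℝ (ℝ × YY))
def mL : PP →L[ℝ] ℝ := ContinuousLinearMap.fst ℝ ℝ (ℝ × YY)

@[simp] theorem sL_apply (p : PP) : sL p = p.2.1 := rfl
@[simp] theorem bL_apply (p : PP) : bL p = p.2.2 := rfl
@[simp] theorem mL_apply (p : PP) : mL p = p.1 := rfl

/-- `Φ = φ + φ̄` as an operator -/
def PhiL : PP →L[ℝ] BB := sL.smulRight (Sh 1 + Sh (-1)) + VV.comp bL
/-- `q - 1` -/
def QL : PP →L[ℝ] BB := sL.smulRight (Sh 1) + UU.comp bL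
/-- `q̄ - 1` -/
def QbL : PP →L[ℝ] BB := sL.smulRight (Sh (-1)) + UB.comp bL

theorem PhiL_apply (p : PP) : PhiL p = p.2.1 • (Sh 1 + Sh (-1)) + VV p.2.2 := rfl
theorem QL_apply (p : PP) : QL p = p.2.1 • (Sh 1) + UU p.2.2 := rfl
theorem QbL_apply (p : PP) : QbL p = p.2.1 • (Sh (-1)) + UB p.2.2 := rfl

/-- the map `M = exp(-μ(e^Φ - 1)) (μ e^Φ q̄ + q)` -/
def MM (p : PP) : BB :=
  NormedSpace.exp ((-p.1) • (NormedSpace.exp (PhiL p) - 1)) *
    (p.1 • (NormedSpace.exp (PhiL p) * (1 + QbL p)) + (1 + QL p))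

/-- the derivative of `M` on the trivial branch -/
def DM (μ : ℝ) : PP →L[ℝ] BB :=
  mL.smulRight (1 : BB) + (-(μ ^ 2)) • PhiL + μ • QbL + QL

theorem PhiL_triv (μ : ℝ) : PhiL ((μ, 0, 0) : PP) = 0 := by
  rw [PhiL_apply]; simp

theorem QL_triv (μ : ℝ) : QL ((μ, 0, 0) : PP) = 0 := by
  rw [QL_apply]; simp

theorem QbL_triv (μ : ℝ) : QbL ((μ, 0, 0) : PP) = 0 := by
  rw [QbL_apply]; simp

theorem MM_eq (p : PP) : MM p = GM mL PhiL QL QbL p := rfl

theorem MM_strict (μ : ℝ) : HasStrictFDerivAt MM (DM μ) (μ, 0, 0) := by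
  have h := GM_strict mL PhiL QL QbL ((μ, 0, 0) : PP) (PhiL_triv μ) (QL_triv μ) (QbL_triv μ)
  exact h

theorem MM_triv (μ : ℝ) : MM (μ, 0, 0) = (μ + 1) • (1 : BB) := by
  unfold MM
  rw [PhiL_triv, QL_triv, QbL_triv, NormedSpace.exp_zero, sub_self, smul_zero,
    NormedSpace.exp_zero]
  simp [add_smul]

theorem MM_continuous : Continuous MM := by
  unfold MM
  have h0 : Continuous (NormedSpace.exp : BB → BB) := by
    have : AnalyticOnNhd ℝ (NormedSpace.exp : BB → BB) Set.univ :=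
      fun x _ => NormedSpace.exp_analytic x
    exact continuousOn_univ.mp this.continuousOn
  have h1 : Continuous (fun p : PP => NormedSpace.exp (PhiL p)) := h0.comp PhiL.continuous
  have h2 : Continuous (fun p : PP => (1 : BB) + QbL p) := continuous_const.add QbL.continuous
  have h3 : Continuous (fun p : PP => (1 : BB) + QL p) := continuous_const.add QL.continuous
  refine (h0.comp ?_).mul ?_
  · exact (continuous_fst.neg).smul (h1.sub continuous_const)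
  · exact (continuous_fst.smul (h1.mul h2)).add h3

end

end Pool.Agent.R246.BifB
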