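import Mathlib
import Pool.Agent.R246.BifB

/-!
# Existence of the bifurcating solution
-/

namespace Pool.Agent.R246.BifC

open scoped ENNReal Topology
open Pool.Agent.R246.BifA Pool.Agent.R246.BifB Filter

noncomputable section

/-- coordinate functional on `ℓ¹` -/
def coord {ι : Type} (k : ι) : ell ι →L[ℝ] ℝ :=
  LinearMap.mkContinuous
    { toFun := fun x => x k
      map_add' := by intro x y; rfl
      map_smul' := by intro c x; rfl } 1
    (by intro x; rw [one_mul, Real.norm_eq_abs]; exact ell_apply_le x k)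

theorem coord_apply {ι : Type} (k : ι) (x : ell ι) : coord k x = x k := rfl

/-- the `k`-th coefficient of an operator -/
def cf (k : ℤ) : BB →L[ℝ] ℝ := (coord k).comp (ContinuousLinearMap.apply ℝ (ell ℤ) e0)

theorem cf_apply (k : ℤ) (T : BB) : cf k T = (T e0) k := rfl

theorem cf_Sh (k j : ℤ) : cf k (Sh j) = if k = j then 1 else 0 := by
  rw [cf_apply, Sh_apply, e0_apply]
  simp only [sub_eq_zero]

theorem cf_one (k : ℤ) (hk : k ≠ 0) : cf k (1 : BB) = 0 := by
  rw [cf_apply]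
  change e0 k = 0
  rw [e0_apply, if_neg hk]

theorem cf_sumMap (k : ℤ) (T : ℕ → BB) (C : ℝ) (h : ∀ n, ‖T n‖ ≤ C) (b : YY) :
    cf k (sumMap T C h b) = ∑' n, b n * cf k (T n) := by
  rw [sumMap_apply, (cf k).map_tsum (sumMap_summable T C h b)]
  refine tsum_congr fun n => ?_
  rw [map_smul, smul_eq_mul]

theorem cf_UU (k : ℤ) (hk : k < 0) (b : YY) : cf k (UU b) = 0 := by
  unfold UU
  rw [cf_sumMap]
  have : ∀ n : ℕ, b n * cf k (Sh ((n : ℤ) + 2)) = 0 := by
    intro n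
    rw [cf_Sh, if_neg (by omega), mul_zero]
  simp [this]

theorem cf_UB (m : ℕ) (b : YY) : cf (-((m : ℤ) + 2)) (UB b) = b m := by
  unfold UB
  rw [cf_sumMap, tsum_eq_single m]
  · rw [cf_Sh, if_pos rfl, mul_one]
  · intro n hn
    rw [cf_Sh, if_neg (by omega), mul_zero]

theorem cf_UB_one (b : YY) : cf (-1) (UB b) = 0 := by
  unfold UB
  rw [cf_sumMap]
  have : ∀ n : ℕ, b n * cf (-1) (Sh (-((n : ℤ) + 2))) = 0 := by
    intro n
    rw [cf_Sh, if_neg (by omega), mul_zero]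
  rw [tsum_congr this, tsum_zero]

theorem cf_VV (m : ℕ) (b : YY) : cf (-((m : ℤ) + 2)) (VV b) = b m / (m + 2) := by
  unfold VV
  rw [cf_sumMap, tsum_eq_single m]
  · rw [map_smul, map_add, cf_Sh, cf_Sh, if_neg (by omega), if_pos rfl, smul_eq_mul]
    ring
  · intro n hn
    rw [map_smul, map_add, cf_Sh, cf_Sh, if_neg (by omega), if_neg (by omega)]
    simp

theorem cf_VV_one (b : YY) : cf (-1) (VV b) = 0 := by
  unfold VV
  rw [cf_sumMap]
  have : ∀ n : ℕ, b n * cf (-1) ((1 / ((n : ℝ) + 2)) • (Sh ((n : ℤ) + 2) + Sh (-((n : ℤ) + 2))))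
      = 0 := by
    intro n
    rw [map_smul, map_add, cf_Sh, cf_Sh, if_neg (by omega), if_neg (by omega)]
    simp
  rw [tsum_congr this, tsum_zero]

theorem cf_DM (μ : ℝ) (m : ℕ) (p : PP) :
    cf (-((m : ℤ) + 2)) (DM μ p) = μ * (1 - μ / (m + 2)) * p.2.2 m := by
  have h1 : DM μ p = p.1 • (1 : BB) + (-(μ ^ 2)) • (p.2.1 • (Sh 1 + Sh (-1)) + VV p.2.2)
      + μ • (p.2.1 • (Sh (-1)) + UB p.2.2) + (p.2.1 • (Sh 1) + UU p.2.2) := rfl
  rw [h1]
  simp only [map_add, map_smul, smul_eq_mul]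
  rw [cf_one _ (by omega), cf_Sh, if_neg (by omega), cf_Sh, if_neg (by omega), cf_VV, cf_UB,
    cf_UU _ (by omega)]
  ring

theorem cf_DM_one (μ : ℝ) (p : PP) :
    cf (-1) (DM μ p) = μ * (1 - μ) * p.2.1 := by
  have h1 : DM μ p = p.1 • (1 : BB) + (-(μ ^ 2)) • (p.2.1 • (Sh 1 + Sh (-1)) + VV p.2.2)
      + μ • (p.2.1 • (Sh (-1)) + UB p.2.2) + (p.2.1 • (Sh 1) + UU p.2.2) := rfl
  rw [h1]
  simp only [map_add, map_smul, smul_eq_mul]
  rw [cf_one _ (by omega), cf_Sh, if_neg (by omega), cf_Sh, if_pos rfl, cf_VV_one, cf_UB_one,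
    cf_UU _ (by omega)]
  ring

theorem neg_inj : Function.Injective (fun n : ℕ => -((n : ℤ) + 2)) := by
  intro a b h
  simp only at h
  omega

/-- the coefficients of index `≤ -2` -/
def RY : BB →L[ℝ] YY :=
  (pull (fun n : ℕ => -((n : ℤ) + 2)) neg_inj).comp (ContinuousLinearMap.apply ℝ (ell ℤ) e0)

theorem RY_apply (T : BB) (n : ℕ) : RY T n = cf (-((n : ℤ) + 2)) T := rfl

/-- a diagonal operator -/
def diag (d : ℕ → ℝ) (C : ℝ) (h : ∀ n, |d n| ≤ C) : YY →L[ℝ] YY :=
  LinearMap.mkContinuous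
    { toFun := fun x => ⟨fun n => d n * x n, memℓp_gen (by
        have h1 : Summable (fun n => C * |x n|) := (ell_summable x).mul_left C
        have h2 : Summable (fun n => |d n * x n|) := by
          refine Summable.of_nonneg_of_le (fun n => abs_nonneg _) (fun n => ?_) h1
          rw [abs_mul]
          exact mul_le_mul_of_nonneg_right (h n) (abs_nonneg _)
        simpa using h2)⟩
      map_add' := by
        intro x y; ext n
        change d n * (x n + y n) = d n * x n + d n * y n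
        ring
      map_smul' := by
        intro c x; ext n
        change d n * (c * x n) = c * (d n * x n)
        ring } C
    (by
      intro x
      rw [ell_norm, ell_norm, ← tsum_mul_left]
      have h1 : Summable (fun n => C * |x n|) := (ell_summable x).mul_left C
      refine Summable.tsum_le_tsum (fun n => ?_) ?_ h1
      · change |d n * x n| ≤ _
        rw [abs_mul]
        exact mul_le_mul_of_nonneg_right (h n) (abs_nonneg _)
      · refine Summable.of_nonneg_of_le (fun n => abs_nonneg _) (fun n => ?_) h1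
        change |d n * x n| ≤ _
        rw [abs_mul]
        exact mul_le_mul_of_nonneg_right (h n) (abs_nonneg _))

theorem diag_apply (d : ℕ → ℝ) (C : ℝ) (h : ∀ n, |d n| ≤ C) (x : YY) (n : ℕ) :
    diag d C h x n = d n * x n := rfl

theorem d1_bd (n : ℕ) : |((n : ℝ) + 1) / (n + 2)| ≤ 1 := by
  have h0 : (0 : ℝ) ≤ n := Nat.cast_nonneg n
  rw [abs_of_nonneg (by positivity), div_le_one (by positivity)]
  linarith

theorem d2_bd (n : ℕ) : |((n : ℝ) + 2) / (n + 1)| ≤ 2 := by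
  have h0 : (0 : ℝ) ≤ n := Nat.cast_nonneg n
  rw [abs_of_nonneg (by positivity), div_le_iff₀ (by positivity)]
  linarith

/-- the linearisation on the modes `≥ 2` at `μ = 1` -/
def D1 : YY ≃L[ℝ] YY :=
  ContinuousLinearEquiv.equivOfInverse
    (diag (fun n => ((n : ℝ) + 1) / (n + 2)) 1 d1_bd)
    (diag (fun n => ((n : ℝ) + 2) / (n + 1)) 2 d2_bd)
    (by
      intro x
      ext n
      rw [diag_apply, diag_apply]
      have h0 : (0 : ℝ) ≤ n := Nat.cast_nonneg n
      field_simp)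
    (by
      intro x
      ext n
      rw [diag_apply, diag_apply]
      have h0 : (0 : ℝ) ≤ n := Nat.cast_nonneg n
      field_simp)

theorem D1_apply (x : YY) (n : ℕ) : D1 x n = ((n : ℝ) + 1) / (n + 2) * x n := rfl

def E1 : PP ≃L[ℝ] PP :=
  (ContinuousLinearEquiv.refl ℝ ℝ).prodCongr ((ContinuousLinearEquiv.refl ℝ ℝ).prodCongr D1)

theorem E1_apply (p : PP) : E1 p = (p.1, p.2.1, D1 p.2.2) := rfl

/-- the map to be inverted -/
def Psi (p : PP) : PP := (p.1, p.2.1, RY (MM p))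

theorem Psi_strict : HasStrictFDerivAt Psi (E1 : PP →L[ℝ] PP) ((1, 0, 0) : PP) := by
  have h1 : HasStrictFDerivAt (fun p : PP => p.1) mL ((1, 0, 0) : PP) := mL.hasStrictFDerivAt
  have h2 : HasStrictFDerivAt (fun p : PP => p.2.1) sL ((1, 0, 0) : PP) := sL.hasStrictFDerivAt
  have h3 : HasStrictFDerivAt (fun p : PP => RY (MM p)) (RY.comp (DM 1)) ((1, 0, 0) : PP) :=
    RY.hasStrictFDerivAt.comp ((1, 0, 0) : PP) (MM_strict 1)
  have h4 := h1.prodMk (h2.prodMk h3)
  refine h4.congr_fderiv (ContinuousLinearMap.ext fun p => ?_)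
  have h5 : RY (DM 1 p) = D1 p.2.2 := by
    ext n
    rw [RY_apply, cf_DM, D1_apply]
    have h0 : (0 : ℝ) ≤ n := Nat.cast_nonneg n
    field_simp
    ring
  change (p.1, p.2.1, RY (DM 1 p)) = (p.1, p.2.1, D1 p.2.2)
  rw [h5]

theorem RY_one : RY (1 : BB) = 0 := by
  ext n
  rw [RY_apply, cf_one _ (by omega)]
  rfl

theorem Psi_triv (μ : ℝ) : Psi (μ, 0, 0) = (μ, 0, 0) := by
  unfold Psi
  rw [MM_triv, map_smul, RY_one, smul_zero]

/-- local inverse -/
def G : PP → PP := Psi_strict.localInverse Psi E1 ((1, 0, 0) : PP)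

theorem G_right : ∀ᶠ y in 𝓝 ((1, 0, 0) : PP), Psi (G y) = y := by
  have h := Psi_strict.eventually_right_inverse
  rw [Psi_triv] at h
  exact h

theorem G_left : ∀ᶠ x in 𝓝 ((1, 0, 0) : PP), G (Psi x) = x :=
  Psi_strict.eventually_left_inverse

theorem G_lip : ∃ K : NNReal, ∃ s ∈ 𝓝 ((1, 0, 0) : PP), LipschitzOnWith K G s := by
  have h : HasStrictFDerivAt G (E1.symm : PP →L[ℝ] PP) (Psi ((1, 0, 0) : PP)) :=
    Psi_strict.to_localInverse
  rw [Psi_triv] at h
  exact h.exists_lipschitzOnWith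

/-- a box around `(1,0,0)` on which everything holds -/
theorem box : ∃ K : ℝ, 0 ≤ K ∧ ∃ δ : ℝ, 0 < δ ∧
    (∀ y : PP, dist y ((1, 0, 0) : PP) < δ → Psi (G y) = y) ∧
    (∀ μ : ℝ, |μ - 1| < δ → G (μ, 0, 0) = (μ, 0, 0)) ∧
    (∀ y y' : PP, dist y ((1, 0, 0) : PP) < δ → dist y' ((1, 0, 0) : PP) < δ →
      dist (G y) (G y') ≤ K * dist y y') := by
  obtain ⟨K, s, hs, hK⟩ := G_lip
  obtain ⟨δ₁, hδ₁, h1⟩ := Metric.eventually_nhds_iff.mp G_right
  obtain ⟨δ₂, hδ₂, h2⟩ := Metric.eventually_nhds_iff.mp G_left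
  obtain ⟨δ₃, hδ₃, h3⟩ := Metric.mem_nhds_iff.mp hs
  refine ⟨K, K.2, min δ₁ (min δ₂ δ₃), by positivity, ?_, ?_, ?_⟩
  · intro y hy
    exact h1 (lt_of_lt_of_le hy (min_le_left _ _))
  · intro μ hμ
    have h4 : dist ((μ, 0, 0) : PP) ((1, 0, 0) : PP) < δ₂ := by
      have : dist ((μ, 0, 0) : PP) ((1, 0, 0) : PP) = |μ - 1| := by
        rw [Prod.dist_eq, Prod.dist_eq]
        simp [Real.dist_eq]
      rw [this]
      exact lt_of_lt_of_le hμ ((min_le_right _ _).trans (min_le_left _ _))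
    have h5 := h2 h4
    rwa [Psi_triv] at h5
  · intro y y' hy hy'
    have ha : y ∈ s := h3 (lt_of_lt_of_le hy ((min_le_right _ _).trans (min_le_right _ _)))
    have hb : y' ∈ s := h3 (lt_of_lt_of_le hy' ((min_le_right _ _).trans (min_le_right _ _)))
    exact hK.dist_le_mul y ha y' hb

end

end Pool.Agent.R246.BifC
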