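import Mathlib
import Pool.Agent.R246.BifC

/-!
# Existence of the bifurcating solution: the scalar equation
-/

namespace Pool.Agent.R246.BifD

open scoped ENNReal Topology
open Pool.Agent.R246.BifA Pool.Agent.R246.BifB Pool.Agent.R246.BifC Filter

noncomputable section

theorem dist_base (μ s : ℝ) : dist ((μ, s, 0) : PP) ((1, 0, 0) : PP) = max |μ - 1| |s| := by
  rw [Prod.dist_eq, Prod.dist_eq]
  simp [Real.dist_eq]

theorem dist_base' (μ s : ℝ) : dist ((μ, s, 0) : PP) ((μ, 0, 0) : PP) = |s| := by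
  rw [Prod.dist_eq, Prod.dist_eq]
  simp [Real.dist_eq]

theorem cf_small (μ : ℝ) (c : ℝ) (hc : 0 < c) : ∃ r : ℝ, 0 < r ∧ ∀ p : PP,
    dist p ((μ, 0, 0) : PP) < r → p.1 = μ →
    |cf (-1) (MM p) - μ * (1 - μ) * p.2.1| ≤ c * dist p ((μ, 0, 0) : PP) := by
  have h1 : HasFDerivAt (fun p : PP => cf (-1) (MM p)) ((cf (-1)).comp (DM μ)) (μ, 0, 0) :=
    (cf (-1)).hasFDerivAt.comp ((μ, 0, 0) : PP) (MM_strict μ).hasFDerivAt
  have h2 := h1.isLittleO.def hc
  obtain ⟨r, hr, h3⟩ := Metric.eventually_nhds_iff.mp h2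
  refine ⟨r, hr, fun p hp hp1 => ?_⟩
  have h4 := h3 hp
  have h5 : cf (-1) (MM (μ, 0, 0)) = 0 := by
    rw [MM_triv, map_smul, cf_one _ (by norm_num), smul_zero]
  have h6 : ((cf (-1)).comp (DM μ)) (p - (μ, 0, 0)) = μ * (1 - μ) * p.2.1 := by
    rw [ContinuousLinearMap.comp_apply, cf_DM_one]
    simp
  rw [h5, h6, sub_zero, Real.norm_eq_abs, ← dist_eq_norm] at h4
  exact h4

theorem exists_bif (ε : ℝ) (hε : 0 < ε) : ∃ (μ s : ℝ) (b : YY), |μ - 1| < ε ∧ 0 < s ∧ s < ε ∧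
    ‖b‖ < ε ∧ ∀ n : ℕ, cf (-((n : ℤ) + 1)) (MM (μ, s, b)) = 0 := by
  obtain ⟨K, hK, δ, hδ, hR, hL, hLip⟩ := box
  set η : ℝ := min (min δ ε) 1 / 2 with hη
  have hη0 : 0 < η := by positivity
  have hηδ : η < δ := by
    have : min (min δ ε) 1 ≤ δ := (min_le_left _ _).trans (min_le_left _ _)
    linarith
  have hηε : η < ε := by
    have : min (min δ ε) 1 ≤ ε := (min_le_left _ _).trans (min_le_right _ _)
    linarith
  have hη1 : η ≤ 1 / 2 := by
    have : min (min δ ε) 1 ≤ 1 := min_le_right _ _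
    linarith
  set c : ℝ := η * (1 - η) / (2 * (K + 1)) with hc
  have hc0 : 0 < c := by
    have : 0 < 1 - η := by linarith
    positivity
  have hcK : c * K < η * (1 - η) := by
    have h1 : 0 < η * (1 - η) := mul_pos hη0 (by linarith)
    rw [hc, div_mul_eq_mul_div, div_lt_iff₀ (by positivity)]
    nlinarith
  obtain ⟨r₁, hr₁, h1⟩ := cf_small (1 - η) c hc0
  obtain ⟨r₂, hr₂, h2⟩ := cf_small (1 + η) c hc0
  set s : ℝ := min (min (min r₁ r₂) (min δ ε)) 1 / (2 * (K + 1)) with hs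
  have hm0 : 0 < min (min (min r₁ r₂) (min δ ε)) 1 := by positivity
  have hs0 : 0 < s := by positivity
  have hsK : (K + 1) * s = min (min (min r₁ r₂) (min δ ε)) 1 / 2 := by
    rw [hs]; field_simp
  have hKs : K * s < min (min (min r₁ r₂) (min δ ε)) 1 := by nlinarith
  have hss : s < min (min (min r₁ r₂) (min δ ε)) 1 := by nlinarith
  have m1 : min (min (min r₁ r₂) (min δ ε)) 1 ≤ r₁ :=
    (min_le_left _ _).trans ((min_le_left _ _).trans (min_le_left _ _))
  have m2 : min (min (min r₁ r₂) (min δ ε)) 1 ≤ r₂ :=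
    (min_le_left _ _).trans ((min_le_left _ _).trans (min_le_right _ _))
  have m3 : min (min (min r₁ r₂) (min δ ε)) 1 ≤ δ :=
    (min_le_left _ _).trans ((min_le_right _ _).trans (min_le_left _ _))
  have m4 : min (min (min r₁ r₂) (min δ ε)) 1 ≤ ε :=
    (min_le_left _ _).trans ((min_le_right _ _).trans (min_le_right _ _))
  -- points of the box
  have hbox : ∀ μ : ℝ, |μ - 1| ≤ η → dist ((μ, s, 0) : PP) ((1, 0, 0) : PP) < δ := by
    intro μ hμ
    rw [dist_base, abs_of_pos hs0]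
    exact max_lt (by linarith) (by linarith)
  have hbox0 : ∀ μ : ℝ, |μ - 1| ≤ η → dist ((μ, 0, 0) : PP) ((1, 0, 0) : PP) < δ := by
    intro μ hμ
    have : dist ((μ, 0, 0) : PP) ((1, 0, 0) : PP) = max |μ - 1| |(0 : ℝ)| := dist_base μ 0
    rw [this, abs_zero]
    exact max_lt (by linarith) hδ
  have hG : ∀ μ : ℝ, |μ - 1| ≤ η → (G (μ, s, 0)).1 = μ ∧ (G (μ, s, 0)).2.1 = s ∧
      RY (MM (G (μ, s, 0))) = 0 ∧ dist (G (μ, s, 0)) ((μ, 0, 0) : PP) ≤ K * s := by
    intro μ hμ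
    have h3 := hR _ (hbox μ hμ)
    have h4 : (G (μ, s, 0)).1 = μ := congrArg Prod.fst h3
    have h5 : (G (μ, s, 0)).2.1 = s := congrArg (fun p : PP => p.2.1) h3
    have h6 : RY (MM (G (μ, s, 0))) = 0 := congrArg (fun p : PP => p.2.2) h3
    refine ⟨h4, h5, h6, ?_⟩
    have h7 := hLip _ _ (hbox μ hμ) (hbox0 μ hμ)
    rw [hL μ (by linarith), dist_base', abs_of_pos hs0] at h7
    exact h7
  -- the scalar function
  have hcont : ContinuousOn (fun μ : ℝ => cf (-1) (MM (G (μ, s, 0)))) (Set.Icc (1 - η) (1 + η)) := by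
    have hGc : ContinuousOn G (Metric.ball ((1, 0, 0) : PP) δ) := by
      have : LipschitzOnWith ⟨K, hK⟩ G (Metric.ball ((1, 0, 0) : PP) δ) :=
        LipschitzOnWith.of_dist_le_mul (fun x hx y hy => hLip x y hx hy)
      exact this.continuousOn
    refine (cf (-1)).continuous.comp_continuousOn (MM_continuous.comp_continuousOn ?_)
    refine hGc.comp (Continuous.continuousOn (by fun_prop)) ?_
    intro μ hμ
    exact hbox μ (abs_le.mpr ⟨by linarith [hμ.1], by linarith [hμ.2]⟩)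
  have hneg : cf (-1) (MM (G (1 + η, s, 0))) ≤ 0 := by
    obtain ⟨h3, h4, -, h5⟩ := hG (1 + η) (by simp [abs_of_pos hη0])
    have h6 := h2 _ (by linarith) h3
    rw [h4] at h6
    have h7 := (abs_le.mp h6).2
    have h8 : c * dist (G (1 + η, s, 0)) ((1 + η, 0, 0) : PP) ≤ c * (K * s) :=
      mul_le_mul_of_nonneg_left h5 hc0.le
    have h9 : c * K * s < η * (1 - η) * s := mul_lt_mul_of_pos_right hcK hs0
    have h10 : 0 < η * η * s := mul_pos (mul_pos hη0 hη0) hs0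
    nlinarith
  have hpos : 0 ≤ cf (-1) (MM (G (1 - η, s, 0))) := by
    obtain ⟨h3, h4, -, h5⟩ := hG (1 - η) (by simp [abs_of_pos hη0])
    have h6 := h1 _ (by linarith) h3
    rw [h4] at h6
    have h7 := (abs_le.mp h6).1
    have h8 : c * dist (G (1 - η, s, 0)) ((1 - η, 0, 0) : PP) ≤ c * (K * s) :=
      mul_le_mul_of_nonneg_left h5 hc0.le
    have h9 : c * K * s < η * (1 - η) * s := mul_lt_mul_of_pos_right hcK hs0
    have h10 : 0 < η * η * s := mul_pos (mul_pos hη0 hη0) hs0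
    nlinarith
  obtain ⟨μ, hμ, hz⟩ := intermediate_value_Icc' (by linarith) hcont ⟨hneg, hpos⟩
  have hμ' : |μ - 1| ≤ η := abs_le.mpr ⟨by linarith [hμ.1], by linarith [hμ.2]⟩
  obtain ⟨h3, h4, h5, h6⟩ := hG μ hμ'
  refine ⟨μ, s, (G (μ, s, 0)).2.2, by linarith, hs0, by linarith, ?_, ?_⟩
  · have h7 : dist (G (μ, s, 0)).2.2 (0 : YY) ≤ dist (G (μ, s, 0)) ((μ, 0, 0) : PP) := by
      rw [Prod.dist_eq (x := G (μ, s, 0)), Prod.dist_eq (x := (G (μ, s, 0)).2)]
      exact (le_max_right _ _).trans (le_max_right _ _)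
    rw [dist_zero_right] at h7
    linarith
  · have h7 : ((μ, s, (G (μ, s, 0)).2.2) : PP) = G (μ, s, 0) := by
      rw [Prod.ext_iff, Prod.ext_iff]
      exact ⟨h3.symm, h4.symm, rfl⟩
    rw [h7]
    intro n
    rcases n with _ | n
    · simpa using hz
    · have h8 : RY (MM (G (μ, s, 0))) n = 0 := by rw [h5]; rfl
      rw [RY_apply] at h8
      have h9 : (-(((n + 1 : ℕ) : ℤ) + 1)) = -((n : ℤ) + 2) := by push_cast; ring
      rw [h9]
      exact h8

end

end Pool.Agent.R246.BifD
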