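import Mathlib
import Pool.Agent.R246.BifD

/-!
# Function-theoretic form of the bifurcating solution
-/

namespace Pool.Agent.R246.BifE

open scoped ENNReal Topology ComplexConjugate
open Pool.Agent.R246.BifA Pool.Agent.R246.BifB Pool.Agent.R246.BifC Pool.Agent.R246.BifD Filter

noncomputable section

/-- the coefficients of `φ` -/
def aa (s : ℝ) (b : YY) : ℕ → ℝ
  | 0 => 0
  | 1 => s
  | (n + 2) => b n / (n + 2)

theorem kaa (s : ℝ) (b : YY) (n : ℕ) : ((n + 2 : ℕ) : ℝ) * aa s b (n + 2) = b n := by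
  have h0 : (0 : ℝ) ≤ n := Nat.cast_nonneg n
  simp only [aa]
  push_cast
  field_simp

theorem kaa_summable (s : ℝ) (b : YY) : Summable (fun k : ℕ => (k : ℝ) * |aa s b k|) := by
  rw [← summable_nat_add_iff 2]
  have h := ell_summable b
  refine h.congr fun n => ?_
  rw [← kaa s b n, abs_mul, abs_of_nonneg (Nat.cast_nonneg _)]

theorem kaa_tsum (s : ℝ) (hs : 0 < s) (b : YY) :
    ∑' k : ℕ, (k : ℝ) * |aa s b k| = s + ‖b‖ := by
  rw [← (kaa_summable s b).sum_add_tsum_nat_add 2, ell_norm]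
  have h1 : ∑ k ∈ Finset.range 2, (k : ℝ) * |aa s b k| = s := by
    rw [Finset.sum_range_succ, Finset.sum_range_one]
    simp [aa, abs_of_pos hs]
  rw [h1]
  congr 1
  refine tsum_congr fun n => ?_
  rw [← kaa s b n, abs_mul, Nat.abs_cast]

/-- `φ` -/
def ph (a : ℕ → ℝ) (z : ℂ) : ℂ := ∑' k : ℕ, (a k : ℂ) * z ^ k
/-- `q = 1 + zφ'` -/
def qq (a : ℕ → ℝ) (z : ℂ) : ℂ := 1 + ∑' k : ℕ, ((k * a k : ℝ) : ℂ) * z ^ k

theorem exp_pow (θ : ℝ) (k : ℕ) :
    Complex.exp (Complex.I * ((k : ℤ) : ℂ) * θ) = (Complex.exp (Complex.I * θ)) ^ k := by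
  rw [← Complex.exp_nat_mul]
  congr 1
  push_cast
  ring

theorem conj_exp (θ : ℝ) : conj (Complex.exp (Complex.I * θ)) = Complex.exp (-(Complex.I * θ)) := by
  rw [← Complex.exp_conj]
  congr 1
  rw [map_mul, Complex.conj_I, Complex.conj_ofReal]
  ring

theorem exp_neg_pow (θ : ℝ) (k : ℕ) :
    Complex.exp (Complex.I * ((-(k : ℤ) : ℤ) : ℂ) * θ)
      = (conj (Complex.exp (Complex.I * θ))) ^ k := by
  rw [conj_exp, ← Complex.exp_nat_mul]
  congr 1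
  push_cast
  ring

theorem norm_z (θ : ℝ) : ‖Complex.exp (Complex.I * θ)‖ = 1 := by
  rw [Complex.norm_exp]; simp

theorem summable_pow {u : ℕ → ℝ} (hu : Summable fun k => |u k|) {z : ℂ} (hz : ‖z‖ ≤ 1) :
    Summable (fun k : ℕ => (u k : ℂ) * z ^ k) := by
  refine Summable.of_norm_bounded (g := fun k => |u k|) hu ?_
  intro k
  rw [norm_mul, norm_pow, Complex.norm_real, Real.norm_eq_abs]
  exact mul_le_of_le_one_right (abs_nonneg _) (pow_le_one₀ (norm_nonneg _) hz)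

theorem summable_aa {a : ℕ → ℝ} (ha0 : a 0 = 0) (ha : Summable (fun k : ℕ => (k : ℝ) * |a k|)) :
    Summable (fun k => |a k|) := by
  refine Summable.of_nonneg_of_le (fun k => abs_nonneg _) (fun k => ?_) ha
  rcases k with _ | k
  · simp [ha0]
  · have : (1 : ℝ) ≤ ((k + 1 : ℕ) : ℝ) := by
      push_cast
      have : (0 : ℝ) ≤ k := Nat.cast_nonneg k
      linarith
    nlinarith [abs_nonneg (a (k + 1))]

theorem summable_ka {a : ℕ → ℝ} (ha : Summable (fun k : ℕ => (k : ℝ) * |a k|)) :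
    Summable (fun k : ℕ => |(k : ℝ) * a k|) := by
  refine ha.congr fun k => ?_
  rw [abs_mul, Nat.abs_cast]

theorem ph_split (s : ℝ) (b : YY) {z : ℂ} (hz : ‖z‖ ≤ 1) :
    ph (aa s b) z = s * z + ∑' n : ℕ, ((b n / (n + 2) : ℝ) : ℂ) * z ^ (n + 2) := by
  unfold ph
  rw [← (summable_pow (summable_aa rfl (kaa_summable s b)) hz).sum_add_tsum_nat_add 2,
    Finset.sum_range_succ, Finset.sum_range_one]
  simp [aa]

theorem qq_split (s : ℝ) (b : YY) {z : ℂ} (hz : ‖z‖ ≤ 1) :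
    qq (aa s b) z = 1 + (s * z + ∑' n : ℕ, ((b n : ℝ) : ℂ) * z ^ (n + 2)) := by
  unfold qq
  congr 1
  rw [← (summable_pow (summable_ka (kaa_summable s b)) hz).sum_add_tsum_nat_add 2,
    Finset.sum_range_succ, Finset.sum_range_one]
  have h1 : ((((0 : ℕ) : ℝ) * aa s b 0 : ℝ) : ℂ) * z ^ 0 + ((((1 : ℕ) : ℝ) * aa s b 1 : ℝ) : ℂ) * z ^ 1
      = s * z := by
    simp [aa]
  rw [h1]
  congr 1
  refine tsum_congr fun n => ?_
  rw [kaa s b n]

theorem summ_tail {u : ℕ → ℝ} (hu : Summable fun k => |u k|) {z : ℂ} (hz : ‖z‖ ≤ 1) :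
    Summable (fun n : ℕ => (u n : ℂ) * z ^ (n + 2)) := by
  refine Summable.of_norm_bounded (g := fun k => |u k|) hu ?_
  intro k
  rw [norm_mul, norm_pow, Complex.norm_real, Real.norm_eq_abs]
  exact mul_le_of_le_one_right (abs_nonneg _) (pow_le_one₀ (norm_nonneg _) hz)

theorem summ_tail' (b : YY) : Summable (fun n : ℕ => |b n / ((n : ℝ) + 2)|) := by
  refine Summable.of_nonneg_of_le (fun k => abs_nonneg _) (fun n => ?_) (ell_summable b)
  have h0 : (0 : ℝ) ≤ n := Nat.cast_nonneg n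
  rw [abs_div, abs_of_nonneg (by positivity : (0 : ℝ) ≤ (n : ℝ) + 2)]
  exact div_le_self (abs_nonneg _) (by linarith)

theorem Ch_PhiL (θ : ℝ) (p : PP) :
    Ch θ (PhiL p) (ph (aa p.2.1 p.2.2) (Complex.exp (Complex.I * θ))
      + ph (aa p.2.1 p.2.2) (conj (Complex.exp (Complex.I * θ)))) := by
  set z := Complex.exp (Complex.I * θ) with hz
  have hz1 : ‖z‖ ≤ 1 := (norm_z θ).le
  have hz2 : ‖conj z‖ ≤ 1 := by rw [RCLike.norm_conj]; exact hz1
  rw [ph_split _ _ hz1, ph_split _ _ hz2, PhiL_apply]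
  have h1 : Ch θ (Sh 1) z := by
    have := Ch_Sh θ ((1 : ℕ) : ℤ)
    rw [exp_pow, pow_one] at this
    exact this
  have h2 : Ch θ (Sh (-1)) (conj z) := by
    have := Ch_Sh θ (-((1 : ℕ) : ℤ))
    rw [exp_neg_pow, pow_one] at this
    exact this
  have h3 : Ch θ (VV p.2.2) (∑' n : ℕ, ((p.2.2 n / (n + 2) : ℝ) : ℂ) * z ^ (n + 2)
      + ∑' n : ℕ, ((p.2.2 n / (n + 2) : ℝ) : ℂ) * (conj z) ^ (n + 2)) := by
    have hs1 := (summ_tail (summ_tail' p.2.2) hz1).hasSum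
    have hs2 := (summ_tail (summ_tail' p.2.2) hz2).hasSum
    have hT : HasSum (fun n : ℕ => p.2.2 n • ((1 / ((n : ℝ) + 2)) •
        (Sh ((n : ℤ) + 2) + Sh (-((n : ℤ) + 2))))) (VV p.2.2) := by
      have := (sumMap_summable _ 1 VV_bd p.2.2).hasSum
      exact this
    refine Ch.hasSum (fun n => ?_) hT (hs1.add hs2)
    have h4 : Ch θ (Sh ((n : ℤ) + 2)) (z ^ (n + 2)) := by
      have := Ch_Sh θ ((n + 2 : ℕ) : ℤ)
      rw [exp_pow] at this
      exact_mod_cast this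
    have h5 : Ch θ (Sh (-((n : ℤ) + 2))) ((conj z) ^ (n + 2)) := by
      have := Ch_Sh θ (-((n + 2 : ℕ) : ℤ))
      rw [exp_neg_pow] at this
      exact_mod_cast this
    have h6 := ((h4.add h5).smul (1 / ((n : ℝ) + 2))).smul (p.2.2 n)
    convert h6 using 1
    push_cast
    ring
  have h7 := ((h1.add h2).smul p.2.1).add h3
  convert h7 using 1
  ring

theorem Ch_QL (θ : ℝ) (p : PP) :
    Ch θ (1 + QL p) (qq (aa p.2.1 p.2.2) (Complex.exp (Complex.I * θ))) := by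
  set z := Complex.exp (Complex.I * θ) with hz
  have hz1 : ‖z‖ ≤ 1 := (norm_z θ).le
  rw [qq_split _ _ hz1, QL_apply]
  have h1 : Ch θ (Sh 1) z := by
    have := Ch_Sh θ ((1 : ℕ) : ℤ)
    rw [exp_pow, pow_one] at this
    exact this
  have h3 : Ch θ (UU p.2.2) (∑' n : ℕ, ((p.2.2 n : ℝ) : ℂ) * z ^ (n + 2)) := by
    have hs1 := (summ_tail (ell_summable p.2.2) hz1).hasSum
    have hT : HasSum (fun n : ℕ => p.2.2 n • Sh ((n : ℤ) + 2)) (UU p.2.2) := by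
      have := (sumMap_summable _ 1 (fun n : ℕ => Sh_norm ((n : ℤ) + 2)) p.2.2).hasSum
      exact this
    refine Ch.hasSum (fun n => ?_) hT hs1
    have h4 : Ch θ (Sh ((n : ℤ) + 2)) (z ^ (n + 2)) := by
      have := Ch_Sh θ ((n + 2 : ℕ) : ℤ)
      rw [exp_pow] at this
      exact_mod_cast this
    exact h4.smul (p.2.2 n)
  exact (Ch_one θ).add ((h1.smul p.2.1).add h3)

theorem Ch_QbL (θ : ℝ) (p : PP) :
    Ch θ (1 + QbL p) (qq (aa p.2.1 p.2.2) (conj (Complex.exp (Complex.I * θ)))) := by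
  set z := Complex.exp (Complex.I * θ) with hz
  have hz1 : ‖z‖ ≤ 1 := (norm_z θ).le
  have hz2 : ‖conj z‖ ≤ 1 := by rw [RCLike.norm_conj]; exact hz1
  rw [qq_split _ _ hz2, QbL_apply]
  have h1 : Ch θ (Sh (-1)) (conj z) := by
    have := Ch_Sh θ (-((1 : ℕ) : ℤ))
    rw [exp_neg_pow, pow_one] at this
    exact this
  have h3 : Ch θ (UB p.2.2) (∑' n : ℕ, ((p.2.2 n : ℝ) : ℂ) * (conj z) ^ (n + 2)) := by
    have hs1 := (summ_tail (ell_summable p.2.2) hz2).hasSum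
    have hT : HasSum (fun n : ℕ => p.2.2 n • Sh (-((n : ℤ) + 2))) (UB p.2.2) := by
      have := (sumMap_summable _ 1 (fun n : ℕ => Sh_norm (-((n : ℤ) + 2))) p.2.2).hasSum
      exact this
    refine Ch.hasSum (fun n => ?_) hT hs1
    have h4 : Ch θ (Sh (-((n : ℤ) + 2))) ((conj z) ^ (n + 2)) := by
      have := Ch_Sh θ (-((n + 2 : ℕ) : ℤ))
      rw [exp_neg_pow] at this
      exact_mod_cast this
    exact h4.smul (p.2.2 n)
  exact (Ch_one θ).add ((h1.smul p.2.1).add h3)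

theorem conj_tsum_pow (u : ℕ → ℝ) (z : ℂ) :
    ∑' k : ℕ, (u k : ℂ) * (conj z) ^ k = conj (∑' k : ℕ, (u k : ℂ) * z ^ k) := by
  rw [Complex.conj_tsum]
  refine tsum_congr fun k => ?_
  rw [map_mul, map_pow, Complex.conj_ofReal]

theorem ph_conj (a : ℕ → ℝ) (z : ℂ) : ph a (conj z) = conj (ph a z) := conj_tsum_pow a z

theorem qq_conj (a : ℕ → ℝ) (z : ℂ) : qq a (conj z) = conj (qq a z) := by
  unfold qq
  rw [map_add, map_one, conj_tsum_pow]

theorem int_split (f : ℤ → ℂ) (hf : Summable f) (h0 : ∀ n : ℕ, f (-((n : ℤ) + 1)) = 0) :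
    ∑' k : ℤ, f k = ∑' k : ℕ, f (k : ℤ) := by
  have hs1 : Summable (fun n : ℕ => f (n : ℤ)) :=
    hf.comp_injective (i := fun k : ℕ => (k : ℤ)) Nat.cast_injective
  have hs2 : Summable (fun n : ℕ => f (-((n : ℤ) + 1))) := by
    simp only [h0]
    exact summable_zero
  rw [tsum_of_nat_of_neg_add_one hs1 hs2, tsum_congr h0, tsum_zero, add_zero]

theorem ev_split (θ : ℝ) (x : ell ℤ) (hx : ∀ n : ℕ, x (-((n : ℤ) + 1)) = 0) :
    ev θ x = ∑' k : ℕ, ((x (k : ℤ) : ℝ) : ℂ) * (Complex.exp (Complex.I * θ)) ^ k := by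
  rw [ev_apply, int_split _ (ev_summable θ x)]
  · refine tsum_congr fun k => ?_
    rw [exp_pow]
  · intro n
    have := hx n
    simp only [this, Complex.ofReal_zero, zero_mul]

/-- the value of `M` at `z` -/
def Mval (μ : ℝ) (a : ℕ → ℝ) (z : ℂ) : ℂ :=
  Complex.exp (-μ * (Complex.exp (ph a z + conj (ph a z)) - 1)) *
    (μ * (Complex.exp (ph a z + conj (ph a z)) * conj (qq a z)) + qq a z)

theorem Ch_MM (θ : ℝ) (p : PP) :
    Ch θ (MM p) (Mval p.1 (aa p.2.1 p.2.2) (Complex.exp (Complex.I * θ))) := by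
  have hPhi := (Ch_PhiL θ p).exp
  have hA := ((hPhi.sub (Ch_one θ)).smul (-p.1)).exp
  have hB := ((hPhi.mul (Ch_QbL θ p)).smul p.1).add (Ch_QL θ p)
  have hM := hA.mul hB
  unfold Mval
  rw [← ph_conj, ← qq_conj]
  have h1 : ((-p.1 : ℝ) : ℂ) = -(p.1 : ℂ) := by push_cast; rfl
  rw [h1] at hM
  exact hM

theorem exists_seq (ε : ℝ) (hε : 0 < ε) : ∃ (μ s : ℝ) (b : YY) (x : ell ℤ), |μ - 1| < ε ∧ 0 < s ∧
    s < ε ∧ ‖b‖ < ε ∧ (∀ n : ℕ, x (-((n : ℤ) + 1)) = 0) ∧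
    ∀ θ : ℝ, ev θ x = Mval μ (aa s b) (Complex.exp (Complex.I * θ)) := by
  obtain ⟨μ, s, b, h1, h2, h3, h4, h5⟩ := exists_bif ε hε
  refine ⟨μ, s, b, MM (μ, s, b) e0, h1, h2, h3, h4, fun n => h5 n, fun θ => ?_⟩
  exact (Ch_MM θ (μ, s, b)).ev_apply_e0

theorem exists_data (ε : ℝ) (hε : 0 < ε) : ∃ (μ : ℝ) (a c : ℕ → ℝ), |μ - 1| < ε ∧ a 0 = 0 ∧
    0 < a 1 ∧ Summable (fun k : ℕ => (k : ℝ) * |a k|) ∧ ∑' k : ℕ, (k : ℝ) * |a k| < ε ∧
    Summable (fun k => |c k|) ∧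
    ∀ z : ℂ, ‖z‖ = 1 → ∑' k : ℕ, (c k : ℂ) * z ^ k = Mval μ a z := by
  obtain ⟨μ, s, b, x, h1, h2, h3, h4, h5, h6⟩ := exists_seq (ε / 2) (by positivity)
  refine ⟨μ, aa s b, fun k => x (k : ℤ), by linarith, rfl, h2,
    kaa_summable s b, ?_, ?_, ?_⟩
  · rw [kaa_tsum s h2 b]; linarith
  · exact (ell_summable x).comp_injective (i := fun k : ℕ => (k : ℤ)) Nat.cast_injective
  · intro z hz
    obtain ⟨θ, hθ⟩ : ∃ θ : ℝ, z = Complex.exp (Complex.I * θ) := by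
      refine ⟨Complex.arg z, ?_⟩
      have := Complex.norm_mul_exp_arg_mul_I z
      rw [hz, Complex.ofReal_one, one_mul] at this
      rw [mul_comm]
      exact this.symm
    rw [hθ, ← h6 θ, ev_split θ x h5]

end

end Pool.Agent.R246.BifE
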