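import Mathlib
import Pool.Agent.R246.BifE

/-!
# Geometry of the bifurcating domains
-/

namespace Pool.Agent.R246.BifF

open scoped ENNReal Topology ComplexConjugate NNReal
open Pool.Agent.R246.BifE Filter Metric MeasureTheory

noncomputable section

variable {a : ℕ → ℝ} {ε : ℝ}

theorem pow_lip (k : ℕ) {z w : ℂ} (hz : ‖z‖ ≤ 1) (hw : ‖w‖ ≤ 1) :
    ‖z ^ k - w ^ k‖ ≤ k * ‖z - w‖ := by
  induction k with
  | zero => simp
  | succ k ih =>
    have h1 : z ^ (k + 1) - w ^ (k + 1) = z ^ k * (z - w) + (z ^ k - w ^ k) * w := by ring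
    rw [h1]
    refine (norm_add_le _ _).trans ?_
    rw [norm_mul, norm_mul, norm_pow]
    have h2 : ‖z‖ ^ k ≤ 1 := pow_le_one₀ (norm_nonneg _) hz
    have h3 : ‖z‖ ^ k * ‖z - w‖ ≤ 1 * ‖z - w‖ := mul_le_mul_of_nonneg_right h2 (norm_nonneg _)
    have h4 : ‖z ^ k - w ^ k‖ * ‖w‖ ≤ (k * ‖z - w‖) * 1 :=
      mul_le_mul ih hw (norm_nonneg _) (by positivity)
    push_cast
    linarith

theorem pw_cont {u : ℕ → ℝ} (hu : Summable fun k => |u k|) :
    ContinuousOn (fun z : ℂ => ∑' k : ℕ, (u k : ℂ) * z ^ k) (closedBall 0 1) := by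
  refine continuousOn_tsum (u := fun k => |u k|) (fun k => by fun_prop) hu ?_
  intro k z hz
  rw [mem_closedBall_zero_iff] at hz
  rw [norm_mul, norm_pow, Complex.norm_real, Real.norm_eq_abs]
  exact mul_le_of_le_one_right (abs_nonneg _) (pow_le_one₀ (norm_nonneg _) hz)

theorem pw_diff {u : ℕ → ℝ} (hu : Summable fun k => |u k|) :
    DifferentiableOn ℂ (fun z : ℂ => ∑' k : ℕ, (u k : ℂ) * z ^ k) (ball 0 1) := by
  refine Complex.differentiableOn_tsum_of_summable_norm (u := fun k => |u k|) hu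
    (fun k => by fun_prop) isOpen_ball ?_
  intro k z hz
  rw [mem_ball_zero_iff] at hz
  rw [norm_mul, norm_pow, Complex.norm_real, Real.norm_eq_abs]
  exact mul_le_of_le_one_right (abs_nonneg _) (pow_le_one₀ (norm_nonneg _) hz.le)

theorem ph_cont (ha0 : a 0 = 0) (ha : Summable (fun k : ℕ => (k : ℝ) * |a k|)) :
    ContinuousOn (ph a) (closedBall 0 1) := pw_cont (summable_aa ha0 ha)

theorem qq_cont (ha : Summable (fun k : ℕ => (k : ℝ) * |a k|)) :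
    ContinuousOn (qq a) (closedBall 0 1) := (pw_cont (summable_ka ha)).const_add 1 |> fun h => h

theorem qq_diff (ha : Summable (fun k : ℕ => (k : ℝ) * |a k|)) :
    DifferentiableOn ℂ (qq a) (ball 0 1) := (pw_diff (summable_ka ha)).const_add 1

/-- the derivative of `φ` -/
def phd (a : ℕ → ℝ) (z : ℂ) : ℂ := ∑' k : ℕ, ((k * a k : ℝ) : ℂ) * z ^ (k - 1)

theorem ph_deriv (ha0 : a 0 = 0) (ha : Summable (fun k : ℕ => (k : ℝ) * |a k|)) {z : ℂ}
    (hz : ‖z‖ < 1) : HasDerivAt (ph a) (phd a z) z := by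
  unfold ph phd
  refine hasDerivAt_tsum_of_isPreconnected (g := fun (k : ℕ) (z : ℂ) => (a k : ℂ) * z ^ k)
    (g' := fun (k : ℕ) (z : ℂ) => ((k * a k : ℝ) : ℂ) * z ^ (k - 1)) (u := fun k : ℕ => |(k : ℝ) * a k|) (summable_ka ha)
    (t := ball (0 : ℂ) 1) isOpen_ball (convex_ball _ _).isPreconnected ?_ ?_
    (y₀ := 0) (by simp) ?_ (by simpa using hz)
  · intro k y _
    have h := (hasDerivAt_pow k y).const_mul ((a k : ℝ) : ℂ)
    refine h.congr_deriv ?_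
    push_cast
    ring
  · intro k y hy
    rw [mem_ball_zero_iff] at hy
    rw [norm_mul, norm_pow, Complex.norm_real, Real.norm_eq_abs]
    exact mul_le_of_le_one_right (abs_nonneg _) (pow_le_one₀ (norm_nonneg _) hy.le)
  · exact summable_pow (summable_aa ha0 ha) (by simp)

theorem phd_mul (z : ℂ) : qq a z = 1 + z * phd a z := by
  unfold qq phd
  rw [← tsum_mul_left]
  congr 1
  refine tsum_congr fun k => ?_
  rcases k with _ | k
  · simp
  · rw [Nat.add_sub_cancel, pow_succ]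
    ring

theorem ph_lip (ha0 : a 0 = 0) (ha : Summable (fun k : ℕ => (k : ℝ) * |a k|))
    (hε : ∑' k : ℕ, (k : ℝ) * |a k| ≤ ε) {z w : ℂ} (hz : ‖z‖ ≤ 1) (hw : ‖w‖ ≤ 1) :
    ‖ph a z - ph a w‖ ≤ ε * ‖z - w‖ := by
  unfold ph
  have h1 := summable_pow (summable_aa ha0 ha) hz
  have h2 := summable_pow (summable_aa ha0 ha) hw
  rw [← h1.tsum_sub h2]
  have h3 : ∀ k : ℕ, ‖(a k : ℂ) * z ^ k - (a k : ℂ) * w ^ k‖ ≤ (k : ℝ) * |a k| * ‖z - w‖ := by
    intro k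
    rw [← mul_sub, norm_mul, Complex.norm_real, Real.norm_eq_abs]
    have := mul_le_mul_of_nonneg_left (pow_lip k hz hw) (abs_nonneg (a k))
    nlinarith
  have h4 : Summable (fun k : ℕ => (k : ℝ) * |a k| * ‖z - w‖) := ha.mul_right _
  refine (tsum_of_norm_bounded h4.hasSum h3).trans ?_
  rw [tsum_mul_right]
  exact mul_le_mul_of_nonneg_right hε (norm_nonneg _)

theorem ph_zero (ha0 : a 0 = 0) : ph a 0 = 0 := by
  unfold ph
  rw [tsum_eq_single 0]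
  · simp [ha0]
  · intro k hk
    simp [hk]

theorem ph_bd (ha0 : a 0 = 0) (ha : Summable (fun k : ℕ => (k : ℝ) * |a k|))
    (hε : ∑' k : ℕ, (k : ℝ) * |a k| ≤ ε) {z : ℂ} (hz : ‖z‖ ≤ 1) : ‖ph a z‖ ≤ ε := by
  have h := ph_lip ha0 ha hε hz (w := 0) (by simp)
  rw [ph_zero ha0, sub_zero, sub_zero] at h
  have h0 : 0 ≤ ε := le_trans (tsum_nonneg fun k => by positivity) hε
  nlinarith

/-- the perturbation of the identity -/
def Pz (a : ℕ → ℝ) (z : ℂ) : ℂ := z * (Complex.exp (ph a z) - 1)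

theorem Pz_lip (ha0 : a 0 = 0) (ha : Summable (fun k : ℕ => (k : ℝ) * |a k|))
    (hε : ∑' k : ℕ, (k : ℝ) * |a k| ≤ 1 / 40) {z w : ℂ} (hz : ‖z‖ ≤ 1) (hw : ‖w‖ ≤ 1) :
    ‖Pz a z - Pz a w‖ ≤ 1 / 4 * ‖z - w‖ := by
  have h1 : Pz a z - Pz a w = (z - w) * (Complex.exp (ph a z) - 1)
      + w * (Complex.exp (ph a w) * (Complex.exp (ph a z - ph a w) - 1)) := by
    unfold Pz
    have : Complex.exp (ph a w) * Complex.exp (ph a z - ph a w) = Complex.exp (ph a z) := by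
      rw [← Complex.exp_add]; congr 1; ring
    rw [mul_sub (Complex.exp (ph a w)), this]
    ring
  have hb1 := ph_bd ha0 ha hε hz
  have hb2 := ph_bd ha0 ha hε hw
  have hl := ph_lip ha0 ha hε hz hw
  have hzw : ‖z - w‖ ≤ 2 := (norm_sub_le _ _).trans (by linarith)
  have h2 : ‖Complex.exp (ph a z) - 1‖ ≤ 2 * (1 / 40) :=
    (Complex.norm_exp_sub_one_le (by linarith)).trans (by linarith)
  have h3 : ‖Complex.exp (ph a z - ph a w) - 1‖ ≤ 2 * (1 / 40 * ‖z - w‖) :=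
    (Complex.norm_exp_sub_one_le (by linarith)).trans (by linarith)
  have h4 : ‖Complex.exp (ph a w)‖ ≤ 3 := by
    have h5 : ‖Complex.exp (ph a w) - 1‖ ≤ 2 * (1 / 40) :=
      (Complex.norm_exp_sub_one_le (by linarith)).trans (by linarith)
    have h6 : Complex.exp (ph a w) = (Complex.exp (ph a w) - 1) + 1 := by ring
    rw [h6]
    refine (norm_add_le _ _).trans ?_
    rw [norm_one]
    linarith
  rw [h1]
  refine (norm_add_le _ _).trans ?_
  rw [norm_mul, norm_mul, norm_mul]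
  have h7 : ‖z - w‖ * ‖Complex.exp (ph a z) - 1‖ ≤ ‖z - w‖ * (2 * (1 / 40)) :=
    mul_le_mul_of_nonneg_left h2 (norm_nonneg _)
  have h8 : ‖Complex.exp (ph a w)‖ * ‖Complex.exp (ph a z - ph a w) - 1‖
      ≤ 3 * (2 * (1 / 40 * ‖z - w‖)) :=
    mul_le_mul h4 h3 (norm_nonneg _) (by norm_num)
  have h9 : ‖w‖ * (‖Complex.exp (ph a w)‖ * ‖Complex.exp (ph a z - ph a w) - 1‖)
      ≤ 1 * (3 * (2 * (1 / 40 * ‖z - w‖))) :=
    mul_le_mul hw h8 (by positivity) (by norm_num)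
  nlinarith [norm_nonneg (z - w)]

/-- the conformal map -/
def ff (R : ℝ) (a : ℕ → ℝ) (z : ℂ) : ℂ := R * (z * Complex.exp (ph a z))

theorem exists_homeo (R : ℝ) (hR : 0 < R) (ha0 : a 0 = 0)
    (ha : Summable (fun k : ℕ => (k : ℝ) * |a k|)) (hε : ∑' k : ℕ, (k : ℝ) * |a k| ≤ 1 / 40) :
    ∃ F : ℂ ≃ₜ ℂ, ∀ z : ℂ, ‖z‖ ≤ 1 → F z = ff R a z := by
  have hre : LipschitzOnWith (1 / 4 : ℝ≥0) (fun z => (Pz a z).re) (closedBall (0 : ℂ) 1) := by
    refine LipschitzOnWith.of_dist_le_mul fun z hz w hw => ?_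
    rw [mem_closedBall_zero_iff] at hz hw
    rw [Real.dist_eq, dist_eq_norm, ← Complex.sub_re]
    have := Pz_lip ha0 ha hε hz hw
    refine (Complex.abs_re_le_norm _).trans ?_
    simpa using this
  have him : LipschitzOnWith (1 / 4 : ℝ≥0) (fun z => (Pz a z).im) (closedBall (0 : ℂ) 1) := by
    refine LipschitzOnWith.of_dist_le_mul fun z hz w hw => ?_
    rw [mem_closedBall_zero_iff] at hz hw
    rw [Real.dist_eq, dist_eq_norm, ← Complex.sub_im]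
    have := Pz_lip ha0 ha hε hz hw
    refine (Complex.abs_im_le_norm _).trans ?_
    simpa using this
  obtain ⟨g1, hg1, he1⟩ := hre.extend_real
  obtain ⟨g2, hg2, he2⟩ := him.extend_real
  set F1 : ℂ → ℂ := fun z => z + (g1 z + g2 z * Complex.I) with hF1
  have happ : ApproximatesLinearOn F1 ((ContinuousLinearEquiv.refl ℂ ℂ : ℂ ≃L[ℂ] ℂ) : ℂ →L[ℂ] ℂ)
      Set.univ (1 / 2 : ℝ≥0) := by
    rw [ApproximatesLinearOn.approximatesLinearOn_iff_lipschitzOnWith]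
    refine LipschitzOnWith.of_dist_le_mul fun z _ w _ => ?_
    rw [dist_eq_norm, dist_eq_norm]
    have h1 : (F1 - ⇑((ContinuousLinearEquiv.refl ℂ ℂ : ℂ ≃L[ℂ] ℂ) : ℂ →L[ℂ] ℂ)) z
        - (F1 - ⇑((ContinuousLinearEquiv.refl ℂ ℂ : ℂ ≃L[ℂ] ℂ) : ℂ →L[ℂ] ℂ)) w
        = ((g1 z - g1 w : ℝ) : ℂ) + ((g2 z - g2 w : ℝ) : ℂ) * Complex.I := by
      simp only [Pi.sub_apply, hF1, ContinuousLinearEquiv.coe_coe, ContinuousLinearEquiv.refl_apply]
      push_cast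
      ring
    rw [h1]
    refine (norm_add_le _ _).trans ?_
    rw [norm_mul, Complex.norm_I, mul_one, Complex.norm_real, Complex.norm_real]
    have h2 := hg1.dist_le_mul z w
    have h3 := hg2.dist_le_mul z w
    rw [dist_eq_norm, dist_eq_norm] at h2 h3
    have e1 : ((1 / 4 : ℝ≥0) : ℝ) = 1 / 4 := by push_cast; rfl
    have e2 : ((1 / 2 : ℝ≥0) : ℝ) = 1 / 2 := by push_cast; rfl
    rw [e1] at h2 h3
    rw [e2]
    linarith
  have hc : Subsingleton ℂ ∨ (1 / 2 : ℝ≥0) <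
      ‖(((ContinuousLinearEquiv.refl ℂ ℂ : ℂ ≃L[ℂ] ℂ).symm : ℂ ≃L[ℂ] ℂ) : ℂ →L[ℂ] ℂ)‖₊⁻¹ := by
    right
    have : ‖(((ContinuousLinearEquiv.refl ℂ ℂ : ℂ ≃L[ℂ] ℂ).symm : ℂ ≃L[ℂ] ℂ) : ℂ →L[ℂ] ℂ)‖₊ = 1 := by
      have h : (((ContinuousLinearEquiv.refl ℂ ℂ : ℂ ≃L[ℂ] ℂ).symm : ℂ ≃L[ℂ] ℂ) : ℂ →L[ℂ] ℂ)
        = ContinuousLinearMap.id ℂ ℂ := rfl
      rw [h, ContinuousLinearMap.nnnorm_id]
    rw [this, inv_one]
    rw [← NNReal.coe_lt_coe]
    push_cast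
    norm_num
  have hRc : (R : ℂ) ≠ 0 := by exact_mod_cast hR.ne'
  refine ⟨(happ.toHomeomorph F1 hc).trans (Homeomorph.mulLeft₀ (R : ℂ) hRc), fun z hz => ?_⟩
  have h1 : (happ.toHomeomorph F1 hc) z = F1 z := rfl
  rw [Homeomorph.trans_apply, h1]
  change (R : ℂ) * F1 z = ff R a z
  have hz' : z ∈ closedBall (0 : ℂ) 1 := by rwa [mem_closedBall_zero_iff]
  have h2 : (g1 z : ℂ) + g2 z * Complex.I = Pz a z := by
    rw [← he1 hz', ← he2 hz']
    exact Complex.re_add_im _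
  simp only [hF1, h2]
  unfold ff Pz
  ring

theorem ff_injOn (R : ℝ) (hR : 0 < R) (ha0 : a 0 = 0)
    (ha : Summable (fun k : ℕ => (k : ℝ) * |a k|)) (hε : ∑' k : ℕ, (k : ℝ) * |a k| ≤ 1 / 40) :
    Set.InjOn (ff R a) (ball 0 1) := by
  obtain ⟨F, hF⟩ := exists_homeo R hR ha0 ha hε
  intro z hz w hw h
  rw [mem_ball_zero_iff] at hz hw
  rw [← hF z hz.le, ← hF w hw.le] at h
  exact F.injective h

theorem ff_deriv (R : ℝ) (ha0 : a 0 = 0) (ha : Summable (fun k : ℕ => (k : ℝ) * |a k|)) {z : ℂ}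
    (hz : ‖z‖ < 1) :
    HasDerivAt (ff R a) (R * (Complex.exp (ph a z) * qq a z)) z := by
  have h1 := (ph_deriv ha0 ha hz).cexp
  have h2 := ((hasDerivAt_id' z).fun_mul h1).const_mul (R : ℂ)
  refine h2.congr_deriv ?_
  rw [phd_mul z]
  ring

end

end Pool.Agent.R246.BifF
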