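import Mathlib
import Pool.Agent.R246.BifF

/-!
# Topology of the bifurcating domains
-/

namespace Pool.Agent.R246.BifG

open scoped ENNReal Topology ComplexConjugate NNReal
open Pool.Agent.R246.BifE Pool.Agent.R246.BifF Filter Metric MeasureTheory

noncomputable section

variable {a : ℕ → ℝ}

theorem phd_zero : phd a 0 = a 1 := by
  unfold phd
  rw [tsum_eq_single 1]
  · simp
  · intro k hk
    rcases k with _ | _ | k
    · simp
    · exact absurd rfl hk
    · simp

theorem ph_dcc (ha0 : a 0 = 0) (ha : Summable (fun k : ℕ => (k : ℝ) * |a k|)) :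
    DiffContOnCl ℂ (ph a) (ball 0 1) := by
  refine ⟨pw_diff (summable_aa ha0 ha), ?_⟩
  rw [closure_ball _ one_ne_zero]
  exact ph_cont ha0 ha

theorem const_mod (ha0 : a 0 = 0) (ha : Summable (fun k : ℕ => (k : ℝ) * |a k|)) (κ : ℝ)
    (hκ : ∀ z : ℂ, ‖z‖ = 1 → ‖Complex.exp (ph a z)‖ = κ) : a 1 = 0 := by
  have hd1 : DiffContOnCl ℂ (fun z => Complex.exp (ph a z)) (ball 0 1) :=
    Complex.differentiable_exp.comp_diffContOnCl (ph_dcc ha0 ha)
  have hd2 : DiffContOnCl ℂ (fun z => Complex.exp (-ph a z)) (ball 0 1) :=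
    Complex.differentiable_exp.comp_diffContOnCl (ph_dcc ha0 ha).neg
  have hfr : frontier (ball (0 : ℂ) 1) = sphere 0 1 := frontier_ball _ one_ne_zero
  have h0 : (0 : ℂ) ∈ closure (ball (0 : ℂ) 1) := subset_closure (by simp)
  have h1 : (1 : ℝ) ≤ κ := by
    have := Complex.norm_le_of_forall_mem_frontier_norm_le isBounded_ball hd1 (C := κ) (by
      intro z hz
      rw [hfr, mem_sphere_zero_iff_norm] at hz
      exact (hκ z hz).le) h0
    simpa [ph_zero ha0] using this
  have hκ0 : 0 < κ := by linarith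
  have h2 : (1 : ℝ) ≤ κ⁻¹ := by
    have := Complex.norm_le_of_forall_mem_frontier_norm_le isBounded_ball hd2 (C := κ⁻¹) (by
      intro z hz
      rw [hfr, mem_sphere_zero_iff_norm] at hz
      rw [Complex.exp_neg, norm_inv, hκ z hz]) h0
    simpa [ph_zero ha0] using this
  have h3 : κ = 1 := by
    have : κ ≤ 1 := by
      by_contra hcon
      have hcon' : 1 < κ := not_le.mp hcon
      have := inv_lt_one_of_one_lt₀ hcon'
      linarith
    linarith
  have h4 : IsMaxOn (norm ∘ fun z => Complex.exp (ph a z)) (ball 0 1) 0 := by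
    intro z hz
    have := Complex.norm_le_of_forall_mem_frontier_norm_le isBounded_ball hd1 (C := κ) (by
      intro z hz
      rw [hfr, mem_sphere_zero_iff_norm] at hz
      exact (hκ z hz).le) (subset_closure hz)
    simp only [Function.comp, Set.mem_setOf_eq, ph_zero ha0, Complex.exp_zero, norm_one]
    rw [h3] at this
    exact this
  have h5 := Complex.eqOn_closedBall_of_isMaxOn_norm hd1 h4
  have h6 : HasDerivAt (fun z => Complex.exp (ph a z)) (Complex.exp (ph a 0) * phd a 0) 0 :=
    (ph_deriv ha0 ha (by simp)).cexp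
  have h7 : HasDerivAt (fun z => Complex.exp (ph a z)) 0 0 := by
    have : (fun z => Complex.exp (ph a z)) =ᶠ[𝓝 0] fun _ => Complex.exp (ph a 0) := by
      filter_upwards [ball_mem_nhds (0 : ℂ) one_pos] with z hz
      exact h5 (ball_subset_closedBall hz)
    exact (hasDerivAt_const _ _).congr_of_eventuallyEq this
  have h8 := h6.unique h7
  rw [ph_zero ha0, Complex.exp_zero, one_mul, phd_zero] at h8
  exact_mod_cast h8

variable (R : ℝ) (F : ℂ ≃ₜ ℂ)

theorem omega_open : IsOpen (F '' ball 0 1) := F.isOpenMap _ isOpen_ball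

theorem omega_closure : closure (F '' ball 0 1) = F '' closedBall 0 1 := by
  rw [← F.image_closure, closure_ball _ one_ne_zero]

theorem omega_finite : volume (F '' ball (0 : ℂ) 1) < ⊤ := by
  have h1 : IsCompact (F '' closedBall (0 : ℂ) 1) :=
    (isCompact_closedBall _ _).image F.continuous
  exact lt_of_le_of_lt (measure_mono (Set.image_mono ball_subset_closedBall)) h1.measure_lt_top

theorem omega_bounded : Bornology.IsBounded (F '' ball (0 : ℂ) 1) := by
  have h1 : IsCompact (F '' closedBall (0 : ℂ) 1) :=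
    (isCompact_closedBall _ _).image F.continuous
  exact h1.isBounded.subset (Set.image_mono ball_subset_closedBall)

theorem omega_pos : 0 < volume (F '' ball (0 : ℂ) 1) :=
  (omega_open F).measure_pos volume ((nonempty_ball.mpr one_pos).image _)

theorem omega_sc : SimplyConnectedSpace (F '' ball (0 : ℂ) 1) := by
  have h1 : ContractibleSpace (ball (0 : ℂ) 1) := contractibleSpace_ball one_pos
  have h2 : (F '' ball (0 : ℂ) 1) ≃ₜ ball (0 : ℂ) 1 := (F.image _).symm
  have h3 : ContractibleSpace (F '' ball (0 : ℂ) 1) := h2.contractibleSpace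
  infer_instance

theorem not_disc (hR : 0 < R) (ha0 : a 0 = 0) (ha1 : 0 < a 1)
    (ha : Summable (fun k : ℕ => (k : ℝ) * |a k|))
    (hF : ∀ z : ℂ, ‖z‖ ≤ 1 → F z = ff R a z) (ρ : ℝ) :
    ¬ (F '' ball 0 1 =ᵐ[volume] ball (0 : ℂ) ρ) := by
  intro h
  have h1 : volume (F '' ball 0 1 \ ball (0 : ℂ) ρ) = 0 := ae_le_set.mp h.le
  have h2 : volume (ball (0 : ℂ) ρ \ F '' ball 0 1) = 0 := ae_le_set.mp h.symm.le
  have c1 : F '' ball 0 1 ⊆ closedBall (0 : ℂ) ρ := by
    intro w hw
    by_contra hcon
    have hU : IsOpen (F '' ball 0 1 ∩ (closedBall (0 : ℂ) ρ)ᶜ) :=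
      (omega_open F).inter isClosed_closedBall.isOpen_compl
    have := hU.measure_pos volume ⟨w, hw, hcon⟩
    have h3 : volume (F '' ball 0 1 ∩ (closedBall (0 : ℂ) ρ)ᶜ) ≤ 0 := by
      rw [← h1]
      refine measure_mono ?_
      intro v hv
      exact ⟨hv.1, fun hv' => hv.2 (ball_subset_closedBall hv')⟩
    exact absurd (lt_of_lt_of_le this h3) (lt_irrefl _)
  have c2 : ball (0 : ℂ) ρ ⊆ closure (F '' ball 0 1) := by
    intro w hw
    by_contra hcon
    have hU : IsOpen (ball (0 : ℂ) ρ ∩ (closure (F '' ball 0 1))ᶜ) :=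
      isOpen_ball.inter isClosed_closure.isOpen_compl
    have := hU.measure_pos volume ⟨w, hw, hcon⟩
    have h3 : volume (ball (0 : ℂ) ρ ∩ (closure (F '' ball 0 1))ᶜ) ≤ 0 := by
      rw [← h2]
      refine measure_mono ?_
      intro v hv
      exact ⟨hv.1, fun hv' => hv.2 (subset_closure hv')⟩
    exact absurd (lt_of_lt_of_le this h3) (lt_irrefl _)
  rw [omega_closure] at c2
  have key : ∀ z : ℂ, ‖z‖ = 1 → ‖F z‖ = ρ := by
    intro z hz
    refine le_antisymm ?_ ?_
    · have h3 : F z ∈ closure (F '' ball 0 1) := by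
        rw [omega_closure]
        exact ⟨z, by simp [hz], rfl⟩
      have h4 := closure_mono c1 h3
      rw [isClosed_closedBall.closure_eq] at h4
      simpa using h4
    · by_contra hcon
      have h3 : F z ∈ ball (0 : ℂ) ρ := by
        rw [mem_ball_zero_iff]; exact not_le.mp hcon
      have h4 : F z ∈ interior (F '' closedBall 0 1) :=
        interior_maximal c2 isOpen_ball h3
      rw [← F.image_interior, interior_closedBall _ one_ne_zero] at h4
      obtain ⟨w, hw, hwz⟩ := h4
      rw [F.injective hwz, mem_ball_zero_iff] at hw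
      linarith
  have h3 := const_mod ha0 ha (ρ / R) (by
    intro z hz
    have h4 := key z hz
    rw [hF z hz.le] at h4
    unfold ff at h4
    rw [norm_mul, norm_mul, hz, one_mul, Complex.norm_real, Real.norm_eq_abs, abs_of_pos hR] at h4
    rw [eq_div_iff hR.ne', ← h4]
    ring)
  linarith

end

end Pool.Agent.R246.BifG
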