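import Mathlib
import Pool.Agent.R246.BifG

/-!
# The Green identity, pointwise part
-/

namespace Pool.Agent.R246.BifH

open scoped ENNReal Topology ComplexConjugate NNReal
open Pool.Agent.R246.BifE Pool.Agent.R246.BifF Pool.Agent.R246.BifG Filter Metric MeasureTheory

noncomputable section

/-- the Gaussian `e^{-π|f|²}` along `f` -/
def EE (R : ℝ) (a : ℕ → ℝ) (z : ℂ) : ℂ :=
  Complex.exp (-Real.pi * (ff R a z * conj (ff R a z)))

def AA (R : ℝ) (a : ℕ → ℝ) (p : ℂ → ℂ) (z : ℂ) : ℂ :=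
  p (ff R a z) * (-(ff R a z * conj (ff R a z)) * EE R a z * conj (qq a z)
    + (1 - EE R a z) * qq a z / Real.pi)

def BB (R : ℝ) (a : ℕ → ℝ) (p : ℂ → ℂ) (z : ℂ) : ℂ :=
  p (ff R a z) * ((ff R a z * conj (ff R a z)) * EE R a z * conj (qq a z)
    + (1 - EE R a z) * qq a z / Real.pi)

/-- the density `z ∂_z (p e^{-π|z|²})` at `f(z)` -/
def gg (R : ℝ) (a : ℕ → ℝ) (p p' : ℂ → ℂ) (z : ℂ) : ℂ :=
  ff R a z * (p' (ff R a z) - Real.pi * conj (ff R a z) * p (ff R a z)) * EE R a z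

variable {R : ℝ} {a : ℕ → ℝ} {p p' : ℂ → ℂ}

theorem conj_deriv {F : ℝ → ℂ} {F' : ℂ} {t : ℝ} (h : HasDerivAt F F' t) :
    HasDerivAt (fun s => conj (F s)) (conj F') t :=
  Complex.conjCLE.toContinuousLinearMap.hasFDerivAt.comp_hasDerivAt t h

/-- derivatives of the building blocks along a curve with velocity `z v` -/
theorem blocks (ha0 : a 0 = 0) (ha : Summable (fun k : ℕ => (k : ℝ) * |a k|)) {γ : ℝ → ℂ}
    {t : ℝ} {v z : ℂ} (hz : γ t = z) (hz1 : ‖z‖ < 1) (hγ : HasDerivAt γ (z * v) t) :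
    HasDerivAt (fun s => ff R a (γ s)) (ff R a z * qq a z * v) t ∧
    ∃ κ : ℂ, HasDerivAt (fun s => qq a (γ s)) (κ * v) t := by
  subst hz
  constructor
  · have h1 := (ff_deriv R ha0 ha hz1).comp t hγ
    refine h1.congr_deriv ?_
    unfold ff
    ring
  · have h1 : DifferentiableAt ℂ (qq a) (γ t) :=
      (qq_diff ha).differentiableAt (isOpen_ball.mem_nhds (by simpa using hz1))
    refine ⟨deriv (qq a) (γ t) * γ t, ?_⟩
    have h2 := h1.hasDerivAt.comp t hγ
    refine h2.congr_deriv ?_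
    ring

theorem EE_line {γ : ℝ → ℂ} {t : ℝ} {v z : ℂ} (hz : γ t = z)
    (hf : HasDerivAt (fun s => ff R a (γ s)) (ff R a z * qq a z * v) t) :
    HasDerivAt (fun s => EE R a (γ s))
      (-Real.pi * EE R a z * (ff R a z * conj (ff R a z)) * (qq a z * v + conj (qq a z * v))) t := by
  subst hz
  have h1 := (hf.fun_mul (conj_deriv hf)).const_mul (-(Real.pi : ℂ))
  have h2 := h1.cexp
  refine h2.congr_deriv ?_
  unfold EE
  simp only [map_mul]
  ring

/-- the two directional derivatives -/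
theorem AB_line (ha0 : a 0 = 0) (ha : Summable (fun k : ℕ => (k : ℝ) * |a k|))
    (hp : ∀ z, HasDerivAt p (p' z) z) {γ δ : ℝ → ℂ} {t u : ℝ} {z : ℂ} {ρ : ℝ}
    (hz : γ t = z) (hz' : δ u = z) (hz1 : ‖z‖ < 1)
    (hγ : HasDerivAt γ (z * ρ) t) (hδ : HasDerivAt δ (z * Complex.I) u) :
    ∃ dA dB : ℂ, HasDerivAt (fun s => AA R a p (γ s)) dA t ∧
      HasDerivAt (fun s => BB R a p (δ s)) dB u ∧
      dA + Complex.I * ρ * dB = -2 * ρ * ((ff R a z * conj (ff R a z)) * (qq a z * conj (qq a z))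
        * gg R a p p' z) := by
  obtain ⟨f1, κ1, q1⟩ := blocks (R := R) ha0 ha hz hz1 hγ
  obtain ⟨f2, κ2, q2⟩ := blocks (R := R) ha0 ha hz' hz1 hδ
  -- the derivative of q is complex linear: identify κ1, κ2 with the complex derivative
  have hq : DifferentiableAt ℂ (qq a) z :=
    (qq_diff ha).differentiableAt (isOpen_ball.mem_nhds (by simpa using hz1))
  have q1' : HasDerivAt (fun s => qq a (γ s)) (deriv (qq a) z * (z * ρ)) t := by
    have := hz ▸ hq.hasDerivAt
    exact (by rw [hz]; exact hq.hasDerivAt : HasDerivAt (qq a) (deriv (qq a) z) (γ t)).comp t hγ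
  have q2' : HasDerivAt (fun s => qq a (δ s)) (deriv (qq a) z * (z * Complex.I)) u := by
    exact (by rw [hz']; exact hq.hasDerivAt : HasDerivAt (qq a) (deriv (qq a) z) (δ u)).comp u hδ
  have E1 := EE_line (R := R) (a := a) hz f1
  have E2 := EE_line (R := R) (a := a) hz' f2
  have P1 : HasDerivAt (fun s => p (ff R a (γ s))) (p' (ff R a z) * (ff R a z * qq a z * ρ)) t := by
    have h : HasDerivAt p (p' (ff R a z)) (ff R a (γ t)) := by rw [hz]; exact hp _
    exact h.comp t f1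
  have P2 : HasDerivAt (fun s => p (ff R a (δ s)))
      (p' (ff R a z) * (ff R a z * qq a z * Complex.I)) u := by
    have h : HasDerivAt p (p' (ff R a z)) (ff R a (δ u)) := by rw [hz']; exact hp _
    exact h.comp u f2
  have W1 := f1.fun_mul (conj_deriv f1)
  have W2 := f2.fun_mul (conj_deriv f2)
  have hA := P1.fun_mul (((W1.fun_neg.fun_mul E1).fun_mul (conj_deriv q1')).fun_add
    (((E1.const_sub 1).fun_mul q1').div_const (Real.pi : ℂ)))
  have hB := P2.fun_mul (((W2.fun_mul E2).fun_mul (conj_deriv q2')).fun_add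
    (((E2.const_sub 1).fun_mul q2').div_const (Real.pi : ℂ)))
  refine ⟨_, _, hA, hB, ?_⟩
  rw [hz, hz']
  unfold gg
  simp only [map_mul, Complex.conj_I, Complex.conj_ofReal]
  have hpi : (Real.pi : ℂ) ≠ 0 := by exact_mod_cast Real.pi_ne_zero
  have hI : Complex.I * Complex.I = -1 := Complex.I_mul_I
  field_simp
  ring_nf
  simp only [Complex.I_sq]
  ring

end

end Pool.Agent.R246.BifH
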