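import Mathlib
import Pool.Agent.R246.BifH

/-!
# The Green identity, integrated
-/

namespace Pool.Agent.R246.BifI

open scoped ENNReal Topology ComplexConjugate NNReal Interval
open Pool.Agent.R246.BifE Pool.Agent.R246.BifF Pool.Agent.R246.BifG Pool.Agent.R246.BifH
open Filter Metric MeasureTheory

noncomputable section

variable {R : ℝ} {a : ℕ → ℝ} {p p' : ℂ → ℂ}

theorem ff_cont (ha0 : a 0 = 0) (ha : Summable (fun k : ℕ => (k : ℝ) * |a k|)) :
    ContinuousOn (ff R a) (closedBall 0 1) := by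
  unfold ff
  exact continuousOn_const.mul (continuousOn_id.mul (ph_cont ha0 ha).cexp)

theorem conj_cont {F : ℂ → ℂ} {s : Set ℂ} (h : ContinuousOn F s) :
    ContinuousOn (fun z => conj (F z)) s := Complex.continuous_conj.comp_continuousOn h

theorem EE_cont (ha0 : a 0 = 0) (ha : Summable (fun k : ℕ => (k : ℝ) * |a k|)) :
    ContinuousOn (EE R a) (closedBall 0 1) := by
  unfold EE
  exact (continuousOn_const.mul ((ff_cont ha0 ha).mul (conj_cont (ff_cont ha0 ha)))).cexp

theorem AA_cont (ha0 : a 0 = 0) (ha : Summable (fun k : ℕ => (k : ℝ) * |a k|))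
    (hp : Continuous p) : ContinuousOn (AA R a p) (closedBall 0 1) := by
  unfold AA
  have h1 := ff_cont (R := R) ha0 ha
  have h2 := conj_cont h1
  have h3 := EE_cont (R := R) ha0 ha
  have h4 := qq_cont ha
  have h5 := conj_cont h4
  exact (hp.comp_continuousOn h1).mul ((((h1.mul h2).neg.mul h3).mul h5).add
    (((continuousOn_const.sub h3).mul h4).div_const _))

theorem BB_cont (ha0 : a 0 = 0) (ha : Summable (fun k : ℕ => (k : ℝ) * |a k|))
    (hp : Continuous p) : ContinuousOn (BB R a p) (closedBall 0 1) := by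
  unfold BB
  have h1 := ff_cont (R := R) ha0 ha
  have h2 := conj_cont h1
  have h3 := EE_cont (R := R) ha0 ha
  have h4 := qq_cont ha
  have h5 := conj_cont h4
  exact (hp.comp_continuousOn h1).mul ((((h1.mul h2).mul h3).mul h5).add
    (((continuousOn_const.sub h3).mul h4).div_const _))

theorem gg_cont (ha0 : a 0 = 0) (ha : Summable (fun k : ℕ => (k : ℝ) * |a k|))
    (hp : Continuous p) (hp' : Continuous p') :
    ContinuousOn (gg R a p p') (closedBall 0 1) := by
  unfold gg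
  have h1 := ff_cont (R := R) ha0 ha
  have h2 := conj_cont h1
  have h3 := EE_cont (R := R) ha0 ha
  exact (h1.mul ((hp'.comp_continuousOn h1).sub ((continuousOn_const.mul h2).mul
    (hp.comp_continuousOn h1)))).mul h3

/-- the pulled back density: `|f'|² g(f)` -/
def Gam (R : ℝ) (a : ℕ → ℝ) (p p' : ℂ → ℂ) (z : ℂ) : ℂ :=
  ((R * Complex.exp (ph a z)) * conj (R * Complex.exp (ph a z))) * (qq a z * conj (qq a z))
    * gg R a p p' z

theorem Gam_cont (ha0 : a 0 = 0) (ha : Summable (fun k : ℕ => (k : ℝ) * |a k|))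
    (hp : Continuous p) (hp' : Continuous p') :
    ContinuousOn (Gam R a p p') (closedBall 0 1) := by
  unfold Gam
  have h1 : ContinuousOn (fun z => (R : ℂ) * Complex.exp (ph a z)) (closedBall 0 1) :=
    continuousOn_const.mul (ph_cont ha0 ha).cexp
  have h4 := qq_cont ha
  exact ((h1.mul (conj_cont h1)).mul (h4.mul (conj_cont h4))).mul (gg_cont ha0 ha hp hp')

theorem Gam_eq (z : ℂ) : (ff R a z * conj (ff R a z)) * (qq a z * conj (qq a z)) * gg R a p p' z
    = (z * conj z) * Gam R a p p' z := by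
  unfold Gam ff
  simp only [map_mul]
  ring

theorem conj_diff {F : ℂ → ℂ} {z : ℂ} (h : DifferentiableAt ℝ F z) :
    DifferentiableAt ℝ (fun z => conj (F z)) z :=
  Complex.conjCLE.toContinuousLinearMap.differentiableAt.comp z h

theorem AB_diff (ha0 : a 0 = 0) (ha : Summable (fun k : ℕ => (k : ℝ) * |a k|))
    (hp : ∀ z, HasDerivAt p (p' z) z) {z : ℂ} (hz : ‖z‖ < 1) :
    DifferentiableAt ℝ (AA R a p) z ∧ DifferentiableAt ℝ (BB R a p) z := by
  have h1 : DifferentiableAt ℝ (ff R a) z :=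
    (ff_deriv R ha0 ha hz).differentiableAt.restrictScalars ℝ
  have h2 := conj_diff h1
  have h4 : DifferentiableAt ℝ (qq a) z :=
    ((qq_diff ha).differentiableAt (isOpen_ball.mem_nhds (by simpa using hz))).restrictScalars ℝ
  have h5 := conj_diff h4
  have h3 : DifferentiableAt ℝ (EE R a) z := by
    unfold EE
    exact ((h1.fun_mul h2).const_mul _).cexp
  have h6 : DifferentiableAt ℝ (fun z => p (ff R a z)) z :=
    ((hp (ff R a z)).differentiableAt.restrictScalars ℝ).comp z h1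
  have h7 : DifferentiableAt ℝ (fun z => (1 - EE R a z) * qq a z / Real.pi) z := by
    simp only [div_eq_mul_inv]
    exact ((h3.const_sub 1).fun_mul h4).mul_const _
  constructor
  · unfold AA
    exact h6.fun_mul ((((h1.fun_mul h2).fun_neg.fun_mul h3).fun_mul h5).fun_add h7)
  · unfold BB
    exact h6.fun_mul ((((h1.fun_mul h2).fun_mul h3).fun_mul h5).fun_add h7)

/-- polar coordinates -/
def pol (x : ℝ × ℝ) : ℂ := x.1 * Complex.exp (Complex.I * x.2)

theorem pol_norm (x : ℝ × ℝ) : ‖pol x‖ = |x.1| := by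
  unfold pol
  rw [norm_mul, norm_z, mul_one, Complex.norm_real, Real.norm_eq_abs]

theorem pol_diff (x : ℝ × ℝ) : DifferentiableAt ℝ pol x := by
  unfold pol
  have h1 : DifferentiableAt ℝ (fun x : ℝ × ℝ => ((x.1 : ℝ) : ℂ)) x :=
    (Complex.ofRealCLM.differentiableAt).comp x differentiableAt_fst
  have h2 : DifferentiableAt ℝ (fun x : ℝ × ℝ => ((x.2 : ℝ) : ℂ)) x :=
    (Complex.ofRealCLM.differentiableAt).comp x differentiableAt_snd
  exact h1.fun_mul (h2.const_mul _).cexp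

theorem pol_cont : Continuous pol := by
  unfold pol
  fun_prop

theorem pol_d1 (r θ : ℝ) (hr : r ≠ 0) :
    HasDerivAt (fun s : ℝ => pol (s, θ)) (pol (r, θ) * ((1 / r : ℝ) : ℂ)) r := by
  have h1 : HasDerivAt (fun s : ℝ => (s : ℂ)) 1 r := Complex.ofRealCLM.hasDerivAt
  have h2 := h1.mul_const (Complex.exp (Complex.I * θ))
  refine h2.congr_deriv ?_
  unfold pol
  have : (r : ℂ) ≠ 0 := by exact_mod_cast hr
  push_cast
  field_simp

theorem pol_d2 (r θ : ℝ) :
    HasDerivAt (fun s : ℝ => pol (r, s)) (pol (r, θ) * Complex.I) θ := by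
  have h1 : HasDerivAt (fun s : ℝ => (s : ℂ)) 1 θ := Complex.ofRealCLM.hasDerivAt
  have h2 := ((h1.const_mul Complex.I).cexp).const_mul (r : ℂ)
  refine h2.congr_deriv ?_
  unfold pol
  ring

/-- the divergence of the two polar fields -/
theorem div_eq (ha0 : a 0 = 0) (ha : Summable (fun k : ℕ => (k : ℝ) * |a k|))
    (hp : ∀ z, HasDerivAt p (p' z) z) {x : ℝ × ℝ} (hx0 : 0 < x.1) (hx1 : x.1 < 1) :
    DifferentiableAt ℝ (fun x => AA R a p (pol x)) x ∧
    DifferentiableAt ℝ (fun x : ℝ × ℝ => Complex.I * ((1 / x.1 : ℝ) : ℂ) * BB R a p (pol x)) x ∧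
    fderiv ℝ (fun x => AA R a p (pol x)) x (1, 0)
      + fderiv ℝ (fun x : ℝ × ℝ => Complex.I * ((1 / x.1 : ℝ) : ℂ) * BB R a p (pol x)) x (0, 1)
      = -2 * x.1 * Gam R a p p' (pol x) := by
  obtain ⟨r, θ⟩ := x
  simp only at hx0 hx1
  have hz : ‖pol (r, θ)‖ < 1 := by rw [pol_norm]; simpa [abs_of_pos hx0] using hx1
  obtain ⟨dA', dB'⟩ := AB_diff (R := R) ha0 ha hp hz
  have D1 : DifferentiableAt ℝ (fun x => AA R a p (pol x)) (r, θ) := dA'.comp (r, θ) (pol_diff _)
  have D2' : DifferentiableAt ℝ (fun x => BB R a p (pol x)) (r, θ) := dB'.comp (r, θ) (pol_diff _)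
  have D3 : DifferentiableAt ℝ (fun x : ℝ × ℝ => Complex.I * ((1 / x.1 : ℝ) : ℂ)) (r, θ) := by
    have h1 : DifferentiableAt ℝ (fun x : ℝ × ℝ => 1 / x.1) (r, θ) := by
      simp only [one_div]
      exact DifferentiableAt.fun_inv differentiableAt_fst hx0.ne'
    exact ((Complex.ofRealCLM.differentiableAt).comp (r, θ) h1).const_mul _
  have D2 : DifferentiableAt ℝ (fun x : ℝ × ℝ => Complex.I * ((1 / x.1 : ℝ) : ℂ) *
      BB R a p (pol x)) (r, θ) := D3.fun_mul D2'
  refine ⟨D1, D2, ?_⟩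
  obtain ⟨dA, dB, h1, h2, h3⟩ := AB_line (R := R) ha0 ha hp (γ := fun s => pol (s, θ))
    (δ := fun s => pol (r, s)) (t := r) (u := θ) (z := pol (r, θ)) (ρ := 1 / r) rfl rfl hz
    (pol_d1 r θ hx0.ne') (pol_d2 r θ)
  have e1 : fderiv ℝ (fun x => AA R a p (pol x)) (r, θ) (1, 0) = dA := by
    have c1 : HasDerivAt (fun s : ℝ => ((s, θ) : ℝ × ℝ)) (1, 0) r :=
      (hasDerivAt_id' r).prodMk (hasDerivAt_const r θ)
    have := D1.hasFDerivAt.comp_hasDerivAt r c1
    exact this.unique h1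
  have e2 : fderiv ℝ (fun x : ℝ × ℝ => Complex.I * ((1 / x.1 : ℝ) : ℂ) * BB R a p (pol x))
      (r, θ) (0, 1) = Complex.I * ((1 / r : ℝ) : ℂ) * dB := by
    have c1 : HasDerivAt (fun s : ℝ => ((r, s) : ℝ × ℝ)) (0, 1) θ :=
      (hasDerivAt_const θ r).prodMk (hasDerivAt_id' θ)
    have := D2.hasFDerivAt.comp_hasDerivAt θ c1
    have h4 : HasDerivAt (fun s : ℝ => Complex.I * ((1 / r : ℝ) : ℂ) * BB R a p (pol (r, s)))
        (Complex.I * ((1 / r : ℝ) : ℂ) * dB) θ := h2.const_mul _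
    exact this.unique h4
  rw [e1, e2, h3]
  rw [Gam_eq]
  have h5 : pol (r, θ) * conj (pol (r, θ)) = (r : ℂ) ^ 2 := by
    rw [Complex.mul_conj, Complex.normSq_eq_norm_sq, pol_norm]
    simp
  rw [h5]
  have hr : (r : ℂ) ≠ 0 := by exact_mod_cast hx0.ne'
  push_cast
  field_simp

end

end Pool.Agent.R246.BifI
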