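import Mathlib
import Pool.Agent.R246.BifI

/-!
# The Green identity: limit, polar coordinates, change of variables
-/

namespace Pool.Agent.R246.BifJ

open scoped ENNReal Topology ComplexConjugate NNReal Interval
open Pool.Agent.R246.BifE Pool.Agent.R246.BifF Pool.Agent.R246.BifG Pool.Agent.R246.BifH
open Pool.Agent.R246.BifI
open Filter Metric MeasureTheory Real

noncomputable section

variable {R : ℝ} {a : ℕ → ℝ} {p p' : ℂ → ℂ}

theorem pol_two (r : ℝ) : pol (r, π) = pol (r, -π) := by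
  unfold pol
  have h1 : Complex.exp (Complex.I * ((π : ℝ) : ℂ)) = -1 := by
    rw [mul_comm]; exact Complex.exp_pi_mul_I
  have h2 : Complex.exp (Complex.I * ((-π : ℝ) : ℂ)) = -1 := by
    have : Complex.I * ((-π : ℝ) : ℂ) = -(π * Complex.I) := by push_cast; ring
    rw [this, Complex.exp_neg, Complex.exp_pi_mul_I]
    norm_num
  rw [h1, h2]

theorem green_eps (ha0 : a 0 = 0) (ha : Summable (fun k : ℕ => (k : ℝ) * |a k|))
    (hp : ∀ z, HasDerivAt p (p' z) z) (hpc' : Continuous p') {ε : ℝ} (h0 : 0 < ε) (h1 : ε < 1) :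
    ∫ r in ε..1, ∫ θ in (-π)..π, (-2 * (r : ℂ) * Gam R a p p' (pol (r, θ)))
      = (∫ θ in (-π)..π, AA R a p (pol (1, θ))) - ∫ θ in (-π)..π, AA R a p (pol (ε, θ)) := by
  classical
  have hpc : Continuous p := continuous_iff_continuousAt.mpr fun z => (hp z).continuousAt
  set S : Set (ℝ × ℝ) := Set.Ioo (min ε 1) (max ε 1) ×ˢ Set.Ioo (min (-π) π) (max (-π) π) with hS
  have hmem : ∀ x ∈ S, 0 < x.1 ∧ x.1 < 1 := by
    intro x hx
    have := hx.1
    rw [min_eq_left h1.le, max_eq_right h1.le] at this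
    exact ⟨h0.trans this.1, this.2⟩
  have hcb : ∀ x : ℝ × ℝ, x ∈ [[ε, 1]] ×ˢ [[-π, π]] → pol x ∈ closedBall (0 : ℂ) 1 := by
    intro x hx
    have := hx.1
    rw [Set.uIcc_of_le h1.le] at this
    rw [mem_closedBall_zero_iff, pol_norm, abs_le]
    exact ⟨by linarith [this.1], this.2⟩
  have hpos : ∀ x : ℝ × ℝ, x ∈ [[ε, 1]] ×ˢ [[-π, π]] → x.1 ≠ 0 := by
    intro x hx
    have := hx.1
    rw [Set.uIcc_of_le h1.le] at this
    have h : (0 : ℝ) < x.1 := by linarith [this.1]
    exact h.ne'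
  set fA : ℝ × ℝ → ℂ := fun x => AA R a p (pol x) with hfA
  set fB : ℝ × ℝ → ℂ := fun x => Complex.I * ((1 / x.1 : ℝ) : ℂ) * BB R a p (pol x) with hfB
  set f' : ℝ × ℝ → ℝ × ℝ →L[ℝ] ℂ := fun x => if x ∈ S then fderiv ℝ fA x else
    (ContinuousLinearMap.fst ℝ ℝ ℝ).smulRight (-2 * (x.1 : ℂ) * Gam R a p p' (pol x)) with hf'
  set g' : ℝ × ℝ → ℝ × ℝ →L[ℝ] ℂ := fun x => if x ∈ S then fderiv ℝ fB x else 0 with hg'
  have hsum : ∀ x : ℝ × ℝ, f' x (1, 0) + g' x (0, 1) = -2 * (x.1 : ℂ) * Gam R a p p' (pol x) := by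
    intro x
    by_cases hx : x ∈ S
    · simp only [hf', hg', if_pos hx]
      exact (div_eq (R := R) ha0 ha hp (hmem x hx).1 (hmem x hx).2).2.2
    · simp only [hf', hg', if_neg hx]
      simp
  have Hcf : ContinuousOn fA ([[ε, 1]] ×ˢ [[-π, π]]) :=
    (AA_cont ha0 ha hpc).comp pol_cont.continuousOn hcb
  have Hcg : ContinuousOn fB ([[ε, 1]] ×ˢ [[-π, π]]) := by
    refine ContinuousOn.mul ?_ ((BB_cont ha0 ha hpc).comp pol_cont.continuousOn hcb)
    refine continuousOn_const.mul ?_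
    refine Complex.continuous_ofReal.comp_continuousOn ?_
    exact continuousOn_const.div continuousOn_fst hpos
  have Hi : IntegrableOn (fun x => f' x (1, 0) + g' x (0, 1)) ([[ε, 1]] ×ˢ [[-π, π]]) := by
    simp only [hsum]
    refine ContinuousOn.integrableOn_compact (isCompact_uIcc.prod isCompact_uIcc) ?_
    refine ContinuousOn.mul ?_ ((Gam_cont ha0 ha hpc hpc').comp pol_cont.continuousOn hcb)
    fun_prop
  have main := integral2_divergence_prod_of_hasFDerivAt fA fB f' g' ε (-π) 1 π Hcf Hcg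
    (fun x hx => by
      have hx : x ∈ S := hx
      rw [show f' x = fderiv ℝ fA x from if_pos hx]
      exact (div_eq (R := R) ha0 ha hp (hmem x hx).1 (hmem x hx).2).1.hasFDerivAt)
    (fun x hx => by
      have hx : x ∈ S := hx
      rw [show g' x = fderiv ℝ fB x from if_pos hx]
      exact (div_eq (R := R) ha0 ha hp (hmem x hx).1 (hmem x hx).2).2.1.hasFDerivAt) Hi
  simp only [hsum] at main
  rw [main]
  have hB : (∫ x in ε..1, fB (x, π)) = ∫ x in ε..1, fB (x, -π) := by
    simp only [hfB, pol_two]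
  rw [hB, sub_self, zero_add]

/-- clamp to `[0,1]` -/
def cl (r : ℝ) : ℝ := max 0 (min r 1)

theorem cl_cont : Continuous cl := by unfold cl; fun_prop

theorem cl_abs (r : ℝ) : |cl r| ≤ 1 := by
  unfold cl
  rw [abs_of_nonneg (le_max_left _ _)]
  exact max_le zero_le_one (min_le_right _ _)

theorem cl_eq {r : ℝ} (h0 : 0 ≤ r) (h1 : r ≤ 1) : cl r = r := by
  unfold cl
  rw [min_eq_left h1, max_eq_right h0]

theorem comp_cl {G : ℂ → ℂ} (hG : ContinuousOn G (closedBall 0 1)) :
    Continuous (fun x : ℝ × ℝ => G (pol (cl x.1, x.2))) := by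
  refine hG.comp_continuous (pol_cont.comp ((cl_cont.comp continuous_fst).prodMk continuous_snd)) ?_
  intro x
  rw [mem_closedBall_zero_iff, pol_norm]
  exact cl_abs _

theorem AA_zero : AA R a p 0 = 0 := by
  unfold AA EE ff
  simp

theorem green_zero (ha0 : a 0 = 0) (ha : Summable (fun k : ℕ => (k : ℝ) * |a k|))
    (hp : ∀ z, HasDerivAt p (p' z) z) (hpc' : Continuous p') :
    ∫ r in (0 : ℝ)..1, ∫ θ in (-π)..π, (-2 * (r : ℂ) * Gam R a p p' (pol (cl r, θ)))
      = ∫ θ in (-π)..π, AA R a p (pol (1, θ)) := by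
  have hpc : Continuous p := continuous_iff_continuousAt.mpr fun z => (hp z).continuousAt
  have hK : Continuous (fun r : ℝ => ∫ θ in (-π)..π,
      (-2 * (r : ℂ) * Gam R a p p' (pol (cl r, θ)))) := by
    refine intervalIntegral.continuous_parametric_intervalIntegral_of_continuous' ?_ _ _
    have := comp_cl (Gam_cont (R := R) ha0 ha hpc hpc')
    refine Continuous.mul ?_ this
    fun_prop
  have hA : Continuous (fun ε : ℝ => ∫ θ in (-π)..π, AA R a p (pol (cl ε, θ))) :=
    intervalIntegral.continuous_parametric_intervalIntegral_of_continuous'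
      (comp_cl (AA_cont (R := R) ha0 ha hpc)) _ _
  have hL : Continuous (fun ε : ℝ => ∫ r in ε..1, ∫ θ in (-π)..π,
      (-2 * (r : ℂ) * Gam R a p p' (pol (cl r, θ)))) := by
    have h1 : (fun ε : ℝ => ∫ r in ε..1, ∫ θ in (-π)..π,
        (-2 * (r : ℂ) * Gam R a p p' (pol (cl r, θ)))) = fun ε : ℝ => -∫ r in (1 : ℝ)..ε,
        ∫ θ in (-π)..π, (-2 * (r : ℂ) * Gam R a p p' (pol (cl r, θ))) := by
      funext ε; rw [intervalIntegral.integral_symm]
    rw [h1]
    exact (intervalIntegral.continuous_primitive (fun a b => hK.intervalIntegrable a b) 1).neg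
  have heq : ∀ ε : ℝ, 0 < ε → ε < 1 → (∫ r in ε..1, ∫ θ in (-π)..π,
      (-2 * (r : ℂ) * Gam R a p p' (pol (cl r, θ)))) =
      (∫ θ in (-π)..π, AA R a p (pol (1, θ))) - ∫ θ in (-π)..π, AA R a p (pol (cl ε, θ)) := by
    intro ε h0 h1
    rw [cl_eq h0.le h1.le, ← green_eps (R := R) ha0 ha hp hpc' h0 h1]
    refine intervalIntegral.integral_congr fun r hr => ?_
    rw [Set.uIcc_of_le h1.le] at hr
    rw [cl_eq (h0.le.trans hr.1) hr.2]
  have ht1 : Tendsto (fun ε : ℝ => ∫ r in ε..1, ∫ θ in (-π)..π,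
      (-2 * (r : ℂ) * Gam R a p p' (pol (cl r, θ)))) (𝓝[>] 0) (𝓝 (∫ r in (0 : ℝ)..1,
        ∫ θ in (-π)..π, (-2 * (r : ℂ) * Gam R a p p' (pol (cl r, θ))))) :=
    (hL.tendsto 0).mono_left nhdsWithin_le_nhds
  have ht2 : Tendsto (fun ε : ℝ => (∫ θ in (-π)..π, AA R a p (pol (1, θ)))
      - ∫ θ in (-π)..π, AA R a p (pol (cl ε, θ))) (𝓝[>] 0)
      (𝓝 ((∫ θ in (-π)..π, AA R a p (pol (1, θ))) - ∫ θ in (-π)..π, AA R a p (pol (cl 0, θ)))) :=
    ((continuous_const.sub hA).tendsto 0).mono_left nhdsWithin_le_nhds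
  have heq' : (fun ε : ℝ => ∫ r in ε..1, ∫ θ in (-π)..π,
      (-2 * (r : ℂ) * Gam R a p p' (pol (cl r, θ)))) =ᶠ[𝓝[>] 0]
      (fun ε : ℝ => (∫ θ in (-π)..π, AA R a p (pol (1, θ)))
      - ∫ θ in (-π)..π, AA R a p (pol (cl ε, θ))) := by
    filter_upwards [Ioo_mem_nhdsGT (zero_lt_one' ℝ)] with ε hε
    exact heq ε hε.1 hε.2
  have h2 := tendsto_nhds_unique ht1 (ht2.congr' heq'.symm)
  rw [h2]
  have h3 : ∀ θ : ℝ, AA R a p (pol (cl 0, θ)) = 0 := by
    intro θ
    have : pol (cl 0, θ) = 0 := by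
      rw [cl_eq le_rfl zero_le_one]
      unfold pol
      simp
    rw [this, AA_zero]
  simp only [h3, intervalIntegral.integral_zero, sub_zero]

/-- integral over the disc in polar coordinates -/
theorem disc_polar {G : ℂ → ℂ} (hG : ContinuousOn G (closedBall 0 1)) :
    ∫ z in ball (0 : ℂ) 1, G z = ∫ r in (0 : ℝ)..1, ∫ θ in (-π)..π, (r : ℂ) * G (pol (cl r, θ)) := by
  rw [← integral_indicator measurableSet_ball, ← Complex.integral_comp_polarCoord_symm]
  have hc : Continuous (fun x : ℝ × ℝ => (x.1 : ℂ) * G (pol (cl x.1, x.2))) :=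
    (by fun_prop : Continuous fun x : ℝ × ℝ => (x.1 : ℂ)).mul (comp_cl hG)
  have h1 : ∫ x in polarCoord.target, x.1 • (ball (0 : ℂ) 1).indicator G (Complex.polarCoord.symm x)
      = ∫ x in Set.Ioo (0 : ℝ) 1 ×ˢ Set.Ioo (-π) π, (x.1 : ℂ) * G (pol (cl x.1, x.2)) := by
    have hsub : Set.Ioo (0 : ℝ) 1 ×ˢ Set.Ioo (-π) π ⊆ polarCoord.target := by
      intro x hx
      rw [polarCoord_target]
      exact ⟨hx.1.1, hx.2⟩
    have hpol : ∀ x : ℝ × ℝ, Complex.polarCoord.symm x = pol x := by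
      intro x
      rw [Complex.polarCoord_symm_apply]
      unfold pol
      congr 1
      rw [mul_comm Complex.I, Complex.exp_mul_I, Complex.ofReal_cos, Complex.ofReal_sin]
    rw [← integral_indicator (measurableSet_Ioo.prod measurableSet_Ioo),
      ← integral_indicator polarCoord.open_target.measurableSet]
    congr 1
    funext x
    by_cases hx : x ∈ Set.Ioo (0 : ℝ) 1 ×ˢ Set.Ioo (-π) π
    · rw [Set.indicator_of_mem hx, Set.indicator_of_mem (hsub hx), hpol, Set.indicator_of_mem,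
        cl_eq hx.1.1.le hx.1.2.le, Complex.real_smul]
      rw [mem_ball_zero_iff, pol_norm, abs_of_pos hx.1.1]
      exact hx.1.2
    · rw [Set.indicator_of_notMem hx]
      by_cases hx' : x ∈ polarCoord.target
      · rw [Set.indicator_of_mem hx', hpol, Set.indicator_of_notMem, smul_zero]
        rw [mem_ball_zero_iff, pol_norm]
        rw [polarCoord_target] at hx'
        intro hcon
        rw [abs_of_pos hx'.1] at hcon
        exact hx ⟨⟨hx'.1, hcon⟩, hx'.2⟩
      · rw [Set.indicator_of_notMem hx']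
  rw [h1]
  have hint : IntegrableOn (fun x : ℝ × ℝ => (x.1 : ℂ) * G (pol (cl x.1, x.2)))
      (Set.Ioo (0 : ℝ) 1 ×ˢ Set.Ioo (-π) π) (volume.prod volume) := by
    refine (hc.continuousOn.integrableOn_compact
      (isCompact_Icc.prod isCompact_Icc : IsCompact (Set.Icc (0 : ℝ) 1 ×ˢ Set.Icc (-π) π))).mono_set ?_
    exact Set.prod_mono Set.Ioo_subset_Icc_self Set.Ioo_subset_Icc_self
  have h2 := setIntegral_prod (μ := (volume : Measure ℝ)) (ν := (volume : Measure ℝ)) _ hint
  have hvol : (volume : Measure (ℝ × ℝ)) = (volume : Measure ℝ).prod volume := rfl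
  rw [hvol, h2, intervalIntegral.integral_of_le zero_le_one, ← integral_Ioc_eq_integral_Ioo]
  refine integral_congr_ae (Eventually.of_forall fun r => ?_)
  simp only
  rw [intervalIntegral.integral_of_le (by linarith [Real.pi_pos]), ← integral_Ioc_eq_integral_Ioo]

theorem det_mul (c : ℂ) : ((ContinuousLinearMap.toSpanSingleton ℂ c).restrictScalars ℝ :
    ℂ →L[ℝ] ℂ).det = Complex.normSq c := by
  rw [← Algebra.norm_complex_apply, Algebra.norm_apply]
  change LinearMap.det _ = _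
  congr 1
  ext x
  simp [mul_comm]

/-- change of variables to the disc -/
theorem omega_int (hR : 0 < R) (ha0 : a 0 = 0) (ha : Summable (fun k : ℕ => (k : ℝ) * |a k|))
    (hε : ∑' k : ℕ, (k : ℝ) * |a k| ≤ 1 / 40) (g : ℂ → ℂ) :
    ∫ w in ff R a '' ball 0 1, g w = ∫ z in ball (0 : ℂ) 1,
      ((R * Complex.exp (ph a z)) * conj (R * Complex.exp (ph a z))) * (qq a z * conj (qq a z))
      * g (ff R a z) := by
  rw [integral_image_eq_integral_abs_det_fderiv_smul volume measurableSet_ball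
    (f' := fun z => ((ContinuousLinearMap.toSpanSingleton ℂ
      (R * (Complex.exp (ph a z) * qq a z))).restrictScalars ℝ : ℂ →L[ℝ] ℂ))]
  · refine setIntegral_congr_fun measurableSet_ball fun z _ => ?_
    rw [det_mul, abs_of_nonneg (Complex.normSq_nonneg _), Complex.real_smul,
      ← Complex.mul_conj]
    simp only [map_mul]
    ring
  · intro z hz
    rw [mem_ball_zero_iff] at hz
    exact ((ff_deriv R ha0 ha hz).hasFDerivAt.restrictScalars ℝ).hasFDerivWithinAt
  · exact ff_injOn R hR ha0 ha hε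

end

end Pool.Agent.R246.BifJ
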