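import Mathlib
import Pool.Agent.R246.BifJ

/-!
# The moment identity for the bifurcating domains
-/

namespace Pool.Agent.R246.BifK

open scoped ENNReal Topology ComplexConjugate NNReal Interval
open Pool.Agent.R246.BifE Pool.Agent.R246.BifF Pool.Agent.R246.BifG Pool.Agent.R246.BifH
open Pool.Agent.R246.BifI Pool.Agent.R246.BifJ
open Filter Metric MeasureTheory Real

noncomputable section

variable {R : ℝ} {a c : ℕ → ℝ} {p p' : ℂ → ℂ}

theorem mean_value {G : ℂ → ℂ} (hG : DiffContOnCl ℂ G (ball 0 1)) :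
    ∫ θ in (-π)..π, G (pol (1, θ)) = 2 * π * G 0 := by
  have h1 := DiffContOnCl.circleAverage (c := 0) (R := 1) (f := G) (by simpa using hG)
  rw [circleAverage_def] at h1
  have h2 : ∀ θ : ℝ, circleMap 0 1 θ = pol (1, θ) := by
    intro θ
    unfold circleMap pol
    simp [mul_comm]
  simp only [h2] at h1
  have hper : Function.Periodic (fun θ : ℝ => G (pol (1, θ))) (2 * π) := by
    intro θ
    simp only [← h2, periodic_circleMap (0 : ℂ) 1 θ]
  have h3 := hper.intervalIntegral_add_eq 0 (-π)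
  rw [zero_add, show -π + 2 * π = π by ring] at h3
  rw [← h3, ← h1, Complex.real_smul]
  have hpi : (π : ℂ) ≠ 0 := by exact_mod_cast Real.pi_ne_zero
  push_cast
  field_simp

theorem AA_circle (μ : ℝ) (hμ : μ = π * R ^ 2)
    (hc : ∀ z : ℂ, ‖z‖ = 1 → ∑' k : ℕ, (c k : ℂ) * z ^ k = Mval μ a z) {z : ℂ} (hz : ‖z‖ = 1) :
    AA R a p z = 1 / π * (p (ff R a z) * (qq a z - Complex.exp (-μ) *
      ∑' k : ℕ, (c k : ℂ) * z ^ k)) := by
  rw [hc z hz]
  have hpi : (π : ℂ) ≠ 0 := by exact_mod_cast Real.pi_ne_zero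
  have hzz : z * conj z = 1 := by
    rw [Complex.mul_conj, Complex.normSq_eq_norm_sq, hz]; simp
  have hff : ff R a z * conj (ff R a z) = R ^ 2 * Complex.exp (ph a z + conj (ph a z)) := by
    unfold ff
    rw [Complex.exp_add, Complex.exp_conj]
    simp only [map_mul, Complex.conj_ofReal]
    calc (R : ℂ) * (z * Complex.exp (ph a z)) * (R * (conj z * conj (Complex.exp (ph a z))))
        = R ^ 2 * (z * conj z) * (Complex.exp (ph a z) * conj (Complex.exp (ph a z))) := by ring
      _ = _ := by rw [hzz]; ring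
  have hE : EE R a z = Complex.exp (-μ) *
      Complex.exp (-μ * (Complex.exp (ph a z + conj (ph a z)) - 1)) := by
    unfold EE
    rw [hff, ← Complex.exp_add]
    congr 1
    rw [hμ]
    push_cast
    ring
  unfold AA Mval
  rw [← mul_assoc (Complex.exp (-(μ : ℂ))), ← hE, hff, hμ]
  push_cast
  field_simp
  ring

theorem pq_dcc (ha0 : a 0 = 0) (ha : Summable (fun k : ℕ => (k : ℝ) * |a k|))
    (hcs : Summable fun k => |c k|) (hp : ∀ z, HasDerivAt p (p' z) z) (μ : ℝ) :
    DiffContOnCl ℂ (fun z => p (ff R a z) * (qq a z - Complex.exp (-μ) *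
      ∑' k : ℕ, (c k : ℂ) * z ^ k)) (ball 0 1) := by
  have hpd : Differentiable ℂ p := fun z => (hp z).differentiableAt
  constructor
  · have h1 : DifferentiableOn ℂ (ff R a) (ball 0 1) := by
      intro z hz
      rw [mem_ball_zero_iff] at hz
      exact (ff_deriv R ha0 ha hz).differentiableAt.differentiableWithinAt
    exact (hpd.comp_differentiableOn h1).mul ((qq_diff ha).sub ((pw_diff hcs).const_mul _))
  · rw [closure_ball _ one_ne_zero]
    exact (hpd.continuous.comp_continuousOn (ff_cont ha0 ha)).mul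
      ((qq_cont ha).sub (continuousOn_const.mul (pw_cont hcs)))

/-- **Moment identity.** -/
theorem moment (hR : 0 < R) (ha0 : a 0 = 0) (ha : Summable (fun k : ℕ => (k : ℝ) * |a k|))
    (hε : ∑' k : ℕ, (k : ℝ) * |a k| ≤ 1 / 40) (μ : ℝ) (hμ : μ = π * R ^ 2)
    (hcs : Summable fun k => |c k|)
    (hc : ∀ z : ℂ, ‖z‖ = 1 → ∑' k : ℕ, (c k : ℂ) * z ^ k = Mval μ a z)
    (hp : ∀ z, HasDerivAt p (p' z) z) (hpc' : Continuous p') :
    ∫ w in ff R a '' ball 0 1, w * (p' w - π * conj w * p w) * Complex.exp (-π * (w * conj w))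
      = -p 0 * (1 - Complex.exp (-μ) * c 0) := by
  have hpc : Continuous p := continuous_iff_continuousAt.mpr fun z => (hp z).continuousAt
  rw [omega_int hR ha0 ha hε]
  have h1 : ∫ z in ball (0 : ℂ) 1, ((R * Complex.exp (ph a z)) * conj (R * Complex.exp (ph a z)))
      * (qq a z * conj (qq a z)) * (ff R a z * (p' (ff R a z) - π * conj (ff R a z) *
        p (ff R a z)) * Complex.exp (-π * (ff R a z * conj (ff R a z))))
      = ∫ z in ball (0 : ℂ) 1, Gam R a p p' z := rfl
  rw [h1, disc_polar (Gam_cont ha0 ha hpc hpc')]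
  have h2 := green_zero (R := R) ha0 ha hp hpc'
  have h3 : ∫ r in (0 : ℝ)..1, ∫ θ in (-π)..π, (-2 * (r : ℂ) * Gam R a p p' (pol (cl r, θ)))
      = -2 * ∫ r in (0 : ℝ)..1, ∫ θ in (-π)..π, ((r : ℂ) * Gam R a p p' (pol (cl r, θ))) := by
    rw [← intervalIntegral.integral_const_mul]
    refine intervalIntegral.integral_congr fun r _ => ?_
    rw [← intervalIntegral.integral_const_mul]
    refine intervalIntegral.integral_congr fun θ _ => ?_
    ring
  rw [h3] at h2
  have h4 : ∫ θ in (-π)..π, AA R a p (pol (1, θ)) = 1 / π * (2 * π * (p 0 *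
      (1 - Complex.exp (-μ) * c 0))) := by
    have h5 : ∀ θ : ℝ, AA R a p (pol (1, θ)) = 1 / π * (p (ff R a (pol (1, θ))) *
        (qq a (pol (1, θ)) - Complex.exp (-μ) * ∑' k : ℕ, (c k : ℂ) * (pol (1, θ)) ^ k)) :=
      fun θ => AA_circle μ hμ hc (by rw [pol_norm]; simp)
    simp only [h5]
    rw [intervalIntegral.integral_const_mul, mean_value (pq_dcc ha0 ha hcs hp μ)]
    congr 2
    have e1 : ff R a 0 = 0 := by unfold ff; simp
    have e2 : qq a 0 = 1 := by rw [phd_mul]; simp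
    have e3 : ∑' k : ℕ, (c k : ℂ) * (0 : ℂ) ^ k = c 0 := by
      rw [tsum_eq_single 0]
      · simp
      · intro k hk; simp [hk]
    rw [e1, e2, e3]
  rw [h4] at h2
  have hpi : (π : ℂ) ≠ 0 := by exact_mod_cast Real.pi_ne_zero
  have h6 : (1 : ℂ) / π * (2 * π * (p 0 * (1 - Complex.exp (-μ) * c 0)))
      = 2 * (p 0 * (1 - Complex.exp (-μ) * c 0)) := by field_simp
  rw [h6] at h2
  linear_combination (-1 / 2 : ℂ) * h2

end

end Pool.Agent.R246.BifK
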