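import Mathlib
import Pool.Agent.R246.BifK

/-!
# The short-time Fourier transform of the Gaussian with the first Hermite window
-/

namespace Pool.Agent.R246.BifL

open scoped ENNReal Topology ComplexConjugate NNReal
open Filter Metric MeasureTheory Real

noncomputable section

/-- exponent of the Gaussian integrand -/
def qe (c d : ℂ) (t : ℝ) : ℂ := Complex.exp ((-(2 * π : ℝ) : ℂ) * t ^ 2 + c * t + d)

theorem qe_int (c d : ℂ) : Integrable (qe c d) := by
  unfold qe
  exact integrable_cexp_quadratic' (b := (-(2 * π : ℝ) : ℂ)) (by simp [Real.pi_pos]) c d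

def K0 : ℂ := (π / -(-(2 * π : ℝ) : ℂ)) ^ (1 / 2 : ℂ)

theorem qe_integral (c d : ℂ) : ∫ t, qe c d t = K0 * Complex.exp (d + c ^ 2 / (8 * π)) := by
  unfold qe K0
  rw [integral_cexp_quadratic (b := (-(2 * π : ℝ) : ℂ)) (by simp [Real.pi_pos]) c d]
  congr 2
  have hpi : (π : ℂ) ≠ 0 := by exact_mod_cast Real.pi_ne_zero
  push_cast
  field_simp
  ring

theorem abs_le_exp (t : ℝ) : |t| ≤ Real.exp t + Real.exp (-t) := by
  rcases le_total 0 t with h | h
  · rw [abs_of_nonneg h]
    have := Real.add_one_le_exp t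
    linarith [Real.exp_pos (-t)]
  · rw [abs_of_nonpos h]
    have := Real.add_one_le_exp (-t)
    linarith [Real.exp_pos t]

theorem qe_mul_int (c d : ℂ) : Integrable (fun t : ℝ => (t : ℂ) * qe c d t) := by
  have h1 := (qe_int (c + 1) d).norm.add (qe_int (c - 1) d).norm
  refine h1.mono' ?_ (Eventually.of_forall fun t => ?_)
  · have : Continuous (fun t : ℝ => (t : ℂ) * qe c d t) := by
      unfold qe; fun_prop
    exact this.aestronglyMeasurable
  · have e1 : ‖qe (c + 1) d t‖ = Real.exp t * ‖qe c d t‖ := by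
      unfold qe
      rw [Complex.norm_exp, Complex.norm_exp, ← Real.exp_add]
      congr 1
      simp only [Complex.add_re, add_mul, one_mul, Complex.ofReal_re]
      ring
    have e2 : ‖qe (c - 1) d t‖ = Real.exp (-t) * ‖qe c d t‖ := by
      unfold qe
      rw [Complex.norm_exp, Complex.norm_exp, ← Real.exp_add]
      congr 1
      simp only [Complex.add_re, sub_mul, one_mul, Complex.sub_re, Complex.ofReal_re]
      ring
    simp only [Pi.add_apply]
    rw [e1, e2, norm_mul, Complex.norm_real, Real.norm_eq_abs, ← add_mul]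
    exact mul_le_mul_of_nonneg_right (abs_le_exp t) (norm_nonneg _)

theorem qe_mul_integral (c d : ℂ) :
    ∫ t : ℝ, (t : ℂ) * qe c d t = c / (4 * π) * (K0 * Complex.exp (d + c ^ 2 / (8 * π))) := by
  have hd : ∀ t : ℝ, HasDerivAt (qe c d) ((-(4 * π : ℂ)) * ((t : ℂ) * qe c d t) + c * qe c d t) t := by
    intro t
    have h1 : HasDerivAt (fun s : ℝ => (s : ℂ)) 1 t := Complex.ofRealCLM.hasDerivAt
    have h2 := ((((h1.fun_pow 2).const_mul ((-(2 * π : ℝ) : ℂ))).fun_add (h1.const_mul c)).add_const d).cexp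
    refine h2.congr_deriv ?_
    unfold qe
    push_cast
    ring
  have h0 := integral_eq_zero_of_hasDerivAt_of_integrable hd
    (((qe_mul_int c d).const_mul _).add ((qe_int c d).const_mul _)) (qe_int c d)
  rw [integral_add ((qe_mul_int c d).const_mul _) ((qe_int c d).const_mul _),
    integral_const_mul, integral_const_mul, qe_integral] at h0
  have hpi : (π : ℂ) ≠ 0 := by exact_mod_cast Real.pi_ne_zero
  generalize K0 * Complex.exp (d + c ^ 2 / (8 * π)) = X at h0 ⊢
  rw [div_mul_eq_mul_div, eq_div_iff (by simp [hpi])]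
  linear_combination (-1 : ℂ) * h0

/-- `π(x,ξ) g (t)` -/
def tf (x ξ : ℝ) (g : ℝ → ℂ) (t : ℝ) : ℂ :=
  Complex.exp (2 * π * Complex.I * ξ * t) * g (t - x)

def g0 (t : ℝ) : ℂ := ((Real.exp (-π * t ^ 2) : ℝ) : ℂ)
def g1 (t : ℝ) : ℂ := ((t * Real.exp (-π * t ^ 2) : ℝ) : ℂ)

theorem stft01 (x ξ : ℝ) : ∫ t, g0 t * conj (tf x ξ g1 t)
    = -((x : ℂ) + Complex.I * ξ) / 2 * (K0 * Complex.exp (-π / 2 * (x ^ 2 + ξ ^ 2)
      - π * Complex.I * x * ξ)) := by
  have h1 : ∀ t : ℝ, g0 t * conj (tf x ξ g1 t)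
      = (t : ℂ) * qe (2 * π * x - 2 * π * Complex.I * ξ) (-π * x ^ 2) t
        - x * qe (2 * π * x - 2 * π * Complex.I * ξ) (-π * x ^ 2) t := by
    intro t
    unfold g0 tf g1 qe
    rw [map_mul, ← Complex.exp_conj, Complex.conj_ofReal]
    simp only [map_mul, Complex.conj_I, Complex.conj_ofReal, map_ofNat]
    push_cast
    rw [← sub_mul]
    have e : Complex.exp (-π * (t : ℂ) ^ 2) * (Complex.exp (2 * π * -Complex.I * ξ * t) *
        ((t - x) * Complex.exp (-π * ((t : ℂ) - x) ^ 2)))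
        = (t - x) * (Complex.exp (-π * (t : ℂ) ^ 2) * Complex.exp (2 * π * -Complex.I * ξ * t) *
          Complex.exp (-π * ((t : ℂ) - x) ^ 2)) := by ring
    rw [e, ← Complex.exp_add, ← Complex.exp_add]
    congr 2
    ring
  simp only [h1]
  rw [integral_sub (qe_mul_int _ _) ((qe_int _ _).const_mul _), integral_const_mul,
    qe_mul_integral, qe_integral]
  have hpi : (π : ℂ) ≠ 0 := by exact_mod_cast Real.pi_ne_zero
  have e : (-π * (x : ℂ) ^ 2 + (2 * π * x - 2 * π * Complex.I * ξ) ^ 2 / (8 * π))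
      = (-π / 2 * (x ^ 2 + ξ ^ 2) - π * Complex.I * x * ξ) := by
    field_simp
    ring_nf
    simp only [Complex.I_sq]
    ring
  rw [e]
  field_simp
  ring

/-- the key factorisation of the kernel -/
theorem kernel (x ξ t : ℝ) :
    (((x : ℂ) + Complex.I * ξ) * Complex.exp (-π / 2 * (x ^ 2 + ξ ^ 2) - π * Complex.I * x * ξ))
      * tf x ξ g1 t
    = 1 / (2 * π) * Complex.exp (-π * (t : ℂ) ^ 2) *
      (((x : ℂ) + Complex.I * ξ) *
        ((2 * π * t - π * ((x : ℂ) + Complex.I * ξ)) *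
            Complex.exp (2 * π * t * ((x : ℂ) + Complex.I * ξ) - π / 2 * ((x : ℂ) + Complex.I * ξ) ^ 2)
          - π * conj ((x : ℂ) + Complex.I * ξ) *
            Complex.exp (2 * π * t * ((x : ℂ) + Complex.I * ξ) - π / 2 * ((x : ℂ) + Complex.I * ξ) ^ 2))
        * Complex.exp (-π * (((x : ℂ) + Complex.I * ξ) * conj ((x : ℂ) + Complex.I * ξ)))) := by
  have hpi : (π : ℂ) ≠ 0 := by exact_mod_cast Real.pi_ne_zero
  have hcz : conj ((x : ℂ) + Complex.I * ξ) = (x : ℂ) - Complex.I * ξ := by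
    simp only [map_add, map_mul, Complex.conj_I, Complex.conj_ofReal]
    ring
  rw [hcz]
  unfold tf g1
  push_cast
  set z : ℂ := (x : ℂ) + Complex.I * ξ with hz
  have hfac : (2 * π * t - π * z) * Complex.exp (2 * π * t * z - π / 2 * z ^ 2)
      - π * ((x : ℂ) - Complex.I * ξ) * Complex.exp (2 * π * t * z - π / 2 * z ^ 2)
      = 2 * π * (t - x) * Complex.exp (2 * π * t * z - π / 2 * z ^ 2) := by
    rw [hz]; ring
  rw [hfac]
  have hexp : Complex.exp (-π / 2 * (x ^ 2 + ξ ^ 2) - π * Complex.I * x * ξ) *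
      (Complex.exp (2 * π * Complex.I * ξ * t) * Complex.exp (-π * ((t : ℂ) - x) ^ 2))
      = Complex.exp (-π * (t : ℂ) ^ 2) * (Complex.exp (2 * π * t * z - π / 2 * z ^ 2) *
        Complex.exp (-π * (z * ((x : ℂ) - Complex.I * ξ)))) := by
    rw [← Complex.exp_add, ← Complex.exp_add, ← Complex.exp_add, ← Complex.exp_add]
    congr 1
    rw [hz]
    ring_nf
    simp only [Complex.I_sq]
    ring
  calc z * Complex.exp (-π / 2 * (x ^ 2 + ξ ^ 2) - π * Complex.I * x * ξ) *
      (Complex.exp (2 * π * Complex.I * ξ * t) * ((t - x) * Complex.exp (-π * ((t : ℂ) - x) ^ 2)))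
      = z * (t - x) * (Complex.exp (-π / 2 * (x ^ 2 + ξ ^ 2) - π * Complex.I * x * ξ) *
      (Complex.exp (2 * π * Complex.I * ξ * t) * Complex.exp (-π * ((t : ℂ) - x) ^ 2))) := by ring
    _ = z * (t - x) * (Complex.exp (-π * (t : ℂ) ^ 2) *
        (Complex.exp (2 * π * t * z - π / 2 * z ^ 2) *
        Complex.exp (-π * (z * ((x : ℂ) - Complex.I * ξ))))) := by rw [hexp]
    _ = _ := by
      field_simp

end

end Pool.Agent.R246.BifL
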