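import Mathlib
import Pool.Agent.R246.BifL

/-!
# The Gaussian is an eigenfunction (unnormalised windows)
-/

namespace Pool.Agent.R246.BifM

open scoped ENNReal Topology ComplexConjugate NNReal
open Filter Metric MeasureTheory Real
open Pool.Agent.R246.BifE Pool.Agent.R246.BifF Pool.Agent.R246.BifG Pool.Agent.R246.BifK
  Pool.Agent.R246.BifL

noncomputable section

/-- a domain of `ℂ` viewed in `ℝ × ℝ` -/
def toProd (S : Set ℂ) : Set (ℝ × ℝ) := Complex.measurableEquivRealProd '' S

theorem setInt (S : Set ℂ) (f : ℝ × ℝ → ℂ) :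
    ∫ w in toProd S, f w = ∫ z in S, f (z.re, z.im) := by
  unfold toProd
  rw [Complex.volume_preserving_equiv_real_prod.setIntegral_image_emb
    Complex.measurableEquivRealProd.measurableEmbedding]
  rfl

theorem vol_toProd (S : Set ℂ) : volume (toProd S) = volume S := by
  unfold toProd
  rw [← Complex.volume_preserving_equiv_real_prod.measure_preimage_emb
    Complex.measurableEquivRealProd.measurableEmbedding,
    Set.preimage_image_eq _ Complex.measurableEquivRealProd.injective]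

/-- `V(w) = ⟨g0, π(w) g1⟩` -/
def VV (w : ℝ × ℝ) : ℂ := ∫ t, g0 t * conj (tf w.1 w.2 g1 t)

theorem VV_cont : Continuous VV := by
  have : VV = fun w : ℝ × ℝ => -((w.1 : ℂ) + Complex.I * w.2) / 2 *
      (K0 * Complex.exp (-π / 2 * (w.1 ^ 2 + w.2 ^ 2) - π * Complex.I * w.1 * w.2)) := by
    funext w
    exact stft01 w.1 w.2
  rw [this]
  fun_prop

variable {R : ℝ} {a c : ℕ → ℝ}

/-- the inner integral -/
theorem inner_int (hR : 0 < R) (ha0 : a 0 = 0) (ha : Summable (fun k : ℕ => (k : ℝ) * |a k|))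
    (hε : ∑' k : ℕ, (k : ℝ) * |a k| ≤ 1 / 40) (μ : ℝ) (hμ : μ = π * R ^ 2)
    (hcs : Summable fun k => |c k|)
    (hc : ∀ z : ℂ, ‖z‖ = 1 → ∑' k : ℕ, (c k : ℂ) * z ^ k = Mval μ a z) (t : ℝ) :
    ∫ w in toProd (ff R a '' ball 0 1), VV w * tf w.1 w.2 g1 t
      = K0 / (4 * π) * (1 - Complex.exp (-μ) * c 0) * g0 t := by
  rw [setInt]
  have hpi : (π : ℂ) ≠ 0 := by exact_mod_cast Real.pi_ne_zero
  set E : ℂ → ℂ := fun z => Complex.exp (2 * π * t * z - π / 2 * z ^ 2) with hE
  set E' : ℂ → ℂ := fun z => (2 * π * t - π * z) * Complex.exp (2 * π * t * z - π / 2 * z ^ 2)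
    with hE'
  have hder : ∀ z, HasDerivAt E (E' z) z := by
    intro z
    have h1 := (((hasDerivAt_id z).const_mul (2 * π * t : ℂ)).fun_sub
      (((hasDerivAt_id z).fun_pow 2).const_mul (π / 2 : ℂ))).cexp
    refine h1.congr_deriv ?_
    simp only [hE', id, mul_one]
    push_cast
    ring
  have hcont : Continuous E' := by
    simp only [hE']
    fun_prop
  have hm := moment hR ha0 ha hε μ hμ hcs hc hder hcont
  have e : ∀ z : ℂ, VV (z.re, z.im) * tf z.re z.im g1 t
      = (-K0 / 2 * (1 / (2 * π) * Complex.exp (-π * (t : ℂ) ^ 2))) *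
        (z * (E' z - π * conj z * E z) * Complex.exp (-π * (z * conj z))) := by
    intro z
    have hz : (z.re : ℂ) + Complex.I * z.im = z := by
      rw [mul_comm]; exact Complex.re_add_im z
    have hk := kernel z.re z.im t
    rw [hz] at hk
    have hs := stft01 z.re z.im
    rw [hz] at hs
    unfold VV
    simp only [hs]
    calc -z / 2 * (K0 * Complex.exp (-π / 2 * (z.re ^ 2 + z.im ^ 2) - π * Complex.I * z.re * z.im))
          * tf z.re z.im g1 t
        = (-K0 / 2) * (z * Complex.exp (-π / 2 * (z.re ^ 2 + z.im ^ 2) - π * Complex.I * z.re * z.im)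
          * tf z.re z.im g1 t) := by ring
      _ = _ := by
        rw [hk]
        simp only [hE, hE']
        ring
  simp only [e]
  rw [integral_const_mul, hm]
  have hE0 : E 0 = 1 := by simp [hE]
  rw [hE0]
  have hg : g0 t = Complex.exp (-π * (t : ℂ) ^ 2) := by
    unfold g0
    push_cast
    rfl
  rw [hg]
  field_simp
  ring

theorem g1_bd (u : ℝ) : |u * Real.exp (-π * u ^ 2)| ≤ Real.exp (-(π / 2) * u ^ 2) := by
  rw [abs_mul, abs_of_pos (Real.exp_pos _)]
  have h1 : |u| ≤ Real.exp (π / 2 * u ^ 2) := by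
    have h2 := Real.add_one_le_exp (π / 2 * u ^ 2)
    have h3 : |u| ≤ 1 + u ^ 2 := by
      rcases le_total 0 u with h | h
      · rw [abs_of_nonneg h]; nlinarith [sq_nonneg (u - 1)]
      · rw [abs_of_nonpos h]; nlinarith [sq_nonneg (u + 1)]
    have h4 : u ^ 2 ≤ π / 2 * u ^ 2 := by
      have : 1 ≤ π / 2 := by linarith [Real.pi_gt_three]
      nlinarith [sq_nonneg u]
    linarith
  calc |u| * Real.exp (-π * u ^ 2) ≤ Real.exp (π / 2 * u ^ 2) * Real.exp (-π * u ^ 2) :=
        mul_le_mul_of_nonneg_right h1 (Real.exp_pos _).le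
    _ = Real.exp (-(π / 2) * u ^ 2) := by
        rw [← Real.exp_add]; congr 1; ring

theorem tf_bd (x ξ t B : ℝ) (hx : |x| ≤ B) :
    ‖tf x ξ g1 t‖ ≤ Real.exp (π / 2 * B ^ 2) * Real.exp (-(π / 4) * t ^ 2) := by
  unfold tf g1
  have h0 : ‖Complex.exp (2 * π * Complex.I * ξ * t)‖ = 1 := by
    rw [Complex.norm_exp]
    simp
  rw [norm_mul, h0, one_mul, Complex.norm_real, Real.norm_eq_abs]
  refine (g1_bd (t - x)).trans ?_
  rw [← Real.exp_add]
  apply Real.exp_le_exp.mpr
  have hB : x ^ 2 ≤ B ^ 2 := by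
    rw [← sq_abs x]
    exact pow_le_pow_left₀ (abs_nonneg _) hx 2
  have h1 : t ^ 2 / 2 - B ^ 2 ≤ (t - x) ^ 2 := by
    nlinarith [sq_nonneg (t - 2 * x)]
  have := mul_le_mul_of_nonneg_left h1 (by positivity : 0 ≤ π / 2)
  nlinarith

theorem gauss_memLp : MemLp (fun t : ℝ => Real.exp (-(π / 4) * t ^ 2)) 2 volume := by
  rw [memLp_two_iff_integrable_sq]
  · have : (fun t : ℝ => Real.exp (-(π / 4) * t ^ 2) ^ 2)
        = fun t : ℝ => Real.exp (-(π / 2) * t ^ 2) := by
      funext t
      rw [← Real.exp_nat_mul]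
      congr 1
      push_cast
      ring
    rw [this]
    exact integrable_exp_neg_mul_sq (by positivity)
  · exact (by fun_prop : Continuous fun t : ℝ => Real.exp (-(π / 4) * t ^ 2)).aestronglyMeasurable

/-- Fubini -/
theorem fubini {S : Set ℂ} (hSm : MeasurableSet S) (hSb : Bornology.IsBounded S)
    {Q : ℝ × ℝ → ℂ} (hQ : Continuous Q) {g : ℝ → ℂ} (hg : MemLp g 2 volume) :
    ∫ w in toProd S, Q w * conj (∫ t, g t * conj (tf w.1 w.2 g1 t))
      = ∫ t, (∫ w in toProd S, Q w * tf w.1 w.2 g1 t) * conj (g t) := by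
  obtain ⟨B, hB⟩ := hSb.exists_norm_le
  have hTB : ∀ w ∈ toProd S, ‖w‖ ≤ B := by
    rintro w ⟨z, hz, rfl⟩
    have h1 := hB z hz
    have h2 : Complex.measurableEquivRealProd z = (z.re, z.im) := rfl
    rw [h2, Prod.norm_def]
    exact max_le ((Complex.abs_re_le_norm z).trans h1) ((Complex.abs_im_le_norm z).trans h1)
  have hTfin : volume (toProd S) < ⊤ := by
    rw [vol_toProd]
    exact hSb.measure_lt_top
  obtain ⟨K, hK⟩ : ∃ K, ∀ w ∈ closedBall (0 : ℝ × ℝ) B, ‖Q w‖ ≤ K :=
    (isCompact_closedBall (0 : ℝ × ℝ) B).exists_bound_of_continuousOn hQ.continuousOn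
  have e1 : ∀ w : ℝ × ℝ, Q w * conj (∫ t, g t * conj (tf w.1 w.2 g1 t))
      = ∫ t, Q w * tf w.1 w.2 g1 t * conj (g t) := by
    intro w
    rw [← integral_conj, ← integral_const_mul]
    congr 1
    funext t
    simp only [map_mul, Complex.conj_conj]
    ring
  simp only [e1]
  rw [integral_integral_swap]
  · congr 1
    funext t
    rw [integral_mul_const]
  · have : IsFiniteMeasure (volume.restrict (toProd S)) := ⟨by
      rw [Measure.restrict_apply_univ]; exact hTfin⟩
    have hi : Integrable (fun t : ℝ => ‖g t‖ * Real.exp (-(π / 4) * t ^ 2)) := by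
      exact hg.norm.integrable_mul gauss_memLp
    have hdom := (integrable_const (μ := volume.restrict (toProd S))
      (K * Real.exp (π / 2 * B ^ 2))).mul_prod hi
    refine hdom.mono' ?_ ?_
    · have hc1 : Continuous (fun p : (ℝ × ℝ) × ℝ => Q p.1 * tf p.1.1 p.1.2 g1 p.2) := by
        unfold tf g1
        fun_prop
      have hg2 : AEStronglyMeasurable (fun t => conj (g t)) volume :=
        Complex.continuous_conj.comp_aestronglyMeasurable hg.aestronglyMeasurable
      exact hc1.aestronglyMeasurable.mul hg2.comp_snd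
    · have hae : ∀ᵐ w ∂(volume.restrict (toProd S)), ‖w‖ ≤ B := by
        rw [ae_restrict_iff']
        · exact Eventually.of_forall hTB
        · exact Complex.measurableEquivRealProd.measurableSet_image.mpr hSm
      have h2 := (Measure.quasiMeasurePreserving_fst (μ := volume.restrict (toProd S))
        (ν := (volume : Measure ℝ))).ae hae
      filter_upwards [h2] with p hp
      have hx : |p.1.1| ≤ B := (norm_fst_le p.1).trans hp
      have hq : ‖Q p.1‖ ≤ K := hK p.1 (by rw [mem_closedBall_zero_iff]; exact hp)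
      have hK0 : 0 ≤ K := (norm_nonneg _).trans hq
      have ht := tf_bd p.1.1 p.1.2 p.2 B hx
      simp only [Function.uncurry, norm_mul, RCLike.norm_conj]
      calc ‖Q p.1‖ * ‖tf p.1.1 p.1.2 g1 p.2‖ * ‖g p.2‖
          ≤ K * (Real.exp (π / 2 * B ^ 2) * Real.exp (-(π / 4) * p.2 ^ 2)) * ‖g p.2‖ := by
            gcongr
        _ = _ := by ring

end

end Pool.Agent.R246.BifM
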