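import Mathlib

/-!
# The Gabor orthonormal basis of the indicator function of the unit cube, and dilations
-/

namespace Pool.Agent.R246.Gabor

open MeasureTheory Filter Topology Set
open scoped ENNReal ComplexConjugate

noncomputable section

local instance : MeasureSpace UnitAddCircle := ⟨AddCircle.haarAddCircle⟩

local instance : Measure.IsAddHaarMeasure (volume : Measure UnitAddCircle) :=
  inferInstanceAs (Measure.IsAddHaarMeasure AddCircle.haarAddCircle)

local instance : IsProbabilityMeasure (volume : Measure UnitAddCircle) :=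
  inferInstanceAs (IsProbabilityMeasure AddCircle.haarAddCircle)

variable {n : ℕ}

/-- the cube `m + (0,1]^n` -/
def Q (m : Fin n → ℤ) : Set (Fin n → ℝ) := {x | ∀ i, x i ∈ Ioc (m i : ℝ) (m i + 1)}

/-- projection to the torus -/
def tor (x : Fin n → ℝ) : UnitAddTorus (Fin n) := fun i => (x i : UnitAddCircle)

lemma Q_meas (m : Fin n → ℤ) : MeasurableSet (Q m) :=
  MeasurableSet.univ_pi' (fun _ => measurableSet_Ioc)

lemma tor_meas : Measurable (tor : (Fin n → ℝ) → UnitAddTorus (Fin n)) :=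
  measurable_pi_lambda _ fun i => AddCircle.measurable_mk'.comp (measurable_pi_apply i)

lemma Q_disj {m m' : Fin n → ℤ} {x : Fin n → ℝ} (h : x ∈ Q m) (h' : x ∈ Q m') : m = m' := by
  funext i
  have h1 := h i
  have h2 := h' i
  have a1 : (m i : ℝ) < m' i + 1 := lt_of_lt_of_le h1.1 h2.2
  have a2 : (m' i : ℝ) < m i + 1 := lt_of_lt_of_le h2.1 h1.2
  have b1 : m i < m' i + 1 := by exact_mod_cast a1
  have b2 : m' i < m i + 1 := by exact_mod_cast a2
  omega

lemma Q_cover (x : Fin n → ℝ) : ∃ m, x ∈ Q m := by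
  refine ⟨fun i => ⌈x i⌉ - 1, fun i => ⟨?_, ?_⟩⟩
  · push_cast; linarith [Int.ceil_lt_add_one (x i)]
  · push_cast; linarith [Int.le_ceil (x i)]

lemma integral_Q {F : Type*} [NormedAddCommGroup F] [NormedSpace ℝ F]
    (f : UnitAddTorus (Fin n) → F) (m : Fin n → ℤ) :
    ∫ x in Q m, f (tor x) = ∫ t, f t :=
  (UnitAddTorus.integral_preimage f (fun i => (m i : ℝ))).symm

lemma lintegral_Q (f : UnitAddTorus (Fin n) → ℝ≥0∞) (m : Fin n → ℤ) :
    ∫⁻ x in Q m, f (tor x) = ∫⁻ t, f t :=
  (UnitAddTorus.lintegral_preimage f (fun i => (m i : ℝ))).symm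

lemma Q_vol (m : Fin n → ℤ) : volume (Q m) = 1 := by
  have h := lintegral_Q (fun _ => 1) m
  simpa using h

/-- the Gabor function `G_{m,j}` -/
def G (i : (Fin n → ℤ) × (Fin n → ℤ)) : (Fin n → ℝ) → ℂ :=
  (Q i.1).indicator (fun x => UnitAddTorus.mFourier i.2 (tor x))

lemma norm_mF (j : Fin n → ℤ) (t : UnitAddTorus (Fin n)) : ‖UnitAddTorus.mFourier j t‖ = 1 := by
  simp only [UnitAddTorus.mFourier, ContinuousMap.coe_mk, norm_prod]
  exact Finset.prod_eq_one fun b _ => Circle.norm_coe _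

lemma norm_G (i : (Fin n → ℤ) × (Fin n → ℤ)) (x : Fin n → ℝ) :
    ‖G i x‖ = (Q i.1).indicator 1 x := by
  unfold G
  by_cases h : x ∈ Q i.1
  · rw [indicator_of_mem h, indicator_of_mem h, norm_mF]; rfl
  · rw [indicator_of_notMem h, indicator_of_notMem h, norm_zero]

lemma G_meas (i : (Fin n → ℤ) × (Fin n → ℤ)) : Measurable (G i) :=
  (((UnitAddTorus.mFourier i.2).continuous.measurable).comp tor_meas).indicator (Q_meas _)

lemma inner_G (i i' : (Fin n → ℤ) × (Fin n → ℤ)) :
    ∫ x, conj (G i x) * G i' x = if i = i' then 1 else 0 := by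
  classical
  by_cases hm : i.1 = i'.1
  · have e : (fun x => conj (G i x) * G i' x) = (Q i.1).indicator (fun x =>
        (fun t => UnitAddTorus.mFourier (-i.2) t * UnitAddTorus.mFourier i'.2 t) (tor x)) := by
      funext x
      unfold G
      rw [← hm]
      by_cases h : x ∈ Q i.1
      · rw [indicator_of_mem h, indicator_of_mem h, indicator_of_mem h]
        change _ = UnitAddTorus.mFourier (-i.2) (tor x) * UnitAddTorus.mFourier i'.2 (tor x)
        rw [UnitAddTorus.mFourier_neg]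
      · rw [indicator_of_notMem h, indicator_of_notMem h, indicator_of_notMem h]; simp
    rw [e, integral_indicator (Q_meas _), integral_Q
      (fun t => UnitAddTorus.mFourier (-i.2) t * UnitAddTorus.mFourier i'.2 t) i.1]
    have h := orthonormal_iff_ite.1 (UnitAddTorus.orthonormal_mFourier (d := Fin n)) i.2 i'.2
    rw [ContinuousMap.inner_toLp] at h
    have e2 : ∫ t, UnitAddTorus.mFourier (-i.2) t * UnitAddTorus.mFourier i'.2 t =
        ∫ t, UnitAddTorus.mFourier i'.2 t * (starRingEnd ℂ) (UnitAddTorus.mFourier i.2 t) := by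
      congr 1
      funext t
      rw [UnitAddTorus.mFourier_neg, mul_comm]
    rw [e2, h]
    have : (i = i') ↔ i.2 = i'.2 := by
      rw [Prod.ext_iff]; tauto
    simp only [this]
  · have e : (fun x => conj (G i x) * G i' x) = 0 := by
      funext x
      unfold G
      by_cases h : x ∈ Q i.1
      · have h' : x ∉ Q i'.1 := fun h' => hm (Q_disj h h')
        rw [indicator_of_notMem h']; simp
      · rw [indicator_of_notMem h]; simp
    rw [e]
    have : i ≠ i' := fun h => hm (by rw [h])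
    simp [this]

/-- completeness of the Gabor system -/
lemma complete_G (f : (Fin n → ℝ) → ℂ) (hf : MemLp f 2)
    (h : ∀ i : (Fin n → ℤ) × (Fin n → ℤ), ∫ x, conj (G i x) * f x = 0) : f =ᵐ[volume] 0 := by
  -- on every cube
  have key : ∀ m : Fin n → ℤ, ∀ᵐ x, x ∈ Q m → f x = 0 := by
    intro m
    set e := UnitAddTorus.measurableEquivPiIoc (fun i => (m i : ℝ)) with he
    -- measurable version
    obtain ⟨f', hfm, hff⟩ := hf.1
    set g : UnitAddTorus (Fin n) → ℂ := fun t => f' (e t).1 with hg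
    have hgm : Measurable g := (hfm.measurable.comp measurable_subtype_coe).comp e.measurable
    have hgx : ∀ x ∈ Q m, g (tor x) = f' x := by
      intro x hx
      have : e (tor x) = ⟨x, hx⟩ := by
        have := e.apply_symm_apply ⟨x, hx⟩
        exact this
      simp only [hg, this]
    have hgL : MemLp g 2 := by
      refine ⟨hgm.aestronglyMeasurable, ?_⟩
      rw [eLpNorm_lt_top_iff_lintegral_rpow_enorm_lt_top (by norm_num) (by norm_num)]
      rw [← lintegral_Q _ m]
      have h1 := (eLpNorm_lt_top_iff_lintegral_rpow_enorm_lt_top (p := 2) (f := f) (μ := volume)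
        (by norm_num) (by norm_num)).1 hf.2
      refine lt_of_le_of_lt ?_ h1
      have h2 : ∫⁻ x in Q m, ‖g (tor x)‖ₑ ^ (2 : ℝ≥0∞).toReal =
          ∫⁻ x in Q m, ‖f' x‖ₑ ^ (2 : ℝ≥0∞).toReal := by
        refine setLIntegral_congr_fun (Q_meas m) fun x hx => ?_
        rw [hgx x hx]
      rw [h2]
      refine (setLIntegral_le_lintegral _ _).trans_eq ?_
      refine lintegral_congr_ae ?_
      filter_upwards [hff] with x hx
      rw [hx]
    have hcoef : ∀ j, UnitAddTorus.mFourierCoeff g j = 0 := by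
      intro j
      unfold UnitAddTorus.mFourierCoeff
      rw [← integral_Q _ m]
      have h1 := h (m, j)
      rw [← h1]
      have e1 : (fun x => conj (G (m, j) x) * f x) =ᵐ[volume] (Q m).indicator (fun x =>
          UnitAddTorus.mFourier (-j) (tor x) • g (tor x)) := by
        filter_upwards [hff] with x hx
        unfold G
        by_cases hq : x ∈ Q m
        · rw [indicator_of_mem hq, indicator_of_mem hq, hgx x hq, UnitAddTorus.mFourier_neg,
            smul_eq_mul, hx]
        · rw [indicator_of_notMem hq, indicator_of_notMem hq]; simp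
      rw [integral_congr_ae e1, integral_indicator (Q_meas m)]
    have hg0 : hgL.toLp g = 0 := by
      have h1 := UnitAddTorus.hasSum_mFourier_series_L2 (hgL.toLp g)
      have h2 : ∀ j, UnitAddTorus.mFourierCoeff (hgL.toLp g : UnitAddTorus (Fin n) → ℂ) j = 0 := by
        intro j
        rw [← hcoef j]
        unfold UnitAddTorus.mFourierCoeff
        refine integral_congr_ae ?_
        filter_upwards [hgL.coeFn_toLp] with t ht
        rw [ht]
      simp only [h2, zero_smul] at h1
      exact h1.unique hasSum_zero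
    have hg1 : g =ᵐ[volume] 0 := by
      have h1 := hgL.coeFn_toLp
      rw [hg0] at h1
      filter_upwards [h1, Lp.coeFn_zero ℂ 2 (volume : Measure (UnitAddTorus (Fin n)))] with t h1 h2
      rw [← h1, h2]
    have hg2 : ∫⁻ x in Q m, ‖f' x‖ₑ = 0 := by
      have h1 : ∫⁻ x in Q m, ‖f' x‖ₑ = ∫⁻ x in Q m, ‖g (tor x)‖ₑ := by
        refine setLIntegral_congr_fun (Q_meas m) fun x hx => ?_
        rw [hgx x hx]
      rw [h1, lintegral_Q (fun t => ‖g t‖ₑ) m, lintegral_eq_zero_iff hgm.enorm]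
      filter_upwards [hg1] with t ht
      rw [ht]; simp
    rw [lintegral_eq_zero_iff hfm.measurable.enorm] at hg2
    have hg3 := (ae_restrict_iff' (Q_meas m)).1 hg2
    filter_upwards [hg3, hff] with x h1 h2 hx
    have := h1 hx
    simp only [Pi.zero_apply, enorm_eq_zero] at this
    rw [h2, this]
  have h2 : ∀ᵐ x, ∀ m : Fin n → ℤ, x ∈ Q m → f x = 0 := ae_all_iff.2 key
  filter_upwards [h2] with x hx
  obtain ⟨m, hm⟩ := Q_cover x
  exact hx m hm

/-- the dilated Gabor functions `G^l_{m,j}(x) = l^{n/2} G_{m,j}(l x)` -/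
def ef (l : ℝ) (i : (Fin n → ℤ) × (Fin n → ℤ)) (x : Fin n → ℝ) : ℂ :=
  ((l ^ (n / 2 : ℝ) : ℝ) : ℂ) * G i (l • x)

lemma ef_meas (l : ℝ) (i : (Fin n → ℤ) × (Fin n → ℤ)) : Measurable (ef l i) :=
  measurable_const.mul ((G_meas i).comp (measurable_const_smul l))

lemma inner_ef {l : ℝ} (hl : 0 < l) (i : (Fin n → ℤ) × (Fin n → ℤ)) (f : (Fin n → ℝ) → ℂ) :
    ∫ x, conj (ef l i x) * f x =
      ((l ^ (-(n / 2) : ℝ) : ℝ) : ℂ) * ∫ y, conj (G i y) * f (l⁻¹ • y) := by
  have e : (fun x => conj (ef l i x) * f x) = fun x => (fun y =>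
      ((l ^ (n / 2 : ℝ) : ℝ) : ℂ) * (conj (G i y) * f (l⁻¹ • y))) (l • x) := by
    funext x
    simp only [ef, map_mul, Complex.conj_ofReal]
    rw [smul_smul, inv_mul_cancel₀ hl.ne', one_smul]
    ring
  have hc := Measure.integral_comp_smul_of_nonneg (volume : Measure (Fin n → ℝ)) (fun y =>
      ((l ^ (n / 2 : ℝ) : ℝ) : ℂ) * (conj (G i y) * f (l⁻¹ • y))) l (hR := hl.le)
  rw [e]
  refine hc.trans ?_
  rw [integral_const_mul]
  have e2 : ((l ^ (-(n / 2) : ℝ) : ℝ) : ℂ) = (((l ^ Module.finrank ℝ (Fin n → ℝ))⁻¹ : ℝ) : ℂ) *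
      ((l ^ (n / 2 : ℝ) : ℝ) : ℂ) := by
    rw [Module.finrank_fin_fun, ← Complex.ofReal_mul]
    congr 1
    rw [← Real.rpow_natCast, ← Real.rpow_neg hl.le, ← Real.rpow_add hl]
    congr 1
    ring
  rw [e2, Complex.real_smul]
  ring

lemma ef_memLp {l : ℝ} (hl : 0 < l) (i : (Fin n → ℤ) × (Fin n → ℤ)) (p : ℝ≥0∞) :
    MemLp (ef l i) p := by
  have hb : ∀ x, ‖ef l i x‖ ≤ l ^ (n / 2 : ℝ) := by
    intro x
    unfold ef
    rw [norm_mul, norm_G, Complex.norm_real, Real.norm_of_nonneg (by positivity)]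
    refine mul_le_of_le_one_right (by positivity) ?_
    exact indicator_le_self' (fun _ _ => zero_le_one) _
  have hs : MeasurableSet ((fun x : Fin n → ℝ => l • x) ⁻¹' Q i.1) :=
    (measurable_const_smul l) (Q_meas _)
  have hfin : volume ((fun x : Fin n → ℝ => l • x) ⁻¹' Q i.1) < ∞ := by
    rw [Measure.addHaar_preimage_smul _ hl.ne', Q_vol, mul_one]
    exact ENNReal.ofReal_lt_top
  have e : ef l i = ((fun x : Fin n → ℝ => l • x) ⁻¹' Q i.1).indicator (ef l i) := by
    funext x
    by_cases h : x ∈ (fun x : Fin n → ℝ => l • x) ⁻¹' Q i.1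
    · rw [indicator_of_mem h]
    · rw [indicator_of_notMem h]
      unfold ef G
      have h' : l • x ∉ Q i.1 := h
      rw [indicator_of_notMem h', mul_zero]
  rw [e, memLp_indicator_iff_restrict hs]
  have : IsFiniteMeasure (volume.restrict ((fun x : Fin n → ℝ => l • x) ⁻¹' Q i.1)) :=
    ⟨by rw [Measure.restrict_apply_univ]; exact hfin⟩
  exact MemLp.of_bound (ef_meas l i).aestronglyMeasurable _ (Eventually.of_forall hb)

/-- the element of `L²` -/
def ev {l : ℝ} (hl : 0 < l) (i : (Fin n → ℤ) × (Fin n → ℤ)) :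
    Lp ℂ 2 (volume : Measure (Fin n → ℝ)) := (ef_memLp hl i 2).toLp _

lemma ev_coe {l : ℝ} (hl : 0 < l) (i : (Fin n → ℤ) × (Fin n → ℤ)) :
    (ev hl i : (Fin n → ℝ) → ℂ) =ᵐ[volume] ef l i := MemLp.coeFn_toLp _

lemma inner_ev {l : ℝ} (hl : 0 < l) (i : (Fin n → ℤ) × (Fin n → ℤ))
    (f : Lp ℂ 2 (volume : Measure (Fin n → ℝ))) :
    inner ℂ (ev hl i) f = ∫ x, conj (ef l i x) * f x := by
  rw [L2.inner_def]
  refine integral_congr_ae ?_
  filter_upwards [ev_coe hl i] with x hx
  rw [RCLike.inner_apply, hx, mul_comm]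

lemma ev_orthonormal {l : ℝ} (hl : 0 < l) : Orthonormal ℂ (ev (n := n) hl) := by
  classical
  rw [orthonormal_iff_ite]
  intro i i'
  rw [inner_ev]
  have e1 : ∫ x, conj (ef l i x) * (ev hl i' : (Fin n → ℝ) → ℂ) x =
      ∫ x, conj (ef l i x) * ef l i' x := by
    refine integral_congr_ae ?_
    filter_upwards [ev_coe hl i'] with x hx
    rw [hx]
  rw [e1, inner_ef hl]
  have e2 : (fun y => conj (G i y) * ef l i' (l⁻¹ • y)) = fun y =>
      ((l ^ (n / 2 : ℝ) : ℝ) : ℂ) * (conj (G i y) * G i' y) := by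
    funext y
    unfold ef
    rw [smul_smul, mul_inv_cancel₀ hl.ne', one_smul]
    ring
  rw [e2, integral_const_mul, inner_G, ← mul_assoc, ← Complex.ofReal_mul,
    ← Real.rpow_add hl]
  simp

lemma ev_complete {l : ℝ} (hl : 0 < l) :
    (Submodule.span ℂ (Set.range (ev (n := n) hl)))ᗮ = ⊥ := by
  rw [Submodule.eq_bot_iff]
  intro f hf
  have h0 : ∀ i, inner ℂ (ev hl i) f = 0 := by
    intro i
    exact (Submodule.mem_orthogonal _ _).1 hf _ (Submodule.subset_span ⟨i, rfl⟩)
  -- the dilated function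
  have hq : Measure.QuasiMeasurePreserving (fun y : Fin n → ℝ => l⁻¹ • y) := by
    refine ⟨measurable_const_smul _, ?_⟩
    rw [Measure.map_addHaar_smul _ (inv_ne_zero hl.ne')]
    exact Measure.smul_absolutelyContinuous
  have hq' : Measure.QuasiMeasurePreserving (fun y : Fin n → ℝ => l • y) := by
    refine ⟨measurable_const_smul _, ?_⟩
    rw [Measure.map_addHaar_smul _ hl.ne']
    exact Measure.smul_absolutelyContinuous
  set g : (Fin n → ℝ) → ℂ := fun y => f (l⁻¹ • y) with hg
  have hgm : MemLp g 2 := by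
    have h1 : MemLp (f : (Fin n → ℝ) → ℂ) 2 (Measure.map (fun y : Fin n → ℝ => l⁻¹ • y) volume) := by
      rw [Measure.map_addHaar_smul _ (inv_ne_zero hl.ne')]
      exact (Lp.memLp f).smul_measure ENNReal.ofReal_ne_top
    exact (memLp_map_measure_iff h1.1 (measurable_const_smul _).aemeasurable).1 h1
  have hg0 : g =ᵐ[volume] 0 := by
    refine complete_G g hgm fun i => ?_
    have h1 := h0 i
    rw [inner_ev, inner_ef hl] at h1
    rcases mul_eq_zero.1 h1 with h2 | h2
    · have h3 : (l ^ (-(n / 2) : ℝ) : ℝ) = 0 := by exact_mod_cast h2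
      exact absurd h3 (Real.rpow_pos_of_pos hl _).ne'
    · exact h2
  rw [Lp.eq_zero_iff_ae_eq_zero]
  have h2 := hq'.ae_eq hg0
  filter_upwards [h2] with x hx
  simp only [Function.comp_apply, hg, smul_smul, inv_mul_cancel₀ hl.ne', one_smul,
    Pi.zero_apply] at hx
  exact hx

/-- the Hilbert basis of dilated Gabor functions -/
def B {l : ℝ} (hl : 0 < l) :
    HilbertBasis ((Fin n → ℤ) × (Fin n → ℤ)) ℂ (Lp ℂ 2 (volume : Measure (Fin n → ℝ))) :=
  HilbertBasis.mkOfOrthogonalEqBot (ev_orthonormal hl) (ev_complete hl)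

lemma B_coe {l : ℝ} (hl : 0 < l) : ⇑(B (n := n) hl) = ev hl :=
  HilbertBasis.coe_mkOfOrthogonalEqBot _ _

end

end Pool.Agent.R246.Gabor
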