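import Mathlib
import Pool.Agent.R246.Gabor

/-!
# No regular choice of norm-ratio constants for special `k`-Hadamard operators, `k ≤ 1`
-/

namespace Pool.Agent.R246.BlockHad

open MeasureTheory Filter Topology Set Pool.Agent.R246.Gabor
open scoped ENNReal NNReal ComplexConjugate

noncomputable section

/-- `L²(ℝ^n)` -/
abbrev L2 (n : ℕ) := Lp ℂ 2 (volume : Measure (Fin n → ℝ))

/-- `A` is a special `k`-Hadamard operator on `ℝ^n`: a bounded operator on `L²(ℝ^n)` with a bounded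
inverse `A'` and adjoint `A* = k A'`, such that `‖A f‖_∞ ≤ ‖f‖_1` and `‖A* f‖_∞ ≤ C ‖f‖_1` for some
`C` (for all `f ∈ L²`; only the `f` in the dense subspace `L¹ ∩ L²` of `L¹` matter). -/
structure IsSpecialHadamard (n : ℕ) (k : ℝ) (A : L2 n →L[ℂ] L2 n) : Prop where
  bound : ∀ f : L2 n, eLpNorm (A f) ∞ volume ≤ eLpNorm f 1 volume
  adjoint_eq : ∃ A' : L2 n →L[ℂ] L2 n, A ∘L A' = ContinuousLinearMap.id ℂ (L2 n) ∧
    A' ∘L A = ContinuousLinearMap.id ℂ (L2 n) ∧ ContinuousLinearMap.adjoint A = (k : ℂ) • A'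
  adjoint_bound : ∃ C : ℝ≥0, ∀ f : L2 n,
    eLpNorm (ContinuousLinearMap.adjoint A f) ∞ volume ≤ C * eLpNorm f 1 volume

/-- The ratio `‖f‖_p ‖A f‖_p / (‖f‖_2 ‖A f‖_2)`. -/
def ratio {n : ℕ} (A : L2 n →L[ℂ] L2 n) (p : ℝ) (f : L2 n) : ℝ :=
  (eLpNorm f (ENNReal.ofReal p) volume).toReal * (eLpNorm (A f) (ENNReal.ofReal p) volume).toReal /
    ((eLpNorm f 2 volume).toReal * (eLpNorm (A f) 2 volume).toReal)

/-- `C > 0` is admissible for `(A, p)`: the ratio is `≥ C` for all nonzero `f ∈ L²` with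
`f, A f ∈ L^p`. -/
def Admissible {n : ℕ} (A : L2 n →L[ℂ] L2 n) (p C : ℝ) : Prop :=
  0 < C ∧ ∀ f : L2 n, f ≠ 0 → MemLp f (ENNReal.ofReal p) volume →
    MemLp (A f) (ENNReal.ofReal p) volume → C ≤ ratio A p f

/-- There are `σ ∈ (0,1]` and admissible constants `C p`, `p ∈ (2-σ, 2]`, with `C 2 = 1`,
`C p → 1` as `p ↑ 2`, such that `C` is differentiable and strictly decreasing on `(2-σ, 2)`. -/
def RegularChoice {n : ℕ} (A : L2 n →L[ℂ] L2 n) : Prop :=
  ∃ σ : ℝ, 0 < σ ∧ σ ≤ 1 ∧ ∃ C : ℝ → ℝ, (∀ p ∈ Ioc (2 - σ) 2, Admissible A p (C p)) ∧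
    C 2 = 1 ∧ Tendsto C (𝓝[<] 2) (𝓝 1) ∧ DifferentiableOn ℝ C (Ioo (2 - σ) 2) ∧
    StrictAntiOn C (Ioo (2 - σ) 2)

variable {n : ℕ}

/-- the set of functions bounded by `M` is closed in `L²` -/
lemma closed_bound (M : ℝ) : IsClosed {g : L2 n | ∀ᵐ x, ‖g x‖ ≤ M} := by
  rw [← isSeqClosed_iff_isClosed]
  intro g g0 hg hlim
  simp only [mem_ofPred_eq] at hg ⊢
  -- the function `max (‖g0 x‖ - M) 0`
  have hle : ∀ k, eLpNorm (fun x => max (‖g0 x‖ - M) 0) 2 volume ≤
      ENNReal.ofReal ‖g k - g0‖ := by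
    intro k
    have e : ENNReal.ofReal ‖g k - g0‖ = eLpNorm (g k - g0 : L2 n) 2 volume := by
      rw [Lp.norm_def, ENNReal.ofReal_toReal (Lp.eLpNorm_ne_top _)]
    rw [e]
    refine eLpNorm_mono_ae ?_
    filter_upwards [hg k, Lp.coeFn_sub (g k) g0] with x h1 h2
    rw [h2, Pi.sub_apply, Real.norm_of_nonneg (le_max_right _ _)]
    refine max_le ?_ (norm_nonneg _)
    have := norm_sub_norm_le (g0 x) (g k x)
    rw [norm_sub_rev] at this
    linarith
  have hz : eLpNorm (fun x => max (‖g0 x‖ - M) 0) 2 volume = 0 := by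
    have h1 : Tendsto (fun k => ENNReal.ofReal ‖g k - g0‖) atTop (𝓝 0) := by
      have h2 := tendsto_iff_norm_sub_tendsto_zero.1 hlim
      have h3 := ENNReal.tendsto_ofReal h2
      rwa [ENNReal.ofReal_zero] at h3
    exact le_antisymm (ge_of_tendsto' h1 hle) zero_le
  have hm : AEStronglyMeasurable (fun x => max (‖g0 x‖ - M) 0) volume :=
    ((Lp.aestronglyMeasurable g0).norm.sub aestronglyMeasurable_const).sup
      aestronglyMeasurable_const
  rw [eLpNorm_eq_zero_iff hm (by norm_num)] at hz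
  filter_upwards [hz] with x hx
  have h4 : max (‖g0 x‖ - M) 0 = 0 := hx
  have h5 := le_max_left (‖g0 x‖ - M) 0
  linarith

lemma norm_ef {l : ℝ} (hl : 0 < l) (i : (Fin n → ℤ) × (Fin n → ℤ)) (x : Fin n → ℝ) :
    ‖ef l i x‖ = l ^ (n / 2 : ℝ) * (Q i.1).indicator 1 (l • x) := by
  unfold ef
  rw [norm_mul, norm_G, Complex.norm_real, Real.norm_of_nonneg (by positivity)]

lemma ind_nonneg (m : Fin n → ℤ) (y : Fin n → ℝ) :
    0 ≤ (Q m).indicator (1 : (Fin n → ℝ) → ℝ) y := indicator_nonneg (fun _ _ => zero_le_one) _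

/-- local `L¹` bound of the coefficients -/
def loc (l : ℝ) (f : (Fin n → ℝ) → ℂ) (m : Fin n → ℤ) : ℝ :=
  ∫ x, (Q m).indicator 1 (l • x) * ‖f x‖

lemma loc_int (l : ℝ) {f : (Fin n → ℝ) → ℂ} (hf : Integrable f) (m : Fin n → ℤ) :
    Integrable fun x => (Q m).indicator (1 : (Fin n → ℝ) → ℝ) (l • x) * ‖f x‖ := by
  refine hf.norm.bdd_mul (c := 1) ?_ ?_
  · exact (((measurable_one.indicator (Q_meas m)).comp
      (measurable_const_smul l))).aestronglyMeasurable
  · refine Eventually.of_forall fun x => ?_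
    rw [Real.norm_of_nonneg (ind_nonneg _ _)]
    exact indicator_le_self' (fun _ _ => zero_le_one) _

lemma loc_sum (l : ℝ) {f : (Fin n → ℝ) → ℂ} (hf : Integrable f) (F : Finset (Fin n → ℤ)) :
    ∑ m ∈ F, loc l f m ≤ ∫ x, ‖f x‖ := by
  unfold loc
  rw [← integral_finsetSum _ fun m _ => loc_int l hf m]
  refine integral_mono (integrable_finsetSum _ fun m _ => loc_int l hf m) hf.norm fun x => ?_
  simp only
  rw [← Finset.sum_mul]
  refine mul_le_of_le_one_left (norm_nonneg _) ?_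
  obtain ⟨m0, hm0⟩ := Q_cover (l • x)
  have h1 : ∀ m ∈ F, m ≠ m0 → (Q m).indicator (1 : (Fin n → ℝ) → ℝ) (l • x) = 0 := by
    intro m _ hne
    exact indicator_of_notMem (fun h => hne (Q_disj h hm0)) _
  by_cases hF : m0 ∈ F
  · rw [Finset.sum_eq_single_of_mem m0 hF h1, indicator_of_mem hm0]
    exact le_rfl
  · rw [Finset.sum_eq_zero]
    · exact zero_le_one
    · intro m hm
      exact h1 m hm (fun h => hF (h ▸ hm))

lemma loc_nonneg (l : ℝ) (f : (Fin n → ℝ) → ℂ) (m : Fin n → ℤ) : 0 ≤ loc l f m :=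
  integral_nonneg fun _ => mul_nonneg (indicator_nonneg (fun _ _ => zero_le_one) _) (norm_nonneg _)

lemma coef_le {l : ℝ} (hl : 0 < l) (f : L2 n) (hf : Integrable (f : (Fin n → ℝ) → ℂ))
    (i : (Fin n → ℤ) × (Fin n → ℤ)) :
    ‖inner ℂ (ev hl i) f‖ ≤ l ^ (n / 2 : ℝ) * loc l f i.1 := by
  rw [inner_ev]
  refine (norm_integral_le_integral_norm _).trans ?_
  unfold loc
  rw [← integral_const_mul]
  refine integral_mono_of_nonneg (Eventually.of_forall fun _ => norm_nonneg _)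
    ((loc_int l hf i.1).const_mul _) (Eventually.of_forall fun x => ?_)
  simp only
  rw [norm_mul, RCLike.norm_conj, norm_ef hl]
  exact (mul_assoc _ _ _).le

/-- uniform bound for the partial sums -/
lemma partial_bound {l l' : ℝ} (hl : 0 < l) (hl' : 0 < l') (f : L2 n)
    (hf : Integrable (f : (Fin n → ℝ) → ℂ))
    (τ : (Fin n → ℤ) × (Fin n → ℤ) → (Fin n → ℤ) × (Fin n → ℤ)) (φ : (Fin n → ℤ) → (Fin n → ℤ))
    (hφ : Function.Injective φ) (hτ : ∀ i, (τ i).1 = φ i.2)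
    (S : Finset ((Fin n → ℤ) × (Fin n → ℤ))) (x : Fin n → ℝ) :
    ‖∑ i ∈ S, inner ℂ (ev hl i) f * ef l' (τ i) x‖ ≤
      l ^ (n / 2 : ℝ) * l' ^ (n / 2 : ℝ) * ∫ x, ‖f x‖ := by
  classical
  obtain ⟨m0, hm0⟩ := Q_cover (l' • x)
  have hzero : ∀ i ∈ S, i ∉ S.filter (fun i => (τ i).1 = m0) →
      inner ℂ (ev hl i) f * ef l' (τ i) x = 0 := by
    intro i hi hni
    have h1 : (τ i).1 ≠ m0 := fun h => hni (Finset.mem_filter.2 ⟨hi, h⟩)
    have h2 : ef l' (τ i) x = 0 := by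
      rw [← norm_eq_zero, norm_ef hl', indicator_of_notMem (fun h => h1 (Q_disj h hm0)), mul_zero]
    rw [h2, mul_zero]
  rw [← Finset.sum_subset (Finset.filter_subset _ S) hzero]
  refine (norm_sum_le _ _).trans ?_
  have hinj : ∀ i ∈ S.filter (fun i => (τ i).1 = m0), ∀ j ∈ S.filter (fun i => (τ i).1 = m0),
      i.1 = j.1 → i = j := by
    intro i hi j hj h
    have h1 := (Finset.mem_filter.1 hi).2
    have h2 := (Finset.mem_filter.1 hj).2
    rw [hτ] at h1 h2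
    exact Prod.ext h (hφ (h1.trans h2.symm))
  calc ∑ i ∈ S.filter (fun i => (τ i).1 = m0), ‖inner ℂ (ev hl i) f * ef l' (τ i) x‖
      ≤ ∑ i ∈ S.filter (fun i => (τ i).1 = m0),
          l ^ (n / 2 : ℝ) * l' ^ (n / 2 : ℝ) * loc l f i.1 := by
        refine Finset.sum_le_sum fun i _ => ?_
        rw [norm_mul]
        have h1 := coef_le hl f hf i
        have h2 : ‖ef l' (τ i) x‖ ≤ l' ^ (n / 2 : ℝ) := by
          rw [norm_ef hl']
          refine mul_le_of_le_one_right (by positivity) ?_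
          exact indicator_le_self' (fun _ _ => zero_le_one) _
        calc ‖inner ℂ (ev hl i) f‖ * ‖ef l' (τ i) x‖
            ≤ (l ^ (n / 2 : ℝ) * loc l f i.1) * l' ^ (n / 2 : ℝ) :=
              mul_le_mul h1 h2 (norm_nonneg _) (by have := loc_nonneg l f i.1; positivity)
          _ = _ := by ring
    _ = l ^ (n / 2 : ℝ) * l' ^ (n / 2 : ℝ) *
          ∑ m ∈ (S.filter (fun i => (τ i).1 = m0)).image Prod.fst, loc l f m := by
        rw [← Finset.mul_sum, Finset.sum_image hinj]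
    _ ≤ _ := by
        refine mul_le_mul_of_nonneg_left (loc_sum l hf _) (by positivity)

/-- the bound for the operators -/
lemma op_bound {l l' : ℝ} (hl : 0 < l) (hl' : 0 < l') (f g : L2 n)
    (hf : Integrable (f : (Fin n → ℝ) → ℂ))
    (τ : (Fin n → ℤ) × (Fin n → ℤ) → (Fin n → ℤ) × (Fin n → ℤ)) (φ : (Fin n → ℤ) → (Fin n → ℤ))
    (hφ : Function.Injective φ) (hτ : ∀ i, (τ i).1 = φ i.2)
    (hg : HasSum (fun i => (inner ℂ (ev hl i) f : ℂ) • ev hl' (τ i)) g) :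
    ∀ᵐ x, ‖g x‖ ≤ l ^ (n / 2 : ℝ) * l' ^ (n / 2 : ℝ) * ∫ x, ‖f x‖ := by
  have h := (closed_bound (n := n) (l ^ (n / 2 : ℝ) * l' ^ (n / 2 : ℝ) * ∫ x, ‖f x‖)).mem_of_tendsto
    hg (Eventually.of_forall fun S => ?_)
  · exact h
  · simp only [mem_ofPred_eq]
    have h1 : ((∑ i ∈ S, (inner ℂ (ev hl i) f : ℂ) • ev hl' (τ i) : L2 n) : (Fin n → ℝ) → ℂ) =ᵐ[volume]
        fun x => ∑ i ∈ S, inner ℂ (ev hl i) f * ef l' (τ i) x := by
      classical
      induction S using Finset.induction_on with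
      | empty =>
        simp only [Finset.sum_empty]
        exact Lp.coeFn_zero _ _ _
      | insert a S ha ih =>
        simp only [Finset.sum_insert ha]
        filter_upwards [Lp.coeFn_add ((inner ℂ (ev hl a) f : ℂ) • ev hl' (τ a))
          (∑ i ∈ S, (inner ℂ (ev hl i) f : ℂ) • ev hl' (τ i)), ih,
          Lp.coeFn_smul (inner ℂ (ev hl a) f : ℂ) (ev hl' (τ a)), ev_coe hl' (τ a)] with x h1 h2 h3 h4
        rw [h1, Pi.add_apply, h2, h3, Pi.smul_apply, h4, smul_eq_mul]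
    filter_upwards [h1] with x hx
    rw [hx]
    exact partial_bound hl hl' f hf τ φ hφ hτ S x

/-- the permutation `(m, j) ↦ (j, -m)` of the index set -/
def sg (n : ℕ) : ((Fin n → ℤ) × (Fin n → ℤ)) ≃ ((Fin n → ℤ) × (Fin n → ℤ)) where
  toFun i := (i.2, -i.1)
  invFun i := (-i.2, i.1)
  left_inv i := by simp
  right_inv i := by simp

/-- the permuted basis -/
def B2 {l : ℝ} (hl : 0 < l) : HilbertBasis ((Fin n → ℤ) × (Fin n → ℤ)) ℂ (L2 n) :=
  HilbertBasis.mkOfOrthogonalEqBot (v := fun i => ev hl (sg n i))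
    ((ev_orthonormal hl).comp _ (sg n).injective) (by
      have : Set.range (fun i => ev hl (sg n i)) = Set.range (ev (n := n) hl) :=
        (sg n).surjective.range_comp (ev hl)
      rw [this]
      exact ev_complete hl)

lemma B2_coe {l : ℝ} (hl : 0 < l) : ⇑(B2 (n := n) hl) = fun i => ev hl (sg n i) :=
  HilbertBasis.coe_mkOfOrthogonalEqBot _ _

/-- the unitary operator mapping the Gabor basis to the dilated rotated Gabor basis -/
def VV {l : ℝ} (hl : 0 < l) : L2 n ≃ₗᵢ[ℂ] L2 n := (B one_pos).repr.trans (B2 hl).repr.symm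

lemma VV_basis {l : ℝ} (hl : 0 < l) (i : (Fin n → ℤ) × (Fin n → ℤ)) :
    VV hl (ev one_pos i) = ev hl (sg n i) := by
  classical
  unfold VV
  rw [LinearIsometryEquiv.trans_apply]
  have h1 : (B (n := n) one_pos).repr (ev one_pos i) = lp.single 2 i (1 : ℂ) := by
    have := (B (n := n) one_pos).repr_self i
    rwa [B_coe] at this
  rw [h1, HilbertBasis.repr_symm_single, B2_coe]

lemma VV_sum {l : ℝ} (hl : 0 < l) (f : L2 n) :
    HasSum (fun i => (inner ℂ (ev one_pos i) f : ℂ) • ev hl (sg n i)) (VV hl f) := by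
  have h1 := (B2 (n := n) hl).hasSum_repr_symm ((B one_pos).repr f)
  have h2 : VV hl f = (B2 hl).repr.symm ((B one_pos).repr f) := rfl
  rw [h2]
  convert h1 using 2 with i
  rw [B2_coe, HilbertBasis.repr_apply_apply, B_coe]

lemma VV_symm_sum {l : ℝ} (hl : 0 < l) (f : L2 n) :
    HasSum (fun i => (inner ℂ (ev hl i) f : ℂ) • ev one_pos ((sg n).symm i)) ((VV hl).symm f) := by
  have h1 := (B (n := n) one_pos).hasSum_repr_symm ((B2 hl).repr f)
  have h2 : (VV hl).symm f = (B one_pos).repr.symm ((B2 hl).repr f) := rfl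
  rw [h2, ← (sg n).hasSum_iff]
  convert h1 using 2 with i
  simp only [Function.comp_apply, Equiv.symm_apply_apply]
  rw [B_coe, HilbertBasis.repr_apply_apply, B2_coe]

/-- the operator `A` -/
def AA {l : ℝ} (hl : 0 < l) (s : ℝ) : L2 n →L[ℂ] L2 n :=
  (s : ℂ) • (VV (n := n) hl : L2 n →L[ℂ] L2 n)

lemma AA_apply {l : ℝ} (hl : 0 < l) (s : ℝ) (f : L2 n) : AA hl s f = (s : ℂ) • VV hl f := rfl

lemma AA_adj {l : ℝ} (hl : 0 < l) (s : ℝ) : ContinuousLinearMap.adjoint (AA (n := n) hl s) =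
    (s : ℂ) • ((VV (n := n) hl).symm : L2 n →L[ℂ] L2 n) := by
  unfold AA
  rw [map_smulₛₗ, LinearIsometryEquiv.adjoint_eq_symm, Complex.conj_ofReal]

lemma bound_of_ae {f g : L2 n} (h : Integrable (f : (Fin n → ℝ) → ℂ) →
    ∀ᵐ x, ‖g x‖ ≤ ∫ x, ‖f x‖) : eLpNorm g ∞ volume ≤ eLpNorm f 1 volume := by
  by_cases hf : Integrable (f : (Fin n → ℝ) → ℂ)
  · rw [eLpNorm_exponent_top, eLpNorm_one_eq_lintegral_enorm,
      ← ofReal_integral_norm_eq_lintegral_enorm hf]
    exact eLpNormEssSup_le_of_ae_bound (h hf)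
  · have : eLpNorm f 1 volume = ∞ := by
      by_contra hne
      exact hf (memLp_one_iff_integrable.1 ⟨Lp.aestronglyMeasurable f, lt_top_iff_ne_top.2 hne⟩)
    rw [this]
    exact le_top

lemma isSpecial {l : ℝ} (hl : 0 < l) : IsSpecialHadamard n (l ^ (-n : ℝ))
    (AA (n := n) hl (l ^ (-(n / 2) : ℝ))) := by
  have hs : 0 < l ^ (-(n / 2) : ℝ) := Real.rpow_pos_of_pos hl _
  have hss : l ^ (-(n / 2) : ℝ) * l ^ (-(n / 2) : ℝ) = l ^ (-n : ℝ) := by
    rw [← Real.rpow_add hl]; congr 1; ring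
  have hs1 : l ^ (-(n / 2) : ℝ) * l ^ (n / 2 : ℝ) = 1 := by
    rw [← Real.rpow_add hl]; simp
  have hsc : ((l ^ (-(n / 2) : ℝ) : ℝ) : ℂ) ≠ 0 := by exact_mod_cast hs.ne'
  refine ⟨fun f => ?_, ?_, ⟨1, fun f => ?_⟩⟩
  · refine bound_of_ae fun hf => ?_
    have h1 := op_bound one_pos hl f (VV hl f) hf (sg n) id Function.injective_id
      (fun i => rfl) (VV_sum hl f)
    rw [AA_apply]
    filter_upwards [h1, Lp.coeFn_smul ((l ^ (-(n / 2) : ℝ) : ℝ) : ℂ) (VV hl f)] with x h2 h3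
    rw [h3, Pi.smul_apply, norm_smul, Complex.norm_real, Real.norm_of_nonneg hs.le]
    calc l ^ (-(n / 2) : ℝ) * ‖(VV hl f : (Fin n → ℝ) → ℂ) x‖
        ≤ l ^ (-(n / 2) : ℝ) * (1 ^ (n / 2 : ℝ) * l ^ (n / 2 : ℝ) * ∫ x, ‖f x‖) :=
          mul_le_mul_of_nonneg_left h2 hs.le
      _ = (l ^ (-(n / 2) : ℝ) * l ^ (n / 2 : ℝ)) * ∫ x, ‖f x‖ := by
          rw [Real.one_rpow]; ring
      _ = ∫ x, ‖f x‖ := by rw [hs1, one_mul]
  · refine ⟨(((l ^ (-(n / 2) : ℝ) : ℝ) : ℂ))⁻¹ • ((VV (n := n) hl).symm : L2 n →L[ℂ] L2 n), ?_, ?_, ?_⟩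
    · ext1 f
      simp only [ContinuousLinearMap.comp_apply, ContinuousLinearMap.id_apply]
      rw [AA_apply]
      simp only [_root_.smul_apply]
      rw [map_smul, smul_smul, mul_inv_cancel₀ hsc, one_smul]
      exact (VV hl).apply_symm_apply f
    · ext1 f
      simp only [ContinuousLinearMap.comp_apply, ContinuousLinearMap.id_apply]
      rw [AA_apply, map_smul]
      simp only [_root_.smul_apply]
      rw [smul_smul, mul_inv_cancel₀ hsc, one_smul]
      exact (VV hl).symm_apply_apply f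
    · rw [AA_adj, smul_smul]
      congr 1
      rw [← hss]
      push_cast
      field_simp
  · rw [ENNReal.coe_one, one_mul]
    refine bound_of_ae fun hf => ?_
    have h1 := op_bound hl one_pos f ((VV hl).symm f) hf (sg n).symm (fun j => -j) neg_injective
      (fun i => rfl) (VV_symm_sum hl f)
    have e : ContinuousLinearMap.adjoint (AA (n := n) hl (l ^ (-(n / 2) : ℝ))) f =
        ((l ^ (-(n / 2) : ℝ) : ℝ) : ℂ) • (VV hl).symm f := by
      rw [AA_adj]; rfl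
    rw [e]
    filter_upwards [h1, Lp.coeFn_smul ((l ^ (-(n / 2) : ℝ) : ℝ) : ℂ) ((VV hl).symm f)] with x h2 h3
    rw [h3, Pi.smul_apply, norm_smul, Complex.norm_real, Real.norm_of_nonneg hs.le]
    calc l ^ (-(n / 2) : ℝ) * ‖((VV hl).symm f : (Fin n → ℝ) → ℂ) x‖
        ≤ l ^ (-(n / 2) : ℝ) * (l ^ (n / 2 : ℝ) * 1 ^ (n / 2 : ℝ) * ∫ x, ‖f x‖) :=
          mul_le_mul_of_nonneg_left h2 hs.le
      _ = (l ^ (-(n / 2) : ℝ) * l ^ (n / 2 : ℝ)) * ∫ x, ‖f x‖ := by
          rw [Real.one_rpow]; ring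
      _ = ∫ x, ‖f x‖ := by rw [hs1, one_mul]

/-- norms of the first basis vector -/
lemma norm_first {l : ℝ} (hl : 0 < l) (s : ℝ) (hs : s * l ^ (n / 2 : ℝ) = 1) (hs0 : 0 ≤ s)
    {p : ℝ} (hp : 0 < p) (g : L2 n) (hg : g = (s : ℂ) • ev hl 0) :
    eLpNorm g (ENNReal.ofReal p) volume = ENNReal.ofReal (l ^ (-n / p : ℝ)) := by
  have h1 : ∀ᵐ x, ‖(g : (Fin n → ℝ) → ℂ) x‖ =
      ‖((fun x : Fin n → ℝ => l • x) ⁻¹' Q (0 : Fin n → ℤ)).indicator (fun _ => (1 : ℝ)) x‖ := by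
    rw [hg]
    filter_upwards [Lp.coeFn_smul (s : ℂ) (ev (n := n) hl 0), ev_coe (n := n) hl 0] with x h2 h3
    rw [h2, Pi.smul_apply, h3, norm_smul, norm_ef hl, Complex.norm_real, Real.norm_of_nonneg hs0,
      ← mul_assoc, hs, one_mul]
    by_cases hx : x ∈ (fun x : Fin n → ℝ => l • x) ⁻¹' Q (0 : Fin n → ℤ)
    · have hx' : l • x ∈ Q (0 : Fin n → ℤ) := hx
      rw [indicator_of_mem hx]
      change (Q (0 : Fin n → ℤ)).indicator 1 (l • x) = _
      rw [indicator_of_mem hx']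
      simp
    · have hx' : l • x ∉ Q (0 : Fin n → ℤ) := hx
      rw [indicator_of_notMem hx]
      change (Q (0 : Fin n → ℤ)).indicator 1 (l • x) = _
      rw [indicator_of_notMem hx']
      simp
  have hsm : MeasurableSet ((fun x : Fin n → ℝ => l • x) ⁻¹' Q (0 : Fin n → ℤ)) :=
    (measurable_const_smul l) (Q_meas _)
  rw [eLpNorm_congr_norm_ae h1, eLpNorm_indicator_const hsm (by simpa using hp)
    ENNReal.ofReal_ne_top, Measure.addHaar_preimage_smul _ hl.ne', Q_vol, mul_one,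
    ENNReal.toReal_ofReal hp.le, enorm_one, one_mul, Module.finrank_fin_fun,
    abs_of_nonneg (by positivity), ENNReal.ofReal_rpow_of_nonneg (by positivity) (by positivity)]
  congr 1
  rw [← Real.rpow_natCast, ← Real.rpow_neg hl.le, ← Real.rpow_mul hl.le]
  congr 1
  ring

/-- For every `n ≥ 1` and every `k ∈ (0, 1]` there is a special `k`-Hadamard
operator `A` on `ℝ^n` without a regular choice of admissible constants. -/
theorem exists_block (n : ℕ) (hn : 1 ≤ n) (k : ℝ) (hk0 : 0 < k) (hk1 : k ≤ 1) :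
    ∃ A : L2 n →L[ℂ] L2 n, IsSpecialHadamard n k A ∧ ¬ RegularChoice A := by
  have hn0 : (0 : ℝ) < n := by exact_mod_cast hn
  set l : ℝ := k ^ (-(1 / n) : ℝ) with hl_def
  have hl : 0 < l := Real.rpow_pos_of_pos hk0 _
  have hlk : ∀ t : ℝ, l ^ (-n * t : ℝ) = k ^ t := by
    intro t
    rw [hl_def, ← Real.rpow_mul hk0.le]
    congr 1
    field_simp
  have hlk1 : l ^ (-n : ℝ) = k := by
    have := hlk 1
    rwa [mul_one, Real.rpow_one] at this
  set s : ℝ := l ^ (-(n / 2) : ℝ) with hs_def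
  have hs0 : 0 < s := Real.rpow_pos_of_pos hl _
  have hs1 : s * l ^ (n / 2 : ℝ) = 1 := by
    rw [hs_def, ← Real.rpow_add hl]; simp
  refine ⟨AA hl s, ?_, ?_⟩
  · have := isSpecial (n := n) hl
    rwa [hlk1] at this
  · rintro ⟨σ, hσ0, hσ1, C, hC, -, hlim, -, hanti⟩
    -- the test function
    set f : L2 n := ev one_pos 0 with hf_def
    have hAf : AA hl s f = (s : ℂ) • ev hl 0 := by
      rw [AA_apply, hf_def, VV_basis]
      have : sg n 0 = 0 := by
        simp [sg]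
      rw [this]
    have hf1 : f = ((1 : ℝ) : ℂ) • ev one_pos 0 := by
      rw [Complex.ofReal_one, one_smul]
    have hfp : ∀ p : ℝ, 0 < p → eLpNorm f (ENNReal.ofReal p) volume = 1 := by
      intro p hp
      rw [norm_first one_pos 1 (by simp) zero_le_one hp f hf1]
      simp
    have hAfp : ∀ p : ℝ, 0 < p → eLpNorm (AA hl s f) (ENNReal.ofReal p) volume =
        ENNReal.ofReal (k ^ (1 / p : ℝ)) := by
      intro p hp
      rw [norm_first hl s hs1 hs0.le hp (AA hl s f) hAf]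
      congr 1
      rw [← hlk]
      congr 1
      ring
    have h2 : ENNReal.ofReal 2 = 2 := by simp
    have hf0 : f ≠ 0 := by
      intro h
      have h3 := hfp 2 (by norm_num)
      have h4 : eLpNorm (f : (Fin n → ℝ) → ℂ) (ENNReal.ofReal 2) volume = 0 := by
        rw [h, eLpNorm_congr_ae (Lp.coeFn_zero ℂ 2 (volume : Measure (Fin n → ℝ)))]
        exact eLpNorm_zero
      rw [h4] at h3
      exact zero_ne_one h3
    have hle : ∀ p ∈ Ioo (2 - σ) 2, C p ≤ 1 := by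
      intro p hp
      have hp0 : 0 < p := by linarith [hp.1]
      obtain ⟨-, hadm⟩ := hC p ⟨hp.1, hp.2.le⟩
      have h3 := hadm f hf0 ⟨Lp.aestronglyMeasurable f, by rw [hfp p hp0]; exact ENNReal.one_lt_top⟩
        ⟨Lp.aestronglyMeasurable _, by rw [hAfp p hp0]; exact ENNReal.ofReal_lt_top⟩
      refine h3.trans ?_
      unfold ratio
      have h4 := hfp 2 (by norm_num)
      have h5 := hAfp 2 (by norm_num)
      rw [h2] at h4 h5
      rw [hfp p hp0, hAfp p hp0, h4, h5, ENNReal.toReal_one, one_mul, one_mul,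
        ENNReal.toReal_ofReal (by positivity), ENNReal.toReal_ofReal (by positivity)]
      rw [div_le_one (by positivity)]
      refine Real.rpow_le_rpow_of_exponent_ge hk0 hk1 ?_
      exact one_div_le_one_div_of_le hp0 hp.2.le
    -- contradiction with strict monotonicity
    set p1 : ℝ := 2 - σ / 2 with hp1
    set p2 : ℝ := 2 - σ / 4 with hp2
    have m1 : p1 ∈ Ioo (2 - σ) 2 := ⟨by linarith, by linarith⟩
    have m2 : p2 ∈ Ioo (2 - σ) 2 := ⟨by linarith, by linarith⟩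
    have h12 : C p2 < C p1 := hanti m1 m2 (by linarith)
    have h1 : 1 ≤ C p2 := by
      refine le_of_tendsto hlim ?_
      have : Ioo p2 2 ∈ 𝓝[<] (2 : ℝ) := Ioo_mem_nhdsLT (by linarith)
      filter_upwards [this] with q hq
      exact (hanti m2 ⟨by linarith [hq.1], hq.2⟩ hq.1).le
    linarith [hle p1 m1]

end

end Pool.Agent.R246.BlockHad
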