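import Mathlib

/-!
# The quadratic form of the band-limited wavelets `ψ_b`, lower and upper bounds
-/

namespace Pool.Agent.R246.FrameA

open MeasureTheory Filter Topology Set
open scoped ENNReal

noncomputable section

/-- constants as elements of `ℝ≥0∞` -/
abbrev c4 : ℝ≥0∞ := ENNReal.ofReal (1 / 4)
abbrev c925 : ℝ≥0∞ := ENNReal.ofReal (9 / 25)
abbrev c934 : ℝ≥0∞ := ENNReal.ofReal (9 / 34)
abbrev c5 : ℝ≥0∞ := ENNReal.ofReal (1 / 5)
abbrev c68 : ℝ≥0∞ := ENNReal.ofReal (1 / 68)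

/-- the first weight -/
def w1 (b T x : ℝ) : ℝ≥0∞ :=
  (Ioo (T / 2) (4 * b * T)).indicator (fun _ => c4) x +
  (Ioo (4 * b * T) T).indicator (fun _ => c925) x

/-- the second weight -/
def w2 (b T x : ℝ) : ℝ≥0∞ :=
  (Ioo (T / 4) (2 * b * T)).indicator (fun _ => c934) x +
  (Ioo (2 * b * T) (T / 2)).indicator (fun _ => c5) x +
  (Ioo (b * T) (T / 4)).indicator (fun _ => c5) x

lemma w1_meas (b T : ℝ) : Measurable (w1 b T) :=
  (measurable_const.indicator measurableSet_Ioo).add (measurable_const.indicator measurableSet_Ioo)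

lemma w2_meas (b T : ℝ) : Measurable (w2 b T) :=
  ((measurable_const.indicator measurableSet_Ioo).add
    (measurable_const.indicator measurableSet_Ioo)).add
    (measurable_const.indicator measurableSet_Ioo)

/-- the elementary inequality -/
lemma elem (z w : ℂ) (s k : ℝ) (hs : 0 ≤ s) (hk : 0 ≤ k) (h : k * (1 + s) ≤ s) :
    ENNReal.ofReal k * ‖w‖ₑ ^ 2 ≤ ‖z + w‖ₑ ^ 2 + ENNReal.ofReal s * ‖z‖ₑ ^ 2 := by
  have h1 : k * ‖w‖ ^ 2 ≤ ‖z + w‖ ^ 2 + s * ‖z‖ ^ 2 := by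
    have h2 : ‖w‖ ≤ ‖z + w‖ + ‖z‖ := by
      have := norm_sub_le (z + w) z
      rwa [add_sub_cancel_left] at this
    have h3 : ‖w‖ ^ 2 ≤ (‖z + w‖ + ‖z‖) ^ 2 := pow_le_pow_left₀ (norm_nonneg _) h2 2
    have h4 : k * ‖w‖ ^ 2 ≤ k * (‖z + w‖ + ‖z‖) ^ 2 := mul_le_mul_of_nonneg_left h3 hk
    have ha := norm_nonneg (z + w)
    have hb := norm_nonneg z
    set a := ‖z + w‖
    set c := ‖z‖
    have h5 : k ≤ 1 := by nlinarith
    -- k (a + c)^2 ≤ a^2 + s c^2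
    have h6 : k * (a + c) ^ 2 * (1 + s) ≤ (a ^ 2 + s * c ^ 2) * (1 + s) := by
      have h7 : k * (1 + s) * (a + c) ^ 2 ≤ s * (a + c) ^ 2 :=
        mul_le_mul_of_nonneg_right h (sq_nonneg _)
      nlinarith [sq_nonneg (a - s * c)]
    have h8 : k * (a + c) ^ 2 ≤ a ^ 2 + s * c ^ 2 := le_of_mul_le_mul_right h6 (by linarith)
    linarith
  have e : ∀ v : ℂ, ‖v‖ₑ ^ 2 = ENNReal.ofReal (‖v‖ ^ 2) := by
    intro v
    rw [ENNReal.ofReal_pow (norm_nonneg _), ofReal_norm]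
  rw [e, e, e, ← ENNReal.ofReal_mul hk, ← ENNReal.ofReal_mul hs,
    ← ENNReal.ofReal_add (by positivity) (by positivity)]
  exact ENNReal.ofReal_le_ofReal h1

variable {b : ℝ}

/-- pointwise inequality -/
lemma pointwise (hb : 1 / 8 < b) (hb' : b ≤ 1 / 6) {T : ℝ} (hT : 0 < T) (f g : ℝ → ℂ) {x : ℝ}
    (hx : x ≠ 4 * b * T) :
    w2 b T (T - x) * ‖g (T - x)‖ₑ ^ 2 ≤
      (Ioo (T / 2) (T * (1 - b))).indicator (fun x => ‖f x + g (T - x)‖ₑ ^ 2) x +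
        w1 b T x * ‖f x‖ₑ ^ 2 := by
  have hbT : T / 8 < b * T := by nlinarith
  have hbT' : b * T ≤ T / 6 := by nlinarith
  unfold w2
  by_cases h1 : T - x ∈ Ioo (T / 4) (2 * b * T)
  · have h2 : T - x ∉ Ioo (2 * b * T) (T / 2) := fun h => by
      have := h1.2; have := h.1; linarith
    have h3 : T - x ∉ Ioo (b * T) (T / 4) := fun h => by
      have := h1.1; have := h.2; linarith
    rw [indicator_of_mem h1, indicator_of_notMem h2, indicator_of_notMem h3, add_zero, add_zero]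
    have hx1 := h1.1
    have hx2 := h1.2
    have h4 : x ∈ Ioo (T / 2) (T * (1 - b)) := ⟨by nlinarith, by nlinarith⟩
    have h5 : x ∈ Ioo (4 * b * T) T := ⟨by nlinarith, by nlinarith⟩
    have h6 : x ∉ Ioo (T / 2) (4 * b * T) := fun h => by have := h.2; have := h5.1; linarith
    unfold w1
    rw [indicator_of_mem h4, indicator_of_mem h5, indicator_of_notMem h6, zero_add]
    exact elem (f x) (g (T - x)) (9 / 25) (9 / 34) (by norm_num) (by norm_num) (by norm_num)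
  · rw [indicator_of_notMem h1, zero_add]
    by_cases h2 : T - x ∈ Ioo (2 * b * T) (T / 2)
    · have h3 : T - x ∉ Ioo (b * T) (T / 4) := fun h => by
        have := h2.1; have := h.2; nlinarith
      rw [indicator_of_mem h2, indicator_of_notMem h3, add_zero]
      have hx1 := h2.1
      have hx2 := h2.2
      have h4 : x ∈ Ioo (T / 2) (T * (1 - b)) := ⟨by nlinarith, by nlinarith⟩
      unfold w1
      rw [indicator_of_mem h4]
      rcases lt_or_gt_of_ne hx with h5 | h5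
      · have h6 : x ∈ Ioo (T / 2) (4 * b * T) := ⟨h4.1, h5⟩
        have h7 : x ∉ Ioo (4 * b * T) T := fun h => by have := h.1; linarith
        rw [indicator_of_mem h6, indicator_of_notMem h7, add_zero]
        exact elem (f x) (g (T - x)) (1 / 4) (1 / 5) (by norm_num) (by norm_num) (by norm_num)
      · have h6 : x ∉ Ioo (T / 2) (4 * b * T) := fun h => by have := h.2; linarith
        have h7 : x ∈ Ioo (4 * b * T) T := ⟨h5, by nlinarith⟩
        rw [indicator_of_notMem h6, indicator_of_mem h7, zero_add]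
        exact elem (f x) (g (T - x)) (9 / 25) (1 / 5) (by norm_num) (by norm_num) (by norm_num)
    · rw [indicator_of_notMem h2, zero_add]
      by_cases h3 : T - x ∈ Ioo (b * T) (T / 4)
      · rw [indicator_of_mem h3]
        have hx1 := h3.1
        have hx2 := h3.2
        have h4 : x ∈ Ioo (T / 2) (T * (1 - b)) := ⟨by nlinarith, by nlinarith⟩
        have h5 : x ∈ Ioo (4 * b * T) T := ⟨by nlinarith, by nlinarith⟩
        have h6 : x ∉ Ioo (T / 2) (4 * b * T) := fun h => by have := h.2; have := h5.1; linarith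
        unfold w1
        rw [indicator_of_mem h4, indicator_of_mem h5, indicator_of_notMem h6, zero_add]
        exact elem (f x) (g (T - x)) (9 / 25) (1 / 5) (by norm_num) (by norm_num) (by norm_num)
      · rw [indicator_of_notMem h3, zero_mul]
        exact zero_le

/-- the pair energy -/
def en (b T : ℝ) (f g : ℝ → ℂ) : ℝ≥0∞ :=
  ∫⁻ x in Ioo (T / 2) (T * (1 - b)), ‖f x + g (T - x)‖ₑ ^ 2

lemma scale_ineq (hb : 1 / 8 < b) (hb' : b ≤ 1 / 6) {T : ℝ} (hT : 0 < T) {f g : ℝ → ℂ}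
    (hf : Measurable f) (hg : Measurable g) :
    ∫⁻ x, w2 b T x * ‖g x‖ₑ ^ 2 ≤ en b T f g + ∫⁻ x, w1 b T x * ‖f x‖ₑ ^ 2 := by
  have h1 : ∫⁻ x, w2 b T x * ‖g x‖ₑ ^ 2 = ∫⁻ x, w2 b T (T - x) * ‖g (T - x)‖ₑ ^ 2 :=
    (lintegral_sub_left_eq_self (fun x => w2 b T x * ‖g x‖ₑ ^ 2) T).symm
  rw [h1]
  unfold en
  rw [← lintegral_indicator measurableSet_Ioo, ← lintegral_add_left]
  · refine lintegral_mono_ae ?_
    have h2 : ∀ᵐ x : ℝ, x ≠ 4 * b * T := by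
      rw [ae_iff]
      simp
    filter_upwards [h2] with x hx
    exact pointwise hb hb' hT f g hx
  · refine Measurable.indicator ?_ measurableSet_Ioo
    have : Measurable fun x => f x + g (T - x) := hf.add (hg.comp (measurable_const.sub measurable_id))
    exact this.enorm.pow_const 2

/-- position of a point in the dyadic scale -/
lemma exists_scale {x : ℝ} (hx : 0 < x) : ∃ m : ℤ, (2 : ℝ) ^ m / 2 < x ∧ x ≤ (2 : ℝ) ^ m := by
  obtain ⟨n, hn1, hn2⟩ := exists_mem_Ioc_zpow hx (show (1 : ℝ) < 2 by norm_num)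
  refine ⟨n + 1, ?_, hn2⟩
  rw [zpow_add₀ (by norm_num), zpow_one]
  linarith

lemma zpow_lt_iff {m n : ℤ} : (2 : ℝ) ^ m < 2 ^ n ↔ m < n := zpow_lt_zpow_iff_right₀ (by norm_num)

lemma zpow_le_iff {m n : ℤ} : (2 : ℝ) ^ m ≤ 2 ^ n ↔ m ≤ n := zpow_le_zpow_iff_right₀ (by norm_num)

/-- sum of the weights at a good point -/
lemma weights (hb : 1 / 8 < b) (hb' : b ≤ 1 / 6) {x : ℝ} (hx : 0 < x)
    (h1 : ∀ m : ℤ, x ≠ (2 : ℝ) ^ m) (h2 : ∀ m : ℤ, x ≠ 4 * b * (2 : ℝ) ^ m) :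
    (∑' n : ℤ, w1 b ((2 : ℝ) ^ n) x) ≤ c925 ∧
    (∑' n : ℤ, w1 b ((2 : ℝ) ^ n) x) + c68 ≤ ∑' n : ℤ, w2 b ((2 : ℝ) ^ n) x := by
  obtain ⟨m, hm1, hm2⟩ := exists_scale hx
  have hm3 : x < (2 : ℝ) ^ m := lt_of_le_of_ne hm2 (h1 m)
  set P : ℝ := (2 : ℝ) ^ m with hP
  have hP0 : 0 < P := by positivity
  have hbP : P / 8 < b * P := by nlinarith
  have hbP' : b * P ≤ P / 6 := by nlinarith
  -- only the term `n = m` in the sum of `w1`
  have hz : ∀ n : ℤ, n ≠ m → w1 b ((2 : ℝ) ^ n) x = 0 := by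
    intro n hn
    have hn0 : (0 : ℝ) < 2 ^ n := by positivity
    have hbn : b * (2 : ℝ) ^ n ≤ (2 : ℝ) ^ n / 6 := by nlinarith
    have hbn' : (2 : ℝ) ^ n / 8 < b * (2 : ℝ) ^ n := by nlinarith
    have hno : ¬ ((2 : ℝ) ^ n / 2 < x ∧ x < (2 : ℝ) ^ n) := by
      rintro ⟨h3, h4⟩
      have h5 : (2 : ℝ) ^ (m - 1) < 2 ^ n := by
        rw [zpow_sub₀ (by norm_num), zpow_one]
        linarith
      have h6 : (2 : ℝ) ^ (n - 1) < 2 ^ m := by
        rw [zpow_sub₀ (by norm_num), zpow_one]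
        linarith
      rw [zpow_lt_iff] at h5 h6
      omega
    unfold w1
    rw [indicator_of_notMem, indicator_of_notMem, add_zero]
    · rintro ⟨h3, h4⟩
      exact hno ⟨by linarith, h4⟩
    · rintro ⟨h3, h4⟩
      exact hno ⟨h3, by linarith⟩
  rw [tsum_eq_single m hz, ← hP]
  have hP1 : (2 : ℝ) ^ (m + 1) = 2 * P := by rw [zpow_add₀ (by norm_num), zpow_one, hP]; ring
  have hP2 : (2 : ℝ) ^ (m + 2) = 4 * P := by
    rw [zpow_add₀ (by norm_num), hP]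
    norm_num
    ring
  rcases lt_or_gt_of_ne (h2 m) with h3 | h3
  · rw [← hP] at h3
    have e1 : w1 b P x = c4 := by
      unfold w1
      rw [indicator_of_mem (show x ∈ Ioo (P / 2) (4 * b * P) from ⟨hm1, h3⟩),
        indicator_of_notMem (fun h => by have := h.1; linarith), add_zero]
    have e2 : c934 ≤ w2 b ((2 : ℝ) ^ (m + 1)) x := by
      rw [hP1]
      unfold w2
      rw [indicator_of_mem (show x ∈ Ioo (2 * P / 4) (2 * b * (2 * P)) from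
        ⟨by linarith, by linarith⟩), add_assoc]
      exact le_self_add
    rw [e1]
    refine ⟨ENNReal.ofReal_le_ofReal (by norm_num), ?_⟩
    refine le_trans ?_ (e2.trans (ENNReal.le_tsum (m + 1)))
    rw [← ENNReal.ofReal_add (by norm_num) (by norm_num)]
    exact ENNReal.ofReal_le_ofReal (by norm_num)
  · rw [← hP] at h3
    have e1 : w1 b P x = c925 := by
      unfold w1
      rw [indicator_of_notMem (fun h => by have := h.2; linarith),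
        indicator_of_mem (show x ∈ Ioo (4 * b * P) P from ⟨h3, hm3⟩), zero_add]
    have e2 : c5 ≤ w2 b ((2 : ℝ) ^ (m + 1)) x := by
      rw [hP1]
      unfold w2
      rw [indicator_of_mem (show x ∈ Ioo (2 * b * (2 * P)) (2 * P / 2) from
        ⟨by linarith, by linarith⟩), add_comm (indicator _ _ _) c5, add_assoc]
      exact le_self_add
    have e3 : c5 ≤ w2 b ((2 : ℝ) ^ (m + 2)) x := by
      rw [hP2]
      unfold w2
      rw [indicator_of_mem (show x ∈ Ioo (b * (4 * P)) (4 * P / 4) from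
        ⟨by linarith, by linarith⟩)]
      exact le_add_self
    rw [e1]
    refine ⟨le_rfl, ?_⟩
    have hne : m + 1 ∉ ({m + 2} : Finset ℤ) := by simp
    have e4 := ENNReal.sum_le_tsum (f := fun n : ℤ => w2 b ((2 : ℝ) ^ n) x) (insert (m + 1) {m + 2})
    rw [Finset.sum_insert hne, Finset.sum_singleton] at e4
    refine le_trans ?_ ((add_le_add e2 e3).trans e4)
    rw [← ENNReal.ofReal_add (by norm_num) (by norm_num),
      ← ENNReal.ofReal_add (by norm_num) (by norm_num)]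
    exact ENNReal.ofReal_le_ofReal (by norm_num)

/-- almost every point is good -/
lemma ae_good (b : ℝ) : ∀ᵐ x : ℝ, (∀ m : ℤ, x ≠ (2 : ℝ) ^ m) ∧
    (∀ m : ℤ, x ≠ 4 * b * (2 : ℝ) ^ m) := by
  refine (ae_all_iff.2 fun m => ?_).and (ae_all_iff.2 fun m => ?_)
  · rw [ae_iff]; simp
  · rw [ae_iff]; simp

lemma half_ineq (hb : 1 / 8 < b) (hb' : b ≤ 1 / 6) {f g : ℝ → ℂ} (hf : Measurable f)
    (hg : Measurable g) :
    (∫⁻ x in Ioi 0, (∑' n : ℤ, w1 b ((2 : ℝ) ^ n) x) * ‖g x‖ₑ ^ 2) +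
      c68 * ∫⁻ x in Ioi 0, ‖g x‖ₑ ^ 2 ≤
    (∑' n : ℤ, en b ((2 : ℝ) ^ n) f g) +
      ∫⁻ x in Ioi 0, (∑' n : ℤ, w1 b ((2 : ℝ) ^ n) x) * ‖f x‖ₑ ^ 2 := by
  have hw1m : Measurable fun x => ∑' n : ℤ, w1 b ((2 : ℝ) ^ n) x :=
    Measurable.tsum fun n => w1_meas _ _
  have hgm : Measurable fun x => ‖g x‖ₑ ^ 2 := hg.enorm.pow_const 2
  have hfm : Measurable fun x => ‖f x‖ₑ ^ 2 := hf.enorm.pow_const 2
  have s1 : (∫⁻ x in Ioi 0, (∑' n : ℤ, w1 b ((2 : ℝ) ^ n) x) * ‖g x‖ₑ ^ 2) +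
      c68 * ∫⁻ x in Ioi 0, ‖g x‖ₑ ^ 2 ≤ ∫⁻ x, (∑' n : ℤ, w2 b ((2 : ℝ) ^ n) x) * ‖g x‖ₑ ^ 2 := by
    have hprod : Measurable fun x => (∑' n : ℤ, w1 b ((2 : ℝ) ^ n) x) * ‖g x‖ₑ ^ 2 :=
      hw1m.mul hgm
    rw [← lintegral_const_mul _ hgm, ← lintegral_add_left hprod]
    refine le_trans (lintegral_mono_ae ?_) (setLIntegral_le_lintegral (Ioi 0) _)
    refine (ae_restrict_iff' measurableSet_Ioi).2 ?_
    filter_upwards [ae_good b] with x hx hx0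
    rw [← add_mul]
    gcongr
    exact (weights hb hb' hx0 hx.1 hx.2).2
  have hw1zero : ∀ (n : ℤ) (x : ℝ), x ∉ Ioi (0 : ℝ) → w1 b ((2 : ℝ) ^ n) x = 0 := by
    intro n x hx
    rw [mem_Ioi, not_lt] at hx
    have hn0 : (0 : ℝ) < 2 ^ n := by positivity
    unfold w1
    rw [indicator_of_notMem, indicator_of_notMem, add_zero]
    · rintro ⟨h3, h4⟩
      have : 0 < 4 * b * (2 : ℝ) ^ n := by positivity
      linarith
    · rintro ⟨h3, h4⟩
      linarith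
  have s2 : ∫⁻ x, (∑' n : ℤ, w1 b ((2 : ℝ) ^ n) x) * ‖f x‖ₑ ^ 2 =
      ∫⁻ x in Ioi 0, (∑' n : ℤ, w1 b ((2 : ℝ) ^ n) x) * ‖f x‖ₑ ^ 2 := by
    rw [← lintegral_indicator measurableSet_Ioi]
    congr 1
    funext x
    by_cases hx : x ∈ Ioi (0 : ℝ)
    · rw [indicator_of_mem hx]
    · rw [indicator_of_notMem hx]
      simp only [hw1zero _ x hx, tsum_zero, zero_mul]
  refine s1.trans ?_
  rw [← s2]
  have e1 : ∫⁻ x, (∑' n : ℤ, w2 b ((2 : ℝ) ^ n) x) * ‖g x‖ₑ ^ 2 =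
      ∑' n : ℤ, ∫⁻ x, w2 b ((2 : ℝ) ^ n) x * ‖g x‖ₑ ^ 2 := by
    have h := lintegral_tsum (μ := volume) (f := fun (n : ℤ) x => w2 b ((2 : ℝ) ^ n) x * ‖g x‖ₑ ^ 2)
      fun n => ((w2_meas _ _).mul hgm).aemeasurable
    rw [← h]
    congr 1
    funext x
    rw [ENNReal.tsum_mul_right]
  have e2 : ∫⁻ x, (∑' n : ℤ, w1 b ((2 : ℝ) ^ n) x) * ‖f x‖ₑ ^ 2 =
      ∑' n : ℤ, ∫⁻ x, w1 b ((2 : ℝ) ^ n) x * ‖f x‖ₑ ^ 2 := by
    have h := lintegral_tsum (μ := volume) (f := fun (n : ℤ) x => w1 b ((2 : ℝ) ^ n) x * ‖f x‖ₑ ^ 2)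
      fun n => ((w1_meas _ _).mul hfm).aemeasurable
    rw [← h]
    congr 1
    funext x
    rw [ENNReal.tsum_mul_right]
  rw [e1, e2, ← ENNReal.tsum_add]
  exact ENNReal.tsum_le_tsum fun n => scale_ineq hb hb' (by positivity) hf hg

/-- lower bound for pairs of functions on the half line -/
lemma lower_pair (hb : 1 / 8 < b) (hb' : b ≤ 1 / 6) {f g : ℝ → ℂ} (hf : Measurable f)
    (hg : Measurable g) (hfi : ∫⁻ x in Ioi 0, ‖f x‖ₑ ^ 2 ≠ ∞) (hgi : ∫⁻ x in Ioi 0, ‖g x‖ₑ ^ 2 ≠ ∞) :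
    c68 * ((∫⁻ x in Ioi 0, ‖f x‖ₑ ^ 2) + ∫⁻ x in Ioi 0, ‖g x‖ₑ ^ 2) ≤
    ∑' n : ℤ, (en b ((2 : ℝ) ^ n) f g + en b ((2 : ℝ) ^ n) g f) := by
  have h1 := half_ineq hb hb' hf hg
  have h2 := half_ineq hb hb' hg hf
  have hfin : ∀ h : ℝ → ℂ, Measurable h → ∫⁻ x in Ioi 0, ‖h x‖ₑ ^ 2 ≠ ∞ →
      (∫⁻ x in Ioi 0, (∑' n : ℤ, w1 b ((2 : ℝ) ^ n) x) * ‖h x‖ₑ ^ 2) ≠ ∞ := by
    intro h hh hi
    have hhm : Measurable fun x => ‖h x‖ₑ ^ 2 := hh.enorm.pow_const 2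
    have h3 : (∫⁻ x in Ioi 0, (∑' n : ℤ, w1 b ((2 : ℝ) ^ n) x) * ‖h x‖ₑ ^ 2) ≤
        c925 * ∫⁻ x in Ioi 0, ‖h x‖ₑ ^ 2 := by
      rw [← lintegral_const_mul _ hhm]
      refine lintegral_mono_ae ?_
      refine (ae_restrict_iff' measurableSet_Ioi).2 ?_
      filter_upwards [ae_good b] with x hx hx0
      gcongr
      exact (weights hb hb' hx0 hx.1 hx.2).1
    exact ne_top_of_le_ne_top (ENNReal.mul_ne_top ENNReal.ofReal_ne_top hi) h3
  have hF := hfin f hf hfi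
  have hG := hfin g hg hgi
  rw [ENNReal.tsum_add, mul_add]
  set A := ∫⁻ x in Ioi 0, (∑' n : ℤ, w1 b ((2 : ℝ) ^ n) x) * ‖f x‖ₑ ^ 2
  set B := ∫⁻ x in Ioi 0, (∑' n : ℤ, w1 b ((2 : ℝ) ^ n) x) * ‖g x‖ₑ ^ 2
  have h3 := add_le_add h1 h2
  have h4 : A + B + (c68 * (∫⁻ x in Ioi 0, ‖f x‖ₑ ^ 2) + c68 * ∫⁻ x in Ioi 0, ‖g x‖ₑ ^ 2) ≤
      A + B + ((∑' n : ℤ, en b ((2 : ℝ) ^ n) f g) + ∑' n : ℤ, en b ((2 : ℝ) ^ n) g f) := by
    calc _ = B + c68 * (∫⁻ x in Ioi 0, ‖g x‖ₑ ^ 2) + (A + c68 * ∫⁻ x in Ioi 0, ‖f x‖ₑ ^ 2) := by ring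
      _ ≤ _ := h3
      _ = _ := by ring
  exact (ENNReal.add_le_add_iff_left (ENNReal.add_ne_top.2 ⟨hF, hG⟩)).1 h4

end

end Pool.Agent.R246.FrameA
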