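import Mathlib
import Pool.Agent.R246.FrameA

/-!
# Bounds for the quadratic form of `ψ_b`
-/

namespace Pool.Agent.R246.FrameB

open MeasureTheory Filter Topology Set Pool.Agent.R246.FrameA
open scoped ENNReal

noncomputable section

/-- the annulus `b T < |x| < T` -/
def SS (b T : ℝ) : Set ℝ := {x | b * T < |x| ∧ |x| < T}

lemma SS_meas (b T : ℝ) : MeasurableSet (SS b T) := by
  have h1 : MeasurableSet {x : ℝ | b * T < |x|} :=
    measurableSet_lt measurable_const measurable_id.norm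
  have h2 : MeasurableSet {x : ℝ | |x| < T} := measurableSet_lt measurable_id.norm measurable_const
  exact h1.inter h2

/-- the truncated function -/
def HH (b T : ℝ) (F : ℝ → ℂ) : ℝ → ℂ := (SS b T).indicator F

/-- the folded function -/
def GG (b T : ℝ) (F : ℝ → ℂ) (x : ℝ) : ℂ := HH b T F x + HH b T F (x - T)

/-- the energy at scale `T` -/
def QQ (b T : ℝ) (F : ℝ → ℂ) : ℝ≥0∞ := ∫⁻ x in Ioc 0 T, ‖GG b T F x‖ₑ ^ 2

variable {b : ℝ}

lemma GG_eq (hb : 1 / 8 < b) (hb' : b ≤ 1 / 6) {T : ℝ} (hT : 0 < T) (F : ℝ → ℂ) {x : ℝ}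
    (h1 : b * T < x) (h2 : x < T * (1 - b)) : GG b T F x = F x + F (x - T) := by
  have hbT : T / 8 < b * T := by nlinarith
  have hbT' : b * T ≤ T / 6 := by nlinarith
  have h3 : x ∈ SS b T := by
    refine ⟨?_, ?_⟩
    · rw [abs_of_pos (by linarith)]; exact h1
    · rw [abs_of_pos (by linarith)]; nlinarith
  have h4 : x - T ∈ SS b T := by
    have h5 : |x - T| = T - x := by rw [abs_of_neg (by nlinarith)]; ring
    refine ⟨?_, ?_⟩
    · rw [h5]; nlinarith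
    · rw [h5]; linarith
  unfold GG HH
  rw [indicator_of_mem h3, indicator_of_mem h4]

lemma QQ_lower (hb : 1 / 8 < b) (hb' : b ≤ 1 / 6) {T : ℝ} (hT : 0 < T) {F : ℝ → ℂ} :
    en b T F (fun x => F (-x)) + en b T (fun x => F (-x)) F ≤ QQ b T F := by
  have hbT : T / 8 < b * T := by nlinarith
  have hbT' : b * T ≤ T / 6 := by nlinarith
  have e1 : en b T F (fun x => F (-x)) = ∫⁻ x in Ioo (T / 2) (T * (1 - b)), ‖GG b T F x‖ₑ ^ 2 := by
    unfold en
    refine setLIntegral_congr_fun measurableSet_Ioo fun x hx => ?_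
    rw [GG_eq hb hb' hT F (by linarith [hx.1]) hx.2]
    simp only [neg_sub]
  have e2 : en b T (fun x => F (-x)) F = ∫⁻ x in Ioo (b * T) (T / 2), ‖GG b T F x‖ₑ ^ 2 := by
    unfold en
    rw [← lintegral_indicator measurableSet_Ioo, ← lintegral_indicator measurableSet_Ioo]
    have h := lintegral_sub_left_eq_self (μ := (volume : Measure ℝ))
      (fun x => (Ioo (b * T) (T / 2)).indicator (fun x => ‖GG b T F x‖ₑ ^ 2) x) T
    rw [← h]
    congr 1
    funext x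
    by_cases hx : x ∈ Ioo (T / 2) (T * (1 - b))
    · have hx1 := hx.1
      have hx2 := hx.2
      have hx' : T - x ∈ Ioo (b * T) (T / 2) := ⟨by linarith, by linarith⟩
      rw [indicator_of_mem hx, indicator_of_mem hx',
        GG_eq hb hb' hT F hx'.1 (by nlinarith), add_comm]
      congr 3
      ring_nf
    · have hx' : T - x ∉ Ioo (b * T) (T / 2) := by
        intro h'
        have h1 := h'.1
        have h2 := h'.2
        exact hx ⟨by linarith, by linarith⟩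
      rw [indicator_of_notMem hx, indicator_of_notMem hx']
  rw [e1, e2]
  unfold QQ
  rw [← lintegral_union measurableSet_Ioo]
  · refine lintegral_mono_set ?_
    rintro x (hx | hx)
    · exact ⟨by linarith [hx.1], by nlinarith [hx.2]⟩
    · exact ⟨by linarith [hx.1], by linarith [hx.2]⟩
  · rw [Set.disjoint_left]
    intro x hx hx'
    linarith [hx.1, hx'.2]

/-- splitting the line -/
lemma split_line (F : ℝ → ℂ) :
    ∫⁻ x, ‖F x‖ₑ ^ 2 = (∫⁻ x in Ioi 0, ‖F x‖ₑ ^ 2) + ∫⁻ x in Ioi 0, ‖F (-x)‖ₑ ^ 2 := by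
  have h1 := lintegral_add_compl (μ := volume) (fun x => ‖F x‖ₑ ^ 2) (measurableSet_Ioi (a := (0 : ℝ)))
  rw [← h1, compl_Ioi]
  congr 1
  rw [setLIntegral_congr (Iio_ae_eq_Iic (a := (0 : ℝ))).symm,
    ← lintegral_indicator measurableSet_Iio, ← lintegral_indicator measurableSet_Ioi,
    ← lintegral_neg_eq_self]
  congr 1
  funext x
  by_cases hx : x ∈ Ioi (0 : ℝ)
  · have hx' : -x ∈ Iio (0 : ℝ) := by simpa using hx
    rw [indicator_of_mem hx, indicator_of_mem hx']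
  · have hx' : -x ∉ Iio (0 : ℝ) := by simpa using hx
    rw [indicator_of_notMem hx, indicator_of_notMem hx']

theorem lower (hb : 1 / 8 < b) (hb' : b ≤ 1 / 6) {F : ℝ → ℂ} (hF : Measurable F)
    (hFi : ∫⁻ x, ‖F x‖ₑ ^ 2 ≠ ∞) :
    c68 * ∫⁻ x, ‖F x‖ₑ ^ 2 ≤ ∑' n : ℤ, QQ b ((2 : ℝ) ^ n) F := by
  have hs := split_line F
  have hF' : Measurable fun x => F (-x) := hF.comp measurable_neg
  have h1 : (∫⁻ x in Ioi 0, ‖F x‖ₑ ^ 2) ≠ ∞ := by
    intro h; rw [hs, h, top_add] at hFi; exact hFi rfl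
  have h2 : (∫⁻ x in Ioi 0, ‖F (-x)‖ₑ ^ 2) ≠ ∞ := by
    intro h; rw [hs, h, add_top] at hFi; exact hFi rfl
  rw [hs]
  refine (lower_pair hb hb' hF hF' h1 h2).trans ?_
  exact ENNReal.tsum_le_tsum fun n => QQ_lower hb hb' (by positivity)

lemma HH_meas (b T : ℝ) {F : ℝ → ℂ} (hF : Measurable F) : Measurable (HH b T F) :=
  hF.indicator (SS_meas b T)

lemma GG_meas (b T : ℝ) {F : ℝ → ℂ} (hF : Measurable F) : Measurable (GG b T F) :=
  (HH_meas b T hF).add ((HH_meas b T hF).comp (measurable_id.sub measurable_const))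

lemma two_sq (a c : ℂ) : ‖a + c‖ₑ ^ 2 ≤ 2 * (‖a‖ₑ ^ 2 + ‖c‖ₑ ^ 2) := by
  have h := ENNReal.rpow_add_le_mul_rpow_add_rpow ‖a‖ₑ ‖c‖ₑ (p := 2) (by norm_num)
  simp only [ENNReal.rpow_ofNat] at h
  have e : (2 : ℝ≥0∞) ^ ((2 : ℝ) - 1) = 2 := by
    rw [show ((2 : ℝ) - 1) = 1 by norm_num, ENNReal.rpow_one]
  rw [e] at h
  exact (pow_le_pow_left' (enorm_add_le _ _) 2).trans h

lemma QQ_upper (b T : ℝ) {F : ℝ → ℂ} (hF : Measurable F) :
    QQ b T F ≤ 4 * ∫⁻ x, ‖HH b T F x‖ₑ ^ 2 := by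
  have hm : Measurable fun x => ‖HH b T F x‖ₑ ^ 2 := (HH_meas b T hF).enorm.pow_const 2
  unfold QQ
  refine (setLIntegral_le_lintegral _ _).trans ?_
  calc ∫⁻ x, ‖GG b T F x‖ₑ ^ 2
      ≤ ∫⁻ x, 2 * (‖HH b T F x‖ₑ ^ 2 + ‖HH b T F (x - T)‖ₑ ^ 2) :=
        lintegral_mono fun x => two_sq _ _
    _ = 2 * ((∫⁻ x, ‖HH b T F x‖ₑ ^ 2) + ∫⁻ x, ‖HH b T F (x - T)‖ₑ ^ 2) := by
        rw [lintegral_const_mul' _ _ (by norm_num), lintegral_add_left hm]
    _ = 4 * ∫⁻ x, ‖HH b T F x‖ₑ ^ 2 := by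
        rw [lintegral_sub_right_eq_self (fun x => ‖HH b T F x‖ₑ ^ 2) T]
        ring

lemma count_scales (hb : 1 / 8 < b) (x : ℝ) :
    ∑' n : ℤ, (SS b ((2 : ℝ) ^ n)).indicator (fun _ => (1 : ℝ≥0∞)) x ≤ 3 := by
  by_cases hx : x = 0
  · have h0 : ∀ n : ℤ, (SS b ((2 : ℝ) ^ n)).indicator (fun _ => (1 : ℝ≥0∞)) x = 0 := by
      intro n
      refine indicator_of_notMem ?_ _
      rintro ⟨h1, -⟩
      rw [hx, abs_zero] at h1
      have : 0 < b * (2 : ℝ) ^ n := by positivity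
      linarith
    simp [h0]
  · obtain ⟨m, hm1, hm2⟩ := exists_scale (abs_pos.2 hx)
    have hz : ∀ n ∉ ({m, m + 1, m + 2} : Finset ℤ),
        (SS b ((2 : ℝ) ^ n)).indicator (fun _ => (1 : ℝ≥0∞)) x = 0 := by
      intro n hn
      refine indicator_of_notMem ?_ _
      rintro ⟨h1, h2⟩
      apply hn
      have h3 : (2 : ℝ) ^ (m - 1) < 2 ^ n := by
        rw [zpow_sub₀ (by norm_num), zpow_one]
        linarith
      have h4 : (2 : ℝ) ^ (n - 3) < 2 ^ m := by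
        rw [zpow_sub₀ (by norm_num)]
        have : (0 : ℝ) < 2 ^ n := by positivity
        norm_num
        nlinarith
      rw [zpow_lt_iff] at h3 h4
      simp only [Finset.mem_insert, Finset.mem_singleton]
      omega
    rw [tsum_eq_sum hz]
    refine (Finset.sum_le_card_nsmul _ _ 1 fun n _ => ?_).trans ?_
    · exact indicator_le_self' (fun _ _ => zero_le_one) x
    · rw [nsmul_eq_mul, mul_one]
      have : Finset.card ({m, m + 1, m + 2} : Finset ℤ) ≤ 3 := Finset.card_le_three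
      exact_mod_cast this

theorem upper (hb : 1 / 8 < b) {F : ℝ → ℂ} (hF : Measurable F) :
    ∑' n : ℤ, QQ b ((2 : ℝ) ^ n) F ≤ 12 * ∫⁻ x, ‖F x‖ₑ ^ 2 := by
  calc ∑' n : ℤ, QQ b ((2 : ℝ) ^ n) F
      ≤ ∑' n : ℤ, 4 * ∫⁻ x, ‖HH b ((2 : ℝ) ^ n) F x‖ₑ ^ 2 :=
        ENNReal.tsum_le_tsum fun n => QQ_upper b _ hF
    _ = 4 * ∫⁻ x, ∑' n : ℤ, ‖HH b ((2 : ℝ) ^ n) F x‖ₑ ^ 2 := by
        rw [ENNReal.tsum_mul_left]
        congr 1
        exact (lintegral_tsum fun n => ((HH_meas b _ hF).enorm.pow_const 2).aemeasurable).symm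
    _ ≤ 4 * ∫⁻ x, 3 * ‖F x‖ₑ ^ 2 := by
        gcongr with x
        have h1 : ∀ n : ℤ, ‖HH b ((2 : ℝ) ^ n) F x‖ₑ ^ 2 =
            (SS b ((2 : ℝ) ^ n)).indicator (fun _ => (1 : ℝ≥0∞)) x * ‖F x‖ₑ ^ 2 := by
          intro n
          unfold HH
          by_cases h : x ∈ SS b ((2 : ℝ) ^ n)
          · rw [indicator_of_mem h, indicator_of_mem h, one_mul]
          · rw [indicator_of_notMem h, indicator_of_notMem h]; simp
        simp_rw [h1]
        rw [ENNReal.tsum_mul_right]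
        gcongr
        exact count_scales hb x
    _ = 12 * ∫⁻ x, ‖F x‖ₑ ^ 2 := by
        rw [lintegral_const_mul' _ _ (by norm_num), ← mul_assoc]
        norm_num

end

end Pool.Agent.R246.FrameB
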