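import Mathlib
import Pool.Agent.H153R4.Pl

/-!
# Gaussian (Bargmann) transform of an `L²` function
-/

namespace Pool.Agent.R246.HermA

open MeasureTheory Complex Filter Topology FourierTransform
open scoped ComplexConjugate

noncomputable section

/-- time-frequency shift -/
def tf (z : ℝ × ℝ) (g : ℝ → ℂ) (t : ℝ) : ℂ :=
  cexp (2 * Real.pi * I * z.2 * t) * g (t - z.1)

/-- inner product -/
def ip (f h : ℝ → ℂ) : ℂ := ∫ t, f t * conj (h t)

def gauss (t : ℝ) : ℂ := cexp (-(Real.pi * t ^ 2))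

/-- Gaussian transform -/
def G (g : ℝ → ℂ) (z : ℂ) : ℂ :=
  ∫ t : ℝ, conj (g t) * cexp (-(Real.pi * t ^ 2) + 2 * Real.pi * z * t)

/-- Bargmann transform -/
def B (g : ℝ → ℂ) (z : ℂ) : ℂ := cexp (-(Real.pi * z ^ 2 / 2)) * G g z

lemma memLp_quad (c d : ℂ) :
    MemLp (fun t : ℝ => cexp (-(Real.pi * t ^ 2) + c * t + d)) 2 volume := by
  have hc : Continuous (fun t : ℝ => cexp (-(Real.pi * t ^ 2) + c * t + d)) := by fun_prop
  rw [memLp_two_iff_integrable_sq_norm hc.aestronglyMeasurable]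
  have h1 := (integrable_cexp_quadratic' (b := -(2 * Real.pi)) (by simp [Real.pi_pos])
    (2 * c) (2 * d)).norm
  refine h1.congr (Eventually.of_forall fun t => ?_)
  show ‖cexp (-(2 * Real.pi) * t ^ 2 + 2 * c * t + 2 * d)‖ =
    ‖cexp (-(Real.pi * t ^ 2) + c * t + d)‖ ^ 2
  rw [← norm_pow, ← Complex.exp_nat_mul]
  congr 2
  push_cast
  ring

lemma conj_memLp {g : ℝ → ℂ} (hg : MemLp g 2 volume) : MemLp (fun t => conj (g t)) 2 volume :=
  hg.star

lemma intG {g : ℝ → ℂ} (hg : MemLp g 2 volume) (c d : ℂ) :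
    Integrable (fun t : ℝ => conj (g t) * cexp (-(Real.pi * t ^ 2) + c * t + d)) :=
  (conj_memLp hg).integrable_mul (memLp_quad c d)

lemma intG' {g : ℝ → ℂ} (hg : MemLp g 2 volume) (z : ℂ) :
    Integrable (fun t : ℝ => conj (g t) * cexp (-(Real.pi * t ^ 2) + 2 * Real.pi * z * t)) := by
  simpa using intG hg (2 * Real.pi * z) 0

lemma differentiable_G {g : ℝ → ℂ} (hg : MemLp g 2 volume) : Differentiable ℂ (G g) := by
  intro z₀
  set c : ℝ := 2 * Real.pi * (‖z₀‖ + 1) + 1 with hc
  have hb1 := (intG hg (c : ℂ) 0).norm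
  have hb2 := (intG hg (-(c : ℂ)) 0).norm
  have key := hasDerivAt_integral_of_dominated_loc_of_deriv_le (μ := volume) (𝕜 := ℂ)
    (F := fun (z : ℂ) (t : ℝ) => conj (g t) * cexp (-(Real.pi * t ^ 2) + 2 * Real.pi * z * t))
    (F' := fun (z : ℂ) (t : ℝ) => conj (g t) *
      (cexp (-(Real.pi * t ^ 2) + 2 * Real.pi * z * t) * (2 * Real.pi * t)))
    (x₀ := z₀) (s := Metric.ball z₀ 1)
    (bound := fun t : ℝ => (2 * Real.pi) * (‖conj (g t) * cexp (-(Real.pi * t ^ 2) + (c : ℂ) * t + 0)‖ +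
      ‖conj (g t) * cexp (-(Real.pi * t ^ 2) + -(c : ℂ) * t + 0)‖))
    (Metric.ball_mem_nhds z₀ one_pos)
    (Eventually.of_forall fun z => (intG' hg z).aestronglyMeasurable)
    (intG' hg z₀) ?_ ?_ ((hb1.add hb2).const_mul _) ?_
  · exact key.2.differentiableAt
  · refine (conj_memLp hg).1.mul (Continuous.aestronglyMeasurable ?_)
    fun_prop
  · refine Eventually.of_forall fun t z hz => ?_
    have hz' : ‖z‖ ≤ ‖z₀‖ + 1 := by
      rw [Metric.mem_ball, dist_eq_norm] at hz
      have := norm_le_insert' z z₀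
      linarith
    simp only [norm_mul]
    rw [Complex.norm_exp, Complex.norm_exp, Complex.norm_exp]
    have e0 : ∀ w : ℂ, (-((Real.pi : ℂ) * (t : ℂ) ^ 2) + w).re = -(Real.pi * t ^ 2) + w.re := by
      intro w
      rw [Complex.add_re, Complex.neg_re]
      norm_cast
    have e1 : (-((Real.pi : ℂ) * (t : ℂ) ^ 2) + 2 * Real.pi * z * t).re =
        -(Real.pi * t ^ 2) + 2 * Real.pi * z.re * t := by
      rw [e0]; congr 1
      have : (2 * (Real.pi : ℂ) * z * t) = ((2 * Real.pi * t : ℝ) : ℂ) * z := by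
        push_cast; ring
      rw [this, Complex.re_ofReal_mul]; ring
    have e2 : (-((Real.pi : ℂ) * (t : ℂ) ^ 2) + (c : ℂ) * t + 0).re =
        -(Real.pi * t ^ 2) + c * t := by
      rw [add_zero, e0]; congr 1; norm_cast
    have e3 : (-((Real.pi : ℂ) * (t : ℂ) ^ 2) + -(c : ℂ) * t + 0).re =
        -(Real.pi * t ^ 2) + -c * t := by
      rw [add_zero, e0]; congr 1; norm_cast
    rw [e1, e2, e3, ← mul_add, Real.exp_add, Real.exp_add, Real.exp_add, ← mul_add]
    have hn : ‖(2 : ℂ)‖ * ‖(Real.pi : ℂ)‖ * ‖(t : ℂ)‖ = 2 * Real.pi * |t| := by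
      rw [Complex.norm_real, Complex.norm_real, Real.norm_eq_abs, Real.norm_eq_abs,
        abs_of_pos Real.pi_pos]
      simp
    rw [hn]
    have h1 : |t| * Real.exp (2 * Real.pi * z.re * t) ≤ Real.exp (c * t) + Real.exp (-c * t) := by
      have a1 : |t| ≤ Real.exp |t| := by
        have := Real.add_one_le_exp |t|; linarith
      have a2 : Real.exp (2 * Real.pi * z.re * t) ≤ Real.exp (2 * Real.pi * (‖z₀‖ + 1) * |t|) := by
        apply Real.exp_le_exp.2
        have b1 : z.re * t ≤ (‖z₀‖ + 1) * |t| := by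
          calc z.re * t ≤ |z.re * t| := le_abs_self _
            _ = |z.re| * |t| := abs_mul _ _
            _ ≤ (‖z₀‖ + 1) * |t| :=
              mul_le_mul_of_nonneg_right ((Complex.abs_re_le_norm z).trans hz') (abs_nonneg _)
        have := mul_le_mul_of_nonneg_left b1 (by positivity : (0:ℝ) ≤ 2 * Real.pi)
        nlinarith
      have a3 : |t| * Real.exp (2 * Real.pi * z.re * t) ≤ Real.exp (c * |t|) := by
        calc |t| * Real.exp (2 * Real.pi * z.re * t) ≤
            Real.exp |t| * Real.exp (2 * Real.pi * (‖z₀‖ + 1) * |t|) :=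
              mul_le_mul a1 a2 (Real.exp_pos _).le (Real.exp_pos _).le
          _ = Real.exp (c * |t|) := by rw [← Real.exp_add]; congr 1; rw [hc]; ring
      refine a3.trans ?_
      rcases abs_cases t with ⟨h, _⟩ | ⟨h, _⟩
      · rw [h]; linarith [Real.exp_pos (-c * t)]
      · rw [h]
        have : c * -t = -c * t := by ring
        rw [this]; linarith [Real.exp_pos (c * t)]
    calc ‖conj (g t)‖ * (Real.exp (-(Real.pi * t ^ 2)) * Real.exp (2 * Real.pi * z.re * t) *
          (2 * Real.pi * |t|)) = (2 * Real.pi) * (‖conj (g t)‖ * (Real.exp (-(Real.pi * t ^ 2)) *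
          (|t| * Real.exp (2 * Real.pi * z.re * t)))) := by ring
      _ ≤ _ := by gcongr
  · refine Eventually.of_forall fun t z _ => ?_
    have h1 : HasDerivAt (fun z : ℂ => -((Real.pi : ℂ) * (t : ℂ) ^ 2) + 2 * Real.pi * z * t)
        (2 * (Real.pi : ℂ) * (t : ℂ)) z := by
      have := (((hasDerivAt_id z).const_mul (2 * (Real.pi : ℂ))).mul_const (t : ℂ)).const_add
        (-((Real.pi : ℂ) * (t : ℂ) ^ 2))
      simpa using this
    exact (h1.cexp).const_mul _

lemma differentiable_B {g : ℝ → ℂ} (hg : MemLp g 2 volume) : Differentiable ℂ (B g) := by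
  refine Differentiable.mul ?_ (differentiable_G hg)
  fun_prop

/-- the embedding of the time-frequency plane in `ℂ` -/
def om (w : ℝ × ℝ) : ℂ := w.1 + w.2 * I

lemma stft_gauss (g : ℝ → ℂ) (ζ w : ℝ × ℝ) :
    ip (tf ζ gauss) (tf w g) =
      cexp (2 * Real.pi * I * (ζ.2 - w.2) * w.1 - Real.pi * (ζ.1 - w.1) ^ 2) *
        G g (om ζ - om w) := by
  unfold ip G
  rw [← integral_add_right_eq_self (fun t => tf ζ gauss t * conj (tf w g t)) w.1,
    ← integral_const_mul]
  refine integral_congr_ae (Eventually.of_forall fun t => ?_)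
  simp only [tf, gauss, om, add_sub_cancel_right, map_mul]
  rw [← Complex.exp_conj]
  simp only [map_mul, Complex.conj_I, Complex.conj_ofReal, map_ofNat]
  have e : ∀ a b c d x : ℂ, a * b * (c * x) = x * (a * b * c) := by intros; ring
  rw [e _ _ _ 0 _, ← Complex.exp_add, ← Complex.exp_add]
  have e2 : ∀ a x b : ℂ, a * (x * b) = x * (a * b) := by intros; ring
  rw [e2, ← Complex.exp_add]
  congr 2
  push_cast
  ring

/-- Uniqueness for the transform. -/
lemma ae_eq_of_G {g₁ g₂ : ℝ → ℂ} (h1 : MemLp g₁ 2 volume) (h2 : MemLp g₂ 2 volume)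
    (h : ∀ y : ℝ, G g₁ (y * I) = G g₂ (y * I)) : g₁ =ᵐ[volume] g₂ := by
  set F : ℝ → ℂ := fun t => conj (g₁ t - g₂ t) * cexp (-(Real.pi * t ^ 2)) with hF
  have hg : MemLp (fun t => g₁ t - g₂ t) 2 volume := h1.sub h2
  have hF1 : Integrable F := by
    have := intG hg 0 0
    simpa [hF] using this
  have hF2 : MemLp F 2 volume := by
    refine MemLp.of_le (conj_memLp hg) hF1.aestronglyMeasurable (Eventually.of_forall fun t => ?_)
    rw [hF]
    simp only [norm_mul]
    refine mul_le_of_le_one_right (norm_nonneg _) ?_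
    rw [Complex.norm_exp]
    have : (-((Real.pi : ℂ) * (t : ℂ) ^ 2)).re = -(Real.pi * t ^ 2) := by
      rw [Complex.neg_re]; norm_cast
    rw [this]
    apply Real.exp_le_one_iff.2
    have : 0 ≤ Real.pi * t ^ 2 := by positivity
    linarith
  have hfour : ∀ y : ℝ, 𝓕 F y = 0 := by
    intro y
    have e1 : 𝓕 F y = G g₁ ((-y : ℝ) * I) - G g₂ ((-y : ℝ) * I) := by
      rw [Real.fourier_eq]
      unfold G
      rw [← integral_sub (intG' h1 _) (intG' h2 _)]
      refine integral_congr_ae (Eventually.of_forall fun t => ?_)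
      have e : (Real.fourierChar (-(inner ℝ t y)) : ℂ) =
          cexp (2 * Real.pi * (((-y : ℝ) : ℂ) * I) * t) := by
        rw [Real.fourierChar_apply]
        congr 1
        simp
        ring
      show (Real.fourierChar (-(inner ℝ t y))) • F t = _
      rw [Circle.smul_def, e, smul_eq_mul]
      simp only [hF, map_sub]
      rw [Complex.exp_add]
      ring
    rw [e1, h, sub_self]
  have hpl := H153R4.plancherel F hF1 hF2
  have hz : ∫⁻ x, ‖F x‖ₑ ^ 2 = 0 := by
    rw [← hpl]; simp [hfour]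
  have hz2 := (lintegral_eq_zero_iff' (by
    exact (hF1.aestronglyMeasurable.enorm.pow_const 2))).1 hz
  filter_upwards [hz2] with t ht
  have h3 : F t = 0 := by
    have : ‖F t‖ₑ ^ 2 = 0 := ht
    simpa using this
  rw [hF] at h3
  have h4 : conj (g₁ t - g₂ t) = 0 := by
    rcases mul_eq_zero.1 h3 with h5 | h5
    · exact h5
    · exact absurd h5 (Complex.exp_ne_zero _)
  have h5 : g₁ t - g₂ t = 0 := (map_eq_zero (starRingEnd ℂ)).1 h4
  exact sub_eq_zero.1 h5

end

end Pool.Agent.R246.HermA
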