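import Mathlib
import Pool.Agent.R246.HermA

/-!
# Local reproducing formula: the kernel, rescaling and second order expansion
-/

namespace Pool.Agent.R246.HermB

open MeasureTheory Complex Filter Topology FourierTransform
open scoped ComplexConjugate
open HermA

noncomputable section

/-- disc in the time-frequency plane -/
def disc (z : ℝ × ℝ) (R : ℝ) : Set (ℝ × ℝ) :=
  {w | (w.1 - z.1) ^ 2 + (w.2 - z.2) ^ 2 < R ^ 2}

/-- kernel -/
def beta (g : ℝ → ℂ) (w : ℝ × ℝ) : ℂ :=
  ip (tf w g) g * cexp (-(Real.pi * I * w.1 * w.2) - Real.pi * (w.1 ^ 2 + w.2 ^ 2) / 2)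

lemma continuous_b {g : ℝ → ℂ} (hg : MemLp g 2 volume) :
    Continuous (fun w : ℝ × ℝ => ip (tf w g) g) := by
  -- translations
  let τ : ℝ → C(ℝ, ℝ) := fun x => ⟨fun t => t - x, by fun_prop⟩
  have hτ : Continuous τ := by
    refine ContinuousMap.continuous_of_continuous_uncurry _ ?_
    show Continuous fun p : ℝ × ℝ => p.2 - p.1
    fun_prop
  have hmp : ∀ x, MeasurePreserving (τ x) volume volume := fun x =>
    measurePreserving_sub_right volume x
  let T : ℝ → Lp ℂ 2 (volume : Measure ℝ) := fun x =>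
    Lp.compMeasurePreserving (τ x) (hmp x) (hg.toLp g)
  have hT : Continuous T :=
    (continuous_const (y := hg.toLp g)).compMeasurePreservingLp hτ hmp (by norm_num)
  have hTx : ∀ x, (T x : ℝ → ℂ) =ᵐ[volume] fun t => g (t - x) := by
    intro x
    have h1 := Lp.coeFn_compMeasurePreserving (hg.toLp g) (hmp x)
    have h2 := (hmp x).quasiMeasurePreserving.ae_eq_comp hg.coeFn_toLp
    exact h1.trans h2
  have hmem : ∀ x, MemLp (fun t => g (t - x)) 2 volume := fun x =>
    hg.comp_measurePreserving (measurePreserving_sub_right volume x)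
  rw [continuous_iff_continuousAt]
  intro w₀
  -- the function `h`
  set h : ℝ → ℂ := fun t => g (t - w₀.1) * conj (g t) with hh
  have hhi : Integrable h := (hmem w₀.1).integrable_mul (conj_memLp hg)
  have hfour : Continuous (𝓕 h) :=
    VectorFourier.fourierIntegral_continuous (L := innerₗ ℝ) Real.continuous_fourierChar
      continuous_inner hhi
  -- integrability of terms
  have hexp : ∀ ξ : ℝ, ∀ F : ℝ → ℂ, Integrable F →
      Integrable fun t : ℝ => cexp (2 * Real.pi * I * ξ * t) * F t := by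
    intro ξ F hF
    refine hF.bdd_mul (c := 1) (Continuous.aestronglyMeasurable (by fun_prop))
      (Eventually.of_forall fun t => ?_)
    rw [Complex.norm_exp]
    have : (2 * (Real.pi : ℂ) * I * ξ * t).re = 0 := by
      have : 2 * (Real.pi : ℂ) * I * ξ * t = ((2 * Real.pi * ξ * t : ℝ) : ℂ) * I := by
        push_cast; ring
      rw [this]; simp
    rw [this]; simp
  have e1 : ∀ w : ℝ × ℝ, ip (tf w g) g =
      (∫ t : ℝ, cexp (2 * Real.pi * I * w.2 * t) * ((g (t - w.1) - g (t - w₀.1)) * conj (g t))) +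
        𝓕 h (-w.2) := by
    intro w
    rw [Real.fourier_eq]
    have h3 : Integrable fun t : ℝ => cexp (2 * Real.pi * I * w.2 * t) *
        ((g (t - w.1) - g (t - w₀.1)) * conj (g t)) :=
      hexp _ _ (((hmem w.1).sub (hmem w₀.1)).integrable_mul (conj_memLp hg))
    have h4 : ∫ t, (Real.fourierChar (-(inner ℝ t (-w.2)))) • h t =
        ∫ t : ℝ, cexp (2 * Real.pi * I * w.2 * t) * h t := by
      refine integral_congr_ae (Eventually.of_forall fun t => ?_)
      show (Real.fourierChar (-(inner ℝ t (-w.2)))) • h t = _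
      rw [Circle.smul_def, Real.fourierChar_apply, smul_eq_mul]
      congr 2
      simp
      ring
    rw [h4, ← integral_add h3 (hexp _ _ hhi)]
    refine integral_congr_ae (Eventually.of_forall fun t => ?_)
    simp only [tf, hh]
    ring
  have e2 : ∀ w : ℝ × ℝ, ‖∫ t : ℝ, cexp (2 * Real.pi * I * w.2 * t) *
      ((g (t - w.1) - g (t - w₀.1)) * conj (g t))‖ ≤ ‖hg.toLp g‖ * ‖T w.1 - T w₀.1‖ := by
    intro w
    have hu : MemLp (fun t : ℝ => cexp (-(2 * Real.pi * I * w.2 * t)) * g t) 2 volume := by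
      refine MemLp.of_le hg ((Continuous.aestronglyMeasurable (by fun_prop)).mul hg.1)
        (Eventually.of_forall fun t => ?_)
      rw [norm_mul, Complex.norm_exp]
      have : (-(2 * (Real.pi : ℂ) * I * w.2 * t)).re = 0 := by
        have : -(2 * (Real.pi : ℂ) * I * w.2 * t) = ((-(2 * Real.pi * w.2 * t) : ℝ) : ℂ) * I := by
          push_cast; ring
        rw [this]; simp
      rw [this]; simp
    have hn : ‖hu.toLp _‖ = ‖hg.toLp g‖ := by
      rw [Lp.norm_toLp, Lp.norm_toLp]
      congr 1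
      refine eLpNorm_congr_norm_ae (Eventually.of_forall fun t => ?_)
      rw [norm_mul, Complex.norm_exp]
      have : (-(2 * (Real.pi : ℂ) * I * w.2 * t)).re = 0 := by
        have : -(2 * (Real.pi : ℂ) * I * w.2 * t) = ((-(2 * Real.pi * w.2 * t) : ℝ) : ℂ) * I := by
          push_cast; ring
        rw [this]; simp
      rw [this]; simp
    have hi : ∫ t : ℝ, cexp (2 * Real.pi * I * w.2 * t) *
      ((g (t - w.1) - g (t - w₀.1)) * conj (g t)) = inner ℂ (hu.toLp _) (T w.1 - T w₀.1) := by
      rw [L2.inner_def]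
      refine integral_congr_ae ?_
      filter_upwards [hu.coeFn_toLp, hTx w.1, hTx w₀.1, Lp.coeFn_sub (T w.1) (T w₀.1)]
        with t h5 h6 h7 h8
      rw [h8, h5, Pi.sub_apply, h6, h7, RCLike.inner_apply, map_mul, ← Complex.exp_conj]
      simp only [map_neg, map_mul, Complex.conj_I, Complex.conj_ofReal, map_ofNat]
      have : -(2 * (Real.pi : ℂ) * -I * w.2 * t) = 2 * Real.pi * I * w.2 * t := by ring
      rw [this]; ring
    rw [hi, ← hn]
    exact norm_inner_le_norm _ _
  have e3 : ContinuousAt (fun w : ℝ × ℝ => ∫ t : ℝ, cexp (2 * Real.pi * I * w.2 * t) *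
      ((g (t - w.1) - g (t - w₀.1)) * conj (g t))) w₀ := by
    have h0 : ∫ t : ℝ, cexp (2 * Real.pi * I * w₀.2 * t) *
      ((g (t - w₀.1) - g (t - w₀.1)) * conj (g t)) = 0 := by simp
    rw [ContinuousAt, h0]
    refine squeeze_zero_norm e2 ?_
    have : Continuous fun w : ℝ × ℝ => ‖hg.toLp g‖ * ‖T w.1 - T w₀.1‖ :=
      continuous_const.mul ((hT.comp continuous_fst).sub continuous_const).norm
    have h1 := this.tendsto w₀
    simpa using h1
  have e4 : (fun w : ℝ × ℝ => ip (tf w g) g) = fun w : ℝ × ℝ =>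
      (∫ t : ℝ, cexp (2 * Real.pi * I * w.2 * t) * ((g (t - w.1) - g (t - w₀.1)) * conj (g t))) +
        𝓕 h (-w.2) := funext e1
  rw [e4]
  exact e3.add (hfour.comp (continuous_snd.neg)).continuousAt

lemma continuous_beta {g : ℝ → ℂ} (hg : MemLp g 2 volume) : Continuous (beta g) := by
  refine (continuous_b hg).mul ?_
  fun_prop

lemma beta_neg (g : ℝ → ℂ) (w : ℝ × ℝ) : beta g (-w) = conj (beta g w) := by
  have h1 : ip (tf (-w) g) g = cexp (2 * Real.pi * I * w.1 * w.2) * conj (ip (tf w g) g) := by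
    unfold ip
    rw [← integral_sub_right_eq_self (fun t => tf (-w) g t * conj (g t)) w.1, ← integral_conj,
      ← integral_const_mul]
    refine integral_congr_ae (Eventually.of_forall fun t => ?_)
    simp only [tf, Prod.fst_neg, Prod.snd_neg, sub_neg_eq_add, sub_add_cancel, map_mul,
      Complex.conj_conj]
    rw [← Complex.exp_conj]
    simp only [map_mul, Complex.conj_I, Complex.conj_ofReal, map_ofNat]
    have e : ∀ a b c d x : ℂ, x * (a * b * c) = (x * a) * (c * b) := by intros; ring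
    rw [e _ _ _ 0 _, ← Complex.exp_add]
    rw [mul_assoc (cexp _) (g t)]
    congr 2
    push_cast
    ring
  unfold beta
  rw [h1, map_mul, ← Complex.exp_conj]
  simp only [map_mul, map_sub, map_neg, map_add, map_div₀, map_pow, Complex.conj_I,
    Complex.conj_ofReal, map_ofNat, Prod.fst_neg, Prod.snd_neg]
  rw [mul_comm (cexp _) (conj _), mul_assoc, ← Complex.exp_add]
  congr 2
  push_cast
  ring

lemma beta_zero (g : ℝ → ℂ) : beta g 0 = ((∫ t, ‖g t‖ ^ 2 : ℝ) : ℂ) := by
  unfold beta ip
  rw [← integral_complex_ofReal]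
  have : cexp (-(Real.pi * I * ((0 : ℝ × ℝ).1 : ℂ) * ((0 : ℝ × ℝ).2 : ℂ)) -
      Real.pi * (((0 : ℝ × ℝ).1 : ℂ) ^ 2 + ((0 : ℝ × ℝ).2 : ℂ) ^ 2) / 2) = 1 := by simp
  rw [this, mul_one]
  refine integral_congr_ae (Eventually.of_forall fun t => ?_)
  simp only [tf, Prod.fst_zero, Prod.snd_zero, sub_zero, Complex.ofReal_zero, mul_zero, zero_mul,
    Complex.exp_zero, one_mul]
  rw [Complex.mul_conj, Complex.normSq_eq_norm_sq]

lemma om_neg (w : ℝ × ℝ) : om (-w) = -om w := by
  simp [om]; ring

lemma om_smul (R : ℝ) (w : ℝ × ℝ) : om (R • w) = R * om w := by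
  simp [om]; ring

lemma continuous_om : Continuous om := by unfold om; fun_prop

lemma om_surj (z : ℂ) : om (z.re, z.im) = z := by
  simp [om, Complex.re_add_im]

/-- The local reproducing formula at the origin in terms of the Bargmann transform. -/
lemma star {g : ℝ → ℂ} (R : ℝ) (C : ℂ)
    (h : ∀ f : ℝ → ℂ, MemLp f 2 volume →
      C * ip f (tf 0 g) = ∫ w in disc 0 R, ip (tf w g) (tf 0 g) * ip f (tf w g)) (z : ℂ) :
    C * B g z = ∫ w in disc 0 R, beta g w *
      (cexp (Real.pi * z * conj (om w)) * B g (z - om w)) := by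
  set ζ : ℝ × ℝ := (z.re, z.im) with hζ
  have hz : om ζ = z := om_surj z
  have hf : MemLp (tf ζ gauss) 2 volume := by
    have := memLp_quad (2 * Real.pi * ζ.1 + 2 * Real.pi * I * ζ.2) (-(Real.pi * ζ.1 ^ 2))
    refine (memLp_congr_ae (Eventually.of_forall fun t => ?_)).1 this
    simp only [tf, gauss]
    rw [← Complex.exp_add]
    congr 1
    push_cast
    ring
  have h1 := h _ hf
  have htf : tf 0 g = g := by
    funext t; simp [tf]
  rw [htf] at h1
  have h2 : ip (tf ζ gauss) g = cexp (-(Real.pi * ζ.1 ^ 2)) * G g z := by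
    have := stft_gauss g ζ 0
    rw [htf] at this
    rw [this, hz]
    have h0 : om 0 = 0 := by simp [om]
    rw [h0, sub_zero]
    congr 2
    simp
  rw [h2] at h1
  set K : ℂ := cexp (Real.pi * ζ.1 ^ 2 - Real.pi * z ^ 2 / 2) with hK
  have h3 : C * B g z = K * (C * (cexp (-(Real.pi * ζ.1 ^ 2)) * G g z)) := by
    unfold B
    have : cexp (-(Real.pi * z ^ 2 / 2)) = K * cexp (-(Real.pi * ζ.1 ^ 2)) := by
      rw [hK, ← Complex.exp_add]; congr 1; ring
    rw [this]; ring
  rw [h3, h1, ← integral_const_mul]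
  refine integral_congr_ae (Eventually.of_forall fun w => ?_)
  simp only []
  rw [stft_gauss, hz]
  unfold beta B
  have h4 : K * cexp (2 * Real.pi * I * (ζ.2 - w.2) * w.1 - Real.pi * (ζ.1 - w.1) ^ 2) =
      cexp (-(Real.pi * I * w.1 * w.2) - Real.pi * (w.1 ^ 2 + w.2 ^ 2) / 2) *
        (cexp (Real.pi * z * conj (om w)) * cexp (-(Real.pi * (z - om w) ^ 2 / 2))) := by
    rw [hK, ← Complex.exp_add, ← Complex.exp_add, ← Complex.exp_add]
    congr 1
    rw [← hz]
    simp only [om, map_add, map_mul, Complex.conj_I, Complex.conj_ofReal]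
    have hI : I ^ 2 = -1 := Complex.I_sq
    ring_nf
    simp only [hI]
    ring
  calc K * (ip (tf w g) g * (cexp (2 * Real.pi * I * (ζ.2 - w.2) * w.1 -
        Real.pi * (ζ.1 - w.1) ^ 2) * G g (z - om w))) =
      ip (tf w g) g * ((K * cexp (2 * Real.pi * I * (ζ.2 - w.2) * w.1 -
        Real.pi * (ζ.1 - w.1) ^ 2)) * G g (z - om w)) := by ring
    _ = _ := by rw [h4]; ring

end

end Pool.Agent.R246.HermB
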