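import Mathlib
import Pool.Agent.R246.HermB

/-!
# Second order expansion of the local reproducing formula
-/

namespace Pool.Agent.R246.HermC

open MeasureTheory Complex Filter Topology
open scoped ComplexConjugate Pointwise
open HermA HermB

noncomputable section

/-- second order Taylor expansion of an entire function with entire remainder -/
lemma exists_taylor {F : ℂ → ℂ} (hF : Differentiable ℂ F) :
    ∃ H : ℂ → ℂ, Continuous H ∧ ∀ u, F u = F 0 + u * deriv F 0 + u ^ 2 * H u := by
  have h1 : Differentiable ℂ (dslope F 0) := by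
    rw [← differentiableOn_univ, Complex.differentiableOn_dslope univ_mem]
    exact hF.differentiableOn
  have h2 : Differentiable ℂ (dslope (dslope F 0) 0) := by
    rw [← differentiableOn_univ, Complex.differentiableOn_dslope univ_mem]
    exact h1.differentiableOn
  refine ⟨dslope (dslope F 0) 0, h2.continuous, fun u => ?_⟩
  have e1 : F u = F 0 + u * dslope F 0 u := by
    have := sub_smul_dslope F 0 u
    rw [sub_zero, smul_eq_mul] at this
    rw [this]; ring
  have e2 : dslope F 0 u = deriv F 0 + u * dslope (dslope F 0) 0 u := by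
    have := sub_smul_dslope (dslope F 0) 0 u
    rw [sub_zero, smul_eq_mul, dslope_same] at this
    rw [this]; ring
  rw [e1, e2]; ring

abbrev D : Measure (ℝ × ℝ) := volume.restrict (disc 0 1)

lemma disc_sub : disc 0 1 ⊆ Metric.closedBall (0 : ℝ × ℝ) 1 := by
  intro w hw
  simp only [disc, Prod.fst_zero, Prod.snd_zero, sub_zero, one_pow, Set.mem_ofPred_eq] at hw
  rw [Metric.mem_closedBall, dist_zero_right, Prod.norm_def, Real.norm_eq_abs, Real.norm_eq_abs]
  refine max_le ?_ ?_
  · rw [← sq_le_one_iff_abs_le_one]; nlinarith [sq_nonneg w.2]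
  · rw [← sq_le_one_iff_abs_le_one]; nlinarith [sq_nonneg w.1]

lemma isOpen_disc (R : ℝ) : IsOpen (disc 0 R) := by
  unfold disc
  exact isOpen_lt (by fun_prop) (by fun_prop)

instance : IsFiniteMeasure D := ⟨by
  rw [Measure.restrict_apply_univ]
  exact (measure_mono disc_sub).trans_lt measure_closedBall_lt_top⟩

lemma int_D {F : ℝ × ℝ → ℂ} (hF : Continuous F) : Integrable F D :=
  (hF.continuousOn.integrableOn_compact (isCompact_closedBall (0 : ℝ × ℝ) 1)).mono_set disc_sub

/-- continuity of parametric integrals over the unit disc -/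
lemma cont_D {F : ℝ → ℝ × ℝ → ℂ} (hF : Continuous (Function.uncurry F)) :
    Continuous fun R => ∫ w, F R w ∂D := by
  have h := continuous_parametric_integral_of_continuous (μ := D) hF
    (isCompact_closedBall (0 : ℝ × ℝ) 1)
  have e : D.restrict (Metric.closedBall (0 : ℝ × ℝ) 1) = D := by
    rw [Measure.restrict_restrict Metric.isClosed_closedBall.measurableSet,
      Set.inter_eq_self_of_subset_right disc_sub]
  rw [e] at h
  exact h

/-- rotation by a right angle -/
lemma int_rot (F : ℝ × ℝ → ℂ) : ∫ w, F (-w.2, w.1) ∂D = ∫ w, F w ∂D := by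
  have h1 : MeasurePreserving (fun w : ℝ × ℝ => (-w.2, w.1)) volume volume := by
    have a := (Measure.measurePreserving_neg (volume : Measure ℝ)).prod
      (MeasurePreserving.id (volume : Measure ℝ))
    have b := Measure.measurePreserving_swap (μ := (volume : Measure ℝ))
      (ν := (volume : Measure ℝ))
    exact a.comp b
  have h2 : MeasurableEmbedding (fun w : ℝ × ℝ => (-w.2, w.1)) := by
    have : (fun w : ℝ × ℝ => (-w.2, w.1)) =
        ((Homeomorph.neg ℝ).prodCongr (Homeomorph.refl ℝ)) ∘ (Homeomorph.prodComm ℝ ℝ) := by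
      funext w; rfl
    rw [this]
    exact (Homeomorph.measurableEmbedding _).comp (Homeomorph.measurableEmbedding _)
  have h3 := h1.setIntegral_preimage_emb h2 F (disc 0 1)
  have h4 : (fun w : ℝ × ℝ => (-w.2, w.1)) ⁻¹' (disc 0 1) = disc 0 1 := by
    ext w
    simp only [disc, Set.mem_preimage, Prod.fst_zero, Prod.snd_zero, sub_zero, Set.mem_ofPred_eq]
    rw [neg_sq, add_comm]
  rw [h4] at h3
  exact h3

/-- symmetry under the point reflection -/
lemma int_neg (F : ℝ × ℝ → ℂ) : ∫ w, F (-w) ∂D = ∫ w, F w ∂D := by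
  rw [← int_rot F, ← int_rot (fun w => F (-w.2, w.1))]
  refine integral_congr_ae (Eventually.of_forall fun w => ?_)
  rfl

lemma om_rot (w : ℝ × ℝ) : om (-w.2, w.1) = I * om w := by
  simp only [om]
  push_cast
  have : I * (w.1 + w.2 * I) = I ^ 2 * w.2 + w.1 * I := by ring
  rw [this, Complex.I_sq]; ring

lemma int_sq : ∫ w, om w ^ 2 ∂D = 0 := by
  have h := int_rot (fun w => om w ^ 2)
  have e : ∀ w : ℝ × ℝ, om (-w.2, w.1) ^ 2 = -(om w ^ 2) := by
    intro w; rw [om_rot, mul_pow, Complex.I_sq]; ring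
  simp only [e] at h
  rw [integral_neg] at h
  have h2 : (2 : ℂ) * ∫ w, om w ^ 2 ∂D = 0 := by linear_combination -h
  simpa using h2

lemma int_conj_sq : ∫ w, conj (om w) ^ 2 ∂D = 0 := by
  have h := congrArg conj int_sq
  rw [← integral_conj, map_zero] at h
  simpa using h

/-- the second moment of the disc -/
def K0 : ℝ := ∫ w, ‖om w‖ ^ 2 ∂D

lemma K0_pos : 0 < K0 := by
  have hc : Continuous fun w : ℝ × ℝ => ‖om w‖ ^ 2 := (continuous_om.norm).pow 2
  have hi : Integrable (fun w : ℝ × ℝ => ‖om w‖ ^ 2) D :=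
    (hc.continuousOn.integrableOn_compact (isCompact_closedBall (0 : ℝ × ℝ) 1)).mono_set disc_sub
  unfold K0
  rw [integral_pos_iff_support_of_nonneg (fun w => by positivity) hi]
  have hopen : IsOpen (Function.support fun w : ℝ × ℝ => ‖om w‖ ^ 2) := hc.isOpen_support
  rw [Measure.restrict_apply hopen.measurableSet]
  refine (hopen.inter (isOpen_disc 1)).measure_pos _ ⟨(1 / 2, 0), ?_, ?_⟩
  · simp [om]
  · simp only [disc, Prod.fst_zero, Prod.snd_zero, sub_zero, Set.mem_ofPred_eq]; norm_num

lemma K0_eq : ∫ w, om w * conj (om w) ∂D = (K0 : ℂ) := by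
  unfold K0
  rw [← integral_complex_ofReal]
  refine integral_congr_ae (Eventually.of_forall fun w => ?_)
  simp only [Complex.mul_conj, Complex.normSq_eq_norm_sq]

/-- rescaling -/
lemma scale (F : ℝ × ℝ → ℂ) {R : ℝ} (hR : 0 < R) :
    ∫ w in disc 0 R, F w = (R : ℂ) ^ 2 * ∫ w, F (R • w) ∂D := by
  have h := Measure.setIntegral_comp_smul_of_pos (volume : Measure (ℝ × ℝ)) F (disc 0 1) hR
  have e : R • disc (0 : ℝ × ℝ) 1 = disc 0 R := by
    ext w
    rw [Set.mem_smul_set_iff_inv_smul_mem₀ hR.ne']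
    simp only [disc, Prod.fst_zero, Prod.snd_zero, sub_zero, Set.mem_ofPred_eq, Prod.smul_fst,
      Prod.smul_snd, smul_eq_mul, one_pow]
    have : (R⁻¹ * w.1) ^ 2 + (R⁻¹ * w.2) ^ 2 = (w.1 ^ 2 + w.2 ^ 2) / R ^ 2 := by
      field_simp
    rw [this, div_lt_one (by positivity)]
  have hfr : Module.finrank ℝ (ℝ × ℝ) = 2 := by simp
  rw [e, hfr] at h
  rw [h, Complex.real_smul]
  push_cast
  have : (R : ℂ) ≠ 0 := by exact_mod_cast hR.ne'
  field_simp

/-- second order expansion of the integrand -/
lemma exists_Psi {g : ℝ → ℂ} (hg : MemLp g 2 volume) (z : ℂ) :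
    ∃ (Ψ : ℝ × (ℝ × ℝ) → ℂ) (c1 c2 : ℂ), Continuous Ψ ∧
      (∀ (R : ℝ) (w : ℝ × ℝ), cexp (Real.pi * z * conj (om (R • w))) * B g (z - om (R • w)) =
        B g z + R * (Real.pi * z * B g z * conj (om w) - deriv (B g) z * om w) +
          R ^ 2 * Ψ (R, w)) ∧
      ∀ w, Ψ (0, w) = c1 * conj (om w) ^ 2 +
        (-(Real.pi * (z * deriv (B g) z))) * (om w * conj (om w)) + c2 * om w ^ 2 := by
  obtain ⟨E, hEc, hE⟩ := exists_taylor Complex.differentiable_exp
  obtain ⟨H, hHc, hH⟩ := exists_taylor (F := fun u => B g (z - u))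
    ((differentiable_B hg).comp (differentiable_id.const_sub z))
  have hdH : deriv (fun u => B g (z - u)) 0 = -deriv (B g) z := by
    rw [deriv_comp_const_sub]; simp
  simp only [Complex.exp_zero, Complex.deriv_exp, sub_zero, hdH] at hE hH
  refine ⟨fun p =>
    (Real.pi * z * conj (om p.2)) ^ 2 * E (Real.pi * z * (p.1 * conj (om p.2))) *
        B g (z - p.1 * om p.2)
      - Real.pi * z * (om p.2 * conj (om p.2)) * deriv (B g) z
      + om p.2 ^ 2 * H (p.1 * om p.2) * (1 + Real.pi * z * (p.1 * conj (om p.2))),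
    (Real.pi * z) ^ 2 * E 0 * B g z, H 0, ?_, ?_, ?_⟩
  · have o1 : Continuous fun p : ℝ × (ℝ × ℝ) => om p.2 := continuous_om.comp continuous_snd
    have o2 : Continuous fun p : ℝ × (ℝ × ℝ) => conj (om p.2) :=
      Complex.continuous_conj.comp o1
    have o3 : Continuous fun p : ℝ × (ℝ × ℝ) => (p.1 : ℂ) :=
      Complex.continuous_ofReal.comp continuous_fst
    have hBc := (differentiable_B hg).continuous
    refine Continuous.add (Continuous.sub ?_ ?_) ?_
    · refine Continuous.mul (Continuous.mul ((continuous_const.mul o2).pow 2)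
        (hEc.comp (continuous_const.mul (o3.mul o2)))) (hBc.comp (continuous_const.sub (o3.mul o1)))
    · exact (continuous_const.mul (o1.mul o2)).mul continuous_const
    · exact ((o1.pow 2).mul (hHc.comp (o3.mul o1))).mul
        (continuous_const.add (continuous_const.mul (o3.mul o2)))
  · intro R w
    rw [om_smul, map_mul, Complex.conj_ofReal]
    have e1 := hE (Real.pi * z * (R * conj (om w)))
    have e2 := hH (R * om w)
    simp only []
    set e := cexp (Real.pi * z * (R * conj (om w))) with he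
    set b := B g (z - R * om w) with hb
    have e3 : e * b = (1 + (Real.pi * z * (R * conj (om w)))) * b +
        (Real.pi * z * (R * conj (om w))) ^ 2 * E (Real.pi * z * (R * conj (om w))) * b := by
      rw [e1]; ring
    have e4 : (1 + (Real.pi * z * (R * conj (om w)))) * b =
        (1 + (Real.pi * z * (R * conj (om w)))) * (B g z + R * om w * -deriv (B g) z +
          (R * om w) ^ 2 * H (R * om w)) := by rw [← e2]
    rw [e3, e4]; ring
  · intro w
    simp only [Complex.ofReal_zero, zero_mul, mul_zero, sub_zero, add_zero]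
    ring

lemma int3 (a b c : ℂ) {F1 F2 F3 : ℝ × ℝ → ℂ} (h1 : Integrable F1 D) (h2 : Integrable F2 D)
    (h3 : Integrable F3 D) : ∫ w, (a * F1 w + b * F2 w + c * F3 w) ∂D =
      a * ∫ w, F1 w ∂D + b * ∫ w, F2 w ∂D + c * ∫ w, F3 w ∂D := by
  have h12 : Integrable (fun w => a * F1 w + b * F2 w) D := (h1.const_mul a).add (h2.const_mul b)
  rw [integral_add h12 (h3.const_mul c), integral_add (h1.const_mul a) (h2.const_mul b),
    integral_const_mul, integral_const_mul, integral_const_mul]

lemma int4 (a b c d : ℂ) {F1 F2 F3 F4 : ℝ × ℝ → ℂ} (h1 : Integrable F1 D) (h2 : Integrable F2 D)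
    (h3 : Integrable F3 D) (h4 : Integrable F4 D) :
    ∫ w, (a * F1 w + b * F2 w + c * F3 w + d * F4 w) ∂D =
      a * ∫ w, F1 w ∂D + b * ∫ w, F2 w ∂D + c * ∫ w, F3 w ∂D + d * ∫ w, F4 w ∂D := by
  have h123 : Integrable (fun w => a * F1 w + b * F2 w + c * F3 w) D :=
    ((h1.const_mul a).add (h2.const_mul b)).add (h3.const_mul c)
  rw [integral_add h123 (h4.const_mul d), int3 a b c h1 h2 h3, integral_const_mul]

/-- the main expansion -/
theorem expansion {g : ℝ → ℂ} (hg : MemLp g 2 volume)
    (h : ∀ R : ℝ, 0 < R → ∃ C : ℂ, ∀ f : ℝ → ℂ, MemLp f 2 volume →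
      C * ip f (tf 0 g) = ∫ w in disc 0 R, ip (tf w g) (tf 0 g) * ip f (tf w g)) :
    ∃ a q : ℕ → ℂ, ∀ z : ℂ, Tendsto (fun n => a n * B g z +
      Real.pi * conj (q n) * (z * B g z) + q n * deriv (B g) z) atTop
        (𝓝 (-(beta g 0 * Real.pi * K0) * (z * deriv (B g) z))) := by
  set r : ℕ → ℝ := fun n => 1 / ((n : ℝ) + 1) with hr
  have hr0 : ∀ n, 0 < r n := fun n => by positivity
  choose C hC using fun n => h (r n) (hr0 n)
  have hstar : ∀ n z, C n * B g z = (r n : ℂ) ^ 2 * ∫ w, beta g (r n • w) *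
      (cexp (Real.pi * z * conj (om (r n • w))) * B g (z - om (r n • w))) ∂D := by
    intro n z
    rw [star (r n) (C n) (hC n) z]
    exact scale _ (hr0 n)
  have hbc := continuous_beta hg
  have hoc : Continuous fun w : ℝ × ℝ => conj (om w) := Complex.continuous_conj.comp continuous_om
  -- moments
  obtain ⟨m0, hm0⟩ : ∃ m0 : ℕ → ℂ, ∀ n, ∫ w, beta g (r n • w) ∂D = m0 n := ⟨_, fun n => rfl⟩
  obtain ⟨m1, hm1'⟩ : ∃ m1 : ℕ → ℂ, ∀ n, ∫ w, beta g (r n • w) * om w ∂D = m1 n :=
    ⟨_, fun n => rfl⟩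
  have hm1 : ∀ n, ∫ w, beta g (r n • w) * conj (om w) ∂D = -conj (m1 n) := by
    intro n
    rw [← hm1', ← integral_conj, ← int_neg, ← integral_neg]
    refine integral_congr_ae (Eventually.of_forall fun w => ?_)
    simp only [smul_neg, beta_neg, om_neg, map_neg, map_mul, mul_neg]
  refine ⟨fun n => (C n / (r n) ^ 2 - m0 n) / (r n) ^ 2, fun n => m1 n / r n, fun z => ?_⟩
  obtain ⟨Ψ, c1, c2, hΨc, hpt, hΨ0⟩ := exists_Psi hg z
  -- the identity for the coefficients
  have hid : ∀ n, (C n / (r n : ℂ) ^ 2 - m0 n) / (r n : ℂ) ^ 2 * B g z +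
      Real.pi * conj (m1 n / r n) * (z * B g z) + m1 n / r n * deriv (B g) z =
      ∫ w, beta g (r n • w) * Ψ (r n, w) ∂D := by
    intro n
    have hrc : (r n : ℂ) ≠ 0 := by exact_mod_cast (hr0 n).ne'
    have hs : Continuous fun w : ℝ × ℝ => beta g (r n • w) :=
      hbc.comp (continuous_const_smul (r n))
    have hΨn : Continuous (fun w : ℝ × ℝ => Ψ (r n, w)) := hΨc.comp (by fun_prop)
    have e1 : ∫ w, beta g (r n • w) *
        (cexp (Real.pi * z * conj (om (r n • w))) * B g (z - om (r n • w))) ∂D =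
        B g z * m0 n + (r n * (Real.pi * z * B g z) * (-conj (m1 n)) -
          r n * deriv (B g) z * m1 n) + r n ^ 2 * ∫ w, beta g (r n • w) * Ψ (r n, w) ∂D := by
      have i1 : Integrable (fun w => beta g (r n • w)) D := int_D hs
      have i2 : Integrable (fun w => beta g (r n • w) * conj (om w)) D := int_D (hs.mul hoc)
      have i3 : Integrable (fun w => beta g (r n • w) * om w) D := int_D (hs.mul continuous_om)
      have i4 : Integrable (fun w => beta g (r n • w) * Ψ (r n, w)) D := int_D (hs.mul hΨn)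
      have k1 : ∫ w, beta g (r n • w) *
        (cexp (Real.pi * z * conj (om (r n • w))) * B g (z - om (r n • w))) ∂D =
        ∫ w, (B g z * beta g (r n • w) + ((r n : ℂ) * (Real.pi * z * B g z)) *
          (beta g (r n • w) * conj (om w)) + (-((r n : ℂ) * deriv (B g) z)) *
          (beta g (r n • w) * om w) + (r n : ℂ) ^ 2 * (beta g (r n • w) * Ψ (r n, w))) ∂D := by
        refine integral_congr_ae (Eventually.of_forall fun w => ?_)
        simp only [hpt]
        ring
      rw [k1, int4 _ _ _ _ i1 i2 i3 i4, hm0, hm1, hm1']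
      ring
    have e2 := hstar n z
    rw [e1] at e2
    rw [map_div₀, Complex.conj_ofReal]
    field_simp
    linear_combination e2
  simp only [hid]
  -- the limit
  have hcont : Continuous fun R : ℝ => ∫ w, beta g (R • w) * Ψ (R, w) ∂D := by
    refine cont_D ?_
    exact (hbc.comp (continuous_fst.smul continuous_snd)).mul hΨc
  have hlim0 : ∫ w, beta g ((0 : ℝ) • w) * Ψ (0, w) ∂D =
      -(beta g 0 * Real.pi * K0) * (z * deriv (B g) z) := by
    have e1 : ∀ w : ℝ × ℝ, beta g ((0 : ℝ) • w) * Ψ (0, w) =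
        (beta g 0 * c1) * conj (om w) ^ 2 +
        (beta g 0 * (-(Real.pi * (z * deriv (B g) z)))) * (om w * conj (om w)) +
        (beta g 0 * c2) * om w ^ 2 := by
      intro w
      rw [hΨ0, zero_smul]
      ring
    simp only [e1]
    have i1 : Integrable (fun w => conj (om w) ^ 2) D := int_D (hoc.pow 2)
    have i2 : Integrable (fun w => om w * conj (om w)) D := int_D (continuous_om.mul hoc)
    have i3 : Integrable (fun w => om w ^ 2) D := int_D (continuous_om.pow 2)
    rw [int3 _ _ _ i1 i2 i3, int_conj_sq, int_sq, K0_eq]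
    ring
  rw [← hlim0]
  exact (hcont.tendsto 0).comp tendsto_one_div_add_atTop_nhds_zero_nat

end

end Pool.Agent.R246.HermC
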