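import Mathlib
import Pool.Agent.R246.HermA

/-!
# The first order equation for the Bargmann transform
-/

namespace Pool.Agent.R246.HermD

open MeasureTheory Complex Filter Topology FourierTransform
open scoped ComplexConjugate
open HermA

noncomputable section

/-- subsequence lemma -/
lemma exists_relation (b b' L : ℂ → ℂ) (z₁ : ℂ) (hz₁ : b z₁ ≠ 0) (a q : ℕ → ℂ)
    (h : ∀ z, Tendsto (fun n => a n * b z + Real.pi * conj (q n) * (z * b z) + q n * b' z) atTop
      (𝓝 (L z))) :
    ∃ (a₀ q₀ : ℂ) (θ : ℝ), 0 ≤ θ ∧ (0 < θ ∨ ‖q₀‖ = 1) ∧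
      ∀ z, a₀ * b z + Real.pi * conj q₀ * (z * b z) + q₀ * b' z = θ * L z := by
  let m : ℕ → ℝ := fun n => max 1 ‖q n‖
  have hm1 : ∀ n, 1 ≤ m n := fun n => le_max_left _ _
  have hm0 : ∀ n, 0 < m n := fun n => lt_of_lt_of_le one_pos (hm1 n)
  have hmq : ∀ n, ‖q n‖ ≤ m n := fun n => le_max_right _ _
  -- bound for the convergent sequence at `z₁`
  obtain ⟨M, hM⟩ := (h z₁).norm.bddAbove_range
  have hM' : ∀ n, ‖a n * b z₁ + Real.pi * conj (q n) * (z₁ * b z₁) + q n * b' z₁‖ ≤ M :=
    fun n => hM ⟨n, rfl⟩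
  have hM0 : 0 ≤ M := (norm_nonneg _).trans (hM' 0)
  set Q : ℝ := ‖(Real.pi : ℂ) * (z₁ * b z₁)‖ + ‖b' z₁‖ with hQ
  have hab : ∀ n, ‖a n / m n‖ ≤ (M + Q) / ‖b z₁‖ := by
    intro n
    have hb : 0 < ‖b z₁‖ := norm_pos_iff.2 hz₁
    rw [norm_div, Complex.norm_real, Real.norm_eq_abs, abs_of_pos (hm0 n), div_le_div_iff₀ (hm0 n) hb]
    have e1 : a n * b z₁ = (a n * b z₁ + Real.pi * conj (q n) * (z₁ * b z₁) + q n * b' z₁) -
        conj (q n) * (Real.pi * (z₁ * b z₁)) - q n * b' z₁ := by ring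
    rw [← norm_mul, e1]
    refine (norm_sub_le _ _).trans ?_
    refine (add_le_add_left (norm_sub_le _ _) _).trans ?_
    rw [norm_mul (conj (q n)), RCLike.norm_conj, norm_mul (q n)]
    have f1 : ‖q n‖ * ‖(Real.pi : ℂ) * (z₁ * b z₁)‖ ≤ m n * ‖(Real.pi : ℂ) * (z₁ * b z₁)‖ :=
      mul_le_mul_of_nonneg_right (hmq n) (norm_nonneg _)
    have f2 : ‖q n‖ * ‖b' z₁‖ ≤ m n * ‖b' z₁‖ :=
      mul_le_mul_of_nonneg_right (hmq n) (norm_nonneg _)
    have f3 : M ≤ m n * M := le_mul_of_one_le_left hM0 (hm1 n)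
    have f4 := hM' n
    rw [hQ]
    nlinarith
  let x : ℕ → ℂ × (ℂ × ℝ) := fun n => (a n / m n, (q n / m n, 1 / m n))
  have hx : ∀ n, x n ∈ Metric.closedBall (0 : ℂ × (ℂ × ℝ)) (max ((M + Q) / ‖b z₁‖) 1) := by
    intro n
    rw [Metric.mem_closedBall, dist_zero_right]
    simp only [x, Prod.norm_def]
    refine max_le ((hab n).trans (le_max_left _ _)) (le_trans ?_ (le_max_right _ _))
    refine max_le ?_ ?_
    · rw [norm_div, Complex.norm_real, Real.norm_eq_abs, abs_of_pos (hm0 n),
        div_le_one (hm0 n)]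
      exact hmq n
    · rw [norm_div, norm_one, Real.norm_eq_abs, abs_of_pos (hm0 n), div_le_one (hm0 n)]
      exact hm1 n
  obtain ⟨⟨a₀, q₀, θ⟩, -, φ, hφ, hlim⟩ :=
    tendsto_subseq_of_bounded Metric.isBounded_closedBall hx
  have ha : Tendsto (fun n => a (φ n) / m (φ n)) atTop (𝓝 a₀) :=
    (continuous_fst.tendsto _).comp hlim
  have hq : Tendsto (fun n => q (φ n) / m (φ n)) atTop (𝓝 q₀) :=
    ((continuous_fst.comp continuous_snd).tendsto _).comp hlim
  have hθ : Tendsto (fun n => 1 / m (φ n)) atTop (𝓝 θ) :=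
    ((continuous_snd.comp continuous_snd).tendsto _).comp hlim
  have hθ0 : 0 ≤ θ := ge_of_tendsto hθ (Eventually.of_forall fun n => by
    have := hm0 (φ n); positivity)
  refine ⟨a₀, q₀, θ, hθ0, ?_, ?_⟩
  · rcases hθ0.lt_or_eq with h0 | h0
    · exact Or.inl h0
    · right
      rw [← h0] at hθ
      have h1 : ∀ᶠ n in atTop, 1 / m (φ n) < 1 := hθ.eventually_lt_const one_pos
      have h2 : (fun n => ‖q (φ n) / m (φ n)‖) =ᶠ[atTop] fun _ => (1 : ℝ) := by
        filter_upwards [h1] with n hn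
        have h3 : 1 < m (φ n) := by
          rwa [div_lt_one (hm0 _)] at hn
        have h4 : m (φ n) = ‖q (φ n)‖ := by
          rcases max_cases (1 : ℝ) ‖q (φ n)‖ with ⟨h5, _⟩ | ⟨h5, _⟩
          · simp only [m] at h3 ⊢
            rw [h5] at h3
            exact absurd h3 (lt_irrefl _)
          · exact h5
        rw [norm_div, Complex.norm_real, Real.norm_eq_abs, abs_of_pos (hm0 _), ← h4,
          div_self (hm0 _).ne']
      exact tendsto_nhds_unique hq.norm ((tendsto_congr' h2).2 tendsto_const_nhds)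
  · intro z
    have h1 : Tendsto (fun n => a (φ n) / m (φ n) * b z +
        Real.pi * conj (q (φ n) / m (φ n)) * (z * b z) + q (φ n) / m (φ n) * b' z) atTop
        (𝓝 (a₀ * b z + Real.pi * conj q₀ * (z * b z) + q₀ * b' z)) := by
      refine Tendsto.add (Tendsto.add (ha.mul_const _) ?_) (hq.mul_const _)
      exact (((Complex.continuous_conj.tendsto _).comp hq).const_mul _).mul_const _
    have h2 : Tendsto (fun n => ((1 / m (φ n) : ℝ) : ℂ) * (a (φ n) * b z +
        Real.pi * conj (q (φ n)) * (z * b z) + q (φ n) * b' z)) atTop (𝓝 (θ * L z)) :=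
      ((Complex.continuous_ofReal.tendsto _).comp hθ).mul ((h z).comp hφ.tendsto_atTop)
    refine tendsto_nhds_unique h1 (h2.congr fun n => ?_)
    have : (m (φ n) : ℂ) ≠ 0 := by exact_mod_cast (hm0 (φ n)).ne'
    rw [map_div₀, Complex.conj_ofReal]
    push_cast
    field_simp

/-- decay of the Bargmann transform along lines -/
lemma decay {g : ℝ → ℂ} (hg : MemLp g 2 volume) (e : ℂ) (he : ‖e‖ = 1) :
    Tendsto (fun s : ℝ => ‖B g (s * e)‖ * Real.exp (-(Real.pi * s ^ 2 / 2))) atTop (𝓝 0) := by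
  set x₀ := e.re with hx₀
  set y₀ := e.im with hy₀
  have hxy : x₀ ^ 2 + y₀ ^ 2 = 1 := by
    have := Complex.sq_norm e
    rw [he, Complex.normSq_apply] at this
    nlinarith
  have hee : e = x₀ + y₀ * I := (Complex.re_add_im e).symm
  have hform : ∀ s : ℝ, ‖B g (s * e)‖ * Real.exp (-(Real.pi * s ^ 2 / 2)) =
      ‖∫ t : ℝ, conj (g t) * cexp (-(Real.pi * (t - s * x₀) ^ 2) + 2 * Real.pi * s * y₀ * I * t)‖ := by
    intro s
    have h1 : Real.exp (-(Real.pi * s ^ 2 / 2)) = ‖cexp (-(Real.pi * s ^ 2 / 2) +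
        Real.pi * s ^ 2 * x₀ * y₀ * I)‖ := by
      rw [Complex.norm_exp]
      congr 1
      have : -((Real.pi : ℂ) * s ^ 2 / 2) + Real.pi * s ^ 2 * x₀ * y₀ * I =
          ((-(Real.pi * s ^ 2 / 2) : ℝ) : ℂ) + ((Real.pi * s ^ 2 * x₀ * y₀ : ℝ) : ℂ) * I := by
        push_cast; ring
      rw [this, Complex.add_re, Complex.ofReal_re, Complex.re_ofReal_mul, Complex.I_re, mul_zero,
        add_zero]
    rw [h1, ← norm_mul]
    congr 1
    unfold B G
    rw [mul_right_comm, ← Complex.exp_add, ← integral_const_mul]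
    refine integral_congr_ae (Eventually.of_forall fun t => ?_)
    simp only []
    rw [mul_left_comm, ← Complex.exp_add]
    congr 2
    have hxy' : (x₀ : ℂ) ^ 2 + (y₀ : ℂ) ^ 2 = 1 := by exact_mod_cast hxy
    rw [hee]
    have hI : I ^ 2 = -1 := Complex.I_sq
    linear_combination (Real.pi * (s : ℂ) ^ 2 / 2) * hxy' - (Real.pi * (s : ℂ) ^ 2 / 2 * (y₀ : ℂ) ^ 2) * hI
  simp only [hform]
  by_cases h0 : x₀ = 0
  · -- Riemann-Lebesgue
    have hy : y₀ ^ 2 = 1 := by rw [h0] at hxy; linarith
    have hy0 : y₀ ≠ 0 := by rintro h; rw [h] at hy; norm_num at hy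
    set F : ℝ → ℂ := fun t => conj (g t) * cexp (-(Real.pi * t ^ 2)) with hF
    have h1 : ∀ s : ℝ, ∫ t : ℝ, conj (g t) *
        cexp (-(Real.pi * (t - s * x₀) ^ 2) + 2 * Real.pi * s * y₀ * I * t) = 𝓕 F (-(s * y₀)) := by
      intro s
      rw [Real.fourier_eq]
      refine integral_congr_ae (Eventually.of_forall fun t => ?_)
      show conj (g t) * cexp (-(Real.pi * (t - s * x₀) ^ 2) + 2 * Real.pi * s * y₀ * I * t) =
        (Real.fourierChar (-(inner ℝ t (-(s * y₀))))) • F t
      rw [Circle.smul_def, Real.fourierChar_apply, smul_eq_mul, hF, h0]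
      simp only []
      rw [mul_left_comm, ← Complex.exp_add]
      congr 2
      simp
      ring
    simp only [h1]
    have h2 := Real.zero_at_infty_fourier F
    have h3 : Tendsto (fun s : ℝ => -(s * y₀)) atTop (cocompact ℝ) := by
      rcases lt_or_gt_of_ne hy0 with hneg | hpos
      · refine tendsto_id.atTop_mul_const (neg_pos.2 hneg) |> fun h => ?_
        have h4 : Tendsto (fun s : ℝ => -(s * y₀)) atTop atTop := by
          refine h.congr fun s => ?_
          simp
        exact h4.mono_right atTop_le_cocompact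
      · have h4 : Tendsto (fun s : ℝ => -(s * y₀)) atTop atBot :=
          tendsto_neg_atTop_atBot.comp (tendsto_id.atTop_mul_const hpos)
        exact h4.mono_right atBot_le_cocompact
    have h5 := (h2.comp h3).norm
    simpa using h5
  · -- dominated convergence
    set γ : ℝ → ℝ → ℝ := fun s t => Real.exp (-(Real.pi * (t - s * x₀) ^ 2)) with hγ
    have hγ1 : ∀ s t, γ s t ≤ 1 := by
      intro s t
      apply Real.exp_le_one_iff.2
      have : 0 ≤ Real.pi * (t - s * x₀) ^ 2 := by positivity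
      linarith
    have hγ0 : ∀ s t, 0 ≤ γ s t := fun s t => (Real.exp_pos _).le
    have hγi : ∀ s, Integrable (γ s) := by
      intro s
      have := (integrable_exp_neg_mul_sq Real.pi_pos).comp_sub_right (s * x₀)
      refine this.congr (Eventually.of_forall fun t => ?_)
      simp only [hγ]
      congr 1
      ring
    have hγint : ∀ s, ∫ t, γ s t = 1 := by
      intro s
      have h1 : ∫ t, γ s t = ∫ t : ℝ, Real.exp (-Real.pi * t ^ 2) := by
        rw [← integral_sub_right_eq_self (fun t : ℝ => Real.exp (-Real.pi * t ^ 2)) (s * x₀)]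
        refine integral_congr_ae (Eventually.of_forall fun t => ?_)
        simp only [hγ]
        congr 1
        ring
      rw [h1, integral_gaussian, div_self Real.pi_pos.ne', Real.sqrt_one]
    have hg2 : Integrable fun t => ‖g t‖ ^ 2 := hg.integrable_norm_pow (by norm_num)
    have hlim : Tendsto (fun s : ℝ => ∫ t, ‖g t‖ ^ 2 * γ s t) atTop (𝓝 0) := by
      have h1 : Tendsto (fun s : ℝ => ∫ t, ‖g t‖ ^ 2 * γ s t) atTop (𝓝 (∫ _ : ℝ, (0 : ℝ))) := by
        refine tendsto_integral_filter_of_dominated_convergence (fun t => ‖g t‖ ^ 2) ?_ ?_ hg2 ?_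
        · refine Eventually.of_forall fun s => ?_
          exact hg2.1.mul (hγi s).1
        · refine Eventually.of_forall fun s => Eventually.of_forall fun t => ?_
          rw [Real.norm_eq_abs, abs_of_nonneg (mul_nonneg (by positivity) (hγ0 s t))]
          exact mul_le_of_le_one_right (by positivity) (hγ1 s t)
        · refine Eventually.of_forall fun t => ?_
          have h2 : Tendsto (fun s : ℝ => γ s t) atTop (𝓝 0) := by
            simp only [hγ]
            refine Real.tendsto_exp_neg_atTop_nhds_zero.comp ?_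
            refine Tendsto.const_mul_atTop Real.pi_pos ?_
            have h3 : (fun s : ℝ => (t - s * x₀) ^ 2) = fun s : ℝ => |x₀| ^ 2 * |s - t / x₀| ^ 2 := by
              funext s
              rw [sq_abs, sq_abs, ← mul_pow]
              have : x₀ * (s - t / x₀) = s * x₀ - t := by field_simp
              rw [this]; ring
            rw [h3]
            refine Tendsto.const_mul_atTop (by positivity) ?_
            refine (tendsto_pow_atTop (by norm_num)).comp ?_
            exact tendsto_abs_atTop_atTop.comp (tendsto_atTop_add_const_right _ _ tendsto_id)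
          have := h2.const_mul (‖g t‖ ^ 2)
          simpa using this
      simpa using h1
    have hbound : ∀ ε : ℝ, 0 < ε → ∀ s : ℝ, ‖∫ t : ℝ, conj (g t) *
        cexp (-(Real.pi * (t - s * x₀) ^ 2) + 2 * Real.pi * s * y₀ * I * t)‖ ≤
        ε + 1 / (4 * ε) * ∫ t, ‖g t‖ ^ 2 * γ s t := by
      intro ε hε s
      have hgγ : Integrable fun t => ‖g t‖ ^ 2 * γ s t := by
        refine Integrable.mono' hg2 (hg2.1.mul (hγi s).1) (Eventually.of_forall fun t => ?_)
        rw [Real.norm_eq_abs, abs_of_nonneg (mul_nonneg (by positivity) (hγ0 s t))]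
        exact mul_le_of_le_one_right (by positivity) (hγ1 s t)
      refine (norm_integral_le_integral_norm _).trans ?_
      have h1 : ε + 1 / (4 * ε) * ∫ t, ‖g t‖ ^ 2 * γ s t =
          ∫ t, (ε * γ s t + 1 / (4 * ε) * (‖g t‖ ^ 2 * γ s t)) := by
        rw [integral_add ((hγi s).const_mul ε) (hgγ.const_mul _), integral_const_mul,
          integral_const_mul, hγint, mul_one]
      rw [h1]
      refine integral_mono_of_nonneg (Eventually.of_forall fun _ => norm_nonneg _)
        (((hγi s).const_mul ε).add (hgγ.const_mul _)) (Eventually.of_forall fun t => ?_)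
      show ‖conj (g t) * cexp (-(Real.pi * (t - s * x₀) ^ 2) + 2 * Real.pi * s * y₀ * I * t)‖ ≤
        ε * γ s t + 1 / (4 * ε) * (‖g t‖ ^ 2 * γ s t)
      rw [norm_mul, RCLike.norm_conj, Complex.norm_exp]
      have h2 : (-((Real.pi : ℂ) * ((t : ℂ) - s * x₀) ^ 2) + 2 * Real.pi * s * y₀ * I * t).re =
          -(Real.pi * (t - s * x₀) ^ 2) := by
        have : -((Real.pi : ℂ) * ((t : ℂ) - s * x₀) ^ 2) + 2 * Real.pi * s * y₀ * I * t =
            ((-(Real.pi * (t - s * x₀) ^ 2) : ℝ) : ℂ) + ((2 * Real.pi * s * y₀ * t : ℝ) : ℂ) * I := by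
          push_cast; ring
        rw [this, Complex.add_re, Complex.ofReal_re, Complex.re_ofReal_mul, Complex.I_re, mul_zero,
          add_zero]
      rw [h2]
      show ‖g t‖ * γ s t ≤ _
      have h3 : ‖g t‖ ≤ ε + 1 / (4 * ε) * ‖g t‖ ^ 2 := by
        have h4 : 0 ≤ (2 * ε - ‖g t‖) ^ 2 / (4 * ε) := by positivity
        have h5 : (2 * ε - ‖g t‖) ^ 2 / (4 * ε) = ε - ‖g t‖ + 1 / (4 * ε) * ‖g t‖ ^ 2 := by
          field_simp; ring
        linarith
      calc ‖g t‖ * γ s t ≤ (ε + 1 / (4 * ε) * ‖g t‖ ^ 2) * γ s t :=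
            mul_le_mul_of_nonneg_right h3 (hγ0 s t)
        _ = _ := by ring
    rw [Metric.tendsto_nhds]
    intro ε hε
    have h1 := (hlim.const_mul (1 / (4 * (ε / 2)))).eventually_lt_const
      (show 1 / (4 * (ε / 2)) * 0 < ε / 2 by rw [mul_zero]; positivity)
    filter_upwards [h1] with s hs
    rw [Real.dist_eq, sub_zero, abs_of_nonneg (norm_nonneg _)]
    have := hbound (ε / 2) (by positivity) s
    linarith

/-- the degenerate relation is impossible -/
lemma no_degenerate {g : ℝ → ℂ} (hg : MemLp g 2 volume) (z₁ : ℂ) (hz₁ : B g z₁ ≠ 0) (a q : ℂ)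
    (hq : ‖q‖ = 1)
    (h : ∀ z, a * B g z + Real.pi * conj q * (z * B g z) + q * deriv (B g) z = 0) : False := by
  have hq0 : q ≠ 0 := by rintro rfl; simp at hq
  have hqq : q * conj q = 1 := by
    rw [Complex.mul_conj, Complex.normSq_eq_norm_sq, hq]; simp
  have hBd := differentiable_B hg
  let P : ℂ → ℂ := fun z => B g z * cexp ((a * z + Real.pi * conj q * z ^ 2 / 2) / q)
  have hder : ∀ z, HasDerivAt P 0 z := by
    intro z
    have h1 : HasDerivAt (fun z : ℂ => (a * z + Real.pi * conj q * z ^ 2 / 2) / q)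
        ((a + Real.pi * conj q * z) / q) z := by
      have e1 := (hasDerivAt_id z).const_mul a
      have e2 := ((hasDerivAt_pow 2 z).const_mul ((Real.pi : ℂ) * conj q)).div_const 2
      have e3 := (e1.add e2).div_const q
      refine e3.congr_deriv ?_
      push_cast
      ring
    have h2 := (hBd z).hasDerivAt.mul h1.cexp
    refine h2.congr_deriv ?_
    have h3 := h z
    have h4 : deriv (B g) z = -(a * B g z + Real.pi * conj q * (z * B g z)) / q := by
      field_simp
      linear_combination h3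
    rw [h4]
    field_simp
    ring
  have hconst : ∀ z, P z = P 0 := by
    intro z
    exact is_const_of_deriv_eq_zero (fun z => (hder z).differentiableAt) (fun z => (hder z).deriv)
      z 0
  have hP0 : P 0 = B g 0 := by simp [P]
  have hB : ∀ z, B g z = B g 0 * cexp (-((a * z + Real.pi * conj q * z ^ 2 / 2) / q)) := by
    intro z
    have := hconst z
    rw [hP0] at this
    rw [← this]
    simp only [P]
    rw [mul_assoc, ← Complex.exp_add, add_neg_cancel, Complex.exp_zero, mul_one]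
  have hB0 : B g 0 ≠ 0 := by
    intro h0
    apply hz₁
    rw [hB, h0, zero_mul]
  -- choice of the sign
  obtain ⟨σ, hσ, hσa⟩ : ∃ σ : ℝ, σ ^ 2 = 1 ∧ 0 ≤ σ * a.im := by
    rcases le_total 0 a.im with h0 | h0
    · exact ⟨1, by norm_num, by linarith⟩
    · exact ⟨-1, by norm_num, by linarith⟩
  have hσn : |σ| = 1 := by
    have : |σ| ^ 2 = 1 := by rw [sq_abs, hσ]
    nlinarith [abs_nonneg σ]
  set e : ℂ := σ * I * q with he
  have hen : ‖e‖ = 1 := by
    rw [he, norm_mul, norm_mul, Complex.norm_I, hq, Complex.norm_real, Real.norm_eq_abs, hσn]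
    norm_num
  have hdec := decay hg e hen
  have hval : ∀ s : ℝ, ‖B g (s * e)‖ * Real.exp (-(Real.pi * s ^ 2 / 2)) =
      ‖B g 0‖ * Real.exp (s * (σ * a.im)) := by
    intro s
    rw [hB (s * e), norm_mul, Complex.norm_exp, mul_assoc, ← Real.exp_add]
    congr 2
    have e1 : -((a * (s * e) + Real.pi * conj q * (s * e) ^ 2 / 2) / q) =
        ((Real.pi * s ^ 2 / 2 : ℝ) : ℂ) - ((s * σ : ℝ) : ℂ) * (a * I) := by
      have hσ' : (σ : ℂ) ^ 2 = 1 := by exact_mod_cast hσ
      have e2 : (s * e) ^ 2 = -(s ^ 2 * q ^ 2) := by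
        rw [he, mul_pow, mul_pow, mul_pow, Complex.I_sq, hσ']; ring
      rw [e2, he]
      push_cast
      field_simp
      linear_combination ((s : ℂ) * Real.pi * s) * hqq
    rw [e1, Complex.sub_re, Complex.ofReal_re, Complex.re_ofReal_mul, Complex.mul_I_re]
    ring
  simp only [hval] at hdec
  have hle : ‖B g 0‖ ≤ 0 := by
    refine ge_of_tendsto hdec ?_
    filter_upwards [eventually_ge_atTop (0 : ℝ)] with s hs
    have : 1 ≤ Real.exp (s * (σ * a.im)) := Real.one_le_exp (by positivity)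
    exact le_mul_of_one_le_right (norm_nonneg _) this
  exact hB0 (norm_le_zero_iff.1 hle)

/-- entire solutions of Euler's equation -/
lemma euler_entire {F : ℂ → ℂ} (hF : Differentiable ℂ F) (l : ℂ) (h : ∀ u, u * deriv F u = l * F u)
    (h0 : ∃ u, F u ≠ 0) : ∃ (n : ℕ) (c : ℂ), c ≠ 0 ∧ ∀ u, F u = c * u ^ n := by
  have hcd : ContDiff ℂ ⊤ F := hF.contDiff
  have hd : ∀ k, Differentiable ℂ (iteratedDeriv k F) := fun k =>
    hcd.differentiable_iteratedDeriv k (by exact_mod_cast WithTop.coe_lt_top _)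
  have hk : ∀ (k : ℕ) (u : ℂ), u * iteratedDeriv (k + 1) F u = (l - k) * iteratedDeriv k F u := by
    intro k
    induction k with
    | zero =>
      intro u
      rw [zero_add, iteratedDeriv_one, iteratedDeriv_zero, h u]; simp
    | succ k ih =>
      intro u
      have e1 : HasDerivAt (fun u => u * iteratedDeriv (k + 1) F u)
          (1 * iteratedDeriv (k + 1) F u + u * iteratedDeriv (k + 2) F u) u := by
        refine (hasDerivAt_id u).mul ?_
        rw [iteratedDeriv_succ (n := k + 1)]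
        exact (hd (k + 1) u).hasDerivAt
      have e2 : HasDerivAt (fun u => (l - k) * iteratedDeriv k F u)
          ((l - k) * iteratedDeriv (k + 1) F u) u := by
        refine HasDerivAt.const_mul _ ?_
        rw [iteratedDeriv_succ (n := k)]
        exact (hd k u).hasDerivAt
      have e3 : (fun u => u * iteratedDeriv (k + 1) F u) =
          fun u => (l - k) * iteratedDeriv k F u := funext ih
      rw [e3] at e1
      have e4 := e1.unique e2
      push_cast
      linear_combination e4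
  have hk0 : ∀ k : ℕ, (l - k) * iteratedDeriv k F 0 = 0 := by
    intro k
    have := hk k 0
    rw [zero_mul] at this
    exact this.symm
  have htay := fun u => Complex.hasSum_taylorSeries_of_entire hF 0 u
  obtain ⟨n, hn⟩ : ∃ n, iteratedDeriv n F 0 ≠ 0 := by
    by_contra hcon
    push Not at hcon
    obtain ⟨u, hu⟩ := h0
    apply hu
    have := htay u
    simp only [hcon, smul_zero] at this
    exact this.unique hasSum_zero
  have hln : l = n := by
    rcases mul_eq_zero.1 (hk0 n) with h1 | h1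
    · exact sub_eq_zero.1 h1
    · exact absurd h1 hn
  have hother : ∀ k, k ≠ n → iteratedDeriv k F 0 = 0 := by
    intro k hkn
    rcases mul_eq_zero.1 (hk0 k) with h1 | h1
    · exfalso
      rw [hln, sub_eq_zero] at h1
      exact hkn (by exact_mod_cast h1.symm)
    · exact h1
  refine ⟨n, (n.factorial : ℂ)⁻¹ * iteratedDeriv n F 0, ?_, ?_⟩
  · refine mul_ne_zero (inv_ne_zero ?_) hn
    exact_mod_cast n.factorial_ne_zero
  · intro u
    have h1 := htay u
    have h2 : HasSum (fun k : ℕ => ((k.factorial : ℂ)⁻¹) • ((u - 0) ^ k • iteratedDeriv k F 0))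
        (((n.factorial : ℂ)⁻¹) • ((u - 0) ^ n • iteratedDeriv n F 0)) := by
      refine hasSum_single n ?_
      intro k hkn
      rw [hother k hkn, smul_zero, smul_zero]
    have h3 := h1.unique h2
    rw [h3]
    simp only [sub_zero, smul_eq_mul]
    ring

/-- solving the first order equation -/
lemma solve {b : ℂ → ℂ} (hb : Differentiable ℂ b) (z₁ : ℂ) (hz₁ : b z₁ ≠ 0) (a q : ℂ) (κ : ℝ)
    (hκ : 0 < κ)
    (h : ∀ z, a * b z + Real.pi * conj q * (z * b z) + q * deriv b z = -κ * (z * deriv b z)) :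
    ∃ (n : ℕ) (c z₀ : ℂ), c ≠ 0 ∧ ∀ z, b z = c * (z - z₀) ^ n * cexp (Real.pi * conj z₀ * z) := by
  have hκ' : (κ : ℂ) ≠ 0 := by exact_mod_cast hκ.ne'
  obtain ⟨z₀, hz₀⟩ : ∃ z₀ : ℂ, q = -(κ * z₀) := ⟨-q / κ, by field_simp⟩
  have hq : conj q = -(κ * conj z₀) := by rw [hz₀]; simp
  let F : ℂ → ℂ := fun u => b (u + z₀) * cexp (-(Real.pi * conj z₀ * (u + z₀)))
  have hder : ∀ u, HasDerivAt F (deriv b (u + z₀) * cexp (-(Real.pi * conj z₀ * (u + z₀))) +
      b (u + z₀) * (cexp (-(Real.pi * conj z₀ * (u + z₀))) * (-(Real.pi * conj z₀)))) u := by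
    intro u
    have h1 : HasDerivAt (fun u => b (u + z₀)) (deriv b (u + z₀)) u :=
      (hb (u + z₀)).hasDerivAt.comp_add_const u z₀
    have h2 : HasDerivAt (fun u : ℂ => -((Real.pi : ℂ) * conj z₀ * (u + z₀)))
        (-(Real.pi * conj z₀)) u := by
      have h3 := (((hasDerivAt_id u).add_const z₀).const_mul ((Real.pi : ℂ) * conj z₀)).neg
      refine HasDerivAt.congr_deriv (show HasDerivAt
        (fun u : ℂ => -((Real.pi : ℂ) * conj z₀ * (u + z₀))) _ u from h3) ?_
      ring
    exact h1.mul h2.cexp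
  have hF : Differentiable ℂ F := fun u => (hder u).differentiableAt
  have heq : ∀ u, u * deriv F u = (-a / κ + Real.pi * conj z₀ * z₀) * F u := by
    intro u
    rw [(hder u).deriv]
    have h1 := h (u + z₀)
    rw [hq, hz₀] at h1
    simp only [F]
    have h2 : u * deriv b (u + z₀) = (-a / κ + Real.pi * conj z₀ * (u + z₀)) * b (u + z₀) := by
      field_simp
      linear_combination h1
    linear_combination (cexp (-(Real.pi * conj z₀ * (u + z₀)))) * h2
  obtain ⟨n, c, hc, hFn⟩ := euler_entire hF _ heq ⟨z₁ - z₀, by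
    simp only [F, sub_add_cancel]
    exact mul_ne_zero hz₁ (Complex.exp_ne_zero _)⟩
  refine ⟨n, c, z₀, hc, fun z => ?_⟩
  have h1 := hFn (z - z₀)
  simp only [F, sub_add_cancel] at h1
  rw [← h1, mul_assoc, ← Complex.exp_add]
  simp

end

end Pool.Agent.R246.HermD
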