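import Mathlib
import Pool.Agent.R246.HermC
import Pool.Agent.R246.HermD

/-!
# Transforms of Hermite functions and the classification
-/

namespace Pool.Agent.R246.HermE

open MeasureTheory Complex Filter Topology
open scoped ComplexConjugate ContDiff
open HermA HermB HermC HermD

noncomputable section

def gE (s : ℝ) : ℝ := Real.exp (-(2 * Real.pi * s ^ 2))

/-- Hermite functions (not normalised) -/
def herm (n : ℕ) (t : ℝ) : ℂ := ((Real.exp (Real.pi * t ^ 2) * iteratedDeriv n gE t : ℝ) : ℂ)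

lemma contDiff_gE : ContDiff ℝ ∞ gE := by unfold gE; fun_prop

lemma hasDerivAt_gE (t : ℝ) : HasDerivAt gE (-(4 * Real.pi * t) * gE t) t := by
  have h1 : HasDerivAt (fun s : ℝ => -(2 * Real.pi * s ^ 2)) (-(4 * Real.pi * t)) t := by
    have h2 := ((hasDerivAt_pow 2 t).const_mul (2 * Real.pi)).neg
    refine HasDerivAt.congr_deriv (show HasDerivAt (fun s : ℝ => -(2 * Real.pi * s ^ 2)) _ t
      from h2) ?_
    push_cast
    ring
  have h3 := h1.exp
  refine h3.congr_deriv ?_
  unfold gE; ring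

lemma exists_poly (n : ℕ) : ∃ p : Polynomial ℝ, iteratedDeriv n gE = fun t => p.eval t * gE t := by
  induction n with
  | zero => exact ⟨1, by funext t; simp⟩
  | succ n ih =>
    obtain ⟨p, hp⟩ := ih
    refine ⟨Polynomial.derivative p - Polynomial.C (4 * Real.pi) * Polynomial.X * p, ?_⟩
    rw [iteratedDeriv_succ, hp]
    funext t
    have h1 : HasDerivAt (fun t => p.eval t * gE t)
        ((Polynomial.derivative p).eval t * gE t + p.eval t * (-(4 * Real.pi * t) * gE t)) t :=
      (p.hasDerivAt t).mul (hasDerivAt_gE t)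
    rw [h1.deriv]
    simp only [Polynomial.eval_sub, Polynomial.eval_mul, Polynomial.eval_C, Polynomial.eval_X]
    ring

lemma poly_bound (p : Polynomial ℝ) : ∃ C : ℝ, 0 ≤ C ∧ ∀ t : ℝ,
    |p.eval t| ≤ C * (Real.exp t + Real.exp (-t)) := by
  induction p using Polynomial.induction_on' with
  | add p q hp hq =>
    obtain ⟨C, hC0, hC⟩ := hp
    obtain ⟨C', hC0', hC'⟩ := hq
    refine ⟨C + C', add_nonneg hC0 hC0', fun t => ?_⟩
    rw [Polynomial.eval_add, add_mul]
    exact (abs_add_le _ _).trans (add_le_add (hC t) (hC' t))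
  | monomial n a =>
    refine ⟨|a| * n.factorial, by positivity, fun t => ?_⟩
    rw [Polynomial.eval_monomial, abs_mul, abs_pow, mul_assoc]
    refine mul_le_mul_of_nonneg_left ?_ (abs_nonneg _)
    have h1 : |t| ^ n ≤ n.factorial * Real.exp |t| := by
      have := Real.pow_div_factorial_le_exp |t| (abs_nonneg t) n
      rwa [div_le_iff₀ (by positivity), mul_comm] at this
    refine h1.trans (mul_le_mul_of_nonneg_left ?_ (by positivity))
    rcases abs_cases t with ⟨h, _⟩ | ⟨h, _⟩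
    · rw [h]; linarith [Real.exp_pos (-t)]
    · rw [h]; linarith [Real.exp_pos t]

lemma continuous_herm (n : ℕ) : Continuous (herm n) := by
  unfold herm
  refine Complex.continuous_ofReal.comp (Continuous.mul (by fun_prop) ?_)
  exact contDiff_gE.continuous_iteratedDeriv n (by exact_mod_cast le_top)

lemma memLp_herm (n : ℕ) : MemLp (herm n) 2 volume := by
  obtain ⟨p, hp⟩ := exists_poly n
  obtain ⟨C, hC0, hC⟩ := poly_bound p
  have h1 := ((memLp_quad 1 0).norm.add (memLp_quad (-1) 0).norm).const_mul C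
  refine MemLp.of_le h1 (continuous_herm n).aestronglyMeasurable (Eventually.of_forall fun t => ?_)
  unfold herm
  rw [hp, Complex.norm_real, Real.norm_eq_abs, Real.norm_eq_abs]
  simp only [Pi.add_apply, Complex.norm_exp]
  have e1 : (-((Real.pi : ℂ) * (t : ℂ) ^ 2) + 1 * t + 0).re = -(Real.pi * t ^ 2) + t := by
    have : -((Real.pi : ℂ) * (t : ℂ) ^ 2) + 1 * t + 0 = ((-(Real.pi * t ^ 2) + t : ℝ) : ℂ) := by
      push_cast; ring
    rw [this, Complex.ofReal_re]
  have e2 : (-((Real.pi : ℂ) * (t : ℂ) ^ 2) + (-1) * t + 0).re = -(Real.pi * t ^ 2) + -t := by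
    have : -((Real.pi : ℂ) * (t : ℂ) ^ 2) + (-1) * t + 0 =
        ((-(Real.pi * t ^ 2) + -t : ℝ) : ℂ) := by
      push_cast; ring
    rw [this, Complex.ofReal_re]
  rw [e1, e2, Real.exp_add, Real.exp_add, ← mul_add]
  have e3 : |Real.exp (Real.pi * t ^ 2) * (p.eval t * gE t)| =
      Real.exp (-(Real.pi * t ^ 2)) * |p.eval t| := by
    rw [abs_mul, abs_mul, abs_of_pos (Real.exp_pos _)]
    unfold gE
    rw [abs_of_pos (Real.exp_pos _), mul_left_comm, ← Real.exp_add, mul_comm]
    congr 2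
    ring
  rw [e3]
  refine le_trans ?_ (le_abs_self _)
  rw [mul_left_comm]
  exact mul_le_mul_of_nonneg_left (hC t) (Real.exp_pos _).le

lemma herm_mul (n : ℕ) (z : ℂ) (t : ℝ) :
    conj (herm n t) * cexp (-(Real.pi * t ^ 2) + 2 * Real.pi * z * t) =
      ((iteratedDeriv n gE t : ℝ) : ℂ) * cexp (2 * Real.pi * z * t) := by
  unfold herm
  rw [Complex.conj_ofReal, Complex.exp_add, Complex.ofReal_mul, Complex.ofReal_exp]
  have : cexp ((Real.pi * t ^ 2 : ℝ) : ℂ) * cexp (-(Real.pi * t ^ 2)) = 1 := by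
    rw [← Complex.exp_add]
    push_cast
    simp
  linear_combination (((iteratedDeriv n gE t : ℝ) : ℂ) * cexp (2 * Real.pi * z * t)) * this

lemma G_herm_zero (z : ℂ) : G (herm 0) z = (1 / 2 : ℂ) ^ (1 / 2 : ℂ) * cexp (Real.pi * z ^ 2 / 2) := by
  unfold G
  simp only [herm_mul]
  have h1 := integral_cexp_quadratic (b := -(2 * Real.pi)) (by simp [Real.pi_pos])
    (2 * Real.pi * z) 0
  have h2 : ∫ t : ℝ, ((iteratedDeriv 0 gE t : ℝ) : ℂ) * cexp (2 * Real.pi * z * t) =
      ∫ x : ℝ, cexp (-(2 * Real.pi) * x ^ 2 + 2 * Real.pi * z * x + 0) := by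
    refine integral_congr_ae (Eventually.of_forall fun t => ?_)
    simp only [iteratedDeriv_zero, gE]
    rw [Complex.ofReal_exp, ← Complex.exp_add]
    congr 1
    push_cast
    ring
  rw [h2, h1]
  have hpi : (Real.pi : ℂ) ≠ 0 := by exact_mod_cast Real.pi_pos.ne'
  congr 2
  · field_simp
  · field_simp
    ring

lemma G_herm_succ (n : ℕ) (z : ℂ) : G (herm (n + 1)) z = -(2 * Real.pi * z) * G (herm n) z := by
  have hdiff : ∀ t, HasDerivAt (fun t => ((iteratedDeriv n gE t : ℝ) : ℂ))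
      ((iteratedDeriv (n + 1) gE t : ℝ) : ℂ) t := by
    intro t
    have h1 : HasDerivAt (iteratedDeriv n gE) (iteratedDeriv (n + 1) gE t) t := by
      rw [iteratedDeriv_succ]
      exact ((contDiff_gE.differentiable_iteratedDeriv n (by exact_mod_cast WithTop.coe_lt_top _))
        t).hasDerivAt
    exact h1.ofReal_comp
  have hexp : ∀ t : ℝ, HasDerivAt (fun t : ℝ => cexp (2 * Real.pi * z * t))
      (cexp (2 * Real.pi * z * t) * (2 * Real.pi * z)) t := by
    intro t
    have h1 : HasDerivAt (fun t : ℝ => 2 * (Real.pi : ℂ) * z * t) (2 * Real.pi * z) t := by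
      have := (Complex.ofRealCLM.hasDerivAt (x := t)).const_mul (2 * (Real.pi : ℂ) * z)
      simpa using this
    exact h1.cexp
  have hi : ∀ m, Integrable fun t : ℝ => ((iteratedDeriv m gE t : ℝ) : ℂ) *
      cexp (2 * Real.pi * z * t) := by
    intro m
    refine (intG' (memLp_herm m) z).congr (Eventually.of_forall fun t => ?_)
    exact herm_mul m z t
  have key := integral_mul_deriv_eq_deriv_mul_of_integrable
    (u := fun t : ℝ => ((iteratedDeriv n gE t : ℝ) : ℂ))
    (u' := fun t : ℝ => ((iteratedDeriv (n + 1) gE t : ℝ) : ℂ))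
    (v := fun t : ℝ => cexp (2 * Real.pi * z * t))
    (v' := fun t : ℝ => cexp (2 * Real.pi * z * t) * (2 * Real.pi * z))
    (fun t _ => hdiff t) (fun t _ => hexp t)
    (((hi n).mul_const (2 * Real.pi * z)).congr (Eventually.of_forall fun t => by
      simp only [Pi.mul_apply]; ring)) (hi (n + 1)) (hi n)
  unfold G
  simp only [herm_mul]
  have e1 : ∫ t : ℝ, ((iteratedDeriv n gE t : ℝ) : ℂ) *
      (cexp (2 * Real.pi * z * t) * (2 * Real.pi * z)) =
      (2 * Real.pi * z) * ∫ t : ℝ, ((iteratedDeriv n gE t : ℝ) : ℂ) *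
        cexp (2 * Real.pi * z * t) := by
    rw [← integral_const_mul]
    refine integral_congr_ae (Eventually.of_forall fun t => ?_)
    simp only []
    ring
  rw [e1] at key
  linear_combination key

lemma G_herm (n : ℕ) (z : ℂ) : G (herm n) z =
    (-(2 * Real.pi * z)) ^ n * ((1 / 2 : ℂ) ^ (1 / 2 : ℂ) * cexp (Real.pi * z ^ 2 / 2)) := by
  induction n with
  | zero => rw [G_herm_zero, pow_zero, one_mul]
  | succ n ih => rw [G_herm_succ, ih, pow_succ]; ring

lemma memLp_tf {h : ℝ → ℂ} (hh : MemLp h 2 volume) (w : ℝ × ℝ) : MemLp (tf w h) 2 volume := by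
  have h1 := hh.comp_measurePreserving (measurePreserving_sub_right volume w.1)
  refine MemLp.of_le h1 ?_ (Eventually.of_forall fun t => ?_)
  · unfold tf
    exact (Continuous.aestronglyMeasurable (by fun_prop)).mul h1.1
  · unfold tf
    rw [norm_mul, Complex.norm_exp]
    have : (2 * (Real.pi : ℂ) * I * w.2 * t).re = 0 := by
      have : 2 * (Real.pi : ℂ) * I * w.2 * t = ((2 * Real.pi * w.2 * t : ℝ) : ℂ) * I := by
        push_cast; ring
      rw [this, Complex.re_ofReal_mul, Complex.I_re, mul_zero]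
    rw [this, Real.exp_zero, one_mul]
    rfl

lemma G_tf (h : ℝ → ℂ) (w : ℝ × ℝ) (z : ℂ) : G (tf w h) z =
    cexp (-(2 * Real.pi * I * w.2 * w.1) - Real.pi * w.1 ^ 2 + 2 * Real.pi * w.1 * z) *
      G h (z - om w) := by
  unfold G
  rw [← integral_add_right_eq_self (fun t : ℝ => conj (tf w h t) *
    cexp (-(Real.pi * t ^ 2) + 2 * Real.pi * z * t)) w.1, ← integral_const_mul]
  refine integral_congr_ae (Eventually.of_forall fun t => ?_)
  simp only [tf, om, add_sub_cancel_right, map_mul]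
  rw [← Complex.exp_conj]
  simp only [map_mul, Complex.conj_I, Complex.conj_ofReal, map_ofNat]
  rw [mul_right_comm, ← Complex.exp_add, mul_left_comm, ← Complex.exp_add, mul_comm]
  congr 2
  push_cast
  ring

/-- The classification of windows with a local reproducing formula at the origin on all discs. -/
theorem classification {g : ℝ → ℂ} (hg : MemLp g 2 volume) (hg0 : ¬ g =ᵐ[volume] 0)
    (h : ∀ R : ℝ, 0 < R → ∃ C : ℂ, ∀ f : ℝ → ℂ, MemLp f 2 volume →
      C * ip f (tf 0 g) = ∫ w in disc 0 R, ip (tf w g) (tf 0 g) * ip f (tf w g)) :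
    ∃ (n : ℕ) (c : ℂ) (a : ℝ × ℝ), c ≠ 0 ∧ g =ᵐ[volume] fun t => c * tf a (herm n) t := by
  -- the transform does not vanish identically
  obtain ⟨z₁, hz₁⟩ : ∃ z, B g z ≠ 0 := by
    by_contra hcon
    push Not at hcon
    apply hg0
    have h0 : MemLp (0 : ℝ → ℂ) 2 volume := MemLp.zero
    refine ae_eq_of_G hg h0 fun y => ?_
    have h1 := hcon (y * I)
    unfold B at h1
    rcases mul_eq_zero.1 h1 with h2 | h2
    · exact absurd h2 (Complex.exp_ne_zero _)
    · rw [h2]
      unfold G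
      simp
  have hN : 0 < ∫ t, ‖g t‖ ^ 2 := by
    have hi : Integrable fun t => ‖g t‖ ^ 2 := hg.integrable_norm_pow (by norm_num)
    rw [integral_pos_iff_support_of_nonneg (fun t => by positivity) hi]
    rw [pos_iff_ne_zero]
    intro h0
    apply hg0
    have h1 : ∀ᵐ t, t ∉ Function.support fun t => ‖g t‖ ^ 2 := measure_eq_zero_iff_ae_notMem.1 h0
    filter_upwards [h1] with t ht
    simpa using ht
  obtain ⟨a, q, haq⟩ := expansion hg h
  obtain ⟨a₀, q₀, θ, hθ0, hθ, hrel⟩ := exists_relation (B g) (deriv (B g)) _ z₁ hz₁ a q haq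
  set κ₀ : ℝ := (∫ t, ‖g t‖ ^ 2) * Real.pi * K0 with hκ₀
  have hκ₀pos : 0 < κ₀ := mul_pos (mul_pos hN Real.pi_pos) K0_pos
  have hrel' : ∀ z, a₀ * B g z + Real.pi * conj q₀ * (z * B g z) + q₀ * deriv (B g) z =
      -((θ * κ₀ : ℝ) : ℂ) * (z * deriv (B g) z) := by
    intro z
    rw [hrel z, beta_zero, hκ₀]
    push_cast
    ring
  have hθpos : 0 < θ := by
    rcases hθ with h1 | h1
    · exact h1
    · rcases hθ0.lt_or_eq with h2 | h2
      · exact h2
      · exfalso
        refine no_degenerate hg z₁ hz₁ a₀ q₀ h1 fun z => ?_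
        rw [hrel' z, ← h2]
        simp
  obtain ⟨n, c, z₀, hc, hBz⟩ := solve (differentiable_B hg) z₁ hz₁ a₀ q₀ (θ * κ₀)
    (mul_pos hθpos hκ₀pos) hrel'
  -- compare with the Hermite function
  set w : ℝ × ℝ := (z₀.re, z₀.im) with hw
  have how : om w = z₀ := om_surj z₀
  set K1 : ℂ := cexp (-(2 * Real.pi * I * w.2 * w.1) - Real.pi * w.1 ^ 2 + Real.pi * z₀ ^ 2 / 2) *
    (-(2 * Real.pi)) ^ n * (1 / 2 : ℂ) ^ (1 / 2 : ℂ) with hK1
  have hK1ne : K1 ≠ 0 := by
    have hpi : (Real.pi : ℂ) ≠ 0 := by exact_mod_cast Real.pi_pos.ne'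
    rw [hK1]
    refine mul_ne_zero (mul_ne_zero (Complex.exp_ne_zero _) (pow_ne_zero _ ?_)) ?_
    · exact neg_ne_zero.2 (mul_ne_zero two_ne_zero hpi)
    · rw [Complex.cpow_ne_zero_iff]
      left; norm_num
  have hGh : ∀ z, G (tf w (herm n)) z = K1 * ((z - z₀) ^ n *
      cexp (Real.pi * conj z₀ * z + Real.pi * z ^ 2 / 2)) := by
    intro z
    rw [G_tf, G_herm, how, hK1]
    have e1 : (-(2 * Real.pi * (z - z₀))) ^ n = (-(2 * (Real.pi : ℂ))) ^ n * (z - z₀) ^ n := by
      rw [← mul_pow]; congr 1; ring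
    have e2 : cexp (-(2 * Real.pi * I * w.2 * w.1) - Real.pi * w.1 ^ 2 + 2 * Real.pi * w.1 * z) *
        cexp (Real.pi * (z - z₀) ^ 2 / 2) =
        cexp (-(2 * Real.pi * I * w.2 * w.1) - Real.pi * w.1 ^ 2 + Real.pi * z₀ ^ 2 / 2) *
          cexp (Real.pi * conj z₀ * z + Real.pi * z ^ 2 / 2) := by
      rw [← Complex.exp_add, ← Complex.exp_add]
      congr 1
      have e3 : z₀ = w.1 + w.2 * I := how.symm
      have e4 : conj z₀ = w.1 - w.2 * I := by
        rw [e3]; simp; ring
      have e5 : (w.1 : ℂ) = (z₀ + conj z₀) / 2 := by rw [e4]; nth_rewrite 1 [e3]; ring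
      have e6 : (2 * Real.pi * w.1 * z : ℂ) = Real.pi * (z₀ + conj z₀) * z := by
        rw [e5]; ring
      linear_combination e6
    rw [e1]
    linear_combination ((-(2 * (Real.pi : ℂ))) ^ n * (z - z₀) ^ n * (1 / 2 : ℂ) ^ (1 / 2 : ℂ)) * e2
  have hGg : ∀ z, G g z = c * ((z - z₀) ^ n *
      cexp (Real.pi * conj z₀ * z + Real.pi * z ^ 2 / 2)) := by
    intro z
    have h1 := hBz z
    unfold B at h1
    rw [Complex.exp_add]
    have h2 : cexp (Real.pi * z ^ 2 / 2) * cexp (-(Real.pi * z ^ 2 / 2)) = 1 := by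
      rw [← Complex.exp_add]; simp
    calc G g z = cexp (Real.pi * z ^ 2 / 2) * (cexp (-(Real.pi * z ^ 2 / 2)) * G g z) := by
          rw [← mul_assoc, h2, one_mul]
      _ = _ := by rw [h1]; ring
  set c' : ℂ := conj (c / K1) with hc'
  have hc'0 : c' ≠ 0 := by
    rw [hc', Ne, map_eq_zero]
    exact div_ne_zero hc hK1ne
  refine ⟨n, c', w, hc'0, ?_⟩
  have hmem : MemLp (fun t => c' * tf w (herm n) t) 2 volume :=
    (memLp_tf (memLp_herm n) w).const_mul c'
  refine ae_eq_of_G hg hmem fun y => ?_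
  have h1 : G (fun t => c' * tf w (herm n) t) (y * I) = conj c' * G (tf w (herm n)) (y * I) := by
    unfold G
    rw [← integral_const_mul]
    refine integral_congr_ae (Eventually.of_forall fun t => ?_)
    simp only [map_mul]
    ring
  rw [h1, hGh, hGg, hc', Complex.conj_conj]
  field_simp

end

end Pool.Agent.R246.HermE
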