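import Mathlib

/-!
# Random Cantor cascades: the measures and the recursion of their Fourier transforms
-/

namespace Pool.Agent.R246.LorA

open scoped ENNReal Topology ComplexConjugate NNReal
open Filter MeasureTheory Real Finset

noncomputable section

/-- `e(t) = exp(-2π i t)` -/
def ee (t : ℝ) : ℂ := Complex.exp (-(2 * π * t) * Complex.I)

theorem ee_norm (t : ℝ) : ‖ee t‖ = 1 := by
  unfold ee
  have : (-(2 * π * t) * Complex.I : ℂ) = ((-(2 * π * t) : ℝ) : ℂ) * Complex.I := by push_cast; ring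
  rw [this, Complex.norm_exp_ofReal_mul_I]

theorem ee_add (s t : ℝ) : ee (s + t) = ee s * ee t := by
  unfold ee
  rw [← Complex.exp_add]
  congr 1
  push_cast
  ring

theorem ee_zero : ee 0 = 1 := by simp [ee]

theorem ee_cont : Continuous ee := by
  unfold ee; fun_prop

theorem ee_sub_one (t : ℝ) : ‖ee t - 1‖ ≤ 2 * π * |t| := by
  unfold ee
  have h := Real.norm_exp_I_mul_ofReal_sub_one_le (x := -(2 * π * t))
  have e : (-(2 * π * t) * Complex.I : ℂ) = Complex.I * ((-(2 * π * t) : ℝ) : ℂ) := by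
    push_cast; ring
  rw [e]
  refine h.trans (le_of_eq ?_)
  rw [Real.norm_eq_abs, abs_neg, abs_mul, abs_of_pos (by positivity : (0 : ℝ) < 2 * π)]

abbrev E (d : ℕ) := EuclideanSpace ℝ (Fin d)
abbrev CC (d : ℕ) := Fin d → Bool

variable {d : ℕ}

def vec (c : CC d) : E d := WithLp.toLp 2 (fun i => if c i then (1 : ℝ) else 0)

theorem vec_apply (c : CC d) (i : Fin d) : vec c i = if c i then (1 : ℝ) else 0 := rfl

/-- the child map -/
def sc (c : CC d) (x : E d) : E d := (1 / 2 : ℝ) • (x + vec c)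

theorem sc_cont (c : CC d) : Continuous (sc c) := by
  unfold sc; fun_prop

theorem sc_meas (c : CC d) : Measurable (sc c) := (sc_cont c).measurable

theorem sc_apply (c : CC d) (x : E d) (i : Fin d) :
    sc c x i = (x i + if c i then (1 : ℝ) else 0) / 2 := by
  unfold sc
  simp only [PiLp.smul_apply, PiLp.add_apply, vec_apply, smul_eq_mul]
  ring

/-- the unit cube -/
def Q0 (d : ℕ) : Set (E d) := {x | ∀ i, 0 ≤ x i ∧ x i < 1}

theorem Q0_meas : MeasurableSet (Q0 d) := by
  unfold Q0
  have : {x : E d | ∀ i, 0 ≤ x i ∧ x i < 1} = ⋂ i, {x : E d | 0 ≤ x i ∧ x i < 1} := by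
    ext x; simp
  rw [this]
  refine MeasurableSet.iInter fun i => ?_
  have h1 : Measurable (fun x : E d => x i) := (by fun_prop : Continuous fun x : E d => x i).measurable
  exact (measurableSet_le measurable_const h1).inter (measurableSet_lt h1 measurable_const)

theorem Q0_eq : Q0 d = WithLp.ofLp ⁻¹' (Set.univ.pi fun _ : Fin d => Set.Ico (0 : ℝ) 1) := by
  ext x
  simp [Q0]

theorem Q0_vol : volume (Q0 d) = 1 := by
  rw [Q0_eq, (PiLp.volume_preserving_ofLp (Fin d)).measure_preimage
    ((MeasurableSet.univ_pi fun _ => measurableSet_Ico).nullMeasurableSet), volume_pi_pi]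
  simp

theorem Q0_sc {c : CC d} {x : E d} (hx : x ∈ Q0 d) : sc c x ∈ Q0 d := by
  intro i
  have h := hx i
  rw [sc_apply]
  constructor
  · split_ifs <;> linarith [h.1]
  · split_ifs <;> linarith [h.2]

/-- genomes -/
def Gen (d : ℕ) : List Bool → Type
  | [] => Unit
  | true :: L => CC d → Gen d L
  | false :: L => CC d × Gen d L

instance genFin (d : ℕ) : (L : List Bool) → Fintype (Gen d L)
  | [] => inferInstanceAs (Fintype Unit)
  | true :: L => by
      have := genFin d L
      exact inferInstanceAs (Fintype (CC d → Gen d L))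
  | false :: L => by
      have := genFin d L
      exact inferInstanceAs (Fintype (CC d × Gen d L))

instance genNe (d : ℕ) : (L : List Bool) → Nonempty (Gen d L)
  | [] => inferInstanceAs (Nonempty Unit)
  | true :: L => by
      have := genNe d L
      exact inferInstanceAs (Nonempty (CC d → Gen d L))
  | false :: L => by
      have := genNe d L
      exact inferInstanceAs (Nonempty (CC d × Gen d L))

/-- the cascade measure -/
def mu (d : ℕ) : (L : List Bool) → Gen d L → Measure (E d)
  | [], _ => volume.restrict (Q0 d)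
  | true :: L, g => ((2 : ℝ≥0∞) ^ d)⁻¹ • ∑ c : CC d, (mu d L (g c)).map (sc c)
  | false :: L, g => (mu d L g.2).map (sc g.1)

theorem mu_prob : (L : List Bool) → (g : Gen d L) → IsProbabilityMeasure (mu d L g)
  | [], _ => ⟨by
      show (volume.restrict (Q0 d)) Set.univ = 1
      rw [Measure.restrict_apply_univ]; exact Q0_vol⟩
  | true :: L, g => ⟨by
      show (((2 : ℝ≥0∞) ^ d)⁻¹ • ∑ c : CC d, (mu d L (g c)).map (sc c)) Set.univ = 1
      rw [Measure.smul_apply, Measure.finsetSum_apply]
      have : ∀ c : CC d, ((mu d L (g c)).map (sc c)) Set.univ = 1 := by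
        intro c
        have := mu_prob L (g c)
        rw [Measure.map_apply (sc_meas c) MeasurableSet.univ, Set.preimage_univ, measure_univ]
      simp only [this]
      simp only [sum_const, card_univ, smul_eq_mul, nsmul_eq_mul, mul_one, Fintype.card_pi,
        Fintype.card_bool, prod_const, Fintype.card_fin, Nat.cast_pow, Nat.cast_ofNat]
      exact ENNReal.inv_mul_cancel (by positivity) (by finiteness)⟩
  | false :: L, g => by
      have := mu_prob L g.2
      exact Measure.isProbabilityMeasure_map (sc_meas g.1).aemeasurable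

theorem mu_supp : (L : List Bool) → (g : Gen d L) → mu d L g (Q0 d)ᶜ = 0
  | [], _ => by
      show (volume.restrict (Q0 d)) (Q0 d)ᶜ = 0
      rw [Measure.restrict_apply Q0_meas.compl]
      simp
  | true :: L, g => by
      show (((2 : ℝ≥0∞) ^ d)⁻¹ • ∑ c : CC d, (mu d L (g c)).map (sc c)) (Q0 d)ᶜ = 0
      rw [Measure.smul_apply, Measure.finsetSum_apply]
      have : ∀ c : CC d, ((mu d L (g c)).map (sc c)) (Q0 d)ᶜ = 0 := by
        intro c
        rw [Measure.map_apply (sc_meas c) Q0_meas.compl]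
        refine measure_mono_null ?_ (mu_supp L (g c))
        intro x hx hx2
        exact hx (Q0_sc hx2)
      simp [this]
  | false :: L, g => by
      show ((mu d L g.2).map (sc g.1)) (Q0 d)ᶜ = 0
      rw [Measure.map_apply (sc_meas g.1) Q0_meas.compl]
      refine measure_mono_null ?_ (mu_supp L g.2)
      intro x hx hx2
      exact hx (Q0_sc hx2)

/-- the Fourier transform -/
def FF (L : List Bool) (g : Gen d L) (ξ : E d) : ℂ := ∫ x, ee (inner ℝ x ξ) ∂(mu d L g)

theorem ee_int (μ : Measure (E d)) [IsFiniteMeasure μ] (ξ : E d) :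
    Integrable (fun x => ee (inner ℝ x ξ)) μ := by
  refine Integrable.mono' (integrable_const (1 : ℝ)) ?_ (Eventually.of_forall fun x => ?_)
  · exact (ee_cont.comp (by fun_prop)).aestronglyMeasurable
  · rw [ee_norm]

theorem inner_sc (c : CC d) (x ξ : E d) :
    inner ℝ (sc c x) ξ = inner ℝ x ((1 / 2 : ℝ) • ξ) + inner ℝ (vec c) ((1 / 2 : ℝ) • ξ) := by
  unfold sc
  rw [inner_smul_left, inner_add_left, inner_smul_right, inner_smul_right]
  simp
  ring

theorem FF_map (L : List Bool) (g : Gen d L) (c : CC d) (ξ : E d) :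
    ∫ x, ee (inner ℝ x ξ) ∂((mu d L g).map (sc c))
      = ee (inner ℝ (vec c) ((1 / 2 : ℝ) • ξ)) * FF L g ((1 / 2 : ℝ) • ξ) := by
  have hc : Continuous (fun x : E d => ee (inner ℝ x ξ)) := ee_cont.comp (by fun_prop)
  rw [integral_map (sc_meas c).aemeasurable hc.aestronglyMeasurable]
  unfold FF
  rw [← integral_const_mul]
  congr 1
  funext x
  rw [inner_sc, ee_add]
  ring

theorem FF_false (L : List Bool) (g : Gen d (false :: L)) (ξ : E d) :
    FF (false :: L) g ξ = ee (inner ℝ (vec g.1) ((1 / 2 : ℝ) • ξ)) * FF L g.2 ((1 / 2 : ℝ) • ξ) :=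
  FF_map L g.2 g.1 ξ

theorem FF_true (L : List Bool) (g : Gen d (true :: L)) (ξ : E d) :
    FF (true :: L) g ξ = ∑ c : CC d, ((2 : ℂ) ^ d)⁻¹ *
      (ee (inner ℝ (vec c) ((1 / 2 : ℝ) • ξ)) * FF L (g c) ((1 / 2 : ℝ) • ξ)) := by
  show ∫ x, ee (inner ℝ x ξ) ∂(((2 : ℝ≥0∞) ^ d)⁻¹ • ∑ c : CC d, (mu d L (g c)).map (sc c)) = _
  rw [integral_smul_measure, integral_finsetSum_measure]
  · rw [← mul_sum, Complex.real_smul]
    congr 1
    · simp
    · refine sum_congr rfl fun c _ => ?_
      exact FF_map L (g c) c ξ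
  · intro c _
    have := mu_prob L (g c)
    have := Measure.isProbabilityMeasure_map (μ := mu d L (g c)) (sc_meas c).aemeasurable
    exact ee_int _ ξ

theorem norm_Q0 {x : E d} (hx : x ∈ Q0 d) : ‖x‖ ≤ √d := by
  rw [EuclideanSpace.norm_eq]
  apply Real.sqrt_le_sqrt
  calc ∑ i, ‖x i‖ ^ 2 ≤ ∑ _i : Fin d, (1 : ℝ) := by
        refine sum_le_sum fun i _ => ?_
        have h := hx i
        rw [Real.norm_eq_abs, sq_abs]
        nlinarith [h.1, h.2]
    _ = d := by simp

theorem FF_near (L : List Bool) (g : Gen d L) (ξ : E d) :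
    ‖FF L g ξ - 1‖ ≤ 2 * π * (√d * ‖ξ‖) := by
  have := mu_prob L g
  have h1 : FF L g ξ - 1 = ∫ x, (ee (inner ℝ x ξ) - 1) ∂(mu d L g) := by
    rw [integral_sub (ee_int _ ξ) (integrable_const _)]
    simp [FF]
  rw [h1]
  have h2 : ∀ᵐ x ∂(mu d L g), ‖ee (inner ℝ x ξ) - 1‖ ≤ 2 * π * (√d * ‖ξ‖) := by
    have h3 : ∀ᵐ x ∂(mu d L g), x ∈ Q0 d := by
      rw [ae_iff]
      exact mu_supp L g
    filter_upwards [h3] with x hx
    refine (ee_sub_one _).trans ?_
    have h4 : |inner ℝ x ξ| ≤ √d * ‖ξ‖ :=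
      (abs_real_inner_le_norm x ξ).trans (mul_le_mul_of_nonneg_right (norm_Q0 hx) (norm_nonneg _))
    exact mul_le_mul_of_nonneg_left h4 (by positivity)
  have h5 := norm_integral_le_of_norm_le_const h2
  simpa using h5

end

end Pool.Agent.R246.LorA
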