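import Mathlib
import Pool.Agent.R246.LorA

/-!
# Small ball estimates for sums of independent uniform variables and for cascades
-/

namespace Pool.Agent.R246.LorB

open scoped ENNReal Topology ComplexConjugate NNReal
open Filter MeasureTheory Real Finset
open Pool.Agent.R246.LorA

noncomputable section

open Classical in
/-- number of points with a property, as a real number -/
def cnt {Ω : Type} [Fintype Ω] (P : Ω → Prop) : ℝ := ∑ w : Ω, if P w then (1 : ℝ) else 0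

theorem cnt_equiv {Ω Ω' : Type} [Fintype Ω] [Fintype Ω'] (e : Ω ≃ Ω') (P : Ω → Prop) :
    cnt P = cnt (fun w => P (e.symm w)) := by
  unfold cnt
  refine Fintype.sum_equiv e _ _ (fun x => ?_)
  have h : P (e.symm (e x)) ↔ P x := by rw [Equiv.symm_apply_apply]
  by_cases hp : P x
  · rw [if_pos hp, if_pos (h.mpr hp)]
  · rw [if_neg hp, if_neg (fun h2 => hp (h.mp h2))]

theorem cnt_prod {A B : Type} [Fintype A] [Fintype B] (P : A × B → Prop) {c : ℝ}
    (h : ∀ b, c * Fintype.card A ≤ cnt (fun a => P (a, b))) :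
    c * Fintype.card (A × B) ≤ cnt P := by
  unfold cnt at *
  rw [Fintype.sum_prod_type_right, Fintype.card_prod, Nat.cast_mul]
  calc c * ((Fintype.card A : ℝ) * Fintype.card B) = ∑ _b : B, c * Fintype.card A := by
        rw [sum_const, card_univ, nsmul_eq_mul]; ring
    _ ≤ _ := sum_le_sum fun b _ => h b

theorem cnt_prod' {A B : Type} [Fintype A] [Fintype B] (P : A × B → Prop) {c : ℝ}
    (h : ∀ a, c * Fintype.card B ≤ cnt (fun b => P (a, b))) :
    c * Fintype.card (A × B) ≤ cnt P := by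
  unfold cnt at *
  rw [Fintype.sum_prod_type, Fintype.card_prod, Nat.cast_mul]
  calc c * ((Fintype.card A : ℝ) * Fintype.card B) = ∑ _a : A, c * Fintype.card B := by
        rw [sum_const, card_univ, nsmul_eq_mul]; ring
    _ ≤ _ := sum_le_sum fun b _ => h b

theorem cnt_mono {Ω : Type} [Fintype Ω] {P Q : Ω → Prop} (h : ∀ w, P w → Q w) : cnt P ≤ cnt Q := by
  unfold cnt
  refine sum_le_sum fun w _ => ?_
  by_cases hp : P w
  · simp [hp, h w hp]
  · simp only [hp, if_false]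
    split_ifs <;> norm_num

/-- Paley–Zygmund -/
theorem pz {Ω : Type} [Fintype Ω] (Y : Ω → ℝ) (hY : ∀ w, 0 ≤ Y w) {v q K : ℝ} (hv : 0 < v)
    (hq : 0 < q) (hK : 0 < K)
    (h1 : v * q * Fintype.card Ω ≤ ∑ w, Y w) (h2 : ∑ w, Y w ^ 2 ≤ K * q ^ 2 * Fintype.card Ω) :
    v ^ 2 / (4 * K) * Fintype.card Ω ≤ cnt (fun w => v * q / 2 ≤ Y w) := by
  classical
  set S : Finset Ω := univ.filter (fun w => v * q / 2 ≤ Y w) with hS
  have hc : cnt (fun w => v * q / 2 ≤ Y w) = S.card := by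
    unfold cnt
    rw [hS, card_filter]
    push_cast
    refine sum_congr rfl fun w _ => ?_
    split_ifs <;> rfl
  rw [hc]
  obtain ⟨n, hn⟩ : ∃ n : ℝ, n = Fintype.card Ω := ⟨_, rfl⟩
  rw [← hn] at h1 h2 ⊢
  have hn0 : 0 ≤ n := by rw [hn]; positivity
  have h3 : ∑ w, Y w ≤ v * q / 2 * n + ∑ w ∈ S, Y w := by
    rw [← sum_filter_add_sum_filter_not univ (fun w => v * q / 2 ≤ Y w), add_comm]
    refine add_le_add ?_ le_rfl
    calc ∑ w ∈ univ.filter (fun w => ¬ v * q / 2 ≤ Y w), Y w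
        ≤ ∑ _w ∈ univ.filter (fun w => ¬ v * q / 2 ≤ Y w), v * q / 2 := by
          refine sum_le_sum fun w hw => ?_
          exact (not_le.mp (mem_filter.mp hw).2).le
      _ ≤ ∑ _w : Ω, v * q / 2 :=
          sum_le_sum_of_subset_of_nonneg (filter_subset _ _) (fun _ _ _ => by positivity)
      _ = v * q / 2 * n := by rw [sum_const, card_univ, nsmul_eq_mul, mul_comm, hn]
  have h4 : v * q / 2 * n ≤ ∑ w ∈ S, Y w := by nlinarith
  have h5 : (∑ w ∈ S, Y w) ^ 2 ≤ S.card * ∑ w ∈ S, Y w ^ 2 := sq_sum_le_card_mul_sum_sq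
  have h6 : ∑ w ∈ S, Y w ^ 2 ≤ K * q ^ 2 * n :=
    (sum_le_sum_of_subset_of_nonneg (filter_subset _ _) (fun _ _ _ => sq_nonneg _)).trans h2
  have h7 : (v * q / 2 * n) ^ 2 ≤ S.card * (K * q ^ 2 * n) :=
    (pow_le_pow_left₀ (by positivity) h4 2).trans
      (h5.trans (mul_le_mul_of_nonneg_left h6 (by positivity)))
  rcases hn0.eq_or_lt with h0 | h0
  · rw [← h0]; simp
  · have h8 : (v * q / 2 * n) ^ 2 = (v ^ 2 / (4 * K) * n) * (K * q ^ 2 * n) := by
      field_simp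
      ring
    rw [h8] at h7
    exact le_of_mul_le_mul_right h7 (by positivity)

variable {C : Type} [Fintype C] [Nonempty C]

theorem avg_coord {I : Type} [Fintype I] [DecidableEq I] (i : I) (G : (I → C) → ℝ) :
    (Fintype.card C : ℝ) * ∑ c : I → C, G c = ∑ c : I → C, ∑ x : C, G (Function.update c i x) := by
  have h1 : ∀ (y x : C) (r : {j // j ≠ i} → C),
      Function.update ((Equiv.funSplitAt i C).symm (y, r)) i x
        = (Equiv.funSplitAt i C).symm (x, r) := by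
    intro y x r
    funext j
    by_cases hj : j = i
    · subst hj
      simp [Equiv.funSplitAt]
    · simp [Equiv.funSplitAt, hj]
  have h2 : ∀ H : (I → C) → ℝ, ∑ c : I → C, H c
      = ∑ y : C, ∑ r : {j // j ≠ i} → C, H ((Equiv.funSplitAt i C).symm (y, r)) := by
    intro H
    rw [← Fintype.sum_prod_type' (f := fun y r => H ((Equiv.funSplitAt i C).symm (y, r)))]
    refine Fintype.sum_equiv (Equiv.funSplitAt i C) _ _ (fun x => ?_)
    have e2 : (Equiv.funSplitAt i C).symm (((Equiv.funSplitAt i C) x).1,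
        ((Equiv.funSplitAt i C) x).2) = x := (Equiv.funSplitAt i C).symm_apply_apply x
    rw [e2]
  rw [h2 G, h2 (fun c => ∑ x : C, G (Function.update c i x))]
  simp only [h1]
  rw [sum_const, card_univ, nsmul_eq_mul]
  congr 1
  rw [sum_comm]

/-- partial sums -/
def XX {I : Type} [Fintype I] (M : ℂ) (a : I → ℂ) (w : C → ℂ) (s : Finset I) (c : I → C) : ℂ :=
  M + ∑ i ∈ s, a i * w (c i)

theorem XX_upd {I : Type} [Fintype I] [DecidableEq I] (M : ℂ) (a : I → ℂ) (w : C → ℂ)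
    (s : Finset I) {i : I} (hi : i ∉ s) (c : I → C) (x : C) :
    XX M a w s (Function.update c i x) = XX M a w s c := by
  unfold XX
  congr 1
  refine sum_congr rfl fun j hj => ?_
  have : j ≠ i := fun h => hi (h ▸ hj)
  rw [Function.update_of_ne this]

theorem XX_insert {I : Type} [Fintype I] [DecidableEq I] (M : ℂ) (a : I → ℂ) (w : C → ℂ)
    (s : Finset I) {i : I} (hi : i ∉ s) (c : I → C) (x : C) :
    XX M a w (insert i s) (Function.update c i x) = XX M a w s c + a i * w x := by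
  have h := XX_upd M a w s hi c x
  unfold XX at *
  rw [sum_insert hi, Function.update_self]
  linear_combination h

theorem sq_add (Y z : ℂ) : ‖Y + z‖ ^ 2 = ‖Y‖ ^ 2 + 2 * (conj Y * z).re + ‖z‖ ^ 2 := by
  rw [← Complex.normSq_eq_norm_sq, ← Complex.normSq_eq_norm_sq, ← Complex.normSq_eq_norm_sq,
    Complex.normSq_add]
  have : (Y * conj z).re = (conj Y * z).re := by
    simp [Complex.mul_re]
  rw [this]
  ring

theorem four_bd (Y z : ℂ) : ‖Y + z‖ ^ 4 ≤ ‖Y‖ ^ 4 + 4 * ‖Y‖ ^ 2 * (conj Y * z).re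
    + 8 * ‖Y‖ ^ 2 * ‖z‖ ^ 2 + 3 * ‖z‖ ^ 4 := by
  have h1 : ‖Y + z‖ ^ 4 = (‖Y + z‖ ^ 2) ^ 2 := by ring
  rw [h1, sq_add]
  have h2 : |(conj Y * z).re| ≤ ‖Y‖ * ‖z‖ := by
    refine (Complex.abs_re_le_norm _).trans (le_of_eq ?_)
    rw [norm_mul, RCLike.norm_conj]
  set r := (conj Y * z).re
  have h3 : r ^ 2 ≤ ‖Y‖ ^ 2 * ‖z‖ ^ 2 := by
    rw [← mul_pow, ← sq_abs r]
    exact pow_le_pow_left₀ (abs_nonneg _) h2 2
  have h4 : 4 * r * ‖z‖ ^ 2 ≤ 2 * (‖Y‖ ^ 2 * ‖z‖ ^ 2 + ‖z‖ ^ 4) := by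
    nlinarith [sq_nonneg (r - ‖z‖ ^ 2), h3]
  nlinarith [h3, h4]

theorem second {I : Type} [Fintype I] [DecidableEq I] (M : ℂ) (a : I → ℂ) (w : C → ℂ)
    (hw0 : ∑ x, w x = 0) {v : ℝ} (hv : ∑ x, ‖w x‖ ^ 2 = v * Fintype.card C) (s : Finset I) :
    ∑ c : I → C, ‖XX M a w s c‖ ^ 2
      = (‖M‖ ^ 2 + v * ∑ i ∈ s, ‖a i‖ ^ 2) * Fintype.card (I → C) := by
  have hC : (0 : ℝ) < Fintype.card C := by exact_mod_cast Fintype.card_pos
  induction s using Finset.induction_on with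
  | empty =>
    simp [XX, mul_comm]
  | insert i s hi ih =>
    have h1 := avg_coord (C := C) i (fun c => ‖XX M a w (insert i s) c‖ ^ 2)
    simp only [XX_insert M a w s hi] at h1
    have h2 : ∀ c : I → C, ∑ x : C, ‖XX M a w s c + a i * w x‖ ^ 2
        = Fintype.card C * (‖XX M a w s c‖ ^ 2 + v * ‖a i‖ ^ 2) := by
      intro c
      simp only [sq_add, norm_mul, mul_pow]
      rw [sum_add_distrib, sum_add_distrib, ← mul_sum, ← mul_sum, hv, ← Complex.re_sum]
      have : ∑ x, (starRingEnd ℂ) (XX M a w s c) * (a i * w x)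
          = (starRingEnd ℂ) (XX M a w s c) * a i * ∑ x, w x := by
        rw [mul_sum]; refine sum_congr rfl fun x _ => by ring
      rw [this, hw0]
      simp only [sum_const, card_univ, nsmul_eq_mul, mul_zero, Complex.zero_re]
      ring
    simp only [h2] at h1
    rw [← mul_sum, sum_add_distrib, ih] at h1
    have h3 := mul_left_cancel₀ hC.ne' h1
    rw [h3, sum_insert hi, sum_const, card_univ, nsmul_eq_mul]
    ring

theorem fourth {I : Type} [Fintype I] [DecidableEq I] (M : ℂ) (a : I → ℂ) (w : C → ℂ)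
    (hw0 : ∑ x, w x = 0) (hw2 : ∀ x, ‖w x‖ ≤ 2) {v : ℝ} (hv1 : v ≤ 1)
    (hv : ∑ x, ‖w x‖ ^ 2 = v * Fintype.card C) (s : Finset I) :
    ∑ c : I → C, ‖XX M a w s c‖ ^ 4
      ≤ 48 * (‖M‖ ^ 2 + ∑ i ∈ s, ‖a i‖ ^ 2) ^ 2 * Fintype.card (I → C) := by
  have hC : (0 : ℝ) < Fintype.card C := by exact_mod_cast Fintype.card_pos
  have hCI : (0 : ℝ) ≤ Fintype.card (I → C) := by positivity
  induction s using Finset.induction_on with
  | empty =>
    simp only [XX, sum_empty, add_zero, sum_const, card_univ, nsmul_eq_mul]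
    nlinarith [pow_nonneg (norm_nonneg M) 4]
  | insert i s hi ih =>
    have h1 := avg_coord (C := C) i (fun c => ‖XX M a w (insert i s) c‖ ^ 4)
    simp only [XX_insert M a w s hi] at h1
    have h2 : ∀ c : I → C, ∑ x : C, ‖XX M a w s c + a i * w x‖ ^ 4
        ≤ Fintype.card C * (‖XX M a w s c‖ ^ 4 + 32 * ‖a i‖ ^ 2 * ‖XX M a w s c‖ ^ 2
          + 48 * ‖a i‖ ^ 4) := by
      intro c
      set Y := XX M a w s c with hY
      calc ∑ x : C, ‖Y + a i * w x‖ ^ 4
          ≤ ∑ x : C, (‖Y‖ ^ 4 + 4 * ‖Y‖ ^ 2 * (conj Y * (a i * w x)).re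
              + (32 * ‖a i‖ ^ 2 * ‖Y‖ ^ 2 + 48 * ‖a i‖ ^ 4)) := by
            refine sum_le_sum fun x _ => ?_
            refine (four_bd _ _).trans ?_
            have h3 : ‖a i * w x‖ ^ 2 ≤ 4 * ‖a i‖ ^ 2 := by
              rw [norm_mul, mul_pow]
              nlinarith [pow_le_pow_left₀ (norm_nonneg _) (hw2 x) 2, sq_nonneg ‖a i‖]
            have h4 : ‖a i * w x‖ ^ 4 ≤ 16 * ‖a i‖ ^ 4 := by
              have : ‖a i * w x‖ ^ 4 = (‖a i * w x‖ ^ 2) ^ 2 := by ring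
              rw [this]
              nlinarith [sq_nonneg (‖a i * w x‖ ^ 2), sq_nonneg ‖a i‖, sq_nonneg ‖a i * w x‖]
            nlinarith [sq_nonneg ‖Y‖]
        _ = _ := by
            rw [sum_add_distrib, sum_add_distrib, ← mul_sum, ← Complex.re_sum]
            have : ∑ x, (starRingEnd ℂ) Y * (a i * w x) = (starRingEnd ℂ) Y * a i * ∑ x, w x := by
              rw [mul_sum]; refine sum_congr rfl fun x _ => by ring
            rw [this, hw0]
            simp only [sum_const, card_univ, nsmul_eq_mul, mul_zero, Complex.zero_re]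
            ring
    have h3 : (Fintype.card C : ℝ) * ∑ c : I → C, ‖XX M a w (insert i s) c‖ ^ 4
        ≤ Fintype.card C * ∑ c : I → C, (‖XX M a w s c‖ ^ 4
          + 32 * ‖a i‖ ^ 2 * ‖XX M a w s c‖ ^ 2 + 48 * ‖a i‖ ^ 4) := by
      rw [h1, mul_sum]
      exact sum_le_sum fun c _ => h2 c
    have h4 := le_of_mul_le_mul_left h3 hC
    refine h4.trans ?_
    rw [sum_add_distrib, sum_add_distrib, ← mul_sum, second M a w hw0 hv s, sum_insert hi,
      sum_const, card_univ, nsmul_eq_mul]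
    set q := ∑ i ∈ s, ‖a i‖ ^ 2 with hq
    have hq0 : 0 ≤ q := sum_nonneg fun _ _ => sq_nonneg _
    have h5 : v * q ≤ q := by nlinarith
    have h6 : 32 * ‖a i‖ ^ 2 * ((‖M‖ ^ 2 + v * q) * (Fintype.card (I → C) : ℝ))
        ≤ 32 * ‖a i‖ ^ 2 * ((‖M‖ ^ 2 + q) * (Fintype.card (I → C) : ℝ)) := by
      gcongr
    have h7 : 48 * (‖M‖ ^ 2 + q) ^ 2 + 32 * ‖a i‖ ^ 2 * (‖M‖ ^ 2 + q) + 48 * ‖a i‖ ^ 4
        ≤ 48 * (‖M‖ ^ 2 + (‖a i‖ ^ 2 + q)) ^ 2 := by
      nlinarith [sq_nonneg ‖a i‖, sq_nonneg ‖M‖, mul_nonneg (sq_nonneg ‖a i‖) (sq_nonneg ‖M‖),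
        mul_nonneg (sq_nonneg ‖a i‖) hq0]
    nlinarith [mul_le_mul_of_nonneg_right h7 hCI]

/-- small ball estimate for a sum of independent unimodular variables -/
theorem smallball {I : Type} [Fintype I] [DecidableEq I] (m : ℂ) (a : I → ℂ) (u : C → ℂ)
    (hu : ∀ x, ‖u x‖ = 1) {v : ℝ} (hv0 : 0 < v)
    (hv : v * Fintype.card C ≤ ∑ x, ‖u x - (∑ y, u y) / Fintype.card C‖ ^ 2) :
    v ^ 2 / 192 * Fintype.card (I → C)
      ≤ cnt (fun c : I → C => v / 2 * ∑ i, ‖a i‖ ^ 2 ≤ ‖m + ∑ i, a i * u (c i)‖ ^ 2) := by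
  have hC : (0 : ℝ) < Fintype.card C := by exact_mod_cast Fintype.card_pos
  have hCc : (Fintype.card C : ℂ) ≠ 0 := by exact_mod_cast hC.ne'
  set D : ℂ := (∑ y, u y) / Fintype.card C with hD
  set w : C → ℂ := fun x => u x - D with hw
  set v' : ℝ := (∑ x, ‖w x‖ ^ 2) / Fintype.card C with hv'
  have hw0 : ∑ x, w x = 0 := by
    simp only [hw, sum_sub_distrib, sum_const, card_univ, nsmul_eq_mul]
    rw [hD]
    field_simp
    simp
  have hDn : ‖D‖ ≤ 1 := by
    rw [hD, norm_div, Complex.norm_natCast, div_le_one hC]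
    refine (norm_sum_le _ _).trans ?_
    simp [hu]
  have hw2 : ∀ x, ‖w x‖ ≤ 2 := fun x => by
    refine (norm_sub_le _ _).trans ?_
    rw [hu]
    linarith
  have hvv : ∑ x, ‖w x‖ ^ 2 = v' * Fintype.card C := by
    rw [hv']; field_simp
  have hv'1 : v' ≤ 1 := by
    have h1 : ∑ x, ‖u x‖ ^ 2 = ∑ x, ‖w x‖ ^ 2 + Fintype.card C * ‖D‖ ^ 2 := by
      have h2 : ∀ x, ‖u x‖ ^ 2 = ‖D‖ ^ 2 + 2 * (conj D * w x).re + ‖w x‖ ^ 2 := by
        intro x
        rw [← sq_add]
        simp [hw]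
      simp only [h2]
      rw [sum_add_distrib, sum_add_distrib, ← mul_sum, ← Complex.re_sum, ← mul_sum, hw0]
      simp only [sum_const, card_univ, nsmul_eq_mul, mul_zero, Complex.zero_re]
      ring
    have h3 : ∑ x, ‖u x‖ ^ 2 = Fintype.card C := by simp [hu]
    rw [hv', div_le_one hC]
    nlinarith [sq_nonneg ‖D‖]
  have hvle : v ≤ v' := by
    rw [hv', le_div_iff₀ hC]
    exact hv
  have hv1 : v ≤ 1 := hvle.trans hv'1
  set M : ℂ := m + D * ∑ i, a i with hM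
  have hX : ∀ c : I → C, m + ∑ i, a i * u (c i) = XX M a w univ c := by
    intro c
    simp only [XX, hM, hw, mul_sub, sum_sub_distrib, mul_sum]
    have : ∑ i, D * a i = ∑ i, a i * D := sum_congr rfl fun i _ => mul_comm _ _
    rw [this]
    ring
  simp only [hX]
  set q : ℝ := ‖M‖ ^ 2 + ∑ i, ‖a i‖ ^ 2 with hq
  have hq1 : 0 ≤ ∑ i, ‖a i‖ ^ 2 := sum_nonneg fun _ _ => sq_nonneg _
  have hq0 : 0 ≤ q := by positivity
  rcases hq0.eq_or_lt with h0 | h0
  · have h1 : ∑ i, ‖a i‖ ^ 2 = 0 := by nlinarith [sq_nonneg ‖M‖]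
    have h2 : cnt (fun c : I → C => v / 2 * ∑ i, ‖a i‖ ^ 2 ≤ ‖XX M a w univ c‖ ^ 2)
        = Fintype.card (I → C) := by
      unfold cnt
      have : ∀ c : I → C, v / 2 * ∑ i, ‖a i‖ ^ 2 ≤ ‖XX M a w univ c‖ ^ 2 := fun c => by
        rw [h1, mul_zero]; positivity
      simp only [this, if_true, sum_const, card_univ, nsmul_eq_mul, mul_one]
    rw [h2]
    have : v ^ 2 / 192 ≤ 1 := by nlinarith
    nlinarith [(by positivity : (0 : ℝ) ≤ Fintype.card (I → C))]
  · have h2 := second M a w hw0 hvv (univ : Finset I)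
    have h4 := fourth M a w hw0 hw2 hv'1 hvv (univ : Finset I)
    have h5 := pz (fun c : I → C => ‖XX M a w univ c‖ ^ 2) (fun _ => sq_nonneg _) hv0 h0
      (by norm_num : (0 : ℝ) < 48) (by
        rw [h2]
        gcongr
        nlinarith [sq_nonneg ‖M‖]) (by
        simp only [← pow_mul]
        exact h4)
    have e5 : v ^ 2 / (4 * 48) = v ^ 2 / 192 := by norm_num
    rw [e5] at h5
    refine h5.trans (cnt_mono fun c hc => ?_)
    refine le_trans ?_ hc
    nlinarith [sq_nonneg ‖M‖]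

end

end Pool.Agent.R246.LorB
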