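import Mathlib
import Pool.Agent.R246.LorB

/-!
# Small ball estimates for random Cantor cascades
-/

namespace Pool.Agent.R246.LorC

open scoped ENNReal Topology ComplexConjugate NNReal
open Filter MeasureTheory Real Finset
open Pool.Agent.R246.LorA Pool.Agent.R246.LorB

noncomputable section

variable {d : ℕ}

/-- total weight of the full levels -/
def pr (d : ℕ) : List Bool → ℝ
  | [] => 1
  | true :: L => ((2 : ℝ) ^ d)⁻¹ * pr d L
  | false :: L => pr d L

theorem pr_pos : (L : List Bool) → 0 < pr d L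
  | [] => by simp [pr]
  | true :: L => by
      have := pr_pos L
      show 0 < ((2 : ℝ) ^ d)⁻¹ * pr d L
      positivity
  | false :: L => pr_pos L

theorem card_CC : (Fintype.card (CC d) : ℝ) = 2 ^ d := by
  simp [CC]

theorem vec_upd (c : CC d) (i0 : Fin d) (η : E d) :
    inner ℝ (vec (Function.update c i0 true)) η
      = inner ℝ (vec (Function.update c i0 false)) η + η i0 := by
  have h : vec (Function.update c i0 true)
      = vec (Function.update c i0 false) + EuclideanSpace.single i0 (1 : ℝ) := by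
    ext j
    rw [PiLp.add_apply, vec_apply, vec_apply]
    by_cases hj : j = i0
    · subst hj; simp
    · simp [hj]
  rw [h, inner_add_left, EuclideanSpace.inner_single_left]
  simp

theorem one_sub_ee {t r : ℝ} (hr : 0 < r) (h1 : r ≤ t) (h2 : t ≤ 1 / 4) :
    4 * r ≤ ‖ee t - 1‖ := by
  have hs : 4 * t ≤ Real.sin (2 * π * t) := by
    have := Real.mul_le_sin (x := 2 * π * t) (by have := Real.pi_pos; nlinarith [Real.pi_pos])
      (by nlinarith [Real.pi_pos])
    refine le_trans (le_of_eq ?_) this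
    field_simp
    ring
  have h3 : |(ee t - 1).im| ≤ ‖ee t - 1‖ := Complex.abs_im_le_norm _
  have h4 : (ee t - 1).im = - Real.sin (2 * π * t) := by
    unfold ee
    have : (-(2 * π * t) * Complex.I : ℂ) = ((-(2 * π * t) : ℝ) : ℂ) * Complex.I := by
      push_cast; ring
    rw [this, Complex.sub_im, Complex.exp_ofReal_mul_I_im, Real.sin_neg]
    simp
  rw [h4, abs_neg] at h3
  have h5 := le_abs_self (Real.sin (2 * π * t))
  linarith

theorem variance (η : E d) (i0 : Fin d) {r : ℝ} (hr : 0 < r) (h1 : r ≤ η i0) (h2 : η i0 ≤ 1 / 4) :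
    (4 * r ^ 2) * Fintype.card (CC d) ≤ ∑ c : CC d,
      ‖ee (inner ℝ (vec c) η) - (∑ y : CC d, ee (inner ℝ (vec y) η)) / Fintype.card (CC d)‖ ^ 2 := by
  set D : ℂ := (∑ y : CC d, ee (inner ℝ (vec y) η)) / Fintype.card (CC d) with hD
  have h3 := avg_coord (C := Bool) i0 (fun c : CC d => ‖ee (inner ℝ (vec c) η) - D‖ ^ 2)
  have h4 : ∀ c : CC d, 8 * r ^ 2
      ≤ ∑ x : Bool, ‖ee (inner ℝ (vec (Function.update c i0 x)) η) - D‖ ^ 2 := by
    intro c
    rw [Fintype.sum_bool, vec_upd, ee_add]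
    set z := ee (inner ℝ (vec (Function.update c i0 false)) η) with hz
    have hz1 : ‖z‖ = 1 := ee_norm _
    have h5 : ‖z * ee (η i0) - z‖ ≤ ‖z * ee (η i0) - D‖ + ‖z - D‖ := by
      have : z * ee (η i0) - z = (z * ee (η i0) - D) - (z - D) := by ring
      rw [this]
      exact norm_sub_le _ _
    have h6 : ‖z * ee (η i0) - z‖ = ‖ee (η i0) - 1‖ := by
      have : z * ee (η i0) - z = z * (ee (η i0) - 1) := by ring
      rw [this, norm_mul, hz1, one_mul]
    have h7 := one_sub_ee hr h1 h2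
    nlinarith [norm_nonneg (z * ee (η i0) - D), norm_nonneg (z - D),
      sq_nonneg (‖z * ee (η i0) - D‖ - ‖z - D‖)]
  have h5 : (8 * r ^ 2) * Fintype.card (CC d) ≤ ∑ c : CC d, ∑ x : Bool,
      ‖ee (inner ℝ (vec (Function.update c i0 x)) η) - D‖ ^ 2 := by
    calc (8 * r ^ 2) * Fintype.card (CC d) = ∑ _c : CC d, 8 * r ^ 2 := by
          rw [sum_const, card_univ, nsmul_eq_mul]; ring
      _ ≤ _ := sum_le_sum fun c _ => h4 c
  rw [← h3] at h5
  rw [Fintype.card_bool] at h5
  push_cast at h5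
  linarith

/-- small ball estimate for cascades -/
theorem gsb (L' : List Bool) (i0 : Fin d) {r : ℝ} (hr : 0 < r) :
    (U : List Bool) → ∀ (I : Type) [Fintype I] [DecidableEq I] (b : I → ℂ) (m : ℂ) (ξ : E d),
      r ≤ ((1 / 2 : ℝ) ^ (U.length + 1) • ξ) i0 →
      ((1 / 2 : ℝ) ^ (U.length + 1) • ξ) i0 ≤ 1 / 4 →
      2 * π * (√d * ‖(1 / 2 : ℝ) ^ (U.length + 1) • ξ‖) ≤ 1 / 2 →
      (4 * r ^ 2) ^ 2 / 192 * Fintype.card (I → Gen d (U ++ false :: L'))
        ≤ cnt (fun g : I → Gen d (U ++ false :: L') =>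
          (4 * r ^ 2) / 8 * (pr d U * ∑ i, ‖b i‖ ^ 2)
            ≤ ‖m + ∑ i, b i * FF (U ++ false :: L') (g i) ξ‖ ^ 2)
  | [] => fun I _ _ b m ξ h1 h2 h3 => by
      simp only [List.length_nil, zero_add, pow_one] at h1 h2 h3
      let e : (I → Gen d (false :: L')) ≃ (I → CC d) × (I → Gen d L') :=
        Equiv.arrowProdEquivProdArrow I (fun _ => CC d) (fun _ => Gen d L')
      rw [cnt_equiv e]
      have hc : Fintype.card (I → Gen d ([] ++ false :: L'))
          = Fintype.card ((I → CC d) × (I → Gen d L')) := Fintype.card_congr e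
      rw [hc]
      refine cnt_prod _ fun γ => ?_
      have hv := variance ((1 / 2 : ℝ) • ξ) i0 hr h1 h2
      have key := smallball m (fun i => b i * FF L' (γ i) ((1 / 2 : ℝ) • ξ))
        (fun c : CC d => ee (inner ℝ (vec c) ((1 / 2 : ℝ) • ξ))) (fun _ => ee_norm _)
        (by positivity : (0 : ℝ) < 4 * r ^ 2) hv
      refine key.trans (cnt_mono fun c hc => ?_)
      have e1 : m + ∑ i, b i * FF ([] ++ false :: L') (e.symm (c, γ) i) ξ
          = m + ∑ i, b i * FF L' (γ i) ((1 / 2 : ℝ) • ξ)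
            * ee (inner ℝ (vec (c i)) ((1 / 2 : ℝ) • ξ)) := by
        congr 1
        refine sum_congr rfl fun i _ => ?_
        have h4 : FF ([] ++ false :: L') (e.symm (c, γ) i) ξ
            = ee (inner ℝ (vec (c i)) ((1 / 2 : ℝ) • ξ)) * FF L' (γ i) ((1 / 2 : ℝ) • ξ) :=
          FF_false L' (c i, γ i) ξ
        rw [h4]
        ring
      rw [e1]
      refine le_trans ?_ hc
      have h5 : ∀ i, ‖b i‖ ^ 2 / 4 ≤ ‖b i * FF L' (γ i) ((1 / 2 : ℝ) • ξ)‖ ^ 2 := by
        intro i
        have h6 := (FF_near L' (γ i) ((1 / 2 : ℝ) • ξ)).trans h3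
        have h7 : 1 / 2 ≤ ‖FF L' (γ i) ((1 / 2 : ℝ) • ξ)‖ := by
          have h8 := norm_sub_norm_le (1 : ℂ) (1 - FF L' (γ i) ((1 / 2 : ℝ) • ξ))
          rw [norm_sub_rev] at h6
          simp only [norm_one, sub_sub_cancel] at h8
          linarith
        rw [norm_mul, mul_pow]
        have h9 := pow_le_pow_left₀ (by norm_num) h7 2
        nlinarith [mul_le_mul_of_nonneg_left h9 (sq_nonneg ‖b i‖)]
      calc 4 * r ^ 2 / 8 * (pr d [] * ∑ i, ‖b i‖ ^ 2)
          = 4 * r ^ 2 / 2 * ∑ i, ‖b i‖ ^ 2 / 4 := by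
            rw [← sum_div]; simp only [pr]; ring
        _ ≤ _ := by
            gcongr with i
            exact h5 i
  | false :: U => fun I _ _ b m ξ h1 h2 h3 => by
      have hsm : (1 / 2 : ℝ) ^ ((false :: U).length + 1) • ξ
          = (1 / 2 : ℝ) ^ (U.length + 1) • ((1 / 2 : ℝ) • ξ) := by
        rw [smul_smul, List.length_cons, pow_succ (1 / 2 : ℝ) (U.length + 1)]
      rw [hsm] at h1 h2 h3
      let e : (I → Gen d (false :: (U ++ false :: L'))) ≃ (I → CC d) × (I → Gen d (U ++ false :: L')) :=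
        Equiv.arrowProdEquivProdArrow I (fun _ => CC d) (fun _ => Gen d (U ++ false :: L'))
      rw [cnt_equiv e]
      have hc : Fintype.card (I → Gen d (false :: U ++ false :: L'))
          = Fintype.card ((I → CC d) × (I → Gen d (U ++ false :: L'))) := Fintype.card_congr e
      rw [hc]
      refine cnt_prod' _ fun c => ?_
      have key := gsb L' i0 hr U I (fun i => b i * ee (inner ℝ (vec (c i)) ((1 / 2 : ℝ) • ξ))) m
        ((1 / 2 : ℝ) • ξ) h1 h2 h3
      refine key.trans (cnt_mono fun γ hγ => ?_)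
      have e1 : m + ∑ i, b i * FF (false :: U ++ false :: L') (e.symm (c, γ) i) ξ
          = m + ∑ i, b i * ee (inner ℝ (vec (c i)) ((1 / 2 : ℝ) • ξ))
            * FF (U ++ false :: L') (γ i) ((1 / 2 : ℝ) • ξ) := by
        congr 1
        refine sum_congr rfl fun i _ => ?_
        have h4 : FF (false :: U ++ false :: L') (e.symm (c, γ) i) ξ
            = ee (inner ℝ (vec (c i)) ((1 / 2 : ℝ) • ξ))
              * FF (U ++ false :: L') (γ i) ((1 / 2 : ℝ) • ξ) :=
          FF_false (U ++ false :: L') (c i, γ i) ξ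
        rw [h4]
        ring
      rw [e1]
      refine le_trans (le_of_eq ?_) hγ
      have h5 : ∀ i, ‖b i * ee (inner ℝ (vec (c i)) ((1 / 2 : ℝ) • ξ))‖ = ‖b i‖ := by
        intro i
        rw [norm_mul, ee_norm, mul_one]
      simp only [h5]
      rfl
  | true :: U => fun I _ _ b m ξ h1 h2 h3 => by
      have hsm : (1 / 2 : ℝ) ^ ((true :: U).length + 1) • ξ
          = (1 / 2 : ℝ) ^ (U.length + 1) • ((1 / 2 : ℝ) • ξ) := by
        rw [smul_smul, List.length_cons, pow_succ (1 / 2 : ℝ) (U.length + 1)]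
      rw [hsm] at h1 h2 h3
      let e : (I → Gen d (true :: (U ++ false :: L'))) ≃ (I × CC d → Gen d (U ++ false :: L')) :=
        (Equiv.curry I (CC d) (Gen d (U ++ false :: L'))).symm
      rw [cnt_equiv e]
      have hc : Fintype.card (I → Gen d (true :: U ++ false :: L'))
          = Fintype.card (I × CC d → Gen d (U ++ false :: L')) := Fintype.card_congr e
      rw [hc]
      have key := gsb L' i0 hr U (I × CC d)
        (fun z : I × CC d => b z.1 * (((2 : ℂ) ^ d)⁻¹ * ee (inner ℝ (vec z.2) ((1 / 2 : ℝ) • ξ)))) m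
        ((1 / 2 : ℝ) • ξ) h1 h2 h3
      refine key.trans (cnt_mono fun w hw => ?_)
      have e1 : m + ∑ i, b i * FF (true :: U ++ false :: L') (e.symm w i) ξ
          = m + ∑ z : I × CC d, b z.1 * (((2 : ℂ) ^ d)⁻¹
              * ee (inner ℝ (vec z.2) ((1 / 2 : ℝ) • ξ)))
            * FF (U ++ false :: L') (w z) ((1 / 2 : ℝ) • ξ) := by
        congr 1
        rw [Fintype.sum_prod_type]
        refine sum_congr rfl fun i _ => ?_
        have h4 : FF (true :: U ++ false :: L') (e.symm w i) ξ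
            = ∑ c : CC d, ((2 : ℂ) ^ d)⁻¹ * (ee (inner ℝ (vec c) ((1 / 2 : ℝ) • ξ))
              * FF (U ++ false :: L') (w (i, c)) ((1 / 2 : ℝ) • ξ)) :=
          FF_true (U ++ false :: L') (fun c => w (i, c)) ξ
        rw [h4, mul_sum]
        refine sum_congr rfl fun c _ => ?_
        ring
      rw [e1]
      refine le_trans (le_of_eq ?_) hw
      have h5 : ∀ (i : I) (c : CC d), ‖b i * (((2 : ℂ) ^ d)⁻¹
          * ee (inner ℝ (vec c) ((1 / 2 : ℝ) • ξ)))‖ = ‖b i‖ * ((2 : ℝ) ^ d)⁻¹ := by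
        intro i c
        rw [norm_mul, norm_mul, ee_norm, mul_one, norm_inv, norm_pow]
        simp
      rw [Fintype.sum_prod_type]
      simp only [h5, mul_pow]
      simp only [sum_const, card_univ, nsmul_eq_mul, card_CC]
      rw [← mul_sum, ← sum_mul]
      show 4 * r ^ 2 / 8 * (((2 : ℝ) ^ d)⁻¹ * pr d U * ∑ i, ‖b i‖ ^ 2) = _
      field_simp

end

end Pool.Agent.R246.LorC
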