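import Mathlib
import Pool.Agent.R246.LorA

/-!
# Definitions: Fourier transform of signed measures, the negative Besov norm, Lorentz quasi-norms
-/

namespace Pool.Agent.R246.LorDef

open scoped ENNReal Topology ComplexConjugate NNReal
open Filter MeasureTheory Real Finset
open Pool.Agent.R246.LorA

noncomputable section

variable {d : ℕ}

/-- the Fourier transform `ξ ↦ ∫ exp(-2π i x·ξ) ds(x)` of a finite signed measure -/
def ft (s : SignedMeasure (E d)) (ξ : E d) : ℂ :=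
  (∫ x, ee (inner ℝ x ξ) ∂s.toJordanDecomposition.posPart)
    - ∫ x, ee (inner ℝ x ξ) ∂s.toJordanDecomposition.negPart

/-- the Fourier transform of the Riesz potential of order `α` -/
def rieszFT (α : ℝ) (s : SignedMeasure (E d)) (ξ : E d) : ℂ :=
  (((2 * π * ‖ξ‖) ^ (-α) : ℝ) : ℂ) * ft s ξ

/-- the heat kernel -/
def hk (d : ℕ) (t : ℝ) (x : E d) : ℝ := (4 * π * t) ^ (-(d : ℝ) / 2) * rexp (-‖x‖ ^ 2 / (4 * t))

/-- the heat extension of a signed measure -/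
def heat (s : SignedMeasure (E d)) (t : ℝ) (x : E d) : ℝ :=
  (∫ y, hk d t (x - y) ∂s.toJordanDecomposition.posPart)
    - ∫ y, hk d t (x - y) ∂s.toJordanDecomposition.negPart

/-- the total variation norm -/
def tv (s : SignedMeasure (E d)) : ℝ≥0∞ := s.totalVariation Set.univ

/-- the homogeneous Besov norm of order `β - d` -/
def besov (β : ℝ) (s : SignedMeasure (E d)) : ℝ≥0∞ :=
  ⨆ t : Set.Ioi (0 : ℝ), ENNReal.ofReal ((t : ℝ) ^ (((d : ℝ) - β) / 2)) * ⨆ x, ‖heat s t x‖ₑ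

/-- the decreasing rearrangement -/
def rearr (g : E d → ℂ) (s : ℝ) : ℝ≥0∞ :=
  sInf {t : ℝ≥0∞ | volume {x | t < ‖g x‖ₑ} ≤ ENNReal.ofReal s}

/-- the `q`-th power of the Lorentz quasi-norm -/
def lorq (p q : ℝ) (g : E d → ℂ) : ℝ≥0∞ :=
  ∫⁻ s in Set.Ioi (0 : ℝ), (ENNReal.ofReal (s ^ (1 / p)) * rearr g s) ^ q / ENNReal.ofReal s

/-- the Lorentz quasi-norm -/
def lorentz (p q : ℝ) (g : E d → ℂ) : ℝ≥0∞ :=
  (∫⁻ s in Set.Ioi (0 : ℝ), (ENNReal.ofReal (s ^ (1 / p)) * rearr g s) ^ q / ENNReal.ofReal s)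
    ^ (1 / q)

theorem lorentz_eq (p q : ℝ) (g : E d → ℂ) : lorentz p q g = lorq p q g ^ (1 / q) := rfl

end

end Pool.Agent.R246.LorDef
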