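import Mathlib
import Pool.Agent.R246.LorC
import Pool.Agent.R246.LorDef

/-!
# Mass of dyadic cubes under a cascade, and the heat extension
-/

namespace Pool.Agent.R246.LorD

open scoped ENNReal Topology ComplexConjugate NNReal
open Filter MeasureTheory Real Finset
open Pool.Agent.R246.LorA Pool.Agent.R246.LorB Pool.Agent.R246.LorC Pool.Agent.R246.LorDef

noncomputable section

variable {d : ℕ}

/-- dyadic cubes -/
def cube (k : ℕ) (n : Fin d → ℤ) : Set (E d) := {x | ∀ i, ⌊(2 : ℝ) ^ k * x i⌋ = n i}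

theorem cube_eq (k : ℕ) (n : Fin d → ℤ) :
    cube k n = WithLp.ofLp ⁻¹' (Set.univ.pi fun i : Fin d =>
      Set.Ico ((n i : ℝ) / 2 ^ k) (((n i : ℝ) + 1) / 2 ^ k)) := by
  ext x
  simp only [cube, Set.mem_ofPred_eq, Set.mem_preimage, Set.mem_pi, Set.mem_univ, true_imp_iff,
    Set.mem_Ico, Int.floor_eq_iff]
  refine forall_congr' fun i => ?_
  rw [div_le_iff₀' (by positivity), lt_div_iff₀' (by positivity)]

theorem cube_meas (k : ℕ) (n : Fin d → ℤ) : MeasurableSet (cube k n) := by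
  rw [cube_eq]
  exact (PiLp.volume_preserving_ofLp (Fin d)).measurable
    (MeasurableSet.univ_pi fun _ => measurableSet_Ico)

theorem cube_vol (k : ℕ) (n : Fin d → ℤ) : volume (cube k n) = (((2 : ℝ≥0∞) ^ d)⁻¹) ^ k := by
  rw [cube_eq, (PiLp.volume_preserving_ofLp (Fin d)).measure_preimage
    ((MeasurableSet.univ_pi fun _ => measurableSet_Ico).nullMeasurableSet), volume_pi_pi]
  simp only [Real.volume_Ico]
  have h : ∀ i, ENNReal.ofReal (((n i : ℝ) + 1) / 2 ^ k - (n i : ℝ) / 2 ^ k)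
      = ((2 : ℝ≥0∞) ^ k)⁻¹ := by
    intro i
    rw [← sub_div, add_sub_cancel_left, ENNReal.ofReal_div_of_pos (by positivity),
      ENNReal.ofReal_one, ENNReal.ofReal_pow (by norm_num), ENNReal.ofReal_ofNat, one_div]
  simp only [h, prod_const, card_univ, Fintype.card_fin]
  rw [← ENNReal.inv_pow, ← ENNReal.inv_pow, ← pow_mul, ← pow_mul, mul_comm]

/-- bounds of the masses of dyadic cubes -/
def bd (d : ℕ) : List Bool → ℕ → ℝ≥0∞
  | [], k => (((2 : ℝ≥0∞) ^ d)⁻¹) ^ k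
  | _ :: _, 0 => 1
  | true :: L, k + 1 => ((2 : ℝ≥0∞) ^ d)⁻¹ * bd d L k
  | false :: L, k + 1 => bd d L k

theorem pre_cube (c : CC d) (k : ℕ) (n : Fin d → ℤ) :
    sc c ⁻¹' (cube (k + 1) n) = cube k (fun i => n i - if c i then 2 ^ k else 0) := by
  ext x
  simp only [cube, Set.mem_preimage, Set.mem_ofPred_eq, sc_apply]
  refine forall_congr' fun i => ?_
  by_cases h : c i
  · simp only [h, if_true]
    have : (2 : ℝ) ^ (k + 1) * ((x i + 1) / 2) = 2 ^ k * x i + ((2 ^ k : ℤ) : ℝ) := by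
      push_cast; rw [pow_succ]; ring
    rw [this, Int.floor_add_intCast]
    constructor <;> intro h <;> linarith
  · simp only [h]
    have : (2 : ℝ) ^ (k + 1) * ((x i + 0) / 2) = 2 ^ k * x i := by
      rw [pow_succ]; ring
    simp only [Bool.false_eq_true, if_false, this, sub_zero]

theorem cube_far (k : ℕ) (n : Fin d → ℤ) (i : Fin d) (h : n i < 0 ∨ 2 ^ k ≤ n i) :
    cube k n ⊆ (Q0 d)ᶜ := by
  intro x hx hx2
  have h1 := hx i
  have h2 := hx2 i
  rw [Int.floor_eq_iff] at h1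
  rcases h with h | h
  · have h3 : (n i : ℝ) + 1 ≤ 0 := by exact_mod_cast h
    have h4 : 0 ≤ (2 : ℝ) ^ k * x i := mul_nonneg (by positivity) h2.1
    linarith [h1.2]
  · have h3 : (2 : ℝ) ^ k ≤ n i := by exact_mod_cast h
    have h4 : (2 : ℝ) ^ k * x i < 2 ^ k * 1 := mul_lt_mul_of_pos_left h2.2 (by positivity)
    linarith [h1.1]

theorem mu_cube : (L : List Bool) → (g : Gen d L) → (k : ℕ) → (n : Fin d → ℤ) →
    mu d L g (cube k n) ≤ bd d L k
  | [], _, k, n => by
      show (volume.restrict (Q0 d)) (cube k n) ≤ (((2 : ℝ≥0∞) ^ d)⁻¹) ^ k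
      rw [← cube_vol k n]
      exact Measure.restrict_apply_le _ _
  | true :: L, g, 0, n => by
      have := mu_prob (true :: L) g
      show _ ≤ 1
      exact prob_le_one
  | false :: L, g, 0, n => by
      have := mu_prob (false :: L) g
      show _ ≤ 1
      exact prob_le_one
  | false :: L, g, k + 1, n => by
      show ((mu d L g.2).map (sc g.1)) (cube (k + 1) n) ≤ bd d L k
      rw [Measure.map_apply (sc_meas g.1) (cube_meas _ _), pre_cube]
      exact mu_cube L g.2 k _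
  | true :: L, g, k + 1, n => by
      show (((2 : ℝ≥0∞) ^ d)⁻¹ • ∑ c : CC d, (mu d L (g c)).map (sc c)) (cube (k + 1) n)
        ≤ ((2 : ℝ≥0∞) ^ d)⁻¹ * bd d L k
      rw [Measure.smul_apply, Measure.finsetSum_apply, smul_eq_mul]
      refine mul_le_mul' le_rfl ?_
      set c₀ : CC d := fun i => decide ((2 : ℤ) ^ k ≤ n i) with hc₀
      rw [sum_eq_single c₀]
      · rw [Measure.map_apply (sc_meas _) (cube_meas _ _), pre_cube]
        exact mu_cube L (g c₀) k _
      · intro c _ hc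
        rw [Measure.map_apply (sc_meas _) (cube_meas _ _), pre_cube]
        obtain ⟨i, hi⟩ := Function.ne_iff.mp hc
        refine measure_mono_null (cube_far k _ i ?_) (mu_supp L (g c))
        simp only [hc₀] at hi
        by_cases h : (2 : ℤ) ^ k ≤ n i
        · simp only [h, decide_true] at hi
          have h2 : c i = false := by simpa using hi
          right
          simp [h2, h]
        · simp only [h, decide_false] at hi
          have h2 : c i = true := by simpa using hi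
          left
          simp only [h2, if_true]
          push Not at h
          linarith
      · intro h
        exact absurd (mem_univ _) h

/-- the counting function of the full levels -/
def fl (θ : ℝ) (k : ℕ) : ℕ := ⌊(k : ℝ) * θ⌋₊

theorem fl_zero (θ : ℝ) : fl θ 0 = 0 := by simp [fl]

theorem fl_mono {θ : ℝ} (h0 : 0 ≤ θ) (k : ℕ) : fl θ k ≤ fl θ (k + 1) := by
  unfold fl
  apply Nat.floor_mono
  push_cast
  nlinarith

theorem fl_succ {θ : ℝ} (h0 : 0 ≤ θ) (h1 : θ ≤ 1) (k : ℕ) : fl θ (k + 1) ≤ fl θ k + 1 := by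
  unfold fl
  rw [← Nat.floor_add_one (by positivity)]
  apply Nat.floor_mono
  push_cast
  nlinarith

/-- the list of the flags of the levels `a, ..., a + N - 1` -/
def TT (θ : ℝ) (a : ℕ) : ℕ → List Bool
  | 0 => []
  | N + 1 => decide (fl θ (a + 1) = fl θ a + 1) :: TT θ (a + 1) N

theorem TT_length (θ : ℝ) (a N : ℕ) : (TT θ a N).length = N := by
  induction N generalizing a with
  | zero => rfl
  | succ N ih => simp [TT, ih]

theorem TT_split (θ : ℝ) (a k m : ℕ) :
    TT θ a (k + (m + 1)) = TT θ a k ++ decide (fl θ (a + k + 1) = fl θ (a + k) + 1)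
      :: TT θ (a + k + 1) m := by
  induction k generalizing a with
  | zero => simp [TT]
  | succ k ih =>
    have e : k + 1 + (m + 1) = (k + (m + 1)) + 1 := by ring
    rw [e]
    show _ :: TT θ (a + 1) (k + (m + 1)) = _ :: (TT θ (a + 1) k ++ _)
    rw [ih (a + 1)]
    have e2 : a + 1 + k = a + (k + 1) := by ring
    rw [e2]

theorem pr_TT {θ : ℝ} (h0 : 0 ≤ θ) (h1 : θ ≤ 1) (a N : ℕ) :
    pr d (TT θ a N) * (((2 : ℝ) ^ d)⁻¹) ^ (fl θ a) = (((2 : ℝ) ^ d)⁻¹) ^ (fl θ (a + N)) := by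
  induction N generalizing a with
  | zero => simp [TT, pr]
  | succ N ih =>
    have ih' := ih (a + 1)
    have e2 : a + 1 + N = a + (N + 1) := by ring
    rw [e2] at ih'
    rw [← ih']
    by_cases h : fl θ (a + 1) = fl θ a + 1
    · have : pr d (TT θ a (N + 1)) = ((2 : ℝ) ^ d)⁻¹ * pr d (TT θ (a + 1) N) := by
        simp only [TT, h, decide_true, pr]
      rw [this, h, pow_succ]
      ring
    · have h2 := fl_mono h0 a
      have h3 := fl_succ h0 h1 a
      have h4 : fl θ (a + 1) = fl θ a := by omega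
      have : pr d (TT θ a (N + 1)) = pr d (TT θ (a + 1) N) := by
        simp only [TT, h, decide_false, pr]
      rw [this, h4]

theorem bd_TT {θ : ℝ} (h0 : 0 ≤ θ) (h1 : θ ≤ 1) (a N k : ℕ) :
    bd d (TT θ a N) k * (((2 : ℝ≥0∞) ^ d)⁻¹) ^ (fl θ a) ≤ (((2 : ℝ≥0∞) ^ d)⁻¹) ^ (fl θ (a + k)) := by
  have hle : ((2 : ℝ≥0∞) ^ d)⁻¹ ≤ 1 := by
    rw [ENNReal.inv_le_one]
    exact one_le_pow₀ (by norm_num)
  induction N generalizing a k with
  | zero =>
    show (((2 : ℝ≥0∞) ^ d)⁻¹) ^ k * _ ≤ _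
    rw [← pow_add]
    apply pow_le_pow_right_of_le_one' hle
    clear hle
    induction k with
    | zero => simp
    | succ k ih =>
      have := fl_succ h0 h1 (a + k)
      have e : a + (k + 1) = a + k + 1 := by ring
      rw [e]
      omega
  | succ N ih =>
    cases k with
    | zero =>
      have : bd d (TT θ a (N + 1)) 0 = 1 := by
        simp only [TT, bd]
      rw [this, one_mul]
      simp
    | succ k =>
      have ih' := ih (a + 1) k
      have e2 : a + 1 + k = a + (k + 1) := by ring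
      rw [e2] at ih'
      refine le_trans (le_of_eq ?_) ih'
      by_cases h : fl θ (a + 1) = fl θ a + 1
      · have : bd d (TT θ a (N + 1)) (k + 1) = ((2 : ℝ≥0∞) ^ d)⁻¹ * bd d (TT θ (a + 1) N) k := by
          simp only [TT, h, decide_true, bd]
        rw [this, h, pow_succ]
        ring
      · have h2 := fl_mono h0 a
        have h3 := fl_succ h0 h1 a
        have h4 : fl θ (a + 1) = fl θ a := by omega
        have : bd d (TT θ a (N + 1)) (k + 1) = bd d (TT θ (a + 1) N) k := by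
          simp only [TT, h, decide_false, bd]
        rw [this, h4]

/-- the Frostman bound -/
theorem frostman (hd : 0 < d) {β : ℝ} (h0 : 0 < β) (h1 : β ≤ d) (N : ℕ)
    (g : Gen d (TT (β / d) 0 N)) (k : ℕ) (n : Fin d → ℤ) :
    mu d (TT (β / d) 0 N) g (cube k n) ≤ ENNReal.ofReal (2 ^ d * ((2 : ℝ) ^ k) ^ (-β)) := by
  have hdR : (0 : ℝ) < d := by exact_mod_cast hd
  have hθ0 : 0 ≤ β / d := by positivity
  have hθ1 : β / d ≤ 1 := (div_le_one hdR).mpr h1
  have h2 := bd_TT (d := d) hθ0 hθ1 0 N k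
  rw [fl_zero, pow_zero, mul_one, zero_add] at h2
  refine (mu_cube _ g k n).trans (h2.trans ?_)
  have e1 : (((2 : ℝ≥0∞) ^ d)⁻¹) ^ (fl (β / d) k)
      = ENNReal.ofReal ((((2 : ℝ) ^ d)⁻¹) ^ (fl (β / d) k)) := by
    rw [ENNReal.ofReal_pow (by positivity), ENNReal.ofReal_inv_of_pos (by positivity),
      ENNReal.ofReal_pow (by norm_num), ENNReal.ofReal_ofNat]
  rw [e1]
  apply ENNReal.ofReal_le_ofReal
  have h3 : (k : ℝ) * (β / d) < fl (β / d) k + 1 := Nat.lt_floor_add_one _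
  have e2 : (((2 : ℝ) ^ d)⁻¹) ^ (fl (β / d) k) = (2 : ℝ) ^ (-((d : ℝ) * fl (β / d) k)) := by
    rw [Real.rpow_neg (by norm_num), inv_pow, ← pow_mul, ← Real.rpow_natCast]
    push_cast
    rfl
  have e3 : 2 ^ d * ((2 : ℝ) ^ k) ^ (-β) = (2 : ℝ) ^ ((d : ℝ) + k * (-β)) := by
    rw [Real.rpow_add (by norm_num), Real.rpow_natCast, ← Real.rpow_natCast (2 : ℝ) k,
      ← Real.rpow_mul (by norm_num)]
  rw [e2, e3]
  apply Real.rpow_le_rpow_of_exponent_le (by norm_num)
  have h4 : (d : ℝ) * ((k : ℝ) * (β / d)) = k * β := by field_simp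
  nlinarith

theorem pr_lower (hd : 0 < d) {β : ℝ} (h0 : 0 < β) (h1 : β ≤ d) (k : ℕ) :
    ((2 : ℝ) ^ k) ^ (-β) ≤ pr d (TT (β / d) 0 k) := by
  have hdR : (0 : ℝ) < d := by exact_mod_cast hd
  have hθ0 : 0 ≤ β / d := by positivity
  have hθ1 : β / d ≤ 1 := (div_le_one hdR).mpr h1
  have h2 := pr_TT (d := d) hθ0 hθ1 0 k
  rw [fl_zero, pow_zero, mul_one, zero_add] at h2
  rw [h2]
  have h3 : (fl (β / d) k : ℝ) ≤ (k : ℝ) * (β / d) := Nat.floor_le (by positivity)
  have e2 : (((2 : ℝ) ^ d)⁻¹) ^ (fl (β / d) k) = (2 : ℝ) ^ (-((d : ℝ) * fl (β / d) k)) := by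
    rw [Real.rpow_neg (by norm_num), inv_pow, ← pow_mul, ← Real.rpow_natCast]
    push_cast
    rfl
  have e3 : ((2 : ℝ) ^ k) ^ (-β) = (2 : ℝ) ^ (k * (-β)) := by
    rw [← Real.rpow_natCast (2 : ℝ) k, ← Real.rpow_mul (by norm_num)]
  rw [e2, e3]
  apply Real.rpow_le_rpow_of_exponent_le (by norm_num)
  have h4 : (d : ℝ) * ((k : ℝ) * (β / d)) = k * β := by field_simp
  nlinarith

open Classical in
/-- many random levels -/
theorem many_random (hd : 0 < d) {β : ℝ} (h0 : 0 < β) (h1 : β ≤ d) (N : ℕ) :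
    (N : ℝ) * (1 - β / d) ≤ (((range N).filter fun k =>
      fl (β / d) (k + 1) ≠ fl (β / d) k + 1).card : ℝ) := by
  have hdR : (0 : ℝ) < d := by exact_mod_cast hd
  have hθ0 : 0 ≤ β / d := by positivity
  have hθ1 : β / d ≤ 1 := (div_le_one hdR).mpr h1
  have h2 : N ≤ ((range N).filter fun k => fl (β / d) (k + 1) ≠ fl (β / d) k + 1).card
      + fl (β / d) N := by
    induction N with
    | zero => simp
    | succ N ih =>
      rw [range_add_one, filter_insert]
      have h3 := fl_mono hθ0 N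
      have h4 := fl_succ hθ0 hθ1 N
      split_ifs with h
      · rw [card_insert_of_notMem (by simp)]
        omega
      · push Not at h
        omega
  have h3 : (fl (β / d) N : ℝ) ≤ (N : ℝ) * (β / d) := Nat.floor_le (by positivity)
  have h4 : (N : ℝ) ≤ (((range N).filter fun k =>
      fl (β / d) (k + 1) ≠ fl (β / d) k + 1).card : ℝ) + fl (β / d) N := by exact_mod_cast h2
  nlinarith

/-! ### the heat kernel -/

theorem hk_pos (t : ℝ) (ht : 0 < t) (x : E d) : 0 < hk d t x := by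
  unfold hk; positivity

theorem hk_cont (t : ℝ) : Continuous (hk d t) := by
  unfold hk; fun_prop

theorem hk_int {t : ℝ} (ht : 0 < t) : ∫ x : E d, hk d t x = 1 := by
  unfold hk
  rw [integral_const_mul]
  have h1 : ∀ x : E d, rexp (-‖x‖ ^ 2 / (4 * t)) = rexp (-(1 / (4 * t)) * ‖x‖ ^ 2) := by
    intro x; congr 1; ring
  simp only [h1]
  rw [GaussianFourier.integral_rexp_neg_mul_sq_norm (by positivity)]
  have h2 : π / (1 / (4 * t)) = 4 * π * t := by field_simp
  rw [h2, finrank_euclideanSpace, Fintype.card_fin, ← Real.rpow_add (by positivity)]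
  have : -(d : ℝ) / 2 + (d : ℝ) / 2 = 0 := by ring
  rw [this, Real.rpow_zero]

theorem hk_integrable {t : ℝ} (ht : 0 < t) : Integrable (hk d t) := by
  by_contra h
  have := integral_undef h
  rw [hk_int ht] at this
  exact one_ne_zero this

theorem hk_lint {t : ℝ} (ht : 0 < t) (x : E d) :
    ∫⁻ y, ENNReal.ofReal (hk d t (x - y)) = 1 := by
  have h1 : ∫⁻ y, ENNReal.ofReal (hk d t (x - y)) = ∫⁻ y, ENNReal.ofReal (hk d t y) :=
    lintegral_sub_left_eq_self (fun y => ENNReal.ofReal (hk d t y)) x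
  rw [h1, ← ofReal_integral_eq_lintegral_ofReal (hk_integrable ht)
    (Eventually.of_forall fun y => (hk_pos t ht y).le), hk_int ht, ENNReal.ofReal_one]

theorem cube_dist {k : ℕ} {n : Fin d → ℤ} {y z : E d} (hy : y ∈ cube k n) (hz : z ∈ cube k n) :
    ‖y - z‖ ^ 2 ≤ d * (((2 : ℝ) ^ k)⁻¹) ^ 2 := by
  rw [EuclideanSpace.norm_eq, Real.sq_sqrt (sum_nonneg fun _ _ => sq_nonneg _)]
  calc ∑ i, ‖(y - z) i‖ ^ 2 ≤ ∑ _i : Fin d, (((2 : ℝ) ^ k)⁻¹) ^ 2 := by
        refine sum_le_sum fun i _ => ?_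
        have h1 := hy i
        have h2 := hz i
        rw [Int.floor_eq_iff] at h1 h2
        rw [PiLp.sub_apply, Real.norm_eq_abs, sq_abs]
        have hpos : (0 : ℝ) < 2 ^ k := by positivity
        have h3 : |y i - z i| ≤ ((2 : ℝ) ^ k)⁻¹ := by
          have h4 : |(y i - z i) * 2 ^ k| ≤ 1 :=
            abs_le.mpr ⟨by nlinarith [h1.1, h1.2, h2.1, h2.2], by nlinarith [h1.1, h1.2, h2.1, h2.2]⟩
          rw [abs_mul, abs_of_pos hpos] at h4
          rw [← one_div, le_div_iff₀ hpos]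
          exact h4
        rw [← sq_abs]
        exact pow_le_pow_left₀ (abs_nonneg _) h3 2
    _ = _ := by rw [sum_const, card_univ, Fintype.card_fin, nsmul_eq_mul]

theorem hk_harnack {t : ℝ} (ht : 0 < t) {k : ℕ} (hk4 : (((2 : ℝ) ^ k)⁻¹) ^ 2 ≤ 4 * t)
    {n : Fin d → ℤ} {x y z : E d} (hy : y ∈ cube k n) (hz : z ∈ cube k n) :
    hk d t (x - y) ≤ 2 ^ ((d : ℝ) / 2) * rexp d * hk d (2 * t) (x - z) := by
  unfold hk
  have h1 := cube_dist hy hz
  have h2 : ‖x - z‖ ^ 2 ≤ 2 * ‖x - y‖ ^ 2 + 2 * ‖y - z‖ ^ 2 := by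
    have : x - z = (x - y) + (y - z) := by abel
    have h3 : ‖x - z‖ ≤ ‖x - y‖ + ‖y - z‖ := by rw [this]; exact norm_add_le _ _
    nlinarith [norm_nonneg (x - z), norm_nonneg (x - y), norm_nonneg (y - z),
      sq_nonneg (‖x - y‖ - ‖y - z‖)]
  have h4 : -‖x - y‖ ^ 2 / (4 * t) ≤ d + -‖x - z‖ ^ 2 / (4 * (2 * t)) := by
    have e : (d : ℝ) + -‖x - z‖ ^ 2 / (4 * (2 * t)) = (8 * t * d - ‖x - z‖ ^ 2) / (8 * t) := by
      field_simp
      ring
    have e2 : -‖x - y‖ ^ 2 / (4 * t) = (-(2 * ‖x - y‖ ^ 2)) / (8 * t) := by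
      field_simp
      ring
    rw [e, e2]
    apply div_le_div_of_nonneg_right _ (by positivity)
    have h5 : (d : ℝ) * (((2 : ℝ) ^ k)⁻¹) ^ 2 ≤ d * (4 * t) :=
      mul_le_mul_of_nonneg_left hk4 (by positivity)
    nlinarith
  have h5 : (4 * π * (2 * t)) ^ (-(d : ℝ) / 2) = 2 ^ (-(d : ℝ) / 2) * (4 * π * t) ^ (-(d : ℝ) / 2) := by
    rw [← Real.mul_rpow (by norm_num) (by positivity)]
    congr 1
    ring
  have h6 : (2 : ℝ) ^ ((d : ℝ) / 2) * 2 ^ (-(d : ℝ) / 2) = 1 := by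
    rw [← Real.rpow_add (by norm_num)]
    have : (d : ℝ) / 2 + -(d : ℝ) / 2 = 0 := by ring
    rw [this, Real.rpow_zero]
  calc (4 * π * t) ^ (-(d : ℝ) / 2) * rexp (-‖x - y‖ ^ 2 / (4 * t))
      ≤ (4 * π * t) ^ (-(d : ℝ) / 2) * rexp (d + -‖x - z‖ ^ 2 / (4 * (2 * t))) := by gcongr
    _ = 2 ^ ((d : ℝ) / 2) * rexp d
        * ((4 * π * (2 * t)) ^ (-(d : ℝ) / 2) * rexp (-‖x - z‖ ^ 2 / (4 * (2 * t)))) := by
      rw [h5, Real.exp_add]
      linear_combination (-(4 * π * t) ^ (-(d : ℝ) / 2) * (rexp d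
        * rexp (-‖x - z‖ ^ 2 / (4 * (2 * t))))) * h6

/-- same dyadic cube -/
def sm (d k : ℕ) : Set (E d × E d) := {z | ∀ i, ⌊(2 : ℝ) ^ k * z.1 i⌋ = ⌊(2 : ℝ) ^ k * z.2 i⌋}

theorem sm_meas (k : ℕ) : MeasurableSet (sm d k) := by
  unfold sm
  have : {z : E d × E d | ∀ i, ⌊(2 : ℝ) ^ k * z.1 i⌋ = ⌊(2 : ℝ) ^ k * z.2 i⌋}
      = ⋂ i, {z : E d × E d | ⌊(2 : ℝ) ^ k * z.1 i⌋ = ⌊(2 : ℝ) ^ k * z.2 i⌋} := by
    ext z; simp
  rw [this]
  refine MeasurableSet.iInter fun i => ?_
  refine measurableSet_eq_fun ?_ ?_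
  · exact Int.measurable_floor.comp
      ((by fun_prop : Continuous fun z : E d × E d => (2 : ℝ) ^ k * z.1 i).measurable)
  · exact Int.measurable_floor.comp
      ((by fun_prop : Continuous fun z : E d × E d => (2 : ℝ) ^ k * z.2 i).measurable)

/-- averaging over cubes -/
theorem heat_cube (μ : Measure (E d)) [IsProbabilityMeasure μ] {k : ℕ} {A : ℝ≥0∞}
    (hA : ∀ n, μ (cube k n) ≤ A) {t : ℝ} (ht : 0 < t) (hk4 : (((2 : ℝ) ^ k)⁻¹) ^ 2 ≤ 4 * t)
    (x : E d) :
    ∫⁻ y, ENNReal.ofReal (hk d t (x - y)) ∂μ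
      ≤ ENNReal.ofReal (2 ^ ((d : ℝ) / 2) * rexp d) * (((2 : ℝ≥0∞) ^ d) ^ k * A) := by
  set C : ℝ≥0∞ := ENNReal.ofReal (2 ^ ((d : ℝ) / 2) * rexp d) with hC
  set G : E d → ℝ≥0∞ := fun z => ENNReal.ofReal (hk d (2 * t) (x - z)) with hG
  have hGm : Measurable G :=
    ENNReal.measurable_ofReal.comp ((hk_cont _).comp (by fun_prop)).measurable
  have h1 : ∀ y, ENNReal.ofReal (hk d t (x - y))
      ≤ (C * ((2 : ℝ≥0∞) ^ d) ^ k) * ∫⁻ z, (sm d k).indicator (fun w => G w.2) (y, z) := by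
    intro y
    set n : Fin d → ℤ := fun i => ⌊(2 : ℝ) ^ k * y i⌋ with hn
    have hy : y ∈ cube k n := fun i => rfl
    have h2 : ∀ z, (cube k n).indicator (fun _ => ENNReal.ofReal (hk d t (x - y))) z
        ≤ C * (sm d k).indicator (fun w => G w.2) (y, z) := by
      intro z
      by_cases hz : z ∈ cube k n
      · rw [Set.indicator_of_mem hz, Set.indicator_of_mem (by
          show ∀ i, _
          intro i
          exact (hz i).symm)]
        rw [hC, hG, ← ENNReal.ofReal_mul (by positivity)]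
        exact ENNReal.ofReal_le_ofReal (hk_harnack ht hk4 hy hz)
      · rw [Set.indicator_of_notMem hz]
        exact zero_le
    have h3 := lintegral_mono (μ := (volume : Measure (E d))) h2
    rw [lintegral_indicator_const (cube_meas k n), cube_vol, lintegral_const_mul _ (by
      exact (((hGm.comp measurable_snd).indicator (sm_meas k)).comp
        measurable_prodMk_left))] at h3
    have h4 : ((2 : ℝ≥0∞) ^ d) ^ k * (((2 : ℝ≥0∞) ^ d)⁻¹) ^ k = 1 := by
      rw [← mul_pow, ENNReal.mul_inv_cancel (by positivity) (by finiteness), one_pow]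
    calc ENNReal.ofReal (hk d t (x - y))
        = ((2 : ℝ≥0∞) ^ d) ^ k * (ENNReal.ofReal (hk d t (x - y)) * (((2 : ℝ≥0∞) ^ d)⁻¹) ^ k) := by
          rw [mul_left_comm, h4, mul_one]
      _ ≤ ((2 : ℝ≥0∞) ^ d) ^ k * (C * ∫⁻ z, (sm d k).indicator (fun w => G w.2) (y, z)) :=
          mul_le_mul' le_rfl h3
      _ = _ := by ring
  have hm : Measurable (fun w : E d × E d => (sm d k).indicator (fun w => G w.2) w) :=
    (hGm.comp measurable_snd).indicator (sm_meas k)
  calc ∫⁻ y, ENNReal.ofReal (hk d t (x - y)) ∂μ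
      ≤ ∫⁻ y, ((C * ((2 : ℝ≥0∞) ^ d) ^ k)
          * ∫⁻ z, (sm d k).indicator (fun w => G w.2) (y, z)) ∂μ :=
        lintegral_mono h1
    _ = (C * ((2 : ℝ≥0∞) ^ d) ^ k)
          * ∫⁻ y, (∫⁻ z, (sm d k).indicator (fun w => G w.2) (y, z)) ∂μ :=
        lintegral_const_mul _ hm.lintegral_prod_right'
    _ = (C * ((2 : ℝ≥0∞) ^ d) ^ k)
          * ∫⁻ z, (∫⁻ y, (sm d k).indicator (fun w => G w.2) (y, z) ∂μ) := by
        congr 1
        exact lintegral_lintegral_swap (f := fun y z =>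
          (sm d k).indicator (fun w => G w.2) (y, z)) hm.aemeasurable
    _ ≤ (C * ((2 : ℝ≥0∞) ^ d) ^ k) * ∫⁻ z, A * G z := by
        refine mul_le_mul' le_rfl (lintegral_mono fun z => ?_)
        have h5 : ∀ y, (sm d k).indicator (fun w => G w.2) (y, z)
            = (cube k (fun i => ⌊(2 : ℝ) ^ k * z i⌋)).indicator (fun _ => G z) y := by
          intro y
          by_cases hy : y ∈ cube k (fun i => ⌊(2 : ℝ) ^ k * z i⌋)
          · rw [Set.indicator_of_mem hy, Set.indicator_of_mem (by exact hy)]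
          · rw [Set.indicator_of_notMem hy, Set.indicator_of_notMem (by exact hy)]
        simp only [h5]
        rw [lintegral_indicator_const (cube_meas _ _), mul_comm]
        exact mul_le_mul' (hA _) le_rfl
    _ = (C * ((2 : ℝ≥0∞) ^ d) ^ k) * (A * 1) := by
        rw [lintegral_const_mul _ hGm, hG, hk_lint (by positivity)]
    _ = _ := by ring

/-- the heat bound -/
theorem heat_bound (hd : 0 < d) {β : ℝ} (h0 : 0 < β) (h1 : β ≤ d)
    (μ : Measure (E d)) [IsProbabilityMeasure μ] {A : ℝ} (hA1 : 1 ≤ A)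
    (hA : ∀ k n, μ (cube k n) ≤ ENNReal.ofReal (A * ((2 : ℝ) ^ k) ^ (-β))) {t : ℝ} (ht : 0 < t)
    (x : E d) :
    ENNReal.ofReal (t ^ (((d : ℝ) - β) / 2)) * ∫⁻ y, ENNReal.ofReal (hk d t (x - y)) ∂μ
      ≤ ENNReal.ofReal (2 ^ ((d : ℝ) / 2) * rexp d * A) := by
  have hdR : (0 : ℝ) < d := by exact_mod_cast hd
  have hbig : (1 : ℝ) ≤ 2 ^ ((d : ℝ) / 2) * rexp d * A := by
    have h2 : (1 : ℝ) ≤ 2 ^ ((d : ℝ) / 2) := Real.one_le_rpow (by norm_num) (by positivity)
    have h3 : (1 : ℝ) ≤ rexp d := Real.one_le_exp (by positivity)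
    calc (1 : ℝ) = 1 * 1 * 1 := by norm_num
      _ ≤ _ := by gcongr
  rcases le_or_gt 1 t with h | h
  · have h2 : ∀ y, ENNReal.ofReal (hk d t (x - y)) ≤ ENNReal.ofReal (t ^ (-(d : ℝ) / 2)) := by
      intro y
      apply ENNReal.ofReal_le_ofReal
      unfold hk
      calc (4 * π * t) ^ (-(d : ℝ) / 2) * rexp (-‖x - y‖ ^ 2 / (4 * t))
          ≤ t ^ (-(d : ℝ) / 2) * 1 := by
            refine mul_le_mul ?_ ?_ (by positivity) (by positivity)
            · apply Real.rpow_le_rpow_of_nonpos ht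
              · nlinarith [Real.pi_gt_three]
              · have : 0 < (d : ℝ) / 2 := by positivity
                linarith [neg_div (2 : ℝ) (d : ℝ)]
            · rw [Real.exp_le_one_iff, neg_div]
              have : 0 ≤ ‖x - y‖ ^ 2 / (4 * t) := by positivity
              linarith
        _ = _ := mul_one _
    calc ENNReal.ofReal (t ^ (((d : ℝ) - β) / 2)) * ∫⁻ y, ENNReal.ofReal (hk d t (x - y)) ∂μ
        ≤ ENNReal.ofReal (t ^ (((d : ℝ) - β) / 2)) * ∫⁻ _y, ENNReal.ofReal (t ^ (-(d : ℝ) / 2)) ∂μ :=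
          mul_le_mul' le_rfl (lintegral_mono h2)
      _ = ENNReal.ofReal (t ^ (-β / 2)) := by
          rw [lintegral_const, measure_univ, mul_one, ← ENNReal.ofReal_mul (by positivity),
            ← Real.rpow_add ht]
          congr 2
          ring
      _ ≤ _ := by
          apply ENNReal.ofReal_le_ofReal
          refine le_trans ?_ hbig
          apply Real.rpow_le_one_of_one_le_of_nonpos h
          have : 0 < β / 2 := by positivity
          linarith [neg_div (2 : ℝ) β]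
  · obtain ⟨k, hk1, hk2⟩ : ∃ k : ℕ, (((2 : ℝ) ^ k)⁻¹) ^ 2 ≤ 4 * t ∧ t ≤ (((2 : ℝ) ^ k)⁻¹) ^ 2 := by
      obtain ⟨k, hk1, hk2⟩ := exists_nat_pow_near_of_lt_one ht h.le (by norm_num : (0 : ℝ) < 1 / 4)
        (by norm_num)
      refine ⟨k, ?_, ?_⟩
      · have e : (((2 : ℝ) ^ k)⁻¹) ^ 2 = (1 / 4) ^ k := by
          rw [← inv_pow, ← pow_mul, mul_comm, pow_mul]
          norm_num
        rw [e]
        rw [pow_succ] at hk1
        linarith
      · have e : (((2 : ℝ) ^ k)⁻¹) ^ 2 = (1 / 4) ^ k := by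
          rw [← inv_pow, ← pow_mul, mul_comm, pow_mul]
          norm_num
        rw [e]
        exact hk2
    have h2 := heat_cube μ (k := k) (hA k) ht hk1 x
    have e1 : ((2 : ℝ≥0∞) ^ d) ^ k * ENNReal.ofReal (A * ((2 : ℝ) ^ k) ^ (-β))
        = ENNReal.ofReal (A * ((2 : ℝ) ^ k) ^ ((d : ℝ) - β)) := by
      have : ((2 : ℝ≥0∞) ^ d) ^ k = ENNReal.ofReal (((2 : ℝ) ^ k) ^ d) := by
        rw [← pow_mul, mul_comm, pow_mul, ENNReal.ofReal_pow (by positivity),
          ENNReal.ofReal_pow (by norm_num), ENNReal.ofReal_ofNat]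
      rw [this, ← ENNReal.ofReal_mul (by positivity), sub_eq_add_neg,
        Real.rpow_add (by positivity), Real.rpow_natCast]
      congr 1
      ring
    rw [e1, ← ENNReal.ofReal_mul (by positivity)] at h2
    refine (mul_le_mul' le_rfl h2).trans ?_
    rw [← ENNReal.ofReal_mul (by positivity)]
    apply ENNReal.ofReal_le_ofReal
    have h3 : t ^ (((d : ℝ) - β) / 2) ≤ ((2 : ℝ) ^ k) ^ (-((d : ℝ) - β)) := by
      calc t ^ (((d : ℝ) - β) / 2) ≤ ((((2 : ℝ) ^ k)⁻¹) ^ 2) ^ (((d : ℝ) - β) / 2) :=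
            Real.rpow_le_rpow ht.le hk2 (by linarith)
        _ = _ := by
            rw [← Real.rpow_natCast, ← Real.rpow_mul (by positivity), Real.inv_rpow (by positivity),
              ← Real.rpow_neg (by positivity)]
            congr 1
            push_cast
            ring
    calc t ^ (((d : ℝ) - β) / 2) * (2 ^ ((d : ℝ) / 2) * rexp d * (A * ((2 : ℝ) ^ k) ^ ((d : ℝ) - β)))
        ≤ ((2 : ℝ) ^ k) ^ (-((d : ℝ) - β))
          * (2 ^ ((d : ℝ) / 2) * rexp d * (A * ((2 : ℝ) ^ k) ^ ((d : ℝ) - β))) := by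
          gcongr
      _ = _ := by
          rw [Real.rpow_neg (by positivity)]
          field_simp

end

end Pool.Agent.R246.LorD
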