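import Mathlib
import Pool.Agent.R246.LorC
import Pool.Agent.R246.LorDef

/-!
# Random fields that are large on a positive proportion of many dyadic boxes
-/

namespace Pool.Agent.R246.LorE

open scoped ENNReal Topology ComplexConjugate NNReal
open Filter MeasureTheory Real Finset
open Pool.Agent.R246.LorA Pool.Agent.R246.LorB Pool.Agent.R246.LorC Pool.Agent.R246.LorDef

noncomputable section

variable {d : ℕ}

/-- the boxes -/
def box (d : ℕ) (R : ℝ) : Set (E d) := {x | ∀ i, R ≤ x i ∧ x i < 2 * R}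

theorem box_eq (R : ℝ) :
    box d R = WithLp.ofLp ⁻¹' (Set.univ.pi fun _ : Fin d => Set.Ico R (2 * R)) := by
  ext x
  simp [box]

theorem box_meas (R : ℝ) : MeasurableSet (box d R) := by
  rw [box_eq]
  exact (PiLp.volume_preserving_ofLp (Fin d)).measurable
    (MeasurableSet.univ_pi fun _ => measurableSet_Ico)

theorem box_vol {R : ℝ} (hR : 0 ≤ R) : volume (box d R) = ENNReal.ofReal (R ^ d) := by
  rw [box_eq, (PiLp.volume_preserving_ofLp (Fin d)).measure_preimage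
    ((MeasurableSet.univ_pi fun _ => measurableSet_Ico).nullMeasurableSet), volume_pi_pi]
  simp only [Real.volume_Ico, prod_const, card_univ, Fintype.card_fin]
  rw [ENNReal.ofReal_pow hR]
  congr 2
  ring

theorem box_norm {R : ℝ} (hR : 0 ≤ R) {x : E d} (hx : x ∈ box d R) : ‖x‖ ≤ √d * (2 * R) := by
  rw [EuclideanSpace.norm_eq]
  calc √(∑ i, ‖x i‖ ^ 2) ≤ √(∑ _i : Fin d, (2 * R) ^ 2) := by
        apply Real.sqrt_le_sqrt
        refine sum_le_sum fun i _ => ?_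
        have h := hx i
        rw [Real.norm_eq_abs, sq_abs]
        nlinarith [h.1, h.2]
    _ = √d * (2 * R) := by
        rw [sum_const, card_univ, Fintype.card_fin, nsmul_eq_mul,
          Real.sqrt_mul (by positivity), Real.sqrt_sq (by positivity)]

theorem box_pos (hd : 0 < d) {R : ℝ} (hR : 0 < R) {x : E d} (hx : x ∈ box d R) : 0 < ‖x‖ := by
  rw [norm_pos_iff]
  intro h
  have h1 := (hx ⟨0, hd⟩).1
  rw [h] at h1
  simp at h1
  linarith

section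

variable {Ω : Type} [Fintype Ω]

open Classical in
theorem avg_vol {κ c R : ℝ} (H : Ω → E d → ℂ) (hH : ∀ ω, Measurable (H ω))
    (h : ∀ ξ ∈ box d R, κ * Fintype.card Ω ≤ cnt (fun ω => c ≤ ‖H ω ξ‖ ^ 2)) :
    ENNReal.ofReal (κ * Fintype.card Ω) * volume (box d R)
      ≤ ∑ ω, volume ({ξ | c ≤ ‖H ω ξ‖ ^ 2} ∩ box d R) := by
  have hm : ∀ ω, MeasurableSet {ξ | c ≤ ‖H ω ξ‖ ^ 2} := fun ω =>
    measurableSet_le measurable_const ((hH ω).norm.pow_const 2)
  calc ENNReal.ofReal (κ * Fintype.card Ω) * volume (box d R)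
      = ∫⁻ _ξ in box d R, ENNReal.ofReal (κ * Fintype.card Ω) := by
        rw [setLIntegral_const]
    _ ≤ ∫⁻ ξ in box d R, ∑ ω, ({ξ | c ≤ ‖H ω ξ‖ ^ 2} : Set (E d)).indicator 1 ξ := by
        refine setLIntegral_mono_ae' (box_meas R) (Eventually.of_forall fun ξ hξ => ?_)
        refine (ENNReal.ofReal_le_ofReal (h ξ hξ)).trans (le_of_eq ?_)
        unfold cnt
        rw [ENNReal.ofReal_sum_of_nonneg (fun ω _ => by split_ifs <;> norm_num)]
        refine sum_congr rfl fun ω _ => ?_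
        by_cases h1 : c ≤ ‖H ω ξ‖ ^ 2
        · rw [if_pos h1, Set.indicator_of_mem (by exact h1)]
          simp
        · rw [if_neg h1, Set.indicator_of_notMem (by exact h1)]
          simp
    _ = ∑ ω, ∫⁻ ξ in box d R, ({ξ | c ≤ ‖H ω ξ‖ ^ 2} : Set (E d)).indicator 1 ξ := by
        rw [lintegral_finsetSum]
        intro ω _
        exact measurable_one.indicator (hm ω)
    _ = _ := by
        refine sum_congr rfl fun ω _ => ?_
        rw [lintegral_indicator_one (hm ω), Measure.restrict_apply (hm ω)]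

open Classical in
/-- for every good level, a positive proportion of the outcomes is good -/
theorem good_count {κ c R : ℝ} (hR : 0 < R) (hκ : 0 ≤ κ) (H : Ω → E d → ℂ)
    (hH : ∀ ω, Measurable (H ω))
    (h : ∀ ξ ∈ box d R, κ * Fintype.card Ω ≤ cnt (fun ω => c ≤ ‖H ω ξ‖ ^ 2)) :
    κ / 2 * Fintype.card Ω ≤ ∑ ω, if κ / 2 * R ^ d
      ≤ (volume ({ξ | c ≤ ‖H ω ξ‖ ^ 2} ∩ box d R)).toReal then (1 : ℝ) else 0 := by
  have h1 := avg_vol H hH h
  have hfin : ∀ ω, volume ({ξ | c ≤ ‖H ω ξ‖ ^ 2} ∩ box d R) ≤ ENNReal.ofReal (R ^ d) := fun ω => by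
    rw [← box_vol hR.le]
    exact measure_mono Set.inter_subset_right
  have hfin2 : ∀ ω, volume ({ξ | c ≤ ‖H ω ξ‖ ^ 2} ∩ box d R) ≠ ⊤ := fun ω =>
    ne_top_of_le_ne_top ENNReal.ofReal_ne_top (hfin ω)
  have h2 : κ * Fintype.card Ω * R ^ d
      ≤ ∑ ω, (volume ({ξ | c ≤ ‖H ω ξ‖ ^ 2} ∩ box d R)).toReal := by
    rw [← ENNReal.toReal_sum (fun ω _ => hfin2 ω)]
    rw [box_vol hR.le, ← ENNReal.ofReal_mul (by positivity)] at h1
    exact (ENNReal.ofReal_le_iff_le_toReal (by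
      rw [ENNReal.sum_ne_top]; exact fun ω _ => hfin2 ω)).mp h1
  have h3 : ∀ ω, (volume ({ξ | c ≤ ‖H ω ξ‖ ^ 2} ∩ box d R)).toReal ≤ R ^ d := fun ω =>
    ENNReal.toReal_le_of_le_ofReal (by positivity) (hfin ω)
  have h4 : ∀ ω, (volume ({ξ | c ≤ ‖H ω ξ‖ ^ 2} ∩ box d R)).toReal
      ≤ R ^ d * ((if κ / 2 * R ^ d ≤ (volume ({ξ | c ≤ ‖H ω ξ‖ ^ 2} ∩ box d R)).toReal
        then (1 : ℝ) else 0) + κ / 2) := by
    intro ω
    split_ifs with hc
    · have := h3 ω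
      nlinarith [pow_pos hR d]
    · rw [zero_add]
      linarith [not_le.mp hc]
  have h5 := h2.trans (sum_le_sum fun ω _ => h4 ω)
  rw [← mul_sum, sum_add_distrib, sum_const, card_univ, nsmul_eq_mul] at h5
  have h6 : R ^ d * (κ * Fintype.card Ω) ≤ R ^ d * ((∑ ω, if κ / 2 * R ^ d
      ≤ (volume ({ξ | c ≤ ‖H ω ξ‖ ^ 2} ∩ box d R)).toReal then (1 : ℝ) else 0)
        + Fintype.card Ω * (κ / 2)) := by
    refine le_trans (le_of_eq ?_) h5
    ring
  have h7 := le_of_mul_le_mul_left h6 (pow_pos hR d)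
  linarith

open Classical in
/-- some outcome is good for many levels -/
theorem many_good [Nonempty Ω] {κ : ℝ} (c R : ℕ → ℝ) (hR : ∀ k, 0 < R k) (hκ : 0 ≤ κ)
    (H : Ω → E d → ℂ) (hH : ∀ ω, Measurable (H ω)) (J : Finset ℕ)
    (h : ∀ k ∈ J, ∀ ξ ∈ box d (R k), κ * Fintype.card Ω ≤ cnt (fun ω => c k ≤ ‖H ω ξ‖ ^ 2)) :
    ∃ ω, κ / 2 * J.card ≤ ((J.filter fun k => κ / 2 * R k ^ d
      ≤ (volume ({ξ | c k ≤ ‖H ω ξ‖ ^ 2} ∩ box d (R k))).toReal).card : ℝ) := by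
  have h1 : ∑ _ω : Ω, κ / 2 * (J.card : ℝ) ≤ ∑ ω : Ω, ∑ k ∈ J, if κ / 2 * R k ^ d
      ≤ (volume ({ξ | c k ≤ ‖H ω ξ‖ ^ 2} ∩ box d (R k))).toReal then (1 : ℝ) else 0 := by
    rw [sum_comm]
    calc ∑ _ω : Ω, κ / 2 * (J.card : ℝ) = ∑ _k ∈ J, κ / 2 * Fintype.card Ω := by
          rw [sum_const, sum_const, card_univ, nsmul_eq_mul, nsmul_eq_mul]
          ring
      _ ≤ _ := sum_le_sum fun k hk => good_count (hR k) hκ H hH (h k hk)
  obtain ⟨ω, _, h2⟩ := exists_le_of_sum_le univ_nonempty h1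
  refine ⟨ω, h2.trans (le_of_eq ?_)⟩
  rw [card_filter]
  push_cast
  rfl

end

/-- lower bound for the rearrangement -/
theorem rearr_lower {g : E d → ℂ} {S : Set (E d)} {l : ℝ≥0∞} (hS : ∀ x ∈ S, l ≤ ‖g x‖ₑ)
    {s : ℝ} (hs : ENNReal.ofReal s < volume S) : l ≤ rearr g s := by
  unfold rearr
  refine le_sInf fun t ht => ?_
  by_contra hlt
  push Not at hlt
  have h1 : S ⊆ {x | t < ‖g x‖ₑ} := fun x hx => lt_of_lt_of_le hlt (hS x hx)
  have h2 := (measure_mono h1).trans ht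
  exact absurd h2 (not_le.mpr hs)

/-- the lower bound of the Lorentz quasi-norm from many good levels -/
theorem lorq_lower (hd : 0 < d) {p q δ l : ℝ} (hp : 0 < p) (hq : 0 < q) (hδ : 0 < δ) (hl : 0 < l)
    (g : E d → ℂ) (J : Finset ℕ) (S : ℕ → Set (E d))
    (hS : ∀ k ∈ J, ∀ x ∈ S k, ENNReal.ofReal (l * (((2 : ℝ) ^ k) ^ d) ^ (-(1 / p))) ≤ ‖g x‖ₑ)
    (hv : ∀ k ∈ J, ENNReal.ofReal (δ * ((2 : ℝ) ^ k) ^ d) ≤ volume (S k)) :
    ENNReal.ofReal (((δ / 2 ^ d) ^ (1 / p) * l) ^ q / 2 * J.card) ≤ lorq p q g := by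
  classical
  set I : ℕ → Set ℝ := fun k => Set.Ico (δ / 2 ^ d * ((2 : ℝ) ^ k) ^ d) (δ * ((2 : ℝ) ^ k) ^ d)
    with hI
  have hIpos : ∀ k, ∀ s ∈ I k, 0 < s := fun k s hs => lt_of_lt_of_le (by positivity) hs.1
  have hdis : ∀ a b : ℕ, a < b → Disjoint (I a) (I b) := by
    intro a b hab
    rw [Set.disjoint_left]
    intro s h1 h2
    have h3 : ((2 : ℝ) ^ (a + 1)) ^ d ≤ ((2 : ℝ) ^ b) ^ d :=
      pow_le_pow_left₀ (by positivity) (pow_le_pow_right₀ (by norm_num) hab) d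
    have h4 : δ / 2 ^ d * ((2 : ℝ) ^ (a + 1)) ^ d = δ * ((2 : ℝ) ^ a) ^ d := by
      rw [pow_succ, mul_pow]; field_simp
    have h5 : δ / 2 ^ d * ((2 : ℝ) ^ (a + 1)) ^ d ≤ δ / 2 ^ d * ((2 : ℝ) ^ b) ^ d :=
      mul_le_mul_of_nonneg_left h3 (by positivity)
    have h6 := h2.1
    have h7 := h1.2
    linarith
  have hpd : (J : Set ℕ).PairwiseDisjoint I := by
    intro a _ b _ hab
    rcases lt_or_gt_of_ne hab with h | h
    · exact hdis a b h
    · exact (hdis b a h).symm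
  have hpt : ∀ k ∈ J, ∀ s ∈ I k, ENNReal.ofReal (((δ / 2 ^ d) ^ (1 / p) * l) ^ q
      / (δ * ((2 : ℝ) ^ k) ^ d))
      ≤ (ENNReal.ofReal (s ^ (1 / p)) * rearr g s) ^ q / ENNReal.ofReal s := by
    intro k hk s hs
    have hs0 := hIpos k s hs
    have h1 : ENNReal.ofReal (l * (((2 : ℝ) ^ k) ^ d) ^ (-(1 / p))) ≤ rearr g s := by
      refine rearr_lower (hS k hk) (lt_of_lt_of_le ?_ (hv k hk))
      exact (ENNReal.ofReal_lt_ofReal_iff (by positivity)).mpr hs.2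
    have h2 : (δ / 2 ^ d) ^ (1 / p) * (((2 : ℝ) ^ k) ^ d) ^ (1 / p) ≤ s ^ (1 / p) := by
      rw [← Real.mul_rpow (by positivity) (by positivity)]
      exact Real.rpow_le_rpow (by positivity) hs.1 (by positivity)
    have h3 : ENNReal.ofReal ((δ / 2 ^ d) ^ (1 / p) * l)
        ≤ ENNReal.ofReal (s ^ (1 / p)) * rearr g s := by
      calc ENNReal.ofReal ((δ / 2 ^ d) ^ (1 / p) * l)
          = ENNReal.ofReal (((δ / 2 ^ d) ^ (1 / p) * (((2 : ℝ) ^ k) ^ d) ^ (1 / p))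
              * (l * (((2 : ℝ) ^ k) ^ d) ^ (-(1 / p)))) := by
            congr 1
            rw [Real.rpow_neg (by positivity)]
            field_simp
        _ = ENNReal.ofReal ((δ / 2 ^ d) ^ (1 / p) * (((2 : ℝ) ^ k) ^ d) ^ (1 / p))
              * ENNReal.ofReal (l * (((2 : ℝ) ^ k) ^ d) ^ (-(1 / p))) :=
            ENNReal.ofReal_mul (by positivity)
        _ ≤ _ := mul_le_mul' (ENNReal.ofReal_le_ofReal h2) h1
    rw [ENNReal.ofReal_div_of_pos (by positivity)]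
    refine ENNReal.div_le_div ?_ (ENNReal.ofReal_le_ofReal hs.2.le)
    rw [← ENNReal.ofReal_rpow_of_nonneg (by positivity) hq.le]
    exact ENNReal.rpow_le_rpow h3 hq.le
  have hsub : (⋃ k ∈ J, I k) ⊆ Set.Ioi (0 : ℝ) := by
    intro s hs
    simp only [Set.mem_iUnion] at hs
    obtain ⟨k, _, hk⟩ := hs
    exact hIpos k s hk
  calc ENNReal.ofReal (((δ / 2 ^ d) ^ (1 / p) * l) ^ q / 2 * J.card)
      = ∑ _k ∈ J, ENNReal.ofReal (((δ / 2 ^ d) ^ (1 / p) * l) ^ q / 2) := by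
        rw [sum_const, nsmul_eq_mul, mul_comm, ENNReal.ofReal_mul (by positivity),
          ENNReal.ofReal_natCast]
    _ ≤ ∑ k ∈ J, ∫⁻ s in I k, (ENNReal.ofReal (s ^ (1 / p)) * rearr g s) ^ q / ENNReal.ofReal s := by
        refine sum_le_sum fun k hk => ?_
        calc ENNReal.ofReal (((δ / 2 ^ d) ^ (1 / p) * l) ^ q / 2)
            ≤ ENNReal.ofReal (((δ / 2 ^ d) ^ (1 / p) * l) ^ q / (δ * ((2 : ℝ) ^ k) ^ d)
                * (δ * ((2 : ℝ) ^ k) ^ d - δ / 2 ^ d * ((2 : ℝ) ^ k) ^ d)) := by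
              apply ENNReal.ofReal_le_ofReal
              have h1 : (2 : ℝ) ≤ 2 ^ d := by
                calc (2 : ℝ) = 2 ^ 1 := by norm_num
                  _ ≤ 2 ^ d := pow_le_pow_right₀ (by norm_num) hd
              have h2 : ((δ / 2 ^ d) ^ (1 / p) * l) ^ q / (δ * ((2 : ℝ) ^ k) ^ d)
                  * (δ * ((2 : ℝ) ^ k) ^ d - δ / 2 ^ d * ((2 : ℝ) ^ k) ^ d)
                  = ((δ / 2 ^ d) ^ (1 / p) * l) ^ q * (1 - 1 / 2 ^ d) := by
                field_simp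
              rw [h2, div_eq_mul_one_div]
              refine mul_le_mul_of_nonneg_left ?_ (by positivity)
              have h3 : 1 / (2 : ℝ) ^ d ≤ 1 / 2 := one_div_le_one_div_of_le (by norm_num) h1
              linarith
          _ = ∫⁻ _s in I k, ENNReal.ofReal (((δ / 2 ^ d) ^ (1 / p) * l) ^ q
                / (δ * ((2 : ℝ) ^ k) ^ d)) := by
              rw [setLIntegral_const, hI, Real.volume_Ico, ENNReal.ofReal_mul (by positivity)]
          _ ≤ _ := setLIntegral_mono_ae' measurableSet_Ico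
              (Eventually.of_forall fun s hs => hpt k hk s hs)
    _ = ∫⁻ s in ⋃ k ∈ J, I k,
          (ENNReal.ofReal (s ^ (1 / p)) * rearr g s) ^ q / ENNReal.ofReal s :=
        (lintegral_biUnion_finset hpd (fun k _ => measurableSet_Ico) _).symm
    _ ≤ lorq p q g := lintegral_mono_set hsub

/-- The abstract lower bound. -/
theorem abs_lower {Ω : Type} [Fintype Ω] [Nonempty Ω] (hd : 0 < d) {α β p q κ c r : ℝ}
    (hα : 0 < α) (hβ : 0 < β) (hp : p = 2 * d / (2 * α + β)) (hq : 0 < q) (hκ : 0 < κ) (hc : 0 < c)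
    (hr : 0 < r) (H : Ω → E d → ℂ) (hH : ∀ ω, Measurable (H ω)) (J : Finset ℕ)
    (h : ∀ k ∈ J, ∀ ξ ∈ box d (r * 2 ^ k), κ * Fintype.card Ω
      ≤ cnt (fun ω => c * ((2 : ℝ) ^ k) ^ (-β) ≤ ‖H ω ξ‖ ^ 2)) :
    ∃ ω, ENNReal.ofReal (((κ / 2 * r ^ d / 2 ^ d) ^ (1 / p)
        * ((4 * π * √d * r) ^ (-α) * √c)) ^ q / 2 * (κ / 2 * J.card))
      ≤ lorq p q (fun ξ => (((2 * π * ‖ξ‖) ^ (-α) : ℝ) : ℂ) * H ω ξ) := by
  classical
  obtain ⟨ω, hω⟩ := many_good (fun k => c * ((2 : ℝ) ^ k) ^ (-β)) (fun k => r * 2 ^ k)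
    (fun k => by positivity) hκ.le H hH J h
  refine ⟨ω, ?_⟩
  have hdR : (0 : ℝ) < d := by exact_mod_cast hd
  have hp0 : 0 < p := by rw [hp]; positivity
  have hsd : 0 < √(d : ℝ) := Real.sqrt_pos.mpr hdR
  set J' := J.filter fun k => κ / 2 * (r * 2 ^ k) ^ d
      ≤ (volume ({ξ | c * ((2 : ℝ) ^ k) ^ (-β) ≤ ‖H ω ξ‖ ^ 2} ∩ box d (r * 2 ^ k))).toReal with hJ'
  refine le_trans ?_ (lorq_lower hd hp0 hq (by positivity : 0 < κ / 2 * r ^ d)
    (by positivity : 0 < (4 * π * √d * r) ^ (-α) * √c) _ J'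
    (fun k => {ξ | c * ((2 : ℝ) ^ k) ^ (-β) ≤ ‖H ω ξ‖ ^ 2} ∩ box d (r * 2 ^ k)) ?_ ?_)
  · apply ENNReal.ofReal_le_ofReal
    exact mul_le_mul_of_nonneg_left hω (by positivity)
  · intro k _ ξ hξ
    have h2 : (4 * π * √d * r * 2 ^ k) ^ (-α) ≤ (2 * π * ‖ξ‖) ^ (-α) := by
      refine Real.rpow_le_rpow_of_nonpos ?_ ?_ (by linarith)
      · have := box_pos hd (by positivity : (0 : ℝ) < r * 2 ^ k) hξ.2
        positivity
      · have := box_norm (by positivity : (0 : ℝ) ≤ r * 2 ^ k) hξ.2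
        nlinarith [Real.pi_pos]
    have h3 : √c * ((2 : ℝ) ^ k) ^ (-β / 2) ≤ ‖H ω ξ‖ := by
      have h4 : c * ((2 : ℝ) ^ k) ^ (-β) ≤ ‖H ω ξ‖ ^ 2 := hξ.1
      have h5 := Real.sqrt_le_sqrt h4
      rw [Real.sqrt_sq (norm_nonneg _), Real.sqrt_mul hc.le] at h5
      refine le_trans (le_of_eq ?_) h5
      congr 1
      rw [Real.sqrt_eq_rpow, ← Real.rpow_mul (by positivity)]
      congr 1
      ring
    rw [← ofReal_norm, norm_mul, Complex.norm_real, Real.norm_of_nonneg (by positivity)]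
    apply ENNReal.ofReal_le_ofReal
    refine le_trans (le_of_eq ?_) (mul_le_mul h2 h3 (by positivity) (by positivity))
    have e1 : (((2 : ℝ) ^ k) ^ d) ^ (-(1 / p)) = ((2 : ℝ) ^ k) ^ (-α) * ((2 : ℝ) ^ k) ^ (-β / 2) := by
      rw [← Real.rpow_add (by positivity), ← Real.rpow_natCast ((2 : ℝ) ^ k) d,
        ← Real.rpow_mul (by positivity)]
      congr 1
      rw [hp]
      field_simp
      ring
    rw [e1, Real.mul_rpow (x := 4 * π * √d * r) (y := 2 ^ k) (by positivity) (by positivity)]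
    ring
  · intro k hk
    have h2 := (mem_filter.mp hk).2
    refine le_trans (le_of_eq ?_) (ENNReal.ofReal_le_of_le_toReal h2)
    congr 1
    rw [mul_pow]
    ring

end

end Pool.Agent.R246.LorE
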