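import Mathlib
import Pool.Agent.R246.LorD
import Pool.Agent.R246.LorE

/-!
# Random Cantor measures of dimension below the ambient dimension
-/

namespace Pool.Agent.R246.LorF

open scoped ENNReal Topology ComplexConjugate NNReal
open Filter MeasureTheory Real Finset
open Pool.Agent.R246.LorA Pool.Agent.R246.LorB Pool.Agent.R246.LorC Pool.Agent.R246.LorDef
open Pool.Agent.R246.LorD Pool.Agent.R246.LorE

noncomputable section

variable {d : ℕ}

/-- the signed measure of a mutually singular pair -/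
def sgn (μ ν : Measure (E d)) [IsFiniteMeasure μ] [IsFiniteMeasure ν]
    (h : μ.MutuallySingular ν) : SignedMeasure (E d) :=
  (JordanDecomposition.mk μ ν h).toSignedMeasure

section

variable (μ ν : Measure (E d)) [IsFiniteMeasure μ] [IsFiniteMeasure ν] (h : μ.MutuallySingular ν)

theorem sgn_jd : (sgn μ ν h).toJordanDecomposition = JordanDecomposition.mk μ ν h := by
  unfold sgn
  rw [JordanDecomposition.toJordanDecomposition_toSignedMeasure]

theorem sgn_tv : tv (sgn μ ν h) = μ Set.univ + ν Set.univ := by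
  unfold tv SignedMeasure.totalVariation
  rw [sgn_jd]
  rfl

theorem sgn_ft (ξ : E d) : ft (sgn μ ν h) ξ
    = (∫ x, ee (inner ℝ x ξ) ∂μ) - ∫ x, ee (inner ℝ x ξ) ∂ν := by
  unfold ft
  rw [sgn_jd]

theorem sgn_heat (t : ℝ) (x : E d) : heat (sgn μ ν h) t x
    = (∫ y, hk d t (x - y) ∂μ) - ∫ y, hk d t (x - y) ∂ν := by
  unfold heat
  rw [sgn_jd]

theorem heat_enorm {t : ℝ} (ht : 0 < t) (x : E d) (ρ : Measure (E d)) :
    ‖∫ y, hk d t (x - y) ∂ρ‖ₑ ≤ ∫⁻ y, ENNReal.ofReal (hk d t (x - y)) ∂ρ := by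
  refine (enorm_integral_le_lintegral_enorm _).trans (le_of_eq ?_)
  refine lintegral_congr fun y => ?_
  rw [Real.enorm_eq_ofReal (hk_pos t ht _).le]

theorem sgn_besov {β : ℝ} {K : ℝ≥0∞}
    (hμ : ∀ t : ℝ, 0 < t → ∀ x, ENNReal.ofReal (t ^ (((d : ℝ) - β) / 2))
      * ∫⁻ y, ENNReal.ofReal (hk d t (x - y)) ∂μ ≤ K)
    (hν : ∀ t : ℝ, 0 < t → ∀ x, ENNReal.ofReal (t ^ (((d : ℝ) - β) / 2))
      * ∫⁻ y, ENNReal.ofReal (hk d t (x - y)) ∂ν ≤ K) :
    besov β (sgn μ ν h) ≤ K + K := by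
  unfold besov
  refine iSup_le fun t => ?_
  rw [ENNReal.mul_iSup]
  refine iSup_le fun x => ?_
  have ht : (0 : ℝ) < t := t.2
  rw [sgn_heat]
  calc ENNReal.ofReal ((t : ℝ) ^ (((d : ℝ) - β) / 2))
        * ‖(∫ y, hk d t (x - y) ∂μ) - ∫ y, hk d t (x - y) ∂ν‖ₑ
      ≤ ENNReal.ofReal ((t : ℝ) ^ (((d : ℝ) - β) / 2))
        * (∫⁻ y, ENNReal.ofReal (hk d t (x - y)) ∂μ + ∫⁻ y, ENNReal.ofReal (hk d t (x - y)) ∂ν) := by
        refine mul_le_mul' le_rfl (enorm_sub_le.trans ?_)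
        exact add_le_add (heat_enorm ht x μ) (heat_enorm ht x ν)
    _ ≤ K + K := by
        rw [mul_add]
        exact add_le_add (hμ t ht x) (hν t ht x)

end

theorem FF_meas (L : List Bool) (g : Gen d L) : Measurable (FF L g) := by
  have := mu_prob L g
  have h1 : StronglyMeasurable (Function.uncurry fun (ξ x : E d) => ee (inner ℝ x ξ)) := by
    have : Continuous (Function.uncurry fun (ξ x : E d) => ee (inner ℝ x ξ)) := by
      unfold Function.uncurry
      exact ee_cont.comp (by fun_prop)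
    exact this.stronglyMeasurable
  exact (h1.integral_prod_right (ν := mu d L g)).measurable

/-- small ball estimate, one transform -/
theorem gsb1 {L U L' : List Bool} (hL : L = U ++ false :: L') (hd : 0 < d) {r : ℝ} (hr : 0 < r)
    (hr1 : r ≤ 1 / 4) (hr2 : 2 * π * (d * r) ≤ 1 / 2) {ξ : E d}
    (hξ : ξ ∈ box d (r * 2 ^ U.length)) :
    r ^ 4 / 192 * Fintype.card (Gen d L)
      ≤ cnt (fun g : Gen d L => r ^ 2 / 8 * pr d U ≤ ‖FF L g ξ‖ ^ 2) := by
  subst hL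
  set k := U.length with hk
  have hs : ∀ i, ((1 / 2 : ℝ) ^ (k + 1) • ξ) i = (1 / 2 : ℝ) ^ (k + 1) * ξ i := fun i => rfl
  have h2k : (1 / 2 : ℝ) ^ (k + 1) * 2 ^ k = 1 / 2 := by
    rw [pow_succ, mul_right_comm, ← mul_pow]
    norm_num
  have h1 : r / 2 ≤ ((1 / 2 : ℝ) ^ (k + 1) • ξ) ⟨0, hd⟩ := by
    rw [hs]
    calc r / 2 = (1 / 2 : ℝ) ^ (k + 1) * (r * 2 ^ k) := by linear_combination (-r) * h2k
      _ ≤ _ := mul_le_mul_of_nonneg_left (hξ _).1 (by positivity)
  have h2 : ((1 / 2 : ℝ) ^ (k + 1) • ξ) ⟨0, hd⟩ ≤ 1 / 4 := by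
    rw [hs]
    calc (1 / 2 : ℝ) ^ (k + 1) * ξ ⟨0, hd⟩ ≤ (1 / 2 : ℝ) ^ (k + 1) * (2 * (r * 2 ^ k)) :=
          mul_le_mul_of_nonneg_left (hξ _).2.le (by positivity)
      _ = r := by linear_combination (2 * r) * h2k
      _ ≤ 1 / 4 := hr1
  have h3 : 2 * π * (√d * ‖(1 / 2 : ℝ) ^ (k + 1) • ξ‖) ≤ 1 / 2 := by
    rw [norm_smul, Real.norm_of_nonneg (by positivity)]
    have h4 := box_norm (by positivity) hξ
    refine le_trans ?_ hr2
    apply mul_le_mul_of_nonneg_left _ (by positivity)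
    calc √d * ((1 / 2 : ℝ) ^ (k + 1) * ‖ξ‖)
        ≤ √d * ((1 / 2 : ℝ) ^ (k + 1) * (√d * (2 * (r * 2 ^ k)))) := by gcongr
      _ = (√d * √d) * (2 * r) * ((1 / 2 : ℝ) ^ (k + 1) * 2 ^ k) := by ring
      _ = d * r := by
          rw [h2k, Real.mul_self_sqrt (by positivity)]
          ring
  have key := gsb L' ⟨0, hd⟩ (by positivity : 0 < r / 2) U Unit (fun _ => 1) 0 ξ h1 h2 h3
  let e : (Unit → Gen d (U ++ false :: L')) ≃ Gen d (U ++ false :: L') :=
    Equiv.funUnique Unit _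
  rw [cnt_equiv e] at key
  have hc : Fintype.card (Unit → Gen d (U ++ false :: L'))
          = Fintype.card (Gen d (U ++ false :: L')) := Fintype.card_congr e
  rw [hc] at key
  have e1 : (4 * (r / 2) ^ 2) ^ 2 / 192 = r ^ 4 / 192 := by ring
  rw [e1] at key
  refine key.trans (cnt_mono fun g hg => ?_)
  simp only [Finset.univ_unique, sum_singleton, norm_one, one_pow, mul_one, zero_add,
    one_mul] at hg
  have e2 : 4 * (r / 2) ^ 2 / 8 = r ^ 2 / 8 := by ring
  rw [e2] at hg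
  exact hg

open Classical in
/-- the measures for `β < d` -/
theorem partA (hd : 0 < d) {α β p q : ℝ} (hα : 0 < α) (hβ : 0 < β) (hβd : β ≤ d)
    (hp : p = 2 * d / (2 * α + β)) (hq : 0 < q) :
    ∃ c : ℝ, 0 < c ∧ ∀ N : ℕ, ∃ s : SignedMeasure (E d), tv s = 1 ∧
      besov β s ≤ ENNReal.ofReal (2 ^ ((d : ℝ) / 2) * rexp d * 2 ^ d)
        + ENNReal.ofReal (2 ^ ((d : ℝ) / 2) * rexp d * 2 ^ d) ∧
      ENNReal.ofReal (c * ((N : ℝ) * (1 - β / d))) ≤ lorq p q (rieszFT α s) := by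
  have hdR : (0 : ℝ) < d := by exact_mod_cast hd
  have hθ0 : 0 ≤ β / d := by positivity
  have hθ1 : β / d ≤ 1 := (div_le_one hdR).mpr hβd
  have hsd : 0 < √(d : ℝ) := Real.sqrt_pos.mpr hdR
  set r : ℝ := 1 / (4 * π * d) with hr
  have hr0 : 0 < r := by positivity
  have hr1 : r ≤ 1 / 4 := by
    rw [hr]
    apply one_div_le_one_div_of_le (by norm_num)
    have h1 : (1 : ℝ) ≤ d := by exact_mod_cast hd
    nlinarith [Real.pi_gt_three]
  have hr2 : 2 * π * (d * r) ≤ 1 / 2 := by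
    rw [hr]
    apply le_of_eq
    field_simp
    norm_num
  refine ⟨(((r ^ 4 / 192) / 2 * r ^ d / 2 ^ d) ^ (1 / p)
        * ((4 * π * √d * r) ^ (-α) * √(r ^ 2 / 8))) ^ q / 2 * ((r ^ 4 / 192) / 2),
    by
      have h1 : 0 < ((r ^ 4 / 192) / 2 * r ^ d / 2 ^ d) ^ (1 / p)
        * ((4 * π * √d * r) ^ (-α) * √(r ^ 2 / 8)) := by positivity
      have h2 := Real.rpow_pos_of_pos h1 q
      have h3 : 0 < (r ^ 4 / 192) / 2 := by positivity
      exact mul_pos (div_pos h2 two_pos) h3, fun N => ?_⟩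
  set L := TT (β / d) 0 N with hL
  set J := (range N).filter fun k => fl (β / d) (k + 1) ≠ fl (β / d) k + 1 with hJ
  obtain ⟨g, hg⟩ := abs_lower (Ω := Gen d L) hd (κ := r ^ 4 / 192) (c := r ^ 2 / 8) (r := r)
    hα hβ hp hq (by positivity) (by positivity) hr0 (fun g => FF L g) (fun g => FF_meas L g) J
    (by
      intro k hk ξ hξ
      have hk1 := (mem_filter.mp hk).1
      have hk2 := (mem_filter.mp hk).2
      rw [mem_range] at hk1
      have hlen : (TT (β / d) 0 k).length = k := TT_length _ _ _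
      have hsplit : L = TT (β / d) 0 k ++ false :: TT (β / d) (0 + k + 1) (N - k - 1) := by
        have h1 := TT_split (β / d) 0 k (N - k - 1)
        have h2 : k + (N - k - 1 + 1) = N := by omega
        rw [h2] at h1
        rw [hL, h1]
        congr 2
        simp only [zero_add]
        simpa using hk2
      have h1 := gsb1 hsplit hd hr0 hr1 hr2 (ξ := ξ) (by rw [hlen]; exact hξ)
      refine h1.trans (cnt_mono fun g hg => le_trans ?_ hg)
      exact mul_le_mul_of_nonneg_left (pr_lower hd hβ hβd k) (by positivity))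
  have := mu_prob L g
  refine ⟨sgn (mu d L g) 0 Measure.MutuallySingular.zero_right, ?_, ?_, ?_⟩
  · rw [sgn_tv]
    simp
  · apply sgn_besov
    · intro t ht x
      refine heat_bound hd hβ hβd (mu d L g) (one_le_pow₀ (by norm_num)) ?_ ht x
      intro k n
      exact frostman hd hβ hβd N g k n
    · intro t ht x
      simp
  · have e1 : rieszFT α (sgn (mu d L g) 0 Measure.MutuallySingular.zero_right)
        = fun ξ => (((2 * π * ‖ξ‖) ^ (-α) : ℝ) : ℂ) * FF L g ξ := by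
      funext ξ
      unfold rieszFT
      rw [sgn_ft]
      simp [FF]
    rw [e1]
    refine le_trans ?_ hg
    apply ENNReal.ofReal_le_ofReal
    have h1 := many_random hd hβ hβd N
    rw [mul_assoc]
    apply mul_le_mul_of_nonneg_left
    · apply mul_le_mul_of_nonneg_left h1 (by positivity)
    · have h1 : 0 < ((r ^ 4 / 192) / 2 * r ^ d / 2 ^ d) ^ (1 / p)
        * ((4 * π * √d * r) ^ (-α) * √(r ^ 2 / 8)) := by positivity
      have h2 := Real.rpow_pos_of_pos h1 q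
      exact (div_pos h2 two_pos).le

theorem tend_top {q : ℝ} (hq : 0 < q) {a : ℕ → ℝ} (ha : Tendsto a atTop atTop)
    {b : ℕ → ℝ≥0∞} (h : ∀ N, ENNReal.ofReal (a N) ≤ b N) :
    Tendsto (fun N => b N ^ (1 / q)) atTop (𝓝 ⊤) := by
  have h1 : Tendsto b atTop (𝓝 ⊤) :=
    tendsto_nhds_top_mono' (ENNReal.tendsto_ofReal_atTop.comp ha) h
  have h2 : Tendsto (fun x : ℝ≥0∞ => x ^ (1 / q)) (𝓝 ⊤) (𝓝 (⊤ ^ (1 / q))) :=
    (ENNReal.continuous_rpow_const).tendsto ⊤
  rw [ENNReal.top_rpow_of_pos (by positivity)] at h2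
  exact h2.comp h1

theorem partA' (hd : 0 < d) {α β p q : ℝ} (hα : 0 < α) (hβ : 0 < β) (hβd : β < d)
    (hp : p = 2 * d / (2 * α + β)) (hq : 0 < q) :
    ∃ Φ : ℕ → SignedMeasure (E d), (∃ C : ℝ≥0, ∀ N, tv (Φ N) + besov β (Φ N) ≤ C) ∧
      Tendsto (fun N => lorentz p q (rieszFT α (Φ N))) atTop (𝓝 ⊤) := by
  have hdR : (0 : ℝ) < d := by exact_mod_cast hd
  obtain ⟨c, hc, h⟩ := partA hd hα hβ hβd.le hp hq
  choose Φ h1 h2 h3 using h
  refine ⟨Φ, ⟨1 + (Real.toNNReal (2 ^ ((d : ℝ) / 2) * rexp d * 2 ^ d)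
    + Real.toNNReal (2 ^ ((d : ℝ) / 2) * rexp d * 2 ^ d)), fun N => ?_⟩, ?_⟩
  · rw [h1]
    push_cast
    exact add_le_add le_rfl (h2 N)
  · have hpos : 0 < 1 - β / d := by
      rw [sub_pos, div_lt_one hdR]
      exact hβd
    refine tend_top (b := fun N => lorq p q (rieszFT α (Φ N))) hq
      (a := fun N : ℕ => c * ((N : ℝ) * (1 - β / d))) ?_ h3
    apply Tendsto.const_mul_atTop hc
    exact tendsto_natCast_atTop_atTop.atTop_mul_const hpos

end

end Pool.Agent.R246.LorF
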