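import Mathlib
import Pool.Agent.R246.LorF

/-!
# Random signs on dyadic cubes of many scales: the case `β = d`, `q < 2`
-/

namespace Pool.Agent.R246.LorG

open scoped ENNReal Topology ComplexConjugate NNReal
open Filter MeasureTheory Real Finset
open Pool.Agent.R246.LorA Pool.Agent.R246.LorB Pool.Agent.R246.LorC Pool.Agent.R246.LorDef
open Pool.Agent.R246.LorD Pool.Agent.R246.LorE Pool.Agent.R246.LorF

noncomputable section

variable {d : ℕ}

/-- signs -/
def sg (b : Bool) : ℂ := if b then 1 else -1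

theorem sg_norm (b : Bool) : ‖sg b‖ = 1 := by
  cases b <;> simp [sg]

/-- union of the cells with a given sign -/
def PP {I : Type} [Fintype I] (S : I → Set (E d)) (ω : I → Bool) (b : Bool) : Set (E d) :=
  ⋃ i ∈ univ.filter (fun i => ω i = b), S i

theorem PP_meas {I : Type} [Fintype I] {S : I → Set (E d)} (hm : ∀ i, MeasurableSet (S i))
    (ω : I → Bool) (b : Bool) : MeasurableSet (PP S ω b) :=
  Finset.measurableSet_biUnion _ fun i _ => hm i

theorem PP_disj {I : Type} [Fintype I] {S : I → Set (E d)}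
    (hd : ∀ i j x, x ∈ S i → x ∈ S j → i = j) (ω : I → Bool) :
    Disjoint (PP S ω true) (PP S ω false) := by
  rw [Set.disjoint_left]
  intro x h1 h2
  simp only [PP, Set.mem_iUnion, mem_filter, mem_univ, true_and] at h1 h2
  obtain ⟨i, hi, hxi⟩ := h1
  obtain ⟨j, hj, hxj⟩ := h2
  have := hd i j x hxi hxj
  rw [this, hj] at hi
  exact Bool.noConfusion hi

theorem PP_int {I : Type} [Fintype I] {S : I → Set (E d)} (hm : ∀ i, MeasurableSet (S i))
    (hd : ∀ i j x, x ∈ S i → x ∈ S j → i = j) (hv : ∀ i, volume (S i) ≠ ⊤)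
    (ω : I → Bool) (b : Bool) (ξ : E d) :
    ∫ x in PP S ω b, ee (inner ℝ x ξ)
      = ∑ i ∈ univ.filter (fun i => ω i = b), ∫ x in S i, ee (inner ℝ x ξ) := by
  unfold PP
  rw [integral_biUnion_finset]
  · intro i _
    exact hm i
  · intro i _ j _ hij
    rw [Function.onFun, Set.disjoint_left]
    intro x h1 h2
    exact hij (hd i j x h1 h2)
  · intro i _
    have : IsFiniteMeasure (volume.restrict (S i)) :=
      isFiniteMeasure_restrict.mpr (hv i)
    exact ee_int _ ξ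

theorem signed_of_cells {I : Type} [Fintype I] {S : I → Set (E d)}
    (hm : ∀ i, MeasurableSet (S i)) (hdj : ∀ i j x, x ∈ S i → x ∈ S j → i = j)
    (hvol : ∑ i, volume (S i) ≤ 1) (ω : I → Bool) :
    ∃ s : SignedMeasure (E d), tv s ≤ 1 ∧ besov d s ≤ 1 + 1 ∧
      ∀ ξ, ft s ξ = ∑ i, (∫ x in S i, ee (inner ℝ x ξ)) * sg (ω i) := by
  classical
  have hv : ∀ i, volume (S i) ≠ ⊤ := fun i =>
    ne_top_of_le_ne_top ENNReal.one_ne_top
      ((single_le_sum (f := fun i => volume (S i)) (fun _ _ => zero_le) (mem_univ i)).trans hvol)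
  have hPv : ∀ b, volume (PP S ω b) ≤ ∑ i ∈ univ.filter (fun i => ω i = b), volume (S i) :=
    fun b => measure_biUnion_finset_le _ _
  have hsum : volume (PP S ω true) + volume (PP S ω false) ≤ 1 := by
    refine (add_le_add (hPv true) (hPv false)).trans (le_trans (le_of_eq ?_) hvol)
    have := sum_filter_add_sum_filter_not univ (fun i => ω i = true) (fun i => volume (S i))
    simpa using this
  have hfin : ∀ b, IsFiniteMeasure (volume.restrict (PP S ω b)) := by
    intro b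
    apply isFiniteMeasure_restrict.mpr
    refine ne_top_of_le_ne_top ENNReal.one_ne_top (le_trans ?_ hsum)
    cases b
    · exact le_add_self
    · exact le_self_add
  have hs : (volume.restrict (PP S ω true)).MutuallySingular (volume.restrict (PP S ω false)) := by
    refine ⟨PP S ω false, PP_meas hm ω false, ?_, ?_⟩
    · rw [Measure.restrict_apply (PP_meas hm ω false),
        (PP_disj hdj ω).symm.inter_eq, measure_empty]
    · rw [Measure.restrict_apply (PP_meas hm ω false).compl, Set.compl_inter_self, measure_empty]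
  have := hfin true
  have := hfin false
  have hheat : ∀ b, ∀ t : ℝ, 0 < t → ∀ x, ENNReal.ofReal (t ^ (((d : ℝ) - d) / 2))
      * ∫⁻ y, ENNReal.ofReal (hk d t (x - y)) ∂(volume.restrict (PP S ω b)) ≤ 1 := by
    intro b t ht x
    rw [sub_self, zero_div, Real.rpow_zero, ENNReal.ofReal_one, one_mul, ← hk_lint ht x]
    exact setLIntegral_le_lintegral _ _
  refine ⟨sgn (volume.restrict (PP S ω true)) (volume.restrict (PP S ω false)) hs, ?_, ?_, ?_⟩
  · rw [sgn_tv]
    simpa using hsum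
  · exact sgn_besov _ _ hs (hheat true) (hheat false)
  · intro ξ
    rw [sgn_ft, PP_int hm hdj hv, PP_int hm hdj hv,
      ← sum_filter_add_sum_filter_not univ (fun i => ω i = true)
        (fun i => (∫ x in S i, ee (inner ℝ x ξ)) * sg (ω i)), sub_eq_add_neg]
    congr 1
    · refine sum_congr rfl fun i hi => ?_
      rw [(mem_filter.mp hi).2]
      simp [sg]
    · rw [← sum_neg_distrib]
      have : (univ.filter fun i => ω i = false) = univ.filter fun i => ¬ ω i = true := by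
        ext i; simp
      rw [this]
      refine sum_congr rfl fun i hi => ?_
      have h2 : ω i = false := by simpa using (mem_filter.mp hi).2
      rw [h2]
      simp [sg]

theorem int_near {S : Set (E d)} (hm : MeasurableSet S) (hv : volume S ≠ ⊤) {x0 : E d} {D : ℝ}
    (hD : ∀ x ∈ S, ‖x - x0‖ ≤ D) {ξ : E d} (h : 2 * π * (D * ‖ξ‖) ≤ 1 / 2) :
    (volume S).toReal / 2 ≤ ‖∫ x in S, ee (inner ℝ x ξ)‖ := by
  have hfm : IsFiniteMeasure (volume.restrict S) := isFiniteMeasure_restrict.mpr hv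
  have h1 : ‖∫ x in S, (ee (inner ℝ x ξ) - ee (inner ℝ x0 ξ))‖ ≤ 1 / 2 * (volume S).toReal := by
    refine norm_setIntegral_le_of_norm_le_const (lt_top_iff_ne_top.mpr hv) (fun x hx => ?_)
    have h2 : ee (inner ℝ x ξ) - ee (inner ℝ x0 ξ)
        = ee (inner ℝ x0 ξ) * (ee (inner ℝ (x - x0) ξ) - 1) := by
      rw [inner_sub_left, mul_sub, ← ee_add]
      congr 2
      · ring
      · ring
    rw [h2, norm_mul, ee_norm, one_mul]
    refine (ee_sub_one _).trans (le_trans ?_ h)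
    apply mul_le_mul_of_nonneg_left _ (by positivity)
    exact (abs_real_inner_le_norm _ _).trans (mul_le_mul_of_nonneg_right (hD x hx) (norm_nonneg _))
  rw [integral_sub (ee_int _ ξ) (integrable_const _)] at h1
  simp only [integral_const, Measure.real, Measure.restrict_apply_univ] at h1
  have h3 := norm_sub_norm_le ((volume S).toReal • ee (inner ℝ x0 ξ)) (∫ x in S, ee (inner ℝ x ξ))
  rw [norm_sub_rev] at h3
  have h4 : ‖(volume S).toReal • ee (inner ℝ x0 ξ)‖ = (volume S).toReal := by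
    rw [norm_smul, ee_norm, mul_one, Real.norm_of_nonneg ENNReal.toReal_nonneg]
  rw [h4] at h3
  linarith

/-- index type of the cells -/
abbrev II (d m : ℕ) : Type := Σ j : Fin (2 ^ (m * d)), (Fin d → Fin (2 ^ (j : ℕ)))

/-- the cells -/
def cell (d m : ℕ) (i : II d m) : Set (E d) :=
  cube ((i.1 : ℕ) + m) (fun l => 2 ^ (i.1 : ℕ) * (((i.1 : ℕ) : ℤ)) + ((i.2 l : ℕ) : ℤ))

theorem cell_tag {m : ℕ} {i : II d m} {x : E d} (hx : x ∈ cell d m i) (l : Fin d) :
    ⌊(2 : ℝ) ^ m * x l⌋ = (i.1 : ℕ) := by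
  have h1 := hx l
  rw [Int.floor_eq_iff] at h1 ⊢
  push_cast at h1 ⊢
  have h2 : ((i.2 l : ℕ) : ℝ) + 1 ≤ 2 ^ (i.1 : ℕ) := by exact_mod_cast (i.2 l).2
  have h3 : (0 : ℝ) ≤ ((i.2 l : ℕ) : ℝ) := by positivity
  have h4 : (0 : ℝ) < 2 ^ (i.1 : ℕ) := by positivity
  rw [pow_add, mul_assoc] at h1
  constructor
  · have h5 : (2 : ℝ) ^ (i.1 : ℕ) * ((i.1 : ℕ) : ℝ) ≤ 2 ^ (i.1 : ℕ) * (2 ^ m * x l) := by
      linarith [h1.1]
    exact le_of_mul_le_mul_left h5 h4
  · have h5 : (2 : ℝ) ^ (i.1 : ℕ) * (2 ^ m * x l) < 2 ^ (i.1 : ℕ) * (((i.1 : ℕ) : ℝ) + 1) := by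
      linarith [h1.2]
    exact lt_of_mul_lt_mul_left h5 h4.le

theorem cell_disj (hd : 0 < d) {m : ℕ} (i j : II d m) (x : E d) (h1 : x ∈ cell d m i)
    (h2 : x ∈ cell d m j) : i = j := by
  have h3 := cell_tag h1 ⟨0, hd⟩
  have h4 := cell_tag h2 ⟨0, hd⟩
  rw [h3] at h4
  obtain ⟨a, n⟩ := i
  obtain ⟨b, n'⟩ := j
  have h5 : a = b := Fin.ext (by exact_mod_cast h4)
  subst h5
  congr 1
  funext l
  have h6 := h1 l
  have h7 := h2 l
  rw [h6] at h7
  simp only [add_right_inj] at h7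
  exact Fin.ext (by exact_mod_cast h7)

theorem cell_meas {m : ℕ} (i : II d m) : MeasurableSet (cell d m i) := cube_meas _ _

theorem cell_vol {m : ℕ} (i : II d m) :
    volume (cell d m i) = (((2 : ℝ≥0∞) ^ d)⁻¹) ^ ((i.1 : ℕ) + m) := cube_vol _ _

theorem cell_total (m : ℕ) : ∑ i : II d m, volume (cell d m i) ≤ 1 := by
  have h0 : ∀ n : ℕ, ((2 : ℝ≥0∞) ^ d) ^ n * (((2 : ℝ≥0∞) ^ d)⁻¹) ^ n = 1 := by
    intro n
    rw [← mul_pow, ENNReal.mul_inv_cancel (by positivity) (by finiteness), one_pow]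
  rw [Fintype.sum_sigma]
  simp only [cell_vol, sum_const, card_univ, nsmul_eq_mul, Fintype.card_pi, Fintype.card_fin,
    prod_const]
  have h1 : ∀ j : Fin (2 ^ (m * d)), (((2 ^ (j : ℕ)) ^ d : ℕ) : ℝ≥0∞)
      * (((2 : ℝ≥0∞) ^ d)⁻¹) ^ ((j : ℕ) + m) = (((2 : ℝ≥0∞) ^ d)⁻¹) ^ m := by
    intro j
    push_cast
    rw [pow_add, ← mul_assoc, ← pow_mul, mul_comm (j : ℕ) d, pow_mul, h0, one_mul]
  simp only [h1, sum_const, card_univ, nsmul_eq_mul, Fintype.card_fin]
  push_cast
  rw [mul_comm m d, pow_mul, h0]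

/-- the measures for `β = d` -/
theorem partB (hd : 0 < d) {α p q : ℝ} (hα : 0 < α)
    (hp : p = 2 * d / (2 * α + d)) (hq : 0 < q) :
    ∃ c : ℝ, 0 < c ∧ ∀ m : ℕ, ∃ s : SignedMeasure (E d), tv s ≤ 1 ∧ besov d s ≤ 1 + 1 ∧
      ENNReal.ofReal (c * ((2 : ℝ) ^ (m * d)) ^ (1 - q / 2)) ≤ lorq p q (rieszFT α s) := by
  classical
  have hdR : (0 : ℝ) < d := by exact_mod_cast hd
  have hsd : 0 < √(d : ℝ) := Real.sqrt_pos.mpr hdR
  set r : ℝ := 1 / (8 * π * d) with hr
  have hr0 : 0 < r := by positivity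
  set A : ℝ := (((1 : ℝ) ^ 2 / 192) / 2 * r ^ d / 2 ^ d) ^ (1 / p) * (4 * π * √d * r) ^ (-α) with hA
  have hA0 : 0 < A := by rw [hA]; positivity
  refine ⟨(A * √(1 / 8)) ^ q / 2 * (((1 : ℝ) ^ 2 / 192) / 2), by positivity, fun m => ?_⟩
  set Nr : ℝ := (2 : ℝ) ^ (m * d) with hNr
  have hN0 : 0 < Nr := by positivity
  set J : Finset ℕ := (range (2 ^ (m * d))).image (fun j => j + m) with hJ
  have hJc : J.card = 2 ^ (m * d) := by
    rw [hJ, card_image_of_injective _ (add_left_injective m), card_range]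
  have hHm : ∀ ω : II d m → Bool, Measurable (fun ξ : E d =>
      ∑ i, (∫ x in cell d m i, ee (inner ℝ x ξ)) * sg (ω i)) := by
    intro ω
    refine Finset.measurable_fun_sum _ fun i _ => Measurable.mul_const ?_ _
    have h1 : StronglyMeasurable (Function.uncurry fun (ξ x : E d) => ee (inner ℝ x ξ)) := by
      have : Continuous (Function.uncurry fun (ξ x : E d) => ee (inner ℝ x ξ)) := by
        unfold Function.uncurry
        exact ee_cont.comp (by fun_prop)
      exact this.stronglyMeasurable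
    exact (h1.integral_prod_right (ν := volume.restrict (cell d m i))).measurable
  obtain ⟨ω, hω⟩ := abs_lower (Ω := II d m → Bool) hd (κ := (1 : ℝ) ^ 2 / 192)
    (c := 1 / 8 / Nr) (r := r) hα hdR hp hq (by norm_num) (by positivity) hr0
    (fun ω ξ => ∑ i, (∫ x in cell d m i, ee (inner ℝ x ξ)) * sg (ω i)) hHm J
    (by
      intro k hk ξ hξ
      obtain ⟨j, hj, rfl⟩ := mem_image.mp hk
      rw [mem_range] at hj
      have key := smallball (I := II d m) 0 (fun i => ∫ x in cell d m i, ee (inner ℝ x ξ)) sg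
        sg_norm one_pos (by
          simp [sg]
          norm_num)
      refine key.trans (cnt_mono fun ω hω => ?_)
      rw [zero_add] at hω
      refine le_trans ?_ hω
      have hnear : ∀ n : Fin d → Fin (2 ^ j), ((2 : ℝ) ^ (j + m)) ^ (-(d : ℝ)) / 2
          ≤ ‖∫ x in cell d m ⟨⟨j, hj⟩, n⟩, ee (inner ℝ x ξ)‖ := by
        intro n
        have hvol : (volume (cell d m ⟨⟨j, hj⟩, n⟩)).toReal = ((2 : ℝ) ^ (j + m)) ^ (-(d : ℝ)) := by
          rw [cell_vol]
          simp only [ENNReal.toReal_pow, ENNReal.toReal_inv, ENNReal.toReal_ofNat]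
          rw [Real.rpow_neg (by positivity), Real.rpow_natCast, inv_pow, ← pow_mul, ← pow_mul,
            mul_comm]
        have hne : (cell d m ⟨⟨j, hj⟩, n⟩).Nonempty := by
          rw [Set.nonempty_iff_ne_empty]
          intro h
          rw [h] at hvol
          simp only [measure_empty, ENNReal.toReal_zero] at hvol
          have : (0 : ℝ) < ((2 : ℝ) ^ (j + m)) ^ (-(d : ℝ)) := by positivity
          linarith
        obtain ⟨x0, hx0⟩ := hne
        rw [← hvol]
        refine int_near (cell_meas _) ?_ (x0 := x0) (D := √d * ((2 : ℝ) ^ (j + m))⁻¹) ?_ ?_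
        · rw [cell_vol]
          have : ((2 : ℝ≥0∞) ^ d)⁻¹ ≠ ⊤ := ENNReal.inv_ne_top.mpr (by positivity)
          exact ENNReal.pow_ne_top this
        · intro x hx
          have h1 := cube_dist hx hx0
          have h2 : ‖x - x0‖ ^ 2 ≤ (√d * ((2 : ℝ) ^ (j + m))⁻¹) ^ 2 := by
            rw [mul_pow, Real.sq_sqrt (by positivity)]
            exact h1
          exact (pow_le_pow_iff_left₀ (norm_nonneg _) (by positivity) two_ne_zero).mp h2
        · have h1 := box_norm (by positivity) hξ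
          calc 2 * π * (√d * ((2 : ℝ) ^ (j + m))⁻¹ * ‖ξ‖)
              ≤ 2 * π * (√d * ((2 : ℝ) ^ (j + m))⁻¹ * (√d * (2 * (r * 2 ^ (j + m))))) := by gcongr
            _ = 4 * π * r * (√d * √d) * (((2 : ℝ) ^ (j + m))⁻¹ * 2 ^ (j + m)) := by ring
            _ = 1 / 2 := by
                rw [Real.mul_self_sqrt (by positivity), inv_mul_cancel₀ (by positivity), hr]
                field_simp
                norm_num
            _ ≤ 1 / 2 := le_rfl
      have hsum : ((2 : ℝ) ^ j) ^ d * (((2 : ℝ) ^ (j + m)) ^ (-(d : ℝ)) / 2) ^ 2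
          ≤ ∑ i : II d m, ‖∫ x in cell d m i, ee (inner ℝ x ξ)‖ ^ 2 := by
        rw [Fintype.sum_sigma]
        refine le_trans ?_ (single_le_sum (f := fun a : Fin (2 ^ (m * d)) =>
          ∑ n : Fin d → Fin (2 ^ (a : ℕ)), ‖∫ x in cell d m ⟨a, n⟩, ee (inner ℝ x ξ)‖ ^ 2)
          (fun _ _ => sum_nonneg fun _ _ => sq_nonneg _) (mem_univ (⟨j, hj⟩ : Fin (2 ^ (m * d)))))
        calc ((2 : ℝ) ^ j) ^ d * (((2 : ℝ) ^ (j + m)) ^ (-(d : ℝ)) / 2) ^ 2
            = ∑ _n : Fin d → Fin (2 ^ j), (((2 : ℝ) ^ (j + m)) ^ (-(d : ℝ)) / 2) ^ 2 := by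
              rw [sum_const, card_univ, Fintype.card_pi, nsmul_eq_mul]
              simp
          _ ≤ _ := by
              refine sum_le_sum fun n _ => ?_
              exact pow_le_pow_left₀ (by positivity) (hnear n) 2
      refine le_trans (le_of_eq ?_) (mul_le_mul_of_nonneg_left hsum (by norm_num))
      rw [Real.rpow_neg (by positivity), Real.rpow_natCast, hNr, pow_add, mul_pow, pow_mul]
      field_simp
      ring)
  obtain ⟨s, hs1, hs2, hs3⟩ := signed_of_cells (S := cell d m) (fun i => cell_meas i)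
    (cell_disj hd) (cell_total m) ω
  refine ⟨s, hs1, hs2, ?_⟩
  have e1 : rieszFT α s = fun ξ => (((2 * π * ‖ξ‖) ^ (-α) : ℝ) : ℂ)
      * ∑ i, (∫ x in cell d m i, ee (inner ℝ x ξ)) * sg (ω i) := by
    funext ξ
    unfold rieszFT
    rw [hs3]
  rw [e1]
  refine le_trans (le_of_eq ?_) hω
  congr 1
  rw [hJc]
  have e2 : ((((1 : ℝ) ^ 2 / 192) / 2 * r ^ d / 2 ^ d) ^ (1 / p)
      * ((4 * π * √d * r) ^ (-α) * √(1 / 8 / Nr))) = (A * √(1 / 8)) * Nr ^ (-(1 / 2 : ℝ)) := by
    rw [hA, Real.sqrt_div (by norm_num), Real.rpow_neg hN0.le, ← Real.sqrt_eq_rpow]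
    ring
  rw [e2, Real.mul_rpow (x := A * √(1 / 8)) (y := Nr ^ (-(1 / 2 : ℝ))) (by positivity)
    (by positivity), ← Real.rpow_mul hN0.le]
  have e3 : Nr ^ (1 - q / 2) = Nr ^ (-(1 / 2 : ℝ) * q) * Nr := by
    rw [← Real.rpow_add_one hN0.ne']
    congr 1
    ring
  rw [e3]
  push_cast
  rw [← hNr]
  ring

theorem partB' (hd : 0 < d) {α p q : ℝ} (hα : 0 < α)
    (hp : p = 2 * d / (2 * α + d)) (hq : 0 < q) (hq2 : q < 2) :
    ∃ Φ : ℕ → SignedMeasure (E d), (∃ C : ℝ≥0, ∀ N, tv (Φ N) + besov d (Φ N) ≤ C) ∧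
      Tendsto (fun N => lorentz p q (rieszFT α (Φ N))) atTop (𝓝 ⊤) := by
  obtain ⟨c, hc, h⟩ := partB hd hα hp hq
  choose Φ h1 h2 h3 using h
  refine ⟨Φ, ⟨1 + (1 + 1), fun N => ?_⟩, ?_⟩
  · push_cast
    exact add_le_add (h1 N) (h2 N)
  · refine tend_top (b := fun N => lorq p q (rieszFT α (Φ N))) hq
      (a := fun m : ℕ => c * ((2 : ℝ) ^ (m * d)) ^ (1 - q / 2)) ?_ h3
    apply Tendsto.const_mul_atTop hc
    refine (tendsto_rpow_atTop (by linarith)).comp ?_
    refine (tendsto_pow_atTop_atTop_of_one_lt (by norm_num : (1 : ℝ) < 2)).comp ?_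
    exact tendsto_id.atTop_mul_const' hd

end

end Pool.Agent.R246.LorG
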