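import Mathlib
import Pool.Agent.R246.LorD

/-!
# Measures with a bounded heat extension have a square integrable Fourier transform
-/

namespace Pool.Agent.R246.LorH

open scoped ENNReal Topology ComplexConjugate NNReal
open Filter MeasureTheory Real Finset
open Pool.Agent.R246.LorA Pool.Agent.R246.LorDef Pool.Agent.R246.LorD

noncomputable section

variable {d : ℕ}

theorem ee_conj (t : ℝ) : (starRingEnd ℂ) (ee t) = ee (-t) := by
  unfold ee
  rw [← Complex.exp_conj]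
  congr 1
  have : (-(2 * π * t) * Complex.I : ℂ) = ((-(2 * π * t) : ℝ) : ℂ) * Complex.I := by push_cast; ring
  rw [this, map_mul, Complex.conj_ofReal, Complex.conj_I]
  push_cast
  ring

/-- the Gaussian weight -/
def gw (b : ℝ) (ξ : E d) : ℂ := ((rexp (-b * ‖ξ‖ ^ 2) : ℝ) : ℂ)

theorem gw_cont (b : ℝ) : Continuous (gw b : E d → ℂ) := by
  unfold gw; fun_prop

theorem gw_integrable {b : ℝ} (hb : 0 < b) : Integrable (gw b : E d → ℂ) := by
  have h : Integrable (fun ξ : E d => rexp (-b * ‖ξ‖ ^ 2)) := by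
    by_contra h
    have h1 := integral_undef h
    rw [GaussianFourier.integral_rexp_neg_mul_sq_norm hb] at h1
    have : 0 < (π / b) ^ ((Module.finrank ℝ (E d) : ℝ) / 2) := by positivity
    linarith
  exact h.ofReal

theorem gw_fourier {b : ℝ} (hb : 0 < b) (z : E d) :
    ∫ ξ : E d, gw b ξ * ee (inner ℝ z ξ) = ((hk d (b / (4 * π ^ 2)) z : ℝ) : ℂ) := by
  have h1 := GaussianFourier.integral_cexp_neg_mul_sq_norm_add (V := E d) (b := (b : ℂ))
    (by simpa using hb) (-(2 * π * Complex.I)) z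
  have h2 : ∀ ξ : E d, gw b ξ * ee (inner ℝ z ξ)
      = Complex.exp (-(b : ℂ) * ‖ξ‖ ^ 2 + -(2 * π * Complex.I) * (inner ℝ z ξ : ℝ)) := by
    intro ξ
    unfold gw ee
    rw [Complex.ofReal_exp, ← Complex.exp_add]
    congr 1
    push_cast
    ring
  simp only [h2]
  refine h1.trans ?_
  unfold hk
  rw [finrank_euclideanSpace, Fintype.card_fin]
  push_cast
  congr 1
  · have e1 : (4 * π * (b / (4 * π ^ 2)) : ℝ) = b / π := by field_simp
    have e2 : ((4 * π * (b / (4 * π ^ 2)) : ℝ) ^ (-(d : ℝ) / 2)) = (π / b) ^ ((d : ℝ) / 2) := by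
      rw [e1, neg_div, Real.rpow_neg (by positivity), ← Real.inv_rpow (by positivity), inv_div]
    have e3 : ((π : ℂ) / b) ^ ((d : ℂ) / 2) = (((π / b : ℝ) ^ ((d : ℝ) / 2) : ℝ) : ℂ) := by
      rw [Complex.ofReal_cpow (by positivity)]
      push_cast
      rfl
    rw [e3, ← e2]
  · congr 1
    have hb' : (b : ℂ) ≠ 0 := by exact_mod_cast hb.ne'
    have hpi : (π : ℂ) ≠ 0 := by exact_mod_cast Real.pi_ne_zero
    have : (-(2 * (π : ℂ) * Complex.I)) ^ 2 = -(4 * π ^ 2) := by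
      rw [neg_sq, mul_pow, mul_pow, Complex.I_sq]; ring
    rw [this]
    field_simp

/-- the Fourier transform of a measure -/
def fm (ρ : Measure (E d)) (ξ : E d) : ℂ := ∫ x, ee (inner ℝ x ξ) ∂ρ

theorem fm_meas (ρ : Measure (E d)) [IsFiniteMeasure ρ] : StronglyMeasurable (fm ρ) := by
  have h1 : StronglyMeasurable (Function.uncurry fun (ξ x : E d) => ee (inner ℝ x ξ)) := by
    have : Continuous (Function.uncurry fun (ξ x : E d) => ee (inner ℝ x ξ)) := by
      unfold Function.uncurry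
      exact ee_cont.comp (by fun_prop)
    exact this.stronglyMeasurable
  exact h1.integral_prod_right (ν := ρ)

theorem fm_bound (ρ : Measure (E d)) [IsFiniteMeasure ρ] (ξ : E d) :
    ‖fm ρ ξ‖ ≤ ρ.real Set.univ := by
  have := norm_integral_le_of_norm_le_const (μ := ρ) (f := fun x => ee (inner ℝ x ξ)) (C := 1)
    (Eventually.of_forall fun x => (ee_norm _).le)
  simpa [fm] using this

theorem fub (ρ : Measure (E d)) [IsFiniteMeasure ρ] {w : E d → ℂ} (hw : Integrable w) (c : ℝ) :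
    ∫ ξ, w ξ * (∫ y, ee (c * inner ℝ y ξ) ∂ρ)
      = ∫ y, (∫ ξ, w ξ * ee (c * inner ℝ y ξ)) ∂ρ := by
  have h1 : ∀ ξ, w ξ * (∫ y, ee (c * inner ℝ y ξ) ∂ρ) = ∫ y, w ξ * ee (c * inner ℝ y ξ) ∂ρ := by
    intro ξ
    rw [integral_const_mul]
  simp only [h1]
  apply integral_integral_swap (f := fun (ξ y : E d) => w ξ * ee (c * inner ℝ y ξ))
  have h2 : Integrable (fun z : E d × E d => w z.1 * (fun _ : E d => (1 : ℂ)) z.2)
      (volume.prod ρ) := hw.mul_prod (integrable_const 1)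
  have hc : Continuous (fun z : E d × E d => ee (c * inner ℝ z.2 z.1)) :=
    ee_cont.comp (by fun_prop)
  refine h2.mono ?_ (Eventually.of_forall fun z => ?_)
  · exact (hw.1.comp_fst).mul hc.aestronglyMeasurable
  · simp [Function.uncurry, ee_norm]

theorem ee_int' (ρ : Measure (E d)) [IsFiniteMeasure ρ] {w : E d → ℂ} (hw : Integrable w)
    (c : ℝ) : Integrable (fun y => ∫ ξ, w ξ * ee (c * inner ℝ y ξ)) ρ := by
  have h2 : Integrable (fun z : E d × E d => (fun _ : E d => (1 : ℂ)) z.1 * w z.2)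
      (ρ.prod volume) := (integrable_const 1).mul_prod hw
  have hc : Continuous (fun z : E d × E d => ee (c * inner ℝ z.1 z.2)) :=
    ee_cont.comp (by fun_prop)
  have h3 : Integrable (fun z : E d × E d => w z.2 * ee (c * inner ℝ z.1 z.2))
      (ρ.prod volume) := by
    refine h2.mono ?_ (Eventually.of_forall fun z => ?_)
    · exact (hw.1.comp_snd).mul hc.aestronglyMeasurable
    · simp [ee_norm]
  exact h3.integral_prod_left

theorem ft_eq (s : SignedMeasure (E d)) (ξ : E d) : ft s ξ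
    = fm s.toJordanDecomposition.posPart ξ - fm s.toJordanDecomposition.negPart ξ := rfl

theorem ft_meas (s : SignedMeasure (E d)) : StronglyMeasurable (ft s) :=
  (fm_meas _).sub (fm_meas _)

theorem hk_even (t : ℝ) (x : E d) : hk d t (-x) = hk d t x := by
  unfold hk; rw [norm_neg]

/-- the weighted inverse transform is the heat extension -/
theorem heat_eq (s : SignedMeasure (E d)) {b : ℝ} (hb : 0 < b) (y : E d) :
    ∫ ξ, (gw b ξ * ft s ξ) * ee (-1 * inner ℝ y ξ)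
      = ((heat s (b / (4 * π ^ 2)) y : ℝ) : ℂ) := by
  have hw : Integrable (fun ξ : E d => gw b ξ * ee (-1 * inner ℝ y ξ)) := by
    refine (gw_integrable hb).mono ?_ (Eventually.of_forall fun ξ => ?_)
    · exact ((gw_cont b).mul (ee_cont.comp (by fun_prop))).aestronglyMeasurable
    · simp [ee_norm]
  have key : ∀ (ρ : Measure (E d)) [IsFiniteMeasure ρ],
      ∫ ξ, (gw b ξ * ee (-1 * inner ℝ y ξ)) * fm ρ ξ
        = ((∫ x, hk d (b / (4 * π ^ 2)) (y - x) ∂ρ : ℝ) : ℂ) := by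
    intro ρ _
    have h1 := fub ρ hw 1
    simp only [one_mul] at h1
    refine h1.trans ?_
    rw [← integral_complex_ofReal]
    refine integral_congr_ae (Eventually.of_forall fun x => ?_)
    show ∫ ξ, gw b ξ * ee (-1 * inner ℝ y ξ) * ee (inner ℝ x ξ) = _
    have h2 : ∀ ξ : E d, gw b ξ * ee (-1 * inner ℝ y ξ) * ee (inner ℝ x ξ)
        = gw b ξ * ee (inner ℝ (x - y) ξ) := by
      intro ξ
      rw [mul_assoc, ← ee_add, inner_sub_left]
      congr 2
      ring
    simp only [h2]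
    rw [gw_fourier hb, ← hk_even, neg_sub]
  have hint : ∀ (ρ : Measure (E d)) [IsFiniteMeasure ρ],
      Integrable (fun ξ : E d => (gw b ξ * ee (-1 * inner ℝ y ξ)) * fm ρ ξ) := by
    intro ρ _
    refine hw.mul_bdd (c := ρ.real Set.univ) (fm_meas ρ).aestronglyMeasurable
      (Eventually.of_forall fun ξ => fm_bound ρ ξ)
  have h3 : ∀ ξ : E d, (gw b ξ * ft s ξ) * ee (-1 * inner ℝ y ξ)
      = (gw b ξ * ee (-1 * inner ℝ y ξ)) * fm s.toJordanDecomposition.posPart ξ
        - (gw b ξ * ee (-1 * inner ℝ y ξ)) * fm s.toJordanDecomposition.negPart ξ := by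
    intro ξ
    rw [ft_eq]
    ring
  simp only [h3]
  rw [integral_sub (hint _) (hint _), key, key]
  unfold heat
  push_cast
  rfl

theorem heat_le (s : SignedMeasure (E d)) (h : besov d s ≤ 1) {t : ℝ} (ht : 0 < t) (x : E d) :
    |heat s t x| ≤ 1 := by
  have h1 : ENNReal.ofReal (t ^ (((d : ℝ) - d) / 2)) * ‖heat s t x‖ₑ ≤ 1 := by
    refine le_trans ?_ h
    unfold besov
    refine le_trans ?_ (le_iSup (fun t : Set.Ioi (0 : ℝ) =>
      ENNReal.ofReal ((t : ℝ) ^ (((d : ℝ) - d) / 2)) * ⨆ x, ‖heat s t x‖ₑ) ⟨t, ht⟩)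
    exact mul_le_mul' le_rfl (le_iSup (fun x => ‖heat s t x‖ₑ) x)
  rw [sub_self, zero_div, Real.rpow_zero, ENNReal.ofReal_one, one_mul,
    Real.enorm_eq_ofReal_abs] at h1
  have := ENNReal.ofReal_le_one.mp h1
  exact this

/-- the Gaussian weighted energy is at most one -/
theorem energy (s : SignedMeasure (E d)) (htv : tv s ≤ 1) (h : besov d s ≤ 1) {b : ℝ}
    (hb : 0 < b) : ∫⁻ ξ, ENNReal.ofReal (rexp (-b * ‖ξ‖ ^ 2) * ‖ft s ξ‖ ^ 2) ≤ 1 := by
  set μ := s.toJordanDecomposition.posPart with hμ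
  set ν := s.toJordanDecomposition.negPart with hν
  have htb : 0 < b / (4 * π ^ 2) := by positivity
  have hftb : ∀ ξ, ‖ft s ξ‖ ≤ μ.real Set.univ + ν.real Set.univ := by
    intro ξ
    rw [ft_eq]
    exact (norm_sub_le _ _).trans (add_le_add (fm_bound _ ξ) (fm_bound _ ξ))
  have hw : Integrable (fun ξ : E d => gw b ξ * ft s ξ) :=
    (gw_integrable hb).mul_bdd (ft_meas s).aestronglyMeasurable (Eventually.of_forall hftb)
  have hreal : Integrable (fun ξ : E d => rexp (-b * ‖ξ‖ ^ 2) * ‖ft s ξ‖ ^ 2) := by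
    have h1 : Integrable (fun ξ : E d => (gw b ξ * ft s ξ) * (starRingEnd ℂ) (ft s ξ)) := by
      refine hw.mul_bdd (c := μ.real Set.univ + ν.real Set.univ) ?_ (Eventually.of_forall fun ξ => ?_)
      · exact (Complex.continuous_conj.comp_stronglyMeasurable (ft_meas s)).aestronglyMeasurable
      · rw [RCLike.norm_conj]; exact hftb ξ
    refine h1.re.congr (Eventually.of_forall fun ξ => ?_)
    show ((gw b ξ * ft s ξ) * (starRingEnd ℂ) (ft s ξ)).re = _
    rw [mul_assoc, Complex.mul_conj, Complex.normSq_eq_norm_sq]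
    unfold gw
    rw [← Complex.ofReal_mul, Complex.ofReal_re]
  have key : ∀ (ρ : Measure (E d)) [IsFiniteMeasure ρ],
      ‖∫ ξ, (gw b ξ * ft s ξ) * (starRingEnd ℂ) (fm ρ ξ)‖ ≤ ρ.real Set.univ := by
    intro ρ _
    have h1 : ∀ ξ, (starRingEnd ℂ) (fm ρ ξ) = ∫ y, ee (-1 * inner ℝ y ξ) ∂ρ := by
      intro ξ
      unfold fm
      rw [← integral_conj]
      refine integral_congr_ae (Eventually.of_forall fun y => ?_)
      show (starRingEnd ℂ) (ee (inner ℝ y ξ)) = _
      rw [ee_conj]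
      congr 1
      ring
    simp only [h1]
    rw [fub ρ hw (-1)]
    have h2 := norm_integral_le_of_norm_le_const (μ := ρ)
      (f := fun y => ∫ ξ, (gw b ξ * ft s ξ) * ee (-1 * inner ℝ y ξ)) (C := 1)
      (Eventually.of_forall fun y => by
        show ‖∫ ξ, (gw b ξ * ft s ξ) * ee (-1 * inner ℝ y ξ)‖ ≤ 1
        rw [heat_eq s hb, Complex.norm_real]
        exact heat_le s h htb y)
    simpa using h2
  have hint : ∀ (ρ : Measure (E d)) [IsFiniteMeasure ρ],
      Integrable (fun ξ : E d => (gw b ξ * ft s ξ) * (starRingEnd ℂ) (fm ρ ξ)) := by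
    intro ρ _
    refine hw.mul_bdd (c := ρ.real Set.univ) ?_ (Eventually.of_forall fun ξ => ?_)
    · exact (Complex.continuous_conj.comp_stronglyMeasurable (fm_meas ρ)).aestronglyMeasurable
    · rw [RCLike.norm_conj]; exact fm_bound ρ ξ
  have hsum : (((∫ ξ, rexp (-b * ‖ξ‖ ^ 2) * ‖ft s ξ‖ ^ 2 : ℝ)) : ℂ)
      = (∫ ξ, (gw b ξ * ft s ξ) * (starRingEnd ℂ) (fm μ ξ))
        - ∫ ξ, (gw b ξ * ft s ξ) * (starRingEnd ℂ) (fm ν ξ) := by
    rw [← integral_sub (hint μ) (hint ν), ← integral_complex_ofReal]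
    refine integral_congr_ae (Eventually.of_forall fun ξ => ?_)
    show ((rexp (-b * ‖ξ‖ ^ 2) * ‖ft s ξ‖ ^ 2 : ℝ) : ℂ)
      = (gw b ξ * ft s ξ) * (starRingEnd ℂ) (fm μ ξ) - (gw b ξ * ft s ξ) * (starRingEnd ℂ) (fm ν ξ)
    rw [← mul_sub, ← map_sub, ← ft_eq, mul_assoc, Complex.mul_conj, Complex.normSq_eq_norm_sq]
    unfold gw
    push_cast
    rfl
  have hle : ∫ ξ, rexp (-b * ‖ξ‖ ^ 2) * ‖ft s ξ‖ ^ 2 ≤ 1 := by
    have h1 : ‖(((∫ ξ, rexp (-b * ‖ξ‖ ^ 2) * ‖ft s ξ‖ ^ 2 : ℝ)) : ℂ)‖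
        ≤ μ.real Set.univ + ν.real Set.univ := by
      rw [hsum]
      exact (norm_sub_le _ _).trans (add_le_add (key μ) (key ν))
    rw [Complex.norm_real] at h1
    refine (le_abs_self _).trans (h1.trans ?_)
    have h2 : μ Set.univ + ν Set.univ ≤ 1 := htv
    have h3 := ENNReal.toReal_mono ENNReal.one_ne_top h2
    rw [ENNReal.toReal_add (measure_ne_top _ _) (measure_ne_top _ _), ENNReal.toReal_one] at h3
    exact h3
  rw [← ofReal_integral_eq_lintegral_ofReal hreal (Eventually.of_forall fun ξ => by positivity)]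
  rw [ENNReal.ofReal_le_one]
  exact hle

/-- the energy is at most one -/
theorem energy' (s : SignedMeasure (E d)) (htv : tv s ≤ 1) (h : besov d s ≤ 1) :
    ∫⁻ ξ, ENNReal.ofReal (‖ft s ξ‖ ^ 2) ≤ 1 := by
  set f : ℕ → E d → ℝ≥0∞ := fun n ξ =>
    ENNReal.ofReal (rexp (-(1 / ((n : ℝ) + 1)) * ‖ξ‖ ^ 2) * ‖ft s ξ‖ ^ 2) with hf
  have hfm : ∀ n, Measurable (f n) := by
    intro n
    refine ENNReal.measurable_ofReal.comp (Measurable.mul ?_ ?_)
    · exact (by fun_prop : Continuous fun ξ : E d =>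
        rexp (-(1 / ((n : ℝ) + 1)) * ‖ξ‖ ^ 2)).measurable
    · exact (ft_meas s).measurable.norm.pow_const 2
  have h1 : ∀ ξ, liminf (fun n => f n ξ) atTop = ENNReal.ofReal (‖ft s ξ‖ ^ 2) := by
    intro ξ
    apply Tendsto.liminf_eq
    apply ENNReal.tendsto_ofReal
    have h2 : Tendsto (fun n : ℕ => rexp (-(1 / ((n : ℝ) + 1)) * ‖ξ‖ ^ 2)) atTop
        (𝓝 (rexp (-0 * ‖ξ‖ ^ 2))) :=
      (Real.continuous_exp.tendsto _).comp
        ((tendsto_one_div_add_atTop_nhds_zero_nat.neg).mul_const _)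
    have h3 := h2.mul_const (‖ft s ξ‖ ^ 2)
    simpa using h3
  calc ∫⁻ ξ, ENNReal.ofReal (‖ft s ξ‖ ^ 2) = ∫⁻ ξ, liminf (fun n => f n ξ) atTop :=
        lintegral_congr fun ξ => (h1 ξ).symm
    _ ≤ liminf (fun n => ∫⁻ ξ, f n ξ) atTop := lintegral_liminf_le hfm
    _ ≤ liminf (fun _ : ℕ => (1 : ℝ≥0∞)) atTop :=
        liminf_le_liminf (Eventually.of_forall fun n => energy s htv h (by positivity))
    _ = 1 := liminf_const _

end

end Pool.Agent.R246.LorH
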