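import Mathlib
import Pool.Agent.R246.LorH

/-!
# The Lorentz bound for `β = d`, `q ≥ 2`
-/

namespace Pool.Agent.R246.LorI

open scoped ENNReal Topology ComplexConjugate NNReal
open Filter MeasureTheory Real Finset
open Pool.Agent.R246.LorA Pool.Agent.R246.LorDef Pool.Agent.R246.LorD Pool.Agent.R246.LorH

noncomputable section

variable {d : ℕ}

theorem rearr_anti (g : E d → ℂ) : Antitone (rearr g) := by
  intro s t hst
  unfold rearr
  refine sInf_le_sInf fun u hu => ?_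
  exact le_trans hu (ENNReal.ofReal_le_ofReal hst)

/-- Chebyshev -/
theorem rearr_cheb (F : E d → ℂ) (hF : Measurable F)
    (h : ∫⁻ ξ, ENNReal.ofReal (‖F ξ‖ ^ 2) ≤ 1) {s : ℝ} (hs : 0 < s) :
    rearr F s ≤ ENNReal.ofReal (s ^ (-(1 / 2) : ℝ)) := by
  unfold rearr
  refine sInf_le ?_
  show volume {x | ENNReal.ofReal (s ^ (-(1 / 2) : ℝ)) < ‖F x‖ₑ} ≤ ENNReal.ofReal s
  have h1 : {x | ENNReal.ofReal (s ^ (-(1 / 2) : ℝ)) < ‖F x‖ₑ}
      ⊆ {x | ENNReal.ofReal s⁻¹ ≤ ENNReal.ofReal (‖F x‖ ^ 2)} := by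
    intro x hx
    have hx' : ENNReal.ofReal (s ^ (-(1 / 2) : ℝ)) < ‖F x‖ₑ := hx
    rw [← ofReal_norm] at hx'
    have h2 := (ENNReal.ofReal_lt_ofReal_iff_of_nonneg (by positivity)).mp hx'
    show ENNReal.ofReal s⁻¹ ≤ ENNReal.ofReal (‖F x‖ ^ 2)
    apply ENNReal.ofReal_le_ofReal
    calc s⁻¹ = (s ^ (-(1 / 2) : ℝ)) ^ 2 := by
          rw [← Real.rpow_natCast, ← Real.rpow_mul hs.le]
          norm_num
          rw [Real.rpow_neg_one]
      _ ≤ ‖F x‖ ^ 2 := pow_le_pow_left₀ (by positivity) h2.le 2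
  refine (measure_mono h1).trans ?_
  have h2 := mul_meas_ge_le_lintegral (μ := (volume : Measure (E d)))
    (f := fun x => ENNReal.ofReal (‖F x‖ ^ 2))
    (ENNReal.measurable_ofReal.comp (hF.norm.pow_const 2)) (ENNReal.ofReal s⁻¹)
  have h3 := h2.trans h
  rw [ENNReal.ofReal_inv_of_pos hs] at h3
  rw [ENNReal.ofReal_inv_of_pos hs]
  have h4 : ENNReal.ofReal s ≠ 0 := (ENNReal.ofReal_pos.mpr hs).ne'
  calc volume {x | (ENNReal.ofReal s)⁻¹ ≤ ENNReal.ofReal (‖F x‖ ^ 2)}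
      = ENNReal.ofReal s * ((ENNReal.ofReal s)⁻¹
        * volume {x | (ENNReal.ofReal s)⁻¹ ≤ ENNReal.ofReal (‖F x‖ ^ 2)}) := by
        rw [← mul_assoc, ENNReal.mul_inv_cancel h4 ENNReal.ofReal_ne_top, one_mul]
    _ ≤ ENNReal.ofReal s * 1 := mul_le_mul' le_rfl h3
    _ = _ := mul_one _

/-- multiplication by a homogeneous weight -/
theorem rearr_mul (hd : 0 < d) {α : ℝ} (hα : 0 < α) :
    ∃ C : ℝ, 0 < C ∧ ∀ (F : E d → ℂ) (s : ℝ), 0 < s →
      rearr (fun ξ => (((2 * π * ‖ξ‖) ^ (-α) : ℝ) : ℂ) * F ξ) s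
        ≤ ENNReal.ofReal (C * s ^ (-(α / d))) * rearr F (s / 2) := by
  have hdR : (0 : ℝ) < d := by exact_mod_cast hd
  have : Nonempty (Fin d) := ⟨⟨0, hd⟩⟩
  set κ : ℝ := (volume (Metric.ball (0 : E d) 1)).toReal with hκ
  have hκfin : volume (Metric.ball (0 : E d) 1) ≠ ⊤ := measure_ball_lt_top.ne
  have hκ0 : 0 < κ := ENNReal.toReal_pos (Metric.measure_ball_pos _ _ one_pos).ne' hκfin
  refine ⟨(2 * π) ^ (-α) * (2 * κ) ^ (α / d), by positivity, fun F s hs => ?_⟩
  set R : ℝ := (s / (2 * κ)) ^ (1 / (d : ℝ)) with hR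
  have hR0 : 0 < R := by positivity
  have hball : volume (Metric.ball (0 : E d) R) = ENNReal.ofReal (s / 2) := by
    rw [Measure.addHaar_ball_of_pos _ _ hR0, finrank_euclideanSpace, Fintype.card_fin,
      ← ENNReal.ofReal_toReal hκfin, ← hκ, ← ENNReal.ofReal_mul (by positivity), hR,
      ← Real.rpow_natCast, ← Real.rpow_mul (by positivity)]
    congr 1
    have : 1 / (d : ℝ) * d = 1 := by field_simp
    rw [this, Real.rpow_one]
    field_simp
  have hc : (2 * π * R) ^ (-α) = (2 * π) ^ (-α) * (2 * κ) ^ (α / d) * s ^ (-(α / d)) := by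
    rw [Real.mul_rpow (by positivity) hR0.le, hR, ← Real.rpow_mul (by positivity),
      Real.div_rpow hs.le (by positivity)]
    have e : 1 / (d : ℝ) * -α = -(α / d) := by ring
    rw [e, Real.rpow_neg (x := 2 * κ) (by positivity)]
    field_simp
  rw [← hc]
  have hc0 : (0 : ℝ) < (2 * π * R) ^ (-α) := by positivity
  set c : ℝ≥0∞ := ENNReal.ofReal ((2 * π * R) ^ (-α)) with hcdef
  have hcne : c ≠ 0 := (ENNReal.ofReal_pos.mpr hc0).ne'
  have hctop : c ≠ ⊤ := ENNReal.ofReal_ne_top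
  have h1 : c⁻¹ * rearr (fun ξ => (((2 * π * ‖ξ‖) ^ (-α) : ℝ) : ℂ) * F ξ) s ≤ rearr F (s / 2) := by
    unfold rearr
    refine le_sInf fun u hu => ?_
    have hu' : volume {x | u < ‖F x‖ₑ} ≤ ENNReal.ofReal (s / 2) := hu
    have h2 : rearr (fun ξ => (((2 * π * ‖ξ‖) ^ (-α) : ℝ) : ℂ) * F ξ) s ≤ c * u := by
      unfold rearr
      refine sInf_le ?_
      show volume {ξ : E d | c * u < ‖(((2 * π * ‖ξ‖) ^ (-α) : ℝ) : ℂ) * F ξ‖ₑ} ≤ ENNReal.ofReal s
      have h3 : {ξ : E d | c * u < ‖(((2 * π * ‖ξ‖) ^ (-α) : ℝ) : ℂ) * F ξ‖ₑ}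
          ⊆ Metric.ball (0 : E d) R ∪ {x | u < ‖F x‖ₑ} := by
        intro ξ hξ
        by_contra hno
        simp only [Set.mem_union, Metric.mem_ball, dist_zero_right, not_or, not_lt] at hno
        have h4 : ‖F ξ‖ₑ ≤ u := not_lt.mp hno.2
        have h5 : (2 * π * ‖ξ‖) ^ (-α) ≤ (2 * π * R) ^ (-α) := by
          refine Real.rpow_le_rpow_of_nonpos (by positivity) ?_ (by linarith)
          have := hno.1
          gcongr
        have h6 : ‖(((2 * π * ‖ξ‖) ^ (-α) : ℝ) : ℂ) * F ξ‖ₑ ≤ c * u := by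
          rw [enorm_mul]
          refine mul_le_mul' ?_ h4
          rw [← ofReal_norm, Complex.norm_real, Real.norm_of_nonneg (by positivity)]
          exact ENNReal.ofReal_le_ofReal h5
        exact absurd hξ (not_lt.mpr h6)
      calc volume {ξ : E d | c * u < ‖(((2 * π * ‖ξ‖) ^ (-α) : ℝ) : ℂ) * F ξ‖ₑ}
          ≤ volume (Metric.ball (0 : E d) R ∪ {x | u < ‖F x‖ₑ}) := measure_mono h3
        _ ≤ volume (Metric.ball (0 : E d) R) + volume {x | u < ‖F x‖ₑ} := measure_union_le _ _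
        _ ≤ ENNReal.ofReal (s / 2) + ENNReal.ofReal (s / 2) := by
            rw [hball]
            exact add_le_add le_rfl hu'
        _ = ENNReal.ofReal s := by
            rw [← ENNReal.ofReal_add (by positivity) (by positivity)]
            congr 1
            ring
    calc c⁻¹ * rearr (fun ξ => (((2 * π * ‖ξ‖) ^ (-α) : ℝ) : ℂ) * F ξ) s
        ≤ c⁻¹ * (c * u) := mul_le_mul' le_rfl h2
      _ = u := by rw [← mul_assoc, ENNReal.inv_mul_cancel hcne hctop, one_mul]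
  calc rearr (fun ξ => (((2 * π * ‖ξ‖) ^ (-α) : ℝ) : ℂ) * F ξ) s
      = c * (c⁻¹ * rearr (fun ξ => (((2 * π * ‖ξ‖) ^ (-α) : ℝ) : ℂ) * F ξ) s) := by
        rw [← mul_assoc, ENNReal.mul_inv_cancel hcne hctop, one_mul]
    _ ≤ c * rearr F (s / 2) := mul_le_mul' le_rfl h1

/-- the `L²` norm of the rearrangement -/
theorem rearr_sq (F : E d → ℂ) (hF : Measurable F)
    (h : ∫⁻ ξ, ENNReal.ofReal (‖F ξ‖ ^ 2) ≤ 1) :
    ∫⁻ s in Set.Ioi (0 : ℝ), rearr F (s / 2) ^ (2 : ℝ) ≤ 2 := by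
  set f : ℝ → ℝ := fun s => (rearr F (s / 2)).toReal with hf
  have hfin : ∀ s, 0 < s → rearr F (s / 2) ≠ ⊤ := fun s hs =>
    ne_top_of_le_ne_top ENNReal.ofReal_ne_top (rearr_cheb F hF h (by positivity : 0 < s / 2))
  have hfm : Measurable f := by
    have h1 : Antitone (fun s : ℝ => rearr F (s / 2)) := fun a b hab =>
      rearr_anti F (by linarith)
    exact h1.measurable.ennreal_toReal
  have h1 := lintegral_rpow_eq_lintegral_meas_lt_mul (volume.restrict (Set.Ioi (0 : ℝ)))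
    (f := f) (Eventually.of_forall fun s => ENNReal.toReal_nonneg) hfm.aemeasurable
    (two_pos : (0 : ℝ) < 2)
  have h2 := lintegral_rpow_eq_lintegral_meas_lt_mul (volume : Measure (E d))
    (f := fun ξ => ‖F ξ‖) (Eventually.of_forall fun s => norm_nonneg _) hF.norm.aemeasurable
    (two_pos : (0 : ℝ) < 2)
  have h3 : ∀ t : ℝ, 0 < t → (volume.restrict (Set.Ioi (0 : ℝ))) {a | t < f a}
      ≤ 2 * volume {ξ : E d | t < ‖F ξ‖} := by
    intro t ht
    have hms : MeasurableSet {a | t < f a} := measurableSet_lt measurable_const hfm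
    rw [Measure.restrict_apply hms]
    set D := volume {ξ : E d | t < ‖F ξ‖} with hD
    rcases eq_or_ne D ⊤ with hDt | hDt
    · rw [hDt]
      simp
    · have h4 : {a | t < f a} ∩ Set.Ioi (0 : ℝ) ⊆ Set.Ioo 0 (2 * D.toReal) := by
        rintro s ⟨hs1, hs2⟩
        refine ⟨hs2, ?_⟩
        by_contra hno
        push Not at hno
        have hs2' : (0 : ℝ) < s := hs2
        have h5 : D ≤ ENNReal.ofReal (s / 2) := by
          rw [← ENNReal.ofReal_toReal hDt]
          exact ENNReal.ofReal_le_ofReal (by linarith)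
        have h6 : rearr F (s / 2) ≤ ENNReal.ofReal t := by
          unfold rearr
          refine sInf_le ?_
          show volume {x | ENNReal.ofReal t < ‖F x‖ₑ} ≤ ENNReal.ofReal (s / 2)
          refine le_trans (measure_mono ?_) h5
          intro x hx
          have hx' : ENNReal.ofReal t < ‖F x‖ₑ := hx
          rw [← ofReal_norm] at hx'
          exact (ENNReal.ofReal_lt_ofReal_iff_of_nonneg ht.le).mp hx'
        have h7 : f s ≤ t := by
          rw [hf]
          exact ENNReal.toReal_le_of_le_ofReal ht.le h6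
        exact absurd hs1 (not_lt.mpr h7)
      refine (measure_mono h4).trans (le_of_eq ?_)
      rw [Real.volume_Ioo, sub_zero, ENNReal.ofReal_mul (by norm_num), ENNReal.ofReal_ofNat,
        ENNReal.ofReal_toReal hDt]
  calc ∫⁻ s in Set.Ioi (0 : ℝ), rearr F (s / 2) ^ (2 : ℝ)
      = ∫⁻ s in Set.Ioi (0 : ℝ), ENNReal.ofReal (f s ^ (2 : ℝ)) := by
        refine setLIntegral_congr_fun measurableSet_Ioi (fun s hs => ?_)
        rw [hf]
        simp only
        rw [← ENNReal.ofReal_rpow_of_nonneg ENNReal.toReal_nonneg (by norm_num),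
          ENNReal.ofReal_toReal (hfin s hs)]
    _ = ENNReal.ofReal 2 * ∫⁻ t in Set.Ioi (0 : ℝ),
          (volume.restrict (Set.Ioi (0 : ℝ))) {a | t < f a} * ENNReal.ofReal (t ^ ((2 : ℝ) - 1)) := h1
    _ ≤ ENNReal.ofReal 2 * ∫⁻ t in Set.Ioi (0 : ℝ),
          2 * (volume {ξ : E d | t < ‖F ξ‖} * ENNReal.ofReal (t ^ ((2 : ℝ) - 1))) := by
        refine mul_le_mul' le_rfl (setLIntegral_mono_ae' measurableSet_Ioi
          (Eventually.of_forall fun t ht => ?_))
        rw [← mul_assoc]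
        exact mul_le_mul' (h3 t ht) le_rfl
    _ = 2 * ∫⁻ ξ, ENNReal.ofReal (‖F ξ‖ ^ (2 : ℝ)) := by
        rw [lintegral_const_mul', h2]
        · ring
        · exact ENNReal.ofNat_ne_top
    _ ≤ 2 * 1 := by
        refine mul_le_mul' le_rfl ?_
        refine le_trans (le_of_eq ?_) h
        refine lintegral_congr fun ξ => ?_
        rw [Real.rpow_two]
    _ = 2 := mul_one _

/-- the case `β = d`, `q ≥ 2` -/
theorem partC (hd : 0 < d) {α p q : ℝ} (hα : 0 < α)
    (hp : p = 2 * d / (2 * α + d)) (hq : 2 ≤ q) :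
    ∃ C : ℝ≥0, ∀ s : SignedMeasure (E d), tv s ≤ 1 → besov d s ≤ 1 →
      lorentz p q (rieszFT α s) ≤ C := by
  have hdR : (0 : ℝ) < d := by exact_mod_cast hd
  have hq0 : 0 < q := by linarith
  obtain ⟨C, hC, hmul⟩ := rearr_mul hd hα
  have hK : (ENNReal.ofReal C ^ q * (ENNReal.ofReal √2 ^ (q - 2) * 2)) ^ (1 / q) ≠ ⊤ := by
    apply ENNReal.rpow_ne_top_of_nonneg (by positivity)
    apply ENNReal.mul_ne_top
    · exact ENNReal.rpow_ne_top_of_nonneg hq0.le ENNReal.ofReal_ne_top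
    · apply ENNReal.mul_ne_top
      · exact ENNReal.rpow_ne_top_of_nonneg (by linarith) ENNReal.ofReal_ne_top
      · exact ENNReal.ofNat_ne_top
  refine ⟨((ENNReal.ofReal C ^ q * (ENNReal.ofReal √2 ^ (q - 2) * 2)) ^ (1 / q)).toNNReal,
    fun s hs1 hs2 => ?_⟩
  rw [ENNReal.coe_toNNReal hK, lorentz_eq]
  apply ENNReal.rpow_le_rpow _ (by positivity)
  have hF := (ft_meas s).measurable
  have hE := energy' s hs1 hs2
  have hpt : ∀ u : ℝ, 0 < u → (ENNReal.ofReal (u ^ (1 / p)) * rearr (rieszFT α s) u) ^ q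
      / ENNReal.ofReal u ≤ (ENNReal.ofReal C ^ q * ENNReal.ofReal √2 ^ (q - 2))
        * rearr (ft s) (u / 2) ^ (2 : ℝ) := by
    intro u hu
    set x : ℝ≥0∞ := ENNReal.ofReal (u ^ (1 / 2 : ℝ)) * rearr (ft s) (u / 2) with hx
    have h1 : ENNReal.ofReal (u ^ (1 / p)) * rearr (rieszFT α s) u ≤ ENNReal.ofReal C * x := by
      calc ENNReal.ofReal (u ^ (1 / p)) * rearr (rieszFT α s) u
          ≤ ENNReal.ofReal (u ^ (1 / p))
            * (ENNReal.ofReal (C * u ^ (-(α / d))) * rearr (ft s) (u / 2)) :=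
            mul_le_mul' le_rfl (hmul (ft s) u hu)
        _ = ENNReal.ofReal C * x := by
            rw [hx, ← mul_assoc, ← mul_assoc, ← ENNReal.ofReal_mul (by positivity),
              ← ENNReal.ofReal_mul (by positivity)]
            congr 2
            have e : u ^ (1 / 2 : ℝ) = u ^ (1 / p) * u ^ (-(α / d)) := by
              rw [← Real.rpow_add hu]
              congr 1
              rw [hp]
              field_simp
              ring
            rw [e]
            ring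
    have h2 : x ≤ ENNReal.ofReal √2 := by
      calc x ≤ ENNReal.ofReal (u ^ (1 / 2 : ℝ)) * ENNReal.ofReal ((u / 2) ^ (-(1 / 2) : ℝ)) :=
            mul_le_mul' le_rfl (rearr_cheb (ft s) hF hE (by positivity))
        _ = ENNReal.ofReal √2 := by
            rw [← ENNReal.ofReal_mul (by positivity), Real.div_rpow hu.le (by norm_num),
              Real.rpow_neg hu.le, Real.rpow_neg (by norm_num), Real.sqrt_eq_rpow]
            congr 1
            field_simp
    have h3 : (ENNReal.ofReal C * x) ^ q ≤ ENNReal.ofReal C ^ q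
        * (ENNReal.ofReal √2 ^ (q - 2) * x ^ (2 : ℝ)) := by
      rw [ENNReal.mul_rpow_of_nonneg _ _ hq0.le]
      refine mul_le_mul' le_rfl ?_
      have e : q = (q - 2) + 2 := by ring
      calc x ^ q = x ^ ((q - 2) + 2) := by rw [← e]
        _ = x ^ (q - 2) * x ^ (2 : ℝ) :=
            ENNReal.rpow_add_of_nonneg _ _ (by linarith) (by norm_num)
        _ ≤ _ := mul_le_mul' (ENNReal.rpow_le_rpow h2 (by linarith)) le_rfl
    have h4 : x ^ (2 : ℝ) / ENNReal.ofReal u = rearr (ft s) (u / 2) ^ (2 : ℝ) := by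
      rw [hx, ENNReal.mul_rpow_of_nonneg _ _ (by norm_num),
        ENNReal.ofReal_rpow_of_nonneg (by positivity) (by norm_num), ← Real.rpow_mul hu.le]
      norm_num
      rw [mul_comm, mul_div_assoc, ENNReal.div_self (ENNReal.ofReal_pos.mpr hu).ne'
        ENNReal.ofReal_ne_top, mul_one]
    calc (ENNReal.ofReal (u ^ (1 / p)) * rearr (rieszFT α s) u) ^ q / ENNReal.ofReal u
        ≤ (ENNReal.ofReal C ^ q * (ENNReal.ofReal √2 ^ (q - 2) * x ^ (2 : ℝ)))
          / ENNReal.ofReal u :=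
          ENNReal.div_le_div ((ENNReal.rpow_le_rpow h1 hq0.le).trans h3) le_rfl
      _ = (ENNReal.ofReal C ^ q * ENNReal.ofReal √2 ^ (q - 2)) * (x ^ (2 : ℝ) / ENNReal.ofReal u) := by
          rw [← mul_assoc, mul_div_assoc]
      _ = _ := by rw [h4]
  calc lorq p q (rieszFT α s)
      ≤ ∫⁻ u in Set.Ioi (0 : ℝ), (ENNReal.ofReal C ^ q * ENNReal.ofReal √2 ^ (q - 2))
        * rearr (ft s) (u / 2) ^ (2 : ℝ) :=
        setLIntegral_mono_ae' measurableSet_Ioi (Eventually.of_forall fun u hu => hpt u hu)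
    _ = (ENNReal.ofReal C ^ q * ENNReal.ofReal √2 ^ (q - 2))
        * ∫⁻ u in Set.Ioi (0 : ℝ), rearr (ft s) (u / 2) ^ (2 : ℝ) := by
        rw [lintegral_const_mul']
        apply ENNReal.mul_ne_top
        · exact ENNReal.rpow_ne_top_of_nonneg hq0.le ENNReal.ofReal_ne_top
        · exact ENNReal.rpow_ne_top_of_nonneg (by linarith) ENNReal.ofReal_ne_top
    _ ≤ (ENNReal.ofReal C ^ q * ENNReal.ofReal √2 ^ (q - 2)) * 2 :=
        mul_le_mul' le_rfl (rearr_sq (ft s) hF hE)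
    _ = _ := mul_assoc _ _ _

end

end Pool.Agent.R246.LorI
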