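import Mathlib

/-!
# A symmetric function inequality for squares of multinomial coefficients
-/

namespace Pool.Agent.R246.MomentA

open Finset Polynomial

noncomputable section

/-- coefficientwise order -/
def CLe (f g : ℝ[X]) : Prop := ∀ n, f.coeff n ≤ g.coeff n

/-- nonnegative coefficients -/
def CNn (f : ℝ[X]) : Prop := ∀ n, 0 ≤ f.coeff n

lemma CNn.mul {f g : ℝ[X]} (hf : CNn f) (hg : CNn g) : CNn (f * g) := by
  intro n
  rw [coeff_mul]
  exact Finset.sum_nonneg fun i _ => mul_nonneg (hf _) (hg _)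

lemma CLe.mul {f f' g g' : ℝ[X]} (h : CLe f f') (h' : CLe g g') (hf : CNn f) (hg' : CNn g') :
    CLe (f * g) (f' * g') := by
  intro n
  rw [coeff_mul, coeff_mul]
  refine Finset.sum_le_sum fun i _ => ?_
  exact (mul_le_mul_of_nonneg_left (h' _) (hf _)).trans (mul_le_mul_of_nonneg_right (h _) (hg' _))

lemma CNn.one : CNn (1 : ℝ[X]) := by
  intro n
  rw [coeff_one]
  split_ifs <;> norm_num

lemma CNn.pow {f : ℝ[X]} (hf : CNn f) (n : ℕ) : CNn (f ^ n) := by
  induction n with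
  | zero => rw [pow_zero]; exact CNn.one
  | succ n ih => rw [pow_succ]; exact ih.mul hf

lemma CLe.refl (f : ℝ[X]) : CLe f f := fun _ => le_rfl

lemma CLe.trans {f g h : ℝ[X]} (h1 : CLe f g) (h2 : CLe g h) : CLe f h :=
  fun n => (h1 n).trans (h2 n)

lemma CLe.pow {f g : ℝ[X]} (h : CLe f g) (hf : CNn f) (hg : CNn g) (n : ℕ) :
    CLe (f ^ n) (g ^ n) := by
  induction n with
  | zero => rw [pow_zero, pow_zero]; exact CLe.refl _
  | succ n ih => rw [pow_succ, pow_succ]; exact ih.mul h (hf.pow n) hg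

/-- the quadratic polynomial `1 + s X + P X²` -/
def qd (s P : ℝ) : ℝ[X] := 1 + C s * X + C P * X ^ 2

lemma coeff_qd (s P : ℝ) (n : ℕ) : (qd s P).coeff n =
    (if n = 0 then 1 else 0) + (if n = 1 then s else 0) + (if n = 2 then P else 0) := by
  unfold qd
  rw [coeff_add, coeff_add, coeff_one, coeff_C_mul, coeff_X, coeff_C_mul, coeff_X_pow]
  congr 1
  · congr 1
    by_cases h : n = 1
    · simp [h]
    · have : ¬ 1 = n := fun h' => h h'.symm
      simp [h, this]
  · simp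

lemma qd_nn {s P : ℝ} (hs : 0 ≤ s) (hP : 0 ≤ P) : CNn (qd s P) := by
  intro n
  rw [coeff_qd]
  have h1 : (0 : ℝ) ≤ if n = 0 then 1 else 0 := by split_ifs <;> norm_num
  have h2 : (0 : ℝ) ≤ if n = 1 then s else 0 := by split_ifs <;> simp [hs]
  have h3 : (0 : ℝ) ≤ if n = 2 then P else 0 := by split_ifs <;> simp [hP]
  linarith

lemma qd_le {s P P' : ℝ} (h : P ≤ P') : CLe (qd s P) (qd s P') := by
  intro n
  rw [coeff_qd, coeff_qd]
  have h3 : (if n = 2 then P else 0) ≤ if n = 2 then P' else 0 := by split_ifs <;> simp [h]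
  linarith

lemma coeff_one_add_C_mul_X_pow (x : ℝ) (k i : ℕ) :
    ((1 + C x * X) ^ k : ℝ[X]).coeff i = (k.choose i : ℝ) * x ^ i := by
  have h : (1 + C x * X : ℝ[X]) = (1 + X).comp (C x * X) := by simp
  rw [h, ← pow_comp, comp_C_mul_X_coeff, coeff_one_add_X_pow]

/-- `c_k(x, y)` -/
def ck (k : ℕ) (x y : ℝ) : ℝ :=
  ∑ i ∈ antidiagonal k, (x ^ i.1 / (i.1.factorial : ℝ) ^ 2) * (y ^ i.2 / (i.2.factorial : ℝ) ^ 2)

lemma ck_eq (k : ℕ) (x y : ℝ) :
    ck k x y = ((qd (x + y) (x * y)) ^ k).coeff k / (k.factorial : ℝ) ^ 2 := by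
  have h : qd (x + y) (x * y) = (1 + C x * X) * (1 + C y * X) := by
    unfold qd
    rw [C_add, C_mul]
    ring
  rw [h, mul_pow, coeff_mul, ck, Finset.sum_div]
  refine Finset.sum_congr rfl fun i hi => ?_
  rw [coeff_one_add_C_mul_X_pow, coeff_one_add_C_mul_X_pow]
  rw [HasAntidiagonal.mem_antidiagonal] at hi
  have h1 : (k.choose i.1 : ℝ) = k.factorial / (i.1.factorial * i.2.factorial) := by
    have h2 : k - i.1 = i.2 := by omega
    rw [Nat.cast_choose ℝ (by omega : i.1 ≤ k), h2]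
  have h1' : (k.choose i.2 : ℝ) = k.factorial / (i.1.factorial * i.2.factorial) := by
    have h2 : k - i.2 = i.1 := by omega
    rw [Nat.cast_choose ℝ (by omega : i.2 ≤ k), h2, mul_comm]
  rw [h1, h1']
  have a1 : (k.factorial : ℝ) ≠ 0 := by exact_mod_cast k.factorial_ne_zero
  have a2 : (i.1.factorial : ℝ) ≠ 0 := by exact_mod_cast i.1.factorial_ne_zero
  have a3 : (i.2.factorial : ℝ) ≠ 0 := by exact_mod_cast i.2.factorial_ne_zero
  field_simp

lemma ck_nonneg (k : ℕ) {x y : ℝ} (hx : 0 ≤ x) (hy : 0 ≤ y) : 0 ≤ ck k x y :=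
  Finset.sum_nonneg fun i _ => by positivity

lemma ck_le (k : ℕ) {x y : ℝ} (hx : 0 ≤ x) (hy : 0 ≤ y) :
    ck k x y ≤ ck k ((x + y) / 2) ((x + y) / 2) := by
  rw [ck_eq, ck_eq]
  have h1 : (x + y) / 2 + (x + y) / 2 = x + y := by ring
  rw [h1]
  have h2 : x * y ≤ (x + y) / 2 * ((x + y) / 2) := by nlinarith [sq_nonneg (x - y)]
  have := (CLe.pow (qd_le (s := x + y) h2) (qd_nn (by positivity) (by positivity))
    (qd_nn (by positivity) (by positivity)) k) k
  gcongr

lemma ck_lt (k : ℕ) (hk : 2 ≤ k) {x y : ℝ} (hx : 0 ≤ x) (hy : 0 ≤ y) (hxy : x ≠ y) :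
    ck k x y < ck k ((x + y) / 2) ((x + y) / 2) := by
  rw [ck_eq, ck_eq]
  have h1 : (x + y) / 2 + (x + y) / 2 = x + y := by ring
  rw [h1]
  set s := x + y with hs_def
  set P := x * y with hP_def
  set P' := s / 2 * (s / 2) with hP'_def
  have hs : 0 < s := by
    rcases lt_or_eq_of_le hx with h | h
    · positivity
    · rcases lt_or_eq_of_le hy with h' | h'
      · positivity
      · exact absurd (h.symm.trans h') hxy
  have hP : 0 ≤ P := by positivity
  have hPP : P < P' := by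
    have : 0 < (x - y) ^ 2 := by
      have : x - y ≠ 0 := sub_ne_zero.2 hxy
      positivity
    rw [hP_def, hP'_def, hs_def]
    nlinarith
  obtain ⟨m, rfl⟩ : ∃ m, k = m + 2 := ⟨k - 2, by omega⟩
  have hA : CNn (qd s P) := qd_nn hs.le hP
  have hA' : CNn (qd s P') := qd_nn hs.le (hP.trans hPP.le)
  -- first step
  have step1 : ((qd s P) ^ (m + 1) * qd s P').coeff (m + 2) ≤ ((qd s P') ^ (m + 2)).coeff (m + 2) := by
    rw [pow_succ (qd s P') (m + 1)]
    exact CLe.mul ((qd_le hPP.le).pow hA hA' (m + 1)) (CLe.refl _) (hA.pow _) hA' _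
  have step2 : ((qd s P) ^ (m + 1) * qd s P').coeff (m + 2) =
      ((qd s P) ^ (m + 2)).coeff (m + 2) + (P' - P) * ((qd s P) ^ (m + 1)).coeff m := by
    have e : qd s P' = qd s P + C (P' - P) * X ^ 2 := by
      unfold qd; rw [C_sub]; ring
    have e2 : (qd s P) ^ (m + 1) * (C (P' - P) * X ^ 2) =
        C (P' - P) * ((qd s P) ^ (m + 1) * X ^ 2) := by ring
    rw [e, mul_add, coeff_add, ← pow_succ, e2, coeff_C_mul, coeff_mul_X_pow]
  have step3 : 0 < ((qd s P) ^ (m + 1)).coeff m := by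
    have h3 : CLe (qd s 0) (qd s P) := qd_le hP
    have h4 := (h3.pow (qd_nn hs.le le_rfl) hA (m + 1)) m
    refine lt_of_lt_of_le ?_ h4
    have e : qd s 0 = 1 + C s * X := by unfold qd; simp
    rw [e, coeff_one_add_C_mul_X_pow]
    have : 0 < (m + 1).choose m := Nat.choose_pos (by omega)
    positivity
  have hlt : ((qd s P) ^ (m + 2)).coeff (m + 2) < ((qd s P') ^ (m + 2)).coeff (m + 2) := by
    have : 0 < (P' - P) * ((qd s P) ^ (m + 1)).coeff m := mul_pos (by linarith) step3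
    linarith
  gcongr

/-- the power series `∑ x^m / (m!)² z^m` -/
def II (x : ℝ) : PowerSeries ℝ := PowerSeries.mk fun m => x ^ m / (m.factorial : ℝ) ^ 2

lemma coeff_II_mul (x y : ℝ) (k : ℕ) : PowerSeries.coeff k (II x * II y) = ck k x y := by
  rw [PowerSeries.coeff_mul]
  unfold II ck
  simp only [PowerSeries.coeff_mk]

variable {ι : Type*} [Fintype ι] [DecidableEq ι]

/-- the sum over the multi-indices of degree `d` of `a^m / (m!)²` -/
def Phi (d : ℕ) (a : ι → ℝ) : ℝ :=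
  ∑ m ∈ piAntidiag (univ : Finset ι) d, ∏ t, (a t ^ m t / ((m t).factorial : ℝ) ^ 2)

lemma Phi_eq (d : ℕ) (a : ι → ℝ) : Phi d a = PowerSeries.coeff d (∏ t, II (a t)) := by
  rw [PowerSeries.coeff_prod]
  unfold Phi
  symm
  refine Finset.sum_bij' (fun l _ => (l : ι → ℕ)) (fun m _ => Finsupp.equivFunOnFinite.symm m)
    ?_ ?_ ?_ ?_ ?_
  · intro l hl
    rw [mem_finsuppAntidiag] at hl
    rw [mem_piAntidiag]
    exact ⟨hl.1, fun i _ => mem_univ i⟩
  · intro m hm
    rw [mem_piAntidiag] at hm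
    rw [mem_finsuppAntidiag]
    exact ⟨hm.1, subset_univ _⟩
  · intro l _
    ext i
    rfl
  · intro m _
    rfl
  · intro l _
    refine Finset.prod_congr rfl fun i _ => ?_
    unfold II
    rw [PowerSeries.coeff_mk]

lemma prod_nonneg (s : Finset ι) (a : ι → ℝ) (ha : ∀ t, 0 ≤ a t) (k : ℕ) :
    0 ≤ PowerSeries.coeff k (∏ t ∈ s, II (a t)) := by
  rw [PowerSeries.coeff_prod]
  refine Finset.sum_nonneg fun l _ => Finset.prod_nonneg fun i _ => ?_
  unfold II
  rw [PowerSeries.coeff_mk]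
  have := ha i
  positivity

lemma prod_coeff_zero (s : Finset ι) (a : ι → ℝ) :
    PowerSeries.coeff 0 (∏ t ∈ s, II (a t)) = 1 := by
  rw [PowerSeries.coeff_zero_eq_constantCoeff_apply, map_prod]
  refine Finset.prod_eq_one fun i _ => ?_
  rw [← PowerSeries.coeff_zero_eq_constantCoeff_apply]
  unfold II
  rw [PowerSeries.coeff_mk]
  simp

/-- replace the entries `s`, `t` by their average -/
def smooth (a : ι → ℝ) (s t : ι) : ι → ℝ :=
  fun i => if i = s ∨ i = t then (a s + a t) / 2 else a i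

lemma prod_split (a : ι → ℝ) {s t : ι} (hst : s ≠ t) :
    ∏ i, II (a i) = (II (a s) * II (a t)) * ∏ i ∈ (univ.erase s).erase t, II (a i) := by
  rw [← Finset.mul_prod_erase univ _ (mem_univ s),
    ← Finset.mul_prod_erase (univ.erase s) _ (mem_erase.2 ⟨hst.symm, mem_univ t⟩), mul_assoc]

lemma sum_smooth (a : ι → ℝ) {s t : ι} (hst : s ≠ t) : ∑ i, smooth a s t i = ∑ i, a i := by
  have h : ∀ b : ι → ℝ, ∑ i, b i = (b s + b t) + ∑ i ∈ (univ.erase s).erase t, b i := by
    intro b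
    rw [← Finset.add_sum_erase univ _ (mem_univ s),
      ← Finset.add_sum_erase (univ.erase s) _ (mem_erase.2 ⟨hst.symm, mem_univ t⟩), add_assoc]
  rw [h, h a]
  have e1 : smooth a s t s = (a s + a t) / 2 := by simp [smooth]
  have e2 : smooth a s t t = (a s + a t) / 2 := by simp [smooth]
  rw [e1, e2]
  congr 1
  · ring
  · refine Finset.sum_congr rfl fun i hi => ?_
    rw [mem_erase, mem_erase] at hi
    simp [smooth, hi.1, hi.2.1]

lemma Phi_smooth (d : ℕ) (hd : 2 ≤ d) (a : ι → ℝ) (ha : ∀ t, 0 ≤ a t) {s t : ι}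
    (hst : a s ≠ a t) : Phi d a < Phi d (smooth a s t) := by
  have hne : s ≠ t := fun h => hst (by rw [h])
  rw [Phi_eq, Phi_eq, prod_split a hne, prod_split (smooth a s t) hne]
  have e1 : smooth a s t s = (a s + a t) / 2 := by simp [smooth]
  have e2 : smooth a s t t = (a s + a t) / 2 := by simp [smooth]
  have e3 : ∏ i ∈ (univ.erase s).erase t, II (smooth a s t i) =
      ∏ i ∈ (univ.erase s).erase t, II (a i) := by
    refine Finset.prod_congr rfl fun i hi => ?_
    rw [mem_erase, mem_erase] at hi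
    simp [smooth, hi.1, hi.2.1]
  rw [e1, e2, e3, PowerSeries.coeff_mul, PowerSeries.coeff_mul]
  refine Finset.sum_lt_sum ?_ ⟨(d, 0), ?_, ?_⟩
  · intro i _
    rw [coeff_II_mul, coeff_II_mul]
    exact mul_le_mul_of_nonneg_right (ck_le _ (ha s) (ha t)) (prod_nonneg _ a ha _)
  · rw [HasAntidiagonal.mem_antidiagonal, add_zero]
  · simp only
    rw [coeff_II_mul, coeff_II_mul, prod_coeff_zero, mul_one, mul_one]
    exact ck_lt d hd (ha s) (ha t) hst

lemma Phi_cont (d : ℕ) : Continuous (Phi d : (ι → ℝ) → ℝ) := by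
  unfold Phi
  fun_prop

lemma Phi_const (d : ℕ) (c : ℝ) : Phi d (fun _ : ι => c) = c ^ d * Phi d (fun _ : ι => (1 : ℝ)) := by
  unfold Phi
  rw [Finset.mul_sum]
  refine Finset.sum_congr rfl fun m hm => ?_
  rw [mem_piAntidiag] at hm
  rw [← hm.1, ← Finset.prod_pow_eq_pow_sum, ← Finset.prod_mul_distrib]
  refine Finset.prod_congr rfl fun i _ => ?_
  rw [one_pow]; ring

/-- the extremal property of constant vectors -/
theorem Phi_le [Nonempty ι] (d : ℕ) (hd : 2 ≤ d) (a : ι → ℝ) (ha : ∀ t, 0 ≤ a t) :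
    Phi d a ≤ ((∑ t, a t) / Fintype.card ι) ^ d * Phi d (fun _ : ι => (1 : ℝ)) ∧
    (Phi d a = ((∑ t, a t) / Fintype.card ι) ^ d * Phi d (fun _ : ι => (1 : ℝ)) →
      ∀ s t, a s = a t) := by
  set N := ∑ t, a t with hN
  set K : Set (ι → ℝ) := Set.Icc 0 (fun _ => N) ∩ {b | ∑ t, b t = N} with hK
  have hKc : IsCompact K := by
    refine isCompact_Icc.inter_right ?_
    exact isClosed_eq (by fun_prop) continuous_const
  have hmemK : ∀ b : ι → ℝ, (∀ t, 0 ≤ b t) → ∑ t, b t = N → b ∈ K := by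
    intro b hb hs
    refine ⟨⟨fun t => hb t, fun t => ?_⟩, hs⟩
    rw [← hs]
    exact Finset.single_le_sum (f := b) (fun i _ => hb i) (mem_univ t)
  have haK : a ∈ K := hmemK a ha rfl
  obtain ⟨b, hbK, hb⟩ := hKc.exists_isMaxOn ⟨a, haK⟩ (Phi_cont (ι := ι) d).continuousOn
  -- maximizers are constant
  have hmaxc : ∀ b' ∈ K, (∀ c ∈ K, Phi d c ≤ Phi d b') → ∀ s t, b' s = b' t := by
    intro b' hb' hmax s t
    by_contra hne
    have hst : s ≠ t := fun h => hne (by rw [h])
    have h0 : ∀ i, 0 ≤ b' i := fun i => hb'.1.1 i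
    have h1 := Phi_smooth d hd b' h0 hne
    have h2 : smooth b' s t ∈ K := by
      refine hmemK _ ?_ ?_
      · intro i
        unfold smooth
        split_ifs
        · have := h0 s; have := h0 t; positivity
        · exact h0 i
      · rw [sum_smooth b' hst]; exact hb'.2
    exact absurd (hmax _ h2) (not_le.2 h1)
  have hbc := hmaxc b hbK hb
  have hcard : (0 : ℝ) < Fintype.card ι := by exact_mod_cast Fintype.card_pos
  have hbval : b = fun _ => N / Fintype.card ι := by
    funext s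
    have h1 : ∑ t, b t = Fintype.card ι * b s := by
      rw [Finset.sum_congr rfl fun t _ => hbc t s]
      simp
    rw [hbK.2] at h1
    rw [h1]; field_simp
  have hPb : Phi d b = (N / Fintype.card ι) ^ d * Phi d (fun _ : ι => (1 : ℝ)) := by
    rw [hbval, Phi_const]
  constructor
  · rw [← hPb]; exact hb haK
  · intro heq
    refine hmaxc a haK fun c hc => ?_
    rw [heq, ← hPb]
    exact hb hc

end

end Pool.Agent.R246.MomentA
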