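import Mathlib
import Pool.Agent.R246.MomentA

/-!
# Counting functions with given sorted values
-/

namespace Pool.Agent.R246.MomentB

open Finset Pool.Agent.R246.MomentA

noncomputable section

/-- the partitions `ℓ₁ ≥ … ≥ ℓ_d ≥ 0` of `d` -/
def Pd (d : ℕ) : Finset (Fin d → ℕ) :=
  {l ∈ Fintype.piFinset (fun _ : Fin d => range (d + 1)) | Antitone l ∧ ∑ i, l i = d}

lemma mem_Pd {d : ℕ} {l : Fin d → ℕ} : l ∈ Pd d ↔ Antitone l ∧ ∑ i, l i = d := by
  unfold Pd
  rw [mem_filter, Fintype.mem_piFinset]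
  refine ⟨fun h => h.2, fun h => ⟨fun i => ?_, h⟩⟩
  rw [mem_range]
  have : l i ≤ ∑ i, l i := Finset.single_le_sum (f := l) (fun _ _ => Nat.zero_le _) (mem_univ i)
  omega

/-- multiplicities -/
def bj {d : ℕ} (q : ℕ) (l : Fin d → ℕ) (j : ℕ) : ℕ :=
  #{i | l i = j} + if j = 0 then q - d else 0

/-- extension by zero -/
def ez {d : ℕ} (q : ℕ) (l : Fin d → ℕ) (i : Fin q) : ℕ := if h : (i : ℕ) < d then l ⟨i, h⟩ else 0

lemma ez_antitone {d q : ℕ} {l : Fin d → ℕ} (hl : Antitone l) : Antitone (ez q l) := by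
  intro i j hij
  unfold ez
  split_ifs with h1 h2
  · exact hl hij
  · exact absurd (lt_of_le_of_lt (Fin.le_def.1 hij) h1) h2
  · exact Nat.zero_le _
  · exact le_rfl

lemma ez_castLE {d q : ℕ} (hq : d ≤ q) (l : Fin d → ℕ) (i : Fin d) :
    ez q l (Fin.castLE hq i) = l i := by
  unfold ez
  have : ((Fin.castLE hq i : Fin q) : ℕ) < d := i.2
  rw [dif_pos this]
  congr 1

lemma ez_inj {d q : ℕ} (hq : d ≤ q) {l l' : Fin d → ℕ} (h : ez q l = ez q l') : l = l' := by
  funext i
  rw [← ez_castLE hq l i, h, ez_castLE]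

/-- sum or product over `Fin q` of a function of `ez` -/
lemma prod_ez {M : Type*} [CommMonoid M] {d q : ℕ} (hq : d ≤ q) (l : Fin d → ℕ) (f : ℕ → M)
    (hf : f 0 = 1) : ∏ i, f (ez q l i) = ∏ i, f (l i) := by
  have h1 : ∏ i, f (l i) = ∏ i ∈ (univ : Finset (Fin d)).map (Fin.castLEEmb hq), f (ez q l i) := by
    rw [Finset.prod_map]
    refine Finset.prod_congr rfl fun i _ => ?_
    rw [Fin.castLEEmb_apply, ez_castLE]
  rw [h1]
  symm
  refine Finset.prod_subset (subset_univ _) fun i _ hi => ?_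
  have h2 : ez q l i = 0 := by
    unfold ez
    rw [dif_neg]
    intro h
    apply hi
    rw [mem_map]
    exact ⟨⟨i, h⟩, mem_univ _, by rw [Fin.castLEEmb_apply]; rfl⟩
  rw [h2, hf]

lemma sum_ez {d q : ℕ} (hq : d ≤ q) (l : Fin d → ℕ) : ∑ i, ez q l i = ∑ i, l i := by
  have h := prod_ez (M := Multiplicative ℕ) hq l (fun n => Multiplicative.ofAdd n) rfl
  have h2 := congrArg Multiplicative.toAdd h
  rw [toAdd_prod, toAdd_prod] at h2
  exact h2

lemma card_ez {d q : ℕ} (hq : d ≤ q) (l : Fin d → ℕ) (j : ℕ) :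
    #{i : Fin q | ez q l i = j} = bj q l j := by
  unfold bj
  have h1 : (univ.filter fun i : Fin q => ez q l i = j) =
      ((univ.filter fun i : Fin d => l i = j).map (Fin.castLEEmb hq)) ∪
        (univ.filter fun i : Fin q => d ≤ (i : ℕ) ∧ 0 = j) := by
    ext i
    simp only [mem_filter, mem_univ, true_and, mem_union, mem_map]
    constructor
    · intro h
      by_cases hi : (i : ℕ) < d
      · left
        refine ⟨⟨i, hi⟩, ?_, ?_⟩
        · unfold ez at h
          rwa [dif_pos hi] at h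
        · rw [Fin.castLEEmb_apply]; rfl
      · right
        unfold ez at h
        rw [dif_neg hi] at h
        exact ⟨not_lt.1 hi, h⟩
    · rintro (⟨a, ha, rfl⟩ | ⟨h1, h2⟩)
      · rw [Fin.castLEEmb_apply, ez_castLE, ha]
      · unfold ez
        rw [dif_neg (not_lt.2 h1), h2]
  rw [h1, card_union_of_disjoint, card_map]
  · congr 1
    split_ifs with hj
    · have h2 : (univ.filter fun i : Fin q => d ≤ (i : ℕ) ∧ 0 = j) =
        (univ.filter fun i : Fin q => ¬ (i : ℕ) < d) := by
        ext i; simp [hj]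
      have h3 := Finset.card_filter_add_card_filter_not (s := (univ : Finset (Fin q)))
        (fun i : Fin q => (i : ℕ) < d)
      have h4 : #(univ.filter fun i : Fin q => (i : ℕ) < d) = d := by
        have : (univ.filter fun i : Fin q => (i : ℕ) < d) = (univ : Finset (Fin d)).map (Fin.castLEEmb hq) := by
          ext i
          simp only [mem_filter, mem_univ, true_and, mem_map]
          constructor
          · intro h; exact ⟨⟨i, h⟩, by rw [Fin.castLEEmb_apply]; rfl⟩
          · rintro ⟨a, rfl⟩; exact a.2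
        rw [this, card_map, card_univ, Fintype.card_fin]
      rw [card_univ, Fintype.card_fin] at h3
      rw [h2]
      omega
    · rw [card_eq_zero, filter_eq_empty_iff]
      rintro i _ ⟨_, h⟩
      exact hj h.symm
  · rw [Finset.disjoint_left]
    intro i hi hi'
    rw [mem_map] at hi
    obtain ⟨a, _, rfl⟩ := hi
    rw [mem_filter] at hi'
    have := a.2
    have h3 := hi'.2.1
    rw [Fin.castLEEmb_apply] at h3
    simp only [Fin.val_castLE] at h3
    omega

/-- number of permutations fixing a function -/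
def st {q : ℕ} (m : Fin q → ℕ) : ℕ := #{g : Equiv.Perm (Fin q) | m ∘ g = m}

lemma st_ez {d q : ℕ} (hq : d ≤ q) {l : Fin d → ℕ} (hl : l ∈ Pd d) :
    st (ez q l) = ∏ j ∈ range (d + 1), (bj q l j).factorial := by
  have h := DomMulAct.stabilizer_card' (ez q l)
  have h0 : st (ez q l) = Fintype.card {g : Equiv.Perm (Fin q) // ez q l ∘ g = ez q l} := by
    unfold st
    rw [Fintype.card_subtype]
  rw [h0, h]
  have h2 : ∀ j, Fintype.card {a // ez q l a = j} = bj q l j := by
    intro j
    rw [Fintype.card_subtype]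
    exact card_ez hq l j
  simp_rw [h2]
  refine Finset.prod_subset ?_ ?_
  · intro j hj
    rw [mem_image] at hj
    obtain ⟨i, -, rfl⟩ := hj
    rw [mem_range]
    have h3 : ez q l i ≤ ∑ i, ez q l i :=
      Finset.single_le_sum (f := ez q l) (fun _ _ => Nat.zero_le _) (mem_univ i)
    rw [sum_ez hq, (mem_Pd.1 hl).2] at h3
    omega
  · intro j _ hj
    have h3 : bj q l j = 0 := by
      rw [← card_ez hq, card_eq_zero, filter_eq_empty_iff]
      intro i _ hi
      exact hj (mem_image.2 ⟨i, mem_univ _, hi⟩)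
    rw [h3, Nat.factorial_zero]

/-- every function of sum `d` is a rearrangement of some `ez l` -/
lemma exists_sort {d q : ℕ} (hq : d ≤ q) (m : Fin q → ℕ) (hm : ∑ i, m i = d) :
    ∃ l ∈ Pd d, ∃ σ : Equiv.Perm (Fin q), ez q l ∘ σ = m := by
  set τ : Equiv.Perm (Fin q) := Tuple.sort (fun i => OrderDual.toDual (m i)) with hτ
  have hmono := Tuple.monotone_sort (fun i => OrderDual.toDual (m i))
  have hanti : Antitone (m ∘ τ) := fun i j hij => hmono hij
  set l : Fin d → ℕ := fun i => m (τ (Fin.castLE hq i)) with hl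
  have hsum : ∑ i, m (τ i) = d := by rw [Equiv.sum_comp τ m, hm]
  have hzero : ∀ i : Fin q, ¬ (i : ℕ) < d → m (τ i) = 0 := by
    intro i hi
    by_contra hne
    have h1 : ∀ j : Fin q, j ≤ i → 1 ≤ m (τ j) := by
      intro j hj
      have := hanti hj
      simp only [Function.comp_apply] at this
      omega
    have h2 : #(univ.filter fun j : Fin q => j ≤ i) ≤ ∑ j, m (τ j) := by
      calc #(univ.filter fun j : Fin q => j ≤ i) = ∑ j ∈ univ.filter (fun j : Fin q => j ≤ i), 1 := by
            simp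
        _ ≤ ∑ j ∈ univ.filter (fun j : Fin q => j ≤ i), m (τ j) :=
            Finset.sum_le_sum fun j hj => h1 j (mem_filter.1 hj).2
        _ ≤ ∑ j, m (τ j) := Finset.sum_le_sum_of_subset (filter_subset _ _)
    have h3 : #(univ.filter fun j : Fin q => j ≤ i) = i + 1 := by
      have : (univ.filter fun j : Fin q => j ≤ i) = Finset.Iic i := by ext j; simp
      rw [this, Fin.card_Iic]
    rw [h3, hsum] at h2
    omega
  have hez : ez q l = m ∘ τ := by
    funext i
    unfold ez
    split_ifs with h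
    · rfl
    · exact (hzero i h).symm
  refine ⟨l, mem_Pd.2 ⟨?_, ?_⟩, τ⁻¹, ?_⟩
  · intro i j hij
    exact hanti (show Fin.castLE hq i ≤ Fin.castLE hq j from hij)
  · rw [← sum_ez hq l, hez]; exact hsum
  · rw [hez]
    funext i
    simp [Function.comp]

/-- the counting identity -/
theorem count {d q : ℕ} (hq : d ≤ q) : Phi d (fun _ : Fin q => (1 : ℝ)) =
    ∑ l ∈ Pd d, (∏ i, (1 / ((l i).factorial : ℝ) ^ 2)) *
      ((q.factorial : ℝ) / ∏ j ∈ range (d + 1), ((bj q l j).factorial : ℝ)) := by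
  classical
  set w : (Fin q → ℕ) → ℝ := fun m => ∏ t, (1 / ((m t).factorial : ℝ) ^ 2) with hw
  have hstpos : ∀ m : Fin q → ℕ, 0 < st m := by
    intro m
    unfold st
    rw [card_pos]
    exact ⟨1, by simp⟩
  have hcomp : ∀ (m : Fin q → ℕ) (σ : Equiv.Perm (Fin q)), w (m ∘ σ) = w m := by
    intro m σ
    simp only [hw, Function.comp_apply]
    exact Equiv.prod_comp σ (fun t => (1 / ((m t).factorial : ℝ) ^ 2))
  have hst : ∀ (m : Fin q → ℕ) (σ : Equiv.Perm (Fin q)), st (m ∘ σ) = st m := by
    intro m σ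
    unfold st
    refine Finset.card_bij' (fun g _ => σ * g * σ⁻¹) (fun g _ => σ⁻¹ * g * σ) ?_ ?_ ?_ ?_
    · intro g hg
      simp only [mem_filter, mem_univ, true_and] at hg ⊢
      funext i
      have := congrFun hg (σ⁻¹ i)
      simpa [Function.comp] using this
    · intro g hg
      simp only [mem_filter, mem_univ, true_and] at hg ⊢
      funext i
      have := congrFun hg (σ i)
      simpa [Function.comp] using this
    · intro g _; group
    · intro g _; group
  -- double sum
  have hA : ∑ x ∈ Pd d ×ˢ (univ : Finset (Equiv.Perm (Fin q))), w (ez q x.1 ∘ x.2) / st (ez q x.1 ∘ x.2)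
      = ∑ l ∈ Pd d, (q.factorial : ℝ) * (w (ez q l) / st (ez q l)) := by
    rw [Finset.sum_product]
    refine Finset.sum_congr rfl fun l _ => ?_
    simp_rw [hcomp, hst]
    rw [Finset.sum_const, card_univ, Fintype.card_perm, Fintype.card_fin, nsmul_eq_mul]
  have hB : ∑ x ∈ Pd d ×ˢ (univ : Finset (Equiv.Perm (Fin q))), w (ez q x.1 ∘ x.2) / st (ez q x.1 ∘ x.2)
      = ∑ m ∈ piAntidiag (univ : Finset (Fin q)) d, w m := by
    have hmaps : ∀ x ∈ Pd d ×ˢ (univ : Finset (Equiv.Perm (Fin q))),
        ez q x.1 ∘ x.2 ∈ piAntidiag (univ : Finset (Fin q)) d := by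
      intro x hx
      rw [mem_product] at hx
      rw [mem_piAntidiag]
      refine ⟨?_, fun i _ => mem_univ i⟩
      have h1 : ∑ i, ez q x.1 (x.2 i) = ∑ i, ez q x.1 i := Equiv.sum_comp x.2 (ez q x.1)
      simp only [Function.comp_apply]
      rw [h1, sum_ez hq, (mem_Pd.1 hx.1).2]
    rw [← Finset.sum_fiberwise_of_maps_to hmaps]
    refine Finset.sum_congr rfl fun m hm => ?_
    rw [mem_piAntidiag] at hm
    obtain ⟨l0, hl0, σ0, h0⟩ := exists_sort hq m hm.1
    have h1 : ∑ x ∈ (Pd d ×ˢ (univ : Finset (Equiv.Perm (Fin q)))).filter (fun x => ez q x.1 ∘ x.2 = m),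
        w (ez q x.1 ∘ x.2) / st (ez q x.1 ∘ x.2) =
        ∑ x ∈ (Pd d ×ˢ (univ : Finset (Equiv.Perm (Fin q)))).filter (fun x => ez q x.1 ∘ x.2 = m),
        w m / st m := by
      refine Finset.sum_congr rfl fun x hx => ?_
      rw [(mem_filter.1 hx).2]
    rw [h1, Finset.sum_const, nsmul_eq_mul]
    have h2 : #((Pd d ×ˢ (univ : Finset (Equiv.Perm (Fin q)))).filter (fun x => ez q x.1 ∘ x.2 = m)) =
        st m := by
      unfold st
      have huniq : ∀ l ∈ Pd d, ∀ σ : Equiv.Perm (Fin q), ez q l ∘ σ = m → l = l0 := by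
        intro l hl σ h
        apply ez_inj hq
        have e1 : ez q l = m ∘ (σ⁻¹ : Equiv.Perm (Fin q)) := by
          rw [← h]; funext i; simp [Function.comp]
        have e2 : ez q l0 = m ∘ (σ0⁻¹ : Equiv.Perm (Fin q)) := by
          rw [← h0]; funext i; simp [Function.comp]
        rw [e1, e2]
        refine Tuple.unique_antitone ?_ ?_
        · rw [← e1]; exact ez_antitone (mem_Pd.1 hl).1
        · rw [← e2]; exact ez_antitone (mem_Pd.1 hl0).1
      refine Finset.card_bij' (fun x _ => σ0⁻¹ * x.2) (fun g _ => (l0, σ0 * g)) ?_ ?_ ?_ ?_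
      · intro x hx
        rw [mem_filter, mem_product] at hx
        have hx1 := huniq x.1 hx.1.1 x.2 hx.2
        rw [mem_filter]
        refine ⟨mem_univ _, ?_⟩
        have h3 := hx.2
        rw [hx1] at h3
        funext i
        have h4 := congrFun h3 i
        have h5 := congrFun h0 (σ0⁻¹ (x.2 i))
        have h6 : σ0 (σ0⁻¹ (x.2 i)) = x.2 i := by simp
        simp only [Function.comp_apply, Equiv.Perm.mul_apply] at h4 h5 ⊢
        rw [← h5, h6, h4]
      · intro g hg
        rw [mem_filter] at hg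
        rw [mem_filter, mem_product]
        refine ⟨⟨hl0, mem_univ _⟩, ?_⟩
        funext i
        have h4 := congrFun hg.2 i
        have h5 := congrFun h0 (g i)
        simp only [Function.comp_apply, Equiv.Perm.mul_apply] at h4 h5 ⊢
        rw [h5, h4]
      · intro x hx
        rw [mem_filter, mem_product] at hx
        have hx1 := huniq x.1 hx.1.1 x.2 hx.2
        refine Prod.ext hx1.symm ?_
        simp
      · intro g _
        simp
    rw [h2]
    have : (st m : ℝ) ≠ 0 := by exact_mod_cast (hstpos m).ne'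
    field_simp
  have hL : Phi d (fun _ : Fin q => (1 : ℝ)) = ∑ m ∈ piAntidiag (univ : Finset (Fin q)) d, w m := by
    unfold Phi
    simp only [one_pow, hw]
  rw [hL, ← hB, hA]
  refine Finset.sum_congr rfl fun l hl => ?_
  have h1 : w (ez q l) = ∏ i, (1 / ((l i).factorial : ℝ) ^ 2) := by
    simp only [hw]
    exact prod_ez hq l (fun n => 1 / (n.factorial : ℝ) ^ 2) (by simp)
  rw [h1, st_ez hq hl]
  push_cast
  ring

end

end Pool.Agent.R246.MomentB
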