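import Mathlib

/-!
# Newton's identities and orthogonality for the moment curve over a finite field
-/

namespace Pool.Agent.R246.MomentC

open Finset MvPolynomial
open scoped ComplexConjugate

noncomputable section

/-- two tuples with the same power sums are rearrangements of each other -/
lemma newton {K : Type*} [Field K] {d : ℕ} (hK : ∀ k : ℕ, 1 ≤ k → k ≤ d → (k : K) ≠ 0)
    (τ τ' : Fin d → K) (h : ∀ k, 1 ≤ k → k ≤ d → ∑ i, τ i ^ k = ∑ i, τ' i ^ k) :
    (univ : Finset (Fin d)).val.map τ = (univ : Finset (Fin d)).val.map τ' := by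
  have hE : ∀ k, k ≤ d → aeval τ (esymm (Fin d) K k) = aeval τ' (esymm (Fin d) K k) := by
    intro k
    induction k using Nat.strong_induction_on with
    | _ k ih =>
      intro hk
      rcases Nat.eq_zero_or_pos k with rfl | hpos
      · simp
      · have h1 := congrArg (aeval τ) (mul_esymm_eq_sum (Fin d) K k)
        have h2 := congrArg (aeval τ') (mul_esymm_eq_sum (Fin d) K k)
        have h3 : aeval τ ((-1 : MvPolynomial (Fin d) K) ^ (k + 1) *
            ∑ a ∈ antidiagonal k with a.1 < k, (-1) ^ a.1 * esymm (Fin d) K a.1 * psum (Fin d) K a.2) =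
            aeval τ' ((-1 : MvPolynomial (Fin d) K) ^ (k + 1) *
            ∑ a ∈ antidiagonal k with a.1 < k, (-1) ^ a.1 * esymm (Fin d) K a.1 * psum (Fin d) K a.2) := by
          simp only [map_mul, map_pow, map_neg, map_one, map_sum]
          congr 1
          refine Finset.sum_congr rfl fun a ha => ?_
          rw [mem_filter, HasAntidiagonal.mem_antidiagonal] at ha
          rw [ih a.1 ha.2 (by omega)]
          congr 1
          have h4 := h a.2 (by omega) (by omega)
          simp only [psum, map_sum, map_pow, aeval_X]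
          exact h4
        rw [h3, ← h2] at h1
        simp only [map_mul, map_natCast] at h1
        exact mul_left_cancel₀ (hK k hpos hk) h1
  have hp : ((((univ : Finset (Fin d)).val.map τ).map fun t => Polynomial.X - Polynomial.C t)).prod =
      ((((univ : Finset (Fin d)).val.map τ').map fun t => Polynomial.X - Polynomial.C t)).prod := by
    rw [Multiset.prod_X_sub_X_eq_sum_esymm, Multiset.prod_X_sub_X_eq_sum_esymm]
    have hc : Multiset.card ((univ : Finset (Fin d)).val.map τ) = d := by simp
    have hc' : Multiset.card ((univ : Finset (Fin d)).val.map τ') = d := by simp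
    rw [hc, hc']
    refine Finset.sum_congr rfl fun j hj => ?_
    rw [mem_range] at hj
    have h1 := hE j (by omega)
    rw [aeval_esymm_eq_multiset_esymm, aeval_esymm_eq_multiset_esymm] at h1
    rw [h1]
  have h1 := congrArg Polynomial.roots hp
  rwa [Polynomial.roots_multiset_prod_X_sub_C, Polynomial.roots_multiset_prod_X_sub_C] at h1

variable {F : Type*} [Field F] [Fintype F] [DecidableEq F]

/-- the point `∑ m_t γ(t)` -/
def vv (d : ℕ) (m : F → ℕ) (i : Fin d) : F := ∑ t, (m t : F) * t ^ ((i : ℕ) + 1)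

lemma exists_tuple {d : ℕ} (m : F → ℕ) (hm : ∑ t, m t = d) : ∃ τ : Fin d → F,
    (∀ t, Multiset.count t ((univ : Finset (Fin d)).val.map τ) = m t) ∧
    ∀ k : ℕ, ∑ i, τ i ^ k = ∑ t, (m t : F) * t ^ k := by
  set M : Multiset F := ∑ t, m t • ({t} : Multiset F) with hM
  have hcount : ∀ t, Multiset.count t M = m t := by
    intro t
    rw [hM, Multiset.count_sum']
    simp only [Multiset.count_nsmul, Multiset.count_singleton]
    simp
  have hcard : Multiset.card M = d := by
    rw [hM, Multiset.card_sum]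
    simp [hm]
  obtain ⟨L, hL⟩ := Quot.exists_rep M
  have hL' : (L : Multiset F) = M := hL
  have hlen : L.length = d := by rw [← hcard, ← hL', Multiset.coe_card]
  subst hlen
  refine ⟨fun i => L.get i, ?_, ?_⟩
  · intro t
    have : (univ : Finset (Fin L.length)).val.map (fun i => L.get i) = M := by
      rw [Fin.univ_val_map, List.ofFn_get, hL']
    rw [this, hcount]
  · intro k
    have h1 : ∑ i, (fun i => L.get i) i ^ k =
        (((univ : Finset (Fin L.length)).val.map (fun i => L.get i)).map (fun x => x ^ k)).sum := by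
      rw [Multiset.map_map]; rfl
    have h2 : (univ : Finset (Fin L.length)).val.map (fun i => L.get i) = M := by
      rw [Fin.univ_val_map, List.ofFn_get, hL']
    rw [h1, h2, Finset.sum_multiset_map_count]
    have h3 : ∑ t ∈ M.toFinset, Multiset.count t M • t ^ k = ∑ t, Multiset.count t M • t ^ k := by
      refine Finset.sum_subset (subset_univ _) fun t _ ht => ?_
      rw [Multiset.mem_toFinset] at ht
      rw [Multiset.count_eq_zero_of_notMem ht, zero_smul]
    rw [h3]
    refine Finset.sum_congr rfl fun t _ => ?_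
    rw [hcount, nsmul_eq_mul]

lemma vv_inj {d : ℕ} (hK : ∀ k : ℕ, 1 ≤ k → k ≤ d → (k : F) ≠ 0) {m m' : F → ℕ}
    (hm : ∑ t, m t = d) (hm' : ∑ t, m' t = d) (h : vv d m = vv d m') : m = m' := by
  obtain ⟨τ, h1, h2⟩ := exists_tuple m hm
  obtain ⟨τ', h1', h2'⟩ := exists_tuple m' hm'
  have h3 := newton hK τ τ' (by
    intro k hk1 hk2
    rw [h2, h2']
    have h4 := congrFun h ⟨k - 1, by omega⟩
    unfold vv at h4
    simp only [Nat.sub_add_cancel hk1] at h4
    exact h4)
  funext t
  rw [← h1, ← h1', h3]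

/-- orthogonality -/
lemma ortho (ψ : AddChar F ℂ) (hψ : ψ ≠ 1) {d : ℕ} {w : Fin d → F} (hw : w ≠ 0) :
    ∑ x : Fin d → F, ψ (∑ i, x i * w i) = 0 := by
  set Ψ : AddChar (Fin d → F) ℂ :=
    { toFun := fun x => ψ (∑ i, x i * w i)
      map_zero_eq_one' := by simp
      map_add_eq_mul' := by
        intro x y
        rw [← AddChar.map_add_eq_mul]
        congr 1
        rw [← Finset.sum_add_distrib]
        refine Finset.sum_congr rfl fun i _ => ?_
        rw [Pi.add_apply]; ring } with hΨ
  have hne : Ψ ≠ 1 := by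
    obtain ⟨y, hy⟩ := (AddChar.ne_one_iff).1 hψ
    obtain ⟨i, hi⟩ := Function.ne_iff.1 hw
    rw [Pi.zero_apply] at hi
    rw [AddChar.ne_one_iff]
    refine ⟨Pi.single i (y / w i), ?_⟩
    have : Ψ (Pi.single i (y / w i)) = ψ y := by
      change ψ (∑ j, (Pi.single i (y / w i) : Fin d → F) j * w j) = ψ y
      congr 1
      rw [Finset.sum_eq_single i]
      · rw [Pi.single_eq_same]; field_simp
      · intro j _ hj
        rw [Pi.single_eq_of_ne hj, zero_mul]
      · intro h; exact absurd (mem_univ i) h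
    rw [this]; exact hy
  exact AddChar.sum_eq_zero_of_ne_one hne

/-- Parseval -/
lemma parseval (ψ : AddChar F ℂ) (hψ : ψ ≠ 1) {d : ℕ} {A : Type*} [DecidableEq A] (T : Finset A)
    (c : A → ℂ) (v : A → Fin d → F) (hv : ∀ a ∈ T, ∀ b ∈ T, v a = v b → a = b) :
    ∑ x : Fin d → F, ‖∑ a ∈ T, c a * ψ (∑ i, x i * v a i)‖ ^ 2 =
      (Fintype.card F : ℝ) ^ d * ∑ a ∈ T, ‖c a‖ ^ 2 := by
  have hC : ((∑ x : Fin d → F, ‖∑ a ∈ T, c a * ψ (∑ i, x i * v a i)‖ ^ 2 : ℝ) : ℂ) =
      (((Fintype.card F : ℝ) ^ d * ∑ a ∈ T, ‖c a‖ ^ 2 : ℝ) : ℂ) := by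
    push_cast
    have h1 : ∀ x : Fin d → F, ((‖∑ a ∈ T, c a * ψ (∑ i, x i * v a i)‖ : ℝ) : ℂ) ^ 2 =
        ∑ a ∈ T, ∑ b ∈ T, c a * conj (c b) * ψ (∑ i, x i * (v a - v b) i) := by
      intro x
      rw [← Complex.mul_conj', map_sum, Finset.sum_mul_sum]
      refine Finset.sum_congr rfl fun a _ => Finset.sum_congr rfl fun b _ => ?_
      rw [map_mul, ← AddChar.map_neg_eq_conj]
      have h2 : (∑ i, x i * (v a - v b) i) = (∑ i, x i * v a i) + -(∑ i, x i * v b i) := by
        rw [← Finset.sum_neg_distrib, ← Finset.sum_add_distrib]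
        refine Finset.sum_congr rfl fun i _ => ?_
        rw [Pi.sub_apply]; ring
      rw [h2, AddChar.map_add_eq_mul]
      ring
    simp_rw [h1]
    rw [Finset.sum_comm, Finset.mul_sum]
    refine Finset.sum_congr rfl fun a ha => ?_
    rw [Finset.sum_comm, Finset.sum_eq_single_of_mem a ha]
    · rw [sub_self]
      simp only [Pi.zero_apply, mul_zero, Finset.sum_const_zero, AddChar.map_zero_eq_one, mul_one]
      rw [Finset.sum_const, card_univ, Fintype.card_fun, Fintype.card_fin, nsmul_eq_mul,
        Complex.mul_conj']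
      push_cast
      ring
    · intro b hb hab
      rw [← Finset.mul_sum, ortho ψ hψ, mul_zero]
      intro h
      exact hab (hv a ha b hb (sub_eq_zero.1 h)).symm
  exact_mod_cast hC

end

end Pool.Agent.R246.MomentC
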