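import Mathlib
import Pool.Agent.H153R4.Pl

/-! Phases depending on ternary digits. -/

namespace Pool.Agent.R246.Pauli

open MeasureTheory FourierTransform Filter Topology Set

noncomputable section

/-- amplitude of the phase attached to the digit number `k` -/
def th (k : ℕ) : ℝ := (1 / 2) ^ (k + 1)

lemma th_pos (k : ℕ) : 0 < th k := by unfold th; positivity

lemma th_summable : Summable th := by
  have : th = fun k => (1 / 2 : ℝ) ^ k * (1 / 2) := by
    funext k; unfold th; rw [pow_succ]
  rw [this]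
  exact (summable_geometric_of_lt_one (by norm_num) (by norm_num)).mul_right _

/-- the integer whose residue modulo 3 is the digit number `k` of `x` -/
def N (k : ℕ) (x : ℝ) : ℤ := ⌊(3 : ℝ) ^ (k + 1) * x⌋

open Classical in
/-- phase contribution of the digit number `k` -/
def c (k : ℕ) (x : ℝ) : ℝ := if N k x % 3 = 1 then th k else 0

/-- sign -/
def sg (b : Bool) : ℝ := if b then -1 else 1

def ph (b : ℕ → Bool) (x : ℝ) : ℝ := ∑' k, sg (b k) * c k x

open Classical in
/-- the function attached to the flip pattern `b` -/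
def F (b : ℕ → Bool) (x : ℝ) : ℂ :=
  if x ∈ Ico (0 : ℝ) 1 then Complex.exp ((ph b x : ℂ) * Complex.I) else 0

lemma c_nonneg (k : ℕ) (x : ℝ) : 0 ≤ c k x := by
  unfold c; split_ifs
  · exact (th_pos k).le
  · exact le_rfl

lemma c_le (k : ℕ) (x : ℝ) : c k x ≤ th k := by
  unfold c; split_ifs
  · exact le_rfl
  · exact (th_pos k).le

lemma abs_sg (b : Bool) : |sg b| = 1 := by cases b <;> simp [sg]

lemma term_bound (b : ℕ → Bool) (k : ℕ) (x : ℝ) : ‖sg (b k) * c k x‖ ≤ th k := by
  rw [norm_mul, Real.norm_eq_abs, Real.norm_eq_abs, abs_sg, one_mul, abs_of_nonneg (c_nonneg k x)]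
  exact c_le k x

lemma term_summable (b : ℕ → Bool) (x : ℝ) : Summable fun k => sg (b k) * c k x :=
  Summable.of_norm_bounded th_summable fun k => term_bound b k x

lemma c_meas (k : ℕ) : Measurable (c k) := by
  unfold c N
  refine Measurable.ite ?_ measurable_const measurable_const
  have : Measurable fun x : ℝ => ⌊(3 : ℝ) ^ (k + 1) * x⌋ % 3 := by
    have h1 : Measurable fun x : ℝ => ⌊(3 : ℝ) ^ (k + 1) * x⌋ :=
      Int.measurable_floor.comp (measurable_const.mul measurable_id)
    exact (measurable_of_countable (fun n : ℤ => n % 3)).comp h1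
  exact this (measurableSet_singleton 1)

lemma ph_meas (b : ℕ → Bool) : Measurable (ph b) := by
  have h : ∀ n : ℕ, Measurable fun x => ∑ k ∈ Finset.range n, sg (b k) * c k x := fun n =>
    Finset.measurable_sum _ fun k _ => measurable_const.mul (c_meas k)
  refine measurable_of_tendsto_metrizable h ?_
  rw [tendsto_pi_nhds]
  intro x
  exact (term_summable b x).hasSum.tendsto_sum_nat

lemma F_meas (b : ℕ → Bool) : Measurable (F b) := by
  unfold F
  refine Measurable.ite measurableSet_Ico ?_ measurable_const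
  exact Complex.measurable_exp.comp ((Complex.measurable_ofReal.comp (ph_meas b)).mul_const _)

lemma F_norm (b : ℕ → Bool) (x : ℝ) : ‖F b x‖ = (Ico (0 : ℝ) 1).indicator (fun _ => (1 : ℝ)) x := by
  unfold F
  by_cases h : x ∈ Ico (0 : ℝ) 1
  · rw [if_pos h, Complex.norm_exp_ofReal_mul_I, indicator_of_mem h]
  · rw [if_neg h, norm_zero, indicator_of_notMem h]

lemma F_norm_le (b : ℕ → Bool) (x : ℝ) : ‖F b x‖ ≤ 1 := by
  rw [F_norm]; by_cases h : x ∈ Ico (0 : ℝ) 1
  · rw [indicator_of_mem h]
  · rw [indicator_of_notMem h]; norm_num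

lemma ind_int : Integrable ((Ico (0 : ℝ) 1).indicator (fun _ => (1 : ℝ))) :=
  (integrable_indicator_iff measurableSet_Ico).2 (integrableOn_const (by simp))

lemma F_int (b : ℕ → Bool) : Integrable (F b) :=
  ind_int.mono' (F_meas b).aestronglyMeasurable (Eventually.of_forall fun x => (F_norm b x).le)

lemma F_memLp (b : ℕ → Bool) : MemLp (F b) 2 := by
  have : MemLp ((Ico (0 : ℝ) 1).indicator (fun _ => (1 : ℝ))) 2 volume :=
    memLp_indicator_const 2 measurableSet_Ico 1 (Or.inr (by simp))
  exact this.mono (F_meas b).aestronglyMeasurable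
    (Eventually.of_forall fun x => by
      rw [F_norm]
      exact le_abs_self _)

lemma ph_sub (b b' : ℕ → Bool) (x : ℝ) :
    |ph b x - ph b' x| ≤ ∑' k, (if b k = b' k then 0 else 2 * th k) := by
  have hs : Summable fun k => (if b k = b' k then 0 else 2 * th k : ℝ) := by
    refine Summable.of_nonneg_of_le (fun k => ?_) (fun k => ?_) (th_summable.mul_left 2)
    · split_ifs; exacts [le_rfl, by have := th_pos k; positivity]
    · split_ifs; exacts [by have := th_pos k; positivity, le_rfl]
  unfold ph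
  rw [← Summable.tsum_sub (term_summable b x) (term_summable b' x), ← Real.norm_eq_abs]
  refine tsum_of_norm_bounded hs.hasSum fun k => ?_
  split_ifs with h
  · rw [h, sub_self, norm_zero]
  · rw [← sub_mul, norm_mul]
    have h1 : ‖sg (b k) - sg (b' k)‖ ≤ 2 := by
      refine (norm_sub_le _ _).trans ?_
      rw [Real.norm_eq_abs, Real.norm_eq_abs, abs_sg, abs_sg]; norm_num
    have h2 : ‖c k x‖ ≤ th k := by
      rw [Real.norm_eq_abs, abs_of_nonneg (c_nonneg k x)]; exact c_le k x
    exact mul_le_mul h1 h2 (norm_nonneg _) (by norm_num)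

lemma exp_sub_le (u v : ℝ) :
    ‖Complex.exp ((u : ℂ) * Complex.I) - Complex.exp ((v : ℂ) * Complex.I)‖ ≤ |u - v| := by
  have h := Real.norm_exp_I_mul_ofReal_sub_one_le (x := u - v)
  have e : Complex.exp ((u : ℂ) * Complex.I) - Complex.exp ((v : ℂ) * Complex.I) =
      Complex.exp ((v : ℂ) * Complex.I) * (Complex.exp (Complex.I * ((u - v : ℝ) : ℂ)) - 1) := by
    rw [mul_sub, ← Complex.exp_add, mul_one]
    congr 2
    push_cast; ring
  rw [e, norm_mul, Complex.norm_exp_ofReal_mul_I, one_mul]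
  simpa using h

/-- distance of two patterns -/
def dd (b b' : ℕ → Bool) : ℝ := ∑' k, (if b k = b' k then 0 else 2 * th k)

lemma dd_nonneg (b b' : ℕ → Bool) : 0 ≤ dd b b' := by
  unfold dd
  refine tsum_nonneg fun k => ?_
  split_ifs; exacts [le_rfl, by have := th_pos k; positivity]

lemma F_sub (b b' : ℕ → Bool) (x : ℝ) :
    ‖F b x - F b' x‖ ≤ (Ico (0 : ℝ) 1).indicator (fun _ => dd b b') x := by
  unfold F
  by_cases h : x ∈ Ico (0 : ℝ) 1
  · rw [if_pos h, if_pos h, indicator_of_mem h]
    exact (exp_sub_le _ _).trans (ph_sub b b' x)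
  · rw [if_neg h, if_neg h, indicator_of_notMem h]; simp

/-! ### digits -/

lemma N_sub (k : ℕ) (x : ℝ) (m : ℤ) : N k (x - m * ((3 : ℝ) ^ (k + 1))⁻¹) = N k x - m := by
  unfold N
  have h0 : (3 : ℝ) ^ (k + 1) ≠ 0 := by positivity
  have : (3 : ℝ) ^ (k + 1) * (x - m * ((3 : ℝ) ^ (k + 1))⁻¹) = (3 : ℝ) ^ (k + 1) * x - m := by
    field_simp
  rw [this, Int.floor_sub_intCast]

lemma N_div (j r : ℕ) (x : ℝ) : N j x = N (j + r) x / 3 ^ r := by
  unfold N
  have h : (3 : ℝ) ^ (j + 1) * x = ((3 : ℝ) ^ (j + r + 1) * x) / ((3 ^ r : ℕ) : ℝ) := by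
    push_cast
    have : (3 : ℝ) ^ (j + r + 1) = 3 ^ (j + 1) * 3 ^ r := by rw [← pow_add]; congr 1; omega
    rw [this]; field_simp
  rw [h, Int.floor_div_natCast]
  simp

/-- shifting back one or two units of the digit number `k` does not change the other digits if the
digit is large enough -/
lemma digit_shift (k j : ℕ) (hj : j ≠ k) (x : ℝ) (m : ℤ) (h1 : 0 ≤ m) (h2 : m ≤ N k x % 3) :
    N j (x - m * ((3 : ℝ) ^ (k + 1))⁻¹) % 3 = N j x % 3 := by
  rcases lt_or_gt_of_ne hj with h | h
  · obtain ⟨r, rfl⟩ : ∃ r, k = j + (r + 1) := ⟨k - j - 1, by omega⟩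
    have e1 := N_div j (r + 1) x
    have e2 := N_div j (r + 1) (x - m * ((3 : ℝ) ^ (j + (r + 1) + 1))⁻¹)
    rw [N_sub] at e2
    rw [e1, e2]
    congr 1
    have e3 : (3 : ℤ) ^ (r + 1) = 3 * 3 ^ r := by rw [pow_succ]; ring
    rw [e3, ← Int.ediv_ediv_of_nonneg (by norm_num), ← Int.ediv_ediv_of_nonneg (by norm_num)]
    congr 1
    omega
  · obtain ⟨r, rfl⟩ : ∃ r, j = k + (r + 1) := ⟨j - k - 1, by omega⟩
    have e : x - m * ((3 : ℝ) ^ (k + 1))⁻¹ =
        x - ((m * 3 ^ (r + 1) : ℤ) : ℝ) * ((3 : ℝ) ^ (k + (r + 1) + 1))⁻¹ := by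
      have : (3 : ℝ) ^ (k + (r + 1) + 1) = 3 ^ (k + 1) * 3 ^ (r + 1) := by
        rw [← pow_add]; congr 1; omega
      rw [this]
      push_cast
      field_simp
    rw [e, N_sub]
    have : m * 3 ^ (r + 1) = 3 * (m * 3 ^ r) := by rw [pow_succ]; ring
    rw [this]
    omega

/-- the step of the digit number `k` -/
def st (k : ℕ) : ℝ := ((3 : ℝ) ^ (k + 1))⁻¹

lemma st_pos (k : ℕ) : 0 < st k := by unfold st; positivity

open Classical in
/-- the part of `F b` where the digit number `k` is zero -/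
def V (k : ℕ) (b : ℕ → Bool) (x : ℝ) : ℂ := if N k x % 3 = 0 then F b x else 0

lemma N_nonneg {k : ℕ} {x : ℝ} (h : 0 ≤ x) : 0 ≤ N k x := by
  unfold N; exact Int.floor_nonneg.2 (by positivity)

lemma N_sub' (k : ℕ) (x : ℝ) (m : ℤ) : N k (x - m * st k) = N k x - m := N_sub k x m

lemma sub_nonneg_of {k : ℕ} {x : ℝ} {m : ℤ} (h : m ≤ N k x) : 0 ≤ x - m * st k := by
  have h1 : (m : ℝ) ≤ (3 : ℝ) ^ (k + 1) * x := by
    have := Int.floor_le ((3 : ℝ) ^ (k + 1) * x)
    have h2 : (m : ℝ) ≤ (N k x : ℝ) := by exact_mod_cast h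
    exact h2.trans this
  have h3 : (m : ℝ) * st k ≤ x := by
    unfold st
    rw [← div_eq_mul_inv, div_le_iff₀ (by positivity)]
    linarith
  linarith

lemma N_one (k : ℕ) {x : ℝ} (h : 1 ≤ x) : 3 ^ (k + 1) ≤ N k x := by
  unfold N
  rw [Int.le_floor]
  push_cast
  have : (0 : ℝ) < 3 ^ (k + 1) := by positivity
  nlinarith

lemma N_lt (k : ℕ) {x : ℝ} {m : ℤ} (h : x - m * st k < 1) : N k x < 3 ^ (k + 1) + m := by
  unfold N
  rw [Int.floor_lt]
  push_cast
  have h1 : (0 : ℝ) < 3 ^ (k + 1) := by positivity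
  have h2 : (3 : ℝ) ^ (k + 1) * (x - m * st k) < 3 ^ (k + 1) * 1 := by
    exact mul_lt_mul_of_pos_left h h1
  have h3 : (3 : ℝ) ^ (k + 1) * (x - m * st k) = (3 : ℝ) ^ (k + 1) * x - m := by
    unfold st; field_simp
  linarith

lemma ph_shift (b : ℕ → Bool) (k : ℕ) (x : ℝ) (m : ℤ) (h1 : 0 ≤ m) (h2 : m ≤ N k x % 3) :
    ph b x = ph b (x - m * st k) + sg (b k) * (c k x - c k (x - m * st k)) := by
  unfold ph
  have hd : ∑' j, sg (b j) * c j x - ∑' j, sg (b j) * c j (x - m * st k) =
      sg (b k) * (c k x - c k (x - m * st k)) := by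
    rw [← Summable.tsum_sub (term_summable b x) (term_summable b _)]
    rw [tsum_eq_single k]
    · ring
    · intro j hj
      have : c j (x - m * st k) = c j x := by
        unfold c
        rw [show x - (m : ℝ) * st k = x - m * ((3 : ℝ) ^ (k + 1))⁻¹ from rfl,
          digit_shift k j hj x m h1 h2]
      rw [this, sub_self]
  linarith

lemma decomp (b : ℕ → Bool) (k : ℕ) (x : ℝ) :
    F b x = V k b x + Complex.exp (((sg (b k) * th k : ℝ) : ℂ) * Complex.I) * V k b (x - st k)
      + V k b (x - 2 * st k) := by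
  have hr : N k x % 3 = 0 ∨ N k x % 3 = 1 ∨ N k x % 3 = 2 := by omega
  have hst := st_pos k
  have e1 : x - st k = x - ((1 : ℤ) : ℝ) * st k := by push_cast; ring
  have e2 : x - 2 * st k = x - ((2 : ℤ) : ℝ) * st k := by push_cast; ring
  have n1 : N k (x - st k) = N k x - 1 := by rw [e1, N_sub']
  have n2 : N k (x - 2 * st k) = N k x - 2 := by rw [e2, N_sub']
  by_cases hx : x ∈ Ico (0 : ℝ) 1
  · have hN := N_nonneg (k := k) hx.1
    rcases hr with h | h | h
    · have a1 : V k b x = F b x := by unfold V; rw [if_pos h]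
      have a2 : V k b (x - st k) = 0 := by unfold V; rw [if_neg]; rw [n1]; omega
      have a3 : V k b (x - 2 * st k) = 0 := by unfold V; rw [if_neg]; rw [n2]; omega
      rw [a1, a2, a3]; ring
    · have a1 : V k b x = 0 := by unfold V; rw [if_neg]; omega
      have a3 : V k b (x - 2 * st k) = 0 := by unfold V; rw [if_neg]; rw [n2]; omega
      have a2 : V k b (x - st k) = F b (x - st k) := by unfold V; rw [if_pos]; rw [n1]; omega
      have hmem : x - st k ∈ Ico (0 : ℝ) 1 := by
        refine ⟨?_, by linarith [hx.2]⟩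
        rw [e1]; exact sub_nonneg_of (by omega)
      have hph := ph_shift b k x 1 (by norm_num) (by omega)
      rw [← e1] at hph
      have c1 : c k x = th k := by unfold c; rw [if_pos h]
      have c2 : c k (x - st k) = 0 := by unfold c; rw [if_neg]; rw [n1]; omega
      rw [c1, c2, sub_zero] at hph
      rw [a1, a2, a3, F, F, if_pos hx, if_pos hmem, hph, ← Complex.exp_add]
      simp only [zero_add, add_zero]
      congr 1; push_cast; ring
    · have a1 : V k b x = 0 := by unfold V; rw [if_neg]; omega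
      have a2 : V k b (x - st k) = 0 := by unfold V; rw [if_neg]; rw [n1]; omega
      have a3 : V k b (x - 2 * st k) = F b (x - 2 * st k) := by
        unfold V; rw [if_pos]; rw [n2]; omega
      have hmem : x - 2 * st k ∈ Ico (0 : ℝ) 1 := by
        refine ⟨?_, by linarith [hx.2]⟩
        rw [e2]; exact sub_nonneg_of (by omega)
      have hph := ph_shift b k x 2 (by norm_num) (by omega)
      rw [← e2] at hph
      have c1 : c k x = 0 := by unfold c; rw [if_neg]; omega
      have c2 : c k (x - 2 * st k) = 0 := by unfold c; rw [if_neg]; rw [n2]; omega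
      rw [c1, c2, sub_zero, mul_zero, add_zero] at hph
      rw [a1, a2, a3, F, F, if_pos hx, if_pos hmem, hph]
      simp
  · have hF : F b x = 0 := by unfold F; rw [if_neg hx]
    have a1 : V k b x = 0 := by unfold V; rw [hF]; simp
    have h3 : (3 : ℤ) ∣ 3 ^ (k + 1) := ⟨3 ^ k, by rw [pow_succ]; ring⟩
    have key : ∀ m : ℤ, (m = 1 ∨ m = 2) → V k b (x - m * st k) = 0 := by
      intro m hm
      unfold V
      by_cases hmem : x - m * st k ∈ Ico (0 : ℝ) 1
      · rw [if_neg]
        rw [N_sub']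
        have hx1 : 1 ≤ x := by
          by_contra hcon
          push Not at hcon
          apply hx
          refine ⟨?_, hcon⟩
          have : 0 ≤ (m : ℝ) * st k := by
            rcases hm with rfl | rfl <;> positivity
          linarith [hmem.1]
        have l1 := N_one k hx1
        have l2 := N_lt k hmem.2
        rcases hm with rfl | rfl <;> omega
      · have : F b (x - m * st k) = 0 := by unfold F; rw [if_neg hmem]
        rw [this]; simp
    rw [hF, a1, e1, e2, key 1 (Or.inl rfl), key 2 (Or.inr rfl)]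
    simp

lemma V_meas (k : ℕ) (b : ℕ → Bool) : Measurable (V k b) := by
  unfold V
  refine Measurable.ite ?_ (F_meas b) measurable_const
  have h1 : Measurable fun x : ℝ => N k x :=
    Int.measurable_floor.comp (measurable_const.mul measurable_id)
  have : Measurable fun x : ℝ => N k x % 3 :=
    (measurable_of_countable (fun n : ℤ => n % 3)).comp h1
  exact this (measurableSet_singleton 0)

lemma V_int (k : ℕ) (b : ℕ → Bool) : Integrable (V k b) := by
  refine (F_int b).mono (V_meas k b).aestronglyMeasurable (Eventually.of_forall fun x => ?_)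
  unfold V; split_ifs
  · exact le_rfl
  · simp

lemma fourier_shift (f : ℝ → ℂ) (a ξ : ℝ) :
    𝓕 (fun x => f (x - a)) ξ = Complex.exp (((-2 * Real.pi * a * ξ : ℝ) : ℂ) * Complex.I) * 𝓕 f ξ := by
  rw [Real.fourier_real_eq_integral_exp_smul, Real.fourier_real_eq_integral_exp_smul,
    ← integral_const_mul]
  have h := integral_sub_right_eq_self (μ := (volume : Measure ℝ)) (fun v : ℝ =>
    Complex.exp (((-2 * Real.pi * a * ξ : ℝ) : ℂ) * Complex.I) *
      (Complex.exp (((-2 * Real.pi * v * ξ : ℝ) : ℂ) * Complex.I) • f v)) a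
  rw [← h]
  congr 1
  funext x
  simp only [smul_eq_mul]
  rw [← mul_assoc, ← Complex.exp_add]
  congr 2
  push_cast; ring

lemma fourier_F (b : ℕ → Bool) (k : ℕ) (ξ : ℝ) :
    𝓕 (F b) ξ = Complex.exp (((-2 * Real.pi * st k * ξ : ℝ) : ℂ) * Complex.I) *
      (Complex.exp (((sg (b k) * th k : ℝ) : ℂ) * Complex.I) +
        ((2 * Real.cos (2 * Real.pi * st k * ξ) : ℝ) : ℂ)) * 𝓕 (V k b) ξ := by
  have h1 : F b = fun x => V k b x + (Complex.exp (((sg (b k) * th k : ℝ) : ℂ) * Complex.I) *
      V k b (x - st k) + V k b (x - 2 * st k)) := by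
    funext x; rw [decomp b k x]; ring
  have i1 := V_int k b
  have i2 : Integrable fun x => Complex.exp (((sg (b k) * th k : ℝ) : ℂ) * Complex.I) *
      V k b (x - st k) := (i1.comp_sub_right (st k)).const_mul _
  have i3 : Integrable fun x => V k b (x - 2 * st k) := i1.comp_sub_right (2 * st k)
  have h2 : 𝓕 (F b) ξ = 𝓕 (V k b) ξ + (Complex.exp (((sg (b k) * th k : ℝ) : ℂ) * Complex.I) *
      𝓕 (fun x => V k b (x - st k)) ξ + 𝓕 (fun x => V k b (x - 2 * st k)) ξ) := by
    rw [h1]
    simp only [Real.fourier_real_eq_integral_exp_smul, smul_eq_mul, mul_add]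
    have j1 := (Real.fourierIntegral_convergent_iff (f := V k b) ξ).2 i1
    have j2 := (Real.fourierIntegral_convergent_iff (f := fun x =>
      Complex.exp (((sg (b k) * th k : ℝ) : ℂ) * Complex.I) * V k b (x - st k)) ξ).2 i2
    have j3 := (Real.fourierIntegral_convergent_iff (f := fun x => V k b (x - 2 * st k)) ξ).2 i3
    have conv : ∀ g : ℝ → ℂ, (fun v : ℝ => Real.fourierChar (-inner ℝ v ξ) • g v) =
        fun v : ℝ => Complex.exp (((-2 * Real.pi * v * ξ : ℝ) : ℂ) * Complex.I) * g v := by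
      intro g; funext v
      rw [Circle.smul_def, Real.fourierChar_apply]
      simp only [smul_eq_mul, RCLike.inner_apply, conj_trivial]
      congr 2; push_cast; ring
    rw [conv] at j1 j2 j3
    have j23 : Integrable (fun v : ℝ => Complex.exp (((-2 * Real.pi * v * ξ : ℝ) : ℂ) * Complex.I) *
        (Complex.exp (((sg (b k) * th k : ℝ) : ℂ) * Complex.I) * V k b (v - st k)) +
        Complex.exp (((-2 * Real.pi * v * ξ : ℝ) : ℂ) * Complex.I) * V k b (v - 2 * st k)) :=
      j2.add j3
    rw [integral_add j1 j23, integral_add j2 j3, ← integral_const_mul]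
    congr 3
    funext x
    ring
  rw [h2, fourier_shift, fourier_shift]
  have e2 : Complex.exp (((-2 * Real.pi * (2 * st k) * ξ : ℝ) : ℂ) * Complex.I) =
      Complex.exp (((-2 * Real.pi * st k * ξ : ℝ) : ℂ) * Complex.I) *
      Complex.exp (((-2 * Real.pi * st k * ξ : ℝ) : ℂ) * Complex.I) := by
    rw [← Complex.exp_add]; congr 1; push_cast; ring
  have e3 : Complex.exp (((-2 * Real.pi * st k * ξ : ℝ) : ℂ) * Complex.I) *
      ((2 * Real.cos (2 * Real.pi * st k * ξ) : ℝ) : ℂ) =
      1 + Complex.exp (((-2 * Real.pi * st k * ξ : ℝ) : ℂ) * Complex.I) *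
      Complex.exp (((-2 * Real.pi * st k * ξ : ℝ) : ℂ) * Complex.I) := by
    have : ((2 * Real.cos (2 * Real.pi * st k * ξ) : ℝ) : ℂ) =
        Complex.exp (((2 * Real.pi * st k * ξ : ℝ) : ℂ) * Complex.I) +
        Complex.exp (((-2 * Real.pi * st k * ξ : ℝ) : ℂ) * Complex.I) := by
      push_cast
      rw [Complex.cos]
      ring_nf
    rw [this, mul_add, ← Complex.exp_add]
    congr 1
    rw [← Complex.exp_zero]
    congr 1
    push_cast; ring
  rw [e2, mul_add, e3]
  ring

lemma V_eq (k : ℕ) (b b' : ℕ → Bool) (h : ∀ j, j ≠ k → b j = b' j) : V k b = V k b' := by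
  funext x
  unfold V
  split_ifs with hN
  · unfold F
    have : ph b x = ph b' x := by
      unfold ph
      apply tsum_congr
      intro j
      by_cases hj : j = k
      · subst hj
        have : c j x = 0 := by unfold c; rw [if_neg]; omega
        rw [this]; simp
      · rw [h j hj]
    rw [this]
  · rfl

lemma norm_flip_one (k : ℕ) (b b' : ℕ → Bool) (h : ∀ j, j ≠ k → b j = b' j) (ξ : ℝ) :
    ‖𝓕 (F b) ξ‖ = ‖𝓕 (F b') ξ‖ := by
  rw [fourier_F b k, fourier_F b' k, V_eq k b b' h]
  simp only [norm_mul]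
  congr 2
  -- the two numbers are equal or conjugate
  by_cases hk : b k = b' k
  · rw [hk]
  · have hs : sg (b' k) = - sg (b k) := by
      cases h1 : b k <;> cases h2 : b' k <;> simp_all [sg]
    have : Complex.exp (((sg (b' k) * th k : ℝ) : ℂ) * Complex.I) +
        ((2 * Real.cos (2 * Real.pi * st k * ξ) : ℝ) : ℂ) =
        (starRingEnd ℂ) (Complex.exp (((sg (b k) * th k : ℝ) : ℂ) * Complex.I) +
        ((2 * Real.cos (2 * Real.pi * st k * ξ) : ℝ) : ℂ)) := by
      rw [map_add, Complex.conj_ofReal, ← Complex.exp_conj, map_mul, Complex.conj_ofReal,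
        Complex.conj_I, hs]
      congr 2; push_cast; ring
    rw [this, Complex.norm_conj]

/-- patterns agreeing with `b'` below `n` and with `b` from `n` on -/
def mix (b b' : ℕ → Bool) (n : ℕ) (k : ℕ) : Bool := if k < n then b' k else b k

lemma norm_mix (b b' : ℕ → Bool) (ξ : ℝ) (n : ℕ) :
    ‖𝓕 (F (mix b b' n)) ξ‖ = ‖𝓕 (F b) ξ‖ := by
  induction n with
  | zero => rfl
  | succ n ih =>
    rw [← ih]
    apply norm_flip_one n
    intro j hj
    unfold mix
    by_cases h : j < n
    · rw [if_pos h, if_pos (by omega)]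
    · rw [if_neg h, if_neg (by omega)]

lemma fourier_sub_le (b b' : ℕ → Bool) (ξ : ℝ) : ‖𝓕 (F b) ξ - 𝓕 (F b') ξ‖ ≤ dd b b' := by
  have j1 := (Real.fourierIntegral_convergent_iff (f := F b) ξ).2 (F_int b)
  have j2 := (Real.fourierIntegral_convergent_iff (f := F b') ξ).2 (F_int b')
  rw [Real.fourier_eq, Real.fourier_eq, ← integral_sub j1 j2]
  have e : ∫ x, (Ico (0 : ℝ) 1).indicator (fun _ => dd b b') x = dd b b' := by
    rw [integral_indicator measurableSet_Ico]; simp
  rw [← e]
  apply norm_integral_le_of_norm_le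
  · exact (integrable_indicator_iff measurableSet_Ico).2 (integrableOn_const (by simp))
  · refine Eventually.of_forall fun x => ?_
    rw [← smul_sub, Circle.norm_smul]
    exact F_sub b b' x

lemma dd_mix (b b' : ℕ → Bool) : Tendsto (fun n => dd (mix b b' n) b') atTop (𝓝 0) := by
  have hs : Summable fun k => 2 * th k := th_summable.mul_left 2
  have h : Tendsto (fun n => ∑' k, 2 * th (k + n)) atTop (𝓝 0) :=
    tendsto_sum_nat_add (fun k => 2 * th k)
  have hle : ∀ n, dd (mix b b' n) b' ≤ ∑' k, 2 * th (k + n) := ?_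
  · exact squeeze_zero (fun n => dd_nonneg _ _) hle h
  intro n
  unfold dd
  have hs' : Summable fun k => (if mix b b' n k = b' k then 0 else 2 * th k : ℝ) := by
    refine Summable.of_nonneg_of_le (fun k => ?_) (fun k => ?_) hs
    · split_ifs; exacts [le_rfl, by have := th_pos k; positivity]
    · split_ifs; exacts [by have := th_pos k; positivity, le_rfl]
  rw [← hs'.sum_add_tsum_nat_add n, Finset.sum_eq_zero, zero_add]
  · have a1 : Summable fun k => (if mix b b' n (k + n) = b' (k + n) then 0 else 2 * th (k + n) : ℝ) :=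
      (summable_nat_add_iff (f := fun k => (if mix b b' n k = b' k then 0 else 2 * th k : ℝ)) n).2 hs'
    have a2 : Summable fun k => 2 * th (k + n) :=
      (summable_nat_add_iff (f := fun k => 2 * th k) n).2 hs
    refine Summable.tsum_le_tsum (fun k => ?_) a1 a2
    show (if mix b b' n (k + n) = b' (k + n) then (0 : ℝ) else 2 * th (k + n)) ≤ 2 * th (k + n)
    have := th_pos (k + n)
    split_ifs
    · positivity
    · exact le_rfl
  · intro k hk
    rw [if_pos]
    unfold mix
    rw [if_pos (Finset.mem_range.1 hk)]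

theorem norm_fourier_eq (b b' : ℕ → Bool) (ξ : ℝ) : ‖𝓕 (F b) ξ‖ = ‖𝓕 (F b') ξ‖ := by
  have h : Tendsto (fun n => 𝓕 (F (mix b b' n)) ξ) atTop (𝓝 (𝓕 (F b') ξ)) := by
    rw [tendsto_iff_norm_sub_tendsto_zero]
    exact squeeze_zero (fun n => norm_nonneg _) (fun n => fourier_sub_le _ _ ξ) (dd_mix b b')
  have h2 := h.norm
  simp only [norm_mix] at h2
  exact tendsto_nhds_unique tendsto_const_nhds h2

end

end Pool.Agent.R246.Pauli
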