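import Mathlib

/-!
# Complex Radon measures

Complex Radon measures on a Euclidean space `E` (continuous linear functionals on `C_c(E)`) are
represented by their polar decomposition `dμ = θ d|μ|`.
-/

namespace Pool.Agent.R246

open MeasureTheory Filter Topology Set FourierTransform
open scoped ENNReal

noncomputable section

/-- A complex Radon measure `dμ = θ d|μ|` in polar form: `absM` is the total variation measure `|μ|`
(a Borel measure which is finite on compact sets), and `phase` is the density `θ` of modulus
one. -/
structure CRadon (E : Type*) [TopologicalSpace E] [MeasurableSpace E] where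
  /-- the total variation measure `|μ|` -/
  absM : Measure E
  /-- the density `θ` of `μ` with respect to `|μ|` -/
  phase : E → ℂ
  finite_on_compacts : IsFiniteMeasureOnCompacts absM
  phase_measurable : Measurable phase
  norm_phase : ∀ x, ‖phase x‖ = 1

variable {E : Type*} [NormedAddCommGroup E] [InnerProductSpace ℝ E] [FiniteDimensional ℝ E]
  [MeasurableSpace E] [BorelSpace E]

namespace CRadon

/-- The integral `μ(f) = ∫ f dμ = ∫ f θ d|μ|` of a function. -/
def integral (μ : CRadon E) (f : E → ℂ) : ℂ := ∫ x, f x * μ.phase x ∂μ.absM

/-- The vague convergence of a sequence of measures: `μₙ(f) → μ(f)` for all `f ∈ C_c(E)`. -/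
def VagueTendsto (ν : ℕ → CRadon E) (μ : CRadon E) : Prop :=
  ∀ f : E → ℂ, Continuous f → HasCompactSupport f →
    Tendsto (fun n => (ν n).integral f) atTop (𝓝 (μ.integral f))

/-- The zero measure. -/
def zero : CRadon E where
  absM := 0
  phase := fun _ => 1
  finite_on_compacts := inferInstance
  phase_measurable := measurable_const
  norm_phase := fun _ => by simp

omit [InnerProductSpace ℝ E] [FiniteDimensional ℝ E] [BorelSpace E] in
@[simp] lemma integral_zero (f : E → ℂ) : (zero : CRadon E).integral f = 0 := by
  simp [integral, zero]

open Classical in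
/-- The measure `u dx` for a continuous function `u`. -/
def ofDensity (u : E → ℂ) (hu : Continuous u) : CRadon E where
  absM := volume.withDensity fun x => ENNReal.ofReal ‖u x‖
  phase := fun x => if u x = 0 then 1 else u x / ‖u x‖
  finite_on_compacts := by
    have : IsLocallyFiniteMeasure ((volume : Measure E).withDensity fun x => ENNReal.ofReal ‖u x‖) :=
      IsLocallyFiniteMeasure.withDensity_ofReal hu.norm
    infer_instance
  phase_measurable := by
    refine Measurable.ite ?_ measurable_const ?_
    · exact hu.measurable (measurableSet_singleton 0)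
    · exact hu.measurable.div (Complex.measurable_ofReal.comp hu.norm.measurable)
  norm_phase := by
    intro x
    split_ifs with h
    · simp
    · rw [norm_div, Complex.norm_real, norm_norm]
      exact div_self (norm_ne_zero_iff.2 h)

lemma absM_ofDensity (u : E → ℂ) (hu : Continuous u) :
    (ofDensity u hu).absM = volume.withDensity fun x => ENNReal.ofReal ‖u x‖ := rfl

lemma norm_mul_phase (u : E → ℂ) (hu : Continuous u) (x : E) :
    (‖u x‖ : ℂ) * (ofDensity u hu).phase x = u x := by
  unfold ofDensity
  simp only
  split_ifs with h
  · rw [h]; simp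
  · have : (‖u x‖ : ℂ) ≠ 0 := by exact_mod_cast norm_ne_zero_iff.2 h
    field_simp

lemma integral_ofDensity (u : E → ℂ) (hu : Continuous u) (f : E → ℂ) :
    (ofDensity u hu).integral f = ∫ x, f x * u x := by
  unfold integral
  rw [absM_ofDensity, integral_withDensity_eq_integral_toReal_smul]
  · congr 1
    funext x
    rw [ENNReal.toReal_ofReal (norm_nonneg _), Complex.real_smul]
    have h := norm_mul_phase u hu x
    linear_combination f x * h
  · exact ENNReal.measurable_ofReal.comp hu.norm.measurable
  · exact Eventually.of_forall fun x => ENNReal.ofReal_lt_top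

lemma integrable_ofDensity_iff (u : E → ℂ) (hu : Continuous u) (f : E → ℂ) :
    Integrable f (ofDensity u hu).absM ↔ Integrable fun x => ((‖u x‖ : ℝ) : ℂ) * f x := by
  rw [absM_ofDensity]
  have h := integrable_withDensity_iff_integrable_smul (μ := (volume : Measure E))
    (f := fun x => ‖u x‖₊) (hu.nnnorm.measurable) (g := f)
  have e : (fun x => ((‖u x‖₊ : NNReal) : ℝ≥0∞)) = fun x => ENNReal.ofReal ‖u x‖ := by
    funext x
    rw [ofReal_norm]; rfl
  rw [← e, h]
  have e2 : (fun x => ‖u x‖₊ • f x) = fun x => ((‖u x‖ : ℝ) : ℂ) * f x := by
    funext x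
    rw [NNReal.smul_def, Complex.real_smul, coe_nnnorm]
  rw [e2]

open Classical in
/-- The measure `∑ a(y) δ_y`, `y` in a finite set. -/
def ofAtoms (S : Finset E) (a : E → ℂ) (ha : Measurable a) : CRadon E where
  absM := ∑ y ∈ S, ENNReal.ofReal ‖a y‖ • Measure.dirac y
  phase := fun x => if a x = 0 then 1 else a x / ‖a x‖
  finite_on_compacts := by
    have : IsFiniteMeasure (∑ y ∈ S, ENNReal.ofReal ‖a y‖ • (Measure.dirac y : Measure E)) := by
      refine ⟨?_⟩
      rw [Measure.finsetSum_apply]
      refine ENNReal.sum_lt_top.2 fun y _ => ?_
      simp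
    infer_instance
  phase_measurable := by
    refine Measurable.ite ?_ measurable_const ?_
    · exact ha (measurableSet_singleton 0)
    · exact ha.div (Complex.measurable_ofReal.comp ha.norm)
  norm_phase := by
    intro x
    split_ifs with h
    · simp
    · rw [norm_div, Complex.norm_real, norm_norm]
      exact div_self (norm_ne_zero_iff.2 h)

lemma integral_ofAtoms (S : Finset E) (a : E → ℂ) (ha : Measurable a) (f : E → ℂ) :
    (ofAtoms S a ha).integral f = ∑ y ∈ S, f y * a y := by
  unfold integral ofAtoms
  simp only
  rw [integral_finsetSum_measure]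
  · refine Finset.sum_congr rfl fun y _ => ?_
    rw [integral_smul_measure, integral_dirac, ENNReal.toReal_ofReal (norm_nonneg _),
      Complex.real_smul]
    split_ifs with h
    · rw [h]; simp
    · have : (‖a y‖ : ℂ) ≠ 0 := by exact_mod_cast norm_ne_zero_iff.2 h
      field_simp
  · intro y _
    refine Integrable.smul_measure ?_ ENNReal.ofReal_ne_top
    exact integrable_dirac (by simp)

lemma integrable_ofAtoms (S : Finset E) (a : E → ℂ) (ha : Measurable a) (f : E → ℂ) :
    Integrable f (ofAtoms S a ha).absM := by
  unfold ofAtoms
  simp only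
  rw [integrable_finsetSum_measure]
  intro y _
  refine Integrable.smul_measure ?_ ENNReal.ofReal_ne_top
  exact integrable_dirac (by simp)

end CRadon

end

end Pool.Agent.R246
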