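import Mathlib
import Pool.Agent.H728R3.SR.B
set_option autoImplicit false

/-! Pointwise domination of the one-dimensional extension of an interval by a positive kernel. -/

namespace Pool.Agent.R246.Rnd
open MeasureTheory Set Complex Filter Topology
open Pool.Agent.H728R3.SR
open scoped ENNReal

lemma fr_pos' (τ a b : ℝ) (hτ : τ ≠ 0) (ha : 0 ≤ a) (hab : a < b) :
    ‖fr τ a b‖ ^ 2 ≤ 16 * ((b - a) * (1 / (Real.sqrt |τ| + |τ| * b))) := by
  have hτ' : 0 < |τ| := abs_pos.2 hτ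
  set θ := Real.sqrt |τ| with hθ
  have hθ0 : 0 < θ := Real.sqrt_pos.2 hτ'
  have hθθ : θ ^ 2 = |τ| := Real.sq_sqrt hτ'.le
  rw [← hθθ]
  have hb : 0 < b := by linarith
  set D := ‖fr τ a b‖ with hD
  have hD0 : 0 ≤ D := norm_nonneg _
  have d1 : D ≤ b - a := fr_le τ a b hab.le
  have d2 : D ≤ 2 * θ⁻¹ := fr_unif τ a b hτ ha hab.le
  have d2' : D * θ ≤ 2 := by
    calc D * θ ≤ 2 * θ⁻¹ * θ := by gcongr
      _ = 2 := by field_simp
  have hpos : 0 < θ + θ ^ 2 * b := by positivity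
  rw [mul_one_div, mul_div_assoc', le_div_iff₀ hpos]
  rcases le_or_gt (θ * b) 1 with h | h
  · have h1 : θ + θ ^ 2 * b ≤ 2 * θ := by nlinarith
    calc D ^ 2 * (θ + θ ^ 2 * b) ≤ D ^ 2 * (2 * θ) := by gcongr
      _ = 2 * (D * θ) * D := by ring
      _ ≤ 2 * 2 * (b - a) := by gcongr
      _ ≤ 16 * (b - a) := by nlinarith
  · have h1 : θ + θ ^ 2 * b ≤ 2 * (θ ^ 2 * b) := by nlinarith
    rcases le_or_gt (b / 2) a with h2 | h2
    · have ha0 : 0 < a := by linarith
      have d3 := fr_ibp τ a b hτ ha0 hab.le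
      rw [← hθθ, ← hD, le_div_iff₀ (by positivity)] at d3
      have d4 : D * (θ ^ 2 * b) ≤ 2 := by
        have : D * (θ ^ 2 * b) ≤ D * (θ ^ 2 * (2 * a)) := by
          gcongr
          linarith
        nlinarith
      calc D ^ 2 * (θ + θ ^ 2 * b) ≤ D ^ 2 * (2 * (θ ^ 2 * b)) := by gcongr
        _ = 2 * (D * (θ ^ 2 * b)) * D := by ring
        _ ≤ 2 * 2 * (b - a) := by gcongr
        _ ≤ 16 * (b - a) := by nlinarith
    · calc D ^ 2 * (θ + θ ^ 2 * b) ≤ D ^ 2 * (2 * (θ ^ 2 * b)) := by gcongr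
        _ = 2 * (D * θ) * (D * θ) * b := by ring
        _ ≤ 2 * 2 * 2 * b := by gcongr
        _ ≤ 16 * (b - a) := by nlinarith

/-- the dominating kernel, one-dimensional -/
noncomputable def kk (τ u : ℝ) : ℝ≥0∞ := ENNReal.ofReal (1 / (Real.sqrt |τ| + |τ| * |u|))

lemma kk_meas (τ : ℝ) : Measurable (kk τ) := by
  unfold kk
  apply Measurable.ennreal_ofReal
  fun_prop

lemma low' (τ a b B : ℝ) (hτ : τ ≠ 0) (hab : a ≤ b)
    (h : ∀ u ∈ Ioo a b, |u| ≤ B) :
    ENNReal.ofReal ((b - a) * (1 / (Real.sqrt |τ| + |τ| * B))) ≤ ∫⁻ u in Ioc a b, kk τ u := by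
  have hτ' : 0 < |τ| := abs_pos.2 hτ
  have hθ0 : 0 < Real.sqrt |τ| := Real.sqrt_pos.2 hτ'
  calc ENNReal.ofReal ((b - a) * (1 / (Real.sqrt |τ| + |τ| * B)))
      = ∫⁻ u in Ioo a b, ENNReal.ofReal (1 / (Real.sqrt |τ| + |τ| * B)) := by
        rw [lintegral_const, Measure.restrict_apply_univ, Real.volume_Ioo, mul_comm (b - a)]
        rcases hab.eq_or_lt with he | hlt
        · rw [he]; simp
        · have h1 := h ((a + b) / 2) ⟨by linarith, by linarith⟩
          have hB : 0 ≤ B := le_trans (abs_nonneg _) h1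
          rw [ENNReal.ofReal_mul (by positivity)]
    _ ≤ ∫⁻ u in Ioo a b, kk τ u := by
        apply setLIntegral_mono' measurableSet_Ioo
        intro u hu
        apply ENNReal.ofReal_le_ofReal
        apply one_div_le_one_div_of_le (by positivity)
        have := h u hu
        gcongr
    _ ≤ _ := lintegral_mono_set Ioo_subset_Ioc_self

lemma fr_dom0' (τ a b : ℝ) (hτ : τ ≠ 0) (h0 : 0 ≤ a ∨ b ≤ 0) (hab : a ≤ b) :
    ‖fr τ a b‖ₑ ^ 2 ≤ 16 * ∫⁻ u in Ioc a b, kk τ u := by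
  have hτ' : 0 < |τ| := abs_pos.2 hτ
  rcases hab.eq_or_lt with he | hlt
  · subst he
    have : fr τ a a = 0 := by simp [fr]
    rw [this]
    simp
  · rw [← ofReal_norm, ← ENNReal.ofReal_pow (norm_nonneg _)]
    rcases h0 with ha | hb
    · refine (ENNReal.ofReal_le_ofReal (fr_pos' τ a b hτ ha hlt)).trans ?_
      rw [ENNReal.ofReal_mul (by norm_num), ENNReal.ofReal_ofNat]
      gcongr
      apply low' τ a b b hτ hab
      intro u hu
      have h1 : 0 < u := by linarith [hu.1]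
      rw [abs_of_pos h1]
      exact hu.2.le
    · rw [← fr_neg]
      refine (ENNReal.ofReal_le_ofReal (fr_pos' τ (-b) (-a) hτ (by linarith) (by linarith))).trans ?_
      rw [ENNReal.ofReal_mul (by norm_num), ENNReal.ofReal_ofNat]
      gcongr
      have h2 := low' τ a b (-a) hτ hab (by
        intro u hu
        have h1 : u < 0 := by linarith [hu.2]
        rw [abs_of_neg h1]
        linarith [hu.1])
      rwa [show -a - -b = b - a by ring]

theorem fr_dom' (τ a b : ℝ) (hτ : τ ≠ 0) (hab : a ≤ b) :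
    ‖fr τ a b‖ₑ ^ 2 ≤ 32 * ∫⁻ u in Ioc a b, kk τ u := by
  have h1632 : (16 : ℝ≥0∞) ≤ 32 := by norm_num
  rcases le_or_gt 0 a with ha | ha
  · exact (fr_dom0' τ a b hτ (Or.inl ha) hab).trans (by gcongr)
  rcases le_or_gt b 0 with hb | hb
  · exact (fr_dom0' τ a b hτ (Or.inr hb) hab).trans (by gcongr)
  rw [← fr_add τ a 0 b]
  have h1 := fr_dom0' τ a 0 hτ (Or.inr le_rfl) ha.le
  have h2 := fr_dom0' τ 0 b hτ (Or.inl le_rfl) hb.le
  have h3 : ‖fr τ a 0 + fr τ 0 b‖ₑ ^ 2 ≤ 2 * (‖fr τ a 0‖ₑ ^ 2 + ‖fr τ 0 b‖ₑ ^ 2) := by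
    rw [← ofReal_norm, ← ofReal_norm, ← ofReal_norm, ← ENNReal.ofReal_pow (norm_nonneg _),
      ← ENNReal.ofReal_pow (norm_nonneg _), ← ENNReal.ofReal_pow (norm_nonneg _),
      ← ENNReal.ofReal_add (by positivity) (by positivity),
      show (2 : ℝ≥0∞) = ENNReal.ofReal 2 by simp, ← ENNReal.ofReal_mul (by norm_num)]
    apply ENNReal.ofReal_le_ofReal
    have := norm_add_le (fr τ a 0) (fr τ 0 b)
    nlinarith [norm_nonneg (fr τ a 0 + fr τ 0 b), norm_nonneg (fr τ a 0), norm_nonneg (fr τ 0 b),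
      sq_nonneg (‖fr τ a 0‖ - ‖fr τ 0 b‖)]
  have h4 : ∫⁻ u in Ioc a b, kk τ u =
      (∫⁻ u in Ioc a 0, kk τ u) + ∫⁻ u in Ioc 0 b, kk τ u := by
    rw [← Ioc_union_Ioc_eq_Ioc ha.le hb.le, lintegral_union measurableSet_Ioc]
    rw [Set.disjoint_left]
    intro x hx hx'
    linarith [hx.2, hx'.1]
  rw [h4]
  calc _ ≤ _ := h3
    _ ≤ 2 * (16 * (∫⁻ u in Ioc a 0, kk τ u) + 16 * ∫⁻ u in Ioc 0 b, kk τ u) := by gcongr
    _ = (2 * 16) * ((∫⁻ u in Ioc a 0, kk τ u) + ∫⁻ u in Ioc 0 b, kk τ u) := by ring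
    _ = _ := by norm_num

/-- translated form: the quadratic phase `x y + t y^2` -/
theorem quad_dom' (x t a b : ℝ) (ht : t ≠ 0) (hab : a ≤ b) :
    ‖∫ y in a..b, cexp (2 * Real.pi * I * ((y * x + y ^ 2 * t : ℝ) : ℂ))‖ₑ ^ 2 ≤
      32 * ∫⁻ y in Ioc a b, kk t (y + x / (2 * t)) := by
  have hpi := Real.pi_pos
  have e1 : ∫ y in a..b, cexp (2 * Real.pi * I * ((y * x + y ^ 2 * t : ℝ) : ℂ)) =
      cexp (((-(2 * Real.pi * (x ^ 2 / (4 * t))) : ℝ) : ℂ) * I) *
        fr (2 * Real.pi * t) (a + x / (2 * t)) (b + x / (2 * t)) := by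
    unfold fr
    rw [← intervalIntegral.integral_comp_add_right, ← intervalIntegral.integral_const_mul]
    apply intervalIntegral.integral_congr
    intro y _
    simp only
    rw [← Complex.exp_add]
    congr 1
    have : y * x + y ^ 2 * t = t * (y + x / (2 * t)) ^ 2 - x ^ 2 / (4 * t) := by
      field_simp
      ring
    rw [this]
    push_cast
    ring
  rw [e1, enorm_mul]
  have e2 : ‖cexp (((-(2 * Real.pi * (x ^ 2 / (4 * t))) : ℝ) : ℂ) * I)‖ₑ = 1 := by
    rw [← ofReal_norm, Complex.norm_exp_ofReal_mul_I, ENNReal.ofReal_one]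
  rw [e2, one_mul]
  refine (fr_dom' (2 * Real.pi * t) (a + x / (2 * t)) (b + x / (2 * t)) (by positivity)
    (by linarith)).trans ?_
  refine mul_le_mul_right ?_ _
  have h := (measurePreserving_add_right (volume : Measure ℝ) (x / (2 * t)))
  have h2 := h.setLIntegral_comp_preimage_emb (MeasurableEquiv.addRight (x / (2 * t))).measurableEmbedding
    (fun u => kk (2 * Real.pi * t) u) (Ioc (a + x / (2 * t)) (b + x / (2 * t)))
  rw [← h2]
  have h3 : (fun y => y + x / (2 * t)) ⁻¹' Ioc (a + x / (2 * t)) (b + x / (2 * t)) = Ioc a b := by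
    simp
  rw [h3]
  apply lintegral_mono
  intro y
  unfold kk
  apply ENNReal.ofReal_le_ofReal
  have ht' : 0 < |t| := abs_pos.2 ht
  have h4 : |t| ≤ |2 * Real.pi * t| := by
    rw [abs_mul, abs_of_pos (show (0 : ℝ) < 2 * Real.pi by positivity)]
    have : 1 ≤ 2 * Real.pi := by linarith [Real.pi_gt_three]
    nlinarith
  have h5 : 0 < Real.sqrt |t| := Real.sqrt_pos.2 ht'
  apply one_div_le_one_div_of_le (by positivity)
  have h6 : Real.sqrt |t| ≤ Real.sqrt |2 * Real.pi * t| := Real.sqrt_le_sqrt h4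
  gcongr

/-- the dominating kernel -/
noncomputable def Rk (t x y : ℝ) : ℝ≥0∞ :=
  if |t| ≤ 1 then ENNReal.ofReal (256 / (1 + |x|)) else 32 * kk t (y + x / (2 * t))

lemma Rk_meas2 (t : ℝ) : Measurable fun p : ℝ × ℝ => Rk t p.1 p.2 := by
  unfold Rk
  split_ifs with h
  · apply Measurable.ennreal_ofReal
    fun_prop
  · apply Measurable.const_mul
    exact (kk_meas t).comp (by fun_prop)

lemma Rk_meas (t x : ℝ) : Measurable (Rk t x) := by
  unfold Rk
  split_ifs with h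
  · exact measurable_const
  · apply Measurable.const_mul
    exact (kk_meas t).comp (by fun_prop)

lemma norm_osc (x t a b : ℝ) (hab : a ≤ b) :
    ‖∫ y in a..b, cexp (2 * Real.pi * I * ((y * x + y ^ 2 * t : ℝ) : ℂ))‖ ≤ b - a := by
  have h1 := intervalIntegral.norm_integral_le_of_norm_le_const (a := a) (b := b) (C := 1)
      (f := fun y : ℝ => cexp (2 * Real.pi * I * ((y * x + y ^ 2 * t : ℝ) : ℂ))) (by
        intro y _
        have : (2 * Real.pi * I * ((y * x + y ^ 2 * t : ℝ) : ℂ)) =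
            ((2 * Real.pi * (y * x + y ^ 2 * t) : ℝ) : ℂ) * I := by
          push_cast
          ring
        rw [this, Complex.norm_exp_ofReal_mul_I])
  rwa [abs_of_nonneg (by linarith), one_mul] at h1

lemma kk_large (x t y : ℝ) (ht : t ≠ 0) (h : |t| ≤ 1) (h4 : 4 ≤ |x|) (hy : |y| ≤ 1) :
    kk t (y + x / (2 * t)) ≤ ENNReal.ofReal (4 / |x|) := by
  unfold kk
  apply ENNReal.ofReal_le_ofReal
  have h2 : |x| / 4 ≤ Real.sqrt |t| + |t| * |y + x / (2 * t)| := by
    have h3 : |t| * |y + x / (2 * t)| = |t * y + x / 2| := by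
      rw [← abs_mul]
      congr 1
      field_simp
    rw [h3]
    have h5 : |x / 2| ≤ |t * y + x / 2| + |t * y| := by
      have := abs_sub (t * y + x / 2) (t * y)
      rwa [add_sub_cancel_left] at this
    have h6 : |t * y| ≤ 1 := by
      rw [abs_mul]
      nlinarith [abs_nonneg t, abs_nonneg y]
    have h7 : |x / 2| = |x| / 2 := by rw [abs_div]; simp
    have h8 := Real.sqrt_nonneg |t|
    linarith
  calc 1 / (Real.sqrt |t| + |t| * |y + x / (2 * t)|) ≤ 1 / (|x| / 4) :=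
        one_div_le_one_div_of_le (by linarith) h2
    _ = 4 / |x| := by field_simp

lemma small_x (x L : ℝ) (z : ℂ) (hL : ‖z‖ ≤ L) (hL2 : L ≤ 2) (h4 : |x| < 4) :
    ‖z‖ₑ ^ 2 ≤ ENNReal.ofReal (256 / (1 + |x|)) * ENNReal.ofReal L := by
  have hD : 0 ≤ ‖z‖ := norm_nonneg _
  rw [← ofReal_norm, ← ENNReal.ofReal_pow hD, ← ENNReal.ofReal_mul (by positivity)]
  apply ENNReal.ofReal_le_ofReal
  have h2 : ‖z‖ ^ 2 ≤ 2 * L := by nlinarith
  have h3 : (2 : ℝ) ≤ 256 / (1 + |x|) := by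
    rw [le_div_iff₀ (by positivity)]
    linarith
  have h5 : 0 ≤ L := by linarith
  calc ‖z‖ ^ 2 ≤ 2 * L := h2
    _ ≤ _ := by gcongr

lemma large_x (x t a b : ℝ) (ht : t ≠ 0) (h : |t| ≤ 1) (ha : -1 ≤ a) (hb : b ≤ 1)
    (h4 : 4 ≤ |x|) :
    32 * ∫⁻ y in Ioc a b, kk t (y + x / (2 * t)) ≤
      ENNReal.ofReal (256 / (1 + |x|)) * ENNReal.ofReal (b - a) := by
  have h1 : ∫⁻ y in Ioc a b, kk t (y + x / (2 * t)) ≤ ∫⁻ y in Ioc a b, ENNReal.ofReal (4 / |x|) := by
    apply setLIntegral_mono' measurableSet_Ioc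
    intro y hy
    exact kk_large x t y ht h h4 (abs_le.2 ⟨by linarith [hy.1], by linarith [hy.2]⟩)
  calc 32 * ∫⁻ y in Ioc a b, kk t (y + x / (2 * t)) ≤
        32 * ∫⁻ y in Ioc a b, ENNReal.ofReal (4 / |x|) := by gcongr
    _ = ENNReal.ofReal (32 * (4 / |x|)) * ENNReal.ofReal (b - a) := by
        rw [lintegral_const, Measure.restrict_apply_univ, Real.volume_Ioc,
          ENNReal.ofReal_mul (by norm_num), ENNReal.ofReal_ofNat]
        ring
    _ ≤ _ := by
        refine mul_le_mul_left (ENNReal.ofReal_le_ofReal ?_) _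
        rw [mul_div_assoc', div_le_div_iff₀ (by linarith) (by linarith)]
        linarith

theorem osc_dom (x t a b : ℝ) (ht : t ≠ 0) (ha : -1 ≤ a) (hab : a ≤ b) (hb : b ≤ 1) :
    ‖∫ y in a..b, cexp (2 * Real.pi * I * ((y * x + y ^ 2 * t : ℝ) : ℂ))‖ₑ ^ 2 ≤
      ∫⁻ y in Ioc a b, Rk t x y := by
  have hq := quad_dom' x t a b ht hab
  have hn := norm_osc x t a b hab
  unfold Rk
  split_ifs with h
  · rw [lintegral_const, Measure.restrict_apply_univ, Real.volume_Ioc]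
    rcases le_or_gt 4 |x| with h4 | h4
    · exact hq.trans (large_x x t a b ht h ha hb h4)
    · exact small_x x (b - a) _ hn (by linarith) h4
  · have hm : Measurable fun y => kk t (y + x / (2 * t)) := (kk_meas t).comp (by fun_prop)
    rw [lintegral_const_mul _ hm]
    exact hq

end Pool.Agent.R246.Rnd
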