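import Mathlib
import Pool.Agent.R246.RndA
import Pool.Agent.H728R3.SR.C
set_option autoImplicit false

/-! The positive operator with kernel `Rk` on `L^r`. -/

namespace Pool.Agent.R246.Rnd
open MeasureTheory Set Complex Filter Topology
open Pool.Agent.H728R3.SR
open scoped ENNReal

/-- Lebesgue measure on `(-1,1]` -/
noncomputable def mu : Measure ℝ := volume.restrict (Ioc (-1) 1)

instance : IsFiniteMeasure mu := by
  unfold mu
  infer_instance

lemma mu_univ : mu univ = 2 := by
  unfold mu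
  rw [Measure.restrict_apply_univ, Real.volume_Ioc]
  norm_num

/-- weights in time -/
noncomputable def ww (α t : ℝ) : ℝ≥0∞ := if |t| ≤ 1 then 1 else ENNReal.ofReal (|t| ^ (-α))

lemma ww_meas (α : ℝ) : Measurable (ww α) := by
  unfold ww
  have h1 : Measurable fun t : ℝ => |t| := measurable_norm
  exact Measurable.ite (measurableSet_le h1 measurable_const) measurable_const
    (h1.pow_const _).ennreal_ofReal

lemma ww_mul (α β : ℝ) (t : ℝ) : ww α t * ww β t = ww (α + β) t := by
  unfold ww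
  split_ifs with h
  · simp
  · push Not at h
    have ht : 0 < |t| := by linarith
    rw [← ENNReal.ofReal_mul (by positivity), ← Real.rpow_add ht]
    congr 2
    ring

lemma ww_rpow (α c : ℝ) (t : ℝ) : ww α t ^ c = ww (α * c) t := by
  unfold ww
  split_ifs with h
  · simp
  · push Not at h
    have ht : 0 < |t| := by linarith
    rw [ENNReal.ofReal_rpow_of_pos (by positivity), ← Real.rpow_mul ht.le]
    congr 2
    ring

lemma ww_pow (α : ℝ) (n : ℕ) (t : ℝ) : ww α t ^ n = ww (n * α) t := by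
  rw [← ENNReal.rpow_natCast, ww_rpow, mul_comm]

lemma ww_ne (α t : ℝ) : ww α t ≠ ⊤ := by
  unfold ww
  split_ifs <;> simp

lemma scal (G : ℝ → ℝ≥0∞) (hG : Measurable G) (d : ℝ) (hd : 0 < d) (c : ℝ) :
    ∫⁻ x, G ((x + c) / d) = ENNReal.ofReal d * ∫⁻ x, G x := by
  have h0 : ∫⁻ x, G ((x + c) / d) = ∫⁻ x, G (x / d) :=
    lintegral_add_right_eq_self (fun x => G (x / d)) c
  rw [h0]
  have h1 := Real.map_volume_mul_left (a := d⁻¹) (by positivity)
  have h2 : ∫⁻ x, G x ∂(Measure.map (fun x => d⁻¹ * x) volume) =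
      ∫⁻ x, G (d⁻¹ * x) := lintegral_map hG (measurable_const_mul _)
  rw [h1, lintegral_smul_measure, smul_eq_mul, inv_inv, abs_of_pos hd] at h2
  rw [h2]
  apply lintegral_congr
  intro x
  congr 1
  rw [div_eq_inv_mul]

/-- the integral of `(1+|x|)^{-p}` -/
noncomputable def Jp (p : ℝ) : ℝ≥0∞ := ∫⁻ x : ℝ, ENNReal.ofReal ((1 + |x|) ^ (-p))

lemma Jp_ne (p : ℝ) (hp : 1 < p) : Jp p ≠ ⊤ := by
  unfold Jp
  have h := finite_integral_one_add_norm (E := ℝ) (μ := volume) (r := p) (by simpa using hp)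
  simp only [Real.norm_eq_abs] at h
  exact h.ne

/-- integral in the dual variable -/
lemma Rk_x (p : ℝ) (hp : 1 < p) (t y : ℝ) :
    ∫⁻ x, Rk t x y ^ p ≤ ENNReal.ofReal (2 * 256 ^ p) * Jp p * ww ((p - 1) / 2) t := by
  have hp0 : 0 < p := by linarith
  have hJm : Measurable fun x : ℝ => ENNReal.ofReal ((1 + |x|) ^ (-p)) := by
    have h1 : Measurable fun x : ℝ => 1 + |x| := by fun_prop
    exact (h1.pow_const _).ennreal_ofReal
  unfold Rk ww
  split_ifs with h
  · rw [mul_one]
    have e : ∀ x : ℝ, ENNReal.ofReal (256 / (1 + |x|)) ^ p =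
        ENNReal.ofReal (256 ^ p) * ENNReal.ofReal ((1 + |x|) ^ (-p)) := by
      intro x
      have hx : 0 < 1 + |x| := by positivity
      rw [ENNReal.ofReal_rpow_of_pos (by positivity), Real.div_rpow (by norm_num) hx.le,
        ← ENNReal.ofReal_mul (by positivity), Real.rpow_neg hx.le]
      rfl
    simp only [e]
    rw [lintegral_const_mul _ hJm]
    unfold Jp
    gcongr
    have : (0 : ℝ) < 256 ^ p := by positivity
    linarith
  · push Not at h
    have ht : 0 < |t| := by linarith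
    have ht0 : t ≠ 0 := abs_pos.1 ht
    set θ := Real.sqrt |t| with hθ
    have hθ0 : 0 < θ := Real.sqrt_pos.2 ht
    have hθθ : θ * θ = |t| := Real.mul_self_sqrt ht.le
    have e : ∀ x : ℝ, (32 * kk t (y + x / (2 * t))) ^ p =
        ENNReal.ofReal (32 ^ p * θ ^ (-p)) *
          ENNReal.ofReal ((1 + |(x + 2 * t * y) / (2 * θ)|) ^ (-p)) := by
      intro x
      unfold kk
      have h1 : Real.sqrt |t| + |t| * |y + x / (2 * t)| =
          θ * (1 + |(x + 2 * t * y) / (2 * θ)|) := by
        rw [← hθ, abs_div, abs_of_pos (show 0 < 2 * θ by positivity)]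
        have h2 : |t| * |y + x / (2 * t)| = |x + 2 * t * y| / 2 := by
          rw [← abs_mul, show t * (y + x / (2 * t)) = (x + 2 * t * y) / 2 by
            field_simp; ring, abs_div]
          simp
        rw [h2]
        field_simp
      rw [h1]
      have hx : 0 < 1 + |(x + 2 * t * y) / (2 * θ)| := by positivity
      rw [show (32 : ℝ≥0∞) = ENNReal.ofReal 32 by simp, ← ENNReal.ofReal_mul (by norm_num),
        ENNReal.ofReal_rpow_of_pos (by positivity), ← ENNReal.ofReal_mul (by positivity)]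
      congr 1
      rw [Real.mul_rpow (by norm_num) (by positivity), one_div, Real.inv_rpow (by positivity),
        ← Real.rpow_neg (by positivity), Real.mul_rpow hθ0.le hx.le]
      ring
    simp only [e]
    rw [lintegral_const_mul' _ _ ENNReal.ofReal_ne_top,
      scal (fun u => ENNReal.ofReal ((1 + |u|) ^ (-p))) hJm (2 * θ) (by positivity)]
    unfold Jp
    rw [← mul_assoc, ← ENNReal.ofReal_mul (by positivity)]
    have e3 : 32 ^ p * θ ^ (-p) * (2 * θ) = 2 * 32 ^ p * |t| ^ (-((p - 1) / 2)) := by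
      have h5 : |t| ^ (-((p - 1) / 2)) = θ ^ (-p) * θ := by
        rw [← hθθ, Real.mul_rpow hθ0.le hθ0.le, ← Real.rpow_add hθ0]
        nth_rewrite 3 [← Real.rpow_one θ]
        rw [← Real.rpow_add hθ0]
        congr 1
        ring
      rw [h5]
      ring
    rw [e3, ENNReal.ofReal_mul (by positivity), mul_right_comm]
    gcongr
    norm_num

/-- integral in the space variable -/
lemma Rk_y (τ : ℝ) (hτ0 : 0 < τ) (hτ1 : τ < 1) (t x : ℝ) :
    ∫⁻ y, Rk t x y ^ τ ∂mu ≤
      (ENNReal.ofReal (256 ^ τ) * 2 + ENNReal.ofReal (32 ^ τ) * RR (1 - τ)) * ww τ t := by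
  unfold mu
  by_cases h : |t| ≤ 1
  · have e : ∀ y, Rk t x y = ENNReal.ofReal (256 / (1 + |x|)) := by
      intro y
      unfold Rk
      rw [if_pos h]
    simp only [e]
    rw [lintegral_const, Measure.restrict_apply_univ, Real.volume_Ioc]
    unfold ww
    rw [if_pos h, mul_one]
    refine le_trans ?_ le_self_add
    rw [show (1 : ℝ) - -1 = 2 by norm_num, ENNReal.ofReal_ofNat]
    gcongr
    rw [ENNReal.ofReal_rpow_of_pos (by positivity)]
    apply ENNReal.ofReal_le_ofReal
    apply Real.rpow_le_rpow (by positivity) _ hτ0.le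
    rw [div_le_iff₀ (by positivity)]
    nlinarith [abs_nonneg x]
  · push Not at h
    have ht : 0 < |t| := by linarith
    have ht0 : t ≠ 0 := abs_pos.1 ht
    have hw : ww τ t = ENNReal.ofReal (|t| ^ (-τ)) := by
      unfold ww
      rw [if_neg (by linarith)]
    rw [hw]
    have h1 : ∀ᵐ y ∂(volume.restrict (Ioc (-1 : ℝ) 1)), Rk t x y ^ τ ≤
        ENNReal.ofReal (32 ^ τ) * ENNReal.ofReal (|t| ^ (-τ)) * rr (1 - τ) x t y := by
      apply ae_restrict_of_ae
      have h0 : ∀ᵐ y : ℝ, y ≠ -(x / (2 * t)) := by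
        rw [ae_iff]
        simp
      filter_upwards [h0] with y hy
      unfold Rk rr kk
      rw [if_neg (by linarith), if_neg (by linarith)]
      have hu : 0 < |y + x / (2 * t)| := by
        rw [abs_pos]
        intro h2
        apply hy
        linarith
      set u := |y + x / (2 * t)| with hu'
      have hs : 0 < Real.sqrt |t| := Real.sqrt_pos.2 ht
      rw [show (32 : ℝ≥0∞) = ENNReal.ofReal 32 by simp, ← ENNReal.ofReal_mul (by norm_num),
        ENNReal.ofReal_rpow_of_pos (by positivity), ← ENNReal.ofReal_mul (by positivity),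
        ← ENNReal.ofReal_mul (by positivity)]
      apply ENNReal.ofReal_le_ofReal
      rw [Real.mul_rpow (by norm_num) (by positivity), mul_assoc]
      apply mul_le_mul_of_nonneg_left _ (by positivity)
      rw [show 1 - τ - 1 = -τ by ring, ← Real.mul_rpow ht.le hu.le, Real.rpow_neg (by positivity),
        ← Real.inv_rpow (by positivity)]
      apply Real.rpow_le_rpow (by positivity) _ hτ0.le
      rw [one_div]
      apply inv_anti₀ (by positivity)
      linarith
    refine (lintegral_mono_ae h1).trans ?_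
    rw [lintegral_const_mul _ (rr_meas _ _ _)]
    have h2 := rr_total (1 - τ) x t (by linarith) (by linarith)
    calc ENNReal.ofReal (32 ^ τ) * ENNReal.ofReal (|t| ^ (-τ)) *
          ∫⁻ y in Ioc (-1 : ℝ) 1, rr (1 - τ) x t y
        ≤ ENNReal.ofReal (32 ^ τ) * ENNReal.ofReal (|t| ^ (-τ)) * RR (1 - τ) := by gcongr
      _ = (ENNReal.ofReal (32 ^ τ) * RR (1 - τ)) * ENNReal.ofReal (|t| ^ (-τ)) := by ring
      _ ≤ _ := by
          gcongr
          exact le_add_self

lemma Rk_ne (t x y : ℝ) : Rk t x y ≠ ⊤ := by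
  unfold Rk kk
  split_ifs
  · simp
  · exact ENNReal.mul_ne_top (by simp) (by simp)

/-- Hölder -/
lemma hold {X : Type*} [MeasurableSpace X] (m : Measure X) (H R : X → ℝ≥0∞) (hH : Measurable H)
    (hR : Measurable R) (r p : ℝ) (hp : 1 < p) (hpr : p < r) :
    (∫⁻ y, H y * R y ∂m) ^ r ≤
      (∫⁻ y, H y ^ r * R y ^ p ∂m) * (∫⁻ y, R y ^ ((r - p) / (r - 1)) ∂m) ^ (r - 1) := by
  have hr1 : 1 < r := by linarith
  have hr0 : 0 < r := by linarith
  have hpq : r.HolderConjugate (r / (r - 1)) := by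
    rw [Real.holderConjugate_iff]
    refine ⟨hr1, ?_⟩
    have : r - 1 ≠ 0 := by linarith
    field_simp
    ring
  have h := ENNReal.lintegral_mul_le_Lp_mul_Lq m hpq (f := fun y => H y * R y ^ (p / r))
    (g := fun y => R y ^ (1 - p / r)) (hH.mul (hR.pow_const _)).aemeasurable
    (hR.pow_const _).aemeasurable
  have e1 : ∀ y, ((fun y => H y * R y ^ (p / r)) * fun y => R y ^ (1 - p / r)) y = H y * R y := by
    intro y
    simp only [Pi.mul_apply]
    rw [mul_assoc, ← ENNReal.rpow_add_of_nonneg _ _ (by positivity)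
      (by rw [sub_nonneg, div_le_one hr0]; exact hpr.le)]
    simp
  have e2 : ∀ y, (H y * R y ^ (p / r)) ^ r = H y ^ r * R y ^ p := by
    intro y
    rw [ENNReal.mul_rpow_of_nonneg _ _ hr0.le, ← ENNReal.rpow_mul]
    congr 2
    field_simp
  have e3 : ∀ y, (R y ^ (1 - p / r)) ^ (r / (r - 1)) = R y ^ ((r - p) / (r - 1)) := by
    intro y
    rw [← ENNReal.rpow_mul]
    congr 1
    have : r - 1 ≠ 0 := by linarith
    field_simp
  simp only [e1, e2, e3] at h
  calc (∫⁻ y, H y * R y ∂m) ^ r ≤ ((∫⁻ y, H y ^ r * R y ^ p ∂m) ^ (1 / r) *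
        (∫⁻ y, R y ^ ((r - p) / (r - 1)) ∂m) ^ (1 / (r / (r - 1)))) ^ r := by gcongr
    _ = _ := by
        rw [ENNReal.mul_rpow_of_nonneg _ _ hr0.le, ← ENNReal.rpow_mul, ← ENNReal.rpow_mul]
        have : r - 1 ≠ 0 := by linarith
        congr 1
        · rw [one_div, inv_mul_cancel₀ hr0.ne', ENNReal.rpow_one]
        · congr 1
          field_simp

/-- the one-dimensional operator -/
theorem op1 (r p : ℝ) (hp : 1 < p) (hpr : p < r) :
    ∃ C : ℝ≥0∞, C ≠ ⊤ ∧ ∀ (t : ℝ) (H : ℝ → ℝ≥0∞), Measurable H →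
      ∫⁻ x, (∫⁻ y, H y * Rk t x y ∂mu) ^ r ≤ C * ww (r - 1 / 2 - p / 2) t * ∫⁻ y, H y ^ r ∂mu := by
  have hr1 : 1 < r := by linarith
  set τ := (r - p) / (r - 1) with hτ
  have hτ0 : 0 < τ := by
    rw [hτ]
    apply div_pos <;> linarith
  have hτ1 : τ < 1 := by
    rw [hτ, div_lt_one (by linarith)]
    linarith
  set B : ℝ≥0∞ := ENNReal.ofReal (256 ^ τ) * 2 + ENNReal.ofReal (32 ^ τ) * RR (1 - τ) with hB
  have hBt : B ≠ ⊤ := by
    rw [hB]
    refine ENNReal.add_ne_top.2 ⟨ENNReal.mul_ne_top (by simp) (by simp),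
      ENNReal.mul_ne_top (by simp) (RR_ne _ (by linarith))⟩
  set A : ℝ≥0∞ := ENNReal.ofReal (2 * 256 ^ p) * Jp p with hA
  have hAt : A ≠ ⊤ := ENNReal.mul_ne_top ENNReal.ofReal_ne_top (Jp_ne p hp)
  refine ⟨A * B ^ (r - 1), ENNReal.mul_ne_top hAt
    (ENNReal.rpow_ne_top_of_nonneg (by linarith) hBt), ?_⟩
  intro t H hH
  have hBw : (B * ww τ t) ^ (r - 1) ≠ ⊤ :=
    ENNReal.rpow_ne_top_of_nonneg (by linarith) (ENNReal.mul_ne_top hBt (ww_ne _ _))
  have hm2 : Measurable fun z : ℝ × ℝ => H z.2 ^ r * Rk t z.1 z.2 ^ p :=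
    ((hH.comp measurable_snd).pow_const r).mul ((Rk_meas2 t).pow_const p)
  calc ∫⁻ x, (∫⁻ y, H y * Rk t x y ∂mu) ^ r
      ≤ ∫⁻ x, (∫⁻ y, H y ^ r * Rk t x y ^ p ∂mu) * (B * ww τ t) ^ (r - 1) := by
        apply lintegral_mono
        intro x
        refine (hold mu H (Rk t x) hH (Rk_meas t x) r p hp hpr).trans ?_
        refine mul_le_mul_right ?_ _
        apply ENNReal.rpow_le_rpow _ (by linarith)
        exact Rk_y τ hτ0 hτ1 t x
    _ = (∫⁻ x, ∫⁻ y, H y ^ r * Rk t x y ^ p ∂mu) * (B * ww τ t) ^ (r - 1) :=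
        lintegral_mul_const' _ _ hBw
    _ = (∫⁻ y, ∫⁻ x, H y ^ r * Rk t x y ^ p ∂volume ∂mu) * (B * ww τ t) ^ (r - 1) := by
        rw [lintegral_lintegral_swap hm2.aemeasurable]
    _ ≤ (∫⁻ y, H y ^ r * (A * ww ((p - 1) / 2) t) ∂mu) * (B * ww τ t) ^ (r - 1) := by
        refine mul_le_mul_left ?_ _
        apply lintegral_mono
        intro y
        have hm : Measurable fun x => Rk t x y ^ p :=
          ((Rk_meas2 t).comp (measurable_id.prodMk measurable_const)).pow_const p
        simp only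
        rw [lintegral_const_mul _ hm]
        exact mul_le_mul_right (Rk_x p hp t y) _
    _ = _ := by
        rw [lintegral_mul_const _ (hH.pow_const r), ENNReal.mul_rpow_of_nonneg _ _ (by linarith),
          ww_rpow]
        have e : ww (r - 1 / 2 - p / 2) t = ww ((p - 1) / 2) t * ww (τ * (r - 1)) t := by
          rw [ww_mul]
          congr 1
          rw [hτ]
          have : r - 1 ≠ 0 := by linarith
          field_simp
          ring
        rw [e]
        ring

end Pool.Agent.R246.Rnd
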