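import Mathlib
import Pool.Agent.R246.RndB
set_option autoImplicit false

/-! The positive operator in several variables. -/

namespace Pool.Agent.R246.Rnd
open MeasureTheory Set Complex Filter Topology
open Pool.Agent.H728R3.SR
open scoped ENNReal

/-- product of the measures -/
noncomputable def mun (n : ℕ) : Measure (Fin n → ℝ) := Measure.pi fun _ => mu

instance (n : ℕ) : IsFiniteMeasure (mun n) := by
  unfold mun
  infer_instance

/-- product of the kernels -/
noncomputable def RR' {n : ℕ} (t : ℝ) (x u : Fin n → ℝ) : ℝ≥0∞ := ∏ i, Rk t (x i) (u i)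

lemma Rk_comp {X : Type*} [MeasurableSpace X] (t : ℝ) {f g : X → ℝ} (hf : Measurable f)
    (hg : Measurable g) : Measurable fun z => Rk t (f z) (g z) := by
  unfold Rk
  split_ifs with h
  · apply Measurable.ennreal_ofReal
    fun_prop
  · apply Measurable.const_mul
    exact (kk_meas t).comp (by fun_prop)

lemma RR'_comp {X : Type*} [MeasurableSpace X] {n : ℕ} (t : ℝ) {f g : X → Fin n → ℝ}
    (hf : Measurable f) (hg : Measurable g) : Measurable fun z => RR' t (f z) (g z) := by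
  unfold RR'
  apply Finset.measurable_prod
  intro i _
  exact Rk_comp t ((measurable_pi_apply i).comp hf) ((measurable_pi_apply i).comp hg)

lemma RR'_meas (n : ℕ) (t : ℝ) :
    Measurable fun z : (Fin n → ℝ) × (Fin n → ℝ) => RR' t z.1 z.2 :=
  RR'_comp t measurable_fst measurable_snd

lemma cons_eq {n : ℕ} (p : ℝ × (Fin n → ℝ)) :
    (MeasurableEquiv.piFinSuccAbove (fun _ : Fin (n + 1) => ℝ) 0).symm p = Fin.cons p.1 p.2 := by
  simp [MeasurableEquiv.piFinSuccAbove]
  rfl

lemma cons_meas (n : ℕ) : Measurable fun p : ℝ × (Fin n → ℝ) =>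
    (Fin.cons p.1 p.2 : Fin (n + 1) → ℝ) := by
  have h := (MeasurableEquiv.piFinSuccAbove (fun _ : Fin (n + 1) => ℝ) 0).symm.measurable
  have e : (fun p : ℝ × (Fin n → ℝ) => (Fin.cons p.1 p.2 : Fin (n + 1) → ℝ)) =
      (MeasurableEquiv.piFinSuccAbove (fun _ : Fin (n + 1) => ℝ) 0).symm := by
    funext p
    exact (cons_eq p).symm
  rw [e]
  exact h

lemma lint_succ_mun (n : ℕ) (F : (Fin (n + 1) → ℝ) → ℝ≥0∞) (hF : Measurable F) :
    ∫⁻ u, F u ∂(mun (n + 1)) = ∫⁻ a, ∫⁻ v, F (Fin.cons a v) ∂(mun n) ∂mu := by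
  have h1 := (measurePreserving_piFinSuccAbove (fun _ : Fin (n + 1) => mu) 0).symm
  have h2 := h1.lintegral_comp_emb (MeasurableEquiv.measurableEmbedding _) F
  unfold mun
  rw [← h2]
  have h3 : ∀ p : ℝ × (Fin n → ℝ), F ((MeasurableEquiv.piFinSuccAbove
        (fun _ : Fin (n + 1) => ℝ) 0).symm p) = F (Fin.cons p.1 p.2) := by
    intro p
    rw [cons_eq]
  simp only [h3]
  exact lintegral_prod (fun p : ℝ × (Fin n → ℝ) => F (Fin.cons p.1 p.2))
    (hF.comp (cons_meas n)).aemeasurable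

lemma lint_succ_vol (n : ℕ) (F : (Fin (n + 1) → ℝ) → ℝ≥0∞) (hF : Measurable F) :
    ∫⁻ u, F u = ∫⁻ v : Fin n → ℝ, ∫⁻ a : ℝ, F (Fin.cons a v) := by
  have h1 := (volume_preserving_piFinSuccAbove (fun _ : Fin (n + 1) => ℝ) 0).symm
  have h2 := h1.lintegral_comp_emb (MeasurableEquiv.measurableEmbedding _) F
  rw [← h2]
  have h3 : ∀ p : ℝ × (Fin n → ℝ), F ((MeasurableEquiv.piFinSuccAbove
        (fun _ : Fin (n + 1) => ℝ) 0).symm p) = F (Fin.cons p.1 p.2) := by
    intro p
    rw [cons_eq]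
  simp only [h3]
  have h4 : (volume : Measure (ℝ × (Fin n → ℝ))) = volume.prod volume := rfl
  rw [h4]
  exact lintegral_prod_symm (fun p : ℝ × (Fin n → ℝ) => F (Fin.cons p.1 p.2))
    (hF.comp (cons_meas n)).aemeasurable

theorem opn (r p : ℝ) (hp : 1 < p) (hpr : p < r) :
    ∃ C : ℝ≥0∞, C ≠ ⊤ ∧ ∀ (n : ℕ) (t : ℝ) (H : (Fin n → ℝ) → ℝ≥0∞), Measurable H →
      ∫⁻ x : Fin n → ℝ, (∫⁻ u, H u * RR' t x u ∂(mun n)) ^ r ≤
        (C * ww (r - 1 / 2 - p / 2) t) ^ n * ∫⁻ u, H u ^ r ∂(mun n) := by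
  obtain ⟨C, hC, hop⟩ := op1 r p hp hpr
  refine ⟨C, hC, ?_⟩
  intro n t
  set W := C * ww (r - 1 / 2 - p / 2) t with hW
  induction n with
  | zero =>
    intro H hH
    have h1 : ∀ x u : Fin 0 → ℝ, RR' t x u = 1 := by
      intro x u
      unfold RR'
      simp
    simp only [h1, mul_one, pow_zero, one_mul]
    unfold mun
    rw [Measure.pi_of_empty, volume_pi, Measure.pi_of_empty, lintegral_dirac, lintegral_dirac,
      lintegral_dirac]
  | succ n ih =>
    intro H hH
    have hKm : Measurable fun z : (Fin (n + 1) → ℝ) × (Fin (n + 1) → ℝ) => H z.2 * RR' t z.1 z.2 :=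
      (hH.comp measurable_snd).mul (RR'_meas (n + 1) t)
    have hLm : Measurable fun x : Fin (n + 1) → ℝ =>
        (∫⁻ u, H u * RR' t x u ∂(mun (n + 1))) ^ r :=
      (hKm.lintegral_prod_right').pow_const r
    rw [lint_succ_vol n _ hLm]
    -- the partial transform
    set G : (Fin n → ℝ) × ℝ → ℝ≥0∞ := fun z =>
      ∫⁻ v, H (Fin.cons z.2 v) * RR' t z.1 v ∂(mun n) with hG
    have hGm0 : Measurable fun z : ((Fin n → ℝ) × ℝ) × (Fin n → ℝ) =>
        H (Fin.cons z.1.2 z.2) * RR' t z.1.1 z.2 := by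
      apply Measurable.mul
      · exact hH.comp ((cons_meas n).comp
          ((measurable_snd.comp measurable_fst).prodMk measurable_snd))
      · exact RR'_comp t (measurable_fst.comp measurable_fst) measurable_snd
    have hGm : Measurable G := hGm0.lintegral_prod_right'
    have e1 : ∀ (v : Fin n → ℝ) (a : ℝ),
        ∫⁻ u, H u * RR' t (Fin.cons a v : Fin (n + 1) → ℝ) u ∂(mun (n + 1)) =
          ∫⁻ b, G (v, b) * Rk t a b ∂mu := by
      intro v a
      have hm : Measurable fun u : Fin (n + 1) → ℝ => H u * RR' t (Fin.cons a v : Fin (n + 1) → ℝ) u := by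
        exact hH.mul (RR'_comp t measurable_const measurable_id)
      rw [lint_succ_mun n _ hm]
      apply lintegral_congr
      intro b
      have e2 : ∀ w : Fin n → ℝ, H (Fin.cons b w) *
          RR' t (Fin.cons a v : Fin (n + 1) → ℝ) (Fin.cons b w) =
          Rk t a b * (H (Fin.cons b w) * RR' t v w) := by
        intro w
        unfold RR'
        rw [Fin.prod_univ_succ]
        simp only [Fin.cons_zero, Fin.cons_succ]
        ring
      simp only [e2]
      rw [lintegral_const_mul' _ _ (Rk_ne t a b), mul_comm]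
    calc ∫⁻ v : Fin n → ℝ, ∫⁻ a : ℝ,
          (∫⁻ u, H u * RR' t (Fin.cons a v : Fin (n + 1) → ℝ) u ∂(mun (n + 1))) ^ r
        = ∫⁻ v : Fin n → ℝ, ∫⁻ a : ℝ, (∫⁻ b, G (v, b) * Rk t a b ∂mu) ^ r := by
          simp only [e1]
      _ ≤ ∫⁻ v : Fin n → ℝ, W * ∫⁻ b, G (v, b) ^ r ∂mu := by
          apply lintegral_mono
          intro v
          have h : Measurable fun b : ℝ => (v, b) := by fun_prop
          exact hop t (fun b => G (v, b)) (hGm.comp h)
      _ = W * ∫⁻ v : Fin n → ℝ, ∫⁻ b, G (v, b) ^ r ∂mu :=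
          lintegral_const_mul' _ _ (ENNReal.mul_ne_top hC (ww_ne _ _))
      _ = W * ∫⁻ b, ∫⁻ v : Fin n → ℝ, G (v, b) ^ r ∂volume ∂mu := by
          rw [lintegral_lintegral_swap]
          exact (hGm.pow_const r).aemeasurable
      _ ≤ W * ∫⁻ b, W ^ n * ∫⁻ u, H (Fin.cons b u) ^ r ∂(mun n) ∂mu := by
          refine mul_le_mul_right ?_ _
          apply lintegral_mono
          intro b
          have h : Measurable fun u : Fin n → ℝ => (b, u) := by fun_prop
          exact ih (fun u => H (Fin.cons b u)) (hH.comp ((cons_meas n).comp h))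
      _ = _ := by
          rw [lintegral_const_mul' _ _ (ENNReal.pow_ne_top (ENNReal.mul_ne_top hC (ww_ne _ _))),
            lint_succ_mun n _ (hH.pow_const r), pow_succ]
          ring

end Pool.Agent.R246.Rnd
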