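import Mathlib
import Pool.Agent.R246.RndC
import Pool.Agent.H728R3.SR.J
set_option autoImplicit false

/-! The weighted one-dimensional estimate for arbitrary densities. -/

namespace Pool.Agent.R246.Rnd
open MeasureTheory Set Complex Filter Topology
open Pool.Agent.H728R3.SR Pool.Agent.H147R3.PE
open scoped ENNReal

lemma ww_SS (α T t : ℝ) (hα : 0 ≤ α) (hT : 1 ≤ T) (ht : t ∈ SS T) :
    ww α t ≤ ENNReal.ofReal (T ^ (-α)) := by
  have h1 : T ≤ |t| := ht.1
  unfold ww
  split_ifs with h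
  · have : T = 1 := le_antisymm (h1.trans h) hT
    rw [this, Real.one_rpow, ENNReal.ofReal_one]
  · apply ENNReal.ofReal_le_ofReal
    exact Real.rpow_le_rpow_of_nonpos (by linarith) h1 (by linarith)

/-- bounded functions -/
theorem wt1 (q β α : ℝ) (h2 : 2 < q) (h4 : q < 4) (hβ0 : 0 < β) (hβ1 : β < 1) (hα : 0 ≤ α)
    (hE : (4 - q) / 2 + (1 - β) * ((q - 2) / 2) - α < 0) :
    ∃ K : ℝ≥0∞, K ≠ ⊤ ∧ ∀ h : ℝ → ℂ, Measurable h → (∀ y, ‖h y‖ ≤ 1) →
      ∫⁻ t, ww α t * Gq h q t ≤ K * M2 h := by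
  set E := (4 - q) / 2 + (1 - β) * ((q - 2) / 2) - α with hEd
  refine ⟨2 ^ (q - 2) * 2 + (∑' j : ℕ, ENNReal.ofReal (((2 : ℝ) ^ j) ^ E)) * CB' β q, ?_, ?_⟩
  · apply ENNReal.add_ne_top.2
    constructor
    · exact ENNReal.mul_ne_top (ENNReal.rpow_ne_top_of_nonneg (by linarith) (by simp)) (by simp)
    · exact ENNReal.mul_ne_top (tsum_fin E hE) (CB'_ne β q hβ1 h2 h4)
  · intro h hmh hb
    set F : ℝ → ℝ≥0∞ := fun t => ww α t * Gq h q t with hF
    have hcov : ∫⁻ t, F t ≤ (∫⁻ t in Icc (-1 : ℝ) 1, F t) + ∑' j : ℕ, ∫⁻ t in SS ((2 : ℝ) ^ j), F t := by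
      calc ∫⁻ t, F t = ∫⁻ t in univ, F t := by rw [Measure.restrict_univ]
        _ ≤ ∫⁻ t in Icc (-1 : ℝ) 1 ∪ ⋃ j : ℕ, SS ((2 : ℝ) ^ j), F t := lintegral_mono_set cover
        _ ≤ _ := (lintegral_union_le _ _ _).trans (add_le_add le_rfl (lintegral_iUnion_le _ _))
    rw [add_mul]
    refine hcov.trans (add_le_add ?_ ?_)
    · calc ∫⁻ t in Icc (-1 : ℝ) 1, F t ≤ ∫⁻ t in Icc (-1 : ℝ) 1, 2 ^ (q - 2) * M2 h := by
            apply setLIntegral_mono measurable_const
            intro t ht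
            have h1 : ww α t = 1 := by
              unfold ww
              rw [if_pos (abs_le.2 ht)]
            rw [hF]
            simp only [h1, one_mul]
            exact Gq_small' hmh hb q h2 t
        _ = _ := by
            rw [lintegral_const, Measure.restrict_apply_univ, Real.volume_Icc]
            norm_num
            ring
    · rw [mul_assoc, ← ENNReal.tsum_mul_right]
      apply ENNReal.tsum_le_tsum
      intro j
      have hT : (1 : ℝ) ≤ 2 ^ j := one_le_pow₀ (by norm_num)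
      calc ∫⁻ t in SS ((2 : ℝ) ^ j), F t
          ≤ ∫⁻ t in SS ((2 : ℝ) ^ j), ENNReal.ofReal (((2 : ℝ) ^ j) ^ (-α)) * Gq h q t := by
            apply setLIntegral_mono ((Gq_meas hmh q).const_mul _)
            intro t ht
            exact mul_le_mul_left (ww_SS α _ t hα hT ht) _
        _ = ENNReal.ofReal (((2 : ℝ) ^ j) ^ (-α)) *
            ∫⁻ t in SS ((2 : ℝ) ^ j), Gq h q t := lintegral_const_mul _ (Gq_meas hmh q)
        _ ≤ ENNReal.ofReal (((2 : ℝ) ^ j) ^ (-α)) *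
            (CB' β q * ENNReal.ofReal (((2 : ℝ) ^ j) ^ ((4 - q) / 2 + (1 - β) * ((q - 2) / 2))) *
              M2 h) := by
            gcongr
            exact plan_q' hmh hb (by linarith) hβ0 hβ1 q h2 h4
        _ = ENNReal.ofReal (((2 : ℝ) ^ j) ^ E) * (CB' β q * M2 h) := by
            rw [hEd, sub_eq_add_neg ((4 - q) / 2 + (1 - β) * ((q - 2) / 2)) α,
              Real.rpow_add (by positivity) _ (-α),
              ENNReal.ofReal_mul (by positivity)]
            ring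

/-- homogeneous form -/
theorem wt2 (q β α : ℝ) (h2 : 2 < q) (h4 : q < 4) (hβ0 : 0 < β) (hβ1 : β < 1) (hα : 0 ≤ α)
    (hE : (4 - q) / 2 + (1 - β) * ((q - 2) / 2) - α < 0) :
    ∃ K : ℝ≥0∞, K ≠ ⊤ ∧ ∀ (h : ℝ → ℂ) (c : ℝ), 0 < c → Measurable h → (∀ y, ‖h y‖ ≤ c) →
      ∫⁻ t, ww α t * Gq h q t ≤ K * (ENNReal.ofReal (c ^ (q - 2)) * M2 h) := by
  obtain ⟨K, hK, hKK⟩ := wt1 q β α h2 h4 hβ0 hβ1 hα hE
  refine ⟨K, hK, ?_⟩
  intro h c hc hm hb
  set h' : ℝ → ℂ := fun y => (c⁻¹ : ℝ) * h y with hh'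
  have hm' : Measurable h' := hm.const_mul _
  have e0 : h = fun y => ((c : ℝ) : ℂ) * h' y := by
    ext y
    rw [hh']
    simp only
    rw [← mul_assoc, ← Complex.ofReal_mul, mul_inv_cancel₀ hc.ne', Complex.ofReal_one, one_mul]
  have hb' : ∀ y, ‖h' y‖ ≤ 1 := by
    intro y
    rw [hh']
    simp only
    rw [norm_mul, Complex.norm_real, norm_inv, Real.norm_of_nonneg hc.le,
      inv_mul_le_iff₀ hc, mul_one]
    exact hb y
  have hce : ‖((c : ℝ) : ℂ)‖ₑ = ENNReal.ofReal c := by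
    rw [← ofReal_norm, Complex.norm_real, Real.norm_of_nonneg hc.le]
  have hG : ∀ t, Gq h q t = ENNReal.ofReal c ^ q * Gq h' q t := by
    intro t
    unfold Gq
    have hmx : Measurable fun x : ℝ => ‖e1 h' x t‖ₑ ^ q := by
      have : Measurable fun x : ℝ => e1 h' x t :=
        (e1_meas hm').comp (measurable_id.prodMk measurable_const)
      exact this.enorm.pow_const q
    rw [← lintegral_const_mul _ hmx]
    apply lintegral_congr
    intro x
    rw [e0, e1_smul, enorm_mul, ENNReal.mul_rpow_of_nonneg _ _ (by linarith), hce]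
  have hM : M2 h = ENNReal.ofReal c ^ 2 * M2 h' := by
    rw [e0, M2_smul _ _ hm', hce]
  have h1 := hKK h' hm' hb'
  have hcq : ENNReal.ofReal c ^ q ≠ ⊤ :=
    ENNReal.rpow_ne_top_of_nonneg (by linarith) ENNReal.ofReal_ne_top
  have e2 : ∀ t, ww α t * Gq h q t = ENNReal.ofReal c ^ q * (ww α t * Gq h' q t) := by
    intro t
    rw [hG]
    ring
  simp only [e2]
  rw [lintegral_const_mul' _ _ hcq, hM]
  have e3 : ENNReal.ofReal (c ^ (q - 2)) * (ENNReal.ofReal c ^ 2 * M2 h') =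
      ENNReal.ofReal c ^ q * M2 h' := by
    rw [← mul_assoc]
    congr 1
    rw [← ENNReal.ofReal_rpow_of_pos hc, ← ENNReal.rpow_natCast,
      ← ENNReal.rpow_add_of_nonneg _ _ (by linarith) (by norm_num)]
    congr 1
    push_cast
    ring
  rw [e3]
  calc _ ≤ ENNReal.ofReal c ^ q * (K * M2 h') := mul_le_mul_right h1 _
    _ = _ := by ring

/-- the level pieces -/
noncomputable def hj (h : ℝ → ℂ) (s : ℝ) (j : ℕ) (y : ℝ) : ℂ := tr s j (h y)

lemma hj_meas {h : ℝ → ℂ} (hm : Measurable h) (s : ℝ) (j : ℕ) : Measurable (hj h s j) :=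
  (tr_meas s j).comp hm

lemma lmass (h : ℝ → ℂ) (q s : ℝ) (hs : 0 < s) (p : ℕ) (hp : p ≠ 0)
    (hpq : (p : ℝ) ≤ q) (hW : ∫⁻ z, ‖cut h z‖ₑ ^ q ≤ ENNReal.ofReal (s ^ q)) (j : ℕ) :
    ∫⁻ z, ‖cut (hj h s j) z‖ₑ ^ p ≤
      ENNReal.ofReal (4 * 2 ^ q * s ^ p * ((2 : ℝ) ^ j) ^ ((p : ℝ) - q)) := by
  have hq0 : 0 ≤ q := le_trans (Nat.cast_nonneg p) hpq
  have h2q : (1 : ℝ) ≤ 2 ^ q := Real.one_le_rpow (by norm_num) hq0
  cases j with
  | zero =>
    calc ∫⁻ z, ‖cut (hj h s 0) z‖ₑ ^ p ≤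
            ∫⁻ z, (Icc (-1 : ℝ) 1).indicator (fun _ => ENNReal.ofReal (s ^ p)) z := by
            apply lintegral_mono
            intro z
            simp only
            unfold cut
            by_cases hz : z ∈ Icc (-1 : ℝ) 1
            · rw [indicator_of_mem hz, indicator_of_mem hz, ENNReal.ofReal_pow hs.le]
              gcongr
              rw [← ofReal_norm]
              apply ENNReal.ofReal_le_ofReal
              have := tr_bd s hs 0 (h z)
              simpa [hj] using this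
            · rw [indicator_of_notMem hz, indicator_of_notMem hz]
              simp [hp]
      _ = ENNReal.ofReal (s ^ p) * 2 := by
            rw [lintegral_indicator measurableSet_Icc, lintegral_const,
              Measure.restrict_apply_univ, Real.volume_Icc]
            norm_num
      _ = ENNReal.ofReal (2 * s ^ p) := by
          rw [ENNReal.ofReal_mul (by norm_num), ENNReal.ofReal_ofNat]
          ring
      _ ≤ _ := by
          apply ENNReal.ofReal_le_ofReal
          rw [pow_zero, Real.one_rpow, mul_one]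
          have : 0 < s ^ p := by positivity
          nlinarith
  | succ j =>
    calc _ ≤ ENNReal.ofReal ((2 ^ j * s) ^ ((p : ℝ) - q)) * ∫⁻ z, ‖cut h z‖ₑ ^ q := by
          rw [← lintegral_const_mul' _ _ ENNReal.ofReal_ne_top]
          apply lintegral_mono
          intro z
          simp only
          unfold cut
          by_cases hz : z ∈ Icc (-1 : ℝ) 1
          · rw [indicator_of_mem hz, indicator_of_mem hz]
            exact tr_pow s hs q p hp hpq j (h z)
          · rw [indicator_of_notMem hz]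
            simp [hp]
      _ ≤ ENNReal.ofReal ((2 ^ j * s) ^ ((p : ℝ) - q)) * ENNReal.ofReal (s ^ q) := by gcongr
      _ ≤ _ := by
          rw [← ENNReal.ofReal_mul (by positivity)]
          apply ENNReal.ofReal_le_ofReal
          have e1 : ((2 : ℝ) ^ j * s) ^ ((p : ℝ) - q) * s ^ q =
              ((2 : ℝ) ^ j) ^ ((p : ℝ) - q) * s ^ p := by
            rw [Real.mul_rpow (by positivity) hs.le, mul_assoc, ← Real.rpow_add hs,
              show (p : ℝ) - q + q = (p : ℝ) by ring, Real.rpow_natCast]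
          have e2 : ((2 : ℝ) ^ (j + 1)) ^ ((p : ℝ) - q) =
              ((2 : ℝ) ^ j) ^ ((p : ℝ) - q) * 2 ^ ((p : ℝ) - q) := by
            rw [pow_succ, Real.mul_rpow (by positivity) (by norm_num)]
          have e3 : (1 : ℝ) ≤ 2 ^ q * 2 ^ ((p : ℝ) - q) := by
            rw [← Real.rpow_add (by norm_num)]
            apply Real.one_le_rpow (by norm_num)
            have : (0 : ℝ) ≤ p := Nat.cast_nonneg p
            linarith
          rw [e1, e2]
          have h0 : 0 < ((2 : ℝ) ^ j) ^ ((p : ℝ) - q) * s ^ p := by positivity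
          calc ((2 : ℝ) ^ j) ^ ((p : ℝ) - q) * s ^ p =
                (((2 : ℝ) ^ j) ^ ((p : ℝ) - q) * s ^ p) * 1 := (mul_one _).symm
            _ ≤ (((2 : ℝ) ^ j) ^ ((p : ℝ) - q) * s ^ p) * (4 * (2 ^ q * 2 ^ ((p : ℝ) - q))) := by
                apply mul_le_mul_of_nonneg_left _ h0.le
                linarith
            _ = _ := by ring

/-- one level -/
lemma level (q q₁ β α : ℝ) (hqq : q₁ ≤ q) (h2 : 2 < q₁) (h4 : q₁ < 4) (hβ0 : 0 < β) (hβ1 : β < 1)
    (hα : 0 ≤ α) (hE : (4 - q₁) / 2 + (1 - β) * ((q₁ - 2) / 2) - α < 0) :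
    ∃ D : ℝ≥0∞, D ≠ ⊤ ∧ ∀ (h : ℝ → ℂ), Measurable h → ∀ s : ℝ, 0 < s →
      ∫⁻ z, ‖cut h z‖ₑ ^ q ≤ ENNReal.ofReal (s ^ q) → ∀ j : ℕ,
      ∫⁻ t, ww α t * Gq (hj h s j) q t ≤
        D * ENNReal.ofReal (s ^ q) * ENNReal.ofReal (((2 : ℝ) ^ j) ^ (-(q * (q - q₁)))) := by
  obtain ⟨K, hK, hKK⟩ := wt2 q₁ β α h2 h4 hβ0 hβ1 hα hE
  obtain ⟨B, hB⟩ : ∃ B : ℝ, B = 4 * 2 ^ q := ⟨_, rfl⟩
  have hB0 : 0 < B := by rw [hB]; positivity
  set δ := q - q₁ with hδ
  have hδ0 : 0 ≤ δ := by linarith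
  refine ⟨K * ENNReal.ofReal (B ^ (1 + δ)), ENNReal.mul_ne_top hK ENNReal.ofReal_ne_top, ?_⟩
  intro h hm s hs hW j
  set G := hj h s j with hG
  have hGm : Measurable G := hj_meas hm s j
  have hc : 0 < (2 : ℝ) ^ j * s := by positivity
  have hGb : ∀ y, ‖G y‖ ≤ 2 ^ j * s := fun y => tr_bd s hs j (h y)
  have hm1 : M1 G ≤ ENNReal.ofReal (B * s ^ 1 * ((2 : ℝ) ^ j) ^ (1 - q)) := by
    have := lmass h q s hs 1 (by norm_num) (by push_cast; linarith) hW j
    simp only [pow_one, Nat.cast_one, ← hB] at this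
    unfold M1
    rw [pow_one]
    exact this
  have hm2 : M2 G ≤ ENNReal.ofReal (B * s ^ 2 * ((2 : ℝ) ^ j) ^ (2 - q)) := by
    have := lmass h q s hs 2 (by norm_num) (by push_cast; linarith) hW j
    simp only [Nat.cast_ofNat, ← hB] at this
    exact this
  have hfin : M1 G ≠ ⊤ := ne_top_of_le_ne_top ENNReal.ofReal_ne_top hm1
  have h1 := hKK G _ hc hGm hGb
  have hGq : ∀ t, Gq G q t ≤ M1 G ^ δ * Gq G q₁ t := by
    intro t
    unfold Gq
    rw [← lintegral_const_mul' _ _ (ENNReal.rpow_ne_top_of_nonneg hδ0 hfin)]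
    apply lintegral_mono
    intro x
    simp only
    have e : ‖e1 G x t‖ₑ ^ q = ‖e1 G x t‖ₑ ^ δ * ‖e1 G x t‖ₑ ^ q₁ := by
      rw [← ENNReal.rpow_add_of_nonneg _ _ hδ0 (by linarith)]
      congr 1
      rw [hδ]
      ring
    rw [e]
    gcongr
    exact e1_le G x t
  set X : ℝ := (2 : ℝ) ^ j with hX
  have hX0 : 0 < X := by positivity
  have h5 : M1 G ^ δ * (ENNReal.ofReal ((X * s) ^ (q₁ - 2)) * M2 G) ≤
      ENNReal.ofReal (B ^ (1 + δ) * s ^ q * X ^ (-(q * δ))) := by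
    calc _ ≤ ENNReal.ofReal (B * s ^ 1 * X ^ (1 - q)) ^ δ *
          (ENNReal.ofReal ((X * s) ^ (q₁ - 2)) * ENNReal.ofReal (B * s ^ 2 * X ^ (2 - q))) := by
          gcongr
      _ = _ := by
          rw [ENNReal.ofReal_rpow_of_pos (by positivity), ← ENNReal.ofReal_mul (by positivity),
            ← ENNReal.ofReal_mul (by positivity)]
          congr 1
          have e0 : (B * s ^ 1 * X ^ (1 - q)) ^ δ = B ^ δ * s ^ δ * X ^ ((1 - q) * δ) := by
            rw [pow_one, Real.mul_rpow (by positivity) (by positivity),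
              Real.mul_rpow hB0.le hs.le, ← Real.rpow_mul hX0.le]
          have e0' : (X * s) ^ (q₁ - 2) = X ^ (q₁ - 2) * s ^ (q₁ - 2) :=
            Real.mul_rpow hX0.le hs.le
          rw [e0, e0', Real.rpow_add hB0, Real.rpow_one]
          have e1 : s ^ q = s ^ δ * s ^ (q₁ - 2) * s ^ 2 := by
            rw [← Real.rpow_natCast s 2, ← Real.rpow_add hs, ← Real.rpow_add hs]
            congr 1
            push_cast
            rw [hδ]
            ring
          have e2 : X ^ (-(q * δ)) = X ^ ((1 - q) * δ) * X ^ (q₁ - 2) * X ^ (2 - q) := by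
            rw [← Real.rpow_add hX0, ← Real.rpow_add hX0]
            congr 1
            rw [hδ]
            ring
          rw [e1, e2]
          ring
  have hMt : M1 G ^ δ ≠ ⊤ := ENNReal.rpow_ne_top_of_nonneg hδ0 hfin
  calc ∫⁻ t, ww α t * Gq G q t ≤ ∫⁻ t, M1 G ^ δ * (ww α t * Gq G q₁ t) := by
        apply lintegral_mono
        intro t
        calc ww α t * Gq G q t ≤ ww α t * (M1 G ^ δ * Gq G q₁ t) := mul_le_mul_right (hGq t) _
          _ = _ := by ring
    _ = M1 G ^ δ * ∫⁻ t, ww α t * Gq G q₁ t := lintegral_const_mul' _ _ hMt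
    _ ≤ M1 G ^ δ * (K * (ENNReal.ofReal ((X * s) ^ (q₁ - 2)) * M2 G)) := mul_le_mul_right h1 _
    _ = K * (M1 G ^ δ * (ENNReal.ofReal ((X * s) ^ (q₁ - 2)) * M2 G)) := by ring
    _ ≤ K * ENNReal.ofReal (B ^ (1 + δ) * s ^ q * X ^ (-(q * δ))) := mul_le_mul_right h5 _
    _ = _ := by
        rw [ENNReal.ofReal_mul (by positivity), ENNReal.ofReal_mul (by positivity)]
        ring

end Pool.Agent.R246.Rnd
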