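import Mathlib
import Pool.Agent.R246.RndD
import Pool.Agent.H728R3.SR.K
set_option autoImplicit false

/-! Strong type, and the vector valued form. -/

namespace Pool.Agent.R246.Rnd
open MeasureTheory Set Complex Filter Topology
open Pool.Agent.H728R3.SR Pool.Agent.H147R3.PE
open scoped ENNReal

lemma tr_exists (s : ℝ) (hs : 0 < s) (z : ℂ) :
    ∃ k, tr s k z = z ∧ ∀ j, j ≠ k → tr s j z = 0 := by
  have hin : ∀ k, z ∈ lev s k → tr s k z = z := by
    intro k hk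
    unfold tr
    rw [indicator_of_mem hk]
    rfl
  have hout : ∀ k, z ∉ lev s k → tr s k z = 0 := by
    intro k hk
    unfold tr
    rw [indicator_of_notMem hk]
  by_cases h : ‖z‖ < s
  · refine ⟨0, hin 0 h, ?_⟩
    intro j hj
    apply hout
    intro hxj
    cases j with
    | zero => exact hj rfl
    | succ j =>
      have h1 : (2 : ℝ) ^ j * s ≤ ‖z‖ := hxj.1
      have h2 : (1 : ℝ) ≤ 2 ^ j := one_le_pow₀ (by norm_num)
      nlinarith
  · push Not at h
    have h1 : 1 ≤ ‖z‖ / s := by rwa [one_le_div hs]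
    obtain ⟨j, hj1, hj2⟩ := exists_nat_pow_near h1 (by norm_num : (1 : ℝ) < 2)
    rw [le_div_iff₀ hs] at hj1
    rw [div_lt_iff₀ hs] at hj2
    refine ⟨j + 1, hin (j + 1) ⟨hj1, hj2⟩, ?_⟩
    intro i hi
    apply hout
    intro hxi
    cases i with
    | zero => exact absurd (show ‖z‖ < s from hxi) (not_lt.2 h)
    | succ i =>
      have h2 : (2 : ℝ) ^ i * s ≤ ‖z‖ := hxi.1
      have h3 : ‖z‖ < (2 : ℝ) ^ (i + 1) * s := hxi.2
      have h4 : (2 : ℝ) ^ i * s < (2 : ℝ) ^ (j + 1) * s := lt_of_le_of_lt h2 hj2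
      have h5 : (2 : ℝ) ^ j * s < (2 : ℝ) ^ (i + 1) * s := lt_of_le_of_lt hj1 h3
      have h6 := (pow_lt_pow_iff_right₀ (by norm_num : (1 : ℝ) < 2)).1 (lt_of_mul_lt_mul_right h4 hs.le)
      have h7 := (pow_lt_pow_iff_right₀ (by norm_num : (1 : ℝ) < 2)).1 (lt_of_mul_lt_mul_right h5 hs.le)
      apply hi
      omega

lemma tr_tsum (s : ℝ) (hs : 0 < s) (z : ℂ) : ∑' k, tr s k z = z := by
  obtain ⟨k, hk, hk2⟩ := tr_exists s hs z
  rw [tsum_eq_single k hk2, hk]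

lemma tr_etsum (s : ℝ) (hs : 0 < s) (z : ℂ) : ∑' k, ‖tr s k z‖ₑ = ‖z‖ₑ := by
  obtain ⟨k, hk, hk2⟩ := tr_exists s hs z
  rw [tsum_eq_single k, hk]
  intro j hj
  rw [hk2 j hj, enorm_zero]

lemma M1_eq (h : ℝ → ℂ) : M1 h = ∫⁻ z in Icc (-1 : ℝ) 1, ‖h z‖ₑ := by
  unfold M1 cut
  rw [← lintegral_indicator measurableSet_Icc]
  apply lintegral_congr
  intro z
  by_cases hz : z ∈ Icc (-1 : ℝ) 1
  · rw [indicator_of_mem hz, indicator_of_mem hz]
  · rw [indicator_of_notMem hz, indicator_of_notMem hz, enorm_zero]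

lemma ph_norm (x t y : ℝ) : ‖cexp (2 * Real.pi * I * ((y * x + y ^ 2 * t : ℝ) : ℂ))‖ₑ = 1 := by
  have : (2 * Real.pi * I * ((y * x + y ^ 2 * t : ℝ) : ℂ)) =
      ((2 * Real.pi * (y * x + y ^ 2 * t) : ℝ) : ℂ) * I := by
    push_cast
    ring
  rw [this, ← ofReal_norm, Complex.norm_exp_ofReal_mul_I, ENNReal.ofReal_one]

lemma ph_meas (x t : ℝ) :
    Measurable fun y : ℝ => cexp (2 * Real.pi * I * ((y * x + y ^ 2 * t : ℝ) : ℂ)) := by
  fun_prop

lemma e1_tsum {h : ℝ → ℂ} (hm : Measurable h) (hfin : M1 h ≠ ⊤) (s : ℝ) (hs : 0 < s) (x t : ℝ) :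
    ‖e1 h x t‖ₑ ≤ ∑' j, ‖e1 (hj h s j) x t‖ₑ := by
  have h1 : e1 h x t = ∑' j, e1 (hj h s j) x t := by
    unfold e1
    rw [← integral_tsum]
    · apply integral_congr_ae
      refine ae_of_all _ fun y => ?_
      simp only
      rw [tsum_mul_right]
      congr 1
      exact (tr_tsum s hs _).symm
    · intro k
      apply Measurable.aestronglyMeasurable
      exact (hj_meas hm s k).mul (ph_meas x t)
    · have e : ∀ k, ∫⁻ y in Icc (-1 : ℝ) 1,
          ‖hj h s k y * cexp (2 * Real.pi * I * ((y * x + y ^ 2 * t : ℝ) : ℂ))‖ₑ =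
          ∫⁻ y in Icc (-1 : ℝ) 1, ‖hj h s k y‖ₑ := by
        intro k
        apply lintegral_congr
        intro y
        rw [enorm_mul, ph_norm, mul_one]
      simp only [e]
      rw [← lintegral_tsum (fun k => (hj_meas hm s k).enorm.aemeasurable)]
      have e2 : ∀ y, ∑' k, ‖hj h s k y‖ₑ = ‖h y‖ₑ := fun y => tr_etsum s hs (h y)
      simp only [e2]
      rwa [← M1_eq]
  rw [h1]
  exact enorm_tsum_le_tsum_enorm

lemma geo' (x : ℝ) (hx0 : 0 < x) (hx1 : x < 1) : (∑' k : ℕ, ENNReal.ofReal (x ^ k)) ≠ ⊤ := by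
  have : ∀ k : ℕ, ENNReal.ofReal (x ^ k) = ENNReal.ofReal x ^ k := fun k =>
    ENNReal.ofReal_pow hx0.le k
  simp only [this]
  rw [ENNReal.tsum_geometric, ENNReal.inv_ne_top]
  exact (tsub_pos_of_lt (ENNReal.ofReal_lt_one.2 hx1)).ne'

/-- the `L^q` mass on `[-1,1]` -/
noncomputable def Mq (q : ℝ) (h : ℝ → ℂ) : ℝ≥0∞ := ∫⁻ z, ‖cut h z‖ₑ ^ q

lemma M1_fin {h : ℝ → ℂ} (q : ℝ) (hq : 1 < q) (hW : Mq q h ≠ ⊤) :
    M1 h ≠ ⊤ := by
  have h4 : ∀ x, ‖cut h x‖ₑ ≤ (Icc (-1 : ℝ) 1).indicator (fun _ => 1) x + ‖cut h x‖ₑ ^ q := by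
    intro x
    by_cases hx : x ∈ Icc (-1 : ℝ) 1
    · rw [indicator_of_mem hx]
      by_cases h5 : ‖cut h x‖ₑ ≤ 1
      · exact h5.trans le_self_add
      · push Not at h5
        refine le_trans ?_ le_add_self
        calc ‖cut h x‖ₑ = ‖cut h x‖ₑ ^ (1 : ℝ) := (ENNReal.rpow_one _).symm
          _ ≤ _ := ENNReal.rpow_le_rpow_of_exponent_le h5.le hq.le
    · unfold cut
      rw [indicator_of_notMem hx]
      simp
  refine ne_top_of_le_ne_top ?_ (lintegral_mono h4)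
  rw [lintegral_add_left ((measurable_const).indicator measurableSet_Icc),
    lintegral_indicator measurableSet_Icc, lintegral_const,
    Measure.restrict_apply_univ, Real.volume_Icc]
  exact ENNReal.add_ne_top.2 ⟨by simp, hW⟩

theorem strong_s (q q₁ β α : ℝ) (hqq : q₁ < q) (h2 : 2 < q₁) (h4 : q₁ < 4) (hβ0 : 0 < β)
    (hβ1 : β < 1) (hα : 0 ≤ α) (hE : (4 - q₁) / 2 + (1 - β) * ((q₁ - 2) / 2) - α < 0) :
    ∃ K : ℝ≥0∞, K ≠ ⊤ ∧ ∀ (h : ℝ → ℂ), Measurable h → ∀ s : ℝ, 0 < s →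
      Mq q h ≤ ENNReal.ofReal (s ^ q) →
      ∫⁻ t, ww α t * Gq h q t ≤ K * ENNReal.ofReal (s ^ q) := by
  obtain ⟨D, hD, hDD⟩ := level q q₁ β α hqq.le h2 h4 hβ0 hβ1 hα hE
  set δ := q - q₁ with hδ
  have hδ0 : 0 < δ := by linarith
  have hq1 : 1 < q := by linarith
  set ρ : ℝ := (2 : ℝ) ^ (-(q * δ / (2 * (q - 1)))) with hρ
  have hρ0 : 0 < ρ := by positivity
  have hρ1 : ρ < 1 := by
    apply Real.rpow_lt_one_of_one_lt_of_neg (by norm_num)
    rw [neg_lt_zero]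
    have : 0 < q - 1 := by linarith
    positivity
  have hsr : ∀ k : ℕ, (ρ ^ k) ^ (-(q - 1)) * ((2 : ℝ) ^ k) ^ (-(q * δ)) =
      ((2 : ℝ) ^ (-(q * δ / 2))) ^ k := by
    intro k
    rw [← Real.rpow_natCast, ← Real.rpow_natCast, ← Real.rpow_natCast, hρ,
      ← Real.rpow_mul (by positivity), ← Real.rpow_mul (by positivity),
      ← Real.rpow_mul (by positivity), ← Real.rpow_mul (by positivity),
      ← Real.rpow_add (by norm_num)]
    congr 1
    have : q - 1 ≠ 0 := by linarith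
    field_simp
    ring
  set G0 : ℝ≥0∞ := (∑' k, ENNReal.ofReal (ρ ^ k)) ^ (q - 1) with hG0d
  have hG0t : G0 ≠ ⊤ := ENNReal.rpow_ne_top_of_nonneg (by linarith) (geo' ρ hρ0 hρ1)
  refine ⟨G0 * (D * ∑' k : ℕ, ENNReal.ofReal (((2 : ℝ) ^ (-(q * δ / 2))) ^ k)), ?_, ?_⟩
  · refine ENNReal.mul_ne_top hG0t (ENNReal.mul_ne_top hD ?_)
    apply geo'
    · positivity
    · apply Real.rpow_lt_one_of_one_lt_of_neg (by norm_num)
      have : 0 < q * δ := by positivity
      linarith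
  intro h hm s hs hW
  have hlev := hDD h hm s hs hW
  have hfin : M1 h ≠ ⊤ := M1_fin q hq1 (ne_top_of_le_ne_top ENNReal.ofReal_ne_top hW)
  have hxm : ∀ j t, Measurable fun x : ℝ => ‖e1 (hj h s j) x t‖ₑ ^ q := by
    intro j t
    have : Measurable fun x : ℝ => e1 (hj h s j) x t :=
      (e1_meas (hj_meas hm s j)).comp (measurable_id.prodMk measurable_const)
    exact this.enorm.pow_const q
  have hone : ∀ t, Gq h q t ≤ G0 * ∑' j, ENNReal.ofReal ((ρ ^ j) ^ (-(q - 1))) *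
      Gq (hj h s j) q t := by
    intro t
    unfold Gq
    calc ∫⁻ x, ‖e1 h x t‖ₑ ^ q
        ≤ ∫⁻ x, G0 * ∑' j, ENNReal.ofReal ((ρ ^ j) ^ (-(q - 1))) *
          ‖e1 (hj h s j) x t‖ₑ ^ q := by
          apply lintegral_mono
          intro x
          exact (ENNReal.rpow_le_rpow (e1_tsum hm hfin s hs x t) (show 0 ≤ q by linarith)).trans
            (Pool.Agent.H147R3.PE.wsum _ ρ hρ0 q hq1)
      _ = _ := by
          rw [lintegral_const_mul' _ _ hG0t, lintegral_tsum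
            (fun j => ((hxm j t).const_mul _).aemeasurable)]
          congr 1
          apply tsum_congr
          intro j
          rw [lintegral_const_mul _ (hxm j t)]
  have hGm : ∀ j, Measurable fun t => ww α t * Gq (hj h s j) q t := fun j =>
    (ww_meas α).mul (Gq_meas (hj_meas hm s j) q)
  calc ∫⁻ t, ww α t * Gq h q t
      ≤ ∫⁻ t, G0 * ∑' j, ENNReal.ofReal ((ρ ^ j) ^ (-(q - 1))) *
        (ww α t * Gq (hj h s j) q t) := by
        apply lintegral_mono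
        intro t
        refine (mul_le_mul_right (hone t) _).trans (le_of_eq ?_)
        rw [mul_left_comm, ← ENNReal.tsum_mul_left]
        congr 1
        apply tsum_congr
        intro j
        ring
    _ = G0 * ∑' j, ENNReal.ofReal ((ρ ^ j) ^ (-(q - 1))) *
        ∫⁻ t, ww α t * Gq (hj h s j) q t := by
        rw [lintegral_const_mul' _ _ hG0t, lintegral_tsum
            (fun j => ((hGm j).const_mul _).aemeasurable)]
        congr 1
        apply tsum_congr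
        intro j
        rw [lintegral_const_mul _ (hGm j)]
    _ ≤ G0 * ∑' j, ENNReal.ofReal ((ρ ^ j) ^ (-(q - 1))) *
        (D * ENNReal.ofReal (s ^ q) * ENNReal.ofReal (((2 : ℝ) ^ j) ^ (-(q * δ)))) := by
        refine mul_le_mul_right (ENNReal.tsum_le_tsum fun j => ?_) _
        exact mul_le_mul_right (hlev j) _
    _ = _ := by
        have e2 : ∀ j : ℕ, ENNReal.ofReal ((ρ ^ j) ^ (-(q - 1))) *
            (D * ENNReal.ofReal (s ^ q) * ENNReal.ofReal (((2 : ℝ) ^ j) ^ (-(q * δ)))) =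
            (D * ENNReal.ofReal (s ^ q)) *
              ENNReal.ofReal (((2 : ℝ) ^ (-(q * δ / 2))) ^ j) := by
          intro j
          rw [← hsr j, ENNReal.ofReal_mul (by positivity)]
          ring
        simp only [e2]
        rw [ENNReal.tsum_mul_left]
        ring

/-- strong type -/
theorem strong (q q₁ β α : ℝ) (hqq : q₁ < q) (h2 : 2 < q₁) (h4 : q₁ < 4) (hβ0 : 0 < β)
    (hβ1 : β < 1) (hα : 0 ≤ α) (hE : (4 - q₁) / 2 + (1 - β) * ((q₁ - 2) / 2) - α < 0) :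
    ∃ K : ℝ≥0∞, K ≠ ⊤ ∧ K ≠ 0 ∧ ∀ (h : ℝ → ℂ), Measurable h →
      ∫⁻ t, ww α t * Gq h q t ≤ K * Mq q h := by
  obtain ⟨K, hK, hKK⟩ := strong_s q q₁ β α hqq h2 h4 hβ0 hβ1 hα hE
  refine ⟨K + 1, ENNReal.add_ne_top.2 ⟨hK, by simp⟩, by simp, ?_⟩
  intro h hm
  have hq0 : 0 < q := by linarith
  by_cases hW : Mq q h = ⊤
  · rw [hW, ENNReal.mul_top (by simp)]
    exact le_top
  have h1 : ∀ η : ℝ, 0 < η → ∫⁻ t, ww α t * Gq h q t ≤ K * (Mq q h + ENNReal.ofReal η) := by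
    intro η hη
    set W := (Mq q h).toReal with hWd
    have hW0 : 0 ≤ W := ENNReal.toReal_nonneg
    have hs : 0 < (W + η) ^ q⁻¹ := by positivity
    have e1 : ((W + η) ^ q⁻¹) ^ q = W + η := Real.rpow_inv_rpow (by positivity) hq0.ne'
    have e2 : ENNReal.ofReal (((W + η) ^ q⁻¹) ^ q) = Mq q h + ENNReal.ofReal η := by
      rw [e1, ENNReal.ofReal_add hW0 hη.le, hWd, ENNReal.ofReal_toReal hW]
    have h2 := hKK h hm _ hs (by rw [e2]; exact le_self_add)
    rw [e2] at h2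
    exact h2
  refine le_trans ?_ (mul_le_mul_left (show K ≤ K + 1 from le_self_add) _)
  apply ENNReal.le_of_forall_pos_le_add
  intro η hη _
  have hk0 : 0 < K.toReal + 1 := by positivity
  refine (h1 (η / (K.toReal + 1)) (by positivity)).trans ?_
  rw [mul_add]
  gcongr
  calc K * ENNReal.ofReal (η / (K.toReal + 1)) =
        ENNReal.ofReal (K.toReal * (η / (K.toReal + 1))) := by
        rw [ENNReal.ofReal_mul ENNReal.toReal_nonneg, ENNReal.ofReal_toReal hK]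
    _ ≤ ENNReal.ofReal η := by
        apply ENNReal.ofReal_le_ofReal
        rw [mul_div_assoc', div_le_iff₀ hk0]
        have : (0 : ℝ) < η := hη
        nlinarith
    _ = η := ENNReal.ofReal_coe_nnreal

end Pool.Agent.R246.Rnd
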