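import Mathlib
import Pool.Agent.R246.RndE
set_option autoImplicit false

/-! Lower Khinchine inequality and vector valued estimate. -/

namespace Pool.Agent.R246.Rnd
open MeasureTheory Set Complex Filter Topology
open Pool.Agent.H728R3.SR Pool.Agent.H147R3.PE
open scoped ENNReal

variable {ι : Type} [Fintype ι] [DecidableEq ι]

lemma sg_orth (k l : ι) (hkl : k ≠ l) : ∑ ε : ι → Bool, sg (ε k) * sg (ε l) = 0 := by
  refine Finset.sum_involution (fun ε _ => Function.update ε k (!ε k)) ?_ ?_ ?_ ?_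
  · intro ε _
    have h1 : Function.update ε k (!ε k) l = ε l := Function.update_of_ne (Ne.symm hkl) _ _
    rw [h1, Function.update_self]
    unfold sg
    cases ε k <;> cases ε l <;> simp
  · intro ε _ _ h
    have := congrFun h k
    rw [Function.update_self] at this
    cases h' : ε k <;> simp [h'] at this
  · intro ε _
    exact Finset.mem_univ _
  · intro ε _
    simp

lemma sg_self (k : ι) : ∑ ε : ι → Bool, sg (ε k) * sg (ε k) = 2 ^ Fintype.card ι := by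
  have h : ∀ ε : ι → Bool, sg (ε k) * sg (ε k) = 1 := by
    intro ε
    unfold sg
    cases ε k <;> simp
  simp only [h]
  simp

lemma second (v : ι → ℝ) : ∑ ε : ι → Bool, (∑ k, sg (ε k) * v k) ^ 2 =
    2 ^ Fintype.card ι * ∑ k, v k ^ 2 := by
  have h1 : ∀ ε : ι → Bool, (∑ k, sg (ε k) * v k) ^ 2 =
      ∑ k, ∑ l, v k * v l * (sg (ε k) * sg (ε l)) := by
    intro ε
    rw [sq, Finset.sum_mul_sum]
    apply Finset.sum_congr rfl
    intro k _
    apply Finset.sum_congr rfl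
    intro l _
    ring
  simp only [h1]
  rw [Finset.sum_comm, Finset.mul_sum]
  apply Finset.sum_congr rfl
  intro k _
  rw [Finset.sum_comm, Finset.sum_eq_single k]
  · rw [← Finset.mul_sum, sg_self]
    ring
  · intro l _ hl
    rw [← Finset.mul_sum, sg_orth k l (Ne.symm hl), mul_zero]
  · intro h
    exact absurd (Finset.mem_univ k) h

lemma second_c (z : ι → ℂ) : ∑ ε : ι → Bool, ‖∑ k, (sg (ε k) : ℂ) * z k‖ ^ 2 =
    2 ^ Fintype.card ι * ∑ k, ‖z k‖ ^ 2 := by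
  have h1 : ∀ ε : ι → Bool, ‖∑ k, (sg (ε k) : ℂ) * z k‖ ^ 2 =
      (∑ k, sg (ε k) * (z k).re) ^ 2 + (∑ k, sg (ε k) * (z k).im) ^ 2 := by
    intro ε
    rw [← Complex.normSq_eq_norm_sq, Complex.normSq_apply, Complex.re_sum, Complex.im_sum]
    simp only [Complex.re_ofReal_mul, Complex.im_ofReal_mul]
    ring
  have h2 : ∀ k, ‖z k‖ ^ 2 = (z k).re ^ 2 + (z k).im ^ 2 := by
    intro k
    rw [← Complex.normSq_eq_norm_sq, Complex.normSq_apply]
    ring
  simp only [h1, h2, Finset.sum_add_distrib]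
  rw [second, second]
  ring

lemma jen {κ : Type*} [Fintype κ] (r : ℝ) (hr : 1 ≤ r) (f : κ → ℝ≥0∞) :
    (∑ k, f k) ^ r ≤ (Fintype.card κ : ℝ≥0∞) ^ (r - 1) * ∑ k, f k ^ r := by
  have h1 := ENNReal.inner_le_weight_mul_Lp_of_nonneg Finset.univ hr (fun _ : κ => 1) f
  have hr0 : 0 < r := by linarith
  simp only [one_mul, Finset.sum_const, Finset.card_univ, nsmul_eq_mul, mul_one] at h1
  calc (∑ k, f k) ^ r ≤ ((Fintype.card κ : ℝ≥0∞) ^ (1 - r⁻¹) * (∑ k, f k ^ r) ^ r⁻¹) ^ r := by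
        gcongr
    _ = _ := by
        rw [ENNReal.mul_rpow_of_nonneg _ _ hr0.le, ← ENNReal.rpow_mul, ← ENNReal.rpow_mul,
          inv_mul_cancel₀ hr0.ne', ENNReal.rpow_one]
        congr 2
        field_simp

/-- lower Khinchine inequality for exponents at least two -/
theorem kh_low (q : ℝ) (hq : 2 ≤ q) (z : ι → ℂ) :
    2 ^ Fintype.card ι * (∑ k, ‖z k‖ₑ ^ 2) ^ (q / 2) ≤
      ∑ ε : ι → Bool, ‖∑ k, (sg (ε k) : ℂ) * z k‖ₑ ^ q := by
  have h1 := jen (q / 2) (by linarith) (fun ε : ι → Bool => ‖∑ k, (sg (ε k) : ℂ) * z k‖ₑ ^ 2)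
  have h2 : ∑ ε : ι → Bool, ‖∑ k, (sg (ε k) : ℂ) * z k‖ₑ ^ 2 =
      2 ^ Fintype.card ι * ∑ k, ‖z k‖ₑ ^ 2 := by
    have e : ∀ w : ℂ, ‖w‖ₑ ^ 2 = ENNReal.ofReal (‖w‖ ^ 2) := by
      intro w
      rw [← ofReal_norm, ENNReal.ofReal_pow (norm_nonneg _)]
    simp only [e]
    rw [← ENNReal.ofReal_sum_of_nonneg (fun _ _ => by positivity),
      ← ENNReal.ofReal_sum_of_nonneg (fun _ _ => by positivity), second_c,
      ENNReal.ofReal_mul (by positivity), ENNReal.ofReal_pow (by norm_num), ENNReal.ofReal_ofNat]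
  have h3 : ∀ w : ℂ, (‖w‖ₑ ^ 2) ^ (q / 2) = ‖w‖ₑ ^ q := by
    intro w
    rw [← ENNReal.rpow_natCast, ← ENNReal.rpow_mul]
    congr 1
    push_cast
    ring
  simp only [h3] at h1
  rw [h2, ENNReal.mul_rpow_of_nonneg _ _ (by linarith)] at h1
  have hc : (Fintype.card (ι → Bool) : ℝ≥0∞) = 2 ^ Fintype.card ι := by
    simp
  rw [hc] at h1
  set A : ℝ≥0∞ := 2 ^ Fintype.card ι with hA
  have hA0 : A ≠ 0 := by rw [hA]; simp
  have hAt : A ≠ ⊤ := by rw [hA]; simp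
  have h4 : A ^ (q / 2) = A ^ (q / 2 - 1) * A := by
    nth_rewrite 3 [← ENNReal.rpow_one A]
    rw [← ENNReal.rpow_add _ _ hA0 hAt]
    congr 1
    ring
  rw [h4, mul_assoc] at h1
  have h5 : A ^ (q / 2 - 1) ≠ 0 := by
    rw [Ne, ENNReal.rpow_eq_zero_iff]
    rintro (⟨h, _⟩ | ⟨h, _⟩)
    · exact hA0 h
    · exact hAt h
  have h6 : A ^ (q / 2 - 1) ≠ ⊤ := ENNReal.rpow_ne_top_of_nonneg (by linarith) hAt
  exact (ENNReal.mul_le_mul_iff_right h5 h6).1 h1

omit [DecidableEq ι] in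
lemma e1_sum {h : ι → ℝ → ℂ} (hm : ∀ k, Measurable (h k)) (hfin : ∀ k, M1 (h k) ≠ ⊤)
    (ε : ι → Bool) (x t : ℝ) :
    e1 (fun y => ∑ k, (sg (ε k) : ℂ) * h k y) x t = ∑ k, (sg (ε k) : ℂ) * e1 (h k) x t := by
  unfold e1
  simp only [Finset.sum_mul]
  rw [integral_finsetSum]
  · apply Finset.sum_congr rfl
    intro k _
    rw [← integral_const_mul]
    congr 1
    ext y
    ring
  · intro k _
    refine ⟨(((hm k).const_mul _).mul (ph_meas x t)).aestronglyMeasurable, ?_⟩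
    unfold HasFiniteIntegral
    have e : ∀ y : ℝ, ‖(sg (ε k) : ℂ) * h k y *
        cexp (2 * Real.pi * I * ((y * x + y ^ 2 * t : ℝ) : ℂ))‖ₑ = ‖h k y‖ₑ := by
      intro y
      rw [enorm_mul, ph_norm, mul_one, enorm_mul, ← ofReal_norm (sg (ε k) : ℂ), sg_norm,
        ENNReal.ofReal_one, one_mul]
    simp only [e]
    rw [← M1_eq]
    exact (hfin k).lt_top

omit [DecidableEq ι] in
lemma cut_sum (h : ι → ℝ → ℂ) (ε : ι → Bool) (y : ℝ) :
    cut (fun y => ∑ k, (sg (ε k) : ℂ) * h k y) y = ∑ k, (sg (ε k) : ℂ) * cut (h k) y := by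
  unfold cut
  by_cases hy : y ∈ Icc (-1 : ℝ) 1
  · simp only [indicator_of_mem hy]
  · simp only [indicator_of_notMem hy, mul_zero, Finset.sum_const_zero]

lemma K1_pos (q : ℝ) : 0 < K1 q := by
  unfold K1 K0
  positivity

/-- the vector valued inequality -/
theorem vec (q q₁ β α : ℝ) (hqq : q₁ < q) (h2 : 2 < q₁) (h4 : q₁ < 4) (hβ0 : 0 < β)
    (hβ1 : β < 1) (hα : 0 ≤ α) (hE : (4 - q₁) / 2 + (1 - β) * ((q₁ - 2) / 2) - α < 0) :
    ∃ K : ℝ≥0∞, K ≠ ⊤ ∧ ∀ (ι : Type) [Fintype ι] [DecidableEq ι] (h : ι → ℝ → ℂ),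
      (∀ k, Measurable (h k)) →
      ∫⁻ t, ww α t * ∫⁻ x, (∑ k, ‖e1 (h k) x t‖ₑ ^ 2) ^ (q / 2) ≤
        K * ∫⁻ y, (∑ k, ‖cut (h k) y‖ₑ ^ 2) ^ (q / 2) := by
  obtain ⟨K, hK, hK0, hKK⟩ := strong q q₁ β α hqq h2 h4 hβ0 hβ1 hα hE
  refine ⟨K * ENNReal.ofReal (K1 q), ENNReal.mul_ne_top hK ENNReal.ofReal_ne_top, ?_⟩
  intro ι _ _ h hm
  have hKe : ENNReal.ofReal (K1 q) ≠ 0 := by
    rw [Ne, ENNReal.ofReal_eq_zero, not_le]
    exact K1_pos q
  by_cases hfin : ∀ k, Mq q (h k) ≠ ⊤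
  · have hM1 : ∀ k, M1 (h k) ≠ ⊤ := fun k => M1_fin q (by linarith) (hfin k)
    set A : ℝ≥0∞ := 2 ^ Fintype.card ι with hA
    have hA0 : A ≠ 0 := by rw [hA]; simp
    have hAt : A ≠ ⊤ := by rw [hA]; simp
    set he : (ι → Bool) → ℝ → ℂ := fun ε y => ∑ k, (sg (ε k) : ℂ) * h k y with hhe
    have hem : ∀ ε, Measurable (he ε) := fun ε =>
      Finset.measurable_sum _ fun k _ => (hm k).const_mul _
    have hGm : ∀ ε, Measurable fun t => ww α t * Gq (he ε) q t := fun ε =>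
      (ww_meas α).mul (Gq_meas (hem ε) q)
    have hxm : ∀ ε t, Measurable fun x : ℝ => ‖e1 (he ε) x t‖ₑ ^ q := by
      intro ε t
      have : Measurable fun x : ℝ => e1 (he ε) x t :=
        (e1_meas (hem ε)).comp (measurable_id.prodMk measurable_const)
      exact this.enorm.pow_const q
    have hcm : ∀ k, Measurable (cut (h k)) := fun k => (hm k).indicator measurableSet_Icc
    have s1 : A * ∫⁻ t, ww α t * ∫⁻ x, (∑ k, ‖e1 (h k) x t‖ₑ ^ 2) ^ (q / 2) ≤
        ∑ ε : ι → Bool, ∫⁻ t, ww α t * Gq (he ε) q t := by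
      rw [← lintegral_const_mul' _ _ hAt, ← lintegral_finsetSum _ (fun ε _ => hGm ε)]
      apply lintegral_mono
      intro t
      simp only
      rw [← Finset.mul_sum, mul_left_comm]
      refine mul_le_mul_right ?_ _
      unfold Gq
      rw [← lintegral_const_mul' _ _ hAt, ← lintegral_finsetSum _ (fun ε _ => hxm ε t)]
      apply lintegral_mono
      intro x
      have h5 := kh_low q (by linarith) (fun k => e1 (h k) x t)
      refine h5.trans (le_of_eq ?_)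
      apply Finset.sum_congr rfl
      intro ε _
      rw [← e1_sum hm hM1 ε x t]
    have s2 : ∑ ε : ι → Bool, Mq q (he ε) ≤
        A * (ENNReal.ofReal (K1 q) * ∫⁻ y, (∑ k, ‖cut (h k) y‖ₑ ^ 2) ^ (q / 2)) := by
      unfold Mq
      have hcem : ∀ ε, Measurable fun y => ‖cut (he ε) y‖ₑ ^ q := fun ε =>
        ((hem ε).indicator measurableSet_Icc).enorm.pow_const q
      rw [← lintegral_finsetSum _ (fun ε _ => hcem ε),
        ← lintegral_const_mul' _ _ ENNReal.ofReal_ne_top, ← lintegral_const_mul' _ _ hAt]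
      apply lintegral_mono
      intro y
      have h5 := khinchine q (by linarith) (fun k => cut (h k) y)
      refine le_trans (le_of_eq ?_) h5
      apply Finset.sum_congr rfl
      intro ε _
      rw [← cut_sum h ε y]
    have s3 : A * ∫⁻ t, ww α t * ∫⁻ x, (∑ k, ‖e1 (h k) x t‖ₑ ^ 2) ^ (q / 2) ≤
        A * (K * ENNReal.ofReal (K1 q) * ∫⁻ y, (∑ k, ‖cut (h k) y‖ₑ ^ 2) ^ (q / 2)) := by
      calc _ ≤ _ := s1
        _ ≤ ∑ ε : ι → Bool, K * Mq q (he ε) := Finset.sum_le_sum fun ε _ => hKK (he ε) (hem ε)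
        _ = K * ∑ ε : ι → Bool, Mq q (he ε) := by rw [Finset.mul_sum]
        _ ≤ K * (A * (ENNReal.ofReal (K1 q) * ∫⁻ y, (∑ k, ‖cut (h k) y‖ₑ ^ 2) ^ (q / 2))) :=
            mul_le_mul_right s2 _
        _ = _ := by ring
    exact (ENNReal.mul_le_mul_iff_right hA0 hAt).1 s3
  · push Not at hfin
    obtain ⟨k, hk⟩ := hfin
    have h5 : ∫⁻ y, (∑ k, ‖cut (h k) y‖ₑ ^ 2) ^ (q / 2) = ⊤ := by
      rw [eq_top_iff, ← hk]
      unfold Mq
      apply lintegral_mono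
      intro y
      simp only
      calc ‖cut (h k) y‖ₑ ^ q = (‖cut (h k) y‖ₑ ^ 2) ^ (q / 2) := by
            rw [← ENNReal.rpow_natCast, ← ENNReal.rpow_mul]
            congr 1
            push_cast
            ring
        _ ≤ _ := by
            apply ENNReal.rpow_le_rpow _ (by linarith)
            exact Finset.single_le_sum (f := fun k => ‖cut (h k) y‖ₑ ^ 2)
              (fun _ _ => zero_le) (Finset.mem_univ k)
    rw [h5, ENNReal.mul_top (mul_ne_zero hK0 hKe)]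
    exact le_top

end Pool.Agent.R246.Rnd
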