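import Mathlib
import Pool.Agent.R246.RndF
import Pool.Agent.H728R3.SR.D
set_option autoImplicit false

/-! Step functions and the square function estimate. -/

namespace Pool.Agent.R246.Rnd
open MeasureTheory Set Complex Filter Topology
open Pool.Agent.H728R3.SR Pool.Agent.H147R3.PE
open scoped ENNReal

/-- domination property -/
def Dom (M : ℝ≥0∞) (φ : ℝ → ℂ) : Prop :=
  Measurable φ ∧ ∀ t x, t ≠ 0 → ‖e1 φ x t‖ₑ ^ 2 ≤ M * ∫⁻ y, ‖φ y‖ₑ ^ 2 * Rk t x y ∂mu

/-- step functions on `(-1,1]` with at most `m` pieces -/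
def Step (m : ℕ) (φ : ℝ → ℂ) : Prop :=
  ∃ (c : Fin m → ℂ) (a b : Fin m → ℝ), (∀ i, -1 ≤ a i ∧ a i ≤ b i ∧ b i ≤ 1) ∧
    (Pairwise fun i j => Disjoint (Ioc (a i) (b i)) (Ioc (a j) (b j))) ∧
    ∀ u, φ u = ∑ i, (Ioc (a i) (b i)).indicator (fun _ => c i) u

lemma ioc_int (c : ℂ) (a b x t : ℝ) :
    Integrable (fun y : ℝ => (Ioc a b).indicator (fun _ => c) y *
      cexp (2 * Real.pi * I * ((y * x + y ^ 2 * t : ℝ) : ℂ)))
      (volume.restrict (Icc (-1 : ℝ) 1)) := by
  have h1 : (fun y : ℝ => (Ioc a b).indicator (fun _ => c) y *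
      cexp (2 * Real.pi * I * ((y * x + y ^ 2 * t : ℝ) : ℂ))) =
      (Ioc a b).indicator fun y : ℝ => c * cexp (2 * Real.pi * I * ((y * x + y ^ 2 * t : ℝ) : ℂ)) := by
    ext y
    by_cases hy : y ∈ Ioc a b
    · rw [indicator_of_mem hy, indicator_of_mem hy]
    · rw [indicator_of_notMem hy, indicator_of_notMem hy, zero_mul]
  rw [h1]
  apply Integrable.indicator _ measurableSet_Ioc
  apply Continuous.integrableOn_Icc
  fun_prop

lemma e1_ioc (c : ℂ) (a b x t : ℝ) (ha : -1 ≤ a) (hab : a ≤ b) (hb : b ≤ 1) :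
    ∫ y in Icc (-1 : ℝ) 1, (Ioc a b).indicator (fun _ => c) y *
      cexp (2 * Real.pi * I * ((y * x + y ^ 2 * t : ℝ) : ℂ)) =
      c * ∫ y in a..b, cexp (2 * Real.pi * I * ((y * x + y ^ 2 * t : ℝ) : ℂ)) := by
  have h1 : (fun y : ℝ => (Ioc a b).indicator (fun _ => c) y *
      cexp (2 * Real.pi * I * ((y * x + y ^ 2 * t : ℝ) : ℂ))) =
      (Ioc a b).indicator fun y : ℝ => c * cexp (2 * Real.pi * I * ((y * x + y ^ 2 * t : ℝ) : ℂ)) := by
    ext y
    by_cases hy : y ∈ Ioc a b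
    · rw [indicator_of_mem hy, indicator_of_mem hy]
    · rw [indicator_of_notMem hy, indicator_of_notMem hy, zero_mul]
  rw [h1, setIntegral_indicator measurableSet_Ioc, inter_eq_right.2, integral_const_mul,
    intervalIntegral.integral_of_le hab]
  intro y hy
  exact ⟨by linarith [hy.1], by linarith [hy.2]⟩

lemma csq {κ : Type*} [Fintype κ] (f : κ → ℂ) :
    ‖∑ k, f k‖ₑ ^ 2 ≤ (Fintype.card κ : ℝ≥0∞) * ∑ k, ‖f k‖ₑ ^ 2 := by
  have h1 := jen 2 (by norm_num) (fun k => ‖f k‖ₑ)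
  have h2 : ∀ a : ℝ≥0∞, a ^ (2 : ℝ) = a ^ 2 := by
    intro a
    rw [← ENNReal.rpow_natCast]
    norm_num
  simp only [h2] at h1
  rw [show (2 : ℝ) - 1 = 1 by norm_num, ENNReal.rpow_one] at h1
  refine le_trans ?_ h1
  exact pow_le_pow_left' (enorm_sum_le _ _) 2

theorem step_dom {m : ℕ} {φ : ℝ → ℂ} (h : Step m φ) : Dom m φ := by
  obtain ⟨c, a, b, hab, hdj, hφ⟩ := h
  have hφ' : φ = fun u => ∑ i, (Ioc (a i) (b i)).indicator (fun _ => c i) u := funext hφ
  refine ⟨?_, ?_⟩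
  · rw [hφ']
    exact Finset.measurable_sum _ fun i _ => measurable_const.indicator measurableSet_Ioc
  · intro t x ht
    have e : e1 φ x t = ∑ i, c i *
        ∫ y in (a i)..(b i), cexp (2 * Real.pi * I * ((y * x + y ^ 2 * t : ℝ) : ℂ)) := by
      unfold e1
      rw [hφ']
      simp only [Finset.sum_mul]
      rw [integral_finsetSum _ (fun i _ => ioc_int (c i) (a i) (b i) x t)]
      apply Finset.sum_congr rfl
      intro i _
      exact e1_ioc (c i) (a i) (b i) x t (hab i).1 (hab i).2.1 (hab i).2.2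
    have hR : ∀ i, Measurable fun y => (Ioc (a i) (b i)).indicator
        (fun y => ‖c i‖ₑ ^ 2 * Rk t x y) y := fun i =>
      ((Rk_meas t x).const_mul _).indicator measurableSet_Ioc
    have hpt : ∀ y, ‖φ y‖ₑ ^ 2 * Rk t x y = ∑ i, (Ioc (a i) (b i)).indicator
        (fun y => ‖c i‖ₑ ^ 2 * Rk t x y) y := by
      intro y
      rw [hφ y]
      by_cases hy : ∃ i, y ∈ Ioc (a i) (b i)
      · obtain ⟨i, hi⟩ := hy
        have hne : ∀ j, j ≠ i → y ∉ Ioc (a j) (b j) := by
          intro j hj hyj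
          exact (Set.disjoint_left.1 (hdj hj)) hyj hi
        rw [Finset.sum_eq_single i, Finset.sum_eq_single i, indicator_of_mem hi,
          indicator_of_mem hi]
        · intro j _ hj
          rw [indicator_of_notMem (hne j hj)]
        · intro hh
          exact absurd (Finset.mem_univ i) hh
        · intro j _ hj
          rw [indicator_of_notMem (hne j hj)]
        · intro hh
          exact absurd (Finset.mem_univ i) hh
      · push Not at hy
        have h0 : ∀ i, (Ioc (a i) (b i)).indicator (fun _ => c i) y = 0 := fun i =>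
          indicator_of_notMem (hy i) _
        have h0' : ∀ i, (Ioc (a i) (b i)).indicator (fun y => ‖c i‖ₑ ^ 2 * Rk t x y) y = 0 :=
          fun i => indicator_of_notMem (hy i) _
        simp [h0, h0']
    have hI : ∫⁻ y, ‖φ y‖ₑ ^ 2 * Rk t x y ∂mu =
        ∑ i, ‖c i‖ₑ ^ 2 * ∫⁻ y in Ioc (a i) (b i), Rk t x y := by
      simp only [hpt]
      rw [lintegral_finsetSum _ (fun i _ => hR i)]
      apply Finset.sum_congr rfl
      intro i _
      rw [lintegral_indicator measurableSet_Ioc]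
      unfold mu
      rw [Measure.restrict_restrict measurableSet_Ioc, inter_eq_left.2,
        lintegral_const_mul _ (Rk_meas t x)]
      intro y hy
      exact ⟨by linarith [hy.1, (hab i).1], by linarith [hy.2, (hab i).2.2]⟩
    rw [e, hI]
    refine (csq _).trans ?_
    rw [Fintype.card_fin]
    refine mul_le_mul_right ?_ _
    apply Finset.sum_le_sum
    intro i _
    rw [enorm_mul, mul_pow]
    exact mul_le_mul_right (osc_dom x t (a i) (b i) ht (hab i).1 (hab i).2.1 (hab i).2.2) _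

lemma lint_prod_mu (n : ℕ) (f : Fin n → ℝ → ℝ≥0∞) (hf : ∀ j, Measurable (f j)) :
    ∫⁻ u, ∏ j, f j (u j) ∂(mun n) = ∏ j, ∫⁻ y, f j y ∂mu := by
  induction n with
  | zero =>
    unfold mun
    simp [Measure.pi_of_empty]
  | succ n ih =>
    have hpm : Measurable fun u : Fin (n + 1) → ℝ => ∏ j, f j (u j) :=
      Finset.measurable_prod _ fun j _ => (hf j).comp (measurable_pi_apply j)
    have hpm' : Measurable fun u : Fin n → ℝ => ∏ j : Fin n, f j.succ (u j) :=
      Finset.measurable_prod _ fun j _ => (hf j.succ).comp (measurable_pi_apply j)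
    rw [lint_succ_mun n _ hpm]
    simp only [Fin.prod_univ_succ, Fin.cons_zero, Fin.cons_succ]
    have h1 : ∀ a, ∫⁻ v, f 0 a * ∏ j : Fin n, f j.succ (v j) ∂(mun n) =
        f 0 a * ∏ j : Fin n, ∫⁻ y, f j.succ y ∂mu := by
      intro a
      rw [lintegral_const_mul _ hpm', ih (fun j => f j.succ) (fun j => hf j.succ)]
    simp only [h1]
    rw [lintegral_mul_const _ (hf 0)]

lemma consts3 (n q : ℝ) (hn : 1 ≤ n) (hq : 2 * (n + 2) / (n + 1) < q) :
    2 < q ∧ ∃ p q₁ β : ℝ, 1 < p ∧ p < q / 2 ∧ 2 < q₁ ∧ q₁ < 4 ∧ q₁ < q ∧ 0 < β ∧ β < 1 ∧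
      0 ≤ n * (q / 2 - 1 / 2 - p / 2) ∧
      (4 - q₁) / 2 + (1 - β) * ((q₁ - 2) / 2) - n * (q / 2 - 1 / 2 - p / 2) < 0 := by
  have hq2 : 2 < q := by
    have h1 : 2 < 2 * (n + 2) / (n + 1) := by
      rw [lt_div_iff₀ (by linarith)]
      linarith
    linarith
  refine ⟨hq2, ?_⟩
  rw [div_lt_iff₀ (by linarith)] at hq
  obtain ⟨q', hq', hq'2, hq'4, hq'q, hκ⟩ : ∃ q' : ℝ, q' = min q 4 ∧ 2 < q' ∧ q' ≤ 4 ∧ q' ≤ q ∧
      0 < n * (q / 2 - 1) - (4 - q') / 2 := by
    refine ⟨min q 4, rfl, lt_min hq2 (by norm_num), min_le_right _ _, min_le_left _ _, ?_⟩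
    rcases le_total q 4 with h | h
    · rw [min_eq_left h]
      nlinarith
    · rw [min_eq_right h]
      nlinarith
  set κ := n * (q / 2 - 1) - (4 - q') / 2 with hκd
  obtain ⟨η, hη0, hη1, hη2, hη3, hη4⟩ : ∃ η : ℝ, 0 < η ∧ η ≤ κ / 4 ∧ η ≤ 1 / 4 ∧
      η ≤ (q - 2) / 8 ∧ η ≤ (q' - 2) / 4 := by
    refine ⟨min (κ / 4) (min (1 / 4) (min ((q - 2) / 8) ((q' - 2) / 4))), ?_, ?_, ?_, ?_, ?_⟩
    · apply lt_min (by linarith)
      apply lt_min (by norm_num)
      apply lt_min <;> linarith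
    · exact min_le_left _ _
    · exact (min_le_right _ _).trans (min_le_left _ _)
    · exact (min_le_right _ _).trans ((min_le_right _ _).trans (min_le_left _ _))
    · exact (min_le_right _ _).trans ((min_le_right _ _).trans (min_le_right _ _))
  have hn0 : 0 < n := by linarith
  have e1 : n * (q / 2 - 1 / 2 - (1 + 2 * η / n) / 2) = n * (q / 2 - 1) - η := by
    field_simp
    ring
  have hn' : 2 * η / n ≤ 2 * η := by
    rw [div_le_iff₀ hn0]
    nlinarith
  have hn'' : 0 < 2 * η / n := by positivity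
  refine ⟨1 + 2 * η / n, q' - 2 * η, 1 - η, by linarith, by linarith, by linarith, by linarith,
    by linarith, by linarith, by linarith, ?_, ?_⟩
  · rw [e1]
    nlinarith
  · rw [e1]
    have h5 : (1 - (1 - η)) * ((q' - 2 * η - 2) / 2) ≤ η := by nlinarith
    linarith

end Pool.Agent.R246.Rnd
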