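import Mathlib
import Pool.Agent.R246.RndG
set_option autoImplicit false

/-! The square function estimate. -/

namespace Pool.Agent.R246.Rnd
open MeasureTheory Set Complex Filter Topology
open Pool.Agent.H728R3.SR Pool.Agent.H147R3.PE
open scoped ENNReal

variable {n : ℕ} {ι : Type} [Fintype ι]

/-- the coefficient functions -/
noncomputable def cf (φ : ι → Fin n → ℝ → ℂ) (k : ι) (u : Fin n → ℝ) : ℂ := ∏ i, φ k i (u i)

/-- the terms of the square function -/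
noncomputable def ZT (φ : ι → Fin n → ℝ → ℂ) (g : ι → ℝ → ℂ) (k : ι)
    (y : (Fin (n + 1) → ℝ) × ℝ) : ℂ :=
  e1 (g k) (y.1 0) y.2 * ∏ i, e1 (φ k i) (y.1 i.succ) y.2

lemma e1_comp {X : Type*} [MeasurableSpace X] {h : ℝ → ℂ} (hm : Measurable h) {f g : X → ℝ}
    (hf : Measurable f) (hg : Measurable g) : Measurable fun z => e1 h (f z) (g z) :=
  (e1_meas hm).comp (hf.prodMk hg)

omit [Fintype ι] in
lemma cf_meas {φ : ι → Fin n → ℝ → ℂ} (hφ : ∀ k i, Measurable (φ k i)) (k : ι) :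
    Measurable (cf φ k) := by
  unfold cf
  exact Finset.measurable_prod _ fun i _ => (hφ k i).comp (measurable_pi_apply i)

omit [Fintype ι] in
lemma ZT_meas {φ : ι → Fin n → ℝ → ℂ} (hφ : ∀ k i, Measurable (φ k i)) {g : ι → ℝ → ℂ}
    (hg : ∀ k, Measurable (g k)) (k : ι) : Measurable (ZT φ g k) := by
  unfold ZT
  apply Measurable.mul
  · exact e1_comp (hg k) ((measurable_pi_apply 0).comp measurable_fst) measurable_snd
  · apply Finset.measurable_prod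
    intro i _
    exact e1_comp (hφ k i) ((measurable_pi_apply i.succ).comp measurable_fst) measurable_snd

lemma enorm_prod' {κ : Type*} [Fintype κ] (f : κ → ℂ) : ‖∏ i, f i‖ₑ = ∏ i, ‖f i‖ₑ := by
  rw [← ofReal_norm, norm_prod, ENNReal.ofReal_prod_of_nonneg (fun _ _ => norm_nonneg _)]
  simp only [ofReal_norm]

/-- the pointwise bound -/
lemma pt_bound {φ : ι → Fin n → ℝ → ℂ} {M : ℝ≥0∞} (hφ : ∀ k i, Dom M (φ k i)) (g : ι → ℝ → ℂ)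
    (a : ℝ) (v : Fin n → ℝ) (t : ℝ) (ht : t ≠ 0) :
    ∑ k, ‖ZT φ g k ((Fin.cons a v : Fin (n + 1) → ℝ), t)‖ₑ ^ 2 ≤
      ∫⁻ u, (M ^ n * ∑ k, ‖e1 (fun y => cf φ k u * g k y) a t‖ₑ ^ 2) * RR' t v u ∂(mun n) := by
  have hm1 : ∀ k i, Measurable fun y => ‖φ k i y‖ₑ ^ 2 * Rk t (v i) y := fun k i =>
    ((hφ k i).1.enorm.pow_const 2).mul (Rk_meas t (v i))
  have hprod : ∀ k, ∏ i, ‖e1 (φ k i) (v i) t‖ₑ ^ 2 ≤
      M ^ n * ∫⁻ u, ∏ i, (‖φ k i (u i)‖ₑ ^ 2 * Rk t (v i) (u i)) ∂(mun n) := by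
    intro k
    rw [lint_prod_mu n (fun i y => ‖φ k i y‖ₑ ^ 2 * Rk t (v i) y) (hm1 k)]
    calc ∏ i, ‖e1 (φ k i) (v i) t‖ₑ ^ 2 ≤
          ∏ i : Fin n, (M * ∫⁻ y, ‖φ k i y‖ₑ ^ 2 * Rk t (v i) y ∂mu) :=
          Finset.prod_le_prod' fun i _ => (hφ k i).2 t (v i) ht
      _ = _ := by
          rw [Finset.prod_mul_distrib, Finset.prod_const, Finset.card_univ, Fintype.card_fin]
  have hterm : ∀ k, ‖ZT φ g k ((Fin.cons a v : Fin (n + 1) → ℝ), t)‖ₑ ^ 2 =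
      ‖e1 (g k) a t‖ₑ ^ 2 * ∏ i, ‖e1 (φ k i) (v i) t‖ₑ ^ 2 := by
    intro k
    unfold ZT
    simp only [Fin.cons_zero, Fin.cons_succ]
    rw [enorm_mul, mul_pow, enorm_prod', Finset.prod_pow]
  have hm2 : ∀ k, Measurable fun u : Fin n → ℝ =>
      ∏ i, (‖φ k i (u i)‖ₑ ^ 2 * Rk t (v i) (u i)) := fun k =>
    Finset.measurable_prod _ fun i _ => (hm1 k i).comp (measurable_pi_apply i)
  have hrhs : ∀ u, (M ^ n * ∑ k, ‖e1 (fun y => cf φ k u * g k y) a t‖ₑ ^ 2) * RR' t v u =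
      ∑ k, M ^ n * ‖e1 (g k) a t‖ₑ ^ 2 * ∏ i, (‖φ k i (u i)‖ₑ ^ 2 * Rk t (v i) (u i)) := by
    intro u
    rw [Finset.mul_sum, Finset.sum_mul]
    apply Finset.sum_congr rfl
    intro k _
    rw [e1_smul, enorm_mul, mul_pow, Finset.prod_mul_distrib]
    unfold cf RR'
    rw [enorm_prod', Finset.prod_pow]
    ring
  simp only [hrhs, hterm]
  rw [lintegral_finsetSum _ (fun k _ => (hm2 k).const_mul _)]
  apply Finset.sum_le_sum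
  intro k _
  rw [lintegral_const_mul _ (hm2 k)]
  calc _ ≤ ‖e1 (g k) a t‖ₑ ^ 2 * (M ^ n *
        ∫⁻ u, ∏ i, (‖φ k i (u i)‖ₑ ^ 2 * Rk t (v i) (u i)) ∂(mun n)) :=
        mul_le_mul_right (hprod k) _
    _ = _ := by ring

/-- the partial square function -/
noncomputable def HH (φ : ι → Fin n → ℝ → ℂ) (g : ι → ℝ → ℂ) (u : Fin n → ℝ) (a t : ℝ) : ℝ≥0∞ :=
  ∑ k, ‖e1 (fun y => cf φ k u * g k y) a t‖ₑ ^ 2

lemma HH_comp {X : Type*} [MeasurableSpace X] {φ : ι → Fin n → ℝ → ℂ}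
    (hφ : ∀ k i, Measurable (φ k i)) {g : ι → ℝ → ℂ}
    (hg : ∀ k, Measurable (g k)) {f1 : X → Fin n → ℝ} {f2 f3 : X → ℝ} (h1 : Measurable f1)
    (h2 : Measurable f2) (h3 : Measurable f3) :
    Measurable fun z => HH φ g (f1 z) (f2 z) (f3 z) := by
  have e : (fun z => HH φ g (f1 z) (f2 z) (f3 z)) =
      fun z => ∑ k, ‖cf φ k (f1 z) * e1 (g k) (f2 z) (f3 z)‖ₑ ^ 2 := by
    funext z
    unfold HH
    apply Finset.sum_congr rfl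
    intro k _
    rw [e1_smul]
  rw [e]
  have h4 : ∀ k, Measurable fun z => ‖cf φ k (f1 z) * e1 (g k) (f2 z) (f3 z)‖ₑ ^ 2 := by
    intro k
    have h5 : Measurable fun z => cf φ k (f1 z) := (cf_meas hφ k).comp h1
    exact (h5.mul (e1_comp (hg k) h2 h3)).enorm.pow_const 2
  exact Finset.measurable_sum Finset.univ fun k _ => h4 k

lemma pt_bound' {φ : ι → Fin n → ℝ → ℂ} {M : ℝ≥0∞} (hφ : ∀ k i, Dom M (φ k i)) (g : ι → ℝ → ℂ)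
    (a : ℝ) (v : Fin n → ℝ) (t : ℝ) (ht : t ≠ 0) :
    ∑ k, ‖ZT φ g k ((Fin.cons a v : Fin (n + 1) → ℝ), t)‖ₑ ^ 2 ≤
      ∫⁻ u, (M ^ n * HH φ g u a t) * RR' t v u ∂(mun n) :=
  pt_bound hφ g a v t ht

/-- fixed time and fixed first variable -/
lemma S0 {φ : ι → Fin n → ℝ → ℂ} {M : ℝ≥0∞} (hM : M ≠ ⊤) (hφ : ∀ k i, Dom M (φ k i))
    {g : ι → ℝ → ℂ} (hg : ∀ k, Measurable (g k)) (r α : ℝ) (hr : 0 ≤ r) (C : ℝ≥0∞)
    (hop : ∀ (n : ℕ) (t : ℝ) (H : (Fin n → ℝ) → ℝ≥0∞), Measurable H →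
      ∫⁻ x : Fin n → ℝ, (∫⁻ u, H u * RR' t x u ∂(mun n)) ^ r ≤
        (C * ww α t) ^ n * ∫⁻ u, H u ^ r ∂(mun n)) (a t : ℝ) (ht : t ≠ 0) :
    ∫⁻ v : Fin n → ℝ, (∑ k, ‖ZT φ g k ((Fin.cons a v : Fin (n + 1) → ℝ), t)‖ₑ ^ 2) ^ r ≤
      C ^ n * (M ^ n) ^ r * ww (n * α) t * ∫⁻ u, HH φ g u a t ^ r ∂(mun n) := by
  have hHm1 : Measurable fun u => HH φ g u a t :=
    HH_comp (fun k i => (hφ k i).1) hg measurable_id measurable_const measurable_const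
  have hM't : (M ^ n) ^ r ≠ ⊤ := ENNReal.rpow_ne_top_of_nonneg hr (ENNReal.pow_ne_top hM)
  calc ∫⁻ v : Fin n → ℝ, (∑ k, ‖ZT φ g k ((Fin.cons a v : Fin (n + 1) → ℝ), t)‖ₑ ^ 2) ^ r
      ≤ ∫⁻ v : Fin n → ℝ, (∫⁻ u, (M ^ n * HH φ g u a t) * RR' t v u ∂(mun n)) ^ r := by
        apply lintegral_mono
        intro v
        exact ENNReal.rpow_le_rpow (pt_bound' hφ g a v t ht) hr
    _ ≤ (C * ww α t) ^ n * ∫⁻ u, (M ^ n * HH φ g u a t) ^ r ∂(mun n) :=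
        hop n t _ (hHm1.const_mul _)
    _ = _ := by
        rw [mul_pow, ww_pow]
        have e : ∀ u, (M ^ n * HH φ g u a t) ^ r = (M ^ n) ^ r * HH φ g u a t ^ r := by
          intro u
          rw [ENNReal.mul_rpow_of_nonneg _ _ hr]
        simp only [e]
        rw [lintegral_const_mul' _ _ hM't]
        ring

lemma ZTS_meas {φ : ι → Fin n → ℝ → ℂ} (hφ : ∀ k i, Measurable (φ k i)) {g : ι → ℝ → ℂ}
    (hg : ∀ k, Measurable (g k)) (r : ℝ) :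
    Measurable fun y : (Fin (n + 1) → ℝ) × ℝ => (∑ k, ‖ZT φ g k y‖ₑ ^ 2) ^ r :=
  (Finset.measurable_sum Finset.univ
    fun k _ => (ZT_meas hφ hg k).enorm.pow_const 2).pow_const _

/-- fixed time -/
lemma S1 {φ : ι → Fin n → ℝ → ℂ} {M : ℝ≥0∞} (hM : M ≠ ⊤) (hφ : ∀ k i, Dom M (φ k i))
    {g : ι → ℝ → ℂ} (hg : ∀ k, Measurable (g k)) (r α : ℝ) (hr : 0 ≤ r) (C : ℝ≥0∞) (hC : C ≠ ⊤)
    (hop : ∀ (n : ℕ) (t : ℝ) (H : (Fin n → ℝ) → ℝ≥0∞), Measurable H →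
      ∫⁻ x : Fin n → ℝ, (∫⁻ u, H u * RR' t x u ∂(mun n)) ^ r ≤
        (C * ww α t) ^ n * ∫⁻ u, H u ^ r ∂(mun n)) (t : ℝ) (ht : t ≠ 0) :
    ∫⁻ x : Fin (n + 1) → ℝ, (∑ k, ‖ZT φ g k (x, t)‖ₑ ^ 2) ^ r ≤
      C ^ n * (M ^ n) ^ r *
        ∫⁻ u, ww (n * α) t * ∫⁻ a, HH φ g u a t ^ r ∂volume ∂(mun n) := by
  have hφm : ∀ k i, Measurable (φ k i) := fun k i => (hφ k i).1
  have hxm : Measurable fun x : Fin (n + 1) → ℝ => (∑ k, ‖ZT φ g k (x, t)‖ₑ ^ 2) ^ r := by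
    have h : Measurable fun x : Fin (n + 1) → ℝ => (x, t) := by fun_prop
    exact (ZTS_meas hφm hg r).comp h
  rw [lint_succ_vol n _ hxm]
  have hxm2 : Measurable fun z : (Fin n → ℝ) × ℝ =>
      (∑ k, ‖ZT φ g k ((Fin.cons z.2 z.1 : Fin (n + 1) → ℝ), t)‖ₑ ^ 2) ^ r :=
    hxm.comp ((cons_meas n).comp measurable_swap)
  rw [lintegral_lintegral_swap hxm2.aemeasurable]
  have hM't : (M ^ n) ^ r ≠ ⊤ := ENNReal.rpow_ne_top_of_nonneg hr (ENNReal.pow_ne_top hM)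
  have hMt : C ^ n * (M ^ n) ^ r * ww (n * α) t ≠ ⊤ :=
    ENNReal.mul_ne_top (ENNReal.mul_ne_top (ENNReal.pow_ne_top hC) hM't) (ww_ne _ _)
  have hsm : Measurable fun z : ℝ × (Fin n → ℝ) => HH φ g z.2 z.1 t ^ r :=
    (HH_comp hφm hg measurable_snd measurable_fst measurable_const).pow_const r
  calc _ ≤ ∫⁻ a : ℝ, C ^ n * (M ^ n) ^ r * ww (n * α) t * ∫⁻ u, HH φ g u a t ^ r ∂(mun n) :=
        lintegral_mono fun a => S0 hM hφ hg r α hr C hop a t ht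
    _ = C ^ n * (M ^ n) ^ r * ww (n * α) t * ∫⁻ a : ℝ, ∫⁻ u, HH φ g u a t ^ r ∂(mun n) :=
        lintegral_const_mul' _ _ hMt
    _ = C ^ n * (M ^ n) ^ r * ww (n * α) t *
        ∫⁻ u, ∫⁻ a : ℝ, HH φ g u a t ^ r ∂volume ∂(mun n) := by
        rw [lintegral_lintegral_swap hsm.aemeasurable]
    _ = _ := by
        rw [lintegral_const_mul' _ _ (ww_ne _ _)]
        ring

lemma S2m {φ : ι → Fin n → ℝ → ℂ} (hφ : ∀ k i, Measurable (φ k i)) {g : ι → ℝ → ℂ}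
    (hg : ∀ k, Measurable (g k)) (r α : ℝ) :
    Measurable fun z : ℝ × (Fin n → ℝ) => ww α z.1 * ∫⁻ a, HH φ g z.2 a z.1 ^ r := by
  apply ((ww_meas α).comp measurable_fst).mul
  have h : Measurable fun z : (ℝ × (Fin n → ℝ)) × ℝ => HH φ g z.1.2 z.2 z.1.1 ^ r :=
    (HH_comp hφ hg (measurable_snd.comp measurable_fst) measurable_snd
      (measurable_fst.comp measurable_fst)).pow_const r
  exact h.lintegral_prod_right'

lemma cut_smul (c : ℂ) (g : ℝ → ℂ) (v : ℝ) : cut (fun y => c * g y) v = c * cut g v := by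
  unfold cut
  by_cases hv : v ∈ Icc (-1 : ℝ) 1
  · rw [indicator_of_mem hv, indicator_of_mem hv]
  · rw [indicator_of_notMem hv, indicator_of_notMem hv, mul_zero]

/-- **The square function estimate.** -/
theorem sqf (n : ℕ) (hn : 1 ≤ n) (q : ℝ) (hq : 2 * ((n : ℝ) + 2) / (n + 1) < q) (M : ℝ≥0∞)
    (hM : M ≠ ⊤) :
    ∃ C : ℝ≥0∞, C ≠ ⊤ ∧ ∀ (ι : Type) [Fintype ι] [DecidableEq ι] (φ : ι → Fin n → ℝ → ℂ)
      (g : ι → ℝ → ℂ), (∀ k i, Dom M (φ k i)) → (∀ k, Measurable (g k)) →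
      ∫⁻ y : (Fin (n + 1) → ℝ) × ℝ, (∑ k, ‖ZT φ g k y‖ₑ ^ 2) ^ (q / 2) ≤
        C * ∫⁻ u, ∫⁻ v, (∑ k, ‖cf φ k u * cut (g k) v‖ₑ ^ 2) ^ (q / 2) ∂volume ∂(mun n) := by
  have hn' : (1 : ℝ) ≤ n := by exact_mod_cast hn
  obtain ⟨hq2, p, q₁, β, hp1, hpq, h21, h41, hqq, hβ0, hβ1, hα, hE⟩ := consts3 n q hn' hq
  obtain ⟨C, hC, hop⟩ := opn (q / 2) p hp1 hpq
  obtain ⟨K, hK, hvec⟩ := vec q q₁ β _ hqq h21 h41 hβ0 hβ1 hα hE
  have hr : 0 ≤ q / 2 := by linarith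
  have hM't : (M ^ n) ^ (q / 2) ≠ ⊤ := ENNReal.rpow_ne_top_of_nonneg hr (ENNReal.pow_ne_top hM)
  have hCMt : C ^ n * (M ^ n) ^ (q / 2) ≠ ⊤ := ENNReal.mul_ne_top (ENNReal.pow_ne_top hC) hM't
  refine ⟨C ^ n * (M ^ n) ^ (q / 2) * K, ENNReal.mul_ne_top hCMt hK, ?_⟩
  intro ι _ _ φ g hφ hg
  have hφm : ∀ k i, Measurable (φ k i) := fun k i => (hφ k i).1
  have h4 : (volume : Measure ((Fin (n + 1) → ℝ) × ℝ)) = volume.prod volume := rfl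
  have h0 : ∀ᵐ t : ℝ, t ≠ 0 := by
    rw [ae_iff]
    simp
  have hu : ∀ u : Fin n → ℝ, ∫⁻ t : ℝ, ww (n * (q / 2 - 1 / 2 - p / 2)) t *
      ∫⁻ a : ℝ, HH φ g u a t ^ (q / 2) ≤
      K * ∫⁻ v, (∑ k, ‖cf φ k u * cut (g k) v‖ₑ ^ 2) ^ (q / 2) := by
    intro u
    have h5 := hvec ι (fun k y => cf φ k u * g k y) (fun k => (hg k).const_mul _)
    simp only [cut_smul] at h5
    exact h5
  rw [h4, lintegral_prod_symm _ (ZTS_meas hφm hg (q / 2)).aemeasurable]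
  calc _ ≤ ∫⁻ t : ℝ, C ^ n * (M ^ n) ^ (q / 2) *
        ∫⁻ u, ww (n * (q / 2 - 1 / 2 - p / 2)) t *
          ∫⁻ a : ℝ, HH φ g u a t ^ (q / 2) ∂volume ∂(mun n) := by
        apply lintegral_mono_ae
        filter_upwards [h0] with t ht
        exact S1 hM hφ hg (q / 2) _ hr C hC hop t ht
    _ = C ^ n * (M ^ n) ^ (q / 2) * ∫⁻ t : ℝ, ∫⁻ u, ww (n * (q / 2 - 1 / 2 - p / 2)) t *
          ∫⁻ a : ℝ, HH φ g u a t ^ (q / 2) ∂volume ∂(mun n) :=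
        lintegral_const_mul' _ _ hCMt
    _ = C ^ n * (M ^ n) ^ (q / 2) * ∫⁻ u, ∫⁻ t : ℝ, ww (n * (q / 2 - 1 / 2 - p / 2)) t *
          ∫⁻ a : ℝ, HH φ g u a t ^ (q / 2) ∂volume ∂volume ∂(mun n) := by
        rw [lintegral_lintegral_swap (S2m hφm hg _ _).aemeasurable]
    _ ≤ C ^ n * (M ^ n) ^ (q / 2) * ∫⁻ u, K * ∫⁻ v,
          (∑ k, ‖cf φ k u * cut (g k) v‖ₑ ^ 2) ^ (q / 2) ∂volume ∂(mun n) :=
        mul_le_mul_right (lintegral_mono hu) _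
    _ = _ := by
        rw [lintegral_const_mul' _ _ hK]
        ring

end Pool.Agent.R246.Rnd
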