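import Mathlib
import Pool.Agent.R246.RndH
set_option autoImplicit false

/-! Random sums of functions which are constant on few boxes in all but one variable. -/

namespace Pool.Agent.R246.Rnd
open MeasureTheory Set Complex Filter Topology
open Pool.Agent.H728R3.SR Pool.Agent.H147R3.PE
open scoped ENNReal

/-- half open box -/
def box {n : ℕ} (a b : Fin n → ℝ) : Set (Fin n → ℝ) := {u | ∀ j, a j < u j ∧ u j ≤ b j}

/-- at most `m` boxes times arbitrary functions of the first variable -/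
def Boxes (n m : ℕ) (ψ : (Fin (n + 1) → ℝ) → ℂ) : Prop :=
  ∃ (a b : Fin m → Fin n → ℝ) (g : Fin m → ℝ → ℂ),
    (∀ i j, -1 ≤ a i j ∧ a i j ≤ b i j ∧ b i j ≤ 1) ∧
    (Pairwise fun i i' => Disjoint (box (a i) (b i)) (box (a i') (b i'))) ∧
    (∀ i, Measurable (g i)) ∧
    ∀ x, ψ x = ∑ i, (box (a i) (b i)).indicator (fun _ => g i (x 0)) (Fin.tail x)

/-- the one dimensional factors -/
noncomputable def ph {n : ℕ} (a b : Fin n → ℝ) (j : Fin n) : ℝ → ℂ :=
  (Ioc (a j) (b j)).indicator fun _ => 1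

lemma ph_dom {n : ℕ} (a b : Fin n → ℝ) (h : ∀ j, -1 ≤ a j ∧ a j ≤ b j ∧ b j ≤ 1) (j : Fin n) :
    Dom 1 (ph a b j) := by
  have := step_dom (m := 1) (φ := ph a b j)
    ⟨fun _ => 1, fun _ => a j, fun _ => b j, fun _ => h j, by
      intro i i' hi
      exact absurd (Subsingleton.elim i i') hi, by
      intro u
      simp [ph]⟩
  simpa using this

lemma ph_prod {n : ℕ} (a b : Fin n → ℝ) (u : Fin n → ℝ) :
    ∏ j, ph a b j (u j) = (box a b).indicator (fun _ => (1 : ℂ)) u := by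
  by_cases hu : u ∈ box a b
  · rw [indicator_of_mem hu]
    apply Finset.prod_eq_one
    intro j _
    unfold ph
    rw [indicator_of_mem]
    exact hu j
  · rw [indicator_of_notMem hu]
    have : ∃ j, ¬ (a j < u j ∧ u j ≤ b j) := by
      by_contra hne
      push Not at hne
      exact hu hne
    obtain ⟨j, hj⟩ := this
    apply Finset.prod_eq_zero (Finset.mem_univ j)
    unfold ph
    rw [indicator_of_notMem]
    exact hj

lemma mu_Icc : mu = volume.restrict (Icc (-1 : ℝ) 1) := by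
  unfold mu
  exact Measure.restrict_congr_set Ioc_ae_eq_Icc

lemma mun_cube (n : ℕ) : (volume : Measure (Fin n → ℝ)).restrict
    (Icc (fun _ : Fin n => (-1 : ℝ)) (fun _ => 1)) = mun n := by
  rw [restrict_cube]
  unfold mun
  rw [mu_Icc]

/-- the pieces -/
noncomputable def pie {n : ℕ} {ι : Type} (φ : ι → Fin n → ℝ → ℂ) (g : ι → ℝ → ℂ) (p : ι)
    (x : Fin (n + 1) → ℝ) : ℂ := cf φ p (Fin.tail x) * g p (x 0)

lemma pie_eq {n : ℕ} {ι : Type} (φ : ι → Fin n → ℝ → ℂ) (g : ι → ℝ → ℂ) (p : ι) :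
    pie φ g p = fun x => ∏ j, (Fin.cons (g p) (φ p) : Fin (n + 1) → ℝ → ℂ) j (x j) := by
  ext x
  rw [Fin.prod_univ_succ]
  simp only [Fin.cons_zero, Fin.cons_succ]
  unfold pie cf
  simp only [Fin.tail]
  ring

lemma ext_pie {n : ℕ} {ι : Type} (φ : ι → Fin n → ℝ → ℂ) (g : ι → ℝ → ℂ) (p : ι)
    (y : (Fin (n + 1) → ℝ) × ℝ) : Pool.Agent.H728R3.SR.ext (pie φ g p) y = ZT φ g p y := by
  rw [pie_eq, Pool.Agent.H728R3.SR.ext_prod, Fin.prod_univ_succ]
  simp only [Fin.cons_zero, Fin.cons_succ]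
  rfl

lemma tail_meas (n : ℕ) : Measurable fun x : Fin (n + 1) → ℝ => (Fin.tail x : Fin n → ℝ) := by
  rw [measurable_pi_iff]
  intro j
  exact measurable_pi_apply _

lemma pie_meas {n : ℕ} {ι : Type} {φ : ι → Fin n → ℝ → ℂ} (hφ : ∀ k i, Measurable (φ k i))
    {g : ι → ℝ → ℂ} (hg : ∀ k, Measurable (g k)) (p : ι) : Measurable (pie φ g p) := by
  unfold pie
  exact ((cf_meas hφ p).comp (tail_meas n)).mul ((hg p).comp (measurable_pi_apply 0))

lemma phase_norm {n : ℕ} (x : Fin n → ℝ) (y : (Fin n → ℝ) × ℝ) :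
    ‖cexp (2 * Real.pi * I * ((∑ j, x j * y.1 j + (∑ j, x j ^ 2) * y.2 : ℝ) : ℂ))‖ₑ = 1 := by
  have : (2 * Real.pi * I * ((∑ j, x j * y.1 j + (∑ j, x j ^ 2) * y.2 : ℝ) : ℂ)) =
      ((2 * Real.pi * (∑ j, x j * y.1 j + (∑ j, x j ^ 2) * y.2) : ℝ) : ℂ) * I := by
    push_cast
    ring
  rw [this, ← ofReal_norm, Complex.norm_exp_ofReal_mul_I, ENNReal.ofReal_one]

lemma phase_meas {n : ℕ} (y : (Fin n → ℝ) × ℝ) :
    Measurable fun x : Fin n → ℝ =>
      cexp (2 * Real.pi * I * ((∑ j, x j * y.1 j + (∑ j, x j ^ 2) * y.2 : ℝ) : ℂ)) := by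
  apply Continuous.measurable
  fun_prop

/-- finite `L^q` mass gives integrability -/
lemma fin_int {X : Type*} [MeasurableSpace X] (μ : Measure X) [IsFiniteMeasure μ] (f : X → ℂ)
    (hf : Measurable f) (q : ℝ) (hq : 1 ≤ q) (h : ∫⁻ x, ‖f x‖ₑ ^ q ∂μ ≠ ⊤) : Integrable f μ := by
  refine ⟨hf.aestronglyMeasurable, ?_⟩
  unfold HasFiniteIntegral
  have h4 : ∀ x, ‖f x‖ₑ ≤ 1 + ‖f x‖ₑ ^ q := by
    intro x
    by_cases h5 : ‖f x‖ₑ ≤ 1
    · exact h5.trans le_self_add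
    · push Not at h5
      refine le_trans ?_ le_add_self
      calc ‖f x‖ₑ = ‖f x‖ₑ ^ (1 : ℝ) := (ENNReal.rpow_one _).symm
        _ ≤ _ := ENNReal.rpow_le_rpow_of_exponent_le h5.le hq
  refine lt_of_le_of_lt (lintegral_mono h4) ?_
  rw [lintegral_add_left measurable_const, lintegral_const, one_mul]
  exact ENNReal.add_lt_top.2 ⟨measure_lt_top _ _, h.lt_top⟩

/-- linearity of the extension operator -/
lemma ext_lin {n : ℕ} {κ : Type*} [Fintype κ] (f : κ → (Fin n → ℝ) → ℂ) (c : κ → ℂ)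
    (hf : ∀ k, Integrable (f k) (volume.restrict (Icc (fun _ : Fin n => (-1 : ℝ)) (fun _ => 1))))
    (y : (Fin n → ℝ) × ℝ) :
    Pool.Agent.H728R3.SR.ext (fun x => ∑ k, c k * f k x) y =
      ∑ k, c k * Pool.Agent.H728R3.SR.ext (f k) y := by
  unfold Pool.Agent.H728R3.SR.ext
  have e0 : (fun x : Fin n → ℝ => (∑ k, c k * f k x) *
      cexp (2 * Real.pi * I * ((∑ j, x j * y.1 j + (∑ j, x j ^ 2) * y.2 : ℝ) : ℂ))) =
      fun x => ∑ k, c k * f k x *
        cexp (2 * Real.pi * I * ((∑ j, x j * y.1 j + (∑ j, x j ^ 2) * y.2 : ℝ) : ℂ)) := by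
    funext x
    rw [Finset.sum_mul]
  rw [e0, integral_finsetSum]
  · apply Finset.sum_congr rfl
    intro k _
    rw [← integral_const_mul]
    congr 1
    ext x
    ring
  · intro k _
    refine ⟨(((hf k).1.const_mul _).mul (phase_meas y).aestronglyMeasurable), ?_⟩
    unfold HasFiniteIntegral
    have e : ∀ x : Fin n → ℝ, ‖c k * f k x *
        cexp (2 * Real.pi * I * ((∑ j, x j * y.1 j + (∑ j, x j ^ 2) * y.2 : ℝ) : ℂ))‖ₑ =
        ‖c k‖ₑ * ‖f k x‖ₑ := by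
      intro x
      rw [enorm_mul, phase_norm, mul_one, enorm_mul]
    simp only [e]
    rw [lintegral_const_mul' _ _ enorm_ne_top]
    exact ENNReal.mul_lt_top enorm_lt_top (hf k).2

end Pool.Agent.R246.Rnd
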