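import Mathlib
import Pool.Agent.R246.RndI
set_option autoImplicit false

/-! The main theorem. -/

namespace Pool.Agent.R246.Rnd
open MeasureTheory Set Complex Filter Topology
open Pool.Agent.H728R3.SR Pool.Agent.H147R3.PE
open scoped ENNReal

lemma one_nz {m : ℕ} (f : Fin m → ℂ) (h : ∀ i i', i ≠ i' → f i = 0 ∨ f i' = 0) :
    ∑ i, ‖f i‖ₑ ^ 2 = ‖∑ i, f i‖ₑ ^ 2 := by
  by_cases hz : ∀ i, f i = 0
  · simp [hz]
  · push Not at hz
    obtain ⟨i, hi⟩ := hz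
    have h0 : ∀ j, j ≠ i → f j = 0 := by
      intro j hj
      rcases h j i hj with h1 | h1
      · exact h1
      · exact absurd h1 hi
    rw [Finset.sum_eq_single i, Finset.sum_eq_single i]
    · intro j _ hj
      exact h0 j hj
    · intro hh
      exact absurd (Finset.mem_univ i) hh
    · intro j _ hj
      rw [h0 j hj]
      simp
    · intro hh
      exact absurd (Finset.mem_univ i) hh

lemma sq_rpow (w : ℂ) (q : ℝ) : (‖w‖ₑ ^ 2) ^ (q / 2) = ‖w‖ₑ ^ q := by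
  rw [← ENNReal.rpow_natCast, ← ENNReal.rpow_mul]
  congr 1
  push_cast
  ring

section
variable {n m N : ℕ} (a b : Fin N → Fin m → Fin n → ℝ) (g : Fin N → Fin m → ℝ → ℂ)

/-- factors indexed by pairs -/
noncomputable def pph (p : Fin N × Fin m) : Fin n → ℝ → ℂ := ph (a p.1 p.2) (b p.1 p.2)

/-- profile functions indexed by pairs -/
def pg (p : Fin N × Fin m) : ℝ → ℂ := g p.1 p.2

lemma pph_cf (p : Fin N × Fin m) (u : Fin n → ℝ) :
    cf (pph a b) p u = (box (a p.1 p.2) (b p.1 p.2)).indicator (fun _ => (1 : ℂ)) u :=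
  ph_prod _ _ _

lemma psi_eq (k : Fin N) (x : Fin (n + 1) → ℝ) :
    ∑ i, (box (a k i) (b k i)).indicator (fun _ => g k i (x 0)) (Fin.tail x) =
      ∑ i, pie (pph a b) (pg g) (k, i) x := by
  apply Finset.sum_congr rfl
  intro i _
  unfold pie
  rw [pph_cf]
  by_cases h : (Fin.tail x : Fin n → ℝ) ∈ box (a k i) (b k i)
  · rw [indicator_of_mem h, indicator_of_mem h, one_mul]
    rfl
  · rw [indicator_of_notMem h, indicator_of_notMem h, zero_mul]

variable {a b}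

lemma cf_disj (hdj : ∀ k, Pairwise fun i i' => Disjoint (box (a k i) (b k i)) (box (a k i') (b k i')))
    (k : Fin N) (u : Fin n → ℝ) (c : Fin m → ℂ) (i i' : Fin m) (hi : i ≠ i') :
    cf (pph a b) (k, i) u * c i = 0 ∨ cf (pph a b) (k, i') u * c i' = 0 := by
  rw [pph_cf, pph_cf]
  by_cases h : u ∈ box (a k i) (b k i)
  · right
    have h2 : u ∉ box (a k i') (b k i') := fun h3 =>
      (Set.disjoint_left.1 (hdj k hi)) h h3
    rw [indicator_of_notMem h2, zero_mul]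
  · left
    rw [indicator_of_notMem h, zero_mul]

lemma sum_pie_sq (hdj : ∀ k, Pairwise fun i i' =>
    Disjoint (box (a k i) (b k i)) (box (a k i') (b k i')))
    (k : Fin N) (x : Fin (n + 1) → ℝ) :
    ∑ i, ‖pie (pph a b) (pg g) (k, i) x‖ₑ ^ 2 = ‖∑ i, pie (pph a b) (pg g) (k, i) x‖ₑ ^ 2 := by
  apply one_nz
  intro i i' hi
  exact cf_disj hdj k (Fin.tail x) (fun i => g k i (x 0)) i i' hi

end

/-- the mass of the square function on the cube -/
lemma cube_mass {n m N : ℕ} {a b : Fin N → Fin m → Fin n → ℝ} {g : Fin N → Fin m → ℝ → ℂ}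
    (hdj : ∀ k, Pairwise fun i i' => Disjoint (box (a k i) (b k i)) (box (a k i') (b k i')))
    {ψ : Fin N → (Fin (n + 1) → ℝ) → ℂ} (hψm : ∀ k, Measurable (ψ k))
    (hψ : ∀ k x, ψ k x = ∑ i, pie (pph a b) (pg g) (k, i) x) (r : ℝ) (hr : 0 < r) :
    ∫⁻ u, ∫⁻ v, (∑ p, ‖cf (pph a b) p u * cut (pg g p) v‖ₑ ^ 2) ^ r ∂volume ∂(mun n) =
      ∫⁻ x, (∑ k, ‖ψ k x‖ₑ ^ 2) ^ r ∂(mun (n + 1)) := by
  have hFm : Measurable fun x : Fin (n + 1) → ℝ => (∑ k, ‖ψ k x‖ₑ ^ 2) ^ r :=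
    (Finset.measurable_sum Finset.univ fun k _ => (hψm k).enorm.pow_const 2).pow_const _
  have hFm2 : Measurable fun z : ℝ × (Fin n → ℝ) =>
      (∑ k, ‖ψ k (Fin.cons z.1 z.2)‖ₑ ^ 2) ^ r := hFm.comp (cons_meas n)
  have hsw : ∫⁻ a, ∫⁻ v, (∑ k, ‖ψ k (Fin.cons a v)‖ₑ ^ 2) ^ r ∂(mun n) ∂mu =
      ∫⁻ v, ∫⁻ a, (∑ k, ‖ψ k (Fin.cons a v)‖ₑ ^ 2) ^ r ∂mu ∂(mun n) :=
    lintegral_lintegral_swap hFm2.aemeasurable
  rw [lint_succ_mun n _ hFm, hsw]
  apply lintegral_congr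
  intro u
  rw [mu_Icc, ← lintegral_indicator measurableSet_Icc]
  apply lintegral_congr
  intro v
  by_cases hv : v ∈ Icc (-1 : ℝ) 1
  · rw [indicator_of_mem hv]
    congr 1
    rw [Fintype.sum_prod_type]
    apply Finset.sum_congr rfl
    intro k _
    rw [hψ, ← sum_pie_sq g hdj]
    apply Finset.sum_congr rfl
    intro i _
    unfold pie cut
    rw [indicator_of_mem hv, Fin.cons_zero, Fin.tail_cons]
  · rw [indicator_of_notMem hv]
    unfold cut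
    simp [indicator_of_notMem hv, hr]

theorem rnd_main (n : ℕ) (hn : 1 ≤ n) (q : ℝ) (hq : 2 * ((n : ℝ) + 2) / (n + 1) < q) :
    ∃ C : ℝ≥0∞, C ≠ ⊤ ∧ ∀ (m : ℕ), 1 ≤ m → ∀ (N : ℕ) (ψ : Fin N → (Fin (n + 1) → ℝ) → ℂ),
      (∀ k, Boxes n m (ψ k)) →
      ∑ ε : Fin N → Bool, ∫⁻ y, ‖Pool.Agent.H728R3.SR.ext
          (fun x => ∑ k, (sg (ε k) : ℂ) * ψ k x) y‖ₑ ^ q ≤
        C * (m : ℝ≥0∞) ^ (q / 2) * ∑ ε : Fin N → Bool,
          ∫⁻ x in Icc (fun _ : Fin (n + 1) => (-1 : ℝ)) (fun _ => 1),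
            ‖∑ k, (sg (ε k) : ℂ) * ψ k x‖ₑ ^ q := by
  obtain ⟨C, hC, hsq⟩ := sqf n hn q hq 1 (by simp)
  have hq2 : 2 < q := by
    have hn' : (1 : ℝ) ≤ n := by exact_mod_cast hn
    exact (consts3 n q hn' hq).1
  have hq0 : 0 < q := by linarith
  have hr : 0 < q / 2 := by linarith
  have hK1 : ENNReal.ofReal (K1 q) ≠ ⊤ := ENNReal.ofReal_ne_top
  refine ⟨ENNReal.ofReal (K1 q) * C + 1, ENNReal.add_ne_top.2 ⟨ENNReal.mul_ne_top hK1 hC, by simp⟩,
    ?_⟩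
  intro m hm N ψ hBox
  choose a b g hab hdj hgm hψ0 using hBox
  have hψ : ∀ k x, ψ k x = ∑ i, pie (pph a b) (pg g) (k, i) x := fun k x =>
    (hψ0 k x).trans (psi_eq a b g k x)
  have hDom : ∀ p i, Dom 1 (pph a b p i) := fun p i => ph_dom _ _ (hab p.1 p.2) i
  have hpm : ∀ p i, Measurable (pph a b p i) := fun p i => (hDom p i).1
  have hgm' : ∀ p, Measurable (pg g p) := fun p => hgm p.1 p.2
  have hpiem : ∀ p, Measurable (pie (pph a b) (pg g) p) := pie_meas hpm hgm'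
  have hψm : ∀ k, Measurable (ψ k) := by
    intro k
    have : ψ k = fun x => ∑ i, pie (pph a b) (pg g) (k, i) x := funext (hψ k)
    rw [this]
    exact Finset.measurable_sum Finset.univ fun i _ => hpiem (k, i)
  have hm0 : (m : ℝ≥0∞) ^ (q / 2) ≠ 0 := by
    rw [Ne, ENNReal.rpow_eq_zero_iff]
    rintro (⟨h, _⟩ | ⟨h, _⟩)
    · rw [Nat.cast_eq_zero] at h
      omega
    · simp at h
  have hmt : (m : ℝ≥0∞) ^ (q / 2) ≠ ⊤ := ENNReal.rpow_ne_top_of_nonneg hr.le (by simp)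
  rw [mun_cube]
  set T := ∑ ε : Fin N → Bool, ∫⁻ x, ‖∑ k, (sg (ε k) : ℂ) * ψ k x‖ₑ ^ q ∂(mun (n + 1)) with hT
  set S := ∫⁻ x, (∑ k, ‖ψ k x‖ₑ ^ 2) ^ (q / 2) ∂(mun (n + 1)) with hS
  set A : ℝ≥0∞ := 2 ^ N with hA
  have hA0 : A ≠ 0 := by rw [hA]; simp
  have hAt : A ≠ ⊤ := by rw [hA]; simp
  have hAS : A * S ≤ T := by
    rw [hS, hT, ← lintegral_const_mul' _ _ hAt, ← lintegral_finsetSum]
    · apply lintegral_mono
      intro x
      have h5 := kh_low q hq2.le (fun k => ψ k x)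
      rw [Fintype.card_fin] at h5
      exact h5
    · intro ε _
      exact (Finset.measurable_sum Finset.univ fun k _ => (hψm k).const_mul _).enorm.pow_const q
  by_cases hTt : T = ⊤
  · rw [hTt, ENNReal.mul_top]
    · exact le_top
    · apply mul_ne_zero _ hm0
      simp
  have hSt : S ≠ ⊤ := by
    intro h
    rw [h, ENNReal.mul_top hA0, top_le_iff] at hAS
    exact hTt hAS
  have hle1 : ∀ k x, ‖ψ k x‖ₑ ^ 2 ≤ ∑ k, ‖ψ k x‖ₑ ^ 2 := fun k x =>
    Finset.single_le_sum (f := fun k => ‖ψ k x‖ₑ ^ 2) (fun _ _ => zero_le) (Finset.mem_univ k)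
  have hle2 : ∀ k i x, ‖pie (pph a b) (pg g) (k, i) x‖ₑ ^ 2 ≤ ‖ψ k x‖ₑ ^ 2 := by
    intro k i x
    rw [hψ k x, ← sum_pie_sq g hdj]
    exact Finset.single_le_sum (f := fun i => ‖pie (pph a b) (pg g) (k, i) x‖ₑ ^ 2)
      (fun _ _ => zero_le) (Finset.mem_univ i)
  have hψi : ∀ k, Integrable (ψ k) (volume.restrict
      (Icc (fun _ : Fin (n + 1) => (-1 : ℝ)) (fun _ => 1))) := by
    intro k
    rw [mun_cube]
    apply fin_int _ _ (hψm k) q (by linarith)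
    apply ne_top_of_le_ne_top hSt
    apply lintegral_mono
    intro x
    simp only
    rw [← sq_rpow]
    exact ENNReal.rpow_le_rpow (hle1 k x) hr.le
  have hpi : ∀ p, Integrable (pie (pph a b) (pg g) p) (volume.restrict
      (Icc (fun _ : Fin (n + 1) => (-1 : ℝ)) (fun _ => 1))) := by
    intro p
    rw [mun_cube]
    apply fin_int _ _ (hpiem p) q (by linarith)
    apply ne_top_of_le_ne_top hSt
    apply lintegral_mono
    intro x
    simp only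
    rw [← sq_rpow]
    exact ENNReal.rpow_le_rpow ((hle2 p.1 p.2 x).trans (hle1 p.1 x)) hr.le
  have hext1 : ∀ k y, Pool.Agent.H728R3.SR.ext (ψ k) y =
      ∑ i, ZT (pph a b) (pg g) (k, i) y := by
    intro k y
    have h1 := ext_lin (fun i => pie (pph a b) (pg g) (k, i)) (fun _ : Fin m => (1 : ℂ))
      (fun i => hpi (k, i)) y
    simp only [one_mul] at h1
    have h2 : ψ k = fun x => ∑ i, pie (pph a b) (pg g) (k, i) x := funext (hψ k)
    rw [h2, h1]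
    apply Finset.sum_congr rfl
    intro i _
    exact ext_pie _ _ _ _
  have hext2 : ∀ (ε : Fin N → Bool) y, Pool.Agent.H728R3.SR.ext
      (fun x => ∑ k, (sg (ε k) : ℂ) * ψ k x) y =
      ∑ k, (sg (ε k) : ℂ) * Pool.Agent.H728R3.SR.ext (ψ k) y := fun ε y =>
    ext_lin ψ _ hψi y
  have hem : ∀ k, Measurable (Pool.Agent.H728R3.SR.ext (ψ k)) := by
    intro k
    have : Pool.Agent.H728R3.SR.ext (ψ k) = fun y => ∑ i, ZT (pph a b) (pg g) (k, i) y :=
      funext (hext1 k)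
    rw [this]
    exact Finset.measurable_sum Finset.univ fun i _ => ZT_meas hpm hgm' (k, i)
  have hs := hsq (Fin N × Fin m) (pph a b) (pg g) hDom hgm'
  rw [cube_mass hdj hψm hψ (q / 2) hr, ← hS] at hs
  have hpt : ∀ y, (∑ k, ‖Pool.Agent.H728R3.SR.ext (ψ k) y‖ₑ ^ 2) ^ (q / 2) ≤
      (m : ℝ≥0∞) ^ (q / 2) * (∑ p, ‖ZT (pph a b) (pg g) p y‖ₑ ^ 2) ^ (q / 2) := by
    intro y
    rw [← ENNReal.mul_rpow_of_nonneg _ _ hr.le]
    apply ENNReal.rpow_le_rpow _ hr.le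
    rw [Fintype.sum_prod_type, Finset.mul_sum]
    apply Finset.sum_le_sum
    intro k _
    rw [hext1]
    have := csq (fun i => ZT (pph a b) (pg g) (k, i) y)
    rwa [Fintype.card_fin] at this
  simp only [hext2]
  calc ∑ ε : Fin N → Bool, ∫⁻ y, ‖∑ k, (sg (ε k) : ℂ) * Pool.Agent.H728R3.SR.ext (ψ k) y‖ₑ ^ q
      = ∫⁻ y, ∑ ε : Fin N → Bool, ‖∑ k, (sg (ε k) : ℂ) * Pool.Agent.H728R3.SR.ext (ψ k) y‖ₑ ^ q := by
        rw [lintegral_finsetSum]
        intro ε _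
        exact (Finset.measurable_sum Finset.univ fun k _ => (hem k).const_mul _).enorm.pow_const q
    _ ≤ ∫⁻ y, A * (ENNReal.ofReal (K1 q) * ((m : ℝ≥0∞) ^ (q / 2) *
        (∑ p, ‖ZT (pph a b) (pg g) p y‖ₑ ^ 2) ^ (q / 2))) := by
        apply lintegral_mono
        intro y
        have h5 := khinchine q hq0 (fun k => Pool.Agent.H728R3.SR.ext (ψ k) y)
        rw [Fintype.card_fin] at h5
        refine h5.trans ?_
        exact mul_le_mul_right (mul_le_mul_right (hpt y) _) _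
    _ = A * (ENNReal.ofReal (K1 q) * ((m : ℝ≥0∞) ^ (q / 2) *
        ∫⁻ y, (∑ p, ‖ZT (pph a b) (pg g) p y‖ₑ ^ 2) ^ (q / 2))) := by
        rw [lintegral_const_mul' _ _ hAt, lintegral_const_mul' _ _ hK1,
          lintegral_const_mul' _ _ hmt]
    _ ≤ A * (ENNReal.ofReal (K1 q) * ((m : ℝ≥0∞) ^ (q / 2) * (C * S))) := by
        refine mul_le_mul_right (mul_le_mul_right (mul_le_mul_right ?_ _) _) _
        exact hs
    _ = (ENNReal.ofReal (K1 q) * C) * (m : ℝ≥0∞) ^ (q / 2) * (A * S) := by ring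
    _ ≤ (ENNReal.ofReal (K1 q) * C + 1) * (m : ℝ≥0∞) ^ (q / 2) * T := by
        gcongr
        exact le_self_add

end Pool.Agent.R246.Rnd
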