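import Mathlib

/-!
# The function `1 + (iε - πε²/8) cos πx` on `[-1/2, 1/2]`
-/

namespace Pool.Agent.R246.Smooth

open MeasureTheory Complex Set Filter Topology FourierTransform
open scoped ENNReal

noncomputable section

/-- the unit interval centred at the origin -/
abbrev Iv : Set ℝ := Icc (-(1 / 2)) (1 / 2)

/-- the perturbed function -/
def w (κ : ℂ) : ℝ → ℂ := Iv.indicator fun x => 1 + κ * Real.cos (Real.pi * x)

/-- real sine integral -/
def J (ξ : ℝ) : ℝ := ∫ x in (-(1 / 2) : ℝ)..(1 / 2), Real.sin (Real.pi * x) * Real.sin (2 * Real.pi * ξ * x)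

def g (ξ : ℝ) : ℝ := Real.pi * J ξ

lemma integrable_w (κ : ℂ) : Integrable (w κ) := by
  unfold w
  rw [integrable_indicator_iff measurableSet_Icc]
  exact (Continuous.continuousOn (by fun_prop)).integrableOn_compact isCompact_Icc

lemma odd_int {f : ℝ → ℝ} (hf : ∀ x, f (-x) = -f x) :
    ∫ x in (-(1 / 2) : ℝ)..(1 / 2), f x = 0 := by
  have h1 := intervalIntegral.integral_comp_neg (a := (-(1 / 2) : ℝ)) (b := 1 / 2) f
  rw [neg_neg] at h1
  simp only [hf] at h1
  rw [intervalIntegral.integral_neg] at h1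
  linarith

lemma four (κ : ℂ) (ξ : ℝ) : (ξ : ℂ) * 𝓕 (w κ) ξ =
    (1 / (2 * Real.pi) : ℂ) * (2 * (Real.sin (Real.pi * ξ) : ℂ) + κ * (g ξ : ℂ)) := by
  -- the Fourier transform as an interval integral
  have h1 : 𝓕 (w κ) ξ = ∫ x in (-(1 / 2) : ℝ)..(1 / 2), cexp (-(2 * Real.pi * I * ξ) * x) *
      (1 + κ * Real.cos (Real.pi * x)) := by
    rw [Real.fourier_eq, intervalIntegral.integral_of_le (by norm_num), ← integral_Icc_eq_integral_Ioc,
      ← integral_indicator measurableSet_Icc]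
    refine integral_congr_ae (Eventually.of_forall fun x => ?_)
    show (Real.fourierChar (-(inner ℝ x ξ))) • w κ x = Iv.indicator _ x
    unfold w
    by_cases hx : x ∈ Iv
    · rw [indicator_of_mem hx, indicator_of_mem hx, Circle.smul_def, Real.fourierChar_apply,
        smul_eq_mul]
      congr 2
      simp
      ring
    · rw [indicator_of_notMem hx, indicator_of_notMem hx, smul_zero]
  set e : ℝ → ℂ := fun x => cexp (-(2 * Real.pi * I * ξ) * x) with he
  have hec : Continuous e := by fun_prop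
  have hed : ∀ x : ℝ, HasDerivAt e (-(2 * Real.pi * I * ξ) * e x) x := by
    intro x
    have h2 : HasDerivAt (fun x : ℝ => -(2 * (Real.pi : ℂ) * I * ξ) * (x : ℂ))
        (-(2 * Real.pi * I * ξ)) x := by
      have := (Complex.ofRealCLM.hasDerivAt (x := x)).const_mul (-(2 * (Real.pi : ℂ) * I * ξ))
      simpa using this
    have h3 := h2.cexp
    refine h3.congr_deriv ?_
    rw [he]; ring
  have hcd : ∀ x : ℝ, HasDerivAt (fun x : ℝ => (1 : ℂ) + κ * Real.cos (Real.pi * x))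
      (κ * (-(Real.pi * Real.sin (Real.pi * x)) : ℝ)) x := by
    intro x
    have h2 : HasDerivAt (fun x : ℝ => Real.cos (Real.pi * x)) (-(Real.pi * Real.sin (Real.pi * x))) x := by
      have h3 : HasDerivAt (fun x : ℝ => Real.pi * x) Real.pi x := by
        simpa using (hasDerivAt_id x).const_mul Real.pi
      have := h3.cos
      refine this.congr_deriv ?_
      ring
    exact (h2.ofReal_comp.const_mul κ).const_add 1
  have hF : ∀ x : ℝ, HasDerivAt (fun x : ℝ => e x * (1 + κ * Real.cos (Real.pi * x)))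
      ((-(2 * Real.pi * I * ξ) * e x) * (1 + κ * Real.cos (Real.pi * x)) +
        e x * (κ * (-(Real.pi * Real.sin (Real.pi * x)) : ℝ))) x := fun x => (hed x).mul (hcd x)
  have hint := intervalIntegral.integral_eq_sub_of_hasDerivAt
    (a := (-(1 / 2) : ℝ)) (b := 1 / 2) (fun x _ => hF x)
    (Continuous.intervalIntegrable (by fun_prop) _ _)
  rw [intervalIntegral.integral_add (Continuous.intervalIntegrable (by fun_prop) _ _)
    (Continuous.intervalIntegrable (by fun_prop) _ _)] at hint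
  have e1 : ∫ x in (-(1 / 2) : ℝ)..(1 / 2), (-(2 * Real.pi * I * ξ) * e x) *
      (1 + κ * Real.cos (Real.pi * x)) = -(2 * Real.pi * I * ξ) * 𝓕 (w κ) ξ := by
    rw [h1, ← intervalIntegral.integral_const_mul]
    refine intervalIntegral.integral_congr fun x _ => ?_
    simp only [he]; ring
  have e2 : ∫ x in (-(1 / 2) : ℝ)..(1 / 2), e x * (κ * (-(Real.pi * Real.sin (Real.pi * x)) : ℝ)) =
      κ * I * g ξ := by
    have e3 : ∀ x : ℝ, e x * (κ * (-(Real.pi * Real.sin (Real.pi * x)) : ℝ)) =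
        (-(κ * Real.pi)) * ((Real.sin (Real.pi * x) * Real.cos (2 * Real.pi * ξ * x) : ℝ) : ℂ) +
        (κ * Real.pi * I) *
          ((Real.sin (Real.pi * x) * Real.sin (2 * Real.pi * ξ * x) : ℝ) : ℂ) := by
      intro x
      have e4 : e x = Real.cos (2 * Real.pi * ξ * x) - Real.sin (2 * Real.pi * ξ * x) * I := by
        rw [he]
        have : -(2 * (Real.pi : ℂ) * I * ξ) * x = ((-(2 * Real.pi * ξ * x) : ℝ) : ℂ) * I := by
          push_cast; ring
        simp only [this]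
        rw [Complex.exp_mul_I, ← Complex.ofReal_cos, ← Complex.ofReal_sin, Real.cos_neg,
          Real.sin_neg]
        push_cast; ring
      rw [e4]; push_cast; ring
    simp only [e3]
    rw [intervalIntegral.integral_add (Continuous.intervalIntegrable (by fun_prop) _ _)
      (Continuous.intervalIntegrable (by fun_prop) _ _), intervalIntegral.integral_const_mul,
      intervalIntegral.integral_const_mul, intervalIntegral.integral_ofReal,
      intervalIntegral.integral_ofReal, odd_int (f := fun x : ℝ => Real.sin (Real.pi * x) *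
        Real.cos (2 * Real.pi * ξ * x)) (by
          intro x
          rw [mul_neg, mul_neg, Real.sin_neg, Real.cos_neg]; ring)]
    unfold g J
    push_cast
    ring
  have e5 : e (1 / 2) * (1 + κ * Real.cos (Real.pi * (1 / 2))) -
      e (-(1 / 2)) * (1 + κ * Real.cos (Real.pi * (-(1 / 2)))) =
      -(2 * I * Real.sin (Real.pi * ξ)) := by
    have c1 : Real.cos (Real.pi * (1 / 2)) = 0 := by
      rw [mul_one_div]; exact Real.cos_pi_div_two
    have c2 : Real.cos (Real.pi * (-(1 / 2))) = 0 := by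
      rw [mul_neg, Real.cos_neg]; exact c1
    rw [c1, c2]
    have c3 : e (1 / 2) = Real.cos (Real.pi * ξ) - Real.sin (Real.pi * ξ) * I := by
      rw [he]
      have : -(2 * (Real.pi : ℂ) * I * ξ) * ((1 / 2 : ℝ) : ℂ) = ((-(Real.pi * ξ) : ℝ) : ℂ) * I := by
        push_cast; ring
      simp only [this]
      rw [Complex.exp_mul_I, ← Complex.ofReal_cos, ← Complex.ofReal_sin, Real.cos_neg,
        Real.sin_neg]
      push_cast; ring
    have c4 : e (-(1 / 2)) = Real.cos (Real.pi * ξ) + Real.sin (Real.pi * ξ) * I := by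
      rw [he]
      have : -(2 * (Real.pi : ℂ) * I * ξ) * ((-(1 / 2) : ℝ) : ℂ) = ((Real.pi * ξ : ℝ) : ℂ) * I := by
        push_cast; ring
      simp only [this]
      rw [Complex.exp_mul_I, ← Complex.ofReal_cos, ← Complex.ofReal_sin]
    rw [c3, c4]
    push_cast
    ring
  rw [e1, e2, e5] at hint
  have hpi : (Real.pi : ℂ) ≠ 0 := by exact_mod_cast Real.pi_pos.ne'
  have hI : I ≠ 0 := Complex.I_ne_zero
  have h6 : I * (2 * Real.pi * (ξ * 𝓕 (w κ) ξ)) =
      I * (2 * Real.sin (Real.pi * ξ) + κ * g ξ) := by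
    linear_combination -hint
  have h7 := mul_left_cancel₀ hI h6
  rw [← h7]
  field_simp

/-- closed form of `g` without division -/
lemma g_eq (ξ : ℝ) : (1 - 4 * ξ ^ 2) * g ξ = 4 * ξ * Real.cos (Real.pi * ξ) := by
  have hd : ∀ x : ℝ, HasDerivAt (fun x : ℝ => -(Real.cos (Real.pi * x) *
      Real.sin (2 * Real.pi * ξ * x)) + 2 * ξ * (Real.sin (Real.pi * x) *
      Real.cos (2 * Real.pi * ξ * x)))
      (Real.pi * (1 - 4 * ξ ^ 2) * (Real.sin (Real.pi * x) * Real.sin (2 * Real.pi * ξ * x))) x := by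
    intro x
    have a1 : HasDerivAt (fun x : ℝ => Real.pi * x) Real.pi x := by
      simpa using (hasDerivAt_id x).const_mul Real.pi
    have a2 : HasDerivAt (fun x : ℝ => 2 * Real.pi * ξ * x) (2 * Real.pi * ξ) x := by
      simpa using (hasDerivAt_id x).const_mul (2 * Real.pi * ξ)
    have h := ((a1.cos.mul a2.sin).neg).add ((a1.sin.mul a2.cos).const_mul (2 * ξ))
    refine HasDerivAt.congr_deriv (show HasDerivAt (fun x : ℝ => -(Real.cos (Real.pi * x) *
      Real.sin (2 * Real.pi * ξ * x)) + 2 * ξ * (Real.sin (Real.pi * x) *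
      Real.cos (2 * Real.pi * ξ * x))) _ x from h) ?_
    ring
  have hint := intervalIntegral.integral_eq_sub_of_hasDerivAt
    (a := (-(1 / 2) : ℝ)) (b := 1 / 2) (fun x _ => hd x)
    (Continuous.intervalIntegrable (by fun_prop) _ _)
  rw [intervalIntegral.integral_const_mul] at hint
  have c1 : Real.cos (Real.pi * (1 / 2)) = 0 := by
    rw [mul_one_div]; exact Real.cos_pi_div_two
  have c2 : Real.cos (Real.pi * (-(1 / 2))) = 0 := by
    rw [mul_neg, Real.cos_neg]; exact c1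
  have s1 : Real.sin (Real.pi * (1 / 2)) = 1 := by
    rw [mul_one_div]; exact Real.sin_pi_div_two
  have s2 : Real.sin (Real.pi * (-(1 / 2))) = -1 := by
    rw [mul_neg, Real.sin_neg, s1]
  have c3 : Real.cos (2 * Real.pi * ξ * (1 / 2)) = Real.cos (Real.pi * ξ) := by
    congr 1; ring
  have c4 : Real.cos (2 * Real.pi * ξ * (-(1 / 2))) = Real.cos (Real.pi * ξ) := by
    rw [show 2 * Real.pi * ξ * (-(1 / 2)) = -(Real.pi * ξ) by ring, Real.cos_neg]
  rw [c1, c2, s1, s2, c3, c4] at hint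
  unfold g J
  linarith

lemma g_neg (ξ : ℝ) : g (-ξ) = -g ξ := by
  unfold g J
  rw [← mul_neg, ← intervalIntegral.integral_neg]
  congr 1
  refine intervalIntegral.integral_congr fun x _ => ?_
  rw [show 2 * Real.pi * -ξ * x = -(2 * Real.pi * ξ * x) by ring, Real.sin_neg]
  ring

lemma abs_int_le {f : ℝ → ℝ} {C : ℝ} (h : ∀ x, |x| ≤ 1 / 2 → |f x| ≤ C) :
    |∫ x in (-(1 / 2) : ℝ)..(1 / 2), f x| ≤ C := by
  have h1 := intervalIntegral.norm_integral_le_of_norm_le_const (a := (-(1 / 2) : ℝ)) (b := 1 / 2)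
    (f := f) (C := C) (by
      intro x hx
      rw [uIoc_of_le (by norm_num)] at hx
      exact h x (abs_le.2 ⟨hx.1.le, hx.2⟩))
  rw [Real.norm_eq_abs] at h1
  have : |(1 / 2 : ℝ) - -(1 / 2)| = 1 := by norm_num
  rw [this, mul_one] at h1
  exact h1

lemma abs_g_le (ξ : ℝ) : |g ξ| ≤ Real.pi := by
  unfold g J
  rw [abs_mul, abs_of_pos Real.pi_pos]
  refine mul_le_of_le_one_right Real.pi_pos.le (abs_int_le fun x _ => ?_)
  rw [abs_mul]
  exact mul_le_one₀ (Real.abs_sin_le_one _) (abs_nonneg _) (Real.abs_sin_le_one _)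

lemma g_half : g (1 / 2) = Real.pi / 2 := by
  have h1 : J (1 / 2) = 1 / 2 := by
    unfold J
    have e1 : ∀ x : ℝ, Real.sin (Real.pi * x) * Real.sin (2 * Real.pi * (1 / 2) * x) =
        1 / 2 - Real.cos (2 * Real.pi * x) / 2 := by
      intro x
      rw [show 2 * Real.pi * (1 / 2) * x = Real.pi * x by ring,
        show 2 * Real.pi * x = 2 * (Real.pi * x) by ring, Real.cos_two_mul, ← sq, Real.sin_sq]
      ring
    simp only [e1]
    have hd : ∀ x : ℝ, HasDerivAt (fun x : ℝ => x / 2 - Real.sin (2 * Real.pi * x) / (4 * Real.pi))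
        (1 / 2 - Real.cos (2 * Real.pi * x) / 2) x := by
      intro x
      have a1 : HasDerivAt (fun x : ℝ => 2 * Real.pi * x) (2 * Real.pi) x := by
        simpa using (hasDerivAt_id x).const_mul (2 * Real.pi)
      have h := ((hasDerivAt_id x).div_const 2).sub (a1.sin.div_const (4 * Real.pi))
      refine HasDerivAt.congr_deriv (show HasDerivAt (fun x : ℝ => x / 2 -
        Real.sin (2 * Real.pi * x) / (4 * Real.pi)) _ x from h) ?_
      have := Real.pi_pos.ne'
      field_simp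
      ring
    have hint := intervalIntegral.integral_eq_sub_of_hasDerivAt
      (a := (-(1 / 2) : ℝ)) (b := 1 / 2) (fun x _ => hd x)
      (Continuous.intervalIntegrable (by fun_prop) _ _)
    rw [hint, show 2 * Real.pi * (1 / 2) = Real.pi by ring,
      show 2 * Real.pi * (-(1 / 2)) = -Real.pi by ring, Real.sin_neg, Real.sin_pi]
    norm_num
  unfold g
  rw [h1]; ring

lemma abs_g_sub (ξ : ℝ) : |g ξ - Real.pi / 2| ≤ Real.pi ^ 2 * |ξ - 1 / 2| := by
  rw [← g_half]
  unfold g J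
  rw [← mul_sub, ← intervalIntegral.integral_sub (Continuous.intervalIntegrable (by fun_prop) _ _)
    (Continuous.intervalIntegrable (by fun_prop) _ _), abs_mul, abs_of_pos Real.pi_pos,
    show Real.pi ^ 2 * |ξ - 1 / 2| = Real.pi * (Real.pi * |ξ - 1 / 2|) by ring]
  refine mul_le_mul_of_nonneg_left (abs_int_le fun x hx => ?_) Real.pi_pos.le
  rw [← mul_sub, abs_mul]
  have h1 : |Real.sin (2 * Real.pi * ξ * x) - Real.sin (2 * Real.pi * (1 / 2) * x)| ≤
      |2 * Real.pi * ξ * x - 2 * Real.pi * (1 / 2) * x| := Real.abs_sin_sub_sin_le _ _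
  have h2 : |2 * Real.pi * ξ * x - 2 * Real.pi * (1 / 2) * x| =
      2 * Real.pi * |ξ - 1 / 2| * |x| := by
    rw [show 2 * Real.pi * ξ * x - 2 * Real.pi * (1 / 2) * x = 2 * Real.pi * (ξ - 1 / 2) * x by
      ring, abs_mul, abs_mul, abs_of_pos (by positivity : (0:ℝ) < 2 * Real.pi)]
  rw [h2] at h1
  have h3 := Real.abs_sin_le_one (Real.pi * x)
  calc |Real.sin (Real.pi * x)| * |Real.sin (2 * Real.pi * ξ * x) -
        Real.sin (2 * Real.pi * (1 / 2) * x)| ≤ 1 * (2 * Real.pi * |ξ - 1 / 2| * |x|) :=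
        mul_le_mul h3 h1 (abs_nonneg _) zero_le_one
    _ ≤ Real.pi * |ξ - 1 / 2| := by
        have : 0 ≤ Real.pi * |ξ - 1 / 2| := by positivity
        nlinarith

/-- the crucial estimate -/
lemma key (ξ : ℝ) : |g ξ * (g ξ - Real.pi / 2 * Real.sin (Real.pi * ξ))| ≤
    24 * |Real.cos (Real.pi * ξ)| := by
  -- reduce to nonnegative `ξ`
  wlog h0 : 0 ≤ ξ with H
  · have h1 := H (-ξ) (by linarith)
    rw [g_neg, mul_neg, Real.sin_neg, Real.cos_neg] at h1
    rw [show g ξ * (g ξ - Real.pi / 2 * Real.sin (Real.pi * ξ)) =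
      -g ξ * (-g ξ - Real.pi / 2 * -Real.sin (Real.pi * ξ)) by ring]
    exact h1
  have hpi3 : Real.pi ^ 3 < 32 := by
    have := Real.pi_lt_d2
    have h := Real.pi_pos
    nlinarith [sq_nonneg Real.pi, mul_pos h h]
  rcases le_total ξ 1 with h1 | h1
  · -- near `1/2`
    have hcos : 2 * |ξ - 1 / 2| ≤ |Real.cos (Real.pi * ξ)| := by
      have e1 : Real.cos (Real.pi * ξ) = -Real.sin (Real.pi * (ξ - 1 / 2)) := by
        rw [mul_sub, mul_one_div, Real.sin_sub_pi_div_two, neg_neg]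
      rw [e1, abs_neg]
      have e2 : |Real.pi * (ξ - 1 / 2)| ≤ Real.pi / 2 := by
        rw [abs_mul, abs_of_pos Real.pi_pos]
        have : |ξ - 1 / 2| ≤ 1 / 2 := abs_le.2 ⟨by linarith, by linarith⟩
        nlinarith [Real.pi_pos]
      have e3 := Real.mul_abs_le_abs_sin e2
      rw [abs_mul, abs_of_pos Real.pi_pos] at e3
      have e4 : 2 / Real.pi * (Real.pi * |ξ - 1 / 2|) = 2 * |ξ - 1 / 2| := by
        have := Real.pi_pos.ne'
        field_simp
      linarith
    have hsin : |Real.pi / 2 - Real.pi / 2 * Real.sin (Real.pi * ξ)| ≤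
        Real.pi ^ 2 / 2 * |ξ - 1 / 2| := by
      have e1 : Real.sin (Real.pi * (1 / 2)) = 1 := by
        rw [mul_one_div]; exact Real.sin_pi_div_two
      have e2 : Real.pi / 2 - Real.pi / 2 * Real.sin (Real.pi * ξ) =
          Real.pi / 2 * (Real.sin (Real.pi * (1 / 2)) - Real.sin (Real.pi * ξ)) := by rw [e1]; ring
      rw [e2, abs_mul, abs_of_pos (by positivity : (0:ℝ) < Real.pi / 2)]
      have e3 := Real.abs_sin_sub_sin_le (Real.pi * (1 / 2)) (Real.pi * ξ)
      have e4 : |Real.pi * (1 / 2) - Real.pi * ξ| = Real.pi * |ξ - 1 / 2| := by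
        rw [← mul_sub, abs_mul, abs_of_pos Real.pi_pos, abs_sub_comm]
      rw [e4] at e3
      nlinarith [Real.pi_pos]
    have hD : |g ξ - Real.pi / 2 * Real.sin (Real.pi * ξ)| ≤
        3 * Real.pi ^ 2 / 2 * |ξ - 1 / 2| := by
      have := abs_add_le (g ξ - Real.pi / 2)
        (Real.pi / 2 - Real.pi / 2 * Real.sin (Real.pi * ξ))
      rw [sub_add_sub_cancel] at this
      have := abs_g_sub ξ
      linarith
    rw [abs_mul]
    calc |g ξ| * |g ξ - Real.pi / 2 * Real.sin (Real.pi * ξ)| ≤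
        Real.pi * (3 * Real.pi ^ 2 / 2 * |ξ - 1 / 2|) :=
          mul_le_mul (abs_g_le ξ) hD (abs_nonneg _) Real.pi_pos.le
      _ = 3 * Real.pi ^ 3 / 4 * (2 * |ξ - 1 / 2|) := by ring
      _ ≤ 3 * Real.pi ^ 3 / 4 * |Real.cos (Real.pi * ξ)| :=
          mul_le_mul_of_nonneg_left hcos (by positivity)
      _ ≤ 24 * |Real.cos (Real.pi * ξ)| :=
          mul_le_mul_of_nonneg_right (by linarith) (abs_nonneg _)
  · -- far away
    have hg : |g ξ| ≤ 4 / 3 * |Real.cos (Real.pi * ξ)| := by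
      have e1 := g_eq ξ
      have e2 : |1 - 4 * ξ ^ 2| * |g ξ| = 4 * ξ * |Real.cos (Real.pi * ξ)| := by
        rw [← abs_mul, e1, abs_mul, abs_of_nonneg (by linarith : (0:ℝ) ≤ 4 * ξ)]
      have e3 : |1 - 4 * ξ ^ 2| = 4 * ξ ^ 2 - 1 := by
        rw [abs_of_nonpos (by nlinarith)]; ring
      rw [e3] at e2
      have e4 : 3 * ξ ≤ 4 * ξ ^ 2 - 1 := by nlinarith
      have e5 : 3 * ξ * |g ξ| ≤ 4 * ξ * |Real.cos (Real.pi * ξ)| := by
        rw [← e2]; exact mul_le_mul_of_nonneg_right e4 (abs_nonneg _)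
      have hξ : 0 < ξ := by linarith
      have : ξ * (3 * |g ξ|) ≤ ξ * (4 * |Real.cos (Real.pi * ξ)|) := by linarith
      have := le_of_mul_le_mul_left this hξ
      linarith
    have hD : |g ξ - Real.pi / 2 * Real.sin (Real.pi * ξ)| ≤ 5 := by
      have e1 := abs_sub (g ξ) (Real.pi / 2 * Real.sin (Real.pi * ξ))
      have e2 : |Real.pi / 2 * Real.sin (Real.pi * ξ)| ≤ Real.pi / 2 := by
        rw [abs_mul, abs_of_pos (by positivity : (0:ℝ) < Real.pi / 2)]
        exact mul_le_of_le_one_right (by positivity) (Real.abs_sin_le_one _)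
      have e3 := abs_g_le ξ
      have := Real.pi_lt_d2
      linarith
    rw [abs_mul]
    calc |g ξ| * |g ξ - Real.pi / 2 * Real.sin (Real.pi * ξ)| ≤
        (4 / 3 * |Real.cos (Real.pi * ξ)|) * 5 := mul_le_mul hg hD (abs_nonneg _) (by positivity)
      _ ≤ 24 * |Real.cos (Real.pi * ξ)| := by nlinarith [abs_nonneg (Real.cos (Real.pi * ξ))]

/-- the parameter `κ = iε - πε²/8` -/
def kap (ε : ℝ) : ℂ := I * ε - (Real.pi / 8 * ε ^ 2 : ℝ)

/-- the frequency side bound -/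
lemma norm_four_le (ε : ℝ) (ξ : ℝ) :
    ‖(ξ : ℂ) * 𝓕 (w (kap ε)) ξ‖ ≤ 1 / Real.pi * (1 + 10 * ε ^ 4) := by
  rw [four]
  have hpi := Real.pi_pos
  have e1 : 2 * (Real.sin (Real.pi * ξ) : ℂ) + kap ε * (g ξ : ℂ) =
      ((2 * Real.sin (Real.pi * ξ) - Real.pi / 8 * ε ^ 2 * g ξ : ℝ) : ℂ) + ((ε * g ξ : ℝ) : ℂ) * I := by
    unfold kap; push_cast; ring
  have e2 : ‖2 * (Real.sin (Real.pi * ξ) : ℂ) + kap ε * (g ξ : ℂ)‖ ^ 2 =
      (2 * Real.sin (Real.pi * ξ) - Real.pi / 8 * ε ^ 2 * g ξ) ^ 2 + (ε * g ξ) ^ 2 := by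
    rw [e1, Complex.sq_norm, Complex.normSq_add_mul_I]
  have e3 : ‖2 * (Real.sin (Real.pi * ξ) : ℂ) + kap ε * (g ξ : ℂ)‖ ^ 2 ≤
      (2 * (1 + 10 * ε ^ 4)) ^ 2 := by
    rw [e2]
    have k1 := (abs_le.1 (key ξ)).2
    set c := |Real.cos (Real.pi * ξ)| with hc
    have hc2 : c ^ 2 + Real.sin (Real.pi * ξ) ^ 2 = 1 := by
      rw [hc, sq_abs]; exact Real.cos_sq_add_sin_sq _
    have hg2 : g ξ ^ 2 ≤ 10 := by
      have h1 := abs_g_le ξ
      have h2 : g ξ ^ 2 ≤ Real.pi ^ 2 := by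
        rw [← sq_abs (g ξ)]; exact pow_le_pow_left₀ (abs_nonneg _) h1 2
      have h3 : Real.pi ^ 2 < 10 := by nlinarith [Real.pi_lt_d2, Real.pi_pos]
      linarith
    have hpi2 : (Real.pi / 8) ^ 2 ≤ 1 / 5 := by nlinarith [Real.pi_lt_d2, Real.pi_pos]
    have h4 : (Real.pi / 8 * ε ^ 2 * g ξ) ^ 2 ≤ 2 * ε ^ 4 := by
      have : (Real.pi / 8 * ε ^ 2 * g ξ) ^ 2 = (Real.pi / 8) ^ 2 * g ξ ^ 2 * ε ^ 4 := by ring
      rw [this]
      have h5 : (Real.pi / 8) ^ 2 * g ξ ^ 2 ≤ 1 / 5 * 10 :=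
        mul_le_mul hpi2 hg2 (sq_nonneg _) (by norm_num)
      have h6 : 0 ≤ ε ^ 4 := by positivity
      nlinarith
    have h5 : (2 * Real.sin (Real.pi * ξ) - Real.pi / 8 * ε ^ 2 * g ξ) ^ 2 + (ε * g ξ) ^ 2 =
        4 * Real.sin (Real.pi * ξ) ^ 2 + ε ^ 2 * (g ξ * (g ξ - Real.pi / 2 *
          Real.sin (Real.pi * ξ))) + (Real.pi / 8 * ε ^ 2 * g ξ) ^ 2 := by ring
    rw [h5]
    have h6 : ε ^ 2 * (g ξ * (g ξ - Real.pi / 2 * Real.sin (Real.pi * ξ))) ≤ ε ^ 2 * (24 * c) :=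
      mul_le_mul_of_nonneg_left k1 (sq_nonneg _)
    have h7 : 0 ≤ (2 * c - 6 * ε ^ 2) ^ 2 := sq_nonneg _
    have h8 : 0 ≤ ε ^ 4 := by positivity
    nlinarith
  have e4 : ‖2 * (Real.sin (Real.pi * ξ) : ℂ) + kap ε * (g ξ : ℂ)‖ ≤ 2 * (1 + 10 * ε ^ 4) :=
    abs_le_of_sq_le_sq' e3 (by positivity) |>.2
  rw [norm_mul]
  have e5 : ‖(1 / (2 * Real.pi) : ℂ)‖ = 1 / (2 * Real.pi) := by
    rw [show (1 / (2 * Real.pi) : ℂ) = ((1 / (2 * Real.pi) : ℝ) : ℂ) by push_cast; rfl,
      Complex.norm_real, Real.norm_eq_abs, abs_of_pos (by positivity)]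
  rw [e5]
  calc 1 / (2 * Real.pi) * ‖2 * (Real.sin (Real.pi * ξ) : ℂ) + kap ε * (g ξ : ℂ)‖ ≤
      1 / (2 * Real.pi) * (2 * (1 + 10 * ε ^ 4)) := mul_le_mul_of_nonneg_left e4 (by positivity)
    _ = _ := by field_simp

end

end Pool.Agent.R246.Smooth
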