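import Mathlib
import Pool.Agent.R246.Smooth

/-!
# Norms of the perturbed function
-/

namespace Pool.Agent.R246.SmoothB

open MeasureTheory Complex Set Filter Topology FourierTransform
open scoped ENNReal
open Smooth

noncomputable section

/-- the second variation of the modulus -/
def h (x : ℝ) : ℝ := Real.cos (Real.pi * x) ^ 2 / 2 - Real.pi / 8 * Real.cos (Real.pi * x)

lemma continuous_h : Continuous h := by unfold h; fun_prop

lemma cos_mem {x : ℝ} (hx : x ∈ Iv) : 0 ≤ Real.cos (Real.pi * x) ∧ Real.cos (Real.pi * x) ≤ 1 := by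
  refine ⟨Real.cos_nonneg_of_mem_Icc ⟨?_, ?_⟩, Real.cos_le_one _⟩
  · nlinarith [hx.1, Real.pi_pos]
  · nlinarith [hx.2, Real.pi_pos]

lemma norm_w {ε x : ℝ} (hx : x ∈ Iv) : ‖w (kap ε) x‖ =
    Real.sqrt (1 + (ε ^ 2 * (Real.cos (Real.pi * x) ^ 2 - Real.pi / 4 * Real.cos (Real.pi * x)) +
      (Real.pi / 8) ^ 2 * ε ^ 4 * Real.cos (Real.pi * x) ^ 2)) := by
  unfold w
  rw [indicator_of_mem hx]
  have e1 : (1 : ℂ) + kap ε * Real.cos (Real.pi * x) =
      ((1 - Real.pi / 8 * ε ^ 2 * Real.cos (Real.pi * x) : ℝ) : ℂ) +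
        ((ε * Real.cos (Real.pi * x) : ℝ) : ℂ) * I := by
    unfold kap; push_cast; ring
  rw [e1, Complex.norm_add_mul_I]
  congr 1
  ring

lemma norm_w_le {ε x : ℝ} (hx : x ∈ Iv) :
    ‖w (kap ε) x‖ ≤ 1 + ε ^ 2 * h x + ε ^ 4 := by
  rw [norm_w hx]
  obtain ⟨c0, c1⟩ := cos_mem hx
  unfold h
  set c := Real.cos (Real.pi * x)
  set y := ε ^ 2 * (c ^ 2 - Real.pi / 4 * c) + (Real.pi / 8) ^ 2 * ε ^ 4 * c ^ 2 with hy
  have hy1 : 0 ≤ 1 + y := by
    have : 1 + y = (1 - Real.pi / 8 * ε ^ 2 * c) ^ 2 + (ε * c) ^ 2 := by rw [hy]; ring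
    rw [this]; positivity
  have h1 : Real.sqrt (1 + y) ≤ 1 + y / 2 := by
    rw [Real.sqrt_le_left (by linarith)]
    nlinarith [sq_nonneg y]
  have h2 : (Real.pi / 8) ^ 2 * ε ^ 4 * c ^ 2 ≤ 2 * ε ^ 4 := by
    have hp : (Real.pi / 8) ^ 2 ≤ 1 := by nlinarith [Real.pi_lt_d2, Real.pi_pos]
    have hc2 : c ^ 2 ≤ 1 := by nlinarith
    have : 0 ≤ ε ^ 4 := by positivity
    have h3 : (Real.pi / 8) ^ 2 * c ^ 2 ≤ 1 * 1 := mul_le_mul hp hc2 (sq_nonneg _) zero_le_one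
    nlinarith
  have h3 : y / 2 ≤ ε ^ 2 * (c ^ 2 / 2 - Real.pi / 8 * c) + ε ^ 4 := by
    rw [hy]; linarith
  linarith

lemma le_norm_w {ε x : ℝ} (hε : ε ^ 2 ≤ 1) (hx : x ∈ Iv) :
    1 + ε ^ 2 * h x - 2 * ε ^ 4 ≤ ‖w (kap ε) x‖ := by
  rw [norm_w hx]
  obtain ⟨c0, c1⟩ := cos_mem hx
  unfold h
  set c := Real.cos (Real.pi * x)
  set y := ε ^ 2 * (c ^ 2 - Real.pi / 4 * c) + (Real.pi / 8) ^ 2 * ε ^ 4 * c ^ 2 with hy
  have hpi := Real.pi_lt_d2
  have hpi0 := Real.pi_pos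
  have hq : |c ^ 2 - Real.pi / 4 * c| ≤ 1 := by
    rw [abs_le]; constructor <;> nlinarith
  have hr0 : 0 ≤ (Real.pi / 8) ^ 2 * ε ^ 4 * c ^ 2 := by positivity
  have hr : (Real.pi / 8) ^ 2 * ε ^ 4 * c ^ 2 ≤ ε ^ 2 := by
    have hp : (Real.pi / 8) ^ 2 ≤ 1 := by nlinarith
    have hc2 : c ^ 2 ≤ 1 := by nlinarith
    have h3 : (Real.pi / 8) ^ 2 * c ^ 2 ≤ 1 * 1 := mul_le_mul hp hc2 (sq_nonneg _) zero_le_one
    have h4 : 0 ≤ ε ^ 2 := sq_nonneg _
    have h5 : ε ^ 4 ≤ ε ^ 2 := by nlinarith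
    have h6 : 0 ≤ ε ^ 4 := by positivity
    nlinarith
  have hyabs : |y| ≤ 2 * ε ^ 2 := by
    have h1 : |ε ^ 2 * (c ^ 2 - Real.pi / 4 * c)| ≤ ε ^ 2 * 1 := by
      rw [abs_mul, abs_of_nonneg (sq_nonneg ε)]
      exact mul_le_mul_of_nonneg_left hq (sq_nonneg _)
    have h2 : |(Real.pi / 8) ^ 2 * ε ^ 4 * c ^ 2| ≤ ε ^ 2 := by rwa [abs_of_nonneg hr0]
    have := abs_add_le (ε ^ 2 * (c ^ 2 - Real.pi / 4 * c)) ((Real.pi / 8) ^ 2 * ε ^ 4 * c ^ 2)
    rw [hy]; linarith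
  have hyge : -1 ≤ y := by
    have : 1 + y = (1 - Real.pi / 8 * ε ^ 2 * c) ^ 2 + (ε * c) ^ 2 := by rw [hy]; ring
    have h2 : 0 ≤ 1 + y := by rw [this]; positivity
    linarith
  have hyle : y ≤ 3 := by
    have := (abs_le.1 hyabs).2
    linarith
  have hmain : 1 + y / 2 - y ^ 2 / 2 ≤ Real.sqrt (1 + y) := by
    apply Real.le_sqrt_of_sq_le
    have : 0 ≤ y ^ 2 * ((3 - y) * (1 + y)) := by
      refine mul_nonneg (sq_nonneg _) (mul_nonneg (by linarith) (by linarith))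
    nlinarith
  have hy2 : y ^ 2 ≤ 4 * ε ^ 4 := by
    have : y ^ 2 ≤ (2 * ε ^ 2) ^ 2 := by
      rw [← sq_abs y]; exact pow_le_pow_left₀ (abs_nonneg _) hyabs 2
    nlinarith
  have hylow : ε ^ 2 * (c ^ 2 / 2 - Real.pi / 8 * c) ≤ y / 2 := by
    rw [hy]; linarith
  linarith

lemma int_h : ∫ x in (-(1 / 2) : ℝ)..(1 / 2), h x = 0 := by
  have e1 : ∀ x : ℝ, h x = 1 / 4 + Real.cos (2 * Real.pi * x) / 4 -
      Real.pi / 8 * Real.cos (Real.pi * x) := by
    intro x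
    unfold h
    rw [show 2 * Real.pi * x = 2 * (Real.pi * x) by ring, Real.cos_two_mul]
    ring
  have hd : ∀ x : ℝ, HasDerivAt (fun x : ℝ => x / 4 + Real.sin (2 * Real.pi * x) / (8 * Real.pi) -
      Real.sin (Real.pi * x) / 8) (h x) x := by
    intro x
    have a1 : HasDerivAt (fun x : ℝ => 2 * Real.pi * x) (2 * Real.pi) x := by
      simpa using (hasDerivAt_id x).const_mul (2 * Real.pi)
    have a2 : HasDerivAt (fun x : ℝ => Real.pi * x) Real.pi x := by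
      simpa using (hasDerivAt_id x).const_mul Real.pi
    have h1 := (((hasDerivAt_id x).div_const 4).add (a1.sin.div_const (8 * Real.pi))).sub
      (a2.sin.div_const 8)
    refine HasDerivAt.congr_deriv (show HasDerivAt (fun x : ℝ => x / 4 +
      Real.sin (2 * Real.pi * x) / (8 * Real.pi) - Real.sin (Real.pi * x) / 8) _ x from h1) ?_
    rw [e1]
    have := Real.pi_pos.ne'
    field_simp
    ring
  have hint := intervalIntegral.integral_eq_sub_of_hasDerivAt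
    (a := (-(1 / 2) : ℝ)) (b := 1 / 2) (fun x _ => hd x)
    (continuous_h.intervalIntegrable _ _)
  rw [hint, show 2 * Real.pi * (1 / 2) = Real.pi by ring,
    show 2 * Real.pi * (-(1 / 2)) = -Real.pi by ring, Real.sin_neg, Real.sin_pi,
    show Real.pi * (1 / 2) = Real.pi / 2 by ring, show Real.pi * (-(1 / 2)) = -(Real.pi / 2) by ring,
    Real.sin_neg, Real.sin_pi_div_two]
  norm_num

/-- the decrease of the weighted norm -/
def cA (α : ℝ) : ℝ := -∫ x in (-(1 / 2) : ℝ)..(1 / 2), |x| ^ α * h x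

def G0 (α : ℝ) : ℝ := ∫ x in (-(1 / 2) : ℝ)..(1 / 2), |x| ^ α

lemma continuous_pow {α : ℝ} (hα : 0 < α) : Continuous fun x : ℝ => |x| ^ α :=
  continuous_abs.rpow_const fun _ => Or.inr hα.le

lemma cA_pos {α : ℝ} (hα : 0 < α) : 0 < cA α := by
  have hpi := Real.pi_pos
  have hpi4 : Real.pi / 4 < 1 := by linarith [Real.pi_lt_d2]
  set θ := Real.arccos (Real.pi / 4) with hθ
  have hcosθ : Real.cos θ = Real.pi / 4 := Real.cos_arccos (by linarith) hpi4.le
  have hθ0 : 0 < θ := Real.arccos_pos.2 hpi4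
  have hθ2 : θ < Real.pi / 2 := Real.arccos_lt_pi_div_two.2 (by positivity)
  set x₀ := θ / Real.pi with hx₀
  have hx₀pos : 0 < x₀ := by positivity
  have hx₀half : x₀ < 1 / 2 := by
    rw [hx₀, div_lt_iff₀ hpi]; linarith
  have hpx : Real.pi * x₀ = θ := by rw [hx₀]; field_simp
  have hca := continuous_pow hα
  -- the nonnegative integrand
  have hsign : ∀ x ∈ Icc (-(1 / 2) : ℝ) (1 / 2), 0 ≤ (x₀ ^ α - |x| ^ α) * h x := by
    intro x hx
    obtain ⟨c0, c1⟩ := cos_mem hx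
    have hh : h x = Real.cos (Real.pi * x) / 2 * (Real.cos (Real.pi * x) - Real.pi / 4) := by
      unfold h; ring
    have habs : Real.cos (Real.pi * x) = Real.cos (Real.pi * |x|) := by
      rw [← Real.cos_abs (Real.pi * x), abs_mul, abs_of_pos hpi]
    have hxle : |x| ≤ 1 / 2 := abs_le.2 hx
    rcases le_total |x| x₀ with h1 | h1
    · have e1 : |x| ^ α ≤ x₀ ^ α := Real.rpow_le_rpow (abs_nonneg _) h1 hα.le
      have e2 : Real.pi / 4 ≤ Real.cos (Real.pi * x) := by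
        rw [habs, ← hcosθ]
        refine Real.cos_le_cos_of_nonneg_of_le_pi (by positivity) (by linarith) ?_
        rw [← hpx]; exact mul_le_mul_of_nonneg_left h1 hpi.le
      rw [hh]
      exact mul_nonneg (by linarith) (mul_nonneg (by linarith) (by linarith))
    · have e1 : x₀ ^ α ≤ |x| ^ α := Real.rpow_le_rpow hx₀pos.le h1 hα.le
      have e2 : Real.cos (Real.pi * x) ≤ Real.pi / 4 := by
        rw [habs, ← hcosθ]
        refine Real.cos_le_cos_of_nonneg_of_le_pi hθ0.le ?_ ?_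
        · nlinarith
        · rw [← hpx]; exact mul_le_mul_of_nonneg_left h1 hpi.le
      rw [hh]
      refine mul_nonneg_of_nonpos_of_nonpos (by linarith) ?_
      exact mul_nonpos_of_nonneg_of_nonpos (by linarith) (by linarith)
  have hcont : Continuous fun x : ℝ => (x₀ ^ α - |x| ^ α) * h x :=
    (continuous_const.sub hca).mul continuous_h
  have hpos : 0 < ∫ x in (-(1 / 2) : ℝ)..(1 / 2), (x₀ ^ α - |x| ^ α) * h x := by
    refine intervalIntegral.integral_pos (by norm_num) hcont.continuousOn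
      (fun x hx => hsign x ⟨hx.1.le, hx.2⟩) ⟨0, ⟨by norm_num, by norm_num⟩, ?_⟩
    have e1 : |(0 : ℝ)| ^ α = 0 := by rw [abs_zero, Real.zero_rpow hα.ne']
    have e2 : h 0 = 1 / 2 - Real.pi / 8 := by unfold h; simp
    rw [e1, e2, sub_zero]
    refine mul_pos (Real.rpow_pos_of_pos hx₀pos _) (by linarith)
  have e3 : ∫ x in (-(1 / 2) : ℝ)..(1 / 2), (x₀ ^ α - |x| ^ α) * h x = cA α := by
    unfold cA
    have e4 : ∀ x : ℝ, (x₀ ^ α - |x| ^ α) * h x = x₀ ^ α * h x - |x| ^ α * h x := by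
      intro x; ring
    simp only [e4]
    have k1 : Continuous fun x : ℝ => x₀ ^ α * h x := continuous_const.mul continuous_h
    have k2 : Continuous fun x : ℝ => |x| ^ α * h x := hca.mul continuous_h
    rw [intervalIntegral.integral_sub (k1.intervalIntegrable _ _)
      (k2.intervalIntegrable _ _), intervalIntegral.integral_const_mul, int_h]
    ring
  rw [← e3]; exact hpos

lemma G0_pos {α : ℝ} (hα : 0 < α) : 0 < G0 α := by
  unfold G0
  refine intervalIntegral.integral_pos (by norm_num) (continuous_pow hα).continuousOn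
    (fun x _ => Real.rpow_nonneg (abs_nonneg _) _) ⟨1 / 2, ⟨by norm_num, by norm_num⟩, ?_⟩
  exact Real.rpow_pos_of_pos (by norm_num) _

lemma lint_eq {f : ℝ → ℝ} (hf : Continuous f) (h0 : ∀ x ∈ Iv, 0 ≤ f x) :
    ∫⁻ x in Iv, ENNReal.ofReal (f x) = ENNReal.ofReal (∫ x in (-(1 / 2) : ℝ)..(1 / 2), f x) := by
  rw [intervalIntegral.integral_of_le (by norm_num), ← integral_Icc_eq_integral_Ioc,
    ofReal_integral_eq_lintegral_ofReal]
  · exact hf.continuousOn.integrableOn_compact isCompact_Icc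
  · exact (ae_restrict_iff' measurableSet_Icc).2 (Eventually.of_forall h0)

lemma weighted_le {α : ℝ} (hα : 0 < α) (ε : ℝ) :
    ∫⁻ x, ENNReal.ofReal (|x| ^ α) * ‖w (kap ε) x‖ₑ ≤
      ENNReal.ofReal (G0 α * (1 + ε ^ 4) - ε ^ 2 * cA α) := by
  have h1 : ∫⁻ x, ENNReal.ofReal (|x| ^ α) * ‖w (kap ε) x‖ₑ =
      ∫⁻ x in Iv, ENNReal.ofReal (|x| ^ α) * ‖w (kap ε) x‖ₑ := by
    rw [← lintegral_indicator measurableSet_Icc]
    refine lintegral_congr fun x => ?_
    by_cases hx : x ∈ Iv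
    · rw [indicator_of_mem hx]
    · rw [indicator_of_notMem hx]
      unfold w
      rw [indicator_of_notMem hx]; simp
  have h2 : ∫⁻ x in Iv, ENNReal.ofReal (|x| ^ α) * ‖w (kap ε) x‖ₑ ≤
      ∫⁻ x in Iv, ENNReal.ofReal (|x| ^ α * (1 + ε ^ 2 * h x + ε ^ 4)) := by
    refine setLIntegral_mono' measurableSet_Icc fun x hx => ?_
    rw [ENNReal.ofReal_mul (Real.rpow_nonneg (abs_nonneg _) _), ← ofReal_norm]
    exact mul_le_mul_right (ENNReal.ofReal_le_ofReal (norm_w_le hx)) _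
  have hca := continuous_pow hα
  have h3 : ∫ x in (-(1 / 2) : ℝ)..(1 / 2), |x| ^ α * (1 + ε ^ 2 * h x + ε ^ 4) =
      G0 α * (1 + ε ^ 4) - ε ^ 2 * cA α := by
    have e4 : ∀ x : ℝ, |x| ^ α * (1 + ε ^ 2 * h x + ε ^ 4) = (1 + ε ^ 4) * |x| ^ α +
        ε ^ 2 * (|x| ^ α * h x) := by intro x; ring
    simp only [e4]
    have k1 : Continuous fun x : ℝ => (1 + ε ^ 4) * |x| ^ α := continuous_const.mul hca
    have k2 : Continuous fun x : ℝ => ε ^ 2 * (|x| ^ α * h x) :=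
      continuous_const.mul (hca.mul continuous_h)
    rw [intervalIntegral.integral_add (k1.intervalIntegrable _ _) (k2.intervalIntegrable _ _),
      intervalIntegral.integral_const_mul, intervalIntegral.integral_const_mul]
    unfold G0 cA
    ring
  have k3 : Continuous fun x : ℝ => |x| ^ α * (1 + ε ^ 2 * h x + ε ^ 4) := by
    have := continuous_h
    exact hca.mul (by fun_prop)
  rw [h1, ← h3, ← lint_eq k3 (fun x hx =>
    mul_nonneg (Real.rpow_nonneg (abs_nonneg _) _) ((norm_nonneg _).trans (norm_w_le hx)))]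
  exact h2

lemma le_norm1 {ε : ℝ} (hε : ε ^ 2 ≤ 1 / 4) :
    ENNReal.ofReal (1 - 2 * ε ^ 4) ≤ ∫⁻ x, ‖w (kap ε) x‖ₑ := by
  have h3 : ∫ x in (-(1 / 2) : ℝ)..(1 / 2), (1 + ε ^ 2 * h x - 2 * ε ^ 4) = 1 - 2 * ε ^ 4 := by
    have e4 : ∀ x : ℝ, 1 + ε ^ 2 * h x - 2 * ε ^ 4 = (1 - 2 * ε ^ 4) + ε ^ 2 * h x := by
      intro x; ring
    simp only [e4]
    have k1 : Continuous fun _ : ℝ => 1 - 2 * ε ^ 4 := continuous_const
    have k2 : Continuous fun x : ℝ => ε ^ 2 * h x := continuous_const.mul continuous_h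
    rw [intervalIntegral.integral_add (k1.intervalIntegrable _ _) (k2.intervalIntegrable _ _),
      intervalIntegral.integral_const_mul, int_h, intervalIntegral.integral_const]
    norm_num
  have hcont : Continuous fun x => 1 + ε ^ 2 * h x - 2 * ε ^ 4 := by
    have := continuous_h; fun_prop
  have hnn : ∀ x ∈ Iv, 0 ≤ 1 + ε ^ 2 * h x - 2 * ε ^ 4 := by
    intro x hx
    obtain ⟨c0, c1⟩ := cos_mem hx
    have h5 : -1 ≤ h x := by
      unfold h
      nlinarith [Real.pi_lt_d2, Real.pi_pos]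
    have h6 : ε ^ 4 ≤ 1 / 16 := by nlinarith [sq_nonneg ε]
    nlinarith [sq_nonneg ε]
  rw [← h3, ← lint_eq hcont hnn]
  calc ∫⁻ x in Iv, ENNReal.ofReal (1 + ε ^ 2 * h x - 2 * ε ^ 4) ≤ ∫⁻ x in Iv, ‖w (kap ε) x‖ₑ := by
        refine setLIntegral_mono' measurableSet_Icc fun x hx => ?_
        rw [← ofReal_norm]
        exact ENNReal.ofReal_le_ofReal (le_norm_w (by linarith) hx)
    _ ≤ ∫⁻ x, ‖w (kap ε) x‖ₑ := setLIntegral_le_lintegral _ _

end

end Pool.Agent.R246.SmoothB
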