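import Mathlib

/-!
# Real functions `φ` such that `exp (i φ / n)` has entire extensions of uniform exponential type
-/

namespace Pool.Agent.R246.WarpA

open Filter Topology Set Complex

noncomputable section

lemma eq_of_real {f g : ℂ → ℂ} (hf : Differentiable ℂ f) (hg : Differentiable ℂ g)
    (h : ∀ t : ℝ, f t = g t) : f = g := by
  have hf' : AnalyticOnNhd ℂ f univ := fun z _ => hf.analyticAt z
  have hg' : AnalyticOnNhd ℂ g univ := fun z _ => hg.analyticAt z
  refine hf'.eq_of_frequently_eq hg' (z₀ := 0) ?_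
  have h1 : Tendsto (fun n : ℕ => (((1 / ((n : ℝ) + 1) : ℝ)) : ℂ)) atTop (𝓝[≠] 0) := by
    rw [tendsto_nhdsWithin_iff]
    constructor
    · have := tendsto_one_div_add_atTop_nhds_zero_nat (𝕜 := ℝ)
      have h2 := (Complex.continuous_ofReal.tendsto 0).comp this
      rw [Complex.ofReal_zero] at h2
      exact h2
    · refine Eventually.of_forall fun n => ?_
      have : ((1 / ((n : ℝ) + 1) : ℝ) : ℂ) ≠ 0 := by
        have : (0 : ℝ) < 1 / ((n : ℝ) + 1) := by positivity
        exact_mod_cast this.ne'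
      exact this
  exact h1.frequently (Frequently.of_forall fun n => h _)

/-- the hypothesis: uniform entire extensions of `exp (± i φ / n)` -/
def HasExt (φ : ℝ → ℝ) (C M : ℝ) : Prop :=
  ∀ s : ℝ, |s| ≤ 1 → ∃ g : ℂ → ℂ, Differentiable ℂ g ∧
    (∀ t : ℝ, g t = Complex.exp (((s * φ t : ℝ) : ℂ) * I)) ∧
    ∀ z, ‖g z‖ ≤ C * Real.exp (M * |z.im|)

theorem affine_of_ext (φ : ℝ → ℝ) (hφ : Continuous φ) (C M : ℝ) (hC : 1 ≤ C) (hM : 0 ≤ M)
    (h : HasExt φ C M) : ∃ a : ℝ, ∀ t, φ t = φ 0 + a * t := by
  have hC0 : 0 < C := by linarith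
  -- extensions
  choose! g hgd hgt hgb using h
  -- group property
  have hmul : ∀ s t : ℝ, |s| ≤ 1 → |t| ≤ 1 → |s + t| ≤ 1 → ∀ z, g s z * g t z = g (s + t) z := by
    intro s t hs ht hst z
    have := eq_of_real ((hgd s hs).mul (hgd t ht)) (hgd (s + t) hst) (by
      intro x
      rw [Pi.mul_apply, hgt s hs, hgt t ht, hgt (s + t) hst, ← Complex.exp_add]
      congr 1
      push_cast; ring)
    exact congrFun this z
  have hzero : ∀ z, g 0 z = 1 := by
    intro z
    have := eq_of_real (hgd 0 (by simp)) (differentiable_const (1 : ℂ)) (by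
      intro x
      rw [hgt 0 (by simp)]; simp)
    exact congrFun this z
  have hinv : ∀ s : ℝ, |s| ≤ 1 → ∀ z, g s z * g (-s) z = 1 := by
    intro s hs z
    rw [hmul s (-s) hs (by rwa [abs_neg]) (by simp), add_neg_cancel, hzero]
  have hpow : ∀ n : ℕ, 0 < n → ∀ ε : ℝ, |ε| = 1 → ∀ z, (g (ε / n) z) ^ n = g ε z := by
    intro n hn ε hε z
    have hn0 : (0 : ℝ) < n := by exact_mod_cast hn
    have h1 : |ε / n| ≤ 1 := by
      rw [abs_div, hε, abs_of_pos hn0, div_le_one hn0]
      exact_mod_cast hn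
    have := eq_of_real ((hgd (ε / n) h1).pow n) (hgd ε hε.le) (by
      intro x
      rw [Pi.pow_apply, hgt _ h1, hgt ε hε.le, ← Complex.exp_nat_mul]
      congr 1
      have : (n : ℂ) ≠ 0 := by exact_mod_cast hn.ne'
      push_cast
      field_simp)
    exact congrFun this z
  -- norm bound for the roots
  have hroot : ∀ n : ℕ, 0 < n → ∀ ε : ℝ, |ε| = 1 → ∀ z,
      ‖g (ε / n) z‖ ≤ (C * Real.exp (M * |z.im|)) ^ (1 / n : ℝ) := by
    intro n hn ε hε z
    have h1 := hgb ε hε.le z
    rw [← hpow n hn ε hε z, norm_pow] at h1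
    have hn0 : (n : ℝ) ≠ 0 := by exact_mod_cast hn.ne'
    have h2 : ‖g (ε / n) z‖ = (‖g (ε / n) z‖ ^ n) ^ (1 / n : ℝ) := by
      rw [← Real.rpow_natCast, ← Real.rpow_mul (norm_nonneg _)]
      rw [mul_one_div_cancel hn0, Real.rpow_one]
    rw [h2]
    exact Real.rpow_le_rpow (by positivity) h1 (by positivity)
  -- the logarithmic derivative
  set G := g 1 with hG
  set H := g (-1) with hH
  have hGd : Differentiable ℂ G := hgd 1 (by simp)
  have hHd : Differentiable ℂ H := hgd (-1) (by simp)
  have hGH : ∀ z, G z * H z = 1 := fun z => hinv 1 (by simp) z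
  set L : ℂ → ℂ := fun z => deriv G z * H z with hL
  have hLd : Differentiable ℂ L := by
    have : Differentiable ℂ (deriv G) := fun z =>
      (hGd.contDiff (n := 2)).differentiable_deriv_two z
    exact this.mul hHd
  have hLn : ∀ n : ℕ, 0 < n → ∀ z, L z = n * (deriv (g (1 / n)) z * g (-(1 / n)) z) := by
    intro n hn z
    have hn0 : (0 : ℝ) < n := by exact_mod_cast hn
    have h1 : |(1 / n : ℝ)| ≤ 1 := by
      rw [abs_of_pos (by positivity), div_le_one hn0]
      exact_mod_cast hn
    have h1' : |(-(1 / n) : ℝ)| ≤ 1 := by rwa [abs_neg]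
    have h2 : G = fun z => (g (1 / n) z) ^ n := by
      funext z
      exact (hpow n hn 1 (by simp) z).symm
    have h3 : H z = (g (-(1 / n)) z) ^ n := by
      have := hpow n hn (-1) (by simp) z
      rw [neg_div] at this
      exact this.symm
    have h4 : deriv G z = n * (g (1 / n) z) ^ (n - 1) * deriv (g (1 / n)) z := by
      rw [h2]
      exact ((hgd (1 / n) h1 z).hasDerivAt.pow n).deriv
    have h5 : g (1 / n) z * g (-(1 / n)) z = 1 := hinv (1 / n) h1 z
    simp only [hL]
    rw [h4, h3]
    obtain ⟨m, rfl⟩ : ∃ m, n = m + 1 := ⟨n - 1, by omega⟩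
    rw [Nat.add_sub_cancel, pow_succ (g (-(1 / ((m + 1 : ℕ) : ℝ))) z)]
    have h6 : (g (1 / ((m + 1 : ℕ) : ℝ)) z) ^ m * (g (-(1 / ((m + 1 : ℕ) : ℝ))) z) ^ m = 1 := by
      rw [← mul_pow, h5, one_pow]
    linear_combination ((m + 1 : ℕ) : ℂ) * deriv (g (1 / ((m + 1 : ℕ) : ℝ))) z *
      g (-(1 / ((m + 1 : ℕ) : ℝ))) z * h6
  -- bound for L
  have hLb : ∀ z, ‖L z‖ ≤ 2 * Real.exp M := by
    intro z
    have key : ∀ n : ℕ, 0 < n → ‖L z‖ ≤
        Real.exp M * (C * Real.exp (M * |z.im|)) ^ (2 / n : ℝ) := by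
      intro n hn
      have hn0 : (0 : ℝ) < n := by exact_mod_cast hn
      have h1 : |(1 / n : ℝ)| ≤ 1 := by
        rw [abs_of_pos (by positivity), div_le_one hn0]
        exact_mod_cast hn
      set B : ℝ := (C * Real.exp (M * (|z.im| + n))) ^ (1 / n : ℝ) with hB
      have hcauchy : ‖deriv (g (1 / n)) z‖ ≤ B / n := by
        refine Complex.norm_deriv_le_of_forall_mem_sphere_norm_le hn0
          (hgd _ h1).diffContOnCl fun w hw => ?_
        refine (hroot n hn 1 (by simp) w).trans ?_
        refine Real.rpow_le_rpow (by positivity) ?_ (by positivity)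
        refine mul_le_mul_of_nonneg_left (Real.exp_le_exp.2 ?_) hC0.le
        refine mul_le_mul_of_nonneg_left ?_ hM
        have h3 : |w.im - z.im| ≤ ‖w - z‖ := by
          have := Complex.abs_im_le_norm (w - z)
          rwa [Complex.sub_im] at this
        rw [mem_sphere_iff_norm] at hw
        rw [hw] at h3
        have h4 : |w.im| ≤ |w.im - z.im| + |z.im| := by
          have := abs_add_le (w.im - z.im) z.im
          rwa [sub_add_cancel] at this
        linarith
      have hinvb : ‖g (-(1 / n)) z‖ ≤ (C * Real.exp (M * |z.im|)) ^ (1 / n : ℝ) := by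
        have := hroot n hn (-1) (by simp) z
        rwa [neg_div] at this
      rw [hLn n hn z, norm_mul, norm_mul, Complex.norm_natCast]
      have hBe : B = Real.exp M * (C * Real.exp (M * |z.im|)) ^ (1 / n : ℝ) := by
        rw [hB]
        have e1 : C * Real.exp (M * (|z.im| + n)) = (C * Real.exp (M * |z.im|)) * Real.exp (M * n) := by
          rw [mul_add, Real.exp_add]; ring
        rw [e1, Real.mul_rpow (by positivity) (by positivity), ← Real.exp_mul, mul_comm]
        congr 2
        field_simp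
      have hX : 0 < C * Real.exp (M * |z.im|) := by positivity
      calc (n : ℝ) * (‖deriv (g (1 / n)) z‖ * ‖g (-(1 / n)) z‖)
          ≤ n * ((B / n) * (C * Real.exp (M * |z.im|)) ^ (1 / n : ℝ)) := by
            gcongr
        _ = B * (C * Real.exp (M * |z.im|)) ^ (1 / n : ℝ) := by field_simp
        _ = Real.exp M * (C * Real.exp (M * |z.im|)) ^ (2 / n : ℝ) := by
            rw [hBe, mul_assoc, ← Real.rpow_add hX]
            congr 2
            ring
    -- let n tend to infinity
    set X : ℝ := C * Real.exp (M * |z.im|) with hX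
    have hX0 : 0 < X := by positivity
    have hlim : Tendsto (fun n : ℕ => Real.exp M * X ^ (2 / n : ℝ)) atTop (𝓝 (Real.exp M * X ^ (0 : ℝ))) := by
      have h1 : Tendsto (fun n : ℕ => (2 / n : ℝ)) atTop (𝓝 0) :=
        tendsto_const_div_atTop_nhds_zero_nat 2
      exact ((Real.continuous_const_rpow hX0.ne').tendsto 0 |>.comp h1).const_mul _
    have h2 := ge_of_tendsto hlim (eventually_atTop.2 ⟨1, fun n hn => key n hn⟩)
    rw [Real.rpow_zero, mul_one] at h2
    have := Real.exp_pos M
    linarith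
  -- Liouville
  have hLc : ∀ z, L z = L 0 := by
    intro z
    refine hLd.apply_eq_apply_of_bounded ?_ z 0
    rw [isBounded_iff_forall_norm_le]
    refine ⟨2 * Real.exp M, ?_⟩
    rintro _ ⟨w, rfl⟩
    exact hLb w
  set c := L 0 with hc
  have hGode : ∀ z, deriv G z = c * G z := by
    intro z
    have h1 := hLc z
    simp only [hL] at h1
    calc deriv G z = deriv G z * (G z * H z) := by rw [hGH, mul_one]
      _ = (deriv G z * H z) * G z := by ring
      _ = c * G z := by rw [h1]
  have hGexp : ∀ z, G z = G 0 * Complex.exp (c * z) := by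
    have hd : ∀ z, HasDerivAt (fun z => G z * Complex.exp (-(c * z))) 0 z := by
      intro z
      have h1 := (hGd z).hasDerivAt
      rw [hGode] at h1
      have h2 : HasDerivAt (fun z => Complex.exp (-(c * z))) (Complex.exp (-(c * z)) * (-(c * 1))) z :=
        ((((hasDerivAt_id z).const_mul c).neg).cexp)
      have h3 := h1.mul h2
      have h4 : c * G z * Complex.exp (-(c * z)) + G z * (Complex.exp (-(c * z)) * (-(c * 1))) = 0 := by
        ring
      rw [h4] at h3
      exact h3
    have hconst : ∀ z, G z * Complex.exp (-(c * z)) = G 0 * Complex.exp (-(c * 0)) := by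
      intro z
      exact is_const_of_deriv_eq_zero (fun w => (hd w).differentiableAt)
        (fun w => (hd w).deriv) z 0
    intro z
    have h1 := hconst z
    rw [mul_zero, neg_zero, Complex.exp_zero, mul_one] at h1
    rw [← h1, mul_assoc, ← Complex.exp_add]
    simp
  -- real c is purely imaginary
  have hre : ∀ t : ℝ, Complex.exp ((φ t : ℂ) * I) = Complex.exp ((φ 0 : ℂ) * I) * Complex.exp (c * t) := by
    intro t
    have h1 := hGexp t
    have h2 := hgt 1 (by simp) t
    have h3 := hgt 1 (by simp) 0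
    rw [one_mul] at h2 h3
    rw [← h2, ← h3]
    exact_mod_cast h1
  have hcre : c.re = 0 := by
    have h1 := hre 1
    have h2 := congrArg norm h1
    rw [norm_mul, Complex.norm_exp_ofReal_mul_I, Complex.norm_exp_ofReal_mul_I, one_mul,
      Complex.norm_exp] at h2
    have h3 : (c * ((1 : ℝ) : ℂ)).re = c.re := by simp
    rw [h3] at h2
    have h4 := h2.symm
    rwa [Real.exp_eq_one_iff] at h4
  refine ⟨c.im, ?_⟩
  have hcI : c = (c.im : ℂ) * I := by
    apply Complex.ext <;> simp [hcre]
  -- the difference is 2 π times an integer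
  set δ : ℝ → ℝ := fun t => φ t - φ 0 - c.im * t with hδ
  have hδc : Continuous δ := by
    simp only [hδ]; fun_prop
  have hδ1 : ∀ t, ∃ n : ℤ, δ t = n * (2 * Real.pi) := by
    intro t
    have h1 := hre t
    rw [hcI, ← Complex.exp_add, Complex.exp_eq_exp_iff_exists_int] at h1
    obtain ⟨n, hn⟩ := h1
    refine ⟨n, ?_⟩
    have h2 : ((δ t : ℝ) : ℂ) * I = ((n * (2 * Real.pi) : ℝ) : ℂ) * I := by
      simp only [hδ]
      push_cast
      linear_combination hn
    have h3 := mul_right_cancel₀ Complex.I_ne_zero h2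
    exact_mod_cast h3
  have hδ0 : δ 0 = 0 := by simp [hδ]
  have hδz : ∀ t, δ t = 0 := by
    intro t
    by_contra hne
    -- intermediate value theorem
    obtain ⟨n, hn⟩ := hδ1 t
    have hpi := Real.pi_pos
    have hn0 : n ≠ 0 := by
      intro h0; rw [h0] at hn; simp at hn; exact hne hn
    -- π or -π is attained by |δ|
    have hcon : IsPreconnected (range fun t => |δ t|) :=
      isPreconnected_range hδc.abs
    have h1 : |δ 0| ∈ range fun t => |δ t| := ⟨0, rfl⟩
    have h2 : |δ t| ∈ range fun t => |δ t| := ⟨t, rfl⟩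
    have h3 : Real.pi ∈ Icc |δ 0| |δ t| := by
      rw [hδ0, abs_zero]
      refine ⟨hpi.le, ?_⟩
      rw [hn, abs_mul, abs_of_pos (by positivity : (0 : ℝ) < 2 * Real.pi)]
      have : (1 : ℝ) ≤ |(n : ℝ)| := by exact_mod_cast Int.one_le_abs hn0
      nlinarith
    obtain ⟨w, hw⟩ := hcon.ordConnected.out h1 h2 h3
    obtain ⟨m, hm⟩ := hδ1 w
    simp only at hw
    rw [hm, abs_mul, abs_of_pos (by positivity : (0 : ℝ) < 2 * Real.pi)] at hw
    have h4 : |(m : ℝ)| * 2 = 1 := by
      have : (|(m : ℝ)| * 2) * Real.pi = 1 * Real.pi := by linarith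
      exact mul_right_cancel₀ hpi.ne' this
    have h5 : |m| * 2 = 1 := by exact_mod_cast h4
    omega
  intro t
  have := hδz t
  simp only [hδ] at this
  linarith

end

end Pool.Agent.R246.WarpA
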