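import Mathlib
import Pool.Agent.R246.WarpA

/-!
# Bounded continuous functions with compactly supported Fourier transform extend to entire
functions along lines, with uniform bounds
-/

namespace Pool.Agent.R246.WarpB

open MeasureTheory FourierTransform SchwartzMap Set Metric Complex
open scoped ContDiff Convolution RealInnerProductSpace Topology

noncomputable section

variable {E : Type*} [NormedAddCommGroup E] [InnerProductSpace ℝ E] [FiniteDimensional ℝ E]
  [MeasurableSpace E] [BorelSpace E]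

/-- `u` has Fourier transform supported in the ball of radius `N` (tested with inverse Fourier
transforms). -/
def FS (u : E → ℂ) (N : ℝ) : Prop :=
  ∀ φ : 𝓢(E, ℂ), (∀ ξ ∈ closedBall (0 : E) N, ξ ∉ tsupport φ) →
    ∫ x, u x * (𝓕⁻ φ : 𝓢(E, ℂ)) x = 0

lemma exists_bump (N : ℝ) (hN : 0 ≤ N) : ∃ χ : 𝓢(E, ℂ), (∀ ξ, ‖ξ‖ ≤ N + 1 → χ ξ = 1) ∧
    (∀ ξ, N + 2 ≤ ‖ξ‖ → χ ξ = 0) := by
  let b : ContDiffBump (0 : E) := ⟨N + 1, N + 2, by linarith, by linarith⟩
  have h1 : HasCompactSupport (fun ξ => ((b ξ : ℝ) : ℂ)) :=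
    b.hasCompactSupport.comp_left (g := fun r : ℝ => (r : ℂ)) (by simp)
  have h2 : ContDiff ℝ ∞ (fun ξ => ((b ξ : ℝ) : ℂ)) :=
    Complex.ofRealCLM.contDiff.comp b.contDiff
  refine ⟨h1.toSchwartzMap h2, ?_, ?_⟩
  · intro ξ hξ
    have : b ξ = 1 := b.one_of_mem_closedBall (by simpa [b] using hξ)
    show ((b ξ : ℝ) : ℂ) = 1
    rw [this]; simp
  · intro ξ hξ
    have : b ξ = 0 := b.zero_of_le_dist (by simpa [b] using hξ)
    show ((b ξ : ℝ) : ℂ) = 0
    rw [this]; simp

lemma exists_L (v : E) (N : ℝ) (hN : 0 ≤ N) : ∃ L : 𝓢(E, ℂ), ∀ ξ, ‖ξ‖ ≤ N →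
    L ξ = -(2 * Real.pi * I * (⟪v, ξ⟫ : ℝ)) := by
  obtain ⟨χ, h1, h2⟩ := exists_bump (E := E) N hN
  have hc : HasCompactSupport (fun ξ : E => -(2 * Real.pi * I * ((⟪v, ξ⟫ : ℝ) : ℂ)) * χ ξ) := by
    refine HasCompactSupport.intro (isCompact_closedBall (0 : E) (N + 2)) ?_
    intro ξ hξ
    have : N + 2 ≤ ‖ξ‖ := by
      rw [mem_closedBall, dist_zero_right, not_le] at hξ
      exact hξ.le
    rw [h2 ξ this, mul_zero]
  have hd : ContDiff ℝ ∞ (fun ξ : E => -(2 * Real.pi * I * ((⟪v, ξ⟫ : ℝ) : ℂ)) * χ ξ) := by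
    refine ContDiff.mul (ContDiff.neg (ContDiff.mul contDiff_const ?_)) (χ.smooth _)
    exact Complex.ofRealCLM.contDiff.comp (contDiff_const.inner ℝ contDiff_id)
  refine ⟨hc.toSchwartzMap hd, ?_⟩
  intro ξ hξ
  show -(2 * Real.pi * I * ((⟪v, ξ⟫ : ℝ) : ℂ)) * χ ξ = _
  rw [h1 ξ (by linarith), mul_one]

lemma integral_norm_conv (f g : 𝓢(E, ℂ)) :
    ∫ y, ‖convolution (ContinuousLinearMap.mul ℂ ℂ) f g y‖ ≤ (∫ y, ‖f y‖) * ∫ y, ‖g y‖ := by
  have h1 : ∫ x, ((fun y => ‖f y‖) ⋆[ContinuousLinearMap.mul ℝ ℝ] (fun y => ‖g y‖)) x =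
      (∫ y, ‖f y‖) * ∫ y, ‖g y‖ := by
    rw [integral_convolution (ContinuousLinearMap.mul ℝ ℝ) f.integrable.norm g.integrable.norm]
    rfl
  rw [← h1]
  refine integral_mono_of_nonneg (Filter.Eventually.of_forall fun _ => norm_nonneg _) ?_
    (Filter.Eventually.of_forall fun x => ?_)
  · exact f.integrable.norm.integrable_convolution (ContinuousLinearMap.mul ℝ ℝ) g.integrable.norm
  · show ‖convolution (ContinuousLinearMap.mul ℂ ℂ) f g x‖ ≤ _
    rw [convolution_apply]
    unfold MeasureTheory.convolution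
    refine (norm_integral_le_integral_norm _).trans (le_of_eq ?_)
    refine integral_congr_ae (Filter.Eventually.of_forall fun y => ?_)
    simp

/-- the kernels -/
lemma exists_K (v : E) (N : ℝ) (hN : 0 ≤ N) : ∃ (χ : 𝓢(E, ℂ)) (K : ℕ → 𝓢(E, ℂ)) (C M : ℝ),
    (∀ ξ, ‖ξ‖ ≤ N + 1 → χ ξ = 1) ∧ (∀ ξ, N + 2 ≤ ‖ξ‖ → χ ξ = 0) ∧ 1 ≤ C ∧ 0 ≤ M ∧
    (∀ m, ∫ y, ‖K m y‖ ≤ C * M ^ m) ∧
    ∀ m ξ, (𝓕 (K m) : 𝓢(E, ℂ)) ξ = (-(2 * Real.pi * I * (⟪v, ξ⟫ : ℝ))) ^ m * χ ξ := by
  obtain ⟨χ, h1, h2⟩ := exists_bump (E := E) N hN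
  obtain ⟨L, hL⟩ := exists_L v (N + 2) (by linarith)
  let K : ℕ → 𝓢(E, ℂ) := fun m => Nat.rec (𝓕⁻ χ)
    (fun _ k => convolution (ContinuousLinearMap.mul ℂ ℂ) k (𝓕⁻ L)) m
  have K0 : K 0 = 𝓕⁻ χ := rfl
  have Ks : ∀ m, K (m + 1) = convolution (ContinuousLinearMap.mul ℂ ℂ) (K m) (𝓕⁻ L) :=
    fun m => rfl
  refine ⟨χ, K, max 1 (∫ y, ‖K 0 y‖), ∫ y, ‖(𝓕⁻ L : 𝓢(E, ℂ)) y‖, h1, h2, le_max_left _ _,
    integral_nonneg fun _ => norm_nonneg _, ?_, ?_⟩
  · intro m
    induction m with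
    | zero => simp
    | succ m ih =>
      rw [Ks]
      refine (integral_norm_conv _ _).trans ?_
      rw [pow_succ, ← mul_assoc]
      exact mul_le_mul_of_nonneg_right ih (integral_nonneg fun _ => norm_nonneg _)
  · intro m
    induction m with
    | zero =>
      intro ξ
      rw [K0, FourierTransform.fourier_fourierInv_eq]
      simp
    | succ m ih =>
      intro ξ
      rw [Ks, fourier_convolution, pairing_apply_apply, ih ξ,
        FourierTransform.fourier_fourierInv_eq]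
      show (-(2 * Real.pi * I * (⟪v, ξ⟫ : ℝ))) ^ m * χ ξ * L ξ = _
      by_cases hξ : ‖ξ‖ ≤ N + 2
      · rw [hL ξ hξ, pow_succ]; ring
      · rw [h2 ξ (not_le.1 hξ).le]; ring

/-- Taylor expansion of the translated kernel -/
lemma hasSum_K (v : E) (N : ℝ) (hN : 0 ≤ N) (χ : 𝓢(E, ℂ)) (K : ℕ → 𝓢(E, ℂ))
    (h2 : ∀ ξ, N + 2 ≤ ‖ξ‖ → χ ξ = 0)
    (hK : ∀ m ξ, (𝓕 (K m) : 𝓢(E, ℂ)) ξ = (-(2 * Real.pi * I * (⟪v, ξ⟫ : ℝ))) ^ m * χ ξ)
    (t : ℝ) (y : E) :
    HasSum (fun m : ℕ => (t : ℂ) ^ m / (m.factorial : ℂ) * K m y) (K 0 (y - t • v)) := by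
  -- pointwise Fourier inversion
  have hinv : ∀ m z, K m z = ∫ ξ, (Real.fourierChar ⟪ξ, z⟫ : ℂ) *
      ((-(2 * Real.pi * I * (⟪v, ξ⟫ : ℝ))) ^ m * χ ξ) := by
    intro m z
    have h : K m = 𝓕⁻ (𝓕 (K m) : 𝓢(E, ℂ)) := (FourierTransform.fourierInv_fourier_eq _).symm
    rw [h, fourierInv_coe, Real.fourierInv_eq]
    refine integral_congr_ae (Filter.Eventually.of_forall fun ξ => ?_)
    show (Real.fourierChar ⟪ξ, z⟫) • (𝓕 (K m) : 𝓢(E, ℂ)) ξ = _
    rw [hK, Circle.smul_def, smul_eq_mul]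
  let F : ℕ → E → ℂ := fun m ξ => (t : ℂ) ^ m / (m.factorial : ℂ) *
    ((Real.fourierChar ⟪ξ, y⟫ : ℂ) * ((-(2 * Real.pi * I * (⟪v, ξ⟫ : ℝ))) ^ m * χ ξ))
  have hFi : ∀ m, Integrable (F m) := by
    intro m
    refine Integrable.const_mul ?_ _
    have h1 : Integrable (fun ξ => (𝓕 (K m) : 𝓢(E, ℂ)) ξ) := (𝓕 (K m) : 𝓢(E, ℂ)).integrable
    have h3 : (fun ξ => (𝓕 (K m) : 𝓢(E, ℂ)) ξ) =
        fun ξ => (-(2 * Real.pi * I * ((⟪v, ξ⟫ : ℝ) : ℂ))) ^ m * χ ξ := by
      funext ξ; exact hK m ξ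
    rw [h3] at h1
    refine (h1.bdd_mul (c := 1) (f := fun ξ : E => (Real.fourierChar ⟪ξ, y⟫ : ℂ)) ?_ ?_)
    · refine Continuous.aestronglyMeasurable ?_
      exact (continuous_subtype_val.comp (Real.continuous_fourierChar.comp
        (continuous_id.inner continuous_const)))
    · exact Filter.Eventually.of_forall fun ξ => (Circle.norm_coe _).le
  set A : ℝ := |t| * (2 * Real.pi * (‖v‖ * (N + 2))) with hA
  have hnorm : ∀ m, ∫ ξ, ‖F m ξ‖ ≤ A ^ m / m.factorial * ∫ ξ, ‖χ ξ‖ := by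
    intro m
    rw [← integral_const_mul]
    refine integral_mono (hFi m).norm (χ.integrable.norm.const_mul _) fun ξ => ?_
    show ‖F m ξ‖ ≤ A ^ m / m.factorial * ‖χ ξ‖
    by_cases hξ : ‖ξ‖ ≤ N + 2
    · have e1 : ‖F m ξ‖ = |t| ^ m / m.factorial * ((2 * Real.pi * |(⟪v, ξ⟫ : ℝ)|) ^ m * ‖χ ξ‖) := by
        simp only [F, norm_mul, norm_div, norm_pow, Complex.norm_real, Real.norm_eq_abs, norm_neg,
          Circle.norm_coe, one_mul, Complex.norm_I, mul_one, Complex.norm_natCast]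
        rw [abs_of_pos Real.pi_pos]
        simp
      rw [e1, ← mul_assoc, hA, mul_pow |t|]
      refine mul_le_mul_of_nonneg_right ?_ (norm_nonneg _)
      rw [div_mul_eq_mul_div]
      refine div_le_div_of_nonneg_right ?_ (by positivity)
      refine mul_le_mul_of_nonneg_left ?_ (by positivity)
      refine pow_le_pow_left₀ (by positivity) ?_ _
      refine mul_le_mul_of_nonneg_left ?_ (by positivity)
      exact (abs_real_inner_le_norm v ξ).trans (mul_le_mul_of_nonneg_left hξ (norm_nonneg _))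
    · have : χ ξ = 0 := h2 ξ (not_le.1 hξ).le
      simp [F, this]
  have hsum : Summable fun m => ∫ ξ, ‖F m ξ‖ := by
    refine Summable.of_nonneg_of_le (fun m => integral_nonneg fun _ => norm_nonneg _) hnorm ?_
    exact (Real.summable_pow_div_factorial A).mul_right _
  have key := hasSum_integral_of_summable_integral_norm hFi hsum
  have e1 : ∀ m, ∫ ξ, F m ξ = (t : ℂ) ^ m / (m.factorial : ℂ) * K m y := by
    intro m
    rw [hinv m y, ← integral_const_mul]
  have e2 : ∫ ξ, ∑' m, F m ξ = K 0 (y - t • v) := by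
    rw [hinv 0]
    refine integral_congr_ae (Filter.Eventually.of_forall fun ξ => ?_)
    show ∑' m, F m ξ = (Real.fourierChar ⟪ξ, y - t • v⟫ : ℂ) *
      ((-(2 * Real.pi * I * (⟪v, ξ⟫ : ℝ))) ^ 0 * χ ξ)
    have e3 : ∀ m, F m ξ = ((t * (-(2 * Real.pi * I * (⟪v, ξ⟫ : ℝ)))) ^ m / (m.factorial : ℂ)) *
        ((Real.fourierChar ⟪ξ, y⟫ : ℂ) * χ ξ) := by
      intro m
      simp only [F]
      rw [mul_pow]; ring
    simp_rw [e3]
    rw [tsum_mul_right]
    have e4 : ∑' m : ℕ, (t * (-(2 * Real.pi * I * (⟪v, ξ⟫ : ℝ)))) ^ m / (m.factorial : ℂ) =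
        Complex.exp (t * (-(2 * Real.pi * I * (⟪v, ξ⟫ : ℝ)))) := by
      rw [Complex.exp_eq_exp_ℂ, NormedSpace.exp_eq_tsum_div]
    rw [e4, pow_zero, one_mul, ← mul_assoc]
    congr 1
    rw [Real.fourierChar_apply, Real.fourierChar_apply, ← Complex.exp_add]
    congr 1
    rw [inner_sub_right, real_inner_smul_right, real_inner_comm v ξ]
    push_cast
    ring
  rw [e2] at key
  simpa [e1] using key

/-- Reproducing formula -/
lemma repr (N : ℝ) (χ k : 𝓢(E, ℂ)) (h1 : ∀ ξ, ‖ξ‖ ≤ N + 1 → χ ξ = 1)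
    (hk : (𝓕 k : 𝓢(E, ℂ)) = χ) (u : E → ℂ) (hu : Continuous u) (B : ℝ) (hB : ∀ x, ‖u x‖ ≤ B)
    (hFS : FS u N) (x : E) : u x = ∫ y, u (x + y) * k y := by
  have hUc : Continuous fun x => ∫ y, u (x + y) * k y := by
    refine continuous_of_dominated (bound := fun y => B * ‖k y‖) ?_ ?_ ?_ ?_
    · intro x
      exact ((hu.comp (continuous_const.add continuous_id)).mul k.continuous).aestronglyMeasurable
    · intro x
      refine Filter.Eventually.of_forall fun y => ?_
      rw [norm_mul]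
      exact mul_le_mul_of_nonneg_right (hB _) (norm_nonneg _)
    · exact k.integrable.norm.const_mul B
    · refine Filter.Eventually.of_forall fun y => ?_
      exact (hu.comp (continuous_id.add continuous_const)).mul continuous_const
  have hae : ∀ᵐ x : E, u x = ∫ y, u (x + y) * k y := by
    refine ae_eq_of_integral_contDiff_smul_eq (μ := (volume : Measure E)) hu.locallyIntegrable
      hUc.locallyIntegrable ?_
    intro ψ hψ hψc
    have c1 : HasCompactSupport (fun ξ => ((ψ ξ : ℝ) : ℂ)) :=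
      hψc.comp_left (g := fun r : ℝ => (r : ℂ)) (by simp)
    have c2 : ContDiff ℝ ∞ (fun ξ => ((ψ ξ : ℝ) : ℂ)) := Complex.ofRealCLM.contDiff.comp hψ
    let Ψ : 𝓢(E, ℂ) := c1.toSchwartzMap c2
    have hΨ : ∀ x, Ψ x = (ψ x : ℂ) := fun x => rfl
    let D : 𝓢(E, ℂ) := Ψ - convolution (ContinuousLinearMap.mul ℂ ℂ) Ψ k
    have hFD : ∀ ξ, (𝓕 D : 𝓢(E, ℂ)) ξ = (𝓕 Ψ : 𝓢(E, ℂ)) ξ * (1 - χ ξ) := by
      intro ξ
      have : (𝓕 D : 𝓢(E, ℂ)) = 𝓕 Ψ - 𝓕 (convolution (ContinuousLinearMap.mul ℂ ℂ) Ψ k) := by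
        simp only [D]
        exact map_sub (fourierCLM ℂ 𝓢(E, ℂ)) _ _
      rw [this, _root_.sub_apply, fourier_convolution, pairing_apply_apply, hk]
      show (𝓕 Ψ : 𝓢(E, ℂ)) ξ - (𝓕 Ψ : 𝓢(E, ℂ)) ξ * χ ξ = _
      ring
    have hz : ∫ x, u x * D x = 0 := by
      have h3 := hFS (𝓕 D) (by
        intro ξ hξ
        rw [notMem_tsupport_iff_eventuallyEq]
        have : ball (0 : E) (N + 1) ∈ 𝓝 ξ := by
          refine isOpen_ball.mem_nhds ?_
          rw [mem_closedBall, dist_zero_right] at hξ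
          rw [mem_ball, dist_zero_right]; linarith
        filter_upwards [this] with η hη
        rw [mem_ball, dist_zero_right] at hη
        rw [hFD, h1 η hη.le]
        simp)
      rwa [FourierTransform.fourierInv_fourier_eq] at h3
    -- split
    have hi1 : Integrable fun x => u x * Ψ x :=
      Ψ.integrable.bdd_mul hu.aestronglyMeasurable (Filter.Eventually.of_forall hB)
    have hi2 : Integrable fun x => u x * convolution (ContinuousLinearMap.mul ℂ ℂ) Ψ k x :=
      (convolution (ContinuousLinearMap.mul ℂ ℂ) Ψ k).integrable.bdd_mul hu.aestronglyMeasurable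
        (Filter.Eventually.of_forall hB)
    have hsplit : ∫ x, u x * Ψ x =
        ∫ x, u x * convolution (ContinuousLinearMap.mul ℂ ℂ) Ψ k x := by
      rw [← sub_eq_zero, ← integral_sub hi1 hi2, ← hz]
      refine integral_congr_ae (Filter.Eventually.of_forall fun y => ?_)
      show u y * Ψ y - u y * _ = u y * D y
      simp only [D, _root_.sub_apply]
      ring
    have hL : ∫ x, ψ x • u x = ∫ x, u x * Ψ x := by
      refine integral_congr_ae (Filter.Eventually.of_forall fun y => ?_)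
      show ψ y • u y = u y * Ψ y
      rw [hΨ, mul_comm, Complex.real_smul]
    rw [hL, hsplit]
    -- Fubini
    have hint : Integrable (fun p : E × E => u p.1 * (Ψ p.2 * k (p.1 - p.2)))
        ((volume : Measure E).prod volume) := by
      have h4 := Ψ.integrable.convolution_integrand (ContinuousLinearMap.mul ℂ ℂ) k.integrable
        (μ := (volume : Measure E)) (ν := (volume : Measure E))
      refine h4.bdd_mul (c := B) ?_ (Filter.Eventually.of_forall fun p => hB _)
      exact (hu.comp continuous_fst).aestronglyMeasurable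
    have s1 : ∫ z, u z * convolution (ContinuousLinearMap.mul ℂ ℂ) Ψ k z =
        ∫ z, ∫ t, u z * (Ψ t * k (z - t)) := by
      refine integral_congr_ae (Filter.Eventually.of_forall fun z => ?_)
      show u z * convolution (ContinuousLinearMap.mul ℂ ℂ) Ψ k z = ∫ t, u z * (Ψ t * k (z - t))
      rw [integral_const_mul, convolution_apply]
      rfl
    rw [s1, integral_integral_swap hint]
    refine integral_congr_ae (Filter.Eventually.of_forall fun t => ?_)
    show ∫ z, u z * (Ψ t * k (z - t)) = ψ t • ∫ y, u (t + y) * k y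
    rw [Complex.real_smul, ← hΨ, ← integral_const_mul,
      ← integral_add_left_eq_self (fun z => u z * (Ψ t * k (z - t))) t]
    refine integral_congr_ae (Filter.Eventually.of_forall fun y => ?_)
    show u (t + y) * (Ψ t * k (t + y - t)) = Ψ t * (u (t + y) * k y)
    rw [add_sub_cancel_left]; ring
  have := (Continuous.ae_eq_iff_eq (volume : Measure E) hu hUc).1 hae
  exact congrFun this x

theorem ext_of_supp (N : ℝ) (hN : 0 ≤ N) (v : E) : ∃ C M : ℝ, 1 ≤ C ∧ 0 ≤ M ∧
    ∀ u : E → ℂ, Continuous u → (∀ x, ‖u x‖ ≤ 1) → FS u N → ∀ x : E,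
      ∃ g : ℂ → ℂ, Differentiable ℂ g ∧ (∀ t : ℝ, g t = u (x + t • v)) ∧
        ∀ z, ‖g z‖ ≤ C * Real.exp (M * |z.im|) := by
  obtain ⟨χ, K, C, M, h1, h2, hC, hM, hKn, hK⟩ := exists_K v N hN
  refine ⟨C, M, hC, hM, ?_⟩
  intro u hu hu1 hFS
  have hK0 : (𝓕 (K 0) : 𝓢(E, ℂ)) = χ := by
    ext ξ; rw [hK]; simp
  -- coefficients
  let c : E → ℕ → ℂ := fun x m => ∫ y, u (x + y) * K m y
  have hi : ∀ x m, Integrable fun y => u (x + y) * K m y := by
    intro x m
    exact (K m).integrable.bdd_mul (c := 1)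
      (hu.comp (continuous_const.add continuous_id)).aestronglyMeasurable
      (Filter.Eventually.of_forall fun y => hu1 _)
  have hc : ∀ x m, ‖c x m‖ ≤ C * M ^ m := by
    intro x m
    refine (norm_integral_le_integral_norm _).trans (le_trans ?_ (hKn m))
    refine integral_mono (hi x m).norm (K m).integrable.norm fun y => ?_
    show ‖u (x + y) * K m y‖ ≤ ‖K m y‖
    rw [norm_mul]
    exact mul_le_of_le_one_left (norm_nonneg _) (hu1 _)
  let g : E → ℂ → ℂ := fun x z => ∑' m : ℕ, z ^ m / (m.factorial : ℂ) * c x m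
  have hterm : ∀ x (z : ℂ) (m : ℕ), ‖z ^ m / (m.factorial : ℂ) * c x m‖ ≤
      C * ((M * ‖z‖) ^ m / m.factorial) := by
    intro x z m
    rw [norm_mul, norm_div, norm_pow, Complex.norm_natCast, mul_pow]
    have := hc x m
    calc ‖z‖ ^ m / (m.factorial : ℝ) * ‖c x m‖ ≤ ‖z‖ ^ m / (m.factorial : ℝ) * (C * M ^ m) :=
          mul_le_mul_of_nonneg_left this (by positivity)
      _ = _ := by ring
  have hgb : ∀ x z, ‖g x z‖ ≤ C * Real.exp (M * ‖z‖) := by
    intro x z
    have hs : HasSum (fun m : ℕ => C * ((M * ‖z‖) ^ m / m.factorial))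
        (C * Real.exp (M * ‖z‖)) := by
      have : HasSum (fun m : ℕ => (M * ‖z‖) ^ m / (m.factorial : ℝ)) (Real.exp (M * ‖z‖)) := by
        have h := NormedSpace.expSeries_div_hasSum_exp (𝔸 := ℝ) (M * ‖z‖)
        rw [← Real.exp_eq_exp_ℝ] at h
        exact h
      exact this.mul_left C
    exact tsum_of_norm_bounded hs (hterm x z)
  have hgd : ∀ x, Differentiable ℂ (g x) := by
    intro x z
    have hd : DifferentiableOn ℂ (g x) (ball 0 (‖z‖ + 1)) := by
      refine differentiableOn_tsum_of_summable_norm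
        (u := fun m : ℕ => C * ((M * (‖z‖ + 1)) ^ m / m.factorial)) ?_ ?_ isOpen_ball ?_
      · exact (Real.summable_pow_div_factorial _).mul_left C
      · intro m
        exact (((differentiable_id.pow m).div_const _).mul_const _).differentiableOn
      · intro m w hw
        refine (hterm x w m).trans ?_
        refine mul_le_mul_of_nonneg_left ?_ (by linarith)
        refine div_le_div_of_nonneg_right ?_ (by positivity)
        refine pow_le_pow_left₀ (by positivity) ?_ _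
        refine mul_le_mul_of_nonneg_left ?_ hM
        rw [mem_ball, dist_zero_right] at hw
        exact hw.le
    exact hd.differentiableAt (isOpen_ball.mem_nhds (by
      rw [mem_ball, dist_zero_right]; linarith))
  have hgr : ∀ x (t : ℝ), g x t = u (x + t • v) := by
    intro x t
    -- sum inside the integral
    let F : ℕ → E → ℂ := fun m y => u (x + y) * ((t : ℂ) ^ m / (m.factorial : ℂ) * K m y)
    have hFi : ∀ m, Integrable (F m) := by
      intro m
      have := (hi x m).const_mul ((t : ℂ) ^ m / (m.factorial : ℂ))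
      refine this.congr (Filter.Eventually.of_forall fun y => ?_)
      simp only [F]; ring
    have hFn : ∀ m, ∫ y, ‖F m y‖ ≤ C * ((M * |t|) ^ m / m.factorial) := by
      intro m
      have : ∫ y, ‖F m y‖ ≤ ∫ y, |t| ^ m / m.factorial * ‖K m y‖ := by
        refine integral_mono (hFi m).norm ((K m).integrable.norm.const_mul _) fun y => ?_
        show ‖F m y‖ ≤ |t| ^ m / m.factorial * ‖K m y‖
        simp only [F]
        rw [norm_mul, norm_mul, norm_div, norm_pow, Complex.norm_natCast, Complex.norm_real,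
          Real.norm_eq_abs]
        exact mul_le_of_le_one_left (by positivity) (hu1 _)
      refine this.trans ?_
      rw [integral_const_mul]
      calc |t| ^ m / (m.factorial : ℝ) * ∫ y, ‖K m y‖ ≤ |t| ^ m / (m.factorial : ℝ) * (C * M ^ m) :=
            mul_le_mul_of_nonneg_left (hKn m) (by positivity)
        _ = _ := by rw [mul_pow]; ring
    have hsum : Summable fun m => ∫ y, ‖F m y‖ := by
      refine Summable.of_nonneg_of_le (fun m => integral_nonneg fun _ => norm_nonneg _) hFn ?_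
      exact (Real.summable_pow_div_factorial _).mul_left C
    have key := hasSum_integral_of_summable_integral_norm hFi hsum
    have e1 : ∀ m, ∫ y, F m y = (t : ℂ) ^ m / (m.factorial : ℂ) * c x m := by
      intro m
      simp only [F, c]
      rw [← integral_const_mul]
      refine integral_congr_ae (Filter.Eventually.of_forall fun y => ?_)
      show u (x + y) * ((t : ℂ) ^ m / (m.factorial : ℂ) * K m y) = _
      ring
    have e2 : ∫ y, ∑' m, F m y = u (x + t • v) := by
      rw [repr N χ (K 0) h1 hK0 u hu 1 hu1 hFS (x + t • v),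
        ← integral_sub_right_eq_self (fun y => u (x + t • v + y) * K 0 y) (t • v)]
      refine integral_congr_ae (Filter.Eventually.of_forall fun y => ?_)
      show ∑' m, F m y = u (x + t • v + (y - t • v)) * K 0 (y - t • v)
      simp only [F]
      rw [tsum_mul_left, (hasSum_K v N hN χ K h2 hK t y).tsum_eq]
      congr 2
      abel
    rw [← e2, ← key.tsum_eq]
    simp only [e1]
    rfl
  intro x
  refine ⟨g x, hgd x, hgr x, ?_⟩
  intro z
  -- shift the base point
  have hshift : g x = fun w => g (x + z.re • v) (w - z.re) := by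
    refine WarpA.eq_of_real (hgd x) ((hgd _).comp (differentiable_id.sub_const _)) ?_
    intro t
    show g x t = g (x + z.re • v) ((t : ℂ) - z.re)
    rw [← Complex.ofReal_sub, hgr, hgr, sub_smul]
    congr 1
    abel
  rw [hshift]
  refine (hgb _ _).trans (le_of_eq ?_)
  have : ‖z - z.re‖ = |z.im| := by
    have : z - z.re = z.im * I := by
      apply Complex.ext <;> simp
    rw [this]; simp
  rw [this]

end

end Pool.Agent.R246.WarpB
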