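import Mathlib
import Pool.Agent.H153R4.Pl
import Pool.Agent.R246.WarpB

/-!
# Bandlimit preserving maps: the Baire category argument
-/

namespace Pool.Agent.R246.WarpC

open MeasureTheory FourierTransform SchwartzMap Set Metric Complex
open scoped RealInnerProductSpace Topology

noncomputable section

variable {E : Type*} [NormedAddCommGroup E] [InnerProductSpace ℝ E] [FiniteDimensional ℝ E]
  [MeasurableSpace E] [BorelSpace E]

/-- `g` is the `L²` Fourier transform of the `L²` function `f`. -/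
def IsFourierL2 (f g : E → ℂ) : Prop :=
  MemLp f 2 volume ∧ MemLp g 2 volume ∧
    ∀ φ : 𝓢(E, ℂ), ∫ x, f x * (𝓕 φ : 𝓢(E, ℂ)) x = ∫ ξ, g ξ * φ ξ

/-- `f` is (the continuous representative of) a bandlimited function. -/
def Bandlimited (f : E → ℂ) : Prop :=
  Continuous f ∧ ∃ g, IsFourierL2 f g ∧ ∃ K, IsCompact K ∧ ∀ᵐ ξ, ξ ∉ K → g ξ = 0

/-- the bounded function `u` has compactly supported distributional Fourier transform -/
def CompactSpectrum (u : E → ℂ) : Prop :=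
  ∃ K : Set E, IsCompact K ∧ ∀ φ : 𝓢(E, ℂ), Disjoint (tsupport φ) K →
    ∫ x, u x * (𝓕 φ : 𝓢(E, ℂ)) x = 0

lemma continuous_four {F : E → ℂ} (h1 : Integrable F) : Continuous (𝓕 F) := by
  have := VectorFourier.fourierIntegral_continuous (L := innerₗ E) Real.continuous_fourierChar
      continuous_inner h1
  exact this

lemma four_four (φ : 𝓢(E, ℂ)) (ξ : E) :
    (𝓕 (𝓕 φ : 𝓢(E, ℂ)) : 𝓢(E, ℂ)) ξ = φ (-ξ) := by
  have h : φ = 𝓕⁻ (𝓕 φ : 𝓢(E, ℂ)) := (FourierTransform.fourierInv_fourier_eq _).symm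
  conv_rhs => rw [h]
  rw [fourierInv_coe, Real.fourierInv_eq_fourier_neg, neg_neg]
  rfl

lemma bandlimited_four {F : E → ℂ} (h1 : Integrable F) (h2 : MemLp F 2 volume) (R : ℝ)
    (hR : ∀ ξ, R < ‖ξ‖ → F ξ = 0) : Bandlimited (𝓕 F) := by
  refine ⟨continuous_four h1, fun ξ => F (-ξ), ⟨?_, ?_, ?_⟩, closedBall 0 R,
    isCompact_closedBall _ _, ?_⟩
  · exact (memLp_congr_ae (H153R4.fourier_ae_eq F h1 h2)).mp (Lp.memLp _)
  · exact h2.comp_measurePreserving (Measure.measurePreserving_neg _)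
  · intro φ
    have e3 := VectorFourier.integral_fourierIntegral_smul_eq_flip (L := innerₗ E)
      Real.continuous_fourierChar continuous_inner h1 (𝓕 φ : 𝓢(E, ℂ)).integrable
      (μ := volume) (ν := volume)
    simp only [flip_innerₗ] at e3
    have e4 : ∫ x, 𝓕 F x * (𝓕 φ : 𝓢(E, ℂ)) x =
        ∫ x, F x * (𝓕 (𝓕 φ : 𝓢(E, ℂ)) : 𝓢(E, ℂ)) x := e3
    rw [e4, ← integral_neg_eq_self (fun x => F x * (𝓕 (𝓕 φ : 𝓢(E, ℂ)) : 𝓢(E, ℂ)) x)]
    refine integral_congr_ae (Filter.Eventually.of_forall fun x => ?_)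
    show F (-x) * (𝓕 (𝓕 φ : 𝓢(E, ℂ)) : 𝓢(E, ℂ)) (-x) = F (-x) * φ x
    rw [four_four, neg_neg]
  · refine Filter.Eventually.of_forall fun ξ hξ => hR _ ?_
    rw [mem_closedBall, dist_zero_right, not_le] at hξ
    rwa [norm_neg]

/-- the pairing of the exponential `x ↦ e(-⟪ω, γ x⟫)` with `𝓕 φ` -/
def Psi (γ : E → E) (φ : 𝓢(E, ℂ)) (ω : E) : ℂ :=
  ∫ x, (Real.fourierChar (-⟪ω, γ x⟫) : ℂ) * (𝓕 φ : 𝓢(E, ℂ)) x

lemma cont_char (γ : E → E) (hγ : Continuous γ) :
    Continuous fun p : E × E => (Real.fourierChar (-⟪p.1, γ p.2⟫) : ℂ) :=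
  continuous_subtype_val.comp (Real.continuous_fourierChar.comp
    (continuous_fst.inner (hγ.comp continuous_snd)).neg)

lemma continuous_Psi (γ : E → E) (hγ : Continuous γ) (φ : 𝓢(E, ℂ)) : Continuous (Psi γ φ) := by
  refine continuous_of_dominated (bound := fun x => ‖(𝓕 φ : 𝓢(E, ℂ)) x‖) ?_ ?_ ?_ ?_
  · intro ω
    refine Continuous.aestronglyMeasurable ?_
    exact ((cont_char γ hγ).comp (Continuous.prodMk_right ω)).mul (𝓕 φ : 𝓢(E, ℂ)).continuous
  · intro ω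
    refine Filter.Eventually.of_forall fun x => ?_
    rw [norm_mul, Circle.norm_coe, one_mul]
  · exact (𝓕 φ : 𝓢(E, ℂ)).integrable.norm
  · refine Filter.Eventually.of_forall fun x => ?_
    exact ((cont_char γ hγ).comp (Continuous.prodMk_left x)).mul continuous_const

lemma norm_Psi_le (γ : E → E) (φ : 𝓢(E, ℂ)) (ω : E) :
    ‖Psi γ φ ω‖ ≤ ∫ x, ‖(𝓕 φ : 𝓢(E, ℂ)) x‖ := by
  refine (norm_integral_le_integral_norm _).trans (le_of_eq ?_)
  refine integral_congr_ae (Filter.Eventually.of_forall fun x => ?_)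
  simp only [norm_mul, Circle.norm_coe, one_mul]

lemma fubini (γ : E → E) (hγ : Continuous γ) {F : E → ℂ} (h1 : Integrable F) (φ : 𝓢(E, ℂ)) :
    ∫ x, 𝓕 F (γ x) * (𝓕 φ : 𝓢(E, ℂ)) x = ∫ ω, F ω * Psi γ φ ω := by
  have hint : Integrable (fun p : E × E =>
      (Real.fourierChar (-⟪p.2, γ p.1⟫) : ℂ) * ((𝓕 φ : 𝓢(E, ℂ)) p.1 * F p.2))
      ((volume : Measure E).prod volume) := by
    have h4 := (𝓕 φ : 𝓢(E, ℂ)).integrable.mul_prod h1 (μ := (volume : Measure E))
      (ν := (volume : Measure E))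
    refine h4.bdd_mul (c := 1) ?_ (Filter.Eventually.of_forall fun p => (Circle.norm_coe _).le)
    exact ((cont_char γ hγ).comp continuous_swap).aestronglyMeasurable
  have s1 : ∫ x, 𝓕 F (γ x) * (𝓕 φ : 𝓢(E, ℂ)) x =
      ∫ x, ∫ ω, (Real.fourierChar (-⟪ω, γ x⟫) : ℂ) * ((𝓕 φ : 𝓢(E, ℂ)) x * F ω) := by
    refine integral_congr_ae (Filter.Eventually.of_forall fun x => ?_)
    show 𝓕 F (γ x) * (𝓕 φ : 𝓢(E, ℂ)) x =
      ∫ ω, (Real.fourierChar (-⟪ω, γ x⟫) : ℂ) * ((𝓕 φ : 𝓢(E, ℂ)) x * F ω)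
    rw [Real.fourier_eq, ← integral_mul_const]
    refine integral_congr_ae (Filter.Eventually.of_forall fun ω => ?_)
    show (Real.fourierChar (-⟪ω, γ x⟫) • F ω) * (𝓕 φ : 𝓢(E, ℂ)) x = _
    rw [Circle.smul_def, smul_eq_mul]; ring
  rw [s1, integral_integral_swap hint]
  refine integral_congr_ae (Filter.Eventually.of_forall fun ω => ?_)
  show ∫ x, (Real.fourierChar (-⟪ω, γ x⟫) : ℂ) * ((𝓕 φ : 𝓢(E, ℂ)) x * F ω) = F ω * Psi γ φ ω
  unfold Psi
  rw [← integral_const_mul]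
  refine integral_congr_ae (Filter.Eventually.of_forall fun x => ?_)
  show (Real.fourierChar (-⟪ω, γ x⟫) : ℂ) * ((𝓕 φ : 𝓢(E, ℂ)) x * F ω) = _
  ring

/-- Baire: the exponentials composed with `γ` have uniformly compactly supported spectrum. -/
theorem baire (γ : E → E) (hγ : Continuous γ)
    (H : ∀ f : E → ℂ, Bandlimited f → CompactSpectrum (fun x => f (γ x))) (R : ℝ) :
    ∃ N : ℕ, ∀ φ : 𝓢(E, ℂ), (∀ ξ ∈ closedBall (0 : E) N, ξ ∉ tsupport φ) →
      ∀ ω : E, ‖ω‖ < R → Psi γ φ ω = 0 := by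
  set μ : Measure E := volume.restrict (closedBall 0 R) with hμ
  have hfin : IsFiniteMeasure μ := ⟨by
    rw [hμ, Measure.restrict_apply_univ]
    exact measure_closedBall_lt_top⟩
  -- the functionals
  have hG : ∀ φ : 𝓢(E, ℂ), MemLp (fun ω => (starRingEnd ℂ) (Psi γ φ ω)) 2 μ := by
    intro φ
    refine MemLp.of_bound (Continuous.aestronglyMeasurable ?_) (∫ x, ‖(𝓕 φ : 𝓢(E, ℂ)) x‖)
      (Filter.Eventually.of_forall fun ω => ?_)
    · exact Complex.continuous_conj.comp (continuous_Psi γ hγ φ)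
    · rw [RCLike.norm_conj]
      exact norm_Psi_le γ φ ω
  let G : 𝓢(E, ℂ) → Lp ℂ 2 μ := fun φ => (hG φ).toLp
  have hinner : ∀ (φ : 𝓢(E, ℂ)) (F : Lp ℂ 2 μ), inner ℂ (G φ) F = ∫ ω, F ω * Psi γ φ ω ∂μ := by
    intro φ F
    rw [L2.inner_def]
    refine integral_congr_ae ?_
    filter_upwards [(hG φ).coeFn_toLp] with ω hω
    rw [RCLike.inner_apply, hω]
    simp
  let A : ℕ → Submodule ℂ (Lp ℂ 2 μ) := fun N =>
    ⨅ φ : {φ : 𝓢(E, ℂ) // ∀ ξ ∈ closedBall (0 : E) N, ξ ∉ tsupport φ},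
      LinearMap.ker (innerSL ℂ (G φ.1) : Lp ℂ 2 μ →L[ℂ] ℂ).toLinearMap
  have hAmem : ∀ N F, F ∈ A N ↔ ∀ φ : 𝓢(E, ℂ), (∀ ξ ∈ closedBall (0 : E) N, ξ ∉ tsupport φ) →
      inner ℂ (G φ) F = 0 := by
    intro N F
    simp only [A, Submodule.mem_iInf, Subtype.forall]
    rfl
  have hclosed : ∀ N, IsClosed (A N : Set (Lp ℂ 2 μ)) := by
    intro N
    simp only [A, Submodule.coe_iInf]
    exact isClosed_iInter fun φ => (innerSL ℂ (G φ.1)).isClosed_ker
  have hunion : ⋃ N, (A N : Set (Lp ℂ 2 μ)) = univ := by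
    refine eq_univ_of_forall fun F => ?_
    -- extension by zero
    let F' : E → ℂ := (closedBall (0 : E) R).indicator F
    have hF2 : MemLp F' 2 volume :=
      (memLp_indicator_iff_restrict isClosed_closedBall.measurableSet).2 (Lp.memLp F)
    have hF1 : Integrable F' volume := by
      have : Integrable F μ := (Lp.memLp F).integrable (by norm_num)
      exact (integrable_indicator_iff isClosed_closedBall.measurableSet).2 this
    have hb : Bandlimited (𝓕 F') := bandlimited_four hF1 hF2 R (by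
      intro ξ hξ
      refine indicator_of_notMem ?_ _
      rw [mem_closedBall, dist_zero_right, not_le]
      exact hξ)
    obtain ⟨K, hK, hKz⟩ := H _ hb
    obtain ⟨r, hr⟩ := hK.isBounded.subset_closedBall (0 : E)
    obtain ⟨N, hN⟩ := exists_nat_ge r
    refine mem_iUnion.2 ⟨N, ?_⟩
    show F ∈ A N
    rw [hAmem]
    intro φ hφ
    have h5 := hKz φ (by
      rw [Set.disjoint_left]
      intro ξ hξ hξK
      exact hφ ξ (closedBall_subset_closedBall hN (hr hξK)) hξ)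
    have h6 : ∫ x, 𝓕 F' (γ x) * (𝓕 φ : 𝓢(E, ℂ)) x = 0 := h5
    rw [fubini γ hγ hF1 φ] at h6
    have h7 : ∫ ω, F ω * Psi γ φ ω ∂μ = ∫ ω in closedBall (0 : E) R, F ω * Psi γ φ ω := rfl
    rw [hinner, h7, ← integral_indicator isClosed_closedBall.measurableSet, ← h6]
    refine integral_congr_ae (Filter.Eventually.of_forall fun ω => ?_)
    show (closedBall (0 : E) R).indicator (fun ω => F ω * Psi γ φ ω) ω = F' ω * Psi γ φ ω
    simp only [F']
    by_cases hω : ω ∈ closedBall (0 : E) R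
    · rw [indicator_of_mem hω, indicator_of_mem hω]
    · rw [indicator_of_notMem hω, indicator_of_notMem hω, zero_mul]
  obtain ⟨N, hN⟩ := nonempty_interior_of_iUnion_of_closed hclosed hunion
  have htop : A N = ⊤ := (A N).eq_top_of_nonempty_interior' hN
  refine ⟨N, ?_⟩
  intro φ hφ ω hω
  have hz : G φ = 0 := by
    have : G φ ∈ A N := by rw [htop]; trivial
    exact inner_self_eq_zero.1 ((hAmem N _).1 this φ hφ)
  have hae : ∀ᵐ ω ∂μ, (starRingEnd ℂ) (Psi γ φ ω) = 0 := by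
    have h7 := (hG φ).coeFn_toLp
    have h8 : ((hG φ).toLp : E → ℂ) =ᵐ[μ] 0 := by
      have : (hG φ).toLp = (0 : Lp ℂ 2 μ) := hz
      rw [this]
      exact Lp.coeFn_zero _ _ _
    filter_upwards [h7, h8] with ω h9 h10
    rw [← h9, h10]; rfl
  -- on the open ball
  have hae2 : ∀ᵐ ω ∂(volume.restrict (ball (0 : E) R)), Psi γ φ ω = (fun _ => (0 : ℂ)) ω := by
    have h11 := ae_restrict_of_ae_restrict_of_subset (ball_subset_closedBall (x := (0 : E))
      (ε := R)) hae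
    filter_upwards [h11] with ω h12
    have := congrArg (starRingEnd ℂ) h12
    simpa using this
  have := Measure.eqOn_open_of_ae_eq hae2 isOpen_ball (continuous_Psi γ hγ φ).continuousOn
    continuousOn_const
  exact this (by rwa [mem_ball, dist_zero_right])

/-- A bandlimit preserving continuous map is affine (in the weak sense). -/
theorem affine_of_preserving (γ : E → E) (hγ : Continuous γ)
    (H : ∀ f : E → ℂ, Bandlimited f → CompactSpectrum (fun x => f (γ x))) :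
    ∃ (A : E →ₗ[ℝ] E) (b : E), ∀ x, γ x = A x + b := by
  obtain ⟨N, hN⟩ := baire γ hγ H 2
  -- the exponentials satisfy the support condition
  have hFS : ∀ ω : E, ‖ω‖ ≤ 1 →
      WarpB.FS (fun x => (Real.fourierChar (-⟪ω, γ x⟫) : ℂ)) (N : ℝ) := by
    intro ω hω φ hφ
    -- `φ ∘ neg`
    let φ' : 𝓢(E, ℂ) := 𝓕 (𝓕 φ : 𝓢(E, ℂ))
    have hφ' : ∀ ξ, φ' ξ = φ (-ξ) := four_four φ
    have hinv : (𝓕⁻ φ : 𝓢(E, ℂ)) = 𝓕 φ' := by
      ext y
      have h1 : φ = 𝓕 (𝓕⁻ φ : 𝓢(E, ℂ)) := (FourierTransform.fourier_fourierInv_eq _).symm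
      have h2 : (𝓕⁻ φ : 𝓢(E, ℂ)) y = (𝓕 φ : 𝓢(E, ℂ)) (-y) := by
        rw [fourierInv_coe, Real.fourierInv_eq_fourier_neg]; rfl
      rw [h2]
      exact (four_four (𝓕 φ : 𝓢(E, ℂ)) y).symm
    have h3 := hN φ' (by
      intro ξ hξ h
      have h4 : -ξ ∈ closedBall (0 : E) N := by
        rw [mem_closedBall, dist_zero_right] at hξ ⊢
        rwa [norm_neg]
      apply hφ (-ξ) h4
      have h5 : (φ' : E → ℂ) = φ ∘ (Homeomorph.neg E) := by
        funext ξ; exact hφ' ξ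
      rw [h5, tsupport_comp_eq_preimage] at h
      exact h) ω (by linarith)
    unfold Psi at h3
    rw [hinv]
    exact h3
  -- affine along lines
  have hline : ∀ ω : E, ‖ω‖ ≤ 1 → ∀ x v : E, ∃ a : ℝ, ∀ t : ℝ,
      ⟪ω, γ (x + t • v)⟫ = ⟪ω, γ x⟫ + a * t := by
    intro ω hω x v
    obtain ⟨C, M, hC, hM, hext⟩ := WarpB.ext_of_supp (E := E) (N : ℝ) (Nat.cast_nonneg N) v
    have hcont : ∀ ω : E, Continuous fun x => (Real.fourierChar (-⟪ω, γ x⟫) : ℂ) := fun ω =>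
      (cont_char γ hγ).comp (Continuous.prodMk_right ω)
    have hHas : WarpA.HasExt (fun t : ℝ => -(2 * Real.pi * ⟪ω, γ (x + t • v)⟫)) C M := by
      intro s hs
      have hsω : ‖s • ω‖ ≤ 1 := by
        rw [norm_smul, Real.norm_eq_abs]
        exact mul_le_one₀ hs (norm_nonneg _) hω
      obtain ⟨g, hg1, hg2, hg3⟩ := hext (fun x => (Real.fourierChar (-⟪s • ω, γ x⟫) : ℂ))
        (hcont _) (fun x => (Circle.norm_coe _).le) (hFS _ hsω) x
      refine ⟨g, hg1, ?_, hg3⟩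
      intro t
      rw [hg2, Real.fourierChar_apply]
      congr 1
      rw [real_inner_smul_left]
      push_cast
      ring
    have hc2 : Continuous (fun t : ℝ => -(2 * Real.pi * ⟪ω, γ (x + t • v)⟫)) := by
      refine Continuous.neg (continuous_const.mul (continuous_const.inner (hγ.comp ?_)))
      exact continuous_const.add (continuous_id.smul continuous_const)
    obtain ⟨a, ha⟩ := WarpA.affine_of_ext _ hc2 C M hC hM hHas
    refine ⟨-(a / (2 * Real.pi)), fun t => ?_⟩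
    have h1 := ha t
    simp only [zero_smul, add_zero] at h1
    have hpi : (0 : ℝ) < 2 * Real.pi := by positivity
    field_simp
    linarith
  -- linearity of γ - γ 0
  have hline2 : ∀ ω x v : E, ∃ a : ℝ, ∀ t : ℝ, ⟪ω, γ (x + t • v)⟫ = ⟪ω, γ x⟫ + a * t := by
    intro ω x v
    by_cases hω : ω = 0
    · exact ⟨0, fun t => by simp [hω]⟩
    · have hn : 0 < ‖ω‖ := norm_pos_iff.2 hω
      obtain ⟨a, ha⟩ := hline (‖ω‖⁻¹ • ω) (by
        rw [norm_smul, norm_inv, norm_norm, inv_mul_cancel₀ hn.ne']) x v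
      refine ⟨‖ω‖ * a, fun t => ?_⟩
      have h1 := ha t
      rw [real_inner_smul_left, real_inner_smul_left] at h1
      field_simp at h1
      linarith
  have hsmul : ∀ (t : ℝ) (v : E), γ (t • v) - γ 0 = t • (γ v - γ 0) := by
    intro t v
    refine ext_inner_left ℝ fun ω => ?_
    obtain ⟨a, ha⟩ := hline2 ω 0 v
    have h1 := ha t
    have h2 := ha 1
    rw [zero_add] at h1 h2
    rw [one_smul] at h2
    rw [inner_sub_right, real_inner_smul_right, inner_sub_right, h1, h2]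
    ring
  have hadd : ∀ x y : E, γ (x + y) - γ 0 = (γ x - γ 0) + (γ y - γ 0) := by
    intro x y
    refine ext_inner_left ℝ fun ω => ?_
    obtain ⟨a, ha⟩ := hline2 ω ((2 : ℝ) • x) ((2 : ℝ) • y - (2 : ℝ) • x)
    have h1 := ha (1 / 2)
    have h2 := ha 1
    have e1 : (2 : ℝ) • x + (1 / 2 : ℝ) • ((2 : ℝ) • y - (2 : ℝ) • x) = x + y := by
      module
    have e2 : (2 : ℝ) • x + (1 : ℝ) • ((2 : ℝ) • y - (2 : ℝ) • x) = (2 : ℝ) • y := by
      module
    rw [e1] at h1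
    rw [e2] at h2
    have h3 : ⟪ω, γ ((2 : ℝ) • x)⟫ = ⟪ω, γ 0⟫ + 2 * (⟪ω, γ x⟫ - ⟪ω, γ 0⟫) := by
      have := congrArg (fun z => ⟪ω, z⟫) (hsmul 2 x)
      simp only [inner_sub_right, real_inner_smul_right] at this
      linarith
    have h4 : ⟪ω, γ ((2 : ℝ) • y)⟫ = ⟪ω, γ 0⟫ + 2 * (⟪ω, γ y⟫ - ⟪ω, γ 0⟫) := by
      have := congrArg (fun z => ⟪ω, z⟫) (hsmul 2 y)
      simp only [inner_sub_right, real_inner_smul_right] at this
      linarith
    rw [inner_sub_right, inner_add_right, inner_sub_right, inner_sub_right]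
    linarith
  refine ⟨{ toFun := fun x => γ x - γ 0
            map_add' := hadd
            map_smul' := fun t x => hsmul t x }, γ 0, fun x => ?_⟩
  show γ x = γ x - γ 0 + γ 0
  rw [sub_add_cancel]

end

end Pool.Agent.R246.WarpC
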